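import Pool.Agent.H226.GM.S

/-! ## Uni -/

section

/-!
Uniqueness of smooth solutions of the Galerkin projected equations.
-/

set_option autoImplicit false

open MeasureTheory Set Filter Topology
open scoped ContDiff
open H459R3.NS

namespace Pool.Agent.H226.GB

/-! ### Smooth periodic functions -/

theorem uni_zero {f : V → ℝ} (hf : SP f) (h : ∫ x in cube, f x ^ 2 = 0) (x : V) : f x = 0 := by
  have h1 : n2 (fr f) ^ 2 = 0 := by rw [n2_fr hf, h]
  rw [n2_sq] at h1
  have hs : Summable fun k => ‖fr f k‖ ^ 2 := summable_sq (rap_fr hf).summable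
  have h2 : ∀ k, fr f k = 0 := by
    intro k
    have h3 : ‖fr f k‖ ^ 2 ≤ ∑' k, ‖fr f k‖ ^ 2 := hs.le_tsum k fun _ _ => by positivity
    rw [h1] at h3
    have h4 : ‖fr f k‖ ^ 2 = 0 := le_antisymm h3 (by positivity)
    exact norm_eq_zero.1 (pow_eq_zero_iff (two_ne_zero)|>.1 h4)
  have h3 := S_fr hf x
  have h4 : S (fr f) x = 0 := by
    unfold S
    rw [tsum_congr fun k => by rw [h2 k, zero_mul], tsum_zero]
  rw [h4] at h3
  exact_mod_cast h3.symm

theorem uni_sub {f g : V → ℝ} (hf : SP f) (hg : SP g) : SP (fun x => f x - g x) where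
  smooth := hf.smooth.sub hg.smooth
  per := fun i x => by simp only [hf.per i x, hg.per i x]

theorem uni_smul {f : V → ℝ} (c : ℝ) (hf : SP f) : SP (fun x => c * f x) where
  smooth := contDiff_const.mul hf.smooth
  per := fun i x => by simp only [hf.per i x]

theorem uni_pd_sub {f g : V → ℝ} (hf : SP f) (hg : SP g) (j : Fin 3) (x : V) :
    pd j (fun y => f y - g y) x = pd j f x - pd j g x := by
  unfold pd
  have h : HasFDerivAt (fun y => f y - g y) _ x :=
    (hf.diff x).hasFDerivAt.sub (hg.diff x).hasFDerivAt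
  rw [h.fderiv]
  rfl

theorem uni_sq {f : V → ℝ} (hf : SP f) : IntegrableOn (fun x => f x ^ 2) cube :=
  integrableOn_cube (hf.cont.pow 2)

/-- a field which is orthogonal to all `φ m` is orthogonal to their closed span -/
theorem uni_dens {φ : ℕ → V → V} (hφ : ∀ m i, SP (fun x => φ m x i)) {G f : Fin 3 → V → ℝ}
    (hG : ∀ i, SP (G i)) (hf : ∀ i, SP (f i))
    (h0 : ∀ m, ∑ i, ∫ x in cube, G i x * φ m x i = 0)
    (hd : ∀ ε > 0, ∃ (L : ℕ) (a : ℕ → ℝ),
      ∑ i, ∫ x in cube, (f i x - ∑ m ∈ Finset.range L, a m * φ m x i) ^ 2 < ε) :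
    ∑ i, ∫ x in cube, G i x * f i x = 0 := by
  by_contra hI
  set I := ∑ i, ∫ x in cube, G i x * f i x with hIdef
  set A := ∑ i, ∫ x in cube, G i x ^ 2 with hAdef
  have hA : 0 ≤ A := Finset.sum_nonneg fun i _ => integral_nonneg fun x => by positivity
  have hI2 : 0 < I ^ 2 := by positivity
  obtain ⟨L, a, h⟩ := hd (I ^ 2 * (A + 2) / (A + 1) ^ 2) (by positivity)
  have hH : ∀ i, SP (fun x => f i x - ∑ m ∈ Finset.range L, a m * φ m x i) := fun i =>
    uni_sub (hf i) (SP.sum fun m _ => uni_smul (a m) (hφ m i))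
  set H : Fin 3 → V → ℝ := fun i x => f i x - ∑ m ∈ Finset.range L, a m * φ m x i with hHdef
  have e1 : ∑ i, ∫ x in cube, G i x * H i x = I := by
    have e2 : ∀ i, ∫ x in cube, G i x * H i x = (∫ x in cube, G i x * f i x) -
        ∑ m ∈ Finset.range L, a m * ∫ x in cube, G i x * φ m x i := by
      intro i
      have e3 : ∀ x, G i x * H i x = G i x * f i x -
          ∑ m ∈ Finset.range L, a m * (G i x * φ m x i) := by
        intro x
        simp only [hHdef]
        rw [mul_sub, Finset.mul_sum]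
        refine congrArg _ (Finset.sum_congr rfl fun m _ => ?_)
        ring
      simp_rw [e3]
      rw [integral_sub ((hG i).mul (hf i)).int
        (SP.sum fun m _ => uni_smul (a m) ((hG i).mul (hφ m i))).int,
        integral_finsetSum _ fun m _ => (uni_smul (a m) ((hG i).mul (hφ m i))).int]
      refine congrArg _ (Finset.sum_congr rfl fun m _ => ?_)
      rw [integral_const_mul]
    rw [Finset.sum_congr rfl fun i _ => e2 i, Finset.sum_sub_distrib, Finset.sum_comm]
    have e4 : ∀ m ∈ Finset.range L, ∑ i, a m * ∫ x in cube, G i x * φ m x i = 0 := by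
      intro m _
      rw [← Finset.mul_sum, h0, mul_zero]
    rw [Finset.sum_congr rfl e4, Finset.sum_const_zero, sub_zero]
  have e5 : ∀ s : ℝ, 0 ≤ s ^ 2 * A + 2 * s * I + ∑ i, ∫ x in cube, H i x ^ 2 := by
    intro s
    have e6 : ∑ i, ∫ x in cube, (s * G i x + H i x) ^ 2 =
        s ^ 2 * A + 2 * s * I + ∑ i, ∫ x in cube, H i x ^ 2 := by
      have e7 : ∀ i, ∫ x in cube, (s * G i x + H i x) ^ 2 =
          s ^ 2 * (∫ x in cube, G i x ^ 2) + 2 * s * (∫ x in cube, G i x * H i x) +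
            ∫ x in cube, H i x ^ 2 := by
        intro i
        have e8 : ∀ x, (s * G i x + H i x) ^ 2 =
            s ^ 2 * G i x ^ 2 + 2 * s * (G i x * H i x) + H i x ^ 2 := fun x => by ring
        simp_rw [e8]
        have i1 : IntegrableOn (fun x => s ^ 2 * G i x ^ 2) cube := (uni_sq (hG i)).const_mul _
        have i2 : IntegrableOn (fun x => 2 * s * (G i x * H i x)) cube :=
          ((hG i).mul (hH i)).int.const_mul _
        have i3 : IntegrableOn (fun x => s ^ 2 * G i x ^ 2 + 2 * s * (G i x * H i x)) cube :=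
          i1.add i2
        have i4 : IntegrableOn (fun x => H i x ^ 2) cube := uni_sq (hH i)
        rw [integral_add i3 i4, integral_add i1 i2, integral_const_mul, integral_const_mul]
      rw [Finset.sum_congr rfl fun i _ => e7 i, Finset.sum_add_distrib, Finset.sum_add_distrib,
        ← Finset.mul_sum, ← Finset.mul_sum, e1]
    rw [← e6]
    exact Finset.sum_nonneg fun i _ => integral_nonneg fun x => by positivity
  have e9 := e5 (-I / (A + 1))
  have e10 : (-I / (A + 1)) ^ 2 * A + 2 * (-I / (A + 1)) * I = -(I ^ 2 * (A + 2) / (A + 1) ^ 2) := by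
    have : A + 1 ≠ 0 := by positivity
    field_simp
    ring
  rw [e10] at e9
  linarith

/-! ### Space-time -/

theorem uni_comp {u : ℝ → V → V} {T : ℝ}
    (h : ContDiffOn ℝ ∞ (fun z : ℝ × V => u z.1 z.2) (Ico 0 T ×ˢ univ)) (i : Fin 3) :
    ContDiffOn ℝ ∞ (fun z : ℝ × V => (fun (t : ℝ) (x : V) => u t x i) z.1 z.2)
      (Ico 0 T ×ˢ univ) :=
  (contDiffOn_pi.1 h) i

theorem uni_sp {φ : ℕ → V → V} {ν T : ℝ} {u : ℝ → V → V} (hu : IsGal φ ν T u) {t : ℝ}
    (ht : t ∈ Ico 0 T) (i : Fin 3) : SP (fun x => u t x i) where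
  smooth := contDiff_slice (f := fun (t : ℝ) (x : V) => u t x i) (uni_comp hu.smooth i) ht
  per := fun j x => congrFun (hu.per t ht j x) i

theorem uni_dt {T : ℝ} {f : ℝ → V → ℝ}
    (hf : ContDiffOn ℝ ∞ (fun z : ℝ × V => f z.1 z.2) (Ico 0 T ×ˢ univ))
    (hp : ∀ t ∈ Ico 0 T, Per (f t)) {t : ℝ} (ht : t ∈ Ioo 0 T) : SP (dt f t) where
  smooth := contDiff_dt hf ht
  per := by
    intro j x
    unfold dt
    apply Filter.EventuallyEq.deriv_eq
    filter_upwards [Ioo_mem_nhds ht.1 ht.2] with s hs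
    exact hp s ⟨hs.1.le, hs.2⟩ j x

theorem uni_dtc {φ : ℕ → V → V} {ν T : ℝ} {u : ℝ → V → V} (hu : IsGal φ ν T u) {t : ℝ}
    (ht : t ∈ Ioo 0 T) (i : Fin 3) : SP (dt (fun s x => u s x i) t) :=
  uni_dt (uni_comp hu.smooth i) (fun s hs j x => congrFun (hu.per s hs j x) i) ht

theorem uni_E {T : ℝ} {f : ℝ → V → ℝ}
    (hf : ContDiffOn ℝ ∞ (fun z : ℝ × V => f z.1 z.2) (Ico 0 T ×ˢ univ)) {t : ℝ}
    (ht : t ∈ Ioo 0 T) : HasDerivAt (fun s => ∫ x in cube, f s x ^ 2)
      (2 * ∫ x in cube, dt f t x * f t x) t := by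
  have h0 : ContDiffOn ℝ 1 (fun z : ℝ × V => f z.1 z.2) (Ioo 0 T ×ˢ univ) :=
    mono_Ioo hf (by norm_cast)
  have h1 := hasDerivAt_int (F := fun s x => f s x ^ 2) (h0.pow 2) ht
  have e : ∫ x in cube, deriv (fun s => f s x ^ 2) t = 2 * ∫ x in cube, dt f t x * f t x := by
    rw [← integral_const_mul]
    refine integral_congr_ae (Eventually.of_forall fun x => ?_)
    have h2 := hasDerivAt_slice h0 ht x
    have h3 : dt f t x = fderiv ℝ (fun z : ℝ × V => f z.1 z.2) (t, x) (1, 0) := dt_eq hf ht x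
    have h4 : HasDerivAt (fun s => f s x ^ 2) (2 * f t x *
        fderiv ℝ (fun z : ℝ × V => f z.1 z.2) (t, x) (1, 0)) t := by
      have e0 : (fun s => f s x ^ 2) = fun s => f s x * f s x := by
        funext s
        ring
      rw [e0]
      exact (h2.fun_mul h2).congr_deriv (by ring)
    show deriv (fun s => f s x ^ 2) t = 2 * (dt f t x * f t x)
    rw [h4.deriv, h3]
    ring
  rw [e] at h1
  exact h1

/-- the residual of the equation -/
noncomputable def uniR (ν : ℝ) (u : ℝ → V → V) (t : ℝ) (i : Fin 3) (x : V) : ℝ :=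
  dt (fun s x => u s x i) t x + ∑ j, u t x j * pd j (fun y => u t y i) x
      - ν * ∑ j, pd j (pd j (fun y => u t y i)) x

theorem uni_R {φ : ℕ → V → V} {ν T : ℝ} {u : ℝ → V → V} (hu : IsGal φ ν T u) {t : ℝ}
    (ht : t ∈ Ioo 0 T) (i : Fin 3) : SP (uniR ν u t i) := by
  have ht' : t ∈ Ico 0 T := ⟨ht.1.le, ht.2⟩
  exact uni_sub (SP.add (uni_dtc hu ht i)
    (SP.sum fun j _ => (uni_sp hu ht' j).mul ((uni_sp hu ht' i).pd j)))
    (uni_smul ν (SP.sum fun j _ => ((uni_sp hu ht' i).pd j).pd j))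

theorem uni_orth {φ : ℕ → V → V} (hφ : ∀ m i, SP (fun x => φ m x i)) {ν T : ℝ}
    {u v : ℝ → V → V} (hu : IsGal φ ν T u) (hv : IsGal φ ν T v) {t : ℝ} (ht : t ∈ Ioo 0 T) :
    ∑ i, ∫ x in cube, (uniR ν u t i x - uniR ν v t i x) * (u t x i - v t x i) = 0 := by
  have ht' : t ∈ Ico 0 T := ⟨ht.1.le, ht.2⟩
  have hG : ∀ i, SP (fun x => uniR ν u t i x - uniR ν v t i x) := fun i =>
    uni_sub (uni_R hu ht i) (uni_R hv ht i)
  have h0 : ∀ m, ∑ i, ∫ x in cube, (uniR ν u t i x - uniR ν v t i x) * φ m x i = 0 := by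
    intro m
    have e1 : ∀ i, ∫ x in cube, (uniR ν u t i x - uniR ν v t i x) * φ m x i =
        (∫ x in cube, uniR ν u t i x * φ m x i) - ∫ x in cube, uniR ν v t i x * φ m x i := by
      intro i
      simp_rw [sub_mul]
      exact integral_sub ((uni_R hu ht i).mul (hφ m i)).int ((uni_R hv ht i).mul (hφ m i)).int
    rw [Finset.sum_congr rfl fun i _ => e1 i, Finset.sum_sub_distrib]
    have e2 : ∑ i, ∫ x in cube, uniR ν u t i x * φ m x i = 0 := hu.eq t ht m
    have e3 : ∑ i, ∫ x in cube, uniR ν v t i x * φ m x i = 0 := hv.eq t ht m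
    rw [e2, e3, sub_zero]
  have h1 := uni_dens hφ hG (fun i => uni_sp hu ht' i) h0 (hu.mem t ht')
  have h2 := uni_dens hφ hG (fun i => uni_sp hv ht' i) h0 (hv.mem t ht')
  have e4 : ∀ i, ∫ x in cube, (uniR ν u t i x - uniR ν v t i x) * (u t x i - v t x i) =
      (∫ x in cube, (uniR ν u t i x - uniR ν v t i x) * u t x i) -
        ∫ x in cube, (uniR ν u t i x - uniR ν v t i x) * v t x i := by
    intro i
    simp_rw [mul_sub]
    exact integral_sub ((hG i).mul (uni_sp hu ht' i)).int ((hG i).mul (uni_sp hv ht' i)).int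
  rw [Finset.sum_congr rfl fun i _ => e4 i, Finset.sum_sub_distrib, h1, h2, sub_zero]

/-- the energy inequality for the difference -/
theorem uni_ineq {φ : ℕ → V → V} (hφ : ∀ m i, SP (fun x => φ m x i)) {ν T : ℝ} (hν : 0 ≤ ν)
    {u v : ℝ → V → V} (hu : IsGal φ ν T u) (hv : IsGal φ ν T v) {t : ℝ} (ht : t ∈ Ioo 0 T)
    {C : ℝ} (hC : ∀ i j, ∀ x ∈ cube, |pd j (fun y => u t y i) x| ≤ C) :
    ∑ i, ∫ x in cube, (dt (fun s x => u s x i) t x - dt (fun s x => v s x i) t x) *
      (u t x i - v t x i) ≤ 3 * C * ∑ i, ∫ x in cube, (u t x i - v t x i) ^ 2 := by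
  have ht' : t ∈ Ico 0 T := ⟨ht.1.le, ht.2⟩
  have hU := fun i => uni_sp hu ht' i
  have hV := fun i => uni_sp hv ht' i
  have hW : ∀ i, SP (fun x => u t x i - v t x i) := fun i => uni_sub (hU i) (hV i)
  have hD : ∀ i, SP (fun x => dt (fun s x => u s x i) t x - dt (fun s x => v s x i) t x) :=
    fun i => uni_sub (uni_dtc hu ht i) (uni_dtc hv ht i)
  -- derivatives of the difference
  have hp1 : ∀ i j, pd j (fun x => u t x i - v t x i) =
      fun x => pd j (fun y => u t y i) x - pd j (fun y => v t y i) x := fun i j =>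
    funext fun x => uni_pd_sub (hU i) (hV i) j x
  have hp2 : ∀ i j x, pd j (pd j (fun x => u t x i - v t x i)) x =
      pd j (pd j (fun y => u t y i)) x - pd j (pd j (fun y => v t y i)) x := by
    intro i j x
    rw [hp1]
    exact uni_pd_sub ((hU i).pd j) ((hV i).pd j) j x
  -- the pointwise identity
  have hpt : ∀ i x, (uniR ν u t i x - uniR ν v t i x) * (u t x i - v t x i) =
      (dt (fun s x => u s x i) t x - dt (fun s x => v s x i) t x) * (u t x i - v t x i) +
      ∑ j, (u t x j - v t x j) * (pd j (fun y => u t y i) x * (u t x i - v t x i)) +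
      ∑ j, v t x j * ((u t x i - v t x i) * pd j (fun x => u t x i - v t x i) x) -
      ν * (lap (fun x => u t x i - v t x i) x * (u t x i - v t x i)) := by
    intro i x
    unfold uniR lap
    simp only [hp2]
    have e1 : ∑ j, (u t x j - v t x j) * (pd j (fun y => u t y i) x * (u t x i - v t x i)) +
      ∑ j, v t x j * ((u t x i - v t x i) * pd j (fun x => u t x i - v t x i) x) =
      (∑ j, u t x j * pd j (fun y => u t y i) x - ∑ j, v t x j * pd j (fun y => v t y i) x) *
        (u t x i - v t x i) := by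
      rw [← Finset.sum_add_distrib, ← Finset.sum_sub_distrib, Finset.sum_mul]
      refine Finset.sum_congr rfl fun j _ => ?_
      rw [hp1]
      ring
    rw [add_assoc ((dt (fun s x => u s x i) t x - dt (fun s x => v s x i) t x) *
      (u t x i - v t x i)), e1, Finset.sum_sub_distrib]
    ring
  have hint : ∀ i, ∫ x in cube, (uniR ν u t i x - uniR ν v t i x) * (u t x i - v t x i) =
      (∫ x in cube, (dt (fun s x => u s x i) t x - dt (fun s x => v s x i) t x) *
        (u t x i - v t x i)) +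
      (∑ j, ∫ x in cube, (u t x j - v t x j) * (pd j (fun y => u t y i) x *
        (u t x i - v t x i))) +
      (∑ j, ∫ x in cube, v t x j * ((u t x i - v t x i) *
        pd j (fun x => u t x i - v t x i) x)) -
      ν * ∫ x in cube, lap (fun x => u t x i - v t x i) x * (u t x i - v t x i) := by
    intro i
    have s1 : SP (fun x => (dt (fun s x => u s x i) t x - dt (fun s x => v s x i) t x) *
        (u t x i - v t x i)) := (hD i).mul (hW i)
    have s2 : ∀ j, SP (fun x => (u t x j - v t x j) * (pd j (fun y => u t y i) x *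
        (u t x i - v t x i))) := fun j => (hW j).mul (((hU i).pd j).mul (hW i))
    have s3 : ∀ j, SP (fun x => v t x j * ((u t x i - v t x i) *
        pd j (fun x => u t x i - v t x i) x)) := fun j => (hV j).mul ((hW i).mul ((hW i).pd j))
    have s4 : SP (fun x => lap (fun x => u t x i - v t x i) x * (u t x i - v t x i)) :=
      (hW i).lap.mul (hW i)
    simp_rw [hpt]
    rw [integral_sub (SP.add (SP.add s1 (SP.sum fun j _ => s2 j)) (SP.sum fun j _ => s3 j)).int
      (uni_smul ν s4).int, integral_add (SP.add s1 (SP.sum fun j _ => s2 j)).int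
      (SP.sum fun j _ => s3 j).int, integral_add s1.int (SP.sum fun j _ => s2 j).int,
      integral_finsetSum _ fun j _ => (s2 j).int, integral_finsetSum _ fun j _ => (s3 j).int,
      integral_const_mul]
  have horth := uni_orth hφ hu hv ht
  rw [Finset.sum_congr rfl fun i _ => hint i, Finset.sum_sub_distrib, Finset.sum_add_distrib,
    Finset.sum_add_distrib] at horth
  have h3 : ∑ i, ∑ j, ∫ x in cube, v t x j * ((u t x i - v t x i) *
        pd j (fun x => u t x i - v t x i) x) = 0 :=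
    Finset.sum_eq_zero fun i _ => transport_zero (v := fun j x => v t x j) hV
      (fun x => hv.divfree t ht' x) (hW i)
  have h4 : ∑ i, ν * ∫ x in cube, lap (fun x => u t x i - v t x i) x * (u t x i - v t x i) ≤ 0 := by
    refine Finset.sum_nonpos fun i _ => ?_
    rw [int_lap_mul (hW i) (hW i)]
    have : 0 ≤ ∑ j, ∫ x in cube, pd j (fun x => u t x i - v t x i) x *
        pd j (fun x => u t x i - v t x i) x :=
      Finset.sum_nonneg fun j _ => integral_nonneg fun x => mul_self_nonneg _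
    nlinarith
  have h2 : ∀ i j, -(C / 2 * ((∫ x in cube, (u t x i - v t x i) ^ 2) +
      ∫ x in cube, (u t x j - v t x j) ^ 2)) ≤
      ∫ x in cube, (u t x j - v t x j) * (pd j (fun y => u t y i) x * (u t x i - v t x i)) := by
    intro i j
    have e1 : C / 2 * ((∫ x in cube, (u t x i - v t x i) ^ 2) +
        ∫ x in cube, (u t x j - v t x j) ^ 2) =
        ∫ x in cube, C / 2 * ((u t x i - v t x i) ^ 2 + (u t x j - v t x j) ^ 2) := by
      rw [integral_const_mul, integral_add (uni_sq (hW i)) (uni_sq (hW j))]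
    rw [e1, ← integral_neg]
    refine setIntegral_mono_on ?_ ?_ measurableSet_Icc fun x hx => ?_
    · exact (((uni_sq (hW i)).add (uni_sq (hW j))).const_mul _).neg
    · exact ((hW j).mul (((hU i).pd j).mul (hW i))).int
    · have e2 := hC i j x hx
      have e3 := abs_le.1 e2
      nlinarith [sq_nonneg (u t x i - v t x i + (u t x j - v t x j)),
        sq_nonneg (u t x i - v t x i - (u t x j - v t x j)),
        mul_nonneg (sub_nonneg.2 e3.2) (sq_nonneg (u t x i - v t x i - (u t x j - v t x j))),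
        mul_nonneg (neg_le_iff_add_nonneg.1 e3.1)
          (sq_nonneg (u t x i - v t x i + (u t x j - v t x j)))]
  have h5 : -(3 * C * ∑ i, ∫ x in cube, (u t x i - v t x i) ^ 2) ≤
      ∑ i, ∑ j, ∫ x in cube, (u t x j - v t x j) * (pd j (fun y => u t y i) x *
        (u t x i - v t x i)) := by
    refine le_trans (le_of_eq ?_) (Finset.sum_le_sum fun i _ => Finset.sum_le_sum fun j _ => h2 i j)
    have e1 : ∀ i j : Fin 3, -(C / 2 * ((∫ x in cube, (u t x i - v t x i) ^ 2) +
      ∫ x in cube, (u t x j - v t x j) ^ 2)) = -(C / 2) * (∫ x in cube, (u t x i - v t x i) ^ 2)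
        + -(C / 2) * ∫ x in cube, (u t x j - v t x j) ^ 2 := fun i j => by ring
    simp_rw [e1, Finset.sum_add_distrib, Finset.sum_const, ← Finset.mul_sum, Finset.card_univ,
      Fintype.card_fin, nsmul_eq_mul, ← Finset.mul_sum]
    push_cast
    ring
  linarith

theorem s_uni : S_uni := by
  intro φ c p g hB ν T u v hν hu hv h0
  have hφ := hB.sp
  intro t ht
  rcases eq_or_lt_of_le ht.1 with h | htpos
  · rw [← h]; exact h0
  -- the bound of the gradient
  have hpdc : ∀ i j, ContinuousOn (fun z : ℝ × V => pd j (fun y => u z.1 y i) z.2)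
      (Ico 0 T ×ˢ univ) := fun i j =>
    (contDiffOn_pd (f := fun (t : ℝ) (x : V) => u t x i) (uni_comp hu.smooth i) j).continuousOn
  have hK : IsCompact (Icc 0 t ×ˢ cube) := isCompact_Icc.prod isCompact_Icc
  have hsub : Icc 0 t ×ˢ cube ⊆ Ico 0 T ×ˢ (univ : Set V) :=
    prod_mono (fun s hs => ⟨hs.1, hs.2.trans_lt ht.2⟩) (subset_univ _)
  choose C hC using fun i j => hK.exists_bound_of_continuousOn ((hpdc i j).mono hsub)
  set M := ∑ i, ∑ j, |C i j| with hM
  have hM0 : 0 ≤ M := Finset.sum_nonneg fun i _ => Finset.sum_nonneg fun j _ => abs_nonneg _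
  have hMb : ∀ s ∈ Icc 0 t, ∀ i j, ∀ x ∈ cube, |pd j (fun y => u s y i) x| ≤ M := by
    intro s hs i j x hx
    have h1 := hC i j (s, x) ⟨hs, hx⟩
    rw [Real.norm_eq_abs] at h1
    refine h1.trans ((le_abs_self _).trans ?_)
    have h2 : |C i j| ≤ ∑ j, |C i j| :=
      Finset.single_le_sum (f := fun j => |C i j|) (fun j _ => abs_nonneg _) (Finset.mem_univ j)
    have h3 : ∑ j, |C i j| ≤ M :=
      Finset.single_le_sum (f := fun i => ∑ j, |C i j|)
        (fun i _ => Finset.sum_nonneg fun j _ => abs_nonneg _) (Finset.mem_univ i)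
    exact h2.trans h3
  -- the energy of the difference
  have hw : ∀ i, ContDiffOn ℝ ∞ (fun z : ℝ × V =>
      (fun (s : ℝ) (x : V) => u s x i - v s x i) z.1 z.2) (Ico 0 T ×ˢ univ) := fun i =>
    (uni_comp hu.smooth i).sub (uni_comp hv.smooth i)
  let E : ℝ → ℝ := fun s => ∑ i, ∫ x in cube, (u s x i - v s x i) ^ 2
  have hEc : ContinuousOn E (Ico 0 T) := by
    refine continuousOn_finsetSum _ fun i _ => ?_
    exact continuousOn_int (F := fun s x => (u s x i - v s x i) ^ 2) ((hw i).continuousOn.pow 2)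
  have hE0 : E 0 = 0 := by
    refine Finset.sum_eq_zero fun i _ => ?_
    rw [h0]
    simp
  have hEn : ∀ s, 0 ≤ E s := fun s =>
    Finset.sum_nonneg fun i _ => integral_nonneg fun x => by positivity
  have hdd : ∀ s ∈ Ioo 0 T, ∀ i x, dt (fun s x => u s x i - v s x i) s x =
      dt (fun s x => u s x i) s x - dt (fun s x => v s x i) s x := by
    intro s hs i x
    have a1 := hasDerivAt_slice (F := fun s x => u s x i)
      (mono_Ioo (f := fun s x => u s x i) (uni_comp hu.smooth i) (by norm_cast)) hs x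
    have a2 := hasDerivAt_slice (F := fun s x => v s x i)
      (mono_Ioo (f := fun s x => v s x i) (uni_comp hv.smooth i) (by norm_cast)) hs x
    have a3 : HasDerivAt (fun s => u s x i - v s x i) _ s := a1.sub a2
    have b1 : dt (fun s x => u s x i) s x = _ := a1.deriv
    have b2 : dt (fun s x => v s x i) s x = _ := a2.deriv
    rw [b1, b2]
    exact a3.deriv
  have hEd : ∀ s ∈ Ioo 0 T, HasDerivAt E (2 * ∑ i, ∫ x in cube,
      (dt (fun s x => u s x i) s x - dt (fun s x => v s x i) s x) * (u s x i - v s x i)) s := by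
    intro s hs
    have a1 : HasDerivAt E (∑ i, 2 * ∫ x in cube,
        dt (fun s x => u s x i - v s x i) s x * (u s x i - v s x i)) s :=
      HasDerivAt.fun_sum fun i _ => uni_E (hw i) hs
    rw [← Finset.mul_sum] at a1
    simp_rw [hdd s hs] at a1
    exact a1
  have hEi : ∀ s ∈ Ioo 0 t, ∃ E', HasDerivAt E E' s ∧ E' ≤ 6 * M * E s := by
    intro s hs
    have hs' : s ∈ Ioo 0 T := ⟨hs.1, hs.2.trans ht.2⟩
    refine ⟨_, hEd s hs', ?_⟩
    have a1 := uni_ineq hφ hν hu hv hs' (hMb s ⟨hs.1.le, hs.2.le⟩)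
    show _ ≤ 6 * M * ∑ i, ∫ x in cube, (u s x i - v s x i) ^ 2
    linarith
  -- Gronwall
  have hanti : AntitoneOn (fun s => E s * Real.exp (-(6 * M) * s)) (Icc 0 t) := by
    refine antitoneOn_of_deriv_nonpos (convex_Icc 0 t) ?_ ?_ ?_
    · exact (hEc.mono fun s hs => ⟨hs.1, hs.2.trans_lt ht.2⟩).mul
        (Continuous.continuousOn (by fun_prop))
    · rw [interior_Icc]
      intro s hs
      obtain ⟨E', a1, -⟩ := hEi s hs
      have a2 : HasDerivAt (fun s => Real.exp (-(6 * M) * s))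
          (Real.exp (-(6 * M) * s) * (-(6 * M) * 1)) s :=
        ((hasDerivAt_id s).const_mul (-(6 * M))).exp
      exact (a1.mul a2).differentiableAt.differentiableWithinAt
    · rw [interior_Icc]
      intro s hs
      obtain ⟨E', a1, a3⟩ := hEi s hs
      have a2 : HasDerivAt (fun s => Real.exp (-(6 * M) * s))
          (Real.exp (-(6 * M) * s) * (-(6 * M) * 1)) s :=
        ((hasDerivAt_id s).const_mul (-(6 * M))).exp
      have a4 : HasDerivAt (fun s => E s * Real.exp (-(6 * M) * s)) _ s := a1.mul a2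
      rw [a4.deriv]
      have a5 : E' * Real.exp (-(6 * M) * s) + E s * (Real.exp (-(6 * M) * s) * (-(6 * M) * 1)) =
          (E' - 6 * M * E s) * Real.exp (-(6 * M) * s) := by ring
      rw [a5]
      exact mul_nonpos_of_nonpos_of_nonneg (by linarith) (Real.exp_pos _).le
  have hfin := hanti ⟨le_refl 0, htpos.le⟩ ⟨htpos.le, le_refl t⟩ htpos.le
  simp only [hE0, zero_mul] at hfin
  have hEt : E t = 0 := by
    refine le_antisymm ?_ (hEn t)
    by_contra hc
    push Not at hc
    have := mul_pos hc (Real.exp_pos (-(6 * M) * t))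
    linarith
  -- conclusion
  funext x
  funext i
  have h1 : ∫ x in cube, (u t x i - v t x i) ^ 2 = 0 := by
    have a1 := (Finset.sum_eq_zero_iff_of_nonneg fun i _ =>
      integral_nonneg (μ := volume.restrict cube)
        (f := fun x => (u t x i - v t x i) ^ 2) fun x => by positivity).1 hEt i
      (Finset.mem_univ i)
    exact a1
  have h2 := uni_zero (uni_sub (uni_sp hu ht i) (uni_sp hv ht i)) h1 x
  exact sub_eq_zero.1 h2

end Pool.Agent.H226.GB

end

/-! ## UniP -/

section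

/-!
Uniqueness of smooth solutions of the projected equations, for the closed span of a set.
-/

set_option autoImplicit false

open MeasureTheory Set Filter Topology
open scoped ContDiff
open H459R3.NS

namespace Pool.Agent.H226.GB

/-- elements of the span are smooth and periodic, and orthogonal to what is orthogonal to `Φ` -/
theorem uniP_span {Φ : Set (V → V)} (hΦ : ∀ w ∈ Φ, ∀ i, SP (fun x => w x i)) {G : Fin 3 → V → ℝ}
    (hG : ∀ i, SP (G i)) (h0 : ∀ w ∈ Φ, ∑ i, ∫ x in cube, G i x * w x i = 0) {w : V → V}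
    (hw : w ∈ Submodule.span ℝ Φ) :
    (∀ i, SP (fun x => w x i)) ∧ ∑ i, ∫ x in cube, G i x * w x i = 0 := by
  induction hw using Submodule.span_induction with
  | mem w hw => exact ⟨hΦ w hw, h0 w hw⟩
  | zero =>
    refine ⟨fun i => ⟨contDiff_const, fun j x => rfl⟩, ?_⟩
    simp
  | add w1 w2 _ _ ih1 ih2 =>
    obtain ⟨a1, b1⟩ := ih1
    obtain ⟨a2, b2⟩ := ih2
    refine ⟨fun i => SP.add (a1 i) (a2 i), ?_⟩
    have e1 : ∀ i, ∫ x in cube, G i x * (w1 + w2) x i =
        (∫ x in cube, G i x * w1 x i) + ∫ x in cube, G i x * w2 x i := by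
      intro i
      have e2 : ∀ x, G i x * (w1 + w2) x i = G i x * w1 x i + G i x * w2 x i := by
        intro x
        rw [Pi.add_apply, Pi.add_apply, mul_add]
      simp_rw [e2]
      exact integral_add ((hG i).mul (a1 i)).int ((hG i).mul (a2 i)).int
    rw [Finset.sum_congr rfl fun i _ => e1 i, Finset.sum_add_distrib, b1, b2, add_zero]
  | smul c w1 _ ih1 =>
    obtain ⟨a1, b1⟩ := ih1
    refine ⟨fun i => uni_smul c (a1 i), ?_⟩
    have e1 : ∀ i, ∫ x in cube, G i x * (c • w1) x i = c * ∫ x in cube, G i x * w1 x i := by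
      intro i
      have e2 : ∀ x, G i x * (c • w1) x i = c * (G i x * w1 x i) := by
        intro x
        rw [Pi.smul_apply, Pi.smul_apply, smul_eq_mul]
        ring
      simp_rw [e2]
      exact integral_const_mul _ _
    rw [Finset.sum_congr rfl fun i _ => e1 i, ← Finset.mul_sum, b1, mul_zero]

/-- a field which is orthogonal to `Φ` is orthogonal to its closed span -/
theorem uniP_dens {Φ : Set (V → V)} (hΦ : ∀ w ∈ Φ, ∀ i, SP (fun x => w x i))
    {G : Fin 3 → V → ℝ} {f : V → V} (hG : ∀ i, SP (G i)) (hf : ∀ i, SP (fun x => f x i))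
    (h0 : ∀ w ∈ Φ, ∑ i, ∫ x in cube, G i x * w x i = 0) (hd : InSpan Φ f) :
    ∑ i, ∫ x in cube, G i x * f x i = 0 := by
  choose w hw hlt using fun n : ℕ => hd (1 / ((n : ℝ) + 1)) (by positivity)
  refine uni_dens (φ := w) (fun m i => (uniP_span hΦ hG h0 (hw m)).1 i) hG hf
    (fun m => (uniP_span hΦ hG h0 (hw m)).2) ?_
  intro ε hε
  obtain ⟨n, hn⟩ := exists_nat_one_div_lt hε
  refine ⟨n + 1, fun m => if m = n then 1 else 0, ?_⟩
  have e1 : ∀ i x, ∑ m ∈ Finset.range (n + 1), (if m = n then (1 : ℝ) else 0) * w m x i =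
      w n x i := by
    intro i x
    rw [Finset.sum_eq_single n]
    · rw [if_pos rfl, one_mul]
    · intro m _ hm
      rw [if_neg hm, zero_mul]
    · intro h
      exact absurd (Finset.mem_range.2 (Nat.lt_succ_self n)) h
  simp_rw [e1]
  exact (hlt n).trans hn

theorem uniP_sp {Φ : Set (V → V)} {ν T : ℝ} {u : ℝ → V → V} (hu : IsPr Φ ν T u) {t : ℝ}
    (ht : t ∈ Ico 0 T) (i : Fin 3) : SP (fun x => u t x i) where
  smooth := contDiff_slice (f := fun (t : ℝ) (x : V) => u t x i) (uni_comp hu.smooth i) ht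
  per := fun j x => congrFun (hu.per t ht j x) i

theorem uniP_dtc {Φ : Set (V → V)} {ν T : ℝ} {u : ℝ → V → V} (hu : IsPr Φ ν T u) {t : ℝ}
    (ht : t ∈ Ioo 0 T) (i : Fin 3) : SP (dt (fun s x => u s x i) t) :=
  uni_dt (uni_comp hu.smooth i) (fun s hs j x => congrFun (hu.per s hs j x) i) ht

theorem uniP_R {Φ : Set (V → V)} {ν T : ℝ} {u : ℝ → V → V} (hu : IsPr Φ ν T u) {t : ℝ}
    (ht : t ∈ Ioo 0 T) (i : Fin 3) : SP (uniR ν u t i) := by
  have ht' : t ∈ Ico 0 T := ⟨ht.1.le, ht.2⟩
  exact uni_sub (SP.add (uniP_dtc hu ht i)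
    (SP.sum fun j _ => (uniP_sp hu ht' j).mul ((uniP_sp hu ht' i).pd j)))
    (uni_smul ν (SP.sum fun j _ => ((uniP_sp hu ht' i).pd j).pd j))

theorem uniP_orth {Φ : Set (V → V)} (hΦ : ∀ w ∈ Φ, ∀ i, SP (fun x => w x i)) {ν T : ℝ}
    {u v : ℝ → V → V} (hu : IsPr Φ ν T u) (hv : IsPr Φ ν T v) {t : ℝ} (ht : t ∈ Ioo 0 T) :
    ∑ i, ∫ x in cube, (uniR ν u t i x - uniR ν v t i x) * (u t x i - v t x i) = 0 := by
  have ht' : t ∈ Ico 0 T := ⟨ht.1.le, ht.2⟩
  have hG : ∀ i, SP (fun x => uniR ν u t i x - uniR ν v t i x) := fun i =>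
    uni_sub (uniP_R hu ht i) (uniP_R hv ht i)
  have h0 : ∀ w ∈ Φ, ∑ i, ∫ x in cube, (uniR ν u t i x - uniR ν v t i x) * w x i = 0 := by
    intro w hw
    have e1 : ∀ i, ∫ x in cube, (uniR ν u t i x - uniR ν v t i x) * w x i =
        (∫ x in cube, uniR ν u t i x * w x i) - ∫ x in cube, uniR ν v t i x * w x i := by
      intro i
      simp_rw [sub_mul]
      exact integral_sub ((uniP_R hu ht i).mul (hΦ w hw i)).int ((uniP_R hv ht i).mul (hΦ w hw i)).int
    rw [Finset.sum_congr rfl fun i _ => e1 i, Finset.sum_sub_distrib]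
    have e2 : ∑ i, ∫ x in cube, uniR ν u t i x * w x i = 0 := hu.eq t ht w hw
    have e3 : ∑ i, ∫ x in cube, uniR ν v t i x * w x i = 0 := hv.eq t ht w hw
    rw [e2, e3, sub_zero]
  have h1 := uniP_dens hΦ hG (fun i => uniP_sp hu ht' i) h0 (hu.mem t ht')
  have h2 := uniP_dens hΦ hG (fun i => uniP_sp hv ht' i) h0 (hv.mem t ht')
  have e4 : ∀ i, ∫ x in cube, (uniR ν u t i x - uniR ν v t i x) * (u t x i - v t x i) =
      (∫ x in cube, (uniR ν u t i x - uniR ν v t i x) * u t x i) -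
        ∫ x in cube, (uniR ν u t i x - uniR ν v t i x) * v t x i := by
    intro i
    simp_rw [mul_sub]
    exact integral_sub ((hG i).mul (uniP_sp hu ht' i)).int ((hG i).mul (uniP_sp hv ht' i)).int
  rw [Finset.sum_congr rfl fun i _ => e4 i, Finset.sum_sub_distrib, h1, h2, sub_zero]

/-- the energy inequality for the difference -/
theorem uniP_ineq {Φ : Set (V → V)} (hΦ : ∀ w ∈ Φ, ∀ i, SP (fun x => w x i)) {ν T : ℝ}
    (hν : 0 ≤ ν) {u v : ℝ → V → V} (hu : IsPr Φ ν T u) (hv : IsPr Φ ν T v) {t : ℝ} (ht : t ∈ Ioo 0 T)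
    {C : ℝ} (hC : ∀ i j, ∀ x ∈ cube, |pd j (fun y => u t y i) x| ≤ C) :
    ∑ i, ∫ x in cube, (dt (fun s x => u s x i) t x - dt (fun s x => v s x i) t x) *
      (u t x i - v t x i) ≤ 3 * C * ∑ i, ∫ x in cube, (u t x i - v t x i) ^ 2 := by
  have ht' : t ∈ Ico 0 T := ⟨ht.1.le, ht.2⟩
  have hU := fun i => uniP_sp hu ht' i
  have hV := fun i => uniP_sp hv ht' i
  have hW : ∀ i, SP (fun x => u t x i - v t x i) := fun i => uni_sub (hU i) (hV i)
  have hD : ∀ i, SP (fun x => dt (fun s x => u s x i) t x - dt (fun s x => v s x i) t x) :=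
    fun i => uni_sub (uniP_dtc hu ht i) (uniP_dtc hv ht i)
  -- derivatives of the difference
  have hp1 : ∀ i j, pd j (fun x => u t x i - v t x i) =
      fun x => pd j (fun y => u t y i) x - pd j (fun y => v t y i) x := fun i j =>
    funext fun x => uni_pd_sub (hU i) (hV i) j x
  have hp2 : ∀ i j x, pd j (pd j (fun x => u t x i - v t x i)) x =
      pd j (pd j (fun y => u t y i)) x - pd j (pd j (fun y => v t y i)) x := by
    intro i j x
    rw [hp1]
    exact uni_pd_sub ((hU i).pd j) ((hV i).pd j) j x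
  -- the pointwise identity
  have hpt : ∀ i x, (uniR ν u t i x - uniR ν v t i x) * (u t x i - v t x i) =
      (dt (fun s x => u s x i) t x - dt (fun s x => v s x i) t x) * (u t x i - v t x i) +
      ∑ j, (u t x j - v t x j) * (pd j (fun y => u t y i) x * (u t x i - v t x i)) +
      ∑ j, v t x j * ((u t x i - v t x i) * pd j (fun x => u t x i - v t x i) x) -
      ν * (lap (fun x => u t x i - v t x i) x * (u t x i - v t x i)) := by
    intro i x
    unfold uniR lap
    simp only [hp2]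
    have e1 : ∑ j, (u t x j - v t x j) * (pd j (fun y => u t y i) x * (u t x i - v t x i)) +
      ∑ j, v t x j * ((u t x i - v t x i) * pd j (fun x => u t x i - v t x i) x) =
      (∑ j, u t x j * pd j (fun y => u t y i) x - ∑ j, v t x j * pd j (fun y => v t y i) x) *
        (u t x i - v t x i) := by
      rw [← Finset.sum_add_distrib, ← Finset.sum_sub_distrib, Finset.sum_mul]
      refine Finset.sum_congr rfl fun j _ => ?_
      rw [hp1]
      ring
    rw [add_assoc ((dt (fun s x => u s x i) t x - dt (fun s x => v s x i) t x) *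
      (u t x i - v t x i)), e1, Finset.sum_sub_distrib]
    ring
  have hint : ∀ i, ∫ x in cube, (uniR ν u t i x - uniR ν v t i x) * (u t x i - v t x i) =
      (∫ x in cube, (dt (fun s x => u s x i) t x - dt (fun s x => v s x i) t x) *
        (u t x i - v t x i)) +
      (∑ j, ∫ x in cube, (u t x j - v t x j) * (pd j (fun y => u t y i) x *
        (u t x i - v t x i))) +
      (∑ j, ∫ x in cube, v t x j * ((u t x i - v t x i) *
        pd j (fun x => u t x i - v t x i) x)) -
      ν * ∫ x in cube, lap (fun x => u t x i - v t x i) x * (u t x i - v t x i) := by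
    intro i
    have s1 : SP (fun x => (dt (fun s x => u s x i) t x - dt (fun s x => v s x i) t x) *
        (u t x i - v t x i)) := (hD i).mul (hW i)
    have s2 : ∀ j, SP (fun x => (u t x j - v t x j) * (pd j (fun y => u t y i) x *
        (u t x i - v t x i))) := fun j => (hW j).mul (((hU i).pd j).mul (hW i))
    have s3 : ∀ j, SP (fun x => v t x j * ((u t x i - v t x i) *
        pd j (fun x => u t x i - v t x i) x)) := fun j => (hV j).mul ((hW i).mul ((hW i).pd j))
    have s4 : SP (fun x => lap (fun x => u t x i - v t x i) x * (u t x i - v t x i)) :=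
      (hW i).lap.mul (hW i)
    simp_rw [hpt]
    rw [integral_sub (SP.add (SP.add s1 (SP.sum fun j _ => s2 j)) (SP.sum fun j _ => s3 j)).int
      (uni_smul ν s4).int, integral_add (SP.add s1 (SP.sum fun j _ => s2 j)).int
      (SP.sum fun j _ => s3 j).int, integral_add s1.int (SP.sum fun j _ => s2 j).int,
      integral_finsetSum _ fun j _ => (s2 j).int, integral_finsetSum _ fun j _ => (s3 j).int,
      integral_const_mul]
  have horth := uniP_orth hΦ hu hv ht
  rw [Finset.sum_congr rfl fun i _ => hint i, Finset.sum_sub_distrib, Finset.sum_add_distrib,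
    Finset.sum_add_distrib] at horth
  have h3 : ∑ i, ∑ j, ∫ x in cube, v t x j * ((u t x i - v t x i) *
        pd j (fun x => u t x i - v t x i) x) = 0 :=
    Finset.sum_eq_zero fun i _ => transport_zero (v := fun j x => v t x j) hV
      (fun x => hv.divfree t ht' x) (hW i)
  have h4 : ∑ i, ν * ∫ x in cube, lap (fun x => u t x i - v t x i) x * (u t x i - v t x i) ≤ 0 := by
    refine Finset.sum_nonpos fun i _ => ?_
    rw [int_lap_mul (hW i) (hW i)]
    have : 0 ≤ ∑ j, ∫ x in cube, pd j (fun x => u t x i - v t x i) x *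
        pd j (fun x => u t x i - v t x i) x :=
      Finset.sum_nonneg fun j _ => integral_nonneg fun x => mul_self_nonneg _
    nlinarith
  have h2 : ∀ i j, -(C / 2 * ((∫ x in cube, (u t x i - v t x i) ^ 2) +
      ∫ x in cube, (u t x j - v t x j) ^ 2)) ≤
      ∫ x in cube, (u t x j - v t x j) * (pd j (fun y => u t y i) x * (u t x i - v t x i)) := by
    intro i j
    have e1 : C / 2 * ((∫ x in cube, (u t x i - v t x i) ^ 2) +
        ∫ x in cube, (u t x j - v t x j) ^ 2) =
        ∫ x in cube, C / 2 * ((u t x i - v t x i) ^ 2 + (u t x j - v t x j) ^ 2) := by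
      rw [integral_const_mul, integral_add (uni_sq (hW i)) (uni_sq (hW j))]
    rw [e1, ← integral_neg]
    refine setIntegral_mono_on ?_ ?_ measurableSet_Icc fun x hx => ?_
    · exact (((uni_sq (hW i)).add (uni_sq (hW j))).const_mul _).neg
    · exact ((hW j).mul (((hU i).pd j).mul (hW i))).int
    · have e2 := hC i j x hx
      have e3 := abs_le.1 e2
      nlinarith [sq_nonneg (u t x i - v t x i + (u t x j - v t x j)),
        sq_nonneg (u t x i - v t x i - (u t x j - v t x j)),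
        mul_nonneg (sub_nonneg.2 e3.2) (sq_nonneg (u t x i - v t x i - (u t x j - v t x j))),
        mul_nonneg (neg_le_iff_add_nonneg.1 e3.1)
          (sq_nonneg (u t x i - v t x i + (u t x j - v t x j)))]
  have h5 : -(3 * C * ∑ i, ∫ x in cube, (u t x i - v t x i) ^ 2) ≤
      ∑ i, ∑ j, ∫ x in cube, (u t x j - v t x j) * (pd j (fun y => u t y i) x *
        (u t x i - v t x i)) := by
    refine le_trans (le_of_eq ?_) (Finset.sum_le_sum fun i _ => Finset.sum_le_sum fun j _ => h2 i j)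
    have e1 : ∀ i j : Fin 3, -(C / 2 * ((∫ x in cube, (u t x i - v t x i) ^ 2) +
      ∫ x in cube, (u t x j - v t x j) ^ 2)) = -(C / 2) * (∫ x in cube, (u t x i - v t x i) ^ 2)
        + -(C / 2) * ∫ x in cube, (u t x j - v t x j) ^ 2 := fun i j => by ring
    simp_rw [e1, Finset.sum_add_distrib, Finset.sum_const, ← Finset.mul_sum, Finset.card_univ,
      Fintype.card_fin, nsmul_eq_mul, ← Finset.mul_sum]
    push_cast
    ring
  linarith

theorem s_uniP : S_uniP := by
  intro Φ hΦ ν T u v hν hu hv h0 t ht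
  rcases eq_or_lt_of_le ht.1 with h | htpos
  · rw [← h]; exact h0
  -- the bound of the gradient
  have hpdc : ∀ i j, ContinuousOn (fun z : ℝ × V => pd j (fun y => u z.1 y i) z.2)
      (Ico 0 T ×ˢ univ) := fun i j =>
    (contDiffOn_pd (f := fun (t : ℝ) (x : V) => u t x i) (uni_comp hu.smooth i) j).continuousOn
  have hK : IsCompact (Icc 0 t ×ˢ cube) := isCompact_Icc.prod isCompact_Icc
  have hsub : Icc 0 t ×ˢ cube ⊆ Ico 0 T ×ˢ (univ : Set V) :=
    prod_mono (fun s hs => ⟨hs.1, hs.2.trans_lt ht.2⟩) (subset_univ _)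
  choose C hC using fun i j => hK.exists_bound_of_continuousOn ((hpdc i j).mono hsub)
  set M := ∑ i, ∑ j, |C i j| with hM
  have hM0 : 0 ≤ M := Finset.sum_nonneg fun i _ => Finset.sum_nonneg fun j _ => abs_nonneg _
  have hMb : ∀ s ∈ Icc 0 t, ∀ i j, ∀ x ∈ cube, |pd j (fun y => u s y i) x| ≤ M := by
    intro s hs i j x hx
    have h1 := hC i j (s, x) ⟨hs, hx⟩
    rw [Real.norm_eq_abs] at h1
    refine h1.trans ((le_abs_self _).trans ?_)
    have h2 : |C i j| ≤ ∑ j, |C i j| :=
      Finset.single_le_sum (f := fun j => |C i j|) (fun j _ => abs_nonneg _) (Finset.mem_univ j)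
    have h3 : ∑ j, |C i j| ≤ M :=
      Finset.single_le_sum (f := fun i => ∑ j, |C i j|)
        (fun i _ => Finset.sum_nonneg fun j _ => abs_nonneg _) (Finset.mem_univ i)
    exact h2.trans h3
  -- the energy of the difference
  have hw : ∀ i, ContDiffOn ℝ ∞ (fun z : ℝ × V =>
      (fun (s : ℝ) (x : V) => u s x i - v s x i) z.1 z.2) (Ico 0 T ×ˢ univ) := fun i =>
    (uni_comp hu.smooth i).sub (uni_comp hv.smooth i)
  let E : ℝ → ℝ := fun s => ∑ i, ∫ x in cube, (u s x i - v s x i) ^ 2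
  have hEc : ContinuousOn E (Ico 0 T) := by
    refine continuousOn_finsetSum _ fun i _ => ?_
    exact continuousOn_int (F := fun s x => (u s x i - v s x i) ^ 2) ((hw i).continuousOn.pow 2)
  have hE0 : E 0 = 0 := by
    refine Finset.sum_eq_zero fun i _ => ?_
    rw [h0]
    simp
  have hEn : ∀ s, 0 ≤ E s := fun s =>
    Finset.sum_nonneg fun i _ => integral_nonneg fun x => by positivity
  have hdd : ∀ s ∈ Ioo 0 T, ∀ i x, dt (fun s x => u s x i - v s x i) s x =
      dt (fun s x => u s x i) s x - dt (fun s x => v s x i) s x := by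
    intro s hs i x
    have a1 := hasDerivAt_slice (F := fun s x => u s x i)
      (mono_Ioo (f := fun s x => u s x i) (uni_comp hu.smooth i) (by norm_cast)) hs x
    have a2 := hasDerivAt_slice (F := fun s x => v s x i)
      (mono_Ioo (f := fun s x => v s x i) (uni_comp hv.smooth i) (by norm_cast)) hs x
    have a3 : HasDerivAt (fun s => u s x i - v s x i) _ s := a1.sub a2
    have b1 : dt (fun s x => u s x i) s x = _ := a1.deriv
    have b2 : dt (fun s x => v s x i) s x = _ := a2.deriv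
    rw [b1, b2]
    exact a3.deriv
  have hEd : ∀ s ∈ Ioo 0 T, HasDerivAt E (2 * ∑ i, ∫ x in cube,
      (dt (fun s x => u s x i) s x - dt (fun s x => v s x i) s x) * (u s x i - v s x i)) s := by
    intro s hs
    have a1 : HasDerivAt E (∑ i, 2 * ∫ x in cube,
        dt (fun s x => u s x i - v s x i) s x * (u s x i - v s x i)) s :=
      HasDerivAt.fun_sum fun i _ => uni_E (hw i) hs
    rw [← Finset.mul_sum] at a1
    simp_rw [hdd s hs] at a1
    exact a1
  have hEi : ∀ s ∈ Ioo 0 t, ∃ E', HasDerivAt E E' s ∧ E' ≤ 6 * M * E s := by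
    intro s hs
    have hs' : s ∈ Ioo 0 T := ⟨hs.1, hs.2.trans ht.2⟩
    refine ⟨_, hEd s hs', ?_⟩
    have a1 := uniP_ineq hΦ hν hu hv hs' (hMb s ⟨hs.1.le, hs.2.le⟩)
    show _ ≤ 6 * M * ∑ i, ∫ x in cube, (u s x i - v s x i) ^ 2
    linarith
  -- Gronwall
  have hanti : AntitoneOn (fun s => E s * Real.exp (-(6 * M) * s)) (Icc 0 t) := by
    refine antitoneOn_of_deriv_nonpos (convex_Icc 0 t) ?_ ?_ ?_
    · exact (hEc.mono fun s hs => ⟨hs.1, hs.2.trans_lt ht.2⟩).mul
        (Continuous.continuousOn (by fun_prop))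
    · rw [interior_Icc]
      intro s hs
      obtain ⟨E', a1, -⟩ := hEi s hs
      have a2 : HasDerivAt (fun s => Real.exp (-(6 * M) * s))
          (Real.exp (-(6 * M) * s) * (-(6 * M) * 1)) s :=
        ((hasDerivAt_id s).const_mul (-(6 * M))).exp
      exact (a1.mul a2).differentiableAt.differentiableWithinAt
    · rw [interior_Icc]
      intro s hs
      obtain ⟨E', a1, a3⟩ := hEi s hs
      have a2 : HasDerivAt (fun s => Real.exp (-(6 * M) * s))
          (Real.exp (-(6 * M) * s) * (-(6 * M) * 1)) s :=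
        ((hasDerivAt_id s).const_mul (-(6 * M))).exp
      have a4 : HasDerivAt (fun s => E s * Real.exp (-(6 * M) * s)) _ s := a1.mul a2
      rw [a4.deriv]
      have a5 : E' * Real.exp (-(6 * M) * s) + E s * (Real.exp (-(6 * M) * s) * (-(6 * M) * 1)) =
          (E' - 6 * M * E s) * Real.exp (-(6 * M) * s) := by ring
      rw [a5]
      exact mul_nonpos_of_nonpos_of_nonneg (by linarith) (Real.exp_pos _).le
  have hfin := hanti ⟨le_refl 0, htpos.le⟩ ⟨htpos.le, le_refl t⟩ htpos.le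
  simp only [hE0, zero_mul] at hfin
  have hEt : E t = 0 := by
    refine le_antisymm ?_ (hEn t)
    by_contra hc
    push Not at hc
    have := mul_pos hc (Real.exp_pos (-(6 * M) * t))
    linarith
  -- conclusion
  funext x
  funext i
  have h1 : ∫ x in cube, (u t x i - v t x i) ^ 2 = 0 := by
    have a1 := (Finset.sum_eq_zero_iff_of_nonneg fun i _ =>
      integral_nonneg (μ := volume.restrict cube)
        (f := fun x => (u t x i - v t x i) ^ 2) fun x => by positivity).1 hEt i
      (Finset.mem_univ i)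
    exact a1
  have h2 := uni_zero (uni_sub (uniP_sp hu ht i) (uniP_sp hv ht i)) h1 x
  exact sub_eq_zero.1 h2

end Pool.Agent.H226.GB

end

/-! ## IntP -/

section

/-!
Integrals of rescaled and of translated periodic functions.
-/

set_option autoImplicit false

open MeasureTheory Set Filter Topology
open scoped ContDiff
open H459R3.NS

namespace Pool.Agent.H226.GB

attribute [local instance] instMeasureSpaceUnitAddCircle

theorem IntP_haar1 : Measure.IsAddHaarMeasure (volume : Measure UnitAddCircle) :=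
  inferInstanceAs (Measure.IsAddHaarMeasure AddCircle.haarAddCircle)

theorem IntP_prob1 : IsProbabilityMeasure (volume : Measure UnitAddCircle) :=
  inferInstanceAs (IsProbabilityMeasure AddCircle.haarAddCircle)

theorem IntP_haar : Measure.IsAddHaarMeasure (volume : Measure (UnitAddTorus (Fin 3))) := by
  have := IntP_haar1
  have := IntP_prob1
  exact Measure.pi.isAddHaarMeasure (fun _ : Fin 3 => (volume : Measure UnitAddCircle))

/-- the function on the torus -/
noncomputable def IntP_lift (f : V → ℝ) (t : UnitAddTorus (Fin 3)) : ℝ :=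
  f (Function.surjInv cov_surj t)

theorem IntP_lift_cov {f : V → ℝ} (hf : Per f) (x : V) : IntP_lift f (cov x) = f x :=
  hf.eq_of_cov (Function.surjInv_eq cov_surj (cov x))

theorem IntP_lift_continuous {f : V → ℝ} (hf : Per f) (hc : Continuous f) :
    Continuous (IntP_lift f) := by
  rw [cov_quot.isQuotientMap.continuous_iff]
  have : IntP_lift f ∘ cov = f := funext fun x => IntP_lift_cov hf x
  rwa [this]

theorem IntP_torus {f : V → ℝ} (hf : Per f) : ∫ x in cube, f x = ∫ t, IntP_lift f t := by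
  rw [integral_torus]
  congr 1
  funext x
  rw [IntP_lift_cov hf]

theorem IntP_cov_add (x y : V) : cov (x + y) = cov x + cov y := rfl

theorem IntP_cov_smul (p : ℕ) (x : V) : cov ((p : ℝ) • x) = p • cov x := by
  funext i
  change (((p : ℝ) * x i : ℝ) : UnitAddCircle) = p • ((x i : ℝ) : UnitAddCircle)
  rw [← nsmul_eq_mul]
  rfl

theorem IntP_mp_smul (p : ℕ) (hp : 1 ≤ p) :
    MeasurePreserving (fun t : UnitAddTorus (Fin 3) => p • t) volume volume := by
  have hp0 : (p : ℝ) ≠ 0 := by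
    have : (0 : ℝ) < p := by exact_mod_cast hp
    exact this.ne'
  have hsurj : Function.Surjective (nsmulAddMonoidHom (α := UnitAddTorus (Fin 3)) p) := by
    intro t
    obtain ⟨y, rfl⟩ := cov_surj t
    refine ⟨cov ((p : ℝ)⁻¹ • y), ?_⟩
    change p • cov ((p : ℝ)⁻¹ • y) = cov y
    rw [← IntP_cov_smul, smul_inv_smul₀ hp0]
  have hcont : Continuous (nsmulAddMonoidHom (α := UnitAddTorus (Fin 3)) p) := continuous_nsmul p
  have := IntP_haar
  exact (nsmulAddMonoidHom (α := UnitAddTorus (Fin 3)) p).measurePreserving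
    (μ := (volume : Measure (UnitAddTorus (Fin 3)))) hcont hsurj rfl

theorem s_int : S_int := by
  refine ⟨fun g hg p hp => ?_, fun g hg y => ?_⟩
  · have hc := IntP_lift_continuous hg.per hg.smooth.continuous
    have hmp := IntP_mp_smul p hp
    have h1 : ∫ x in cube, g ((p : ℝ) • x) = ∫ t, IntP_lift g (p • t) := by
      rw [integral_torus fun t => IntP_lift g (p • t)]
      congr 1
      funext x
      rw [← IntP_cov_smul, IntP_lift_cov hg.per]
    rw [h1, IntP_torus hg.per]
    conv_rhs => rw [← hmp.map_eq]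
    exact (integral_map hmp.measurable.aemeasurable hc.aestronglyMeasurable).symm
  · have h1 : ∫ x in cube, g (x + y) = ∫ t, IntP_lift g (t + cov y) := by
      rw [integral_torus fun t => IntP_lift g (t + cov y)]
      congr 1
      funext x
      rw [← IntP_cov_add, IntP_lift_cov hg.per]
    rw [h1, IntP_torus hg.per]
    have := IntP_haar
    exact integral_add_right_eq_self (IntP_lift g) (cov y)

end Pool.Agent.H226.GB

end

/-! ## Fin3 -/

section

/-!
Maximal solutions of the projected equations.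
-/

open MeasureTheory Set Filter Topology
open scoped ContDiff
open H459R3.NS

namespace Pool.Agent.H226.GB

theorem IsPr.mono {Φ : Set (V → V)} {ν T : ℝ} {u : ℝ → V → V} (h : IsPr Φ ν T u) {T' : ℝ}
    (hT : T' ≤ T) : IsPr Φ ν T' u where
  smooth := h.smooth.mono (prod_mono (Ico_subset_Ico le_rfl hT) (subset_univ _))
  per := fun t ht => h.per t ⟨ht.1, ht.2.trans_le hT⟩
  divfree := fun t ht => h.divfree t ⟨ht.1, ht.2.trans_le hT⟩
  mem := fun t ht => h.mem t ⟨ht.1, ht.2.trans_le hT⟩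
  eq := fun t ht => h.eq t ⟨ht.1, ht.2.trans_le hT⟩

/-- local changes -/
theorem IsPr.glue {Φ : Set (V → V)} {ν T : ℝ} {u : ℝ → V → V}
    (h : ∀ t ∈ Ico 0 T, ∃ τ, t < τ ∧ ∃ v, IsPr Φ ν τ v ∧ ∀ s ∈ Ico 0 τ, s < T → v s = u s) :
    IsPr Φ ν T u := by
  refine ⟨?_, fun t ht => ?_, fun t ht x => ?_, fun t ht => ?_, fun t ht w hw => ?_⟩
  · rintro ⟨t, x⟩ ⟨ht, -⟩
    obtain ⟨τ, htτ, v, hv, hvu⟩ := h t ht
    have h1 := hv.smooth (t, x) ⟨⟨ht.1, htτ⟩, mem_univ _⟩
    have h2 : Ico 0 τ ×ˢ (univ : Set V) ∈ 𝓝[Ico 0 T ×ˢ univ] (t, x) := by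
      refine mem_nhdsWithin.2 ⟨Iio τ ×ˢ univ, isOpen_Iio.prod isOpen_univ, ⟨htτ, mem_univ _⟩, ?_⟩
      rintro ⟨s, y⟩ ⟨⟨hs, -⟩, ⟨hs', -⟩⟩
      exact ⟨⟨hs'.1, hs⟩, mem_univ _⟩
    have h3 : ContDiffWithinAt ℝ ∞ (fun z : ℝ × V => v z.1 z.2) (Ico 0 T ×ˢ univ) (t, x) :=
      h1.mono_of_mem_nhdsWithin h2
    refine h3.congr_of_eventuallyEq ?_ ?_
    · filter_upwards [h2, self_mem_nhdsWithin] with z hz hz'
      have := hvu z.1 hz.1 hz'.1.2
      show u z.1 z.2 = v z.1 z.2
      rw [this]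
    · show u t x = v t x
      rw [hvu t ⟨ht.1, htτ⟩ ht.2]
  · obtain ⟨τ, htτ, v, hv, hvu⟩ := h t ht
    rw [← hvu t ⟨ht.1, htτ⟩ ht.2]
    exact hv.per t ⟨ht.1, htτ⟩
  · obtain ⟨τ, htτ, v, hv, hvu⟩ := h t ht
    rw [← hvu t ⟨ht.1, htτ⟩ ht.2]
    exact hv.divfree t ⟨ht.1, htτ⟩ x
  · obtain ⟨τ, htτ, v, hv, hvu⟩ := h t ht
    rw [← hvu t ⟨ht.1, htτ⟩ ht.2]
    exact hv.mem t ⟨ht.1, htτ⟩
  · obtain ⟨τ, htτ, v, hv, hvu⟩ := h t ⟨ht.1.le, ht.2⟩
    have h1 := hv.eq t ⟨ht.1, htτ⟩ w hw
    have h2 : ∀ x i, deriv (fun s => u s x i) t = deriv (fun s => v s x i) t := by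
      intro x i
      refine Filter.EventuallyEq.deriv_eq ?_
      filter_upwards [Ioo_mem_nhds ht.1 (lt_min htτ ht.2)] with s hs
      rw [hvu s ⟨hs.1.le, hs.2.trans_le (min_le_left _ _)⟩ (hs.2.trans_le (min_le_right _ _))]
    simp only [h2, ← hvu t ⟨ht.1.le, htτ⟩ ht.2]
    exact h1

/-- the maximal solution -/
theorem maxSol {Φ : Set (V → V)} (hΦ : ∀ w ∈ Φ, ∀ i, SP (fun x => w x i)) {ν T : ℝ} (hν : 0 ≤ ν)
    {u₀ : V → V} (hex : ∃ τ > 0, ∃ u, IsPr Φ ν τ u ∧ u 0 = u₀)
    (hno : ∀ u, IsPr Φ ν T u → u 0 ≠ u₀) :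
    ∃ (Tm : ℝ) (u : ℝ → V → V), 0 < Tm ∧ Tm < T ∧ IsPr Φ ν Tm u ∧ u 0 = u₀ ∧
      ∀ T' v, IsPr Φ ν T' v → v 0 = u₀ → T' ≤ Tm ∧ ∀ t ∈ Ico 0 T', v t = u t := by
  set A : Set ℝ := {τ | 0 < τ ∧ ∃ u, IsPr Φ ν τ u ∧ u 0 = u₀} with hA
  have hne : A.Nonempty := by
    obtain ⟨τ, h1, h2⟩ := hex
    exact ⟨τ, h1, h2⟩
  have hlt : ∀ τ ∈ A, τ < T := by
    rintro τ ⟨h1, u, h2, h3⟩
    by_contra hc
    exact hno u (h2.mono (not_lt.1 hc)) h3
  have hbd : BddAbove A := ⟨T, fun τ hτ => (hlt τ hτ).le⟩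
  obtain ⟨τ₀, hτ₀⟩ := hne
  have hpos : 0 < sSup A := hτ₀.1.trans_le (le_csSup hbd hτ₀)
  have hch : ∀ t ∈ Ico 0 (sSup A), ∃ τ, t < τ ∧ ∃ u, IsPr Φ ν τ u ∧ u 0 = u₀ := by
    intro t ht
    obtain ⟨τ, h1, h2⟩ := exists_lt_of_lt_csSup ⟨τ₀, hτ₀⟩ ht.2
    exact ⟨τ, h2, h1.2⟩
  choose! τ hτ v hv hv0 using hch
  have hag : ∀ t ∈ Ico 0 (sSup A), ∀ T' w, IsPr Φ ν T' w → w 0 = u₀ → t < T' →
      w t = v t t := by
    intro t ht T' w hw hw0 htT
    have h1 : IsPr Φ ν (min T' (τ t)) w := hw.mono (min_le_left _ _)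
    have h2 : IsPr Φ ν (min T' (τ t)) (v t) := (hv t ht).mono (min_le_right _ _)
    exact s_uniP Φ hΦ ν _ w (v t) hν h1 h2 (by rw [hw0, hv0 t ht]) t
      ⟨ht.1, lt_min htT (hτ t ht)⟩
  have h0m : (0 : ℝ) ∈ Ico 0 (sSup A) := ⟨le_rfl, hpos⟩
  have hsol : IsPr Φ ν (sSup A) (fun t => v t t) := by
    refine IsPr.glue fun t ht => ⟨τ t, hτ t ht, v t, hv t ht, fun s hs hs' => ?_⟩
    exact hag s ⟨hs.1, hs'⟩ (τ t) (v t) (hv t ht) (hv0 t ht) hs.2
  have hsol0 : (fun t => v t t) 0 = u₀ := hv0 0 h0m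
  have hle : ∀ T' w, IsPr Φ ν T' w → w 0 = u₀ → T' ≤ sSup A := by
    intro T' w hw hw0
    by_cases hT' : 0 < T'
    · exact le_csSup hbd ⟨hT', w, hw, hw0⟩
    · exact (not_lt.1 hT').trans hpos.le
  refine ⟨sSup A, fun t => v t t, hpos, ?_, hsol, hsol0, fun T' w hw hw0 =>
    ⟨hle T' w hw hw0, fun t ht => ?_⟩⟩
  · exact hlt _ ⟨hpos, _, hsol, hsol0⟩
  · exact hag t ⟨ht.1, ht.2.trans_le (hle T' w hw hw0)⟩ T' w hw hw0 ht.2

end Pool.Agent.H226.GB

end
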