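import Pool.Agent.H226.GM.S
import Pool.Agent.H226.GM.Uniq

/-! ## Shift -/

section

/-!
Invariance of the solutions of the projected equations under the translations by `1 / p`.
-/

set_option autoImplicit false

open MeasureTheory Set Filter Topology
open scoped ContDiff
open H459R3.NS

namespace Pool.Agent.H226.GB

/-! ### Periodic functions -/

theorem shift_nat {F : Type*} {f : V → F} {c : ℝ} {j : Fin 3}
    (h : ∀ x : V, f (x + Pi.single j c) = f x) (n : ℕ) (x : V) :
    f (x + Pi.single j ((n : ℝ) * c)) = f x := by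
  induction n generalizing x with
  | zero => simp
  | succ n ih =>
    have e : x + Pi.single j (((n + 1 : ℕ) : ℝ) * c)
        = (x + Pi.single j ((n : ℝ) * c)) + Pi.single j c := by
      rw [add_assoc, ← Pi.single_add]
      have e1 : ((n + 1 : ℕ) : ℝ) * c = (n : ℝ) * c + c := by push_cast; ring
      rw [e1]
    rw [e, h, ih]

theorem shift_smul_single (p : ℝ) (j : Fin 3) (c : ℝ) :
    p • (Pi.single j c : V) = Pi.single j (p * c) := by
  funext l
  rcases eq_or_ne l j with h | h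
  · subst h; simp
  · simp [h]

/-- the fields `φ m (p x)` -/
theorem shift_sp_phi {φ : ℕ → V → V} (hφ : ∀ m i, SP (fun x => φ m x i)) (p : ℕ) (m : ℕ)
    (i : Fin 3) : SP (fun x => φ m ((p : ℝ) • x) i) where
  smooth := (hφ m i).smooth.comp (contDiff_const_smul (p : ℝ))
  per := by
    intro j x
    have h := shift_nat (f := fun x => φ m x i) (c := 1) (j := j) (fun x => (hφ m i).per j x) p
      ((p : ℝ) • x)
    show φ m ((p : ℝ) • (x + Pi.single j 1)) i = φ m ((p : ℝ) • x) i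
    rw [smul_add, shift_smul_single]
    exact h

theorem shift_ph_add (k : Fin 3 → ℤ) (x y : V) :
    ∑ j, (k j : ℝ) * (x + y) j = ∑ j, (k j : ℝ) * x j + ∑ j, (k j : ℝ) * y j := by
  rw [← Finset.sum_add_distrib]
  refine Finset.sum_congr rfl fun j _ => ?_
  rw [Pi.add_apply, mul_add]

theorem shift_ph_single (k : Fin 3 → ℤ) (i : Fin 3) (c : ℝ) :
    ∑ j, (k j : ℝ) * (Pi.single i c : V) j = k i * c := by
  rw [Finset.sum_eq_single i]
  · rw [Pi.single_eq_same]
  · intro j _ hj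
    rw [Pi.single_eq_of_ne hj, mul_zero]
  · intro h; exact absurd (Finset.mem_univ i) h

theorem shift_sp_cos (k : Fin 3 → ℤ) (a : ℝ) :
    SP (fun x => Real.cos (2 * Real.pi * ∑ j, (k j : ℝ) * x j) * a) where
  smooth := (Real.contDiff_cos.comp (contDiff_const.mul
    (ContDiff.sum fun j _ => contDiff_const.mul (contDiff_apply ℝ ℝ j)))).mul contDiff_const
  per := by
    intro i x
    show Real.cos _ * a = Real.cos _ * a
    rw [shift_ph_add, shift_ph_single, mul_one, mul_add, mul_comm (2 * Real.pi) (k i : ℝ),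
      Real.cos_add_int_mul_two_pi]

theorem shift_sp_sin (k : Fin 3 → ℤ) (a : ℝ) :
    SP (fun x => Real.sin (2 * Real.pi * ∑ j, (k j : ℝ) * x j) * a) where
  smooth := (Real.contDiff_sin.comp (contDiff_const.mul
    (ContDiff.sum fun j _ => contDiff_const.mul (contDiff_apply ℝ ℝ j)))).mul contDiff_const
  per := by
    intro i x
    show Real.sin _ * a = Real.sin _ * a
    rw [shift_ph_add, shift_ph_single, mul_one, mul_add, mul_comm (2 * Real.pi) (k i : ℝ),
      Real.sin_add_int_mul_two_pi]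

theorem shift_sp_md {p : ℕ} {w : V → V} (hw : w ∈ md p) (i : Fin 3) : SP (fun x => w x i) := by
  obtain ⟨k, a, -, -, h | h⟩ := hw
  · have e : (fun x => w x i) =
        fun x => Real.cos (2 * Real.pi * ∑ j, (k j : ℝ) * x j) * a i := by
      funext x
      rw [h x, Pi.smul_apply, smul_eq_mul]
    rw [e]
    exact shift_sp_cos k (a i)
  · have e : (fun x => w x i) =
        fun x => Real.sin (2 * Real.pi * ∑ j, (k j : ℝ) * x j) * a i := by
      funext x
      rw [h x, Pi.smul_apply, smul_eq_mul]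
    rw [e]
    exact shift_sp_sin k (a i)

theorem shift_sp_Fp {φ : ℕ → V → V} (hφ : ∀ m i, SP (fun x => φ m x i)) {p : ℕ} {w : V → V}
    (hw : w ∈ Fp φ p) (i : Fin 3) : SP (fun x => w x i) := by
  rcases hw with ⟨m, h⟩ | h
  · have e : (fun x => w x i) = fun x => φ m ((p : ℝ) • x) i := by
      funext x
      rw [h x]
    rw [e]
    exact shift_sp_phi hφ p m i
  · exact shift_sp_md h i

theorem shift_sp_span {Φ : Set (V → V)} (hΦ : ∀ w ∈ Φ, ∀ i, SP (fun x => w x i)) {w : V → V}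
    (hw : w ∈ Submodule.span ℝ Φ) : ∀ i, SP (fun x => w x i) := by
  induction hw using Submodule.span_induction with
  | mem w h => exact hΦ w h
  | zero =>
    intro i
    exact ⟨contDiff_const, fun _ _ => rfl⟩
  | add v w _ _ hv hw =>
    intro i
    exact (hv i).add (hw i)
  | smul c w _ hw =>
    intro i
    exact uni_smul c (hw i)

/-! ### Translations of the elements of the span -/

/-- a translation maps the modes with frequency `k` into their span -/
theorem shift_md_mem {p : ℕ} {w : V → V} (hw : w ∈ md p) (y : V) :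
    (fun x => w (x + y)) ∈ Submodule.span ℝ (md p) := by
  obtain ⟨k, a, h1, h2, h⟩ := hw
  set c : V → V := fun x => Real.cos (2 * Real.pi * ∑ j, (k j : ℝ) * x j) • a with hc
  set s : V → V := fun x => Real.sin (2 * Real.pi * ∑ j, (k j : ℝ) * x j) • a with hs
  have hcm : c ∈ Submodule.span ℝ (md p) :=
    Submodule.subset_span ⟨k, a, h1, h2, Or.inl fun x => rfl⟩
  have hsm : s ∈ Submodule.span ℝ (md p) :=
    Submodule.subset_span ⟨k, a, h1, h2, Or.inr fun x => rfl⟩
  set β : ℝ := 2 * Real.pi * ∑ j, (k j : ℝ) * y j with hβ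
  rcases h with h | h
  · have e : (fun x => w (x + y)) = Real.cos β • c - Real.sin β • s := by
      funext x
      rw [h, shift_ph_add, mul_add, Real.cos_add]
      simp only [hc, hs, Pi.sub_apply, Pi.smul_apply, smul_smul]
      rw [← sub_smul, ← hβ]
      rw [mul_comm (Real.cos β), mul_comm (Real.sin β)]
    rw [e]
    exact Submodule.sub_mem _ (Submodule.smul_mem _ _ hcm) (Submodule.smul_mem _ _ hsm)
  · have e : (fun x => w (x + y)) = Real.cos β • s + Real.sin β • c := by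
      funext x
      rw [h, shift_ph_add, mul_add, Real.sin_add]
      simp only [hc, hs, Pi.add_apply, Pi.smul_apply, smul_smul]
      rw [← add_smul, ← hβ]
      rw [mul_comm (Real.cos β), mul_comm (Real.sin β)]
    rw [e]
    exact Submodule.add_mem _ (Submodule.smul_mem _ _ hsm) (Submodule.smul_mem _ _ hcm)

/-- translations which do not change the fields `φ m (p x)` -/
theorem shift_span {φ : ℕ → V → V} {p : ℕ} {y : V}
    (hy : ∀ m (x : V), φ m ((p : ℝ) • (x + y)) = φ m ((p : ℝ) • x)) {w : V → V}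
    (hw : w ∈ Submodule.span ℝ (Fp φ p)) :
    (fun x => w (x + y)) ∈ Submodule.span ℝ (Fp φ p) := by
  induction hw using Submodule.span_induction with
  | mem w h =>
    rcases h with ⟨m, h⟩ | h
    · have e : (fun x => w (x + y)) = w := by
        funext x
        rw [h, h, hy]
      rw [e]
      exact Submodule.subset_span (Or.inl ⟨m, h⟩)
    · exact Submodule.span_mono subset_union_right (shift_md_mem h y)
  | zero => exact Submodule.zero_mem _
  | add v w _ _ hv hw => exact Submodule.add_mem _ hv hw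
  | smul c w _ hw => exact Submodule.smul_mem _ c hw

theorem shift_phi_add {φ : ℕ → V → V} (hφ : ∀ m i, SP (fun x => φ m x i)) {p : ℕ} (hp : 1 ≤ p)
    (j : Fin 3) (m : ℕ) (x : V) :
    φ m ((p : ℝ) • (x + Pi.single j (1 / (p : ℝ)))) = φ m ((p : ℝ) • x) := by
  have hp0 : (p : ℝ) ≠ 0 := by positivity
  rw [smul_add, shift_smul_single, mul_one_div_cancel hp0]
  funext i
  exact (hφ m i).per j _

theorem shift_phi_sub {φ : ℕ → V → V} (hφ : ∀ m i, SP (fun x => φ m x i)) {p : ℕ} (hp : 1 ≤ p)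
    (j : Fin 3) (m : ℕ) (x : V) :
    φ m ((p : ℝ) • (x + -Pi.single j (1 / (p : ℝ)))) = φ m ((p : ℝ) • x) := by
  have h := shift_phi_add hφ hp j m (x + -Pi.single j (1 / (p : ℝ)))
  rw [neg_add_cancel_right] at h
  exact h.symm

/-! ### Translations of the solutions -/

theorem shift_pd (f : V → ℝ) (j : Fin 3) (y x : V) :
    pd j (fun z => f (z + y)) x = pd j f (x + y) := by
  unfold pd
  rw [fderiv_comp_add_right]

theorem shift_uniR (ν : ℝ) (u : ℝ → V → V) (t : ℝ) (i : Fin 3) (y x : V) :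
    uniR ν (fun t x => u t (x + y)) t i x = uniR ν u t i (x + y) := by
  have e1 : ∀ j : Fin 3, pd j (fun z => u t (z + y) i) =
      fun x => pd j (fun z => u t z i) (x + y) := by
    intro j
    funext x
    exact shift_pd (fun z => u t z i) j y x
  unfold uniR dt
  simp only [e1]
  have e2 : ∀ j : Fin 3, pd j (fun x => pd j (fun z => u t z i) (x + y)) x =
      pd j (pd j (fun z => u t z i)) (x + y) := fun j => shift_pd _ j y x
  simp only [e2]

theorem shift_usp {Φ : Set (V → V)} {ν T : ℝ} {u : ℝ → V → V} (hu : IsPr Φ ν T u) {t : ℝ}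
    (ht : t ∈ Ico 0 T) (i : Fin 3) : SP (fun x => u t x i) where
  smooth := contDiff_slice (f := fun (t : ℝ) (x : V) => u t x i) (uni_comp hu.smooth i) ht
  per := fun j x => congrFun (hu.per t ht j x) i

theorem shift_R {Φ : Set (V → V)} {ν T : ℝ} {u : ℝ → V → V} (hu : IsPr Φ ν T u) {t : ℝ}
    (ht : t ∈ Ioo 0 T) (i : Fin 3) : SP (uniR ν u t i) := by
  have ht' : t ∈ Ico 0 T := ⟨ht.1.le, ht.2⟩
  have hd : SP (dt (fun s x => u s x i) t) :=
    uni_dt (uni_comp hu.smooth i) (fun s hs j x => congrFun (hu.per s hs j x) i) ht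
  exact uni_sub (SP.add hd
    (SP.sum fun j _ => (shift_usp hu ht' j).mul ((shift_usp hu ht' i).pd j)))
    (uni_smul ν (SP.sum fun j _ => ((shift_usp hu ht' i).pd j).pd j))

/-- the equation holds for the elements of the span -/
theorem shift_eq_span {Φ : Set (V → V)} (hΦ : ∀ w ∈ Φ, ∀ i, SP (fun x => w x i)) {ν T : ℝ}
    {u : ℝ → V → V} (hu : IsPr Φ ν T u) {t : ℝ} (ht : t ∈ Ioo 0 T) {w : V → V}
    (hw : w ∈ Submodule.span ℝ Φ) : ∑ i, ∫ x in cube, uniR ν u t i x * w x i = 0 := by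
  induction hw using Submodule.span_induction with
  | mem w h => exact hu.eq t ht w h
  | zero =>
    refine Finset.sum_eq_zero fun i _ => ?_
    simp
  | add v w hv' hw' hv hw =>
    have e : ∀ i, ∫ x in cube, uniR ν u t i x * (v + w) x i =
        (∫ x in cube, uniR ν u t i x * v x i) + ∫ x in cube, uniR ν u t i x * w x i := by
      intro i
      rw [← integral_add ((shift_R hu ht i).mul (shift_sp_span hΦ hv' i)).int
        ((shift_R hu ht i).mul (shift_sp_span hΦ hw' i)).int]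
      refine integral_congr_ae (Eventually.of_forall fun x => ?_)
      show uniR ν u t i x * (v x i + w x i) = _
      rw [mul_add]
    rw [Finset.sum_congr rfl fun i _ => e i, Finset.sum_add_distrib, hv, hw, add_zero]
  | smul c w _ hw =>
    have e : ∀ i, ∫ x in cube, uniR ν u t i x * (c • w) x i =
        c * ∫ x in cube, uniR ν u t i x * w x i := by
      intro i
      rw [← integral_const_mul]
      refine integral_congr_ae (Eventually.of_forall fun x => ?_)
      show uniR ν u t i x * (c * w x i) = c * (uniR ν u t i x * w x i)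
      ring
    rw [Finset.sum_congr rfl fun i _ => e i, ← Finset.mul_sum, hw, mul_zero]

theorem s_shift (hI : S_int) : S_shift := by
  intro φ p hφ hp ν T u hu j
  set y : V := Pi.single j (1 / (p : ℝ)) with hy
  have hΦ : ∀ w ∈ Fp φ p, ∀ i, SP (fun x => w x i) := fun w hw i => shift_sp_Fp hφ hw i
  refine ⟨?_, ?_, ?_, ?_, ?_⟩
  · have h : ContDiffOn ℝ ∞ (fun z : ℝ × V => ((z.1, z.2 + y) : ℝ × V)) (Ico 0 T ×ˢ univ) :=
      (contDiff_fst.prodMk (contDiff_snd.add contDiff_const)).contDiffOn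
    exact hu.smooth.comp h fun z hz => ⟨hz.1, mem_univ _⟩
  · intro t ht i x
    show u t (x + Pi.single i 1 + y) = u t (x + y)
    rw [add_right_comm]
    exact hu.per t ht i (x + y)
  · intro t ht x
    have h := hu.divfree t ht (x + y)
    rw [← h]
    refine Finset.sum_congr rfl fun i _ => ?_
    exact shift_pd (fun z => u t z i) i y x
  · intro t ht ε hε
    obtain ⟨w, hw, h⟩ := hu.mem t ht ε hε
    refine ⟨fun x => w (x + y), shift_span (fun m x => shift_phi_add hφ hp j m x) hw, ?_⟩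
    refine lt_of_le_of_lt (le_of_eq ?_) h
    refine Finset.sum_congr rfl fun i _ => ?_
    have hg : SP (fun x => (u t x i - w x i) * (u t x i - w x i)) :=
      (uni_sub (shift_usp hu ht i) (shift_sp_span hΦ hw i)).mul
        (uni_sub (shift_usp hu ht i) (shift_sp_span hΦ hw i))
    have h1 := hI.2 _ hg y
    simp only [← pow_two] at h1
    exact h1
  · intro t ht w hw
    have hw' : (fun x => w (x + -y)) ∈ Submodule.span ℝ (Fp φ p) :=
      shift_span (fun m x => shift_phi_sub hφ hp j m x) (Submodule.subset_span hw)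
    have h1 := shift_eq_span hΦ hu ht hw'
    have h2 : ∀ i, ∫ x in cube, uniR ν (fun t x => u t (x + y)) t i x * w x i =
        ∫ x in cube, uniR ν u t i x * w (x + -y) i := by
      intro i
      have h3 := hI.2 _ ((shift_R hu ht i).mul (shift_sp_span hΦ hw' i)) y
      rw [← h3]
      refine integral_congr_ae (Eventually.of_forall fun x => ?_)
      show uniR ν (fun t x => u t (x + y)) t i x * w x i =
        uniR ν u t i (x + y) * w (x + y + -y) i
      rw [shift_uniR, add_neg_cancel_right]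
    rw [← Finset.sum_congr rfl fun i _ => h2 i] at h1
    exact h1

end Pool.Agent.H226.GB

end

/-! ## MemDown -/

section

/-!
Averaging over the translations by the points of the grid with step `1 / p`.
-/

set_option autoImplicit false

open MeasureTheory Set Filter Topology
open scoped ContDiff
open H459R3.NS

namespace Pool.Agent.H226.GB

/-- the grid points -/
noncomputable def memSh (p : ℕ) (n : Fin 3 → Fin p) : V := fun j => ((n j : ℕ) : ℝ) * (1 / (p : ℝ))

/-- the average over the translations by the grid points -/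
noncomputable def memAv (p : ℕ) (w : V → V) (x : V) : V :=
  ((p : ℝ) ^ 3)⁻¹ • ∑ n : Fin 3 → Fin p, w (x + memSh p n)

theorem mem_nat {F : Type*} {f : V → F} {c : ℝ}
    (h : ∀ (j : Fin 3) (x : V), f (x + Pi.single j c) = f x) (n : Fin 3 → ℕ) (x : V) :
    f (x + fun j => (n j : ℝ) * c) = f x := by
  have e : x + (fun j => (n j : ℝ) * c) = ((x + Pi.single 0 ((n 0 : ℝ) * c)) +
      Pi.single 1 ((n 1 : ℝ) * c)) + Pi.single 2 ((n 2 : ℝ) * c) := by
    funext j
    fin_cases j <;> simp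
  rw [e, shift_nat (h 2), shift_nat (h 1), shift_nat (h 0)]

theorem mem_card (p : ℕ) : (Fintype.card (Fin 3 → Fin p) : ℝ) = (p : ℝ) ^ 3 := by
  simp

theorem mem_phi {φ : ℕ → V → V} (hφ : ∀ m i, SP (fun x => φ m x i)) {p : ℕ} (hp : 1 ≤ p)
    (n : Fin 3 → Fin p) (m : ℕ) (x : V) :
    φ m ((p : ℝ) • (x + memSh p n)) = φ m ((p : ℝ) • x) := by
  have hp0 : (p : ℝ) ≠ 0 := by positivity
  have e : (p : ℝ) • (x + memSh p n) = (p : ℝ) • x + fun j => (((n j : ℕ)) : ℝ) * 1 := by
    rw [smul_add]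
    refine congrArg _ ?_
    funext j
    show (p : ℝ) * (((n j : ℕ) : ℝ) * (1 / (p : ℝ))) = ((n j : ℕ) : ℝ) * 1
    field_simp
  rw [e]
  exact mem_nat (f := φ m) (c := 1)
    (fun j x => funext fun i => (hφ m i).per j x) (fun j => (n j : ℕ)) _

/-! ### The modes -/

theorem mem_geom {p : ℕ} (hp : 1 ≤ p) {k : ℤ} (hk : ¬((p : ℤ) ∣ k)) :
    ∑ m : Fin p, Complex.exp (2 * Real.pi * Complex.I * ((k : ℂ) * (((m : ℕ) : ℂ) * (1 / (p : ℂ)))))
      = 0 := by
  have hp0 : (p : ℂ) ≠ 0 := by exact_mod_cast (by omega : p ≠ 0)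
  set ζ : ℂ := Complex.exp (2 * Real.pi * Complex.I * ((k : ℂ) / (p : ℂ))) with hζ
  have e : ∀ m : Fin p, Complex.exp (2 * Real.pi * Complex.I *
      ((k : ℂ) * (((m : ℕ) : ℂ) * (1 / (p : ℂ))))) = ζ ^ (m : ℕ) := by
    intro m
    rw [hζ, ← Complex.exp_nat_mul]
    refine congrArg _ ?_
    field_simp
  rw [Finset.sum_congr rfl fun m _ => e m, Fin.sum_univ_eq_sum_range (fun m => ζ ^ m) p]
  have h1 : ζ ≠ 1 := by
    intro h
    rw [hζ, Complex.exp_eq_one_iff] at h
    obtain ⟨n, hn⟩ := h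
    apply hk
    refine ⟨n, ?_⟩
    have hpi : (2 * Real.pi * Complex.I : ℂ) ≠ 0 := Complex.two_pi_I_ne_zero
    have h2 : (k : ℂ) / p = n := by
      apply mul_left_cancel₀ hpi
      rw [hn]; ring
    rw [div_eq_iff hp0] at h2
    have h3 : (k : ℂ) = ((p * n : ℤ) : ℂ) := by
      rw [h2]; push_cast; ring
    exact_mod_cast h3
  have h2 : ζ ^ p = 1 := by
    rw [hζ, ← Complex.exp_nat_mul, Complex.exp_eq_one_iff]
    refine ⟨k, ?_⟩
    field_simp
  rw [geom_sum_eq h1, h2, sub_self, zero_div]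

theorem mem_mode {p : ℕ} (hp : 1 ≤ p) {k : Fin 3 → ℤ} (hk : ∃ j, ¬((p : ℤ) ∣ k j)) (x : V) :
    ∑ n : Fin 3 → Fin p, Complex.exp
      (((2 * Real.pi * ∑ j, (k j : ℝ) * (x + memSh p n) j : ℝ) : ℂ) * Complex.I) = 0 := by
  obtain ⟨j₀, hj₀⟩ := hk
  have e : ∀ n : Fin 3 → Fin p, Complex.exp
      (((2 * Real.pi * ∑ j, (k j : ℝ) * (x + memSh p n) j : ℝ) : ℂ) * Complex.I) =
      Complex.exp (((2 * Real.pi * ∑ j, (k j : ℝ) * x j : ℝ) : ℂ) * Complex.I) *
        ∏ j, Complex.exp (2 * Real.pi * Complex.I *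
          ((k j : ℂ) * (((n j : ℕ) : ℂ) * (1 / (p : ℂ))))) := by
    intro n
    rw [← Complex.exp_sum, ← Complex.exp_add]
    refine congrArg _ ?_
    rw [shift_ph_add, ← Finset.mul_sum]
    have e1 : ((∑ j, (k j : ℝ) * memSh p n j : ℝ) : ℂ) =
        ∑ j, ((k j : ℂ) * (((n j : ℕ) : ℂ) * (1 / (p : ℂ)))) := by
      unfold memSh
      push_cast
      rfl
    rw [mul_add, Complex.ofReal_add, Complex.ofReal_mul (2 * Real.pi) (∑ j, (k j : ℝ) * memSh p n j),
      e1]
    push_cast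
    ring
  rw [Finset.sum_congr rfl fun n _ => e n, ← Finset.mul_sum]
  have e2 : ∑ n : Fin 3 → Fin p, ∏ j, Complex.exp (2 * Real.pi * Complex.I *
          ((k j : ℂ) * (((n j : ℕ) : ℂ) * (1 / (p : ℂ))))) =
      ∏ j, ∑ m : Fin p, Complex.exp (2 * Real.pi * Complex.I *
          ((k j : ℂ) * (((m : ℕ) : ℂ) * (1 / (p : ℂ))))) := by
    rw [Finset.prod_univ_sum, Fintype.piFinset_univ]
  rw [e2, Finset.prod_eq_zero (Finset.mem_univ j₀) (mem_geom hp hj₀), mul_zero]

theorem mem_cos {p : ℕ} (hp : 1 ≤ p) {k : Fin 3 → ℤ} (hk : ∃ j, ¬((p : ℤ) ∣ k j)) (x : V) :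
    ∑ n : Fin 3 → Fin p, Real.cos (2 * Real.pi * ∑ j, (k j : ℝ) * (x + memSh p n) j) = 0 := by
  have h := congrArg Complex.re (mem_mode hp hk x)
  rw [Complex.re_sum, Complex.zero_re] at h
  rw [← h]
  refine Finset.sum_congr rfl fun n _ => ?_
  rw [Complex.exp_ofReal_mul_I_re]

theorem mem_sin {p : ℕ} (hp : 1 ≤ p) {k : Fin 3 → ℤ} (hk : ∃ j, ¬((p : ℤ) ∣ k j)) (x : V) :
    ∑ n : Fin 3 → Fin p, Real.sin (2 * Real.pi * ∑ j, (k j : ℝ) * (x + memSh p n) j) = 0 := by
  have h := congrArg Complex.im (mem_mode hp hk x)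
  rw [Complex.im_sum, Complex.zero_im] at h
  rw [← h]
  refine Finset.sum_congr rfl fun n _ => ?_
  rw [Complex.exp_ofReal_mul_I_im]

/-! ### The average of the elements of the span -/

theorem mem_av_md {p : ℕ} (hp : 1 ≤ p) {w : V → V} (hw : w ∈ md p) : memAv p w = 0 := by
  obtain ⟨k, a, hk, -, h | h⟩ := hw
  · funext x
    unfold memAv
    rw [Finset.sum_congr rfl fun n _ => h (x + memSh p n), ← Finset.sum_smul, mem_cos hp hk,
      zero_smul, smul_zero]
    rfl
  · funext x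
    unfold memAv
    rw [Finset.sum_congr rfl fun n _ => h (x + memSh p n), ← Finset.sum_smul, mem_sin hp hk,
      zero_smul, smul_zero]
    rfl

theorem mem_av_const {p : ℕ} (hp : 1 ≤ p) {w : V → V}
    (h : ∀ (n : Fin 3 → Fin p) (x : V), w (x + memSh p n) = w x) : memAv p w = w := by
  have hp0 : (p : ℝ) ^ 3 ≠ 0 := by positivity
  funext x
  unfold memAv
  rw [Finset.sum_congr rfl fun n _ => h n x, Finset.sum_const, Finset.card_univ,
    ← Nat.cast_smul_eq_nsmul ℝ, mem_card, smul_smul, inv_mul_cancel₀ hp0, one_smul]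

theorem mem_av_span {φ : ℕ → V → V} (hφ : ∀ m i, SP (fun x => φ m x i)) {p : ℕ} (hp : 1 ≤ p)
    {w : V → V} (hw : w ∈ Submodule.span ℝ (Fp φ p)) :
    memAv p w ∈ Submodule.span ℝ (Set.range fun (m : ℕ) (x : V) => φ m ((p : ℝ) • x)) := by
  induction hw using Submodule.span_induction with
  | mem w h =>
    rcases h with ⟨m, h⟩ | h
    · have e : memAv p w = w := by
        refine mem_av_const hp fun n x => ?_
        rw [h, h, mem_phi hφ hp]
      rw [e]
      exact Submodule.subset_span ⟨m, funext fun x => (h x).symm⟩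
    · rw [mem_av_md hp h]
      exact Submodule.zero_mem _
  | zero =>
    have e : memAv p (0 : V → V) = 0 := by
      funext x
      unfold memAv
      simp
    rw [e]
    exact Submodule.zero_mem _
  | add v w _ _ hv hw =>
    have e : memAv p (v + w) = memAv p v + memAv p w := by
      funext x
      unfold memAv
      simp only [Pi.add_apply]
      rw [Finset.sum_add_distrib, smul_add]
    rw [e]
    exact Submodule.add_mem _ hv hw
  | smul c w _ hw =>
    have e : memAv p (c • w) = c • memAv p w := by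
      funext x
      unfold memAv
      simp only [Pi.smul_apply]
      rw [← Finset.smul_sum, smul_comm]
    rw [e]
    exact Submodule.smul_mem _ c hw

/-! ### The distance -/

theorem mem_trans {f : V → ℝ} (hf : SP f) (y : V) : SP (fun x => f (x + y)) where
  smooth := hf.smooth.comp (contDiff_id.add contDiff_const)
  per := by
    intro j x
    show f (x + Pi.single j 1 + y) = f (x + y)
    rw [add_right_comm]
    exact hf.per j (x + y)

theorem mem_av_apply (p : ℕ) (w : V → V) (x : V) (i : Fin 3) :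
    memAv p w x i = ((p : ℝ) ^ 3)⁻¹ * ∑ n : Fin 3 → Fin p, w (x + memSh p n) i := by
  unfold memAv
  rw [Pi.smul_apply, smul_eq_mul, Finset.sum_apply]

theorem mem_le (hI : S_int) {p : ℕ} (hp : 1 ≤ p) {v w : V → V}
    (hv : ∀ i, SP (fun x => v x i)) (hw : ∀ i, SP (fun x => w x i))
    (h : ∀ (n : Fin 3 → Fin p) (x : V), v (x + memSh p n) = v x) (i : Fin 3) :
    ∫ x in cube, (v x i - memAv p w x i) ^ 2 ≤ ∫ x in cube, (v x i - w x i) ^ 2 := by
  have hp0 : (0 : ℝ) < (p : ℝ) ^ 3 := by positivity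
  set g : V → ℝ := fun x => v x i - w x i with hgdef
  have hg : SP g := uni_sub (hv i) (hw i)
  have hgt : ∀ y : V, SP (fun x => g (x + y)) := fun y => mem_trans hg y
  have e : ∀ x, v x i - memAv p w x i =
      ((p : ℝ) ^ 3)⁻¹ * ∑ n : Fin 3 → Fin p, g (x + memSh p n) := by
    intro x
    have e1 : v x i = memAv p v x i := by rw [mem_av_const hp h]
    rw [e1, mem_av_apply, mem_av_apply, ← mul_sub, ← Finset.sum_sub_distrib]
  have hle : ∀ x, (v x i - memAv p w x i) ^ 2 ≤
      ((p : ℝ) ^ 3)⁻¹ * ∑ n : Fin 3 → Fin p, g (x + memSh p n) ^ 2 := by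
    intro x
    rw [e x, mul_pow]
    have h1 := sq_sum_le_card_mul_sum_sq (s := (Finset.univ : Finset (Fin 3 → Fin p)))
      (f := fun n => g (x + memSh p n))
    rw [Finset.card_univ, mem_card] at h1
    have h2 := mul_le_mul_of_nonneg_left h1 (by positivity : (0 : ℝ) ≤ (((p : ℝ) ^ 3)⁻¹) ^ 2)
    refine h2.trans (le_of_eq ?_)
    field_simp
  have hsp : SP (fun x => v x i - memAv p w x i) := by
    have e2 : (fun x => v x i - memAv p w x i) = fun x =>
        ((p : ℝ) ^ 3)⁻¹ * ∑ n : Fin 3 → Fin p, g (x + memSh p n) := funext e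
    rw [e2]
    exact uni_smul _ (SP.sum fun n _ => hgt _)
  have hs2 : SP (fun x => ∑ n : Fin 3 → Fin p, g (x + memSh p n) ^ 2) := by
    simp only [pow_two]
    exact SP.sum fun n _ => (hgt _).mul (hgt _)
  have h3 : ∫ x in cube, (v x i - memAv p w x i) ^ 2 ≤
      ∫ x in cube, ((p : ℝ) ^ 3)⁻¹ * ∑ n : Fin 3 → Fin p, g (x + memSh p n) ^ 2 := by
    refine integral_mono ?_ ?_ hle
    · exact uni_sq hsp
    · exact (uni_smul _ hs2).int
  refine h3.trans (le_of_eq ?_)
  have h4 : ∀ n : Fin 3 → Fin p, ∫ x in cube, g (x + memSh p n) ^ 2 = ∫ x in cube, g x ^ 2 := by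
    intro n
    have h5 := hI.2 _ (hg.mul hg) (memSh p n)
    simp only [← pow_two] at h5
    exact h5
  rw [integral_const_mul, integral_finsetSum _ fun n _ => uni_sq (hgt _),
    Finset.sum_congr rfl fun n _ => h4 n, Finset.sum_const, Finset.card_univ, nsmul_eq_mul,
    mem_card, ← mul_assoc, inv_mul_cancel₀ hp0.ne', one_mul]

theorem s_memdown (hI : S_int) : S_memdown := by
  intro φ p hφ hp v hv hper hspan ε hε
  have hp0 : (0 : ℝ) < (p : ℝ) := by positivity
  obtain ⟨w, hw, h⟩ := hspan (ε / (p : ℝ) ^ 2) (by positivity)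
  have hwsp : ∀ i, SP (fun x => w x i) :=
    shift_sp_span (fun w hw i => shift_sp_Fp hφ hw i) hw
  have hA := mem_av_span hφ hp hw
  obtain ⟨b, hb⟩ := Finsupp.mem_span_range_iff_exists_finsupp.1 hA
  have hvn : ∀ (n : Fin 3 → Fin p) (x : V), v (x + memSh p n) = v x := fun n x =>
    mem_nat hper (fun j => (n j : ℕ)) x
  have hbL : ∀ x i, memAv p w x i =
      ∑ m ∈ Finset.range (b.support.sup id + 1), b m * φ m ((p : ℝ) • x) i := by
    intro x i
    rw [← hb, Finsupp.sum, Finset.sum_apply, Finset.sum_apply]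
    refine Finset.sum_subset ?_ ?_
    · intro m hm
      rw [Finset.mem_range]
      exact Nat.lt_succ_of_le (Finset.le_sup (f := id) hm)
    · intro m _ hm
      rw [Finsupp.notMem_support_iff] at hm
      show b m * φ m ((p : ℝ) • x) i = 0
      rw [hm, zero_mul]
  refine ⟨b.support.sup id + 1, fun m => p * b m, ?_⟩
  have hvs : ∀ i, SP (fun x => v ((p : ℝ)⁻¹ • x) i) := by
    intro i
    refine ⟨(hv i).smooth.comp (contDiff_const_smul _), ?_⟩
    intro j x
    show v ((p : ℝ)⁻¹ • (x + Pi.single j 1)) i = v ((p : ℝ)⁻¹ • x) i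
    rw [smul_add, shift_smul_single, mul_one, inv_eq_one_div, hper]
  have key : ∀ i, ∫ x in cube, (p * v ((p : ℝ)⁻¹ • x) i -
      ∑ m ∈ Finset.range (b.support.sup id + 1), (p * b m) * φ m x i) ^ 2 =
      (p : ℝ) ^ 2 * ∫ x in cube, (v x i - memAv p w x i) ^ 2 := by
    intro i
    have hg : SP (fun x => p * v ((p : ℝ)⁻¹ • x) i -
        ∑ m ∈ Finset.range (b.support.sup id + 1), (p * b m) * φ m x i) :=
      uni_sub (uni_smul _ (hvs i)) (SP.sum fun m _ => uni_smul _ (hφ m i))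
    have h1 := hI.1 _ (hg.mul hg) p hp
    simp only [← pow_two] at h1
    rw [← h1, ← integral_const_mul]
    refine integral_congr_ae (Eventually.of_forall fun x => ?_)
    show (p * v ((p : ℝ)⁻¹ • (p : ℝ) • x) i -
      ∑ m ∈ Finset.range (b.support.sup id + 1), (p * b m) * φ m ((p : ℝ) • x) i) ^ 2 =
      (p : ℝ) ^ 2 * (v x i - memAv p w x i) ^ 2
    rw [smul_smul, inv_mul_cancel₀ hp0.ne', one_smul, hbL, ← mul_pow, mul_sub, Finset.mul_sum]
    refine congrArg (fun z : ℝ => (p * v x i - z) ^ 2) (Finset.sum_congr rfl fun m _ => ?_)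
    ring
  rw [Finset.sum_congr rfl fun i _ => key i, ← Finset.mul_sum]
  have h2 : ∑ i, ∫ x in cube, (v x i - memAv p w x i) ^ 2 ≤
      ∑ i, ∫ x in cube, (v x i - w x i) ^ 2 :=
    Finset.sum_le_sum fun i _ => mem_le hI hp hv hwsp hvn i
  have h3 := lt_of_le_of_lt h2 h
  rw [lt_div_iff₀ (by positivity)] at h3
  linarith

end Pool.Agent.H226.GB

end

/-! ## Down -/

section

/-!
From the larger space to the span of `φ` (helper353 for helper226).
-/

set_option autoImplicit false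

open MeasureTheory Set Filter Topology
open scoped ContDiff
open H459R3.NS

namespace Pool.Agent.H226.GB

theorem down_pd (a c : ℝ) {f : V → ℝ} (hf : Differentiable ℝ f) (j : Fin 3) :
    pd j (fun y => c * f (a • y)) = fun x => c * a * pd j f (a • x) := by
  funext x
  unfold pd
  have h1 : HasFDerivAt (fun y : V => a • y) (a • ContinuousLinearMap.id ℝ V) x :=
    (hasFDerivAt_id x).const_smul a
  have h2 : HasFDerivAt (fun y => f (a • y)) ((fderiv ℝ f (a • x)).comp
      (a • ContinuousLinearMap.id ℝ V)) x :=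
    HasFDerivAt.comp x (hf (a • x)).hasFDerivAt h1
  have h3 : HasFDerivAt (fun y => c * f (a • y)) (c • ((fderiv ℝ f (a • x)).comp
      (a • ContinuousLinearMap.id ℝ V))) x := h2.const_mul c
  rw [h3.fderiv]
  simp only [_root_.smul_apply, ContinuousLinearMap.comp_apply,
    ContinuousLinearMap.id_apply, map_smul, smul_eq_mul]
  ring

theorem down_sp {T : ℝ} {u : ℝ → V → V}
    (h : ContDiffOn ℝ ∞ (fun z : ℝ × V => u z.1 z.2) (Ico 0 T ×ˢ univ))
    (hp : ∀ t ∈ Ico 0 T, Per (u t)) {t : ℝ} (ht : t ∈ Ico 0 T) (i : Fin 3) :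
    SP (fun x => u t x i) where
  smooth := contDiff_slice (f := fun (t : ℝ) (x : V) => u t x i) (uni_comp h i) ht
  per := fun j x => congrFun (hp t ht j x) i

theorem down_R {T : ℝ} {u : ℝ → V → V}
    (h : ContDiffOn ℝ ∞ (fun z : ℝ × V => u z.1 z.2) (Ico 0 T ×ˢ univ))
    (hp : ∀ t ∈ Ico 0 T, Per (u t)) (ν : ℝ) {t : ℝ} (ht : t ∈ Ioo 0 T) (i : Fin 3) :
    SP (uniR ν u t i) := by
  have ht' : t ∈ Ico 0 T := ⟨ht.1.le, ht.2⟩
  exact uni_sub (SP.add (uni_dt (uni_comp h i) (fun s hs j x => congrFun (hp s hs j x) i) ht)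
    (SP.sum fun j _ => (down_sp h hp ht' j).mul ((down_sp h hp ht' i).pd j)))
    (uni_smul ν (SP.sum fun j _ => ((down_sp h hp ht' i).pd j).pd j))

/-- GB23 -/
theorem s_down (hI : S_int) (hM : S_memdown) : S_down := by
  intro φ p hφ hp ν T u hu hper
  have hp0 : (p : ℝ) ≠ 0 := by
    have : (1 : ℝ) ≤ p := by exact_mod_cast hp
    positivity
  have hsm : ContDiffOn ℝ ∞ (fun z : ℝ × V => (p : ℝ) • u z.1 ((p : ℝ)⁻¹ • z.2))
      (Ico 0 T ×ˢ univ) := by
    refine ContDiffOn.const_smul (p : ℝ) ?_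
    refine hu.smooth.comp (g := fun z : ℝ × V => u z.1 z.2)
      (f := fun z : ℝ × V => (z.1, (p : ℝ)⁻¹ • z.2)) ?_ ?_
    · exact ContDiff.contDiffOn (contDiff_fst.prodMk (contDiff_snd.const_smul (p : ℝ)⁻¹))
    · intro z hz
      exact ⟨hz.1, mem_univ _⟩
  have hpe : ∀ t ∈ Ico 0 T, Per (fun x => (p : ℝ) • u t ((p : ℝ)⁻¹ • x)) := by
    intro t ht i x
    have h1 : (p : ℝ)⁻¹ • (x + Pi.single i 1) = (p : ℝ)⁻¹ • x + Pi.single i (1 / (p : ℝ)) := by
      rw [smul_add, ← Pi.single_smul, smul_eq_mul, mul_one, one_div]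
    change (p : ℝ) • u t ((p : ℝ)⁻¹ • (x + Pi.single i 1)) = (p : ℝ) • u t ((p : ℝ)⁻¹ • x)
    rw [h1, hper t ht]
  have hsp : ∀ t ∈ Ico 0 T, ∀ i, SP (fun x => u t x i) := fun t ht i =>
    down_sp hu.smooth hu.per ht i
  have hpd : ∀ t ∈ Ico 0 T, ∀ i j, pd j (fun y => ((p : ℝ) • u t ((p : ℝ)⁻¹ • y)) i) =
      fun x => pd j (fun y => u t y i) ((p : ℝ)⁻¹ • x) := by
    intro t ht i j
    have h1 := down_pd (p : ℝ)⁻¹ (p : ℝ) (hsp t ht i).diff j
    rw [mul_inv_cancel₀ hp0] at h1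
    simp only [one_mul] at h1
    exact h1
  have hpd2 : ∀ t ∈ Ico 0 T, ∀ i j x, pd j (pd j (fun y => ((p : ℝ) • u t ((p : ℝ)⁻¹ • y)) i)) x =
      (p : ℝ)⁻¹ * pd j (pd j (fun y => u t y i)) ((p : ℝ)⁻¹ • x) := by
    intro t ht i j x
    rw [hpd t ht i j]
    have h1 := down_pd (p : ℝ)⁻¹ 1 ((hsp t ht i).pd j).diff j
    simp only [one_mul] at h1
    rw [h1]
  refine ⟨hsm, hpe, ?_, ?_, ?_⟩
  · intro t ht x
    simp only [hpd t ht]
    exact hu.divfree t ht _
  · intro t ht ε hε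
    exact hM φ p hφ hp (u t) (hsp t ht) (hper t ht) (hu.mem t ht) ε hε
  · intro t ht m
    have ht' : t ∈ Ico 0 T := ⟨ht.1.le, ht.2⟩
    have hR := fun i => down_R hsm hpe (ν * p ^ 2) ht i
    have hR2 : ∀ i x, uniR (ν * p ^ 2) (fun t x => (p : ℝ) • u t ((p : ℝ)⁻¹ • x)) t i
        ((p : ℝ) • x) = p * uniR ν u t i x := by
      intro i x
      have hx : (p : ℝ)⁻¹ • (p : ℝ) • x = x := by
        rw [smul_smul, inv_mul_cancel₀ hp0, one_smul]
      have h1 : dt (fun s x => ((p : ℝ) • u s ((p : ℝ)⁻¹ • x)) i) t ((p : ℝ) • x) =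
          p * dt (fun s x => u s x i) t x := by
        unfold dt
        simp only [hx, Pi.smul_apply, smul_eq_mul]
        exact deriv_const_mul_field _
      have h2 : ∑ j, pd j (pd j (fun y => ((p : ℝ) • u t ((p : ℝ)⁻¹ • y)) i)) ((p : ℝ) • x) =
          (p : ℝ)⁻¹ * ∑ j, pd j (pd j (fun y => u t y i)) x := by
        rw [Finset.mul_sum]
        exact Finset.sum_congr rfl fun j _ => by rw [hpd2 t ht', hx]
      have h3 : ∑ j, ((p : ℝ) • u t ((p : ℝ)⁻¹ • (p : ℝ) • x)) j *
          pd j (fun y => ((p : ℝ) • u t ((p : ℝ)⁻¹ • y)) i) ((p : ℝ) • x) =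
          p * ∑ j, u t x j * pd j (fun y => u t y i) x := by
        rw [Finset.mul_sum]
        refine Finset.sum_congr rfl fun j _ => ?_
        have e1 : pd j (fun y => ((p : ℝ) • u t ((p : ℝ)⁻¹ • y)) i) ((p : ℝ) • x) =
            pd j (fun y => u t y i) x := by
          rw [hpd t ht']
          simp only [hx]
        rw [e1, hx, Pi.smul_apply, smul_eq_mul, mul_assoc]
      change dt (fun s x => ((p : ℝ) • u s ((p : ℝ)⁻¹ • x)) i) t ((p : ℝ) • x) +
        ∑ j, ((p : ℝ) • u t ((p : ℝ)⁻¹ • (p : ℝ) • x)) j *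
          pd j (fun y => ((p : ℝ) • u t ((p : ℝ)⁻¹ • y)) i) ((p : ℝ) • x) -
        ν * p ^ 2 * ∑ j, pd j (pd j (fun y => ((p : ℝ) • u t ((p : ℝ)⁻¹ • y)) i))
          ((p : ℝ) • x) = p * uniR ν u t i x
      rw [h1, h2, h3]
      unfold uniR
      field_simp
    have h3 : ∀ i, ∫ x in cube, uniR (ν * p ^ 2) (fun t x => (p : ℝ) • u t ((p : ℝ)⁻¹ • x)) t i x *
        φ m x i = p * ∫ x in cube, uniR ν u t i x * φ m ((p : ℝ) • x) i := by
      intro i
      rw [← hI.1 _ ((hR i).mul (hφ m i)) p hp, ← integral_const_mul]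
      refine integral_congr_ae (Eventually.of_forall fun x => ?_)
      simp only [hR2]
      ring
    change ∑ i, ∫ x in cube, uniR (ν * p ^ 2) (fun t x => (p : ℝ) • u t ((p : ℝ)⁻¹ • x)) t i x *
        φ m x i = 0
    rw [Finset.sum_congr rfl fun i _ => h3 i, ← Finset.mul_sum]
    have h4 := hu.eq t ht (fun x => φ m ((p : ℝ) • x)) (Or.inl ⟨m, fun x => rfl⟩)
    have h5 : ∑ i, ∫ x in cube, uniR ν u t i x * φ m ((p : ℝ) • x) i = 0 := h4
    rw [h5, mul_zero]

end Pool.Agent.H226.GB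

end

/-! ## Up -/

section

/-!
From the span of the fields `φ m` to the larger space.
-/

set_option autoImplicit false

open MeasureTheory Set Filter Topology
open scoped ContDiff
open H459R3.NS

namespace Pool.Agent.H226.GB

theorem up_pd {f : V → ℝ} (hf : SP f) (c : ℝ) (j : Fin 3) (x : V) :
    pd j (fun y => f (c • y)) x = c * pd j f (c • x) := by
  unfold pd
  have h1 : HasFDerivAt (fun y : V => c • y) (c • ContinuousLinearMap.id ℝ V) x :=
    (hasFDerivAt_id x).const_smul c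
  have h2 : HasFDerivAt (fun y => f (c • y))
      ((fderiv ℝ f (c • x)).comp (c • ContinuousLinearMap.id ℝ V)) x :=
    HasFDerivAt.comp x (hf.diff (c • x)).hasFDerivAt h1
  rw [h2.fderiv]
  simp

theorem up_pdc {f : V → ℝ} (hf : SP f) (c : ℝ) (j : Fin 3) (x : V) :
    pd j (fun y => c * f y) x = c * pd j f x := by
  unfold pd
  have h : HasFDerivAt (fun y => c * f y) (c • fderiv ℝ f x) x :=
    (hf.diff x).hasFDerivAt.const_mul c
  rw [h.fderiv]
  simp

theorem up_per {F : Type*} {f : V → F} (hf : Per f) (p : ℕ) :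
    Per (fun x => f ((p : ℝ) • x)) := by
  intro i x
  have h := hf.int (Pi.single i (p : ℤ)) ((p : ℝ) • x)
  have e : (p : ℝ) • (x + Pi.single i 1) =
      (p : ℝ) • x + fun j => (((Pi.single i (p : ℤ) : K3) j : ℤ) : ℝ) := by
    funext j
    by_cases hj : j = i
    · subst hj
      simp [mul_add]
    · simp [Pi.single_eq_of_ne hj]
  show f ((p : ℝ) • (x + Pi.single i 1)) = f ((p : ℝ) • x)
  rw [e, h]

theorem up_sp {f : V → ℝ} (hf : SP f) (p : ℕ) : SP (fun x => f ((p : ℝ) • x)) where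
  smooth := hf.smooth.comp (contDiff_const_smul (p : ℝ))
  per := up_per hf.per p

theorem up_pdv {f : V → ℝ} (hf : SP f) {p : ℕ} (hp : (p : ℝ) ≠ 0) (j : Fin 3) (x : V) :
    pd j (fun y => (p : ℝ)⁻¹ * f ((p : ℝ) • y)) x = pd j f ((p : ℝ) • x) := by
  rw [up_pdc (up_sp hf p), up_pd hf, ← mul_assoc, inv_mul_cancel₀ hp, one_mul]

/-! ### modes -/

theorem up_cos (k : K3) : SP (fun x => Real.cos (2 * Real.pi * ph k x)) where
  smooth := Real.contDiff_cos.comp (contDiff_const.mul (ph_contDiff k))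
  per := by
    intro i x
    have e : 2 * Real.pi * ph k (x + Pi.single i 1) =
        2 * Real.pi * ph k x + (k i : ℝ) * (2 * Real.pi) := by
      rw [ph_add, ph_single]
      ring
    show Real.cos (2 * Real.pi * ph k (x + Pi.single i 1)) = Real.cos (2 * Real.pi * ph k x)
    rw [e, Real.cos_add_int_mul_two_pi]

theorem up_sin (k : K3) : SP (fun x => Real.sin (2 * Real.pi * ph k x)) where
  smooth := Real.contDiff_sin.comp (contDiff_const.mul (ph_contDiff k))
  per := by
    intro i x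
    have e : 2 * Real.pi * ph k (x + Pi.single i 1) =
        2 * Real.pi * ph k x + (k i : ℝ) * (2 * Real.pi) := by
      rw [ph_add, ph_single]
      ring
    show Real.sin (2 * Real.pi * ph k (x + Pi.single i 1)) = Real.sin (2 * Real.pi * ph k x)
    rw [e, Real.sin_add_int_mul_two_pi]

theorem up_mode (hI : S_int) {g : V → ℝ} (hg : SP g) {p : ℕ} (hp : (p : ℝ) ≠ 0) (k : K3)
    (j : Fin 3) (hk : ¬((p : ℤ) ∣ k j)) :
    ∫ x in cube, g ((p : ℝ) • x) * Real.cos (2 * Real.pi * ph k x) = 0 ∧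
    ∫ x in cube, g ((p : ℝ) • x) * Real.sin (2 * Real.pi * ph k x) = 0 := by
  set C := ∫ x in cube, g ((p : ℝ) • x) * Real.cos (2 * Real.pi * ph k x) with hC
  set D := ∫ x in cube, g ((p : ℝ) • x) * Real.sin (2 * Real.pi * ph k x) with hD
  set θ : ℝ := 2 * Real.pi * (k j / p) with hθ
  have hsc : SP (fun x => g ((p : ℝ) • x) * Real.cos (2 * Real.pi * ph k x)) :=
    (up_sp hg p).mul (up_cos k)
  have hss : SP (fun x => g ((p : ℝ) • x) * Real.sin (2 * Real.pi * ph k x)) :=
    (up_sp hg p).mul (up_sin k)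
  have hgs : ∀ x : V, g ((p : ℝ) • (x + Pi.single j (1 / (p : ℝ)))) = g ((p : ℝ) • x) := by
    intro x
    have e : (p : ℝ) • (x + Pi.single j (1 / (p : ℝ))) = (p : ℝ) • x + Pi.single j 1 := by
      rw [smul_add, ← Pi.single_smul, smul_eq_mul, mul_one_div_cancel hp]
    rw [e, hg.per]
  have hph : ∀ x : V, 2 * Real.pi * ph k (x + Pi.single j (1 / (p : ℝ))) =
      2 * Real.pi * ph k x + θ := by
    intro x
    rw [ph_add, ph_single, hθ]
    ring
  have c1 := hI.2 _ hsc (Pi.single j (1 / (p : ℝ)))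
  have c2 := hI.2 _ hss (Pi.single j (1 / (p : ℝ)))
  simp only [hgs, hph] at c1 c2
  have e1 : ∀ x : V, g ((p : ℝ) • x) * Real.cos (2 * Real.pi * ph k x + θ) =
      Real.cos θ * (g ((p : ℝ) • x) * Real.cos (2 * Real.pi * ph k x)) -
        Real.sin θ * (g ((p : ℝ) • x) * Real.sin (2 * Real.pi * ph k x)) := by
    intro x
    rw [Real.cos_add]
    ring
  have e2 : ∀ x : V, g ((p : ℝ) • x) * Real.sin (2 * Real.pi * ph k x + θ) =
      Real.cos θ * (g ((p : ℝ) • x) * Real.sin (2 * Real.pi * ph k x)) +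
        Real.sin θ * (g ((p : ℝ) • x) * Real.cos (2 * Real.pi * ph k x)) := by
    intro x
    rw [Real.sin_add]
    ring
  simp only [e1] at c1
  simp only [e2] at c2
  rw [integral_sub (hsc.int.const_mul _) (hss.int.const_mul _), integral_const_mul,
    integral_const_mul, ← hC, ← hD] at c1
  rw [integral_add (hss.int.const_mul _) (hsc.int.const_mul _), integral_const_mul,
    integral_const_mul, ← hC, ← hD] at c2
  have hcos : Real.cos θ ≠ 1 := by
    intro h
    obtain ⟨n, hn⟩ := (Real.cos_eq_one_iff θ).1 h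
    apply hk
    refine ⟨n, ?_⟩
    have hpi : (2 * Real.pi) ≠ 0 := by positivity
    have h1 : (2 * Real.pi) * (n : ℝ) = (2 * Real.pi) * (k j / p) := by
      rw [← hθ, ← hn]
      ring
    have h2 : (n : ℝ) = k j / p := mul_left_cancel₀ hpi h1
    have h3 : (k j : ℝ) = (p : ℝ) * n := by
      rw [h2]
      field_simp
    exact_mod_cast h3
  have hq : 0 < (Real.cos θ - 1) ^ 2 + Real.sin θ ^ 2 := by
    have : 0 < (Real.cos θ - 1) ^ 2 := by
      have := sub_ne_zero.2 hcos
      positivity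
    positivity
  constructor
  · have : ((Real.cos θ - 1) ^ 2 + Real.sin θ ^ 2) * C = 0 := by
      linear_combination (Real.cos θ - 1) * c1 + Real.sin θ * c2
    exact (mul_eq_zero.1 this).resolve_left hq.ne'
  · have : ((Real.cos θ - 1) ^ 2 + Real.sin θ ^ 2) * D = 0 := by
      linear_combination (Real.cos θ - 1) * c2 - Real.sin θ * c1
    exact (mul_eq_zero.1 this).resolve_left hq.ne'

/-! ### the residual -/

theorem up_res {φ : ℕ → V → V} {ν T : ℝ} {u : ℝ → V → V} {p : ℕ} (hp : (p : ℝ) ≠ 0)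
    (hu : IsGal φ (ν * p ^ 2) T u) {t : ℝ} (ht : t ∈ Ioo 0 T) (i : Fin 3) (x : V) :
    (deriv (fun s => ((p : ℝ)⁻¹ • u s ((p : ℝ) • x)) i) t +
      ∑ j, ((p : ℝ)⁻¹ • u t ((p : ℝ) • x)) j * pd j (fun y => ((p : ℝ)⁻¹ • u t ((p : ℝ) • y)) i) x
      - ν * ∑ j, pd j (pd j (fun y => ((p : ℝ)⁻¹ • u t ((p : ℝ) • y)) i)) x) =
    (p : ℝ)⁻¹ * uniR (ν * p ^ 2) u t i ((p : ℝ) • x) := by
  have ht' : t ∈ Ico 0 T := ⟨ht.1.le, ht.2⟩
  have hU := fun i => uni_sp hu ht' i
  simp only [Pi.smul_apply, smul_eq_mul]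
  have e1 : ∀ j, pd j (fun y => (p : ℝ)⁻¹ * u t ((p : ℝ) • y) i) =
      fun x => pd j (fun y => u t y i) ((p : ℝ) • x) := fun j =>
    funext fun x => up_pdv (f := fun y => u t y i) (hU i) hp j x
  have e2 : ∀ j, pd j (fun x => pd j (fun y => u t y i) ((p : ℝ) • x)) x =
      p * pd j (pd j (fun y => u t y i)) ((p : ℝ) • x) := fun j =>
    up_pd ((hU i).pd j) p j x
  have e3 : deriv (fun s => (p : ℝ)⁻¹ * u s ((p : ℝ) • x) i) t =
      (p : ℝ)⁻¹ * dt (fun s x => u s x i) t ((p : ℝ) • x) :=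
    deriv_const_mul_field _
  simp only [e1, e2]
  rw [e3]
  unfold uniR
  rw [← Finset.mul_sum]
  simp only [mul_assoc (p : ℝ)⁻¹]
  rw [← Finset.mul_sum]
  field_simp

theorem s_up (hI : S_int) : S_up := by
  intro φ p hφ hp1 ν T u hu
  have hp : (p : ℝ) ≠ 0 := by
    have : 0 < p := hp1
    positivity
  refine ⟨?_, ?_, ?_, ?_, ?_⟩
  · have h1 : ContDiff ℝ ∞ (fun z : ℝ × V => ((z.1, (p : ℝ) • z.2) : ℝ × V)) :=
      contDiff_fst.prodMk ((contDiff_const_smul (p : ℝ)).comp contDiff_snd)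
    have h2 : ContDiffOn ℝ ∞ (fun z : ℝ × V => u z.1 ((p : ℝ) • z.2)) (Ico 0 T ×ˢ univ) :=
      hu.smooth.comp h1.contDiffOn (fun z hz => ⟨hz.1, mem_univ _⟩)
    exact (contDiff_const_smul ((p : ℝ)⁻¹)).comp_contDiffOn h2
  · intro t ht i x
    have h : u t ((p : ℝ) • (x + Pi.single i 1)) = u t ((p : ℝ) • x) :=
      up_per (hu.per t ht) p i x
    show (p : ℝ)⁻¹ • u t ((p : ℝ) • (x + Pi.single i 1)) = (p : ℝ)⁻¹ • u t ((p : ℝ) • x)
    rw [h]
  · intro t ht x
    have e : ∀ i, pd i (fun y => ((p : ℝ)⁻¹ • u t ((p : ℝ) • y)) i) x =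
        pd i (fun y => u t y i) ((p : ℝ) • x) := fun i =>
      up_pdv (f := fun y => u t y i) (uni_sp hu ht i) hp i x
    rw [Finset.sum_congr rfl fun i _ => e i]
    exact hu.divfree t ht _
  · intro t ht ε hε
    obtain ⟨L, a, h⟩ := hu.mem t ht (ε * p ^ 2) (by positivity)
    refine ⟨∑ m ∈ Finset.range L, ((p : ℝ)⁻¹ * a m) • (fun x => φ m ((p : ℝ) • x)), ?_, ?_⟩
    · refine Submodule.sum_mem _ fun m _ => Submodule.smul_mem _ _ (Submodule.subset_span ?_)
      exact Or.inl ⟨m, fun x => rfl⟩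
    · have e : ∀ i, ∫ x in cube, (((p : ℝ)⁻¹ • u t ((p : ℝ) • x)) i -
          (∑ m ∈ Finset.range L, ((p : ℝ)⁻¹ * a m) • (fun x => φ m ((p : ℝ) • x))) x i) ^ 2 =
          ((p : ℝ) ^ 2)⁻¹ * ∫ x in cube, (u t x i - ∑ m ∈ Finset.range L, a m * φ m x i) ^ 2 := by
        intro i
        have hs : SP (fun x => u t x i - ∑ m ∈ Finset.range L, a m * φ m x i) :=
          uni_sub (uni_sp hu ht i) (SP.sum fun m _ => uni_smul (a m) (hφ m i))
        have h1 := hI.1 _ (hs.mul hs) p hp1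
        simp only [← sq] at h1
        rw [← h1, ← integral_const_mul]
        refine integral_congr_ae (Eventually.of_forall fun x => ?_)
        show (((p : ℝ)⁻¹ • u t ((p : ℝ) • x)) i -
          (∑ m ∈ Finset.range L, ((p : ℝ)⁻¹ * a m) • (fun x => φ m ((p : ℝ) • x))) x i) ^ 2 =
          ((p : ℝ) ^ 2)⁻¹ * (u t ((p : ℝ) • x) i -
            ∑ m ∈ Finset.range L, a m * φ m ((p : ℝ) • x) i) ^ 2
        have e1 : (∑ m ∈ Finset.range L, ((p : ℝ)⁻¹ * a m) • (fun x => φ m ((p : ℝ) • x))) x i =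
            (p : ℝ)⁻¹ * ∑ m ∈ Finset.range L, a m * φ m ((p : ℝ) • x) i := by
          rw [Finset.sum_apply, Finset.sum_apply, Finset.mul_sum]
          refine Finset.sum_congr rfl fun m _ => ?_
          simp only [Pi.smul_apply, smul_eq_mul]
          ring
        rw [e1, Pi.smul_apply, smul_eq_mul, ← mul_sub, mul_pow, inv_pow]
      rw [Finset.sum_congr rfl fun i _ => e i, ← Finset.mul_sum]
      have hp2 : (0 : ℝ) < (p : ℝ) ^ 2 := by positivity
      rw [inv_mul_lt_iff₀ hp2]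
      linarith
  · intro t ht w hw
    have e : ∀ i, ∫ x in cube, (deriv (fun s => ((p : ℝ)⁻¹ • u s ((p : ℝ) • x)) i) t +
        ∑ j, ((p : ℝ)⁻¹ • u t ((p : ℝ) • x)) j *
          pd j (fun y => ((p : ℝ)⁻¹ • u t ((p : ℝ) • y)) i) x
        - ν * ∑ j, pd j (pd j (fun y => ((p : ℝ)⁻¹ • u t ((p : ℝ) • y)) i)) x) * w x i =
        (p : ℝ)⁻¹ * ∫ x in cube, uniR (ν * p ^ 2) u t i ((p : ℝ) • x) * w x i := by
      intro i
      rw [← integral_const_mul]
      refine integral_congr_ae (Eventually.of_forall fun x => ?_)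
      show _ = (p : ℝ)⁻¹ * (uniR (ν * p ^ 2) u t i ((p : ℝ) • x) * w x i)
      rw [← mul_assoc, ← up_res hp hu ht i x]
    rw [Finset.sum_congr rfl fun i _ => e i, ← Finset.mul_sum]
    have key : ∑ i, ∫ x in cube, uniR (ν * p ^ 2) u t i ((p : ℝ) • x) * w x i = 0 := by
      rcases hw with ⟨m, hm⟩ | ⟨k, a, ⟨j, hj⟩, -, hw⟩
      · have e4 : ∀ i, ∫ x in cube, uniR (ν * p ^ 2) u t i ((p : ℝ) • x) * w x i =
            ∫ x in cube, uniR (ν * p ^ 2) u t i x * φ m x i := by
          intro i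
          rw [← hI.1 _ ((uni_R hu ht i).mul (hφ m i)) p hp1]
          refine integral_congr_ae (Eventually.of_forall fun x => ?_)
          show uniR (ν * p ^ 2) u t i ((p : ℝ) • x) * w x i =
            uniR (ν * p ^ 2) u t i ((p : ℝ) • x) * φ m ((p : ℝ) • x) i
          rw [hm]
        rw [Finset.sum_congr rfl fun i _ => e4 i]
        exact hu.eq t ht m
      · refine Finset.sum_eq_zero fun i _ => ?_
        have h5 := up_mode hI (uni_R hu ht i) hp k j hj
        rcases hw with hw | hw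
        · have e6 : ∫ x in cube, uniR (ν * p ^ 2) u t i ((p : ℝ) • x) * w x i =
              ∫ x in cube, a i * (uniR (ν * p ^ 2) u t i ((p : ℝ) • x) *
                Real.cos (2 * Real.pi * ph k x)) := by
            refine integral_congr_ae (Eventually.of_forall fun x => ?_)
            show uniR (ν * p ^ 2) u t i ((p : ℝ) • x) * w x i = a i *
              (uniR (ν * p ^ 2) u t i ((p : ℝ) • x) * Real.cos (2 * Real.pi * ph k x))
            rw [hw, Pi.smul_apply, smul_eq_mul]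
            unfold ph
            ring
          rw [e6, integral_const_mul, h5.1, mul_zero]
        · have e6 : ∫ x in cube, uniR (ν * p ^ 2) u t i ((p : ℝ) • x) * w x i =
              ∫ x in cube, a i * (uniR (ν * p ^ 2) u t i ((p : ℝ) • x) *
                Real.sin (2 * Real.pi * ph k x)) := by
            refine integral_congr_ae (Eventually.of_forall fun x => ?_)
            show uniR (ν * p ^ 2) u t i ((p : ℝ) • x) * w x i = a i *
              (uniR (ν * p ^ 2) u t i ((p : ℝ) • x) * Real.sin (2 * Real.pi * ph k x))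
            rw [hw, Pi.smul_apply, smul_eq_mul]
            unfold ph
            ring
          rw [e6, integral_const_mul, h5.2, mul_zero]
    rw [key, mul_zero]

end Pool.Agent.H226.GB

end

/-! ## Scl -/

section

/-!
Rescaling: from solutions for the fields `φ m` to solutions for the fields `φ m (p x)`.
-/

set_option autoImplicit false

open MeasureTheory Set Filter Topology
open scoped ContDiff ENNReal
open H459R3.NS

namespace Pool.Agent.H226.GB

theorem scl_mem (hI : S_int) {φ : ℕ → V → V} (hφ : ∀ m i, SP (fun x => φ m x i)) {p : ℕ}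
    (hp1 : 1 ≤ p) {ν T : ℝ} {u : ℝ → V → V} (hu : IsGal φ ν T u) {t : ℝ} (ht : t ∈ Ico 0 T) :
    InSpan {w | ∃ m, ∀ x, w x = φ m ((p : ℝ) • x)} (fun x => (p : ℝ)⁻¹ • u t ((p : ℝ) • x)) := by
  have hp : (p : ℝ) ≠ 0 := by
    have : 0 < p := hp1
    positivity
  intro ε hε
  obtain ⟨L, a, h⟩ := hu.mem t ht (ε * p ^ 2) (by positivity)
  refine ⟨∑ m ∈ Finset.range L, ((p : ℝ)⁻¹ * a m) • (fun x => φ m ((p : ℝ) • x)), ?_, ?_⟩
  · refine Submodule.sum_mem _ fun m _ => Submodule.smul_mem _ _ (Submodule.subset_span ?_)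
    exact ⟨m, fun x => rfl⟩
  · have e : ∀ i, ∫ x in cube, (((p : ℝ)⁻¹ • u t ((p : ℝ) • x)) i -
        (∑ m ∈ Finset.range L, ((p : ℝ)⁻¹ * a m) • (fun x => φ m ((p : ℝ) • x))) x i) ^ 2 =
        ((p : ℝ) ^ 2)⁻¹ * ∫ x in cube, (u t x i - ∑ m ∈ Finset.range L, a m * φ m x i) ^ 2 := by
      intro i
      have hs : SP (fun x => u t x i - ∑ m ∈ Finset.range L, a m * φ m x i) :=
        uni_sub (uni_sp hu ht i) (SP.sum fun m _ => uni_smul (a m) (hφ m i))
      have h1 := hI.1 _ (hs.mul hs) p hp1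
      simp only [← sq] at h1
      rw [← h1, ← integral_const_mul]
      refine integral_congr_ae (Eventually.of_forall fun x => ?_)
      show (((p : ℝ)⁻¹ • u t ((p : ℝ) • x)) i -
        (∑ m ∈ Finset.range L, ((p : ℝ)⁻¹ * a m) • (fun x => φ m ((p : ℝ) • x))) x i) ^ 2 =
        ((p : ℝ) ^ 2)⁻¹ * (u t ((p : ℝ) • x) i -
          ∑ m ∈ Finset.range L, a m * φ m ((p : ℝ) • x) i) ^ 2
      have e1 : (∑ m ∈ Finset.range L, ((p : ℝ)⁻¹ * a m) • (fun x => φ m ((p : ℝ) • x))) x i =
          (p : ℝ)⁻¹ * ∑ m ∈ Finset.range L, a m * φ m ((p : ℝ) • x) i := by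
        rw [Finset.sum_apply, Finset.sum_apply, Finset.mul_sum]
        refine Finset.sum_congr rfl fun m _ => ?_
        simp only [Pi.smul_apply, smul_eq_mul]
        ring
      rw [e1, Pi.smul_apply, smul_eq_mul, ← mul_sub, mul_pow, inv_pow]
    rw [Finset.sum_congr rfl fun i _ => e i, ← Finset.mul_sum]
    have hp2 : (0 : ℝ) < (p : ℝ) ^ 2 := by positivity
    rw [inv_mul_lt_iff₀ hp2]
    linarith

theorem s_scl (hI : S_int) (hb : Basis phi cc pp gg) : S_scl := by
  intro p ν T u hp1 hu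
  have h := s_up hI phi p hb.sp hp1 ν T u hu
  exact ⟨h.smooth, h.per, h.divfree, fun t ht => scl_mem hI hb.sp hp1 hu ht,
    fun t ht w hw => h.eq t ht w (Or.inl hw)⟩

end Pool.Agent.H226.GB

end

/-! ## Scl2 -/

section

/-!
Rescaling from the closed span of the fields `φ m (p x)` to the closed span of the fields `φ m`
(helper720 for helper226).
-/

set_option autoImplicit false

open MeasureTheory Set Filter Topology
open scoped ContDiff
open H459R3.NS

namespace Pool.Agent.H226.GB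

theorem scl2_sub (p : ℕ) : Sc p ⊆ Fp phi p := fun _ hw => Or.inl hw

theorem scl2_inSpan {p : ℕ} {v : V → V} (h : InSpan (Sc p) v) : InSpan (Fp phi p) v := by
  intro ε hε
  obtain ⟨w, hw, h⟩ := h ε hε
  exact ⟨w, Submodule.span_mono (scl2_sub p) hw, h⟩

/-- the elements of the span are `1 / p`-periodic -/
theorem scl2_span {p : ℕ} (hφ : ∀ m i, SP (fun x => phi m x i)) (hp : 1 ≤ p) (j : Fin 3)
    {w : V → V} (hw : w ∈ Submodule.span ℝ (Sc p)) :
    ∀ x : V, w (x + Pi.single j (1 / (p : ℝ))) = w x := by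
  induction hw using Submodule.span_induction with
  | mem w h =>
    intro x
    obtain ⟨m, h⟩ := h
    rw [h, h, shift_phi_add hφ hp]
  | zero => exact fun x => rfl
  | add v w _ _ hv hw =>
    intro x
    show v (x + Pi.single j (1 / (p : ℝ))) + w (x + Pi.single j (1 / (p : ℝ))) = v x + w x
    rw [hv, hw]
  | smul c w _ hw =>
    intro x
    show c • w (x + Pi.single j (1 / (p : ℝ))) = c • w x
    rw [hw]

/-- smooth elements of the closed span are `1 / p`-periodic -/
theorem scl2_per (hI : S_int) {p : ℕ} (hφ : ∀ m i, SP (fun x => phi m x i)) (hp : 1 ≤ p)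
    {v : V → V} (hv : ∀ i, SP (fun x => v x i)) (h : InSpan (Sc p) v) (j : Fin 3) (x : V) :
    v (x + Pi.single j (1 / (p : ℝ))) = v x := by
  set y : V := Pi.single j (1 / (p : ℝ)) with hy
  have hvy : ∀ i, SP (fun x => v (x + y) i) := fun i => mem_trans (hv i) y
  have hd : ∀ i, SP (fun x => v (x + y) i - v x i) := fun i => uni_sub (hvy i) (hv i)
  have key : ∀ ε > 0, ∑ i, ∫ x in cube, (v (x + y) i - v x i) ^ 2 ≤ 4 * ε := by
    intro ε hε
    obtain ⟨w, hw, hlt⟩ := h ε hε
    have hwsp : ∀ i, SP (fun x => w x i) :=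
      shift_sp_span (fun w hw i => shift_sp_Fp hφ (scl2_sub p hw) i) hw
    have h1 : ∀ i, ∫ x in cube, (v (x + y) i - v x i) ^ 2 ≤
        4 * ∫ x in cube, (v x i - w x i) ^ 2 := by
      intro i
      have hg : SP (fun x => v x i - w x i) := uni_sub (hv i) (hwsp i)
      have hgy : SP (fun x => v (x + y) i - w (x + y) i) := mem_trans hg y
      have h2 : ∫ x in cube, (v (x + y) i - w (x + y) i) ^ 2 =
          ∫ x in cube, (v x i - w x i) ^ 2 := by
        have h5 := hI.2 _ (hg.mul hg) y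
        simp only [← pow_two] at h5
        exact h5
      have hi1 : IntegrableOn (fun x => 2 * (v (x + y) i - w (x + y) i) ^ 2) cube :=
        (uni_sq hgy).const_mul 2
      have hi2 : IntegrableOn (fun x => 2 * (v x i - w x i) ^ 2) cube := (uni_sq hg).const_mul 2
      have h3 : ∫ x in cube, (v (x + y) i - v x i) ^ 2 ≤
          ∫ x in cube, (2 * (v (x + y) i - w (x + y) i) ^ 2 + 2 * (v x i - w x i) ^ 2) := by
        refine integral_mono (uni_sq (hd i)) (hi1.add hi2) (fun x => ?_)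
        have h4 : w (x + y) i = w x i := congrFun (scl2_span hφ hp j hw x) i
        show (v (x + y) i - v x i) ^ 2 ≤
          2 * (v (x + y) i - w (x + y) i) ^ 2 + 2 * (v x i - w x i) ^ 2
        rw [h4]
        nlinarith [sq_nonneg ((v (x + y) i - w x i) + (v x i - w x i))]
      rw [integral_add hi1 hi2, integral_const_mul, integral_const_mul, h2] at h3
      linarith
    have h6 : ∑ i, ∫ x in cube, (v (x + y) i - v x i) ^ 2 ≤
        ∑ i, 4 * ∫ x in cube, (v x i - w x i) ^ 2 := Finset.sum_le_sum fun i _ => h1 i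
    rw [← Finset.mul_sum] at h6
    linarith
  have h0 : ∑ i, ∫ x in cube, (v (x + y) i - v x i) ^ 2 ≤ 0 := by
    refine le_of_forall_pos_le_add fun ε hε => ?_
    have h7 := key (ε / 4) (by positivity)
    linarith
  have hnn : ∀ i, 0 ≤ ∫ x in cube, (v (x + y) i - v x i) ^ 2 := fun i =>
    integral_nonneg fun x => sq_nonneg _
  funext i
  have h1 : ∫ x in cube, (v (x + y) i - v x i) ^ 2 = 0 :=
    le_antisymm ((Finset.single_le_sum (f := fun i => ∫ x in cube, (v (x + y) i - v x i) ^ 2)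
      (fun i _ => hnn i) (Finset.mem_univ i)).trans h0) (hnn i)
  exact sub_eq_zero.1 (uni_zero (hd i) h1 x)

/-- GB49 -/
theorem s_scl2 (hI : S_int) (hb : Basis phi cc pp gg) : S_scl2 := by
  intro p ν T u hp hu
  have hφ : ∀ m i, SP (fun x => phi m x i) := hb.sp
  have hp0 : (p : ℝ) ≠ 0 := by
    have : (1 : ℝ) ≤ p := by exact_mod_cast hp
    positivity
  have hper : ∀ t ∈ Ico 0 T, ∀ (j : Fin 3) (x : V),
      u t (x + Pi.single j (1 / (p : ℝ))) = u t x := fun t ht j x =>
    scl2_per hI hφ hp (fun i => down_sp hu.smooth hu.per ht i) (hu.mem t ht) j x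
  have hsm : ContDiffOn ℝ ∞ (fun z : ℝ × V => (p : ℝ) • u z.1 ((p : ℝ)⁻¹ • z.2))
      (Ico 0 T ×ˢ univ) := by
    refine ContDiffOn.const_smul (p : ℝ) ?_
    refine hu.smooth.comp (g := fun z : ℝ × V => u z.1 z.2)
      (f := fun z : ℝ × V => (z.1, (p : ℝ)⁻¹ • z.2)) ?_ ?_
    · exact ContDiff.contDiffOn (contDiff_fst.prodMk (contDiff_snd.const_smul (p : ℝ)⁻¹))
    · intro z hz
      exact ⟨hz.1, mem_univ _⟩
  have hpe : ∀ t ∈ Ico 0 T, Per (fun x => (p : ℝ) • u t ((p : ℝ)⁻¹ • x)) := by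
    intro t ht i x
    have h1 : (p : ℝ)⁻¹ • (x + Pi.single i 1) = (p : ℝ)⁻¹ • x + Pi.single i (1 / (p : ℝ)) := by
      rw [smul_add, ← Pi.single_smul, smul_eq_mul, mul_one, one_div]
    change (p : ℝ) • u t ((p : ℝ)⁻¹ • (x + Pi.single i 1)) = (p : ℝ) • u t ((p : ℝ)⁻¹ • x)
    rw [h1, hper t ht]
  have hsp : ∀ t ∈ Ico 0 T, ∀ i, SP (fun x => u t x i) := fun t ht i =>
    down_sp hu.smooth hu.per ht i
  have hpd : ∀ t ∈ Ico 0 T, ∀ i j, pd j (fun y => ((p : ℝ) • u t ((p : ℝ)⁻¹ • y)) i) =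
      fun x => pd j (fun y => u t y i) ((p : ℝ)⁻¹ • x) := by
    intro t ht i j
    have h1 := down_pd (p : ℝ)⁻¹ (p : ℝ) (hsp t ht i).diff j
    rw [mul_inv_cancel₀ hp0] at h1
    simp only [one_mul] at h1
    exact h1
  have hpd2 : ∀ t ∈ Ico 0 T, ∀ i j x, pd j (pd j (fun y => ((p : ℝ) • u t ((p : ℝ)⁻¹ • y)) i)) x =
      (p : ℝ)⁻¹ * pd j (pd j (fun y => u t y i)) ((p : ℝ)⁻¹ • x) := by
    intro t ht i j x
    rw [hpd t ht i j]
    have h1 := down_pd (p : ℝ)⁻¹ 1 ((hsp t ht i).pd j).diff j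
    simp only [one_mul] at h1
    rw [h1]
  refine ⟨hsm, hpe, ?_, ?_, ?_⟩
  · intro t ht x
    simp only [hpd t ht]
    exact hu.divfree t ht _
  · intro t ht ε hε
    exact s_memdown hI phi p hφ hp (u t) (hsp t ht) (hper t ht) (scl2_inSpan (hu.mem t ht)) ε hε
  · intro t ht m
    have ht' : t ∈ Ico 0 T := ⟨ht.1.le, ht.2⟩
    have hR := fun i => down_R hsm hpe (ν * p ^ 2) ht i
    have hR2 : ∀ i x, uniR (ν * p ^ 2) (fun t x => (p : ℝ) • u t ((p : ℝ)⁻¹ • x)) t i
        ((p : ℝ) • x) = p * uniR ν u t i x := by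
      intro i x
      have hx : (p : ℝ)⁻¹ • (p : ℝ) • x = x := by
        rw [smul_smul, inv_mul_cancel₀ hp0, one_smul]
      have h1 : dt (fun s x => ((p : ℝ) • u s ((p : ℝ)⁻¹ • x)) i) t ((p : ℝ) • x) =
          p * dt (fun s x => u s x i) t x := by
        unfold dt
        simp only [hx, Pi.smul_apply, smul_eq_mul]
        exact deriv_const_mul_field _
      have h2 : ∑ j, pd j (pd j (fun y => ((p : ℝ) • u t ((p : ℝ)⁻¹ • y)) i)) ((p : ℝ) • x) =
          (p : ℝ)⁻¹ * ∑ j, pd j (pd j (fun y => u t y i)) x := by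
        rw [Finset.mul_sum]
        exact Finset.sum_congr rfl fun j _ => by rw [hpd2 t ht', hx]
      have h3 : ∑ j, ((p : ℝ) • u t ((p : ℝ)⁻¹ • (p : ℝ) • x)) j *
          pd j (fun y => ((p : ℝ) • u t ((p : ℝ)⁻¹ • y)) i) ((p : ℝ) • x) =
          p * ∑ j, u t x j * pd j (fun y => u t y i) x := by
        rw [Finset.mul_sum]
        refine Finset.sum_congr rfl fun j _ => ?_
        have e1 : pd j (fun y => ((p : ℝ) • u t ((p : ℝ)⁻¹ • y)) i) ((p : ℝ) • x) =
            pd j (fun y => u t y i) x := by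
          rw [hpd t ht']
          simp only [hx]
        rw [e1, hx, Pi.smul_apply, smul_eq_mul, mul_assoc]
      change dt (fun s x => ((p : ℝ) • u s ((p : ℝ)⁻¹ • x)) i) t ((p : ℝ) • x) +
        ∑ j, ((p : ℝ) • u t ((p : ℝ)⁻¹ • (p : ℝ) • x)) j *
          pd j (fun y => ((p : ℝ) • u t ((p : ℝ)⁻¹ • y)) i) ((p : ℝ) • x) -
        ν * p ^ 2 * ∑ j, pd j (pd j (fun y => ((p : ℝ) • u t ((p : ℝ)⁻¹ • y)) i))
          ((p : ℝ) • x) = p * uniR ν u t i x
      rw [h1, h2, h3]
      unfold uniR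
      field_simp
    have h3 : ∀ i, ∫ x in cube, uniR (ν * p ^ 2) (fun t x => (p : ℝ) • u t ((p : ℝ)⁻¹ • x)) t i x *
        phi m x i = p * ∫ x in cube, uniR ν u t i x * phi m ((p : ℝ) • x) i := by
      intro i
      rw [← hI.1 _ ((hR i).mul (hφ m i)) p hp, ← integral_const_mul]
      refine integral_congr_ae (Eventually.of_forall fun x => ?_)
      simp only [hR2]
      ring
    change ∑ i, ∫ x in cube, uniR (ν * p ^ 2) (fun t x => (p : ℝ) • u t ((p : ℝ)⁻¹ • x)) t i x *
        phi m x i = 0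
    rw [Finset.sum_congr rfl fun i _ => h3 i, ← Finset.mul_sum]
    have h4 := hu.eq t ht (fun x => phi m ((p : ℝ) • x)) ⟨m, fun x => rfl⟩
    have h5 : ∑ i, ∫ x in cube, uniR ν u t i x * phi m ((p : ℝ) • x) i = 0 := h4
    rw [h5, mul_zero]

end Pool.Agent.H226.GB

end
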