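import Pool.Agent.H226.GM.S
import Pool.Agent.H226.GM.Red
import Pool.Agent.H226.GM.Uniq
import Pool.Agent.H226.GM.Shift

/-! ## Dt -/

section

/-!
The time derivative of a solution in the small space is orthogonal to all smooth periodic fields
which are orthogonal to the small space.
-/

set_option autoImplicit false

open MeasureTheory Set Filter Topology
open scoped ContDiff
open H459R3.NS

namespace Pool.Agent.H226.GB

theorem dt_Sc_sp (hb : Basis phi cc pp gg) (p : ℕ) :
    ∀ v ∈ Sc p, ∀ i, SP (fun x => v x i) := by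
  rintro v ⟨m, hv⟩ i
  have h := shift_sp_phi hb.sp p m i
  have e : (fun x => v x i) = fun x => phi m ((p : ℝ) • x) i := by
    funext x
    rw [hv x]
  rw [e]
  exact h

/-- fields which are orthogonal to the rescaled fields are orthogonal to their closed span -/
theorem dt_orth (hb : Basis phi cc pp gg) {p : ℕ} {w v : V → V} (hw : ∀ i, SP (fun x => w x i))
    (hv : ∀ i, SP (fun x => v x i))
    (h0 : ∀ m, ∑ i, ∫ x in cube, w x i * phi m ((p : ℝ) • x) i = 0) (hs : InSpan (Sc p) v) :
    ip w v = 0 := by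
  have h1 : ∀ z ∈ Sc p, ∑ i, ∫ x in cube, (fun (i : Fin 3) (x : V) => w x i) i x * z x i = 0 := by
    rintro z ⟨m, hz⟩
    simp_rw [hz]
    exact h0 m
  exact uniP_dens (dt_Sc_sp hb p) (G := fun (i : Fin 3) (x : V) => w x i) hw hv h1 hs

theorem s_dt (hI : S_int) (hb : Basis phi cc pp gg) : S_dt := by
  intro p ν T u w hp hu hw h0 t ht
  have h1 : ∀ s ∈ Ioo 0 T, ip (u s) w = 0 := by
    intro s hs
    have hs' : s ∈ Ico 0 T := ⟨hs.1.le, hs.2⟩
    rw [red_ip_comm]
    exact dt_orth hb hw (fun i => uniP_sp hu hs' i) h0 (hu.mem s hs')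
  have h2 := red_ip_der hu.smooth (z := w) hw ht
  have h3 : HasDerivAt (fun t => ip (u t) w) 0 t := by
    refine (hasDerivAt_const t (0 : ℝ)).congr_of_eventuallyEq ?_
    filter_upwards [Ioo_mem_nhds ht.1 ht.2] with s hs
    exact h1 s hs
  exact h2.unique h3

end Pool.Agent.H226.GB

end

/-! ## Lap -/

section

/-!
The viscous term against orthogonal fields.
-/

set_option autoImplicit false

open MeasureTheory Set Filter Topology
open scoped ContDiff
open H459R3.NS

namespace Pool.Agent.H226.GB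

theorem lap_symm {f g : V → ℝ} (hf : SP f) (hg : SP g) :
    ∫ x in cube, lap f x * g x = ∫ x in cube, lap g x * f x := by
  rw [int_lap_mul hf hg, int_lap_mul hg hf]
  refine congrArg _ (Finset.sum_congr rfl fun j _ => ?_)
  refine integral_congr_ae (Eventually.of_forall fun x => ?_)
  exact mul_comm _ _

/-- symmetry of the Laplacian -/
theorem lap_lp {u w : V → V} (hu : ∀ i, SP (fun x => u x i)) (hw : ∀ i, SP (fun x => w x i)) :
    ∑ i, ∫ x in cube, lp u x i * w x i = ∑ i, ∫ x in cube, lp w x i * u x i :=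
  Finset.sum_congr rfl fun i _ => lap_symm (hu i) (hw i)

/-- the Laplacian of a rescaled function -/
theorem lap_scale {f : V → ℝ} (hf : SP f) (p : ℕ) (x : V) :
    lap (fun y => f ((p : ℝ) • y)) x = (p : ℝ) ^ 2 * lap f ((p : ℝ) • x) := by
  unfold lap
  rw [Finset.mul_sum]
  refine Finset.sum_congr rfl fun j _ => ?_
  have e1 : pd j (fun y => f ((p : ℝ) • y)) = fun y => (p : ℝ) * pd j f ((p : ℝ) • y) :=
    funext fun y => up_pd hf p j y
  rw [e1, up_pdc (up_sp (hf.pd j) p), up_pd (hf.pd j)]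
  ring

/-- elements of the span -/
theorem lap_span {Φ : Set (V → V)} (hΦ : ∀ w ∈ Φ, ∀ i, SP (fun x => w x i)) {G : Fin 3 → V → ℝ}
    (hG : ∀ i, SP (G i)) (h0 : ∀ w ∈ Φ, ∑ i, ∫ x in cube, G i x * w x i = 0) {w : V → V}
    (hw : w ∈ Submodule.span ℝ Φ) : ∑ i, ∫ x in cube, G i x * w x i = 0 := by
  induction hw using Submodule.span_induction with
  | mem w h => exact h0 w h
  | zero =>
    refine Finset.sum_eq_zero fun i _ => ?_
    simp
  | add v w hv' hw' hv hw =>
    have e : ∀ i, ∫ x in cube, G i x * (v + w) x i =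
        (∫ x in cube, G i x * v x i) + ∫ x in cube, G i x * w x i := by
      intro i
      rw [← integral_add ((hG i).mul (shift_sp_span hΦ hv' i)).int
        ((hG i).mul (shift_sp_span hΦ hw' i)).int]
      refine integral_congr_ae (Eventually.of_forall fun x => ?_)
      show G i x * (v x i + w x i) = _
      rw [mul_add]
    rw [Finset.sum_congr rfl fun i _ => e i, Finset.sum_add_distrib, hv, hw, add_zero]
  | smul c w _ hw =>
    have e : ∀ i, ∫ x in cube, G i x * (c • w) x i = c * ∫ x in cube, G i x * w x i := by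
      intro i
      rw [← integral_const_mul]
      refine integral_congr_ae (Eventually.of_forall fun x => ?_)
      show G i x * (c * w x i) = c * (G i x * w x i)
      ring
    rw [Finset.sum_congr rfl fun i _ => e i, ← Finset.mul_sum, hw, mul_zero]

/-- a field which is orthogonal to the elements of `Φ` is orthogonal to their closed span -/
theorem lap_dens {Φ : Set (V → V)} (hΦ : ∀ w ∈ Φ, ∀ i, SP (fun x => w x i)) {G : Fin 3 → V → ℝ}
    (hG : ∀ i, SP (G i)) (h0 : ∀ w ∈ Φ, ∑ i, ∫ x in cube, G i x * w x i = 0) {u : V → V}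
    (hu : ∀ i, SP (fun x => u x i)) (h : InSpan Φ u) : ∑ i, ∫ x in cube, G i x * u x i = 0 := by
  have h1 : ∀ n : ℕ, ∃ w ∈ Submodule.span ℝ Φ,
      ∑ i, ∫ x in cube, (u x i - w x i) ^ 2 < 1 / ((n : ℝ) + 1) := fun n => h _ (by positivity)
  choose w hw h2 using h1
  refine uni_dens (φ := w) (fun m i => shift_sp_span hΦ (hw m) i) hG hu
    (fun m => lap_span hΦ hG h0 (hw m)) ?_
  intro ε hε
  obtain ⟨n, hn⟩ := exists_nat_one_div_lt hε
  refine ⟨n + 1, fun m => if m = n then 1 else 0, lt_trans ?_ hn⟩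
  refine lt_of_le_of_lt (le_of_eq ?_) (h2 n)
  refine Finset.sum_congr rfl fun i _ => ?_
  refine integral_congr_ae (Eventually.of_forall fun x => ?_)
  show (u x i - ∑ m ∈ Finset.range (n + 1), (if m = n then 1 else 0) * w m x i) ^ 2 =
    (u x i - w n x i) ^ 2
  simp

theorem s_lap (hb : Basis phi cc pp gg) : S_lap := by
  intro p u w _ hu hsp hw h0
  have hΦ : ∀ v ∈ Sc p, ∀ i, SP (fun x => v x i) := by
    rintro v ⟨m, hm⟩ i
    have e : (fun x => v x i) = fun x => phi m ((p : ℝ) • x) i := by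
      funext x
      rw [hm]
    rw [e]
    exact up_sp (hb.sp m i) p
  rw [lap_lp hu hw]
  refine lap_dens hΦ (G := fun i x => lp w x i) (fun i => (hw i).lap) ?_ hu hsp
  rintro v ⟨m, hm⟩
  have hv : v = fun x => phi m ((p : ℝ) • x) := funext hm
  have e1 : ∀ i, ∫ x in cube, lp v x i * w x i =
      (p : ℝ) ^ 2 * ∫ x in cube, w x i * lp (phi m) ((p : ℝ) • x) i := by
    intro i
    rw [← integral_const_mul]
    refine integral_congr_ae (Eventually.of_forall fun x => ?_)
    have e2 : lp v x i = (p : ℝ) ^ 2 * lp (phi m) ((p : ℝ) • x) i := by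
      rw [hv]
      exact lap_scale (hb.sp m i) p x
    show lp v x i * w x i = (p : ℝ) ^ 2 * (w x i * lp (phi m) ((p : ℝ) • x) i)
    rw [e2]
    ring
  rw [← lap_lp (hΦ v ⟨m, hm⟩) hw, Finset.sum_congr rfl fun i _ => e1 i, ← Finset.mul_sum, h0,
    mul_zero]

end Pool.Agent.H226.GB

end

/-! ## Conv -/

section

/-!
The convective term against fields which are orthogonal to the interactions.
-/

set_option autoImplicit false
set_option linter.all false

open MeasureTheory Set Filter Topology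
open scoped ContDiff
open H459R3.NS

namespace Pool.Agent.H226.GB

/-- integration by parts in the convective term -/
theorem con_bil {a b z : V → V} (ha : RedSF a) (hb : RedSF b) (hz : RedSF z)
    (hdiv : ∀ x, ∑ i, pd i (fun y => a y i) x = 0) :
    ∑ i, ∫ x in cube, cv a b x i * z x i = -tri a b z := by
  unfold cv
  have h1 : ∀ i : Fin 3, ∫ x in cube, (∑ j, a x j * pd j (fun y => b y i) x) * z x i
      = ∑ j, ∫ x in cube, pd j (fun y => b y i) x * (a x j * z x i) := by
    intro i
    rw [← integral_finsetSum _ fun j _ => (((hb i).pd j).mul ((ha j).mul (hz i))).int]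
    congr 1
    funext x
    rw [Finset.sum_mul]
    exact Finset.sum_congr rfl fun j _ => by ring
  have h2 : ∀ i j : Fin 3, ∫ x in cube, pd j (fun y => b y i) x * (a x j * z x i)
      = -(∫ x in cube, b x i * (a x j * pd j (fun y => z y i) x))
        - ∫ x in cube, b x i * z x i * pd j (fun y => a y j) x := by
    intro i j
    rw [ibp (hb i) ((ha j).mul (hz i)) j]
    have e : ∀ x, b x i * pd j (fun y => a y j * z y i) x
        = b x i * (a x j * pd j (fun y => z y i) x) + b x i * z x i * pd j (fun y => a y j) x := by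
      intro x
      rw [pd_mul (ha j) (hz i)]
      ring
    simp_rw [e]
    rw [integral_add ((hb i).mul ((ha j).mul ((hz i).pd j))).int
      (((hb i).mul (hz i)).mul ((ha j).pd j)).int]
    ring
  simp_rw [h1, h2, Finset.sum_sub_distrib, Finset.sum_neg_distrib]
  have h3 : ∀ i : Fin 3, ∑ j, ∫ x in cube, b x i * z x i * pd j (fun y => a y j) x = 0 := by
    intro i
    rw [← integral_finsetSum _ fun j _ => (((hb i).mul (hz i)).mul ((ha j).pd j)).int]
    simp_rw [← Finset.mul_sum, hdiv]
    simp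
  simp_rw [h3]
  rw [Finset.sum_const_zero, sub_zero]
  congr 1
  unfold tri
  rw [Finset.sum_comm]
  refine Finset.sum_congr rfl fun i _ => Finset.sum_congr rfl fun j _ => ?_
  congr 1
  funext x
  ring

/-- the rescaled fields -/
noncomputable def con_ps (p m : ℕ) : V → V := fun x => phi m ((p : ℝ) • x)

theorem con_sf (hb : Basis phi cc pp gg) (p m : ℕ) : RedSF (con_ps p m) := fun i =>
  up_sp (hb.sp m i) p

theorem con_div (hb : Basis phi cc pp gg) (p m : ℕ) (x : V) :
    ∑ i, pd i (fun y => con_ps p m y i) x = 0 := by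
  have h1 : ∀ i : Fin 3, pd i (fun y => con_ps p m y i) x =
      (p : ℝ) * pd i (fun y => phi m y i) ((p : ℝ) • x) := fun i =>
    up_pd (f := fun y => phi m y i) (hb.sp m i) (p : ℝ) i x
  simp_rw [h1]
  rw [← Finset.mul_sum, hb.div, mul_zero]

theorem con_cv (hb : Basis phi cc pp gg) (p i j : ℕ) (x : V) (l : Fin 3) :
    cv (con_ps p i) (con_ps p j) x l = (p : ℝ) * cv (phi i) (phi j) ((p : ℝ) • x) l := by
  unfold cv
  rw [Finset.mul_sum]
  refine Finset.sum_congr rfl fun k _ => ?_
  have h1 : pd k (fun y => con_ps p j y l) x =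
      (p : ℝ) * pd k (fun y => phi j y l) ((p : ℝ) • x) :=
    up_pd (f := fun y => phi j y l) (hb.sp j l) (p : ℝ) k x
  rw [h1]
  show phi i ((p : ℝ) • x) k * _ = _
  ring

/-- the symmetrised form vanishes on the rescaled fields, one order -/
theorem con_pair0 (hb : Basis phi cc pp gg) {p : ℕ} {w : V → V} (hw : RedSF w) {i j : ℕ}
    (h : ∑ l, ∫ x in cube, w x l * qq i j ((p : ℝ) • x) l = 0) :
    tri (con_ps p i) (con_ps p j) w + tri (con_ps p j) (con_ps p i) w = 0 := by
  have h1 := con_bil (con_sf hb p i) (con_sf hb p j) hw (con_div hb p i)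
  have h2 := con_bil (con_sf hb p j) (con_sf hb p i) hw (con_div hb p j)
  have hs : ∀ (a b : ℕ) (l : Fin 3), SP (fun x => cv (con_ps p a) (con_ps p b) x l * w x l) :=
    fun a b l => (SP.sum fun k _ => ((con_sf hb p a) k).mul (((con_sf hb p b) l).pd k)).mul (hw l)
  have h3 : (∑ l, ∫ x in cube, cv (con_ps p i) (con_ps p j) x l * w x l) +
      ∑ l, ∫ x in cube, cv (con_ps p j) (con_ps p i) x l * w x l = 0 := by
    rw [← Finset.sum_add_distrib]
    have h4 : ∀ l : Fin 3, (∫ x in cube, cv (con_ps p i) (con_ps p j) x l * w x l) +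
        (∫ x in cube, cv (con_ps p j) (con_ps p i) x l * w x l) =
        (p : ℝ) * ∫ x in cube, w x l * qq i j ((p : ℝ) • x) l := by
      intro l
      rw [← integral_add (hs i j l).int (hs j i l).int, ← integral_const_mul]
      congr 1
      funext x
      rw [con_cv hb, con_cv hb]
      unfold qq
      ring
    rw [Finset.sum_congr rfl fun l _ => h4 l, ← Finset.mul_sum, h, mul_zero]
  linarith

theorem con_pair (hb : Basis phi cc pp gg) {p : ℕ} {w : V → V} (hw : RedSF w)
    (h : ∀ i j, i ≤ j → ∑ l, ∫ x in cube, w x l * qq i j ((p : ℝ) • x) l = 0) (i j : ℕ) :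
    tri (con_ps p i) (con_ps p j) w = -tri (con_ps p j) (con_ps p i) w := by
  rcases le_total i j with hij | hij
  · have := con_pair0 hb hw (h i j hij)
    linarith
  · have := con_pair0 hb hw (h j i hij)
    linarith

/-- the elements of the span are finite combinations -/
theorem con_span {p : ℕ} {v : V → V} (hv : v ∈ Submodule.span ℝ (Sc p)) :
    ∃ (a : ℕ → ℝ) (L : ℕ), v = red_comb (con_ps p) a L := by
  have h1 : Sc p = Set.range (con_ps p) := by
    ext w
    constructor
    · rintro ⟨m, hm⟩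
      exact ⟨m, funext fun x => (hm x).symm⟩
    · rintro ⟨m, rfl⟩
      exact ⟨m, fun x => rfl⟩
  rw [h1, Finsupp.mem_span_range_iff_exists_finsupp] at hv
  obtain ⟨c, hc⟩ := hv
  refine ⟨c, c.support.sup id + 1, ?_⟩
  have hsub : c.support ⊆ Finset.range (c.support.sup id + 1) := by
    intro m hm
    rw [Finset.mem_range, Nat.lt_succ_iff]
    exact Finset.le_sup (f := id) hm
  rw [← hc, Finsupp.sum_of_support_subset c hsub (fun i a => a • con_ps p i)
    (fun i _ => zero_smul ℝ _)]
  funext x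
  funext i
  unfold red_comb
  rw [Finset.sum_apply, Finset.sum_apply]
  rfl

/-- the convective term of a finite combination -/
theorem con_fin (hb : Basis phi cc pp gg) {p : ℕ} {w : V → V} (hw : RedSF w)
    (h : ∀ i j, i ≤ j → ∑ l, ∫ x in cube, w x l * qq i j ((p : ℝ) • x) l = 0) (a : ℕ → ℝ) (L : ℕ) :
    tri (red_comb (con_ps p) a L) (red_comb (con_ps p) a L) w = 0 := by
  have hs := con_sf hb p
  have h1 : tri (red_comb (con_ps p) a L) (red_comb (con_ps p) a L) w =
      ∑ m ∈ Finset.range L, ∑ n ∈ Finset.range L, a m * a n * tri (con_ps p m) (con_ps p n) w := by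
    rw [red_tri_comb_left hs a L (red_comb_sf hs a L) hw]
    refine Finset.sum_congr rfl fun m _ => ?_
    rw [red_tri_comb_mid hs a L (hs m) hw, Finset.mul_sum]
    exact Finset.sum_congr rfl fun n _ => by ring
  have h2 : ∑ m ∈ Finset.range L, ∑ n ∈ Finset.range L,
      a m * a n * tri (con_ps p m) (con_ps p n) w =
      -∑ m ∈ Finset.range L, ∑ n ∈ Finset.range L,
      a m * a n * tri (con_ps p m) (con_ps p n) w := by
    conv_lhs => rw [Finset.sum_comm]
    rw [← Finset.sum_neg_distrib]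
    refine Finset.sum_congr rfl fun m _ => ?_
    rw [← Finset.sum_neg_distrib]
    refine Finset.sum_congr rfl fun n _ => ?_
    rw [con_pair hb hw h n m]
    ring
  rw [h1]
  linarith

theorem s_con (hb : Basis phi cc pp gg) : S_con := by
  intro p u w hp hu hdiv hin hw h
  have hU : RedSF u := hu
  have hW : RedSF w := hw
  rw [con_bil hU hU hW hdiv, neg_eq_zero]
  obtain ⟨B, hB0, hB⟩ := red_bound hW
  set X := tri u u w with hX
  set U := ip u u with hUdef
  have hU0 : 0 ≤ U := red_ip_self_nonneg u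
  -- the approximation
  have key : ∀ ε : ℝ, 0 < ε → ε ≤ 1 → X ^ 2 ≤ (54 * B ^ 2 * U + 27 * B ^ 2) * ε := by
    intro ε hε hε1
    obtain ⟨v, hv, hlt⟩ := hin ε hε
    obtain ⟨a, L, rfl⟩ := con_span hv
    set v := red_comb (con_ps p) a L with hvdef
    have hV : RedSF v := red_comb_sf (con_sf hb p) a L
    have hD : RedSF (fun x => u x - v x) := red_sub_sf hU hV
    set d : V → V := fun x => u x - v x with hd
    have hdd : ip d d < ε := by
      have e : ip d d = ∑ i, ∫ x in cube, (u x i - v x i) ^ 2 := by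
        unfold ip
        refine Finset.sum_congr rfl fun i _ => ?_
        congr 1
        funext x
        show (u x i - v x i) * (u x i - v x i) = _
        ring
      rw [e]
      exact hlt
    have hdd0 : 0 ≤ ip d d := red_ip_self_nonneg d
    have h0 : tri v v w = 0 := con_fin hb hW h a L
    have e1 : tri d u w = tri u u w - tri v u w := red_tri_sub_left hU hV hU hW
    have e2 : tri v d w = tri v u w - tri v v w := red_tri_sub_mid hV hU hV hW
    have e3 : tri d d w = tri u d w - tri v d w := red_tri_sub_left hU hV hD hW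
    have e4 : X = tri d u w + tri u d w - tri d d w := by
      rw [hX]
      linarith
    have b1 := red_tri_bound hD hU hW hB
    have b2 := red_tri_bound hU hD hW hB
    have b3 := red_tri_bound hD hD hW hB
    rw [← hUdef] at b1 b2
    have c1 : tri d u w ^ 2 ≤ 9 * B ^ 2 * U * ε := by
      refine b1.trans ?_
      have : ip d d * (9 * B ^ 2 * U) ≤ ε * (9 * B ^ 2 * U) :=
        mul_le_mul_of_nonneg_right hdd.le (by positivity)
      linarith
    have c2 : tri u d w ^ 2 ≤ 9 * B ^ 2 * U * ε := by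
      refine b2.trans ?_
      have : ip d d * (9 * B ^ 2 * U) ≤ ε * (9 * B ^ 2 * U) :=
        mul_le_mul_of_nonneg_right hdd.le (by positivity)
      linarith
    have c3 : tri d d w ^ 2 ≤ 9 * B ^ 2 * ε := by
      refine b3.trans ?_
      have h5 : ip d d * ip d d ≤ ε * 1 := mul_le_mul hdd.le (hdd.le.trans hε1) hdd0 hε.le
      have : 9 * B ^ 2 * (ip d d * ip d d) ≤ 9 * B ^ 2 * (ε * 1) :=
        mul_le_mul_of_nonneg_left h5 (by positivity)
      linarith
    rw [e4]
    have e5 : (tri d u w + tri u d w - tri d d w) ^ 2 ≤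
        3 * (tri d u w ^ 2 + tri u d w ^ 2 + tri d d w ^ 2) := by
      nlinarith [sq_nonneg (tri d u w - tri u d w), sq_nonneg (tri d u w + tri d d w),
        sq_nonneg (tri u d w + tri d d w)]
    linarith
  set K := 54 * B ^ 2 * U + 27 * B ^ 2 with hK
  have hK0 : 0 ≤ K := by positivity
  by_contra hne
  have hX2 : 0 < X ^ 2 := by positivity
  have h1 := key (min 1 (X ^ 2 / (2 * (K + 1)))) (lt_min one_pos (by positivity)) (min_le_left _ _)
  have h2 : K * min 1 (X ^ 2 / (2 * (K + 1))) ≤ K * (X ^ 2 / (2 * (K + 1))) :=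
    mul_le_mul_of_nonneg_left (min_le_right _ _) hK0
  have h3 : K * (X ^ 2 / (2 * (K + 1))) < X ^ 2 := by
    rw [← mul_div_assoc, div_lt_iff₀ (by positivity)]
    nlinarith
  linarith

end Pool.Agent.H226.GB

end

/-! ## AdmS -/

section

/-!
Solutions in the small space are solutions in all admissible spaces.
-/

set_option autoImplicit false

open MeasureTheory Set Filter Topology
open scoped ContDiff ENNReal
open H459R3.NS

namespace Pool.Agent.H226.GB

/-- the product of two functions is integrated -/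
theorem adm_int {f g : V → ℝ} (hf : SP f) (hg : SP g) : IntegrableOn (fun x => f x * g x) cube :=
  (hf.mul hg).int

/-- the rescaled fields are smooth and periodic -/
theorem adm_sc (hb : Basis phi cc pp gg) (p : ℕ) : ∀ w ∈ Sc p, ∀ i, SP (fun x => w x i) := by
  rintro w ⟨m, hm⟩ i
  have h1 := up_sp (hb.sp m i) p
  have h2 : (fun x => w x i) = fun x => phi m ((p : ℝ) • x) i := by
    funext x
    rw [hm x]
  rw [h2]
  exact h1

/-- a smooth field orthogonal to the rescaled constraint and to the rescaled fields is orthogonal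
to the rescaled field from which the constraint was made -/
theorem adm_res (hb : Basis phi cc pp gg) (p n : ℕ) {f w : V → V} (hf : ∀ i, SP (fun x => f x i))
    (hw : ∀ i, SP (fun x => w x i))
    (hphi : ∀ m, ∑ i, ∫ x in cube, w x i * phi m ((p : ℝ) • x) i = 0)
    (hc : ∑ l, ∫ x in cube, w x l * res n f ((p : ℝ) • x) l = 0) :
    ∑ l, ∫ x in cube, w x l * f ((p : ℝ) • x) l = 0 := by
  have hS : ∀ l, SP (fun x => ∑ m ∈ Finset.range (n + 2), ip f (phi m) * phi m ((p : ℝ) • x) l) :=
    fun l => SP.sum fun m _ => uni_smul _ (up_sp (hb.sp m l) p)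
  have hR : ∀ l, SP (fun x => res n f ((p : ℝ) • x) l) := fun l =>
    uni_sub (up_sp (hf l) p) (hS l)
  have e1 : ∀ l, ∫ x in cube, w x l * f ((p : ℝ) • x) l =
      (∫ x in cube, w x l * res n f ((p : ℝ) • x) l) +
        ∑ m ∈ Finset.range (n + 2), ip f (phi m) * ∫ x in cube, w x l * phi m ((p : ℝ) • x) l := by
    intro l
    have e2 : ∀ x, w x l * f ((p : ℝ) • x) l = w x l * res n f ((p : ℝ) • x) l +
        ∑ m ∈ Finset.range (n + 2), ip f (phi m) * (w x l * phi m ((p : ℝ) • x) l) := by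
      intro x
      unfold res
      rw [mul_sub, Finset.mul_sum]
      have e3 : ∀ m ∈ Finset.range (n + 2), w x l * (ip f (phi m) * phi m ((p : ℝ) • x) l) =
          ip f (phi m) * (w x l * phi m ((p : ℝ) • x) l) := fun m _ => by ring
      rw [Finset.sum_congr rfl e3]
      ring
    simp_rw [e2]
    rw [integral_add (adm_int (hw l) (hR l))
      (SP.sum fun m _ => uni_smul _ ((hw l).mul (up_sp (hb.sp m l) p))).int,
      integral_finsetSum _ fun m _ => (uni_smul _ ((hw l).mul (up_sp (hb.sp m l) p))).int]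
    congr 1
    exact Finset.sum_congr rfl fun m _ => integral_const_mul _ _
  rw [Finset.sum_congr rfl fun l _ => e1 l, Finset.sum_add_distrib, hc, zero_add,
    Finset.sum_comm]
  refine Finset.sum_eq_zero fun m _ => ?_
  rw [← Finset.mul_sum, hphi m, mul_zero]

theorem adm_sp_cv {u v : V → V} (hu : ∀ i, SP (fun x => u x i)) (hv : ∀ i, SP (fun x => v x i))
    (i : Fin 3) : SP (fun x => cv u v x i) :=
  SP.sum fun j _ => (hu j).mul ((hv i).pd j)

theorem adm_sp_lp {u : V → V} (hu : ∀ i, SP (fun x => u x i)) (i : Fin 3) :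
    SP (fun x => lp u x i) :=
  SP.sum fun j _ => ((hu i).pd j).pd j

theorem adm_sp_qq (hb : Basis phi cc pp gg) (i j : ℕ) (l : Fin 3) : SP (fun x => qq i j x l) :=
  SP.add (adm_sp_cv (hb.sp i) (hb.sp j) l) (adm_sp_cv (hb.sp j) (hb.sp i) l)

/-- the element of the closed span is orthogonal to the rescaled constraints -/
theorem adm_G (h5 : S_ort) (hI : S_int) (hb : Basis phi cc pp gg) {p : ℕ} (hp : 1 ≤ p)
    {G : V → V} (hG : ∀ i, SP (fun x => G x i)) (hsp : InSpan (Sc p) G) (n i : ℕ) :
    ∑ l, ∫ x in cube, G x l * cst n i ((p : ℝ) • x) l = 0 := by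
  have hC : ∀ l, SP (fun x => cst n i ((p : ℝ) • x) l) := fun l => up_sp (h5.1 n i l) p
  have h0 : ∀ w ∈ Sc p, ∑ l, ∫ x in cube, cst n i ((p : ℝ) • x) l * w x l = 0 := by
    rintro w ⟨m, hm⟩
    have e1 : ∀ l, ∫ x in cube, cst n i ((p : ℝ) • x) l * w x l =
        ∫ x in cube, cst n i x l * phi m x l := by
      intro l
      have e2 : ∀ x, cst n i ((p : ℝ) • x) l * w x l =
          (fun y => cst n i y l * phi m y l) ((p : ℝ) • x) := by
        intro x
        rw [hm x]
      simp_rw [e2]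
      exact hI.1 _ ((h5.1 n i l).mul (hb.sp m l)) p hp
    rw [Finset.sum_congr rfl fun l _ => e1 l]
    exact h5.2 n i m
  have h1 := uniP_dens (adm_sc hb p) hC hG h0 hsp
  rw [← h1]
  refine Finset.sum_congr rfl fun l _ => ?_
  refine integral_congr_ae (Eventually.of_forall fun x => ?_)
  exact mul_comm _ _

theorem s_adm (h1 : S_dt) (h2 : S_lap) (h3 : S_con) (h4 : S_prS) (h5 : S_ort) (hI : S_int)
    (hb : Basis phi cc pp gg) : S_adm := by
  intro p Φ hp hA ν T u hu
  refine ⟨hu.smooth, hu.per, hu.divfree, ?_, ?_⟩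
  · intro t ht ε hε
    obtain ⟨w, hw, hlt⟩ := hu.mem t ht ε hε
    exact ⟨w, Submodule.span_mono hA.sc hw, hlt⟩
  · intro t ht w hw
    have ht' : t ∈ Ico 0 T := ⟨ht.1.le, ht.2⟩
    have hwS := hA.sp w hw
    obtain ⟨G, hG, -, hGs, hGo, -⟩ := h4 p w hp hwS
    obtain ⟨w', hw'⟩ : ∃ w' : V → V, w' = fun x i => w x i - G x i := ⟨_, rfl⟩
    have hwx : ∀ x i, w' x i = w x i - G x i := fun x i => by rw [hw']
    have hwS' : ∀ i, SP (fun x => w' x i) := by
      intro i
      have e : (fun x => w' x i) = fun x => w x i - G x i := funext fun x => hwx x i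
      rw [e]
      exact uni_sub (hwS i) (hG i)
    have ho : ∀ m, ∑ i, ∫ x in cube, w' x i * phi m ((p : ℝ) • x) i = 0 := by
      intro m
      simp_rw [hwx]
      exact hGo m
    -- orthogonality to the constraints
    have hcst : ∀ n i, ∑ l, ∫ x in cube, w' x l * cst n i ((p : ℝ) • x) l = 0 := by
      intro n i
      have a1 := hA.orth w hw n i
      have a2 := adm_G h5 hI hb hp hG hGs n i
      have hC : ∀ l, SP (fun x => cst n i ((p : ℝ) • x) l) := fun l => up_sp (h5.1 n i l) p
      have e1 : ∀ l, ∫ x in cube, w' x l * cst n i ((p : ℝ) • x) l =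
          (∫ x in cube, w x l * cst n i ((p : ℝ) • x) l) -
            ∫ x in cube, G x l * cst n i ((p : ℝ) • x) l := by
        intro l
        simp_rw [hwx, sub_mul]
        exact integral_sub (adm_int (hwS l) (hC l)) (adm_int (hG l) (hC l))
      rw [Finset.sum_congr rfl fun l _ => e1 l, Finset.sum_sub_distrib, a1, a2, sub_zero]
    have hqq : ∀ i j, i ≤ j → ∑ l, ∫ x in cube, w' x l * qq i j ((p : ℝ) • x) l = 0 := by
      intro i j hij
      refine adm_res hb p j (adm_sp_qq hb i j) hwS' ho ?_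
      have a1 := hcst j i
      have a2 : cst j i = res j (qq i j) := by
        unfold cst
        rw [if_pos hij]
      rw [a2] at a1
      exact a1
    have hlp : ∀ m, ∑ i, ∫ x in cube, w' x i * lp (phi m) ((p : ℝ) • x) i = 0 := by
      intro m
      refine adm_res hb p m (adm_sp_lp (hb.sp m)) hwS' ho ?_
      have a1 := hcst m (m + 1)
      have a2 : cst m (m + 1) = res m (lp (phi m)) := by
        unfold cst
        rw [if_neg (by omega), if_pos rfl]
      rw [a2] at a1
      exact a1
    have hU : ∀ i, SP (fun x => u t x i) := fun i => uniP_sp hu ht' i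
    have r1 := h1 p ν T u w' hp hu hwS' ho t ht
    have r2 := h2 p (u t) w' hp hU (hu.mem t ht') hwS' hlp
    have r3 := h3 p (u t) w' hp hU (hu.divfree t ht') (hu.mem t ht') hwS' hqq
    -- the equation for the element of the closed span
    have hRS : ∀ i, SP (uniR ν u t i) := fun i => uniP_R hu ht i
    have r4 : ∑ i, ∫ x in cube, uniR ν u t i x * G x i = 0 :=
      uniP_dens (adm_sc hb p) hRS hG (fun v hv => hu.eq t ht v hv) hGs
    have hD : ∀ i, SP (fun x => deriv (fun s => u s x i) t) := fun i => uniP_dtc hu ht i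
    have hC : ∀ i, SP (fun x => cv (u t) (u t) x i) := adm_sp_cv hU hU
    have hL : ∀ i, SP (fun x => lp (u t) x i) := adm_sp_lp hU
    have e1 : ∀ i, ∫ x in cube, (deriv (fun s => u s x i) t + ∑ j, u t x j * pd j (fun y => u t y i) x
      - ν * ∑ j, pd j (pd j (fun y => u t y i)) x) * w x i =
      (∫ x in cube, deriv (fun s => u s x i) t * w' x i) +
        (∫ x in cube, cv (u t) (u t) x i * w' x i) - ν * (∫ x in cube, lp (u t) x i * w' x i) +
        ∫ x in cube, uniR ν u t i x * G x i := by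
      intro i
      have e2 : ∀ x, (deriv (fun s => u s x i) t + ∑ j, u t x j * pd j (fun y => u t y i) x
          - ν * ∑ j, pd j (pd j (fun y => u t y i)) x) * w x i =
          deriv (fun s => u s x i) t * w' x i + cv (u t) (u t) x i * w' x i -
            ν * (lp (u t) x i * w' x i) + uniR ν u t i x * G x i := by
        intro x
        have e3 : uniR ν u t i x = deriv (fun s => u s x i) t + cv (u t) (u t) x i -
          ν * lp (u t) x i := rfl
        rw [hwx, e3]
        show (deriv (fun s => u s x i) t + cv (u t) (u t) x i - ν * lp (u t) x i) * w x i = _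
        ring
      simp_rw [e2]
      rw [integral_add ((uni_sub (SP.add ((hD i).mul (hwS' i)) ((hC i).mul (hwS' i)))
          (uni_smul ν ((hL i).mul (hwS' i)))).int) (adm_int (hRS i) (hG i)),
        integral_sub (SP.add ((hD i).mul (hwS' i)) ((hC i).mul (hwS' i))).int
          (uni_smul ν ((hL i).mul (hwS' i))).int,
        integral_add (adm_int (hD i) (hwS' i)) (adm_int (hC i) (hwS' i)), integral_const_mul]
    rw [Finset.sum_congr rfl fun i _ => e1 i, Finset.sum_add_distrib, Finset.sum_sub_distrib,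
      Finset.sum_add_distrib, ← Finset.mul_sum, r1, r2, r3, r4]
    ring

end Pool.Agent.H226.GB

end

/-! ## Clo -/

section

/-!
The condition `u t ∈ closed span` is closed in time; translation in time.
-/

set_option autoImplicit false

open MeasureTheory Set Filter Topology
open scoped ContDiff ENNReal
open H459R3.NS

namespace Pool.Agent.H226.GB

theorem clo_sp {Φ : Set (V → V)} {ν T : ℝ} {u : ℝ → V → V} (hu : IsPr Φ ν T u) {t : ℝ}
    (ht : t ∈ Ico 0 T) (i : Fin 3) : SP (fun x => u t x i) where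
  smooth := by
    have h1 : ContDiff ℝ ∞ (fun x : V => ((t, x) : ℝ × V)) := contDiff_const.prodMk contDiff_id
    have h2 : ContDiff ℝ ∞ (fun x : V => u t x) := by
      rw [← contDiffOn_univ]
      exact hu.smooth.comp h1.contDiffOn (fun x _ => ⟨ht, mem_univ _⟩)
    exact contDiff_pi.1 h2 i
  per := fun j x => congrFun (hu.per t ht j x) i

theorem clo_span {Ψ : Set (V → V)} (hΨ : ∀ w ∈ Ψ, ∀ i, SP (fun x => w x i)) {w : V → V}
    (hw : w ∈ Submodule.span ℝ Ψ) (i : Fin 3) : SP (fun x => w x i) := by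
  induction hw using Submodule.span_induction with
  | mem w hw => exact hΨ w hw i
  | zero =>
    exact ⟨contDiff_const, fun _ _ => rfl⟩
  | add f g _ _ hf hg =>
    exact ⟨hf.smooth.add hg.smooth, fun j x => by
      have h1 := hf.per j x
      have h2 := hg.per j x
      show f (x + Pi.single j 1) i + g (x + Pi.single j 1) i = f x i + g x i
      rw [h1, h2]⟩
  | smul c f _ hf => exact uni_smul c hf

theorem clo_cont {Φ : Set (V → V)} {ν T : ℝ} {u : ℝ → V → V} (hu : IsPr Φ ν T u) {t : ℝ}
    (ht : t ∈ Ico 0 T) :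
    ContinuousOn (fun s => ∑ i, ∫ x in cube, (u s x i - u t x i) ^ 2) (Ico 0 T) := by
  refine continuousOn_finsetSum _ fun i _ => ?_
  refine continuousOn_int (F := fun s x => (u s x i - u t x i) ^ 2) ?_
  have h1 : ContinuousOn (fun z : ℝ × V => u z.1 z.2 i) (Ico 0 T ×ˢ univ) :=
    (continuous_apply i).comp_continuousOn hu.smooth.continuousOn
  have h2 : Continuous (fun z : ℝ × V => u t z.2 i) := (clo_sp hu ht i).cont.comp continuous_snd
  exact (h1.sub h2.continuousOn).pow 2

/-- `S_clo`, for smooth fields -/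
theorem clo_aux : ∀ (Φ Ψ : Set (V → V)), (∀ w ∈ Ψ, ∀ i, SP (fun x => w x i)) →
    ∀ (ν T : ℝ) (u : ℝ → V → V), IsPr Φ ν T u → ∀ t ∈ Ico 0 T,
    (∀ ε > 0, ∃ s ∈ Ico 0 T, |s - t| < ε ∧ InSpan Ψ (u s)) → InSpan Ψ (u t) := by
  intro Φ Ψ hΨ ν T u hu t ht h ε hε
  have hc := clo_cont hu ht t ht
  have h0 : (∑ i, ∫ x in cube, (u t x i - u t x i) ^ 2) = 0 := by
    simp
  obtain ⟨δ, hδ, hδ2⟩ := Metric.continuousWithinAt_iff.1 hc (ε / 4) (by positivity)
  obtain ⟨s, hs, hst, hin⟩ := h δ hδ
  have h1 := hδ2 hs (by rw [Real.dist_eq]; exact hst)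
  rw [Real.dist_eq, h0, sub_zero] at h1
  have h2 := lt_of_le_of_lt (le_abs_self _) h1
  obtain ⟨w, hw, h3⟩ := hin (ε / 4) (by positivity)
  refine ⟨w, hw, ?_⟩
  have hsp := fun i => clo_span hΨ hw i
  have key : ∀ i, ∫ x in cube, (u t x i - w x i) ^ 2 ≤
      2 * (∫ x in cube, (u s x i - w x i) ^ 2) + 2 * ∫ x in cube, (u s x i - u t x i) ^ 2 := by
    intro i
    have i1 : IntegrableOn (fun x => (u t x i - w x i) ^ 2) cube :=
      uni_sq (uni_sub (clo_sp hu ht i) (hsp i))
    have i2 : IntegrableOn (fun x => (u s x i - w x i) ^ 2) cube :=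
      uni_sq (uni_sub (clo_sp hu hs i) (hsp i))
    have i3 : IntegrableOn (fun x => (u s x i - u t x i) ^ 2) cube :=
      uni_sq (uni_sub (clo_sp hu hs i) (clo_sp hu ht i))
    rw [← integral_const_mul, ← integral_const_mul,
      ← integral_add (i2.const_mul 2) (i3.const_mul 2)]
    refine integral_mono i1 ((i2.const_mul 2).add (i3.const_mul 2)) fun x => ?_
    show (u t x i - w x i) ^ 2 ≤ 2 * (u s x i - w x i) ^ 2 + 2 * (u s x i - u t x i) ^ 2
    nlinarith [sq_nonneg ((u s x i - w x i) + (u s x i - u t x i))]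
  have h4 := Finset.sum_le_sum fun i (_ : i ∈ Finset.univ) => key i
  rw [Finset.sum_add_distrib, ← Finset.mul_sum, ← Finset.mul_sum] at h4
  linarith

theorem s_clo : S_clo := clo_aux

theorem s_tsh : S_tsh := by
  intro Φ ν T t₀ u hu ht₀
  have hin : ∀ t ∈ Ico 0 (T - t₀), t₀ + t ∈ Ico 0 T := fun t ht =>
    ⟨add_nonneg ht₀ ht.1, by linarith [ht.2]⟩
  refine ⟨?_, fun t ht => hu.per _ (hin t ht), fun t ht => hu.divfree _ (hin t ht),
    fun t ht => hu.mem _ (hin t ht), ?_⟩
  · have h1 : ContDiff ℝ ∞ (fun z : ℝ × V => ((t₀ + z.1, z.2) : ℝ × V)) :=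
      (contDiff_const.add contDiff_fst).prodMk contDiff_snd
    exact hu.smooth.comp h1.contDiffOn (fun z hz => ⟨hin _ hz.1, mem_univ _⟩)
  · intro t ht w hw
    have ht' : t₀ + t ∈ Ioo 0 T := ⟨by linarith [ht.1], by linarith [ht.2]⟩
    have e : ∀ (x : V) (i : Fin 3), deriv (fun s => u (t₀ + s) x i) t =
        deriv (fun s => u s x i) (t₀ + t) := fun x i =>
      deriv_comp_const_add (f := fun s => u s x i) t₀ t
    simp only [e]
    exact hu.eq _ ht' w hw

end Pool.Agent.H226.GB

end

/-! ## Ret -/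

section

/-!
Returning to the small space (helper550).
-/

open MeasureTheory Set Filter Topology
open scoped ContDiff ENNReal
open H459R3.NS

namespace Pool.Agent.H226.GB

theorem ret_mono {Φ : Set (V → V)} {ν T : ℝ} {u : ℝ → V → V} (h : IsPr Φ ν T u) {T' : ℝ}
    (hT : T' ≤ T) : IsPr Φ ν T' u where
  smooth := h.smooth.mono (prod_mono (Ico_subset_Ico le_rfl hT) (subset_univ _))
  per := fun t ht => h.per t ⟨ht.1, ht.2.trans_le hT⟩
  divfree := fun t ht => h.divfree t ⟨ht.1, ht.2.trans_le hT⟩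
  mem := fun t ht => h.mem t ⟨ht.1, ht.2.trans_le hT⟩
  eq := fun t ht => h.eq t ⟨ht.1, ht.2.trans_le hT⟩

theorem ret_sp {Φ : Set (V → V)} {ν T : ℝ} {u : ℝ → V → V} (hu : IsPr Φ ν T u) {t : ℝ}
    (ht : t ∈ Ico 0 T) (i : Fin 3) : SP (fun x => u t x i) where
  smooth := by
    have h1 : ContDiffOn ℝ ∞ (fun x : V => u t x) univ :=
      hu.smooth.comp (contDiff_const.prodMk contDiff_id).contDiffOn fun x _ => ⟨ht, mem_univ _⟩
    have h2 : ContDiff ℝ ∞ (fun x : V => u t x) := contDiffOn_univ.1 h1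
    exact (contDiff_pi.1 h2) i
  per := fun j x => congrFun (hu.per t ht j x) i

/-- a solution in the larger space stays in the small space for a short time -/
theorem ret_step (h1 : S_adm) (h3 : S_tsh) (h4 : S_locS) (h5 : S_uniP) {p : ℕ} {Φ : Set (V → V)}
    (hp : 1 ≤ p) (hA : Adm p Φ) {ν T : ℝ} {v : ℝ → V → V} (hν : 0 ≤ ν) (hv : IsPr Φ ν T v) {t₀ : ℝ}
    (ht : t₀ ∈ Ico 0 T) (h0 : InSpan (Sc p) (v t₀)) :
    ∃ τ > 0, ∀ t ∈ Ico 0 τ, t₀ + t < T ∧ InSpan (Sc p) (v (t₀ + t)) := by
  obtain ⟨τ, hτ, U, hU, hU0⟩ := h4 p (v t₀) hp (ret_sp hv ht) h0 ν hν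
  have hUΦ : IsPr Φ ν τ U := h1 p Φ hp hA ν τ U hU
  have hsh : IsPr Φ ν (T - t₀) (fun t x => v (t₀ + t) x) := h3 Φ ν T t₀ v hv ht.1
  have hpos : 0 < min τ (T - t₀) := lt_min hτ (sub_pos.2 ht.2)
  have e0 : (fun (t : ℝ) (x : V) => v (t₀ + t) x) 0 = U 0 := by
    rw [hU0]
    show (fun x => v (t₀ + 0) x) = v t₀
    rw [add_zero]
  have hag := h5 Φ hA.sp ν (min τ (T - t₀)) (fun t x => v (t₀ + t) x) U hν
    (ret_mono hsh (min_le_right _ _)) (ret_mono hUΦ (min_le_left _ _)) e0
  refine ⟨min τ (T - t₀), hpos, fun t htt => ⟨?_, ?_⟩⟩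
  · have := htt.2.trans_le (min_le_right _ _)
    linarith
  · have h6 : v (t₀ + t) = U t := hag t htt
    rw [h6]
    exact hU.mem t ⟨htt.1, htt.2.trans_le (min_le_left _ _)⟩

theorem s_ret (h1 : S_adm) (h2 : S_clo) (h3 : S_tsh) (h4 : S_locS) (h5 : S_uniP)
    (hb : Basis phi cc pp gg) : S_ret := by
  intro p Φ hp hA ν T v hν hv h0
  have key : ∀ t ∈ Ico 0 T, InSpan (Sc p) (v t) := by
    intro t₁ ht₁
    have hcl : IsClosed ({t : ℝ | InSpan (Sc p) (v t)} ∩ Icc 0 t₁) := by
      apply isClosed_of_closure_subset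
      intro t ht
      have hI : t ∈ Icc 0 t₁ :=
        (isClosed_Icc.closure_subset_iff.2 inter_subset_right) ht
      refine ⟨?_, hI⟩
      refine h2 Φ (Sc p) (fun w hw => hA.sp w (hA.sc hw)) ν T v hv t ⟨hI.1, hI.2.trans_lt ht₁.2⟩ fun ε hε => ?_
      obtain ⟨s, hs, hd⟩ := Metric.mem_closure_iff.1 ht ε hε
      refine ⟨s, ⟨hs.2.1, hs.2.2.trans_lt ht₁.2⟩, ?_, hs.1⟩
      rw [← Real.dist_eq, dist_comm]
      exact hd
    have hsub : Icc 0 t₁ ⊆ {t : ℝ | InSpan (Sc p) (v t)} := by
      refine hcl.Icc_subset_of_forall_exists_gt h0 ?_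
      rintro t ⟨hts, htI⟩ y hy
      obtain ⟨τ, hτ, hstep⟩ := ret_step h1 h3 h4 h5 hp hA hν hv
        ⟨htI.1, htI.2.trans ht₁.2⟩ hts
      have hy' : 0 < y - t := sub_pos.2 hy
      have hm : 0 < min (τ / 2) (y - t) := lt_min (half_pos hτ) hy'
      refine ⟨t + min (τ / 2) (y - t), ?_, ?_⟩
      · refine (hstep _ ⟨hm.le, ?_⟩).2
        exact (min_le_left _ _).trans_lt (half_lt_self hτ)
      · refine ⟨by linarith, ?_⟩
        have := min_le_right (τ / 2) (y - t)
        linarith
    exact hsub ⟨ht₁.1, le_rfl⟩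
  exact ⟨hv.smooth, hv.per, hv.divfree, key, fun t ht w hw => hv.eq t ht w (hA.sc hw)⟩

end Pool.Agent.H226.GB

end
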