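import Pool.Graph.R_seed8.H459R3.NS.Evo

/-! ## Base -/

section

/-!
Galerkin projections of the Navier-Stokes equations: definitions.
-/

open MeasureTheory Set Filter Topology
open scoped ContDiff
open H459R3.NS

namespace Pool.Agent.H226.GB

/-- `∫ u · v` over the period cell -/
noncomputable def ip (u v : V → V) : ℝ := ∑ i, ∫ x in cube, u x i * v x i

/-- `∫ ∇u : ∇v` over the period cell -/
noncomputable def gip (u v : V → V) : ℝ :=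
  ∑ i, ∑ j, ∫ x in cube, pd j (fun y => u y i) x * pd j (fun y => v y i) x

/-- `∫ u ⊗ v : ∇w = ∑ ∫ uᵢ vⱼ ∂ᵢ wⱼ` over the period cell -/
noncomputable def tri (u v w : V → V) : ℝ :=
  ∑ i, ∑ j, ∫ x in cube, u x i * v x j * pd i (fun y => w y j) x

/-- The field `(∂₂ Θ, 0, -∂₀ Θ)`. -/
noncomputable def gp (Θ : V → ℝ) (x : V) : V := ![pd 2 Θ x, 0, -pd 0 Θ x]

/-- the product function `F(x₀) G(x₁) H(x₂)` -/
def prd (F G H : ℝ → ℝ) (x : V) : ℝ := F (x 0) * G (x 1) * H (x 2)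

/-- `sin (2πks)` -/
noncomputable def sn (k : ℕ) (s : ℝ) : ℝ := Real.sin (2 * Real.pi * k * s)

/-- `cos (2πks)` -/
noncomputable def cs (k : ℕ) (s : ℝ) : ℝ := Real.cos (2 * Real.pi * k * s)

/-- the basic scale `2^((m+2)^3)` -/
def RR (m : ℕ) : ℕ := 2 ^ ((m + 2) ^ 3)

/-- the frequency `RR m ^ 2` -/
def NN (m : ℕ) : ℕ := RR m ^ 2

/-- `∑_{N ≤ j < 2N} sin (2πjs)` -/
noncomputable def fF (N : ℕ) (s : ℝ) : ℝ := ∑ j ∈ Finset.Ico N (2 * N), sn j s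

/-- `∑_{N ≤ j < 2N} cos (2πjs)` -/
noncomputable def fG (N : ℕ) (s : ℝ) : ℝ := ∑ j ∈ Finset.Ico N (2 * N), cs j s

/-- `∑_{16N ≤ j < 17N} sin (2πjs) / (2πj)` -/
noncomputable def fH (N : ℕ) (s : ℝ) : ℝ :=
  ∑ j ∈ Finset.Ico (16 * N) (17 * N), sn j s / (2 * Real.pi * j)

/-- the exponents of the pumps: `(R_m / R_{m-1})^5 / 2^13` -/
noncomputable def bb (m : ℕ) : ℝ := ((RR m : ℝ) / RR (m - 1)) ^ 5 / 2 ^ 13

/-- the amplitude of the pump mode in the `m`-th field -/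
noncomputable def ee' (m : ℕ) : ℝ := if m = 0 then 0 else Real.exp (-bb (m - 1))

/-- main part of the stream function -/
noncomputable def psi (m : ℕ) : V → ℝ := prd (fF (NN m)) (fG (NN m)) (fH (NN m))

/-- pump mode of the `m`-th field, of frequencies comparable to `NN (m-1)` -/
noncomputable def chi (m : ℕ) : V → ℝ :=
  prd (sn (4 * NN (m - 1) - 3)) (cs (4 * NN (m - 1) - 2)) (sn (2 * (17 * NN (m - 1) - 1)))

/-- stream function, not normalised -/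
noncomputable def th0 (m : ℕ) (x : V) : ℝ := psi m x + ee' m * chi m x

/-- its norm -/
noncomputable def nm (m : ℕ) : ℝ := Real.sqrt (ip (gp (th0 m)) (gp (th0 m)))

/-- the basis fields `φ_m` -/
noncomputable def phi (m : ℕ) (x : V) : V := (-(nm m)⁻¹) • gp (th0 m) x

/-- `c n l` for `n < l`: `- ∫ φ_l ⊗ φ_l : ∇ φ_n` -/
noncomputable def cc (n l : ℕ) : ℝ := -tri (phi l) (phi l) (phi n)

/-- the pump coefficient `∫ φ_n ⊗ φ_n : ∇ φ_{n+1}` -/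
noncomputable def pp (n : ℕ) : ℝ := tri (phi n) (phi n) (phi (n + 1))

/-- `∫ |∇φ_m|²` -/
noncomputable def gg (m : ℕ) : ℝ := gip (phi m) (phi m)

/-- An orthonormal system of smooth periodic divergence-free fields for which the Galerkin system
of the Navier-Stokes equations has only the couplings `c n l` and `p n`. -/
structure Basis (φ : ℕ → V → V) (c : ℕ → ℕ → ℝ) (p g : ℕ → ℝ) : Prop where
  sp : ∀ m i, SP (fun x => φ m x i)
  div : ∀ m x, ∑ i, pd i (fun y => φ m y i) x = 0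
  on : ∀ m n, ip (φ m) (φ n) = if m = n then 1 else 0
  gon : ∀ m n, gip (φ m) (φ n) = if m = n then g m else 0
  mono : Monotone g
  tri_eq : ∀ i j m, tri (φ i) (φ j) (φ m)
    = (if j < m ∧ i = m then c j m else 0) - (if m < j ∧ i = j then c m j else 0)
      + (if i = j ∧ m = i + 1 then p i else 0) - (if i = m ∧ j = i + 1 then p m else 0)

/-- smooth 1-periodic functions on the line -/
structure P1 (f : ℝ → ℝ) : Prop where
  smooth : ContDiff ℝ ∞ f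
  per : ∀ s, f (s + 1) = f s

end Pool.Agent.H226.GB

end

/-! ## Spec -/

section

/-!
Interface of the project: statements proved in the other files.
-/

open MeasureTheory Set Filter Topology
open scoped ContDiff
open H459R3.NS

namespace Pool.Agent.H226.GB

/-- integral over a period -/
noncomputable def i1 (f : ℝ → ℝ) : ℝ := ∫ s in (0 : ℝ)..1, f s

/-! ### Product functions -/

/-- calculus of product functions -/
structure S_prod : Prop where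
  sp : ∀ {F G H : ℝ → ℝ}, P1 F → P1 G → P1 H → SP (prd F G H)
  pd0 : ∀ {F G H : ℝ → ℝ}, P1 F → P1 G → P1 H → pd 0 (prd F G H) = prd (deriv F) G H
  pd1 : ∀ {F G H : ℝ → ℝ}, P1 F → P1 G → P1 H → pd 1 (prd F G H) = prd F (deriv G) H
  pd2 : ∀ {F G H : ℝ → ℝ}, P1 F → P1 G → P1 H → pd 2 (prd F G H) = prd F G (deriv H)
  der : ∀ {F : ℝ → ℝ}, P1 F → P1 (deriv F)
  mul : ∀ {F G : ℝ → ℝ}, P1 F → P1 G → P1 (fun s => F s * G s)
  int : ∀ {F G H : ℝ → ℝ}, P1 F → P1 G → P1 H →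
    ∫ x in cube, prd F G H x = i1 F * i1 G * i1 H
  ip_gp : ∀ {F G H F' G' H' : ℝ → ℝ}, P1 F → P1 G → P1 H → P1 F' → P1 G' → P1 H' →
    ip (gp (prd F G H)) (gp (prd F' G' H'))
      = i1 (fun s => F s * F' s) * i1 (fun s => G s * G' s)
          * i1 (fun s => deriv H s * deriv H' s)
        + i1 (fun s => deriv F s * deriv F' s) * i1 (fun s => G s * G' s)
          * i1 (fun s => H s * H' s)
  tri_gp : ∀ {F₁ G₁ H₁ F₂ G₂ H₂ F₃ G₃ H₃ : ℝ → ℝ}, P1 F₁ → P1 G₁ → P1 H₁ → P1 F₂ → P1 G₂ →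
    P1 H₂ → P1 F₃ → P1 G₃ → P1 H₃ →
    tri (gp (prd F₁ G₁ H₁)) (gp (prd F₂ G₂ H₂)) (gp (prd F₃ G₃ H₃))
      = i1 (fun s => G₁ s * G₂ s * G₃ s) *
        (i1 (fun s => F₁ s * F₂ s * deriv F₃ s) * i1 (fun s => deriv H₁ s * deriv H₂ s * deriv H₃ s)
        - i1 (fun s => deriv F₁ s * F₂ s * F₃ s)
          * i1 (fun s => H₁ s * deriv H₂ s * deriv (deriv H₃) s)
        + i1 (fun s => F₁ s * deriv F₂ s * deriv (deriv F₃) s)
          * i1 (fun s => deriv H₁ s * H₂ s * H₃ s)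
        - i1 (fun s => deriv F₁ s * deriv F₂ s * deriv F₃ s)
          * i1 (fun s => H₁ s * H₂ s * deriv H₃ s))

/-! ### One-dimensional integrals -/

/-- integrals of the one-dimensional functions -/
structure S_one : Prop where
  p1_sn : ∀ k, P1 (sn k)
  p1_cs : ∀ k, P1 (cs k)
  p1_F : ∀ N, P1 (fF N)
  p1_G : ∀ N, P1 (fG N)
  p1_H : ∀ N, P1 (fH N)
  dF : ∀ N s, deriv (fF N) s = ∑ j ∈ Finset.Ico N (2 * N), 2 * Real.pi * j * cs j s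
  dH : ∀ N s, deriv (fH N) s = ∑ j ∈ Finset.Ico (16 * N) (17 * N), cs j s
  F2 : ∀ N k, 1 ≤ k → k ≤ N → i1 (fun s => fF N s ^ 2 * cs k s) = (N - k) / 2
  G2 : ∀ N k, 1 ≤ k → k ≤ N → i1 (fun s => fG N s ^ 2 * cs k s) = (N - k) / 2
  dH2 : ∀ N k, 1 ≤ k → k ≤ N → i1 (fun s => deriv (fH N) s ^ 2 * cs k s) = (N - k) / 2
  dF2 : ∀ N k, 1 ≤ k → k ≤ N → 0 ≤ i1 (fun s => deriv (fF N) s ^ 2 * cs k s) ∧
    i1 (fun s => deriv (fF N) s ^ 2 * cs k s) ≤ (2 * Real.pi * (2 * N)) ^ 2 * ((N - k) / 2)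
  H2 : ∀ N k, 1 ≤ k → k ≤ N → 0 ≤ i1 (fun s => fH N s ^ 2 * cs k s) ∧
    i1 (fun s => fH N s ^ 2 * cs k s) ≤ ((N - k) / 2) / (2 * Real.pi * (16 * N)) ^ 2
  by_parts : ∀ {f : ℝ → ℝ}, P1 f → ∀ k,
    i1 (fun s => f s * deriv f s * sn k s) = -(Real.pi * k) * i1 (fun s => f s ^ 2 * cs k s)
  nF : ∀ N, 1 ≤ N → i1 (fun s => fF N s ^ 2) = N / 2
  nG : ∀ N, 1 ≤ N → i1 (fun s => fG N s ^ 2) = N / 2
  ndH : ∀ N, 1 ≤ N → i1 (fun s => deriv (fH N) s ^ 2) = N / 2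
  ndF : ∀ N, 1 ≤ N → i1 (fun s => deriv (fF N) s ^ 2) ≤ (2 * Real.pi * (2 * N)) ^ 2 * (N / 2)
  ndG : ∀ N, 1 ≤ N → i1 (fun s => deriv (fG N) s ^ 2) ≤ (2 * Real.pi * (2 * N)) ^ 2 * (N / 2)
  nddF : ∀ N, 1 ≤ N →
    i1 (fun s => deriv (deriv (fF N)) s ^ 2) ≤ (2 * Real.pi * (2 * N)) ^ 4 * (N / 2)
  nH : ∀ N, 1 ≤ N → i1 (fun s => fH N s ^ 2) ≤ (N / 2) / (2 * Real.pi * (16 * N)) ^ 2
  nddH : ∀ N, 1 ≤ N →
    (2 * Real.pi * (16 * N)) ^ 2 * (N / 2) ≤ i1 (fun s => deriv (deriv (fH N)) s ^ 2) ∧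
    i1 (fun s => deriv (deriv (fH N)) s ^ 2) ≤ (2 * Real.pi * (17 * N)) ^ 2 * (N / 2)
  pF : ∀ N, 2 ≤ N → i1 (fun s => fF N s ^ 2 * cs (4 * N - 3) s) = -(1 / 2)
  pdF : ∀ N : ℕ, 2 ≤ N → i1 (fun s => deriv (fF N) s ^ 2 * cs (4 * N - 3) s)
    = (2 * Real.pi) ^ 2 * ((2 * N - 1) * (2 * N - 2)) / 2
  pG : ∀ N, 2 ≤ N → i1 (fun s => fG N s ^ 2 * cs (4 * N - 2) s) = 1 / 4
  pdH : ∀ N, 2 ≤ N → i1 (fun s => deriv (fH N) s ^ 2 * cs (2 * (17 * N - 1)) s) = 1 / 4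
  pH : ∀ N : ℕ, 2 ≤ N → i1 (fun s => fH N s ^ 2 * cs (2 * (17 * N - 1)) s)
    = -(1 / (4 * (2 * Real.pi) ^ 2 * (17 * N - 1) ^ 2))

/-- `f` is a real trigonometric polynomial with frequencies in `A` -/
def Trig (A : Set ℕ) (f : ℝ → ℝ) : Prop :=
  f ∈ Submodule.span ℝ ({g | ∃ k ∈ A, g = sn k} ∪ {g | ∃ k ∈ A, g = cs k})

/-- trigonometric polynomials with prescribed frequencies -/
structure S_trig : Prop where
  p1 : ∀ {A : Set ℕ} {f : ℝ → ℝ}, Trig A f → P1 f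
  der : ∀ {A : Set ℕ} {f : ℝ → ℝ}, Trig A f → Trig A (deriv f)
  sn : ∀ {A : Set ℕ} {k : ℕ}, k ∈ A → Trig A (sn k)
  cs : ∀ {A : Set ℕ} {k : ℕ}, k ∈ A → Trig A (cs k)
  H : ∀ N, Trig {k | 16 * N ≤ k ∧ k ≤ 17 * N - 1} (fH N)
  int2 : ∀ {A B : Set ℕ} {f g : ℝ → ℝ}, Trig A f → Trig B g → (∀ a ∈ A, ∀ b ∈ B, a ≠ b) →
    i1 (fun s => f s * g s) = 0
  int3 : ∀ {A B C : Set ℕ} {f g h : ℝ → ℝ}, Trig A f → Trig B g → Trig C h →
    (∀ a ∈ A, ∀ b ∈ B, ∀ c ∈ C, a ≠ b + c ∧ b ≠ a + c ∧ c ≠ a + b) →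
    i1 (fun s => f s * g s * h s) = 0

/-! ### The coupling coefficients -/

/-- bounds of the norms `nm m`: `n² ∈ [N³/8, N³/4]` -/
def S_nm : Prop := ∀ m, ((NN m : ℝ) ^ 3 / 8 ≤ nm m ^ 2 ∧ nm m ^ 2 ≤ (NN m : ℝ) ^ 3 / 4) ∧ 0 < nm m

/-- lower bound of the main couplings -/
def S_cc : Prop := ∀ n, (RR n : ℝ) ^ 5 / 2 ≤ cc n (n + 1)

/-- upper bound of all couplings -/
def S_ccu : Prop := ∀ n l, n < l → |cc n l| ≤ 2 ^ 10 * (RR n : ℝ) ^ 5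

/-- bounds of the pumps -/
def S_pp : Prop := ∀ n, 1 ≤ n → Real.exp (-bb n) / (2 * (RR (n + 1) : ℝ) ^ 9) ≤ pp n ∧
  pp n ≤ Real.exp (-bb n)

/-- bounds of the dissipation -/
def S_gg : Prop := ∀ m, (RR m : ℝ) ^ 4 ≤ gg m ∧ gg m ≤ 2 ^ 14 * (RR m : ℝ) ^ 4

/-- the structure of the basis -/
def S_basis : Prop := Basis phi cc pp gg

/-! ### The infinite system -/

/-- the pump from the previous level -/
def pm (p : ℕ → ℝ) (a : ℕ → ℝ → ℝ) (m : ℕ) (t : ℝ) : ℝ :=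
  if m = 0 then 0 else p (m - 1) * a (m - 1) t ^ 2

/-- Solutions of the infinite system of ordinary differential equations on `[0, T]`, with the
energy `S` and the sums `W m = ∑_{l > m} c m l * a l ^ 2`. -/
structure Shell (c : ℕ → ℕ → ℝ) (p ν : ℕ → ℝ) (T : ℝ) (a : ℕ → ℝ → ℝ) (S : ℝ → ℝ)
    (W : ℕ → ℝ → ℝ) : Prop where
  cont : ∀ m, ContinuousOn (a m) (Icc 0 T)
  contS : ContinuousOn S (Icc 0 T)
  sum : ∀ t ∈ Icc 0 T, HasSum (fun m => a m t ^ 2) (S t)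
  sumW : ∀ t ∈ Icc 0 T, ∀ m, HasSum (fun l => if m < l then c m l * a l t ^ 2 else 0) (W m t)
  der : ∀ t ∈ Ioo 0 T, ∀ m, HasDerivAt (a m)
    ((∑ n ∈ Finset.range m, c n m * a n t - ν m) * a m t - W m t + pm p a m t
      - p m * a m t * a (m + 1) t) t
  en : ∀ t ∈ Ioo 0 T, ∃ S', HasDerivAt S S' t ∧
    ∀ L, S' ≤ -2 * ∑ m ∈ Finset.range L, ν m * a m t ^ 2

/-- `u` is, for the times in `[0, T)`, a smooth solution of the Galerkin projection of the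
Navier-Stokes equations onto the closed span of the fields `φ m` -/
structure IsGal (φ : ℕ → V → V) (ν : ℝ) (T : ℝ) (u : ℝ → V → V) : Prop where
  smooth : ContDiffOn ℝ ∞ (fun z : ℝ × V => u z.1 z.2) (Ico 0 T ×ˢ univ)
  per : ∀ t ∈ Ico 0 T, Per (u t)
  divfree : ∀ t ∈ Ico 0 T, ∀ x, ∑ i, pd i (fun y => u t y i) x = 0
  mem : ∀ t ∈ Ico 0 T, ∀ ε > 0, ∃ (L : ℕ) (a : ℕ → ℝ),
    ∑ i, ∫ x in cube, (u t x i - ∑ m ∈ Finset.range L, a m * φ m x i) ^ 2 < ε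
  eq : ∀ t ∈ Ioo 0 T, ∀ m, ∑ i, ∫ x in cube,
    (deriv (fun s => u s x i) t + ∑ j, u t x j * pd j (fun y => u t y i) x
      - ν * ∑ j, pd j (pd j (fun y => u t y i)) x) * φ m x i = 0

/-- the reduction to the infinite system -/
def S_red : Prop := ∀ (φ : ℕ → V → V) (c : ℕ → ℕ → ℝ) (p g : ℕ → ℝ), Basis φ c p g →
  (∀ n, ∃ C, ∀ l, |c n l| ≤ C) →
  ∀ (ν T : ℝ) (u : ℝ → V → V), 0 ≤ ν → IsGal φ ν T u → ∀ T' ∈ Ioo 0 T,
    ∃ (S : ℝ → ℝ) (W : ℕ → ℝ → ℝ) (K : ℝ),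
      Shell c p (fun m => ν * g m) T' (fun m t => ip (u t) (φ m)) S W ∧
      ∀ t ∈ Icc 0 T', ∀ m, g m * ip (u t) (φ m) ^ 2 ≤ K

end Pool.Agent.H226.GB

end

/-! ## Spec2 -/

section

/-!
Interface, second part: local existence and uniqueness.
-/

open MeasureTheory Set Filter Topology
open scoped ContDiff
open H459R3.NS

namespace Pool.Agent.H226.GB

/-- rapidly decreasing families, uniformly in time -/
def Rap (a : ℕ → ℝ → ℝ) : Prop := ∀ s : ℕ, ∃ K : ℝ, ∀ m t, (RR m : ℝ) ^ s * |a m t| ≤ K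

/-- the right side of the infinite system -/
noncomputable def FF (c : ℕ → ℕ → ℝ) (p ν : ℕ → ℝ) (a : ℕ → ℝ → ℝ) (m : ℕ) (t : ℝ) : ℝ :=
  (∑ n ∈ Finset.range m, c n m * a n t - ν m) * a m t
    - (∑' l, if m < l then c m l * a l t ^ 2 else 0) + pm p a m t - p m * a m t * a (m + 1) t

/-- hypotheses on the coefficients -/
structure Coef (c : ℕ → ℕ → ℝ) (p ν : ℕ → ℝ) (C : ℝ) : Prop where
  c_le : ∀ n l, n < l → |c n l| ≤ C * (RR n : ℝ) ^ 5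
  p0 : ∀ n, 0 ≤ p n
  p_le : ∀ s : ℕ, ∃ K : ℝ, ∀ n, p n * (RR (n + 1) : ℝ) ^ s ≤ K
  ν0 : ∀ n, 0 ≤ ν n
  ν_le : ∀ n, ν n ≤ C * (RR n : ℝ) ^ 4

/-- local existence for the infinite system -/
def S_loc1 : Prop := ∀ (c : ℕ → ℕ → ℝ) (p ν : ℕ → ℝ) (C : ℝ), Coef c p ν C →
  ∀ a0 : ℕ → ℝ, (∀ s : ℕ, ∃ K : ℝ, ∀ m, (RR m : ℝ) ^ s * |a0 m| ≤ K) →
  ∃ τ > 0, ∃ a : ℕ → ℝ → ℝ, Rap a ∧ (∀ m, Continuous (a m)) ∧ (∀ m, a m 0 = a0 m) ∧
    ∀ t ∈ Ioo 0 τ, ∀ m, HasDerivAt (a m) (FF c p ν a m t) t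

/-- families which are `n` times differentiable for `t ∈ (0, τ)`, with continuous and rapidly
decreasing derivatives -/
def AT (τ : ℝ) : ℕ → (ℕ → ℝ → ℝ) → Prop
  | 0, a => Rap a ∧ ∀ m, Continuous (a m)
  | n + 1, a => (Rap a ∧ ∀ m, Continuous (a m)) ∧ ∃ a' : ℕ → ℝ → ℝ,
      (∀ t ∈ Ioo 0 τ, ∀ m, HasDerivAt (a m) (a' m t) t) ∧ AT τ n a'

/-- regularity in time of the solutions of the infinite system -/
def S_loc2 : Prop := ∀ (c : ℕ → ℕ → ℝ) (p ν : ℕ → ℝ) (C : ℝ), Coef c p ν C →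
  ∀ (τ : ℝ) (a : ℕ → ℝ → ℝ), Rap a → (∀ m, Continuous (a m)) →
    (∀ t ∈ Ioo 0 τ, ∀ m, HasDerivAt (a m) (FF c p ν a m t) t) → ∀ n, AT τ n a

/-- from the infinite system to the Galerkin projected equations -/
def S_loc3 : Prop := ∀ (ν τ : ℝ) (a : ℕ → ℝ → ℝ), 0 ≤ ν → 0 < τ → (∀ n, AT τ n a) →
  (∀ t ∈ Ioo 0 τ, ∀ m, HasDerivAt (a m) (FF cc pp (fun m => ν * gg m) a m t) t) →
  ∃ u : ℝ → V → V, IsGal phi ν τ u ∧
    ∀ t ∈ Ico 0 τ, ∀ x i, HasSum (fun m => a m t * phi m x i) (u t x i)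

/-- uniqueness of smooth solutions of the Galerkin projected equations -/
def S_uni : Prop := ∀ (φ : ℕ → V → V) (c : ℕ → ℕ → ℝ) (p g : ℕ → ℝ), Basis φ c p g →
  ∀ (ν T : ℝ) (u v : ℝ → V → V), 0 ≤ ν → IsGal φ ν T u → IsGal φ ν T v → u 0 = v 0 →
    ∀ t ∈ Ico 0 T, u t = v t

end Pool.Agent.H226.GB

end

/-! ## Spec3 -/

section

/-!
Interface, third part: lemmas for the analysis of the infinite system.
-/

open MeasureTheory Set Filter Topology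

namespace Pool.Agent.H226.GB

/-- perturbed amplifier `x' = - c y² + .., y' = c x y + ..` on `[t0, s]` -/
structure PlanHyp (x y x' y' I : ℝ → ℝ) (c lam P α D X t0 s : ℝ) : Prop where
  ts : t0 ≤ s
  sD : s - t0 ≤ D
  c0 : 0 < c
  lam1 : 1 ≤ lam
  lamD : 4 * lam * D ≤ 1 / 2 ^ 31
  α0 : 0 < α
  P0 : 0 ≤ P
  Pα : P ≤ α * lam / 2
  αX : α ≤ X
  X2 : X ≤ 2
  x0 : x t0 = X
  y00 : 0 < y t0
  y0 : y t0 ^ 2 ≤ α ^ 2 / 2 ^ 31
  cx : ContinuousOn x (Icc t0 s)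
  cy : ContinuousOn y (Icc t0 s)
  cI : ContinuousOn I (Icc t0 s)
  dx : ∀ t ∈ Ioo t0 s, HasDerivAt x (x' t) t
  dy : ∀ t ∈ Ioo t0 s, HasDerivAt y (y' t) t
  dI : ∀ t ∈ Ioo t0 s, HasDerivAt I (y t) t
  xn : ∀ t ∈ Icc t0 s, 0 ≤ x t
  yn : ∀ t ∈ Icc t0 s, 0 ≤ y t
  hx : ∀ t ∈ Ioo t0 s, |x' t + c * y t ^ 2| ≤ lam * (x t + y t) + P
  hy1 : ∀ t ∈ Ioo t0 s, c * x t * y t - lam * y t ≤ y' t
  hy2 : ∀ t ∈ Ioo t0 s, y' t ≤ c * x t * y t + lam * y t + P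

/-- conclusions for the perturbed amplifier -/
def S_plan : Prop := ∀ (x y x' y' I : ℝ → ℝ) (c lam P α D X t0 s : ℝ),
  PlanHyp x y x' y' I c lam P α D X t0 s →
  (∀ t ∈ Icc t0 s, X ^ 2 * (1 - 3 / 2 ^ 31) ≤ x t ^ 2 + y t ^ 2 ∧
    x t ^ 2 + y t ^ 2 ≤ X ^ 2 * (1 + 6 / 2 ^ 31)) ∧
  c * (I s - I t0) ≤ 9 / 4 ∧
  (1 / 2 ^ 26 ≤ c * (I s - I t0) → X / 2 ^ 29 ≤ y s) ∧
  9 / 10 * c * X * (s - t0) ≤ 2 - Real.log (y t0) ∧
  ∀ u ∈ Icc t0 s, ∀ v ∈ Icc t0 s, u ≤ v →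
    x u - x v ≤ 101 / 100 * X * c * (I v - I u) + X / 2 ^ 31

/-- growth of the next level -/
def S_grow : Prop := ∀ (x y z x' z' I : ℝ → ℝ) (c c1 E π err D t0 s1 s : ℝ),
  t0 ≤ s1 → s1 ≤ s → s - t0 ≤ D → 0 < c → 0 ≤ c1 → 0 ≤ E → 0 ≤ π → 0 ≤ err →
  ContinuousOn x (Icc t0 s) → ContinuousOn z (Icc t0 s) → ContinuousOn I (Icc t0 s) →
  (∀ t ∈ Ioo t0 s, HasDerivAt x (x' t) t) → (∀ t ∈ Ioo t0 s, HasDerivAt z (z' t) t) →
  (∀ t ∈ Ioo t0 s, HasDerivAt I (y t) t) → (∀ t ∈ Icc t0 s, 0 ≤ y t) →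
  (∀ t ∈ Icc t0 s, 0 ≤ z t) →
  (∀ t ∈ Ioo t0 s, -(c * y t ^ 2) - err ≤ x' t) →
  (∀ t ∈ Ioo t0 s, (c1 * y t - E) * z t + π * y t ^ 2 ≤ z' t) →
  π / c * (x t0 - x s1 - err * D) * Real.exp (c1 * (I s - I s1) - E * D) ≤ z s

/-- bound of the couplings `2^10 R^5` -/
noncomputable def Gm (m : ℕ) : ℝ := 2 ^ 10 * (RR m : ℝ) ^ 5

/-- `(R_m / R_{m-1})^5` -/
noncomputable def om (m : ℕ) : ℝ := ((RR m : ℝ) / RR (m - 1)) ^ 5

/-- lower bound of the amplitudes -/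
noncomputable def al (m : ℕ) : ℝ := (1 / 2 ^ 29) ^ m

/-- thresholds -/
noncomputable def rr (m : ℕ) : ℝ := 1 / (2 * Gm (m + 1))

/-- budget of the exponents -/
noncomputable def Bm (m : ℕ) : ℝ := 2 ^ 14 * om m

/-- length of the stage `m` -/
noncomputable def Dm (m : ℕ) : ℝ := 4 * (Real.log (1 / rr m) + 3) / ((RR m : ℝ) ^ 5 * al m)

/-- sum of the lower couplings -/
noncomputable def SG (m : ℕ) : ℝ := ∑ n ∈ Finset.range m, Gm n

/-- size of the perturbations -/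
noncomputable def lam (K : ℝ) (m : ℕ) : ℝ := 1 + 2 * SG m + K * (RR (m + 1) : ℝ) ^ 4
  + Gm (m + 1) * rr (m + 1) + 2 * Real.exp (-bb m) + 2 * Real.exp (-bb (m + 1))

/-- the numerical conditions for the stage `m` -/
structure Par (K T : ℝ) (m : ℕ) : Prop where
  f1 : 4 * lam K m * Dm m ≤ 1 / 2 ^ 31
  f2 : 4 * (Real.exp (-bb (m - 1)) + Real.exp (-bb m)) ≤ al m * lam K m / 2
  f3 : rr m ^ 2 ≤ al m ^ 2 / 2 ^ 31
  f4 : rr (m + 1) < al (m + 1)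
  f5 : Bm m + 2 ≤ bb (m + 1)
  f5' : 2 * Real.exp (Bm m + 1 - bb (m + 1)) < rr (m + 1)
  f6 : Bm m + 1 + 4 * Dm m * SG (m + 1) + 9216 * om (m + 1) ≤ Bm (m + 1)
  f7 : Bm (m + 1) + 2 ≤ bb (m + 2)
  f7b : 2 * Gm (m + 2) * Real.exp (Bm (m + 1) + 1 - bb (m + 2)) ^ 2 ≤ 1
  f7c : 2 * Real.exp (-bb (m + 2)) ≤ 1
  f8 : Real.log (2 / rr (m + 1)) + Bm m + 2 + 4 * Dm m * SG (m + 1) ≤ bb (m + 1) / 2
  f10 : rr (m + 1) < 1 / (2 * (RR (m + 2) : ℝ) ^ 9) * (49 / 100 * al m / Gm m)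
    * Real.exp (49 / 100 / 2 ^ 11 * om (m + 1) - bb (m + 1)
      - (2 * SG (m + 1) + K * (RR (m + 2) : ℝ) ^ 4 + 2) * Dm m)
  f11 : Dm m ≤ T / 2 ^ (m + 1)

/-- the numerical conditions hold for all large `m` -/
def S_par : Prop := ∀ K T : ℝ, 0 ≤ K → 0 < T → ∃ m0, 2 ≤ m0 ∧ ∀ m, m0 ≤ m → Par K T m

end Pool.Agent.H226.GB

end

/-! ## Spec4 -/

section

/-!
Interface, fourth part: larger spaces. The set `Fp φ p` consists of the rescaled fields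
`φ m (p x)` and of all divergence-free modes whose frequency is not divisible by `p`.
-/

open MeasureTheory Set Filter Topology
open scoped ContDiff
open H459R3.NS

namespace Pool.Agent.H226.GB

/-- `v` is in `L²` of the period cell a limit of linear combinations of elements of `Φ` -/
def InSpan (Φ : Set (V → V)) (v : V → V) : Prop :=
  ∀ ε > 0, ∃ w ∈ Submodule.span ℝ Φ, ∑ i, ∫ x in cube, (v x i - w x i) ^ 2 < ε

/-- `u` is, for the times in `[0, T)`, a smooth solution of the Galerkin projection of the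
Navier-Stokes equations onto the closed span of `Φ` -/
structure IsPr (Φ : Set (V → V)) (ν T : ℝ) (u : ℝ → V → V) : Prop where
  smooth : ContDiffOn ℝ ∞ (fun z : ℝ × V => u z.1 z.2) (Ico 0 T ×ˢ univ)
  per : ∀ t ∈ Ico 0 T, Per (u t)
  divfree : ∀ t ∈ Ico 0 T, ∀ x, ∑ i, pd i (fun y => u t y i) x = 0
  mem : ∀ t ∈ Ico 0 T, InSpan Φ (u t)
  eq : ∀ t ∈ Ioo 0 T, ∀ w ∈ Φ, ∑ i, ∫ x in cube,
    (deriv (fun s => u s x i) t + ∑ j, u t x j * pd j (fun y => u t y i) x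
      - ν * ∑ j, pd j (pd j (fun y => u t y i)) x) * w x i = 0

/-- the divergence-free modes whose frequency is not divisible by `p` -/
def md (p : ℕ) : Set (V → V) :=
  {w | ∃ (k : Fin 3 → ℤ) (a : V), (∃ j, ¬((p : ℤ) ∣ k j)) ∧ ∑ j, (k j : ℝ) * a j = 0 ∧
    ((∀ x, w x = Real.cos (2 * Real.pi * ∑ j, (k j : ℝ) * x j) • a) ∨
      ∀ x, w x = Real.sin (2 * Real.pi * ∑ j, (k j : ℝ) * x j) • a)}

/-- the fields `φ m (p x)` and all divergence-free modes with frequencies not divisible by `p` -/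
def Fp (φ : ℕ → V → V) (p : ℕ) : Set (V → V) :=
  {w | ∃ m, ∀ x, w x = φ m ((p : ℝ) • x)} ∪ md p

/-- integrals of rescaled and of translated periodic functions -/
def S_int : Prop := (∀ g : V → ℝ, SP g → ∀ p : ℕ, 1 ≤ p →
    ∫ x in cube, g ((p : ℝ) • x) = ∫ x in cube, g x) ∧
  (∀ g : V → ℝ, SP g → ∀ y : V, ∫ x in cube, g (x + y) = ∫ x in cube, g x)

/-- uniqueness -/
def S_uniP : Prop := ∀ Φ : Set (V → V), (∀ w ∈ Φ, ∀ i, SP (fun x => w x i)) →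
  ∀ (ν T : ℝ) (u v : ℝ → V → V), 0 ≤ ν → IsPr Φ ν T u → IsPr Φ ν T v → u 0 = v 0 →
    ∀ t ∈ Ico 0 T, u t = v t

/-- invariance under the translations by `1 / p` -/
def S_shift : Prop := ∀ (φ : ℕ → V → V) (p : ℕ), (∀ m i, SP (fun x => φ m x i)) → 1 ≤ p →
  ∀ (ν T : ℝ) (u : ℝ → V → V), IsPr (Fp φ p) ν T u → ∀ j : Fin 3,
    IsPr (Fp φ p) ν T (fun t x => u t (x + Pi.single j (1 / (p : ℝ))))

/-- `1 / p`-periodic elements of the closed span of `Fp φ p` come from the closed span of `φ` -/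
def S_memdown : Prop := ∀ (φ : ℕ → V → V) (p : ℕ), (∀ m i, SP (fun x => φ m x i)) → 1 ≤ p →
  ∀ v : V → V, (∀ i, SP (fun x => v x i)) →
    (∀ (j : Fin 3) (x : V), v (x + Pi.single j (1 / (p : ℝ))) = v x) → InSpan (Fp φ p) v →
    ∀ ε > 0, ∃ (L : ℕ) (a : ℕ → ℝ), ∑ i, ∫ x in cube,
      (p * v ((p : ℝ)⁻¹ • x) i - ∑ m ∈ Finset.range L, a m * φ m x i) ^ 2 < ε

/-- from the larger space to the span of `φ` -/
def S_down : Prop := ∀ (φ : ℕ → V → V) (p : ℕ), (∀ m i, SP (fun x => φ m x i)) → 1 ≤ p →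
  ∀ (ν T : ℝ) (u : ℝ → V → V), IsPr (Fp φ p) ν T u →
    (∀ t ∈ Ico 0 T, ∀ (j : Fin 3) (x : V), u t (x + Pi.single j (1 / (p : ℝ))) = u t x) →
    IsGal φ (ν * p ^ 2) T (fun t x => (p : ℝ) • u t ((p : ℝ)⁻¹ • x))

/-- from the span of `φ` to the larger space -/
def S_up : Prop := ∀ (φ : ℕ → V → V) (p : ℕ), (∀ m i, SP (fun x => φ m x i)) → 1 ≤ p →
  ∀ (ν T : ℝ) (u : ℝ → V → V), IsGal φ (ν * p ^ 2) T u →
    IsPr (Fp φ p) ν T (fun t x => (p : ℝ)⁻¹ • u t ((p : ℝ) • x))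

end Pool.Agent.H226.GB

end

/-! ## Spec5 -/

section

/-!
Interface, fifth part: the numerical conditions with large viscosity and short time.
-/

open MeasureTheory Set Filter Topology

namespace Pool.Agent.H226.GB

/-- the numerical conditions hold for all large `m`, with the viscosity of size `R_m^(1 - 1/q)`
and the time `R_m^(-5 + 1/q)` -/
def S_par2 : Prop := ∀ (K T : ℝ) (q : ℕ), 0 ≤ K → 0 < T → 1 ≤ q → ∃ m1, 2 ≤ m1 ∧ ∀ m, m1 ≤ m →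
  ∀ K' T' : ℝ, 0 ≤ K' → K' ≤ K * 2 ^ ((m + 2) ^ 3 - (m + 2) ^ 3 / q) →
    T / 2 ^ (5 * (m + 2) ^ 3 - (m + 2) ^ 3 / q) ≤ T' → Par K' T' m

end Pool.Agent.H226.GB

end

/-! ## Ode1 -/

section

/-!
The infinite system: tails of the energy and the comparison of neighbouring levels.
-/

open MeasureTheory Set Filter Topology

namespace Pool.Agent.H226.GB

/-- the hypotheses on the system, with globally continuous functions -/
structure Sys0 (c : ℕ → ℕ → ℝ) (G p ν : ℕ → ℝ) (T : ℝ) (a : ℕ → ℝ → ℝ) (S : ℝ → ℝ)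
    (W : ℕ → ℝ → ℝ) : Prop where
  cont : ∀ m, Continuous (a m)
  contS : Continuous S
  sum : ∀ t ∈ Icc 0 T, HasSum (fun m => a m t ^ 2) (S t)
  sumW : ∀ t ∈ Icc 0 T, ∀ m, HasSum (fun l => if m < l then c m l * a l t ^ 2 else 0) (W m t)
  der : ∀ t ∈ Ioo 0 T, ∀ m, HasDerivAt (a m)
    ((∑ n ∈ Finset.range m, c n m * a n t - ν m) * a m t - W m t + pm p a m t
      - p m * a m t * a (m + 1) t) t
  en : ∀ t ∈ Ioo 0 T, ∃ S', HasDerivAt S S' t ∧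
    ∀ L, S' ≤ -2 * ∑ m ∈ Finset.range L, ν m * a m t ^ 2
  cG : ∀ n l, n < l → |c n l| ≤ G n
  p0 : ∀ n, 0 ≤ p n
  ν0 : ∀ n, 0 ≤ ν n
  νm : Monotone ν

/-- monotonicity from the sign of the derivative -/
lemma mono_of {f f' : ℝ → ℝ} {s t : ℝ} (hc : ContinuousOn f (Icc s t))
    (hd : ∀ u ∈ Ioo s t, HasDerivAt f (f' u) u) (h : ∀ u ∈ Ioo s t, 0 ≤ f' u) {u v : ℝ}
    (hu : s ≤ u) (huv : u ≤ v) (hv : v ≤ t) : f u ≤ f v := by
  have hm : MonotoneOn f (Icc s t) := by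
    refine monotoneOn_of_deriv_nonneg (convex_Icc s t) hc (fun w hw => ?_) (fun w hw => ?_)
    · rw [interior_Icc] at hw
      exact (hd w hw).differentiableAt.differentiableWithinAt
    · rw [interior_Icc] at hw
      rw [(hd w hw).deriv]
      exact h w hw
  exact hm ⟨hu, huv.trans hv⟩ ⟨hu.trans huv, hv⟩ huv

/-- the energy of the levels `≥ l` -/
noncomputable def tl (a : ℕ → ℝ → ℝ) (S : ℝ → ℝ) (l : ℕ) (t : ℝ) : ℝ :=
  S t - ∑ j ∈ Finset.range l, a j t ^ 2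

/-- the hypotheses on the system: the levels `≥ l1` have energy at most 2, and the strain of the
levels below `l1` is bounded -/
structure Sys (l1 : ℕ) (c : ℕ → ℕ → ℝ) (G p ν : ℕ → ℝ) (T : ℝ) (a : ℕ → ℝ → ℝ) (S : ℝ → ℝ)
    (W : ℕ → ℝ → ℝ) : Prop extends Sys0 c G p ν T a S W where
  E2 : ∀ t ∈ Icc 0 T, tl a S l1 t ≤ 2
  low : ∀ t ∈ Icc 0 T, ∑ n ∈ Finset.range l1, G n * |a n t| ≤ 2 * ∑ n ∈ Finset.range l1, G n

/-- the part `∑_{k ≥ l} c j k a_k²` of `W j` -/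
noncomputable def rw' (c : ℕ → ℕ → ℝ) (a : ℕ → ℝ → ℝ) (W : ℕ → ℝ → ℝ) (j l : ℕ) (t : ℝ) : ℝ :=
  W j t - ∑ k ∈ Finset.Ico (j + 1) l, c j k * a k t ^ 2

section

variable {c : ℕ → ℕ → ℝ} {G p ν : ℕ → ℝ} {T : ℝ} {a : ℕ → ℝ → ℝ} {S : ℝ → ℝ} {W : ℕ → ℝ → ℝ}

lemma tl_zero (t : ℝ) : tl a S 0 t = S t := by simp [tl]

lemma tl_succ (l : ℕ) (t : ℝ) : tl a S l t = a l t ^ 2 + tl a S (l + 1) t := by
  unfold tl; rw [Finset.sum_range_succ]; ring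

lemma Sys0.G0 (h : Sys0 c G p ν T a S W) (n : ℕ) : 0 ≤ G n :=
  (abs_nonneg _).trans (h.cG n (n + 1) (Nat.lt_succ_self n))

lemma Sys0.tl_hasSum (h : Sys0 c G p ν T a S W) {t : ℝ} (ht : t ∈ Icc 0 T) (l : ℕ) :
    HasSum (fun k => if l ≤ k then a k t ^ 2 else 0) (tl a S l t) := by
  have h1 := h.sum t ht
  have h2 : HasSum (fun k => if k < l then a k t ^ 2 else 0)
      (∑ k ∈ Finset.range l, if k < l then a k t ^ 2 else 0) :=
    hasSum_sum_of_ne_finset_zero fun k hk => by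
      rw [Finset.mem_range] at hk; exact if_neg hk
  have h3 := h1.sub h2
  have e1 : (∑ k ∈ Finset.range l, if k < l then a k t ^ 2 else 0)
      = ∑ k ∈ Finset.range l, a k t ^ 2 :=
    Finset.sum_congr rfl fun k hk => if_pos (Finset.mem_range.1 hk)
  rw [e1] at h3
  have e2 : (fun k => a k t ^ 2 - if k < l then a k t ^ 2 else 0)
      = fun k => if l ≤ k then a k t ^ 2 else 0 := by
    funext k
    by_cases hk : k < l
    · rw [if_pos hk, if_neg (not_le.2 hk), sub_self]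
    · rw [if_neg hk, if_pos (not_lt.1 hk), sub_zero]
  rw [e2] at h3
  exact h3

lemma Sys0.tl_nonneg (h : Sys0 c G p ν T a S W) {t : ℝ} (ht : t ∈ Icc 0 T) (l : ℕ) :
    0 ≤ tl a S l t := by
  refine (h.tl_hasSum ht l).nonneg fun k => ?_
  split_ifs
  · positivity
  · exact le_rfl

lemma Sys0.sq_le_tl (h : Sys0 c G p ν T a S W) {t : ℝ} (ht : t ∈ Icc 0 T) (l : ℕ) :
    a l t ^ 2 ≤ tl a S l t := by
  have := h.tl_nonneg ht (l + 1)
  rw [tl_succ]; linarith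

lemma tl_succ_le {t : ℝ} (l : ℕ) :
    tl a S (l + 1) t ≤ tl a S l t := by
  have := sq_nonneg (a l t)
  rw [tl_succ (a := a) (S := S) l]; linarith

lemma tl_le_S {t : ℝ} (l : ℕ) : tl a S l t ≤ S t := by
  unfold tl
  have : 0 ≤ ∑ j ∈ Finset.range l, a j t ^ 2 := Finset.sum_nonneg fun _ _ => sq_nonneg _
  linarith

lemma rw_succ {j l : ℕ} (hjl : j < l) (t : ℝ) :
    rw' c a W j (l + 1) t = rw' c a W j l t - c j l * a l t ^ 2 := by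
  unfold rw'
  rw [Finset.sum_Ico_succ_top (by omega)]
  ring

lemma Sys0.abs_rw_le (h : Sys0 c G p ν T a S W) {t : ℝ} (ht : t ∈ Icc 0 T) {j l : ℕ}
    (hjl : j < l) : |rw' c a W j l t| ≤ G j * tl a S l t := by
  have h1 := h.sumW t ht j
  have h2 : HasSum (fun k => if k ∈ Finset.Ico (j + 1) l then c j k * a k t ^ 2 else 0)
      (∑ k ∈ Finset.Ico (j + 1) l, if k ∈ Finset.Ico (j + 1) l then c j k * a k t ^ 2 else 0) :=
    hasSum_sum_of_ne_finset_zero fun k hk => if_neg hk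
  have h3 := h1.sub h2
  have e1 : (∑ k ∈ Finset.Ico (j + 1) l, if k ∈ Finset.Ico (j + 1) l then c j k * a k t ^ 2 else 0)
      = ∑ k ∈ Finset.Ico (j + 1) l, c j k * a k t ^ 2 :=
    Finset.sum_congr rfl fun k hk => if_pos hk
  rw [e1] at h3
  have h4 : HasSum (fun k => if l ≤ k then c j k * a k t ^ 2 else 0) (rw' c a W j l t) := by
    have e3 : (fun k => (if j < k then c j k * a k t ^ 2 else 0)
        - if k ∈ Finset.Ico (j + 1) l then c j k * a k t ^ 2 else 0)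
        = fun k => if l ≤ k then c j k * a k t ^ 2 else 0 := by
      funext k
      by_cases hk : l ≤ k
      · rw [if_pos hk, if_pos (by omega), if_neg (by rw [Finset.mem_Ico]; omega), sub_zero]
      · rw [if_neg hk]
        by_cases hk2 : j < k
        · rw [if_pos hk2, if_pos (by rw [Finset.mem_Ico]; omega), sub_self]
        · rw [if_neg hk2, if_neg (by rw [Finset.mem_Ico]; omega), sub_self]
    rw [e3] at h3
    exact h3
  have h5 := (h.tl_hasSum ht l).mul_left (G j)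
  rw [abs_le]
  constructor
  · have h6 := h5.neg
    refine hasSum_le (fun k => ?_) h6 h4
    by_cases hk : l ≤ k
    · simp only [if_pos hk]
      have := neg_abs_le (c j k)
      have := h.cG j k (by omega)
      nlinarith [sq_nonneg (a k t)]
    · simp only [if_neg hk]; simp
  · refine hasSum_le (fun k => ?_) h4 h5
    by_cases hk : l ≤ k
    · simp only [if_pos hk]
      have := le_abs_self (c j k)
      have := h.cG j k (by omega)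
      nlinarith [sq_nonneg (a k t)]
    · simp only [if_neg hk]; simp

lemma Sys0.tl_der (h : Sys0 c G p ν T a S W) {t S' : ℝ} (ht : t ∈ Ioo 0 T)
    (hS : HasDerivAt S S' t) (l : ℕ) :
    HasDerivAt (tl a S l) (S' + 2 * ∑ j ∈ Finset.range l, ν j * a j t ^ 2
      + 2 * ∑ j ∈ Finset.range l, a j t * rw' c a W j l t + 2 * pm p a l t * a l t) t := by
  induction l with
  | zero =>
    have e : tl a S 0 = S := funext fun s => tl_zero s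
    rw [e]
    refine hS.congr_deriv ?_
    simp [pm]
  | succ l ih =>
    have e : tl a S (l + 1) = fun s => tl a S l s - a l s ^ 2 := by
      funext s
      have := tl_succ (a := a) (S := S) l s
      linarith
    rw [e]
    have h1 := (h.der t ht l).pow 2
    refine (ih.sub h1).congr_deriv ?_
    have e2 : ∑ j ∈ Finset.range (l + 1), a j t * rw' c a W j (l + 1) t
        = ∑ j ∈ Finset.range l, a j t * rw' c a W j l t
          - (∑ n ∈ Finset.range l, c n l * a n t) * a l t ^ 2 + a l t * W l t := by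
      rw [Finset.sum_range_succ]
      have e3 : rw' c a W l (l + 1) t = W l t := by simp [rw']
      rw [e3]
      congr 1
      rw [Finset.sum_mul, ← Finset.sum_sub_distrib]
      refine Finset.sum_congr rfl fun j hj => ?_
      rw [rw_succ (Finset.mem_range.1 hj)]
      ring
    rw [e2, Finset.sum_range_succ]
    have e4 : pm p a (l + 1) t = p l * a l t ^ 2 := by
      unfold pm
      rw [if_neg (Nat.succ_ne_zero l)]
      simp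
    rw [e4]
    simp only [Nat.cast_ofNat, Nat.add_one_sub_one, pow_one]
    ring

lemma pm_nonneg (hp : ∀ n, 0 ≤ p n) (l : ℕ) (t : ℝ) : 0 ≤ pm p a l t := by
  unfold pm
  split_ifs
  · exact le_rfl
  · exact mul_nonneg (hp _) (sq_nonneg _)

/-- the basic inequality for the tails -/
lemma Sys0.tl_der_le (h : Sys0 c G p ν T a S W) {t : ℝ} (ht : t ∈ Ioo 0 T) (l : ℕ) :
    ∃ D, HasDerivAt (tl a S l) D t ∧ D ≤ 2 * (∑ n ∈ Finset.range l, G n * |a n t|) * tl a S l t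
      + 2 * pm p a l t * |a l t| - 2 * ν l * tl a S l t := by
  have ht' : t ∈ Icc 0 T := ⟨ht.1.le, ht.2.le⟩
  obtain ⟨S', hS, hS'⟩ := h.en t ht
  refine ⟨_, h.tl_der ht hS l, ?_⟩
  have h1 : S' + 2 * ∑ j ∈ Finset.range l, ν j * a j t ^ 2 ≤ -(2 * ν l * tl a S l t) := by
    have h2 : Tendsto (fun L => S' + 2 * ∑ j ∈ Finset.range l, ν j * a j t ^ 2
        + 2 * ν l * ∑ j ∈ Finset.range L, (if l ≤ j then a j t ^ 2 else 0)) atTop
        (𝓝 (S' + 2 * ∑ j ∈ Finset.range l, ν j * a j t ^ 2 + 2 * ν l * tl a S l t)) :=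
      ((h.tl_hasSum ht' l).tendsto_sum_nat.const_mul _).const_add _
    have h3 := le_of_tendsto h2 (b := 0) (by
      filter_upwards [eventually_ge_atTop l] with L hL
      have h4 := hS' L
      have h5 : ∑ m ∈ Finset.range L, ν m * a m t ^ 2
          = ∑ m ∈ Finset.range l, ν m * a m t ^ 2 + ∑ m ∈ Finset.Ico l L, ν m * a m t ^ 2 := by
        rw [Finset.range_eq_Ico, Finset.range_eq_Ico, Finset.sum_Ico_consecutive _ (Nat.zero_le l) hL]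
      have h6 : ∑ j ∈ Finset.range L, (if l ≤ j then a j t ^ 2 else 0)
          = ∑ m ∈ Finset.Ico l L, a m t ^ 2 := by
        rw [Finset.range_eq_Ico, ← Finset.sum_Ico_consecutive _ (Nat.zero_le l) hL]
        have e1 : ∑ j ∈ Finset.Ico 0 l, (if l ≤ j then a j t ^ 2 else 0) = 0 :=
          Finset.sum_eq_zero fun j hj => if_neg (by rw [Finset.mem_Ico] at hj; omega)
        rw [e1, zero_add]
        exact Finset.sum_congr rfl fun j hj => if_pos (Finset.mem_Ico.1 hj).1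
      have h7 : ν l * ∑ m ∈ Finset.Ico l L, a m t ^ 2 ≤ ∑ m ∈ Finset.Ico l L, ν m * a m t ^ 2 := by
        rw [Finset.mul_sum]
        refine Finset.sum_le_sum fun m hm => ?_
        have := h.νm (Finset.mem_Ico.1 hm).1
        nlinarith [sq_nonneg (a m t)]
      rw [h5] at h4
      rw [h6]
      linarith)
    linarith
  have h8 : ∑ j ∈ Finset.range l, a j t * rw' c a W j l t
      ≤ (∑ n ∈ Finset.range l, G n * |a n t|) * tl a S l t := by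
    rw [Finset.sum_mul]
    refine Finset.sum_le_sum fun j hj => ?_
    have h9 := h.abs_rw_le ht' (Finset.mem_range.1 hj)
    calc a j t * rw' c a W j l t ≤ |a j t * rw' c a W j l t| := le_abs_self _
      _ = |a j t| * |rw' c a W j l t| := abs_mul _ _
      _ ≤ |a j t| * (G j * tl a S l t) := by gcongr
      _ = G j * |a j t| * tl a S l t := by ring
  have h10 : pm p a l t * a l t ≤ pm p a l t * |a l t| :=
    mul_le_mul_of_nonneg_left (le_abs_self _) (pm_nonneg h.p0 l t)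
  linarith

lemma tl_anti {t : ℝ} {l k : ℕ} (hlk : l ≤ k) : tl a S k t ≤ tl a S l t := by
  induction k, hlk using Nat.le_induction with
  | base => exact le_rfl
  | succ k _ ih => exact (tl_succ_le k).trans ih

variable {l1 : ℕ}

lemma Sys.tl_le (h : Sys l1 c G p ν T a S W) {t : ℝ} (ht : t ∈ Icc 0 T) {l : ℕ} (hl : l1 ≤ l) :
    tl a S l t ≤ 2 := (tl_anti hl).trans (h.E2 t ht)

lemma Sys.sq_le (h : Sys l1 c G p ν T a S W) {t : ℝ} (ht : t ∈ Icc 0 T) {l : ℕ} (hl : l1 ≤ l) :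
    a l t ^ 2 ≤ 2 := (h.sq_le_tl ht l).trans (h.tl_le ht hl)

lemma Sys.ab_le (h : Sys l1 c G p ν T a S W) {t : ℝ} (ht : t ∈ Icc 0 T) {l : ℕ} (hl : l1 ≤ l) :
    |a l t| ≤ 2 := by
  have h1 := h.sq_le ht hl
  exact abs_le_of_sq_le_sq (by linarith) (by norm_num)

/-- the strain of the levels below `l` -/
lemma Sys.str_le (h : Sys l1 c G p ν T a S W) {t : ℝ} (ht : t ∈ Icc 0 T) {l : ℕ} (hl : l1 ≤ l) :
    ∑ n ∈ Finset.range l, G n * |a n t| ≤ 2 * ∑ n ∈ Finset.range l, G n := by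
  rw [← Finset.sum_range_add_sum_Ico _ hl, ← Finset.sum_range_add_sum_Ico _ hl, mul_add]
  refine add_le_add (h.low t ht) ?_
  rw [Finset.mul_sum]
  refine Finset.sum_le_sum fun n hn => ?_
  have h1 := h.ab_le ht (Finset.mem_Ico.1 hn).1
  have h2 := h.G0 n
  nlinarith

end

end Pool.Agent.H226.GB

end

/-! ## Spec6 -/

section

/-!
Interface, sixth part: the lower levels during a short time, and the choice of the parameters.
-/

open MeasureTheory Set Filter Topology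

namespace Pool.Agent.H226.GB

/-- control of the lower levels for a short time: the levels `n < L` are initially arbitrary, the
levels `≥ L` have initially at most the energy `α²` -/
def S_low : Prop := ∀ (c : ℕ → ℕ → ℝ) (p ν : ℕ → ℝ) (T : ℝ) (a : ℕ → ℝ → ℝ) (S : ℝ → ℝ)
    (W : ℕ → ℝ → ℝ) (L l : ℕ) (B α : ℝ), Sys0 c Gm p ν T a S W → 0 ≤ T → 0 < α → 0 ≤ B →
    1 ≤ L → L ≤ l → S 0 ≤ B ^ 2 → tl a S L 0 ≤ α ^ 2 →
    2 * α * SG l * T ≤ 1 / 8 →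
    (∑ n ∈ Finset.range L, Gm n * B) + 2 * T * B ^ 2 *
      (∑ n ∈ Finset.range l, Gm n * (if n = 0 then 0 else p (n - 1))) ≤ α * SG l / 2 →
    T * B ^ 2 * p (l - 1) ≤ α / 16 →
    ∀ t ∈ Icc 0 T, tl a S l t ≤ 2 * α ^ 2 ∧
      ∑ n ∈ Finset.range l, Gm n * |a n t| ≤ 2 * α * SG l

/-- the time of the cascade which begins at the level `m` -/
noncomputable def tau (m : ℕ) : ℝ := 2 ^ (34 * m + 17) / 2 ^ (5 * (m + 2) ^ 3)

/-- the choice of the parameters -/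
def S_num : Prop := (∃ C : ℝ, ∀ l, ∑ n ∈ Finset.range l, Gm n *
    (if n = 0 then 0 else Real.exp (-bb (n - 1))) ≤ C) ∧
  ∀ (K C T : ℝ) (q : ℕ), 0 ≤ K → 0 ≤ C → 0 < T → 1 ≤ q → ∃ m1, 3 ≤ m1 ∧ ∀ m0, m1 ≤ m0 →
    (∀ K', 0 ≤ K' → K' ≤ K * 2 ^ ((m0 + 2) ^ 3 - (m0 + 2) ^ 3 / q) → ∀ m, m0 ≤ m →
      Par K' (tau m0) m) ∧
    2 * SG (m0 - 1) * tau m0 ≤ 1 / 8 ∧ tau m0 ≤ 1 ∧
    ∀ A : ℝ, 0 ≤ A → A ≤ 2 ^ (5 * (m0 + 2) ^ 3 - (m0 + 2) ^ 3 / q) →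
      C * A ≤ SG (m0 - 1) / 2 ∧ C * A ^ 2 * Real.exp (-bb (m0 - 2)) ≤ 1 ∧ tau m0 * A ≤ T

end Pool.Agent.H226.GB

end

/-! ## Spec7 -/

section

/-!
Interface, seventh part: Sobolev norms and the orthogonal projection.
-/

open MeasureTheory Set Filter Topology
open scoped ContDiff ENNReal
open H459R3.NS

namespace Pool.Agent.H226.GB

/-- the sum of the squares of the absolute values of the Fourier coefficients of frequency `k` of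
the components of `v` -/
noncomputable def fq (v : V → V) (k : Fin 3 → ℤ) : ℝ :=
  ∑ i, ((∫ x in cube, v x i * Real.cos (2 * Real.pi * ∑ j, (k j : ℝ) * x j)) ^ 2
    + (∫ x in cube, v x i * Real.sin (2 * Real.pi * ∑ j, (k j : ℝ) * x j)) ^ 2)

/-- the square of the norm of `H^s` -/
noncomputable def hs (s : ℝ) (v : V → V) : ℝ≥0∞ :=
  ∑' k : Fin 3 → ℤ, ENNReal.ofReal ((1 + ∑ j, (k j : ℝ) ^ 2) ^ s * fq v k)

/-- Sobolev norms of finite combinations of the rescaled fields -/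
def S_hs : Prop := ∀ (p : ℕ) (s : ℝ), 1 ≤ p → 0 ≤ s → ∃ C : ℝ, 0 ≤ C ∧ ∀ (d : ℕ → ℝ) (M : ℕ),
  hs s (fun x i => ∑ m ∈ Finset.range M, d m * phi m ((p : ℝ) • x) i)
    ≤ ENNReal.ofReal (C * ∑ m ∈ Finset.range M, (RR m : ℝ) ^ (4 * s) * d m ^ 2)

/-- Bessel's inequality in Sobolev spaces -/
def S_hsb : Prop := ∀ (p : ℕ) (s : ℝ), 1 ≤ p → 0 ≤ s → ∃ C : ℝ, 0 ≤ C ∧ ∀ f : V → V,
  (∀ i, SP (fun x => f x i)) → ∀ M : ℕ, ENNReal.ofReal (∑ m ∈ Finset.range M,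
    (RR m : ℝ) ^ (4 * s) * (∑ i, ∫ x in cube, f x i * phi m ((p : ℝ) • x) i) ^ 2)
    ≤ ENNReal.ofReal C * hs s f

/-- Sobolev norms of smooth fields are finite, and the quadratic inequality -/
def S_hfin : Prop := (∀ (f : V → V) (s : ℝ), (∀ i, SP (fun x => f x i)) → hs s f < ⊤) ∧
  ∀ (f g : V → V) (s : ℝ), (∀ i, SP (fun x => f x i)) → (∀ i, SP (fun x => g x i)) →
    hs s (fun x => f x + g x) ≤ 2 * hs s f + 2 * hs s g

/-- series of the fields with rapidly decreasing coefficients -/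
def S_stat : Prop := ∀ (p : ℕ) (b : ℕ → ℝ), 1 ≤ p →
  (∀ s : ℕ, ∃ K : ℝ, ∀ m, (RR m : ℝ) ^ s * |b m| ≤ K) →
  ∃ G : V → V, (∀ i, SP (fun x => G x i)) ∧ (∀ x, ∑ i, pd i (fun y => G y i) x = 0) ∧
    (∀ x i, HasSum (fun m => b m * phi m ((p : ℝ) • x) i) (G x i)) ∧
    ∀ ε > 0, ∃ L₀, ∀ L, L₀ ≤ L → ∑ i, ∫ x in cube,
      (G x i - ∑ m ∈ Finset.range L, b m * phi m ((p : ℝ) • x) i) ^ 2 < ε

/-- the part of a divergence-free field with frequencies in `(pℤ)³` -/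
def S_avg : Prop := ∀ (p : ℕ) (f : V → V), 1 ≤ p → (∀ i, SP (fun x => f x i)) →
  (∀ x, ∑ i, pd i (fun y => f y i) x = 0) →
  ∃ h : V → V, (∀ i, SP (fun x => h x i)) ∧ (∀ x, ∑ i, pd i (fun y => h y i) x = 0) ∧
    (∀ (j : Fin 3) (x : V), h (x + Pi.single j (1 / (p : ℝ))) = h x) ∧
    (∀ w : V → V, (∀ i, SP (fun x => w x i)) →
      (∀ (j : Fin 3) (x : V), w (x + Pi.single j (1 / (p : ℝ))) = w x) →
      ∑ i, ∫ x in cube, h x i * w x i = ∑ i, ∫ x in cube, f x i * w x i) ∧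
    InSpan (md p) (fun x => f x - h x) ∧ ∀ s : ℝ, hs s (fun x => f x - h x) ≤ hs s f

/-- the orthogonal projection onto the closed span of `Fp phi p` preserves smoothness and is
bounded in all Sobolev spaces -/
def S_projP : Prop := ∀ p : ℕ, 1 ≤ p → ∃ C : ℝ → ℝ, ∀ f : V → V, (∀ i, SP (fun x => f x i)) →
  (∀ x, ∑ i, pd i (fun y => f y i) x = 0) →
  ∃ g : V → V, (∀ i, SP (fun x => g x i)) ∧ (∀ x, ∑ i, pd i (fun y => g y i) x = 0) ∧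
    InSpan (Fp phi p) g ∧ (∀ w ∈ Fp phi p, ∑ i, ∫ x in cube, (f x i - g x i) * w x i = 0) ∧
    ∀ s : ℝ, 0 ≤ s → hs s g ≤ ENNReal.ofReal (C s) * hs s f

end Pool.Agent.H226.GB

end

/-! ## Spec8 -/

section

/-!
Interface, eighth part: all spaces between the closed span of the fields `φ m (p x)` and the space
of the fields which satisfy the constraints `∫ w · cst n i (p x) = 0`.
-/

open MeasureTheory Set Filter Topology
open scoped ContDiff ENNReal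
open H459R3.NS

namespace Pool.Agent.H226.GB

/-- the rescaled fields -/
def Sc (p : ℕ) : Set (V → V) := {w | ∃ m, ∀ x, w x = phi m ((p : ℝ) • x)}

/-- `(u · ∇) v` -/
noncomputable def cv (u v : V → V) (x : V) (i : Fin 3) : ℝ :=
  ∑ j, u x j * pd j (fun y => v y i) x

/-- `Δ u` -/
noncomputable def lp (u : V → V) (x : V) (i : Fin 3) : ℝ := ∑ j, pd j (pd j (fun y => u y i)) x

/-- `(φ i · ∇) φ j + (φ j · ∇) φ i` -/
noncomputable def qq (i j : ℕ) (x : V) (l : Fin 3) : ℝ :=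
  cv (phi i) (phi j) x l + cv (phi j) (phi i) x l

/-- the part of `f` which is orthogonal to the fields `φ m`, `m < n + 2` -/
noncomputable def res (n : ℕ) (f : V → V) (x : V) (l : Fin 3) : ℝ :=
  f x l - ∑ m ∈ Finset.range (n + 2), ip f (phi m) * phi m x l

/-- the constraints of the level `n` -/
noncomputable def cst (n i : ℕ) : V → V :=
  if i ≤ n then res n (qq i n) else if i = n + 1 then res n (lp (phi n)) else 0

/-- admissible sets of test fields -/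
structure Adm (p : ℕ) (Φ : Set (V → V)) : Prop where
  sp : ∀ w ∈ Φ, ∀ i, SP (fun x => w x i)
  div : ∀ w ∈ Φ, ∀ x, ∑ i, pd i (fun y => w y i) x = 0
  sc : Sc p ⊆ Φ
  orth : ∀ w ∈ Φ, ∀ n i, ∑ l, ∫ x in cube, w x l * cst n i ((p : ℝ) • x) l = 0

/-! ### A solution in the small space is a solution in all admissible spaces -/

/-- the time derivative -/
def S_dt : Prop := ∀ (p : ℕ) (ν T : ℝ) (u : ℝ → V → V) (w : V → V), 1 ≤ p →
  IsPr (Sc p) ν T u → (∀ i, SP (fun x => w x i)) →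
  (∀ m, ∑ i, ∫ x in cube, w x i * phi m ((p : ℝ) • x) i = 0) →
  ∀ t ∈ Ioo 0 T, ∑ i, ∫ x in cube, deriv (fun s => u s x i) t * w x i = 0

/-- the viscous term -/
def S_lap : Prop := ∀ (p : ℕ) (u w : V → V), 1 ≤ p → (∀ i, SP (fun x => u x i)) →
  InSpan (Sc p) u → (∀ i, SP (fun x => w x i)) →
  (∀ m, ∑ i, ∫ x in cube, w x i * lp (phi m) ((p : ℝ) • x) i = 0) →
  ∑ i, ∫ x in cube, lp u x i * w x i = 0

/-- the convective term -/
def S_con : Prop := ∀ (p : ℕ) (u w : V → V), 1 ≤ p → (∀ i, SP (fun x => u x i)) →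
  (∀ x, ∑ i, pd i (fun y => u y i) x = 0) → InSpan (Sc p) u → (∀ i, SP (fun x => w x i)) →
  (∀ i j, i ≤ j → ∑ l, ∫ x in cube, w x l * qq i j ((p : ℝ) • x) l = 0) →
  ∑ i, ∫ x in cube, cv u u x i * w x i = 0

/-- the orthogonal projection onto the closed span of the rescaled fields preserves smoothness -/
def S_prS : Prop := ∀ (p : ℕ) (f : V → V), 1 ≤ p → (∀ i, SP (fun x => f x i)) →
  ∃ G : V → V, (∀ i, SP (fun x => G x i)) ∧ (∀ x, ∑ i, pd i (fun y => G y i) x = 0) ∧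
    InSpan (Sc p) G ∧
    (∀ m, ∑ i, ∫ x in cube, (f x i - G x i) * phi m ((p : ℝ) • x) i = 0) ∧
    ∃ b : ℕ → ℝ, (∀ s : ℕ, ∃ K : ℝ, ∀ m, (RR m : ℝ) ^ s * |b m| ≤ K) ∧
      ∀ x i, HasSum (fun m => b m * phi m ((p : ℝ) • x) i) (G x i)

/-- the constraints are smooth and orthogonal to the fields -/
def S_ort : Prop := (∀ n i l, SP (fun x => cst n i x l)) ∧ ∀ n i m, ip (cst n i) (phi m) = 0

/-- enlarging the space -/
def S_adm : Prop := ∀ (p : ℕ) (Φ : Set (V → V)), 1 ≤ p → Adm p Φ →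
  ∀ (ν T : ℝ) (u : ℝ → V → V), IsPr (Sc p) ν T u → IsPr Φ ν T u

/-- the space of the earlier theorem is admissible -/
def S_admF : Prop := ∀ p : ℕ, 1 ≤ p → Adm p (Fp phi p)

/-! ### A solution in an admissible space stays in the small space -/

/-- the condition `u t ∈ closed span` is closed in time -/
def S_clo : Prop := ∀ (Φ Ψ : Set (V → V)), (∀ w ∈ Ψ, ∀ i, SP (fun x => w x i)) →
  ∀ (ν T : ℝ) (u : ℝ → V → V), IsPr Φ ν T u → ∀ t ∈ Ico 0 T, (∀ ε > 0, ∃ s ∈ Ico 0 T, |s - t| < ε ∧ InSpan Ψ (u s)) → InSpan Ψ (u t)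

/-- translation in time -/
def S_tsh : Prop := ∀ (Φ : Set (V → V)) (ν T t₀ : ℝ) (u : ℝ → V → V), IsPr Φ ν T u → 0 ≤ t₀ →
  IsPr Φ ν (T - t₀) (fun t x => u (t₀ + t) x)

/-- rescaling -/
def S_scl : Prop := ∀ (p : ℕ) (ν T : ℝ) (u : ℝ → V → V), 1 ≤ p → IsGal phi (ν * p ^ 2) T u →
  IsPr (Sc p) ν T (fun t x => (p : ℝ)⁻¹ • u t ((p : ℝ) • x))

/-- rescaling, the other direction -/
def S_scl2 : Prop := ∀ (p : ℕ) (ν T : ℝ) (u : ℝ → V → V), 1 ≤ p → IsPr (Sc p) ν T u →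
  IsGal phi (ν * p ^ 2) T (fun t x => (p : ℝ) • u t ((p : ℝ)⁻¹ • x))

/-- local existence for rapidly decreasing coefficients -/
def S_locG : Prop := ∀ (ν : ℝ) (a0 : ℕ → ℝ), 0 ≤ ν →
  (∀ s : ℕ, ∃ K : ℝ, ∀ m, (RR m : ℝ) ^ s * |a0 m| ≤ K) →
  ∃ τ > 0, ∃ u, IsGal phi ν τ u ∧ ∀ x i, HasSum (fun m => a0 m * phi m x i) (u 0 x i)

/-- local existence for all smooth data of the small space -/
def S_locS : Prop := ∀ (p : ℕ) (v₀ : V → V), 1 ≤ p → (∀ i, SP (fun x => v₀ x i)) →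
  InSpan (Sc p) v₀ → ∀ ν, 0 ≤ ν → ∃ τ > 0, ∃ u, IsPr (Sc p) ν τ u ∧ u 0 = v₀

/-- returning to the small space -/
def S_ret : Prop := ∀ (p : ℕ) (Φ : Set (V → V)), 1 ≤ p → Adm p Φ → ∀ (ν T : ℝ) (v : ℝ → V → V),
  0 ≤ ν → IsPr Φ ν T v → InSpan (Sc p) (v 0) → IsPr (Sc p) ν T v

/-! ### Frequencies of the constraints -/

/-- the modes of frequency `k` -/
def am (k : Fin 3 → ℤ) : Set (V → V) :=
  {w | ∃ a : V, (∀ x, w x = Real.cos (2 * Real.pi * ∑ j, (k j : ℝ) * x j) • a) ∨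
    ∀ x, w x = Real.sin (2 * Real.pi * ∑ j, (k j : ℝ) * x j) • a}

/-- the divergence-free modes of frequency `k` -/
def dm (k : Fin 3 → ℤ) : Set (V → V) :=
  {w | ∃ a : V, ∑ j, (k j : ℝ) * a j = 0 ∧
    ((∀ x, w x = Real.cos (2 * Real.pi * ∑ j, (k j : ℝ) * x j) • a) ∨
      ∀ x, w x = Real.sin (2 * Real.pi * ∑ j, (k j : ℝ) * x j) • a)}

/-- trigonometric polynomials with frequencies in `A` -/
def TP (A : Set (Fin 3 → ℤ)) : Submodule ℝ (V → V) := Submodule.span ℝ {w | ∃ k ∈ A, w ∈ am k}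

/-- divergence-free trigonometric polynomials with frequencies in `A` -/
def DP (A : Set (Fin 3 → ℤ)) : Submodule ℝ (V → V) := Submodule.span ℝ {w | ∃ k ∈ A, w ∈ dm k}

/-- the Leray projection of trigonometric polynomials -/
def S_lr : Prop := ∀ (A : Set (Fin 3 → ℤ)) (f : V → V), f ∈ TP A →
  ∃ g ∈ DP A, ∃ q : V → ℝ, SP q ∧ ∀ x i, f x i = g x i + pd i q x

/-- gradients are orthogonal to divergence-free fields, also after rescaling -/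
def S_grd : Prop := ∀ (p : ℕ) (q : V → ℝ) (w : V → V), 1 ≤ p → SP q →
  (∀ i, SP (fun x => w x i)) → (∀ x, ∑ i, pd i (fun y => w y i) x = 0) →
  ∑ i, ∫ x in cube, w x i * pd i q ((p : ℝ) • x) = 0

/-- existence of non-zero Fourier coefficients -/
def S_nz : Prop := (∀ (A : Set (Fin 3 → ℤ)) (f w : V → V), (∀ i, SP (fun x => f x i)) →
    w ∈ TP A → ip w f ≠ 0 → ∃ k ∈ A, fq f k ≠ 0) ∧
  (∀ (A : Set (Fin 3 → ℤ)) (f : V → V), f ∈ TP A → (∀ i, SP (fun x => f x i)) ∧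
    (f ≠ 0 → ip f f ≠ 0)) ∧
  ∀ A : Set (Fin 3 → ℤ), DP A ≤ TP A

/-- the frequencies of the constraints -/
def S_spec : Prop := (∀ n i, cst n i ∈ TP univ) ∧
  (∀ n i, i ≠ n → cst n i ∈ TP {k | (4 : ℤ) ^ (n ^ 3) ≤ |k 2|}) ∧
  ∀ n, ∃ w ∈ TP {k | (4 : ℤ) ^ (n ^ 3) ≤ |k 2|}, (∀ i, SP (fun x => w x i)) ∧
    (∀ x, ∑ i, pd i (fun y => w y i) x = 0) ∧ ip w (cst n n) ≠ 0

end Pool.Agent.H226.GB

end

/-! ## Spec9 -/

section

/-!
Interface, ninth part: blow-up of the critical norms at the maximal time.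
-/

open MeasureTheory Set Filter Topology
open scoped ContDiff ENNReal
open H459R3.NS

namespace Pool.Agent.H226.GB

/-- local existence for the infinite system, the time depends only on `sup R_m^6 |a0 m|` -/
def S_loc1u : Prop := ∀ (c : ℕ → ℕ → ℝ) (p ν : ℕ → ℝ) (C : ℝ), Coef c p ν C → ∀ K6 : ℝ,
  ∃ τ > 0, ∀ a0 : ℕ → ℝ, (∀ s : ℕ, ∃ K : ℝ, ∀ m, (RR m : ℝ) ^ s * |a0 m| ≤ K) →
    (∀ m, (RR m : ℝ) ^ 6 * |a0 m| ≤ K6) →
    ∃ a : ℕ → ℝ → ℝ, Rap a ∧ (∀ m, Continuous (a m)) ∧ (∀ m, a m 0 = a0 m) ∧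
      ∀ t ∈ Ioo 0 τ, ∀ m, HasDerivAt (a m) (FF c p ν a m t) t

/-- a priori bound: if the strain of the lower levels is dominated by the dissipation, the
coefficients stay rapidly decreasing (the bound `K'` does not depend on `T ≤ T₁` and on the
solution) -/
def S_apr : Prop := ∀ (c : ℕ → ℕ → ℝ) (p ν : ℕ → ℝ) (T₁ E K0 Λ : ℝ),
  (∀ n l, n < l → |c n l| ≤ Gm n) → (∀ n, 0 ≤ p n) →
  (∀ s : ℕ, ∃ K : ℝ, ∀ n, p n * (RR (n + 1) : ℝ) ^ s ≤ K) → (∀ n, 0 ≤ ν n) → Monotone ν →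
  0 ≤ T₁ → 0 ≤ E → 0 ≤ K0 → 0 ≤ Λ →
  ∃ K' : ℝ, ∀ (T : ℝ) (a : ℕ → ℝ → ℝ) (S : ℝ → ℝ) (W : ℕ → ℝ → ℝ), 0 ≤ T → T ≤ T₁ →
    Shell c p ν T a S W → S 0 ≤ E → (∀ m, (RR m : ℝ) ^ 12 * tl a S m 0 ≤ K0) →
    (∀ t ∈ Icc 0 T, ∀ m, ∑ n ∈ Finset.range m, Gm n * |a n t| ≤ ν m + Λ) →
    ∀ t ∈ Icc 0 T, ∀ m, (RR m : ℝ) ^ 6 * |a m t| ≤ K'

/-- the strain is dominated by the dissipation if the norm of `H^(1/2)` is bounded (`ν > 0`), or
the norm of `H^r`, `r > 5/2` -/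
def S_str : Prop := (∀ ν K : ℝ, 0 < ν → 0 ≤ K → ∃ Λ : ℝ, 0 ≤ Λ ∧ ∀ a : ℕ → ℝ,
    (∀ m, (RR m : ℝ) * |a m| ≤ K) →
    ∀ m, ∑ n ∈ Finset.range m, Gm n * |a n| ≤ ν * (RR m : ℝ) ^ 4 + Λ) ∧
  ∀ r K : ℝ, 5 / 2 < r → 0 ≤ K → ∃ Λ : ℝ, 0 ≤ Λ ∧ ∀ a : ℕ → ℝ,
    (∀ m, (RR m : ℝ) ^ (2 * r) * |a m| ≤ K) → ∀ m, ∑ n ∈ Finset.range m, Gm n * |a n| ≤ Λ

/-- concatenation -/
def S_glu : Prop := ∀ (φ : ℕ → V → V) (c : ℕ → ℕ → ℝ) (p g : ℕ → ℝ), Basis φ c p g →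
  ∀ (ν T t₀ τ : ℝ) (u U : ℝ → V → V), 0 ≤ ν → 0 ≤ t₀ → t₀ < T → T < t₀ + τ →
    IsGal φ ν T u → IsGal φ ν τ U → U 0 = u t₀ →
    ∃ u' : ℝ → V → V, IsGal φ ν (t₀ + τ) u' ∧ ∀ t ∈ Ico 0 T, u' t = u t

/-- continuation of the solutions in the small space -/
def S_cri : Prop := ∀ (ν T Λ : ℝ) (u : ℝ → V → V), 0 ≤ ν → 0 < T → 0 ≤ Λ → IsGal phi ν T u →
  (∀ t ∈ Ico 0 T, ∀ m, ∑ n ∈ Finset.range m, Gm n * |ip (u t) (phi n)| ≤ ν * gg m + Λ) →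
  ∃ (T' : ℝ) (u' : ℝ → V → V), T < T' ∧ IsGal phi ν T' u' ∧ ∀ t ∈ Ico 0 T, u' t = u t

/-- the norms of a maximal solution in the small space are unbounded -/
def S_bup : Prop := ∀ (p : ℕ) (ν T : ℝ) (u : ℝ → V → V), 1 ≤ p → 0 ≤ ν → 0 < T →
  IsPr (Sc p) ν T u → (∀ T' v, IsPr (Sc p) ν T' v → v 0 = u 0 → T' ≤ T) →
  ∀ r : ℝ, 5 / 2 < r ∨ 0 < ν ∧ 1 / 2 ≤ r → ∀ B : ℝ,
    ∃ t ∈ Ico 0 T, ENNReal.ofReal B < hs r (u t)

end Pool.Agent.H226.GB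

end

/-! ## Spec10 -/

section

/-!
Interface, tenth part: the critical Lebesgue norm at the maximal time.
-/

open MeasureTheory Set Filter Topology
open scoped ContDiff ENNReal
open H459R3.NS

namespace Pool.Agent.H226.GB

/-- bounds of the one-dimensional kernels in `L^(3/2)` -/
def S_ker : Prop := ∃ C : ℝ, 0 ≤ C ∧ ∀ N : ℕ, 1 ≤ N →
  i1 (fun s => |fF N s| ^ (3 / 2 : ℝ)) ≤ C * (N : ℝ) ^ (1 / 2 : ℝ) ∧
  i1 (fun s => |fG N s| ^ (3 / 2 : ℝ)) ≤ C * (N : ℝ) ^ (1 / 2 : ℝ) ∧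
  i1 (fun s => |deriv (fH N) s| ^ (3 / 2 : ℝ)) ≤ C * (N : ℝ) ^ (1 / 2 : ℝ) ∧
  i1 (fun s => |deriv (fF N) s| ^ (3 / 2 : ℝ)) ≤ C * (N : ℝ) ^ (2 : ℝ) ∧
  i1 (fun s => |fH N s| ^ (3 / 2 : ℝ)) ≤ C * (N : ℝ) ^ (-1 : ℝ)

/-- bounds of the fields in `L^(3/2)` -/
def S_l3p : Prop := ∃ C : ℝ, 0 ≤ C ∧ ∀ m i,
  ∫ x in cube, |phi m x i| ^ (3 / 2 : ℝ) ≤ C * (RR m : ℝ) ^ (-(3 / 2) : ℝ)

/-- the norm of `L³` of a maximal solution in the small space is unbounded -/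
def S_bup3 : Prop := ∀ (p : ℕ) (ν T : ℝ) (u : ℝ → V → V), 1 ≤ p → 0 < ν → 0 < T →
  IsPr (Sc p) ν T u → (∀ T' v, IsPr (Sc p) ν T' v → v 0 = u 0 → T' ≤ T) →
  ∀ B : ℝ, ∃ t ∈ Ico 0 T, B < ∫ x in cube, (∑ i, u t x i ^ 2) ^ (3 / 2 : ℝ)

end Pool.Agent.H226.GB

end

/-! ## Spec11 -/

section

/-!
Interface, eleventh part: the criterion of Beale, Kato and Majda.
-/

open MeasureTheory Set Filter Topology
open scoped ContDiff ENNReal
open H459R3.NS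

namespace Pool.Agent.H226.GB

/-- bounds of the one-dimensional kernels in `L¹` -/
def S_ker1 : Prop := ∃ C : ℝ, 0 ≤ C ∧ ∀ N : ℕ, 1 ≤ N →
  i1 (fun s => |fF N s|) ≤ C * (1 + Real.log N) ∧
  i1 (fun s => |fG N s|) ≤ C * (1 + Real.log N) ∧
  i1 (fun s => |fH N s|) ≤ C * (1 + Real.log N) / N

/-- the amplitudes of the pump modes are small -/
def S_ees : Prop := ∃ C : ℝ, 0 ≤ C ∧ ∀ m, 0 ≤ ee' m ∧ ee' m * (RR m : ℝ) ^ 2 ≤ C

/-- the pumps are very small -/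
def S_pex : Prop := ∀ Λ : ℝ, ∃ K : ℝ, ∀ n : ℕ,
  pp n * (RR (n + 1) : ℝ) ^ 12 * Real.exp (Λ * ((n : ℝ) + 2) ^ 10) ≤ K

/-- bound of the stream functions in `L¹` -/
def S_l1 : Prop := ∃ C : ℝ, 0 ≤ C ∧ ∀ m : ℕ,
  (RR m : ℝ) ^ 2 * ∫ x in cube, |th0 m x| ≤ C * ((m : ℝ) + 2) ^ 9

/-- the second component of the vorticity -/
noncomputable def vo1 (f : V → V) (x : V) : ℝ := pd 2 (fun y => f y 0) x - pd 0 (fun y => f y 2) x

/-- a bound of the vorticity bounds the coefficients -/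
def S_vor : Prop := ∃ C : ℝ, 0 ≤ C ∧ ∀ (f : V → V) (B : ℝ), (∀ i, SP (fun x => f x i)) →
  (∀ x, |vo1 f x| ≤ B) → ∀ m : ℕ, (RR m : ℝ) ^ 5 * |ip f (phi m)| ≤ C * ((m : ℝ) + 2) ^ 9 * B

/-- a priori bound: if the integral of the strain of the lower levels grows at most like a power
of `m`, the coefficients stay rapidly decreasing (finite initial data) -/
def S_apr2 : Prop := ∀ (c : ℕ → ℕ → ℝ) (p ν : ℕ → ℝ) (T₁ E Λ : ℝ) (M : ℕ),
  (∀ n l, n < l → |c n l| ≤ Gm n) → (∀ n, 0 ≤ p n) →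
  (∀ Λ : ℝ, ∃ K : ℝ, ∀ n : ℕ,
    p n * (RR (n + 1) : ℝ) ^ 12 * Real.exp (Λ * ((n : ℝ) + 2) ^ 10) ≤ K) →
  (∀ n, 0 ≤ ν n) → Monotone ν → 0 ≤ T₁ → 0 ≤ E → 0 ≤ Λ →
  ∃ K' : ℝ, ∀ (T : ℝ) (a : ℕ → ℝ → ℝ) (S : ℝ → ℝ) (W : ℕ → ℝ → ℝ), 0 ≤ T → T ≤ T₁ →
    Shell c p ν T a S W → S 0 ≤ E → (∀ m, M ≤ m → a m 0 = 0) →
    (∀ t ∈ Icc 0 T, ∀ m : ℕ, ∫ s in (0 : ℝ)..t, ∑ n ∈ Finset.range m, Gm n * |a n s| ≤
      Λ * ((m : ℝ) + 1) ^ 10) →
    ∀ t ∈ Icc 0 T, ∀ m, (RR m : ℝ) ^ 6 * |a m t| ≤ K'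

/-- continuation of the solutions in the small space, finite data -/
def S_cri2 : Prop := ∀ (ν T Λ : ℝ) (M : ℕ) (u : ℝ → V → V), 0 ≤ ν → 0 < T → 0 ≤ Λ →
  IsGal phi ν T u → (∀ m, M ≤ m → ip (u 0) (phi m) = 0) →
  (∀ t ∈ Ico 0 T, ∀ m : ℕ, ∫ s in (0 : ℝ)..t, ∑ n ∈ Finset.range m, Gm n * |ip (u s) (phi n)| ≤
    Λ * ((m : ℝ) + 1) ^ 10) →
  ∃ (T' : ℝ) (u' : ℝ → V → V), T < T' ∧ IsGal phi ν T' u' ∧ ∀ t ∈ Ico 0 T, u' t = u t

/-- the time integral of the maximum of the vorticity of a maximal solution is infinite -/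
def S_bkm : Prop := ∀ (p : ℕ) (ν T : ℝ) (u : ℝ → V → V), 1 ≤ p → 0 ≤ ν → 0 < T →
  IsPr (Sc p) ν T u → u 0 ∈ Submodule.span ℝ (Sc p) →
  (∀ T' v, IsPr (Sc p) ν T' v → v 0 = u 0 → T' ≤ T) →
  ∫⁻ t in Ioo 0 T, ⨆ x, ENNReal.ofReal |vo1 (u t) x| = ⊤

end Pool.Agent.H226.GB

end
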