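import Pool.Agent.H226.GM.S
import Pool.Agent.H226.GM.OdeB

/-! ## Apr -/

section

/-!
A priori bound for the infinite system: if the strain of the lower levels is dominated by the
dissipation, the coefficients stay rapidly decreasing.
-/

open MeasureTheory Set Filter Topology

namespace Pool.Agent.H226.GB

/-- Gronwall's inequality -/
lemma apr_gron {f : ℝ → ℝ} {T L Q : ℝ} (hc : ContinuousOn f (Icc 0 T))
    (hd : ∀ t ∈ Ioo 0 T, ∃ D, HasDerivAt f D t ∧ D ≤ 2 * L * f t + Q) (hL : 0 ≤ L) (hQ : 0 ≤ Q)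
    {t : ℝ} (ht : t ∈ Icc 0 T) : f t ≤ Real.exp (2 * L * t) * (f 0 + Q * t) := by
  have hder : ∀ s ∈ Ioo 0 T, HasDerivAt (fun r => Q * r - Real.exp (-(2 * L) * r) * f r)
      (Q - (Real.exp (-(2 * L) * s) * (-(2 * L)) * f s + Real.exp (-(2 * L) * s) * deriv f s)) s := by
    intro s hs
    obtain ⟨D, hD, -⟩ := hd s hs
    have h1 : HasDerivAt (fun r : ℝ => -(2 * L) * r) (-(2 * L)) s := by
      simpa using (hasDerivAt_id s).const_mul (-(2 * L))
    have h2 := (h1.exp).mul hD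
    have h3 : HasDerivAt (fun r : ℝ => Q * r) Q s := by
      simpa using (hasDerivAt_id s).const_mul Q
    rw [hD.deriv]
    exact h3.sub h2
  have hcont : ContinuousOn (fun r => Q * r - Real.exp (-(2 * L) * r) * f r) (Icc 0 T) := by
    have h1 : ContinuousOn (fun r : ℝ => Real.exp (-(2 * L) * r)) (Icc 0 T) := by fun_prop
    have h2 : ContinuousOn (fun r : ℝ => Q * r) (Icc 0 T) := by fun_prop
    exact h2.sub (h1.mul hc)
  have hmono := mono_of (f := fun r => Q * r - Real.exp (-(2 * L) * r) * f r)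
    (f' := fun s => Q - (Real.exp (-(2 * L) * s) * (-(2 * L)) * f s +
      Real.exp (-(2 * L) * s) * deriv f s)) hcont hder (fun s hs => by
      obtain ⟨D, hD, hDle⟩ := hd s hs
      rw [hD.deriv]
      have he : 0 < Real.exp (-(2 * L) * s) := Real.exp_pos _
      have he1 : Real.exp (-(2 * L) * s) ≤ 1 := by
        rw [Real.exp_le_one_iff]
        have := mul_nonneg hL hs.1.le
        linarith
      have h1 : Real.exp (-(2 * L) * s) * D ≤ Real.exp (-(2 * L) * s) * (2 * L * f s + Q) :=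
        mul_le_mul_of_nonneg_left hDle he.le
      have h2 : Real.exp (-(2 * L) * s) * Q ≤ 1 * Q := mul_le_mul_of_nonneg_right he1 hQ
      have h3 : Real.exp (-(2 * L) * s) * (-(2 * L)) * f s + Real.exp (-(2 * L) * s) * D ≤
          Real.exp (-(2 * L) * s) * Q := by nlinarith
      linarith) (le_refl (0 : ℝ)) ht.1 ht.2
  simp only [mul_zero, Real.exp_zero, one_mul, zero_sub] at hmono
  have h4 : Real.exp (-(2 * L) * t) * f t ≤ f 0 + Q * t := by linarith
  have h5 : f t = Real.exp (2 * L * t) * (Real.exp (-(2 * L) * t) * f t) := by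
    rw [← mul_assoc, ← Real.exp_add]
    have : 2 * L * t + -(2 * L) * t = 0 := by ring
    rw [this, Real.exp_zero, one_mul]
  rw [h5]
  exact mul_le_mul_of_nonneg_left h4 (Real.exp_pos _).le

theorem s_apr : S_apr := by
  intro c p ν T₁ E K0 Λ hcG hp0 hdec hν0 hνm hT₁ hE hK0 hΛ
  obtain ⟨Kp, hKp⟩ := hdec 12
  have hKp0 : 0 ≤ Kp := by
    refine le_trans ?_ (hKp 0)
    have := hp0 0
    have := RR_pos (0 + 1)
    positivity
  obtain ⟨B, hB⟩ : ∃ B : ℝ, B = Real.exp (2 * Λ * T₁) * (K0 + 2 * Kp * E * (E + 1) * T₁) :=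
    ⟨_, rfl⟩
  have hB0 : 0 ≤ B := by rw [hB]; positivity
  refine ⟨B + 1, fun T a S W hT hTT hsh hS0 htl0 hstr t ht m => ?_⟩
  have hsys := hsh.sys0 hT hcG hp0 hν0 hνm
  have h0T : (0 : ℝ) ∈ Icc 0 T := ⟨le_rfl, hT⟩
  obtain ⟨a', ha'⟩ : ∃ a' : ℕ → ℝ → ℝ, a' = fun m => exT T (a m) := ⟨_, rfl⟩
  obtain ⟨S', hS'⟩ : ∃ S' : ℝ → ℝ, S' = exT T S := ⟨_, rfl⟩
  obtain ⟨W', hW'⟩ : ∃ W' : ℕ → ℝ → ℝ, W' = fun m => exT T (W m) := ⟨_, rfl⟩
  rw [← ha', ← hS', ← hW'] at hsys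
  have ea : ∀ m, ∀ s ∈ Icc 0 T, a' m s = a m s := fun m s hs => by
    rw [ha']; exact exT_eq _ hs
  have eS : ∀ s ∈ Icc 0 T, S' s = S s := fun s hs => by rw [hS']; exact exT_eq _ hs
  have etl : ∀ l, ∀ s ∈ Icc 0 T, tl a' S' l s = tl a S l s := fun l s hs => by
    unfold tl
    rw [eS s hs]
    simp_rw [ea _ s hs]
  have htlc : ∀ l, ContinuousOn (tl a' S' l) (Icc 0 T) := fun l => by
    unfold tl
    exact (hsys.contS.sub (continuous_finsetSum _ fun j _ => (hsys.cont j).pow 2)).continuousOn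
  -- the energy
  have hSE : ∀ s ∈ Icc 0 T, S' s ≤ E := by
    intro s hs
    have h1 := apr_gron (f := S') (T := T) (L := 0) (Q := 0) hsys.contS.continuousOn
      (fun r hr => by
        obtain ⟨D, hD, hD'⟩ := hsys.en r hr
        refine ⟨D, hD, ?_⟩
        have := hD' 0
        simp only [Finset.range_zero, Finset.sum_empty, mul_zero] at this
        linarith) le_rfl le_rfl hs
    simp only [mul_zero, zero_mul, Real.exp_zero, one_mul, add_zero] at h1
    rw [eS 0 h0T] at h1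
    exact h1.trans hS0
  have hab : ∀ s ∈ Icc 0 T, ∀ l, a' l s ^ 2 ≤ E := fun s hs l =>
    ((hsys.sq_le_tl hs l).trans (tl_le_S l)).trans (hSE s hs)
  -- the source term
  obtain ⟨Q, hQ⟩ : ∃ Q : ℝ, Q = if m = 0 then 0 else 2 * (p (m - 1) * E * (E + 1)) := ⟨_, rfl⟩
  have hQ0 : 0 ≤ Q := by
    rw [hQ]
    split_ifs
    · exact le_rfl
    · have := hp0 (m - 1)
      positivity
  have hQR : (RR m : ℝ) ^ 12 * Q ≤ 2 * Kp * E * (E + 1) := by
    rw [hQ]
    split_ifs with hm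
    · rw [mul_zero]
      positivity
    · have h1 := hKp (m - 1)
      rw [Nat.sub_add_cancel (Nat.one_le_iff_ne_zero.2 hm)] at h1
      have h2 : 0 ≤ 2 * E * (E + 1) := by positivity
      calc (RR m : ℝ) ^ 12 * (2 * (p (m - 1) * E * (E + 1)))
          = (p (m - 1) * (RR m : ℝ) ^ 12) * (2 * E * (E + 1)) := by ring
        _ ≤ Kp * (2 * E * (E + 1)) := mul_le_mul_of_nonneg_right h1 h2
        _ = _ := by ring
  have hsrc : ∀ s ∈ Icc 0 T, 2 * pm p a' m s * |a' m s| ≤ Q := by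
    intro s hs
    rw [hQ]
    unfold pm
    split_ifs with hm
    · simp
    · have h1 : |a' m s| ≤ E + 1 := by
        refine abs_le_of_sq_le_sq ?_ (by positivity)
        have := hab s hs m
        nlinarith
      have h2 : p (m - 1) * a' (m - 1) s ^ 2 ≤ p (m - 1) * E :=
        mul_le_mul_of_nonneg_left (hab s hs (m - 1)) (hp0 (m - 1))
      have h3 : 0 ≤ p (m - 1) * E := mul_nonneg (hp0 _) hE
      have h4 : p (m - 1) * a' (m - 1) s ^ 2 * |a' m s| ≤ p (m - 1) * E * (E + 1) :=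
        mul_le_mul h2 h1 (abs_nonneg _) h3
      linarith
  -- Gronwall
  have hG := apr_gron (f := tl a' S' m) (T := T) (L := Λ) (Q := Q) (htlc m) (fun s hs => by
    have hs' : s ∈ Icc 0 T := ⟨hs.1.le, hs.2.le⟩
    obtain ⟨D, hD, hD'⟩ := hsys.tl_der_le hs m
    refine ⟨D, hD, hD'.trans ?_⟩
    have h1 : ∑ n ∈ Finset.range m, Gm n * |a' n s| ≤ ν m + Λ := by
      simp_rw [ea _ s hs']
      exact hstr s hs' m
    have h2 := hsys.tl_nonneg hs' m
    have h3 := hsrc s hs'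
    have h4 : (∑ n ∈ Finset.range m, Gm n * |a' n s|) * tl a' S' m s ≤
        (ν m + Λ) * tl a' S' m s := mul_le_mul_of_nonneg_right h1 h2
    linarith) hΛ hQ0 ht
  have hsq : a' m t ^ 2 ≤ tl a' S' m t := hsys.sq_le_tl ht m
  have htT : t ≤ T₁ := ht.2.trans hTT
  have hR := RR_pos m
  have hR12 : 0 < (RR m : ℝ) ^ 12 := by positivity
  have h0 : (RR m : ℝ) ^ 12 * tl a' S' m 0 ≤ K0 := by
    rw [etl m 0 h0T]
    exact htl0 m
  have htl00 : 0 ≤ tl a' S' m 0 := hsys.tl_nonneg h0T m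
  have hfin : (RR m : ℝ) ^ 12 * a' m t ^ 2 ≤ B := by
    have h1 : (RR m : ℝ) ^ 12 * a' m t ^ 2 ≤
        Real.exp (2 * Λ * t) * ((RR m : ℝ) ^ 12 * tl a' S' m 0 + (RR m : ℝ) ^ 12 * Q * t) := by
      calc (RR m : ℝ) ^ 12 * a' m t ^ 2
          ≤ (RR m : ℝ) ^ 12 * (Real.exp (2 * Λ * t) * (tl a' S' m 0 + Q * t)) :=
            mul_le_mul_of_nonneg_left (hsq.trans hG) hR12.le
        _ = _ := by ring
    refine h1.trans ?_
    rw [hB]
    have h2 : Real.exp (2 * Λ * t) ≤ Real.exp (2 * Λ * T₁) :=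
      Real.exp_le_exp.2 (mul_le_mul_of_nonneg_left htT (by positivity))
    have h3 : (RR m : ℝ) ^ 12 * Q * t ≤ 2 * Kp * E * (E + 1) * T₁ :=
      mul_le_mul hQR htT ht.1 (by positivity)
    have h4 : 0 ≤ (RR m : ℝ) ^ 12 * tl a' S' m 0 + (RR m : ℝ) ^ 12 * Q * t := by
      have := ht.1
      positivity
    exact mul_le_mul h2 (by linarith) h4 (Real.exp_pos _).le
  rw [ea m t ht] at hfin
  have h5 : (RR m : ℝ) ^ 6 * |a m t| = |(RR m : ℝ) ^ 6 * a m t| := by
    rw [abs_mul, abs_of_pos (by positivity : (0 : ℝ) < (RR m : ℝ) ^ 6)]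
  rw [h5]
  refine abs_le_of_sq_le_sq ?_ (by positivity)
  calc ((RR m : ℝ) ^ 6 * a m t) ^ 2 = (RR m : ℝ) ^ 12 * a m t ^ 2 := by ring
    _ ≤ B := hfin
    _ ≤ (B + 1) ^ 2 := by nlinarith

end Pool.Agent.H226.GB

end

/-! ## Apr2 -/

section

/-!
A priori bound for the infinite system: if the time integral of the strain of the lower levels
grows at most like a power of `m`, the coefficients stay rapidly decreasing.
-/

open MeasureTheory Set Filter Topology

namespace Pool.Agent.H226.GB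

/-- Gronwall's inequality with a variable coefficient -/
lemma apr2_gron {f L : ℝ → ℝ} {T Q : ℝ} (hLc : Continuous L) (hc : ContinuousOn f (Icc 0 T))
    (hd : ∀ t ∈ Ioo 0 T, ∃ D, HasDerivAt f D t ∧ D ≤ 2 * L t * f t + Q) (hL : ∀ t, 0 ≤ L t)
    (hQ : 0 ≤ Q) {t : ℝ} (ht : t ∈ Icc 0 T) :
    f t ≤ Real.exp (2 * ∫ s in (0 : ℝ)..t, L s) * (f 0 + Q * t) := by
  obtain ⟨I, hI⟩ : ∃ I : ℝ → ℝ, I = fun r => ∫ s in (0 : ℝ)..r, L s := ⟨_, rfl⟩
  have hId : ∀ r, HasDerivAt I (L r) r := fun r => by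
    rw [hI]
    exact intervalIntegral.integral_hasDerivAt_right (hLc.intervalIntegrable _ _)
      (hLc.stronglyMeasurableAtFilter _ _) hLc.continuousAt
  have hI0 : I 0 = 0 := by rw [hI]; simp
  have hIc : Continuous I := continuous_iff_continuousAt.2 fun r => (hId r).continuousAt
  have hIn : ∀ r, 0 ≤ r → 0 ≤ I r := fun r hr => by
    rw [hI]
    exact intervalIntegral.integral_nonneg hr fun s _ => hL s
  have hder : ∀ s ∈ Ioo 0 T, HasDerivAt (fun r => Q * r - Real.exp (-(2 * I r)) * f r)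
      (Q - (Real.exp (-(2 * I s)) * (-(2 * L s)) * f s + Real.exp (-(2 * I s)) * deriv f s)) s := by
    intro s hs
    obtain ⟨D, hD, -⟩ := hd s hs
    have h1 : HasDerivAt (fun r : ℝ => -(2 * I r)) (-(2 * L s)) s :=
      ((hId s).const_mul 2).neg
    have h2 := (h1.exp).mul hD
    have h3 : HasDerivAt (fun r : ℝ => Q * r) Q s := by
      simpa using (hasDerivAt_id s).const_mul Q
    rw [hD.deriv]
    exact h3.sub h2
  have hcont : ContinuousOn (fun r => Q * r - Real.exp (-(2 * I r)) * f r) (Icc 0 T) := by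
    have h1 : ContinuousOn (fun r : ℝ => Real.exp (-(2 * I r))) (Icc 0 T) :=
      (Real.continuous_exp.comp (continuous_const.mul hIc).neg).continuousOn
    have h2 : ContinuousOn (fun r : ℝ => Q * r) (Icc 0 T) := by fun_prop
    exact h2.sub (h1.mul hc)
  have hmono := mono_of (f := fun r => Q * r - Real.exp (-(2 * I r)) * f r)
    (f' := fun s => Q - (Real.exp (-(2 * I s)) * (-(2 * L s)) * f s +
      Real.exp (-(2 * I s)) * deriv f s)) hcont hder (fun s hs => by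
      obtain ⟨D, hD, hDle⟩ := hd s hs
      rw [hD.deriv]
      have he : 0 < Real.exp (-(2 * I s)) := Real.exp_pos _
      have he1 : Real.exp (-(2 * I s)) ≤ 1 := by
        rw [Real.exp_le_one_iff]
        have := hIn s hs.1.le
        linarith
      have h1 : Real.exp (-(2 * I s)) * D ≤ Real.exp (-(2 * I s)) * (2 * L s * f s + Q) :=
        mul_le_mul_of_nonneg_left hDle he.le
      have h2 : Real.exp (-(2 * I s)) * Q ≤ 1 * Q := mul_le_mul_of_nonneg_right he1 hQ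
      have h3 : Real.exp (-(2 * I s)) * (-(2 * L s)) * f s + Real.exp (-(2 * I s)) * D ≤
          Real.exp (-(2 * I s)) * Q := by nlinarith
      linarith) (le_refl (0 : ℝ)) ht.1 ht.2
  simp only [hI0, mul_zero, neg_zero, Real.exp_zero, one_mul, zero_sub] at hmono
  have h4 : Real.exp (-(2 * I t)) * f t ≤ f 0 + Q * t := by linarith
  have h5 : f t = Real.exp (2 * I t) * (Real.exp (-(2 * I t)) * f t) := by
    rw [← mul_assoc, ← Real.exp_add]
    have : 2 * I t + -(2 * I t) = 0 := by ring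
    rw [this, Real.exp_zero, one_mul]
  have h6 : (∫ s in (0 : ℝ)..t, L s) = I t := by rw [hI]
  rw [h6, h5]
  exact mul_le_mul_of_nonneg_left h4 (Real.exp_pos _).le

lemma apr2_RR {m M : ℕ} (h : m ≤ M) : (RR m : ℝ) ≤ RR M := by
  have : RR m ≤ RR M := by
    unfold RR
    exact Nat.pow_le_pow_right (by norm_num) (Nat.pow_le_pow_left (by omega) 3)
  exact_mod_cast this

theorem s_apr2 : S_apr2 := by
  intro c p ν T₁ E Λ M hcG hp0 hdec hν0 hνm hT₁ hE hΛ
  obtain ⟨Kp, hKp⟩ := hdec (2 * Λ)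
  have hKp0 : 0 ≤ Kp := by
    refine le_trans ?_ (hKp 0)
    have := hp0 0
    have := RR_pos (0 + 1)
    positivity
  obtain ⟨B, hB⟩ : ∃ B : ℝ, B = (RR M : ℝ) ^ 12 * Real.exp (2 * Λ * ((M : ℝ) + 1) ^ 10) * E +
      2 * Kp * E * (E + 1) * T₁ := ⟨_, rfl⟩
  have hB0 : 0 ≤ B := by rw [hB]; positivity
  refine ⟨B + 1, fun T a S W hT hTT hsh hS0 hz0 hstr t ht m => ?_⟩
  have hsys := hsh.sys0 hT hcG hp0 hν0 hνm
  have h0T : (0 : ℝ) ∈ Icc 0 T := ⟨le_rfl, hT⟩
  obtain ⟨a', ha'⟩ : ∃ a' : ℕ → ℝ → ℝ, a' = fun m => exT T (a m) := ⟨_, rfl⟩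
  obtain ⟨S', hS'⟩ : ∃ S' : ℝ → ℝ, S' = exT T S := ⟨_, rfl⟩
  obtain ⟨W', hW'⟩ : ∃ W' : ℕ → ℝ → ℝ, W' = fun m => exT T (W m) := ⟨_, rfl⟩
  rw [← ha', ← hS', ← hW'] at hsys
  have ea : ∀ m, ∀ s ∈ Icc 0 T, a' m s = a m s := fun m s hs => by
    rw [ha']; exact exT_eq _ hs
  have eS : ∀ s ∈ Icc 0 T, S' s = S s := fun s hs => by rw [hS']; exact exT_eq _ hs
  have htlc : ∀ l, ContinuousOn (tl a' S' l) (Icc 0 T) := fun l => by
    unfold tl
    exact (hsys.contS.sub (continuous_finsetSum _ fun j _ => (hsys.cont j).pow 2)).continuousOn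
  -- the energy
  have hSE : ∀ s ∈ Icc 0 T, S' s ≤ E := by
    intro s hs
    have h1 := apr2_gron (f := S') (T := T) (L := fun _ => 0) (Q := 0) continuous_const
      hsys.contS.continuousOn
      (fun r hr => by
        obtain ⟨D, hD, hD'⟩ := hsys.en r hr
        refine ⟨D, hD, ?_⟩
        have := hD' 0
        simp only [Finset.range_zero, Finset.sum_empty, mul_zero] at this
        linarith) (fun _ => le_rfl) le_rfl hs
    simp only [intervalIntegral.integral_zero, mul_zero, zero_mul, Real.exp_zero, one_mul,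
      add_zero] at h1
    rw [eS 0 h0T] at h1
    exact h1.trans hS0
  have hab : ∀ s ∈ Icc 0 T, ∀ l, a' l s ^ 2 ≤ E := fun s hs l =>
    ((hsys.sq_le_tl hs l).trans (tl_le_S l)).trans (hSE s hs)
  -- the source term
  obtain ⟨Q, hQ⟩ : ∃ Q : ℝ, Q = if m = 0 then 0 else 2 * (p (m - 1) * E * (E + 1)) := ⟨_, rfl⟩
  have hQ0 : 0 ≤ Q := by
    rw [hQ]
    split_ifs
    · exact le_rfl
    · have := hp0 (m - 1)
      positivity
  have hQR : (RR m : ℝ) ^ 12 * Real.exp (2 * Λ * ((m : ℝ) + 1) ^ 10) * Q ≤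
      2 * Kp * E * (E + 1) := by
    rw [hQ]
    split_ifs with hm
    · rw [mul_zero]
      positivity
    · have hm1 : 1 ≤ m := Nat.one_le_iff_ne_zero.2 hm
      have h1 := hKp (m - 1)
      rw [Nat.sub_add_cancel hm1] at h1
      have h3 : ((m - 1 : ℕ) : ℝ) + 2 = (m : ℝ) + 1 := by
        rw [Nat.cast_sub hm1]; push_cast; ring
      rw [h3] at h1
      have h2 : 0 ≤ 2 * E * (E + 1) := by positivity
      calc (RR m : ℝ) ^ 12 * Real.exp (2 * Λ * ((m : ℝ) + 1) ^ 10) *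
            (2 * (p (m - 1) * E * (E + 1)))
          = (p (m - 1) * (RR m : ℝ) ^ 12 * Real.exp (2 * Λ * ((m : ℝ) + 1) ^ 10)) *
            (2 * E * (E + 1)) := by ring
        _ ≤ Kp * (2 * E * (E + 1)) := mul_le_mul_of_nonneg_right h1 h2
        _ = _ := by ring
  have hsrc : ∀ s ∈ Icc 0 T, 2 * pm p a' m s * |a' m s| ≤ Q := by
    intro s hs
    rw [hQ]
    unfold pm
    split_ifs with hm
    · simp
    · have h1 : |a' m s| ≤ E + 1 := by
        refine abs_le_of_sq_le_sq ?_ (by positivity)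
        have := hab s hs m
        nlinarith
      have h2 : p (m - 1) * a' (m - 1) s ^ 2 ≤ p (m - 1) * E :=
        mul_le_mul_of_nonneg_left (hab s hs (m - 1)) (hp0 (m - 1))
      have h3 : 0 ≤ p (m - 1) * E := mul_nonneg (hp0 _) hE
      have h4 : p (m - 1) * a' (m - 1) s ^ 2 * |a' m s| ≤ p (m - 1) * E * (E + 1) :=
        mul_le_mul h2 h1 (abs_nonneg _) h3
      linarith
  -- the initial value
  have htl00 : 0 ≤ tl a' S' m 0 := hsys.tl_nonneg h0T m
  have h0 : (RR m : ℝ) ^ 12 * Real.exp (2 * Λ * ((m : ℝ) + 1) ^ 10) * tl a' S' m 0 ≤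
      (RR M : ℝ) ^ 12 * Real.exp (2 * Λ * ((M : ℝ) + 1) ^ 10) * E := by
    rcases le_total M m with hMm | hmM
    · have h1 : tl a' S' m 0 = 0 := by
        have h2 : HasSum (fun j => a' j 0 ^ 2) (∑ j ∈ Finset.range m, a' j 0 ^ 2) :=
          hasSum_sum_of_ne_finset_zero fun j hj => by
            rw [Finset.mem_range, not_lt] at hj
            rw [ea j 0 h0T, hz0 j (hMm.trans hj)]
            norm_num
        have h3 := (hsys.sum 0 h0T).unique h2
        unfold tl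
        rw [h3, sub_self]
      rw [h1, mul_zero]
      positivity
    · have h1 : tl a' S' m 0 ≤ E := (tl_le_S m).trans (hSE 0 h0T)
      have h2 : (RR m : ℝ) ^ 12 ≤ (RR M : ℝ) ^ 12 :=
        pow_le_pow_left₀ (Nat.cast_nonneg _) (apr2_RR hmM) 12
      have h3 : ((m : ℝ) + 1) ^ 10 ≤ ((M : ℝ) + 1) ^ 10 := by
        have : (m : ℝ) ≤ M := by exact_mod_cast hmM
        exact pow_le_pow_left₀ (by positivity) (by linarith) 10
      have h4 : Real.exp (2 * Λ * ((m : ℝ) + 1) ^ 10) ≤ Real.exp (2 * Λ * ((M : ℝ) + 1) ^ 10) :=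
        Real.exp_le_exp.2 (mul_le_mul_of_nonneg_left h3 (by positivity))
      exact mul_le_mul (mul_le_mul h2 h4 (Real.exp_pos _).le (by positivity)) h1 htl00
        (by positivity)
  -- Gronwall
  obtain ⟨L, hL⟩ : ∃ L : ℝ → ℝ, L = fun s => ∑ n ∈ Finset.range m, Gm n * |a' n s| := ⟨_, rfl⟩
  have hGm : ∀ n, 0 ≤ Gm n := fun n => by unfold Gm; positivity
  have hLc : Continuous L := by
    rw [hL]
    exact continuous_finsetSum _ fun n _ => continuous_const.mul (hsys.cont n).abs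
  have hL0 : ∀ s, 0 ≤ L s := fun s => by
    rw [hL]
    exact Finset.sum_nonneg fun n _ => mul_nonneg (hGm n) (abs_nonneg _)
  have hLint : ∫ s in (0 : ℝ)..t, L s ≤ Λ * ((m : ℝ) + 1) ^ 10 := by
    have h1 := hstr t ht m
    have h2 : ∫ s in (0 : ℝ)..t, L s = ∫ s in (0 : ℝ)..t, ∑ n ∈ Finset.range m, Gm n * |a n s| := by
      refine intervalIntegral.integral_congr fun s hs => ?_
      rw [uIcc_of_le ht.1] at hs
      have hs' : s ∈ Icc 0 T := ⟨hs.1, hs.2.trans ht.2⟩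
      simp only [hL]
      exact Finset.sum_congr rfl fun n _ => by rw [ea n s hs']
    rw [h2]
    exact h1
  have hG := apr2_gron (f := tl a' S' m) (T := T) (L := L) (Q := Q) hLc (htlc m) (fun s hs => by
    have hs' : s ∈ Icc 0 T := ⟨hs.1.le, hs.2.le⟩
    obtain ⟨D, hD, hD'⟩ := hsys.tl_der_le hs m
    refine ⟨D, hD, hD'.trans ?_⟩
    have h2 := hsys.tl_nonneg hs' m
    have h3 := hsrc s hs'
    have h4 : 0 ≤ ν m * tl a' S' m s := mul_nonneg (hν0 m) h2
    have h5 : L s = ∑ n ∈ Finset.range m, Gm n * |a' n s| := by rw [hL]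
    rw [h5]
    linarith) hL0 hQ0 ht
  have hsq : a' m t ^ 2 ≤ tl a' S' m t := hsys.sq_le_tl ht m
  have htT : t ≤ T₁ := ht.2.trans hTT
  have hR := RR_pos m
  have hR12 : 0 < (RR m : ℝ) ^ 12 := by positivity
  have hexp : Real.exp (2 * ∫ s in (0 : ℝ)..t, L s) ≤ Real.exp (2 * Λ * ((m : ℝ) + 1) ^ 10) := by
    refine Real.exp_le_exp.2 ?_
    linarith
  have hfin : (RR m : ℝ) ^ 12 * a' m t ^ 2 ≤ B := by
    have h4 : 0 ≤ tl a' S' m 0 + Q * t := by
      have := ht.1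
      positivity
    have h1 : (RR m : ℝ) ^ 12 * a' m t ^ 2 ≤
        (RR m : ℝ) ^ 12 * (Real.exp (2 * Λ * ((m : ℝ) + 1) ^ 10) * (tl a' S' m 0 + Q * t)) :=
      mul_le_mul_of_nonneg_left ((hsq.trans hG).trans (mul_le_mul_of_nonneg_right hexp h4)) hR12.le
    have h3 : (RR m : ℝ) ^ 12 * Real.exp (2 * Λ * ((m : ℝ) + 1) ^ 10) * Q * t ≤
        2 * Kp * E * (E + 1) * T₁ := mul_le_mul hQR htT ht.1 (by positivity)
    calc (RR m : ℝ) ^ 12 * a' m t ^ 2 ≤
        (RR m : ℝ) ^ 12 * (Real.exp (2 * Λ * ((m : ℝ) + 1) ^ 10) * (tl a' S' m 0 + Q * t)) := h1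
      _ = (RR m : ℝ) ^ 12 * Real.exp (2 * Λ * ((m : ℝ) + 1) ^ 10) * tl a' S' m 0 +
          (RR m : ℝ) ^ 12 * Real.exp (2 * Λ * ((m : ℝ) + 1) ^ 10) * Q * t := by ring
      _ ≤ B := by rw [hB]; exact add_le_add h0 h3
  rw [ea m t ht] at hfin
  have h5 : (RR m : ℝ) ^ 6 * |a m t| = |(RR m : ℝ) ^ 6 * a m t| := by
    rw [abs_mul, abs_of_pos (by positivity : (0 : ℝ) < (RR m : ℝ) ^ 6)]
  rw [h5]
  refine abs_le_of_sq_le_sq ?_ (by positivity)
  calc ((RR m : ℝ) ^ 6 * a m t) ^ 2 = (RR m : ℝ) ^ 12 * a m t ^ 2 := by ring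
    _ ≤ B := hfin
    _ ≤ (B + 1) ^ 2 := by nlinarith

end Pool.Agent.H226.GB

end
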