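import Pool.Agent.H226.GM.OdeB
import Pool.Agent.H226.GM.S

/-! ## Ode8 -/

section

/-!
Blow-up for the infinite system: scaling.
-/

open MeasureTheory Set Filter Topology

namespace Pool.Agent.H226.GB

section

variable {c : ℕ → ℕ → ℝ} {p ν : ℕ → ℝ} {T : ℝ} {a : ℕ → ℝ → ℝ} {S : ℝ → ℝ} {W : ℕ → ℝ → ℝ}

lemma Shell.mono (h : Shell c p ν T a S W) {T' : ℝ} (hT : T' ≤ T) : Shell c p ν T' a S W :=
  ⟨fun m => (h.cont m).mono (Icc_subset_Icc le_rfl hT), h.contS.mono (Icc_subset_Icc le_rfl hT),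
    fun t ht => h.sum t ⟨ht.1, ht.2.trans hT⟩, fun t ht => h.sumW t ⟨ht.1, ht.2.trans hT⟩,
    fun t ht => h.der t ⟨ht.1, ht.2.trans_le hT⟩, fun t ht => h.en t ⟨ht.1, ht.2.trans_le hT⟩⟩

/-- the scaling `a ↦ A⁻¹ a (A⁻¹ t)` -/
lemma Shell.scale (h : Shell c p ν T a S W) {A : ℝ} (hA : 0 < A) :
    Shell c p (fun m => ν m / A) (A * T) (fun m t => a m (t / A) / A) (fun t => S (t / A) / A ^ 2)
      (fun m t => W m (t / A) / A ^ 2) := by
  have hm : ∀ t ∈ Icc 0 (A * T), t / A ∈ Icc 0 T := fun t ht =>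
    ⟨div_nonneg ht.1 hA.le, by rw [div_le_iff₀ hA]; linarith [ht.2]⟩
  have hm' : ∀ t ∈ Ioo 0 (A * T), t / A ∈ Ioo 0 T := fun t ht =>
    ⟨div_pos ht.1 hA, by rw [div_lt_iff₀ hA]; linarith [ht.2]⟩
  have hd : ContinuousOn (fun t : ℝ => t / A) (Icc 0 (A * T)) :=
    (continuous_id.div_const A).continuousOn
  have hdd : ∀ t : ℝ, HasDerivAt (fun t : ℝ => t / A) (1 / A) t := fun t =>
    (hasDerivAt_id t).div_const A
  refine ⟨fun m => ((h.cont m).comp hd hm).div_const A, (h.contS.comp hd hm).div_const _,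
    fun t ht => ?_, fun t ht m => ?_, fun t ht m => ?_, fun t ht => ?_⟩
  · have h1 := (h.sum _ (hm t ht)).div_const (A ^ 2)
    simpa only [div_pow] using h1
  · have h1 := (h.sumW _ (hm t ht) m).div_const (A ^ 2)
    have e : (fun l => (if m < l then c m l * a l (t / A) ^ 2 else 0) / A ^ 2)
        = fun l => if m < l then c m l * (a l (t / A) / A) ^ 2 else 0 := by
      funext l
      by_cases hl : m < l
      · rw [if_pos hl, if_pos hl, div_pow, mul_div_assoc]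
      · rw [if_neg hl, if_neg hl, zero_div]
    rw [e] at h1
    exact h1
  · have h1 := ((h.der _ (hm' t ht) m).comp t (hdd t)).div_const A
    refine h1.congr_deriv ?_
    have e1 : ∑ n ∈ Finset.range m, c n m * (a n (t / A) / A)
        = (∑ n ∈ Finset.range m, c n m * a n (t / A)) / A := by
      rw [Finset.sum_div]
      exact Finset.sum_congr rfl fun n _ => by rw [mul_div_assoc]
    have e2 : pm p (fun m t => a m (t / A) / A) m t = pm p a m (t / A) / A ^ 2 := by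
      unfold pm
      split_ifs
      · rw [zero_div]
      · rw [div_pow, mul_div_assoc]
    rw [e1, e2]
    have hA' : A ≠ 0 := hA.ne'
    field_simp
  · obtain ⟨S', h1, h2⟩ := h.en _ (hm' t ht)
    refine ⟨S' * (1 / A) / A ^ 2, (h1.comp t (hdd t)).div_const _, fun L => ?_⟩
    have h3 := h2 L
    have e1 : ∑ m ∈ Finset.range L, ν m / A * (a m (t / A) / A) ^ 2
        = (∑ m ∈ Finset.range L, ν m * a m (t / A) ^ 2) / A ^ 3 := by
      rw [Finset.sum_div]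
      refine Finset.sum_congr rfl fun n _ => ?_
      have hA' : A ≠ 0 := hA.ne'
      field_simp
    rw [e1]
    have e2 : S' * (1 / A) / A ^ 2 = S' / A ^ 3 := by
      have hA' : A ≠ 0 := hA.ne'
      field_simp
    rw [e2, ← mul_div_assoc]
    gcongr

end

lemma ode8_sq_small {x y : ℝ} (hx : 0 < x) (hx2 : x ≤ 1 / 2) (hy : 0 < y) (hy2 : y ≤ 1 / 2) :
    x ^ 2 + y ^ 2 ≤ 1 := by
  nlinarith

/-- **blow-up before the time `T`**: the modes below `L` are arbitrary, the modes between `L` and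
`m₀` vanish, the mode `m₀` is `al m₀ / A` and the next one is `rr m₀ / A`. -/
theorem blow2 (hplan : S_plan) (hgrow : S_grow) (hlow : S_low) (hnum : S_num) {K T B : ℝ}
    (hK : 0 ≤ K) (hT : 0 < T) (hB : 0 ≤ B) {L q : ℕ} (hL : 1 ≤ L) (hq : 1 ≤ q) :
    ∃ m1 : ℕ, L + 1 ≤ m1 ∧ 3 ≤ m1 ∧ ∀ m0, m1 ≤ m0 → ∀ A : ℝ, 1 ≤ A →
      A ≤ 2 ^ (5 * (m0 + 2) ^ 3 - (m0 + 2) ^ 3 / q) →
      K * A ≤ K * 2 ^ ((m0 + 2) ^ 3 - (m0 + 2) ^ 3 / q) →
      ∀ (c : ℕ → ℕ → ℝ) (p ν : ℕ → ℝ) (a : ℕ → ℝ → ℝ) (S : ℝ → ℝ) (W : ℕ → ℝ → ℝ), CH c p ν K →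
      (∀ n l, n < l → |c n l| ≤ Gm n) → (∀ n, 0 ≤ p n) → (∀ n, p n ≤ Real.exp (-bb n)) →
      (∀ n, 0 ≤ ν n) → Monotone ν →
      Shell c p ν T a S W → S 0 ≤ B ^ 2 → (∀ m, L ≤ m → m < m0 → a m 0 = 0) →
      a m0 0 = al m0 / A → a (m0 + 1) 0 = rr m0 / A → (∀ m, m0 + 2 ≤ m → a m 0 = 0) →
      ¬∃ B, ∀ t ∈ Icc 0 T, ∀ m, (RR m : ℝ) * |a m t| ≤ B := by
  obtain ⟨⟨C0, hC0⟩, hnum⟩ := hnum
  have hC00 : 0 ≤ C0 := by simpa using hC0 0
  set C : ℝ := (∑ n ∈ Finset.range L, Gm n * B) + 2 * T * B ^ 2 * C0 + 16 * (T * B ^ 2) with hC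
  have hs0 : 0 ≤ ∑ n ∈ Finset.range L, Gm n * B :=
    Finset.sum_nonneg fun n _ => mul_nonneg (Gm_pos n).le hB
  have hTB : 0 ≤ T * B ^ 2 := mul_nonneg hT.le (sq_nonneg B)
  have hTC : 0 ≤ 2 * T * B ^ 2 * C0 := by
    have : 0 ≤ T * B ^ 2 * C0 := mul_nonneg hTB hC00
    linarith
  have hCn : 0 ≤ C := by linarith
  obtain ⟨m1, hm1, h1⟩ := hnum K C T q hK hCn hT hq
  refine ⟨max m1 (L + 1), le_max_right _ _, hm1.trans (le_max_left _ _),
    fun m0 hm0 A hA hA5 hKA c p ν a S W hc hcG hp0 hp1 hν0 hνm hsh hS h00 h01 h02 h03 hbd => ?_⟩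
  obtain ⟨B', hB'⟩ := hbd
  obtain ⟨hPar, hSG, hτ1, hA'⟩ := h1 m0 ((le_max_left _ _).trans hm0)
  have hLm : L + 1 ≤ m0 := (le_max_right _ _).trans hm0
  have hm03 : 3 ≤ m0 := hm1.trans ((le_max_left _ _).trans hm0)
  have hA0 : 0 < A := zero_lt_one.trans_le hA
  have hA1 : A ≠ 0 := hA0.ne'
  obtain ⟨k1, k2, k3⟩ := hA' A hA0.le hA5
  have hτ0 : 0 < tau m0 := by unfold tau; positivity
  obtain ⟨α, hα⟩ : ∃ α, α = 1 / A := ⟨_, rfl⟩
  have hα0 : 0 < α := by rw [hα]; positivity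
  have hα1 : α ≠ 0 := hα0.ne'
  have hαA : α * A = 1 := by rw [hα]; field_simp
  obtain ⟨T', hT'⟩ : ∃ T', T' = tau m0 * A := ⟨_, rfl⟩
  have hT'0 : 0 < T' := by rw [hT']; positivity
  have hT'T : T' ≤ T := by rw [hT']; exact k3
  have hαT : α * T' = tau m0 := by rw [hT', hα]; field_simp
  have hsh' := hsh.mono hT'T
  have h0T : (0 : ℝ) ∈ Icc 0 T' := ⟨le_rfl, hT'0.le⟩
  -- the small initial energy of the higher levels
  have hal := al_le m0
  have hal0 := al_pos m0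
  have hrr0 := rr_pos m0
  have hsmall : al m0 ^ 2 + rr m0 ^ 2 ≤ 1 := by
    have e1 : al m0 ≤ 1 / 2 := by
      unfold al
      calc (1 / 2 ^ 29 : ℝ) ^ m0 ≤ (1 / 2 ^ 29) ^ 1 :=
            pow_le_pow_of_le_one (by norm_num) (by norm_num) (by omega)
        _ ≤ 1 / 2 := by norm_num
    have e2 := rr_le m0
    exact ode8_sq_small hal0 e1 hrr0 e2
  have hSL : S 0 - ∑ j ∈ Finset.range L, a j 0 ^ 2 ≤ α ^ 2 := by
    have e1 := hsh.sum 0 ⟨le_rfl, hT.le⟩
    have e2 : HasSum (fun j => a j 0 ^ 2) (∑ j ∈ Finset.range (m0 + 2), a j 0 ^ 2) :=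
      hasSum_sum_of_ne_finset_zero fun k hk => by
        rw [Finset.mem_range] at hk
        rw [h03 k (by omega)]
        norm_num
    rw [e1.unique e2, ← Finset.sum_range_add_sum_Ico _ (show L ≤ m0 + 2 by omega),
      add_sub_cancel_left, Finset.sum_Ico_succ_top (by omega), Finset.sum_Ico_succ_top (by omega)]
    have e3 : ∑ j ∈ Finset.Ico L m0, a j 0 ^ 2 = 0 :=
      Finset.sum_eq_zero fun j hj => by
        rw [h00 j (Finset.mem_Ico.1 hj).1 (Finset.mem_Ico.1 hj).2]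
        norm_num
    rw [e3, h01, h02, zero_add, div_pow, div_pow, ← add_div, div_le_iff₀ (by positivity)]
    have e4 : α ^ 2 * A ^ 2 = 1 := by rw [← mul_pow, hαA, one_pow]
    rw [e4]
    exact hsmall
  -- control of the lower levels
  have hsys0 := hsh'.sys0 hT'0.le hcG hp0 hν0 hνm
  have hctl : ∀ t ∈ Icc 0 T', tl a S (m0 - 1) t ≤ 2 * α ^ 2 ∧
      ∑ n ∈ Finset.range (m0 - 1), Gm n * |a n t| ≤ 2 * α * SG (m0 - 1) := by
    have h2 := hlow c p ν T' _ _ _ L (m0 - 1) B α hsys0 hT'0.le hα0 hB hL (by omega) (by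
      rw [exT_eq _ h0T]; exact hS) (by
      unfold tl
      rw [exT_eq _ h0T]
      simp_rw [exT_eq _ h0T]
      exact hSL) (by
      calc 2 * α * SG (m0 - 1) * T' = 2 * SG (m0 - 1) * (α * T') := by ring
        _ ≤ 1 / 8 := by rw [hαT]; exact hSG) (by
      have e1 : ∑ n ∈ Finset.range (m0 - 1), Gm n * (if n = 0 then 0 else p (n - 1)) ≤ C0 := by
        refine le_trans (Finset.sum_le_sum fun n _ => ?_) (hC0 (m0 - 1))
        refine mul_le_mul_of_nonneg_left ?_ (Gm_pos n).le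
        split_ifs
        · exact le_rfl
        · exact hp1 _
      have e2 : 0 ≤ ∑ n ∈ Finset.range (m0 - 1), Gm n * (if n = 0 then 0 else p (n - 1)) := by
        refine Finset.sum_nonneg fun n _ => mul_nonneg (Gm_pos n).le ?_
        split_ifs
        · exact le_rfl
        · exact hp0 _
      have e3 : 2 * T' * B ^ 2 * ∑ n ∈ Finset.range (m0 - 1),
          Gm n * (if n = 0 then 0 else p (n - 1)) ≤ 2 * T * B ^ 2 * C0 := by
        refine mul_le_mul ?_ e1 e2 (by positivity)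
        exact mul_le_mul_of_nonneg_right
          (mul_le_mul_of_nonneg_left hT'T zero_le_two) (sq_nonneg B)
      have e4 : (∑ n ∈ Finset.range L, Gm n * B) + 2 * T * B ^ 2 * C0 ≤ C := by
        linarith only [hC, hTB]
      have e5 : C ≤ α * SG (m0 - 1) / 2 := by
        have : α * (C * A) ≤ α * (SG (m0 - 1) / 2) := mul_le_mul_of_nonneg_left k1 hα0.le
        calc C = α * (C * A) := by rw [mul_comm C A, ← mul_assoc, hαA, one_mul]
          _ ≤ α * (SG (m0 - 1) / 2) := this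
          _ = _ := by ring
      linarith only [e3, e4, e5]) (by
      have e1 : p (m0 - 1 - 1) ≤ Real.exp (-bb (m0 - 2)) := by
        rw [show m0 - 1 - 1 = m0 - 2 by omega]; exact hp1 _
      have e2 : T' * B ^ 2 * p (m0 - 1 - 1) ≤ T * B ^ 2 * Real.exp (-bb (m0 - 2)) := by
        exact mul_le_mul (mul_le_mul_of_nonneg_right hT'T (sq_nonneg B)) e1 (hp0 _) hTB
      have e3 : 16 * (T * B ^ 2) * (A * Real.exp (-bb (m0 - 2)))
          ≤ C * (A ^ 2 * Real.exp (-bb (m0 - 2))) := by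
        have := Real.exp_pos (-bb (m0 - 2))
        refine mul_le_mul (by linarith only [hC, hs0, hTC]) ?_ (by positivity) hCn
        exact mul_le_mul_of_nonneg_right (le_self_pow₀ hA two_ne_zero) this.le
      have e4 : A * (T * B ^ 2 * Real.exp (-bb (m0 - 2))) ≤ 1 / 16 := by linarith only [e3, k2]
      have e5 : α * (A * (T * B ^ 2 * Real.exp (-bb (m0 - 2)))) ≤ α * (1 / 16) :=
        mul_le_mul_of_nonneg_left e4 hα0.le
      rw [← mul_assoc, hαA, one_mul] at e5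
      linarith only [e2, e5])
    intro t ht
    obtain ⟨h3, h4⟩ := h2 t ht
    unfold tl at h3
    rw [exT_eq _ ht] at h3
    simp_rw [exT_eq _ ht] at h3 h4
    exact ⟨h3, h4⟩
  -- scaling
  have hsc := hsh'.scale hα0
  rw [hαT] at hsc
  have hdom : ∀ t ∈ Icc 0 (tau m0), t / α ∈ Icc 0 T' := fun t ht =>
    ⟨div_nonneg ht.1 hα0.le, by rw [div_le_iff₀ hα0, mul_comm, hαT]; exact ht.2⟩
  have hνA : ∀ m, ν m / α = A * ν m := fun m => by rw [hα]; field_simp
  refine blowP hplan hgrow (K := K * A) (by positivity) hτ0 hτ1 (by omega)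
    (fun m hm => hPar (K * A) (by positivity) hKA m hm)
    (c := c) (p := p) (ν := fun m => ν m / α)
    ⟨hc.c_lo, hc.p_hi, hc.p_lo, fun n => ?_⟩ hcG hp0 (fun n => div_nonneg (hν0 n) hα0.le)
    (fun i j hij => div_le_div_of_nonneg_right (hνm hij) hα0.le) hsc (fun t ht => ?_)
    (fun t ht => ?_) ?_ ?_ (fun m hm => ?_) ⟨B' / α, fun t ht m => ?_⟩
  · rw [hνA]
    calc A * ν n ≤ A * (K * (RR n : ℝ) ^ 4) := mul_le_mul_of_nonneg_left (hc.ν_hi n) hA0.le
      _ = _ := by ring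
  · have h3 := (hctl _ (hdom t ht)).1
    unfold tl at h3 ⊢
    have e1 : ∑ j ∈ Finset.range (m0 - 1), (a j (t / α) / α) ^ 2
        = (∑ j ∈ Finset.range (m0 - 1), a j (t / α) ^ 2) / α ^ 2 := by
      rw [Finset.sum_div]
      exact Finset.sum_congr rfl fun j _ => by rw [div_pow]
    rw [e1, ← sub_div, div_le_iff₀ (by positivity)]
    exact h3
  · have h3 := (hctl _ (hdom t ht)).2
    have e1 : ∑ n ∈ Finset.range (m0 - 1), Gm n * |a n (t / α) / α|
        = (∑ n ∈ Finset.range (m0 - 1), Gm n * |a n (t / α)|) / α := by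
      rw [Finset.sum_div]
      exact Finset.sum_congr rfl fun j _ => by rw [abs_div, abs_of_pos hα0, mul_div_assoc]
    show ∑ n ∈ Finset.range (m0 - 1), Gm n * |a n (t / α) / α| ≤ 2 * SG (m0 - 1)
    rw [e1, div_le_iff₀ hα0]
    linarith only [h3]
  · show al m0 ≤ a m0 (0 / α) / α
    rw [zero_div, h01, hα, div_div_eq_mul_div, div_one, div_mul_cancel₀ _ hA1]
  · show a (m0 + 1) (0 / α) / α = rr m0
    rw [zero_div, h02, hα, div_div_eq_mul_div, div_one, div_mul_cancel₀ _ hA1]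
  · show a m (0 / α) / α = 0
    rw [zero_div, h03 m hm, zero_div]
  · show (RR m : ℝ) * |a m (t / α) / α| ≤ B' / α
    have h2 := hB' _ (Icc_subset_Icc le_rfl hT'T (hdom t ht)) m
    rw [abs_div, abs_of_pos hα0, ← mul_div_assoc]
    exact div_le_div_of_nonneg_right h2 hα0.le

end Pool.Agent.H226.GB

end
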