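import Pool.Agent.H226.GM.Spc12
import Pool.Agent.H226.GM.OdeC

/-! ## Bl2 -/

section

/-!
The cascade is complete before the maximal time: unscaled version with arbitrary lower modes.
-/

open MeasureTheory Set Filter Topology

namespace Pool.Agent.H226.GB

/-- control of the lower levels on `[0, T1]` -/
lemma bl2_ctl (hlow : S_low) {C0 C T T1 B A α : ℝ} {L m0 : ℕ}
    (hC0 : ∀ l, ∑ n ∈ Finset.range l, Gm n *
      (if n = 0 then 0 else Real.exp (-bb (n - 1))) ≤ C0)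
    (hT : 0 < T) (hB : 0 ≤ B) (hL : 1 ≤ L) (hLm : L + 1 ≤ m0) (hm03 : 3 ≤ m0) (hA : 1 ≤ A)
    (hC : C = (∑ n ∈ Finset.range L, Gm n * B) + 2 * T * B ^ 2 * C0 + 16 * (T * B ^ 2))
    (hα : α = 1 / A) (hSG : 2 * SG (m0 - 1) * tau m0 ≤ 1 / 8) (k1 : C * A ≤ SG (m0 - 1) / 2)
    (k2 : C * A ^ 2 * Real.exp (-bb (m0 - 2)) ≤ 1) (hT1 : 0 < T1) (hT1T : T1 ≤ T)
    (hαT : α * T1 ≤ tau m0) {c : ℕ → ℕ → ℝ} {p ν : ℕ → ℝ} {a : ℕ → ℝ → ℝ} {S : ℝ → ℝ}
    {W : ℕ → ℝ → ℝ} (hcG : ∀ n l, n < l → |c n l| ≤ Gm n) (hp0 : ∀ n, 0 ≤ p n)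
    (hp1 : ∀ n, p n ≤ Real.exp (-bb n)) (hν0 : ∀ n, 0 ≤ ν n) (hνm : Monotone ν)
    (hsh : Shell c p ν T1 a S W) (hS : S 0 ≤ B ^ 2) (h00 : ∀ m, L ≤ m → m < m0 → a m 0 = 0)
    (h01 : a m0 0 = al m0 / A) (h02 : a (m0 + 1) 0 = rr m0 / A)
    (h03 : ∀ m, m0 + 2 ≤ m → a m 0 = 0) :
    ∀ t ∈ Icc 0 T1, tl a S (m0 - 1) t ≤ 2 * α ^ 2 ∧
      ∑ n ∈ Finset.range (m0 - 1), Gm n * |a n t| ≤ 2 * α * SG (m0 - 1) := by
  have hC00 : 0 ≤ C0 := by simpa using hC0 0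
  have hs0 : 0 ≤ ∑ n ∈ Finset.range L, Gm n * B :=
    Finset.sum_nonneg fun n _ => mul_nonneg (Gm_pos n).le hB
  have hTB : 0 ≤ T * B ^ 2 := mul_nonneg hT.le (sq_nonneg B)
  have hTC : 0 ≤ 2 * T * B ^ 2 * C0 := by
    have : 0 ≤ T * B ^ 2 * C0 := mul_nonneg hTB hC00
    linarith
  have hCn : 0 ≤ C := by linarith
  have hA0 : 0 < A := zero_lt_one.trans_le hA
  have hA1 : A ≠ 0 := hA0.ne'
  have hα0 : 0 < α := by rw [hα]; positivity
  have hα1 : α ≠ 0 := hα0.ne'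
  have hαA : α * A = 1 := by rw [hα]; field_simp
  have h0T : (0 : ℝ) ∈ Icc 0 T1 := ⟨le_rfl, hT1.le⟩
  -- the small initial energy of the higher levels
  have hal := al_le m0
  have hal0 := al_pos m0
  have hrr0 := rr_pos m0
  have hsmall : al m0 ^ 2 + rr m0 ^ 2 ≤ 1 := by
    have e1 : al m0 ≤ 1 / 2 := by
      unfold al
      calc (1 / 2 ^ 29 : ℝ) ^ m0 ≤ (1 / 2 ^ 29) ^ 1 :=
            pow_le_pow_of_le_one (by norm_num) (by norm_num) (by omega)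
        _ ≤ 1 / 2 := by norm_num
    have e2 := rr_le m0
    exact ode8_sq_small hal0 e1 hrr0 e2
  have hSL : S 0 - ∑ j ∈ Finset.range L, a j 0 ^ 2 ≤ α ^ 2 := by
    have e1 := hsh.sum 0 ⟨le_rfl, hT1.le⟩
    have e2 : HasSum (fun j => a j 0 ^ 2) (∑ j ∈ Finset.range (m0 + 2), a j 0 ^ 2) :=
      hasSum_sum_of_ne_finset_zero fun k hk => by
        rw [Finset.mem_range] at hk
        rw [h03 k (by omega)]
        norm_num
    rw [e1.unique e2, ← Finset.sum_range_add_sum_Ico _ (show L ≤ m0 + 2 by omega),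
      add_sub_cancel_left, Finset.sum_Ico_succ_top (by omega), Finset.sum_Ico_succ_top (by omega)]
    have e3 : ∑ j ∈ Finset.Ico L m0, a j 0 ^ 2 = 0 :=
      Finset.sum_eq_zero fun j hj => by
        rw [h00 j (Finset.mem_Ico.1 hj).1 (Finset.mem_Ico.1 hj).2]
        norm_num
    rw [e3, h01, h02, zero_add, div_pow, div_pow, ← add_div, div_le_iff₀ (by positivity)]
    have e4 : α ^ 2 * A ^ 2 = 1 := by rw [← mul_pow, hαA, one_pow]
    rw [e4]
    exact hsmall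
  -- control of the lower levels
  have hsys0 := hsh.sys0 hT1.le hcG hp0 hν0 hνm
  have h2 := hlow c p ν T1 _ _ _ L (m0 - 1) B α hsys0 hT1.le hα0 hB hL (by omega) (by
    rw [exT_eq _ h0T]; exact hS) (by
    unfold tl
    rw [exT_eq _ h0T]
    simp_rw [exT_eq _ h0T]
    exact hSL) (by
    calc 2 * α * SG (m0 - 1) * T1 = 2 * SG (m0 - 1) * (α * T1) := by ring
      _ ≤ 2 * SG (m0 - 1) * tau m0 :=
          mul_le_mul_of_nonneg_left hαT (mul_nonneg two_pos.le (SG_nonneg (m0 - 1)))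
      _ ≤ 1 / 8 := hSG) (by
    have e1 : ∑ n ∈ Finset.range (m0 - 1), Gm n * (if n = 0 then 0 else p (n - 1)) ≤ C0 := by
      refine le_trans (Finset.sum_le_sum fun n _ => ?_) (hC0 (m0 - 1))
      refine mul_le_mul_of_nonneg_left ?_ (Gm_pos n).le
      split_ifs
      · exact le_rfl
      · exact hp1 _
    have e2 : 0 ≤ ∑ n ∈ Finset.range (m0 - 1), Gm n * (if n = 0 then 0 else p (n - 1)) := by
      refine Finset.sum_nonneg fun n _ => mul_nonneg (Gm_pos n).le ?_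
      split_ifs
      · exact le_rfl
      · exact hp0 _
    have e3 : 2 * T1 * B ^ 2 * ∑ n ∈ Finset.range (m0 - 1),
        Gm n * (if n = 0 then 0 else p (n - 1)) ≤ 2 * T * B ^ 2 * C0 := by
      refine mul_le_mul ?_ e1 e2 (by positivity)
      exact mul_le_mul_of_nonneg_right
        (mul_le_mul_of_nonneg_left hT1T zero_le_two) (sq_nonneg B)
    have e4 : (∑ n ∈ Finset.range L, Gm n * B) + 2 * T * B ^ 2 * C0 ≤ C := by
      linarith only [hC, hTB]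
    have e5 : C ≤ α * SG (m0 - 1) / 2 := by
      have : α * (C * A) ≤ α * (SG (m0 - 1) / 2) := mul_le_mul_of_nonneg_left k1 hα0.le
      calc C = α * (C * A) := by rw [mul_comm C A, ← mul_assoc, hαA, one_mul]
        _ ≤ α * (SG (m0 - 1) / 2) := this
        _ = _ := by ring
    linarith only [e3, e4, e5]) (by
    have e1 : p (m0 - 1 - 1) ≤ Real.exp (-bb (m0 - 2)) := by
      rw [show m0 - 1 - 1 = m0 - 2 by omega]; exact hp1 _
    have e2 : T1 * B ^ 2 * p (m0 - 1 - 1) ≤ T * B ^ 2 * Real.exp (-bb (m0 - 2)) := by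
      exact mul_le_mul (mul_le_mul_of_nonneg_right hT1T (sq_nonneg B)) e1 (hp0 _) hTB
    have e3 : 16 * (T * B ^ 2) * (A * Real.exp (-bb (m0 - 2)))
        ≤ C * (A ^ 2 * Real.exp (-bb (m0 - 2))) := by
      have := Real.exp_pos (-bb (m0 - 2))
      refine mul_le_mul (by linarith only [hC, hs0, hTC]) ?_ (by positivity) hCn
      exact mul_le_mul_of_nonneg_right (le_self_pow₀ hA two_ne_zero) this.le
    have e4 : A * (T * B ^ 2 * Real.exp (-bb (m0 - 2))) ≤ 1 / 16 := by linarith only [e3, k2]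
    have e5 : α * (A * (T * B ^ 2 * Real.exp (-bb (m0 - 2)))) ≤ α * (1 / 16) :=
      mul_le_mul_of_nonneg_left e4 hα0.le
    rw [← mul_assoc, hαA, one_mul] at e5
    linarith only [e2, e5])
  intro t ht
  obtain ⟨h3, h4⟩ := h2 t ht
  unfold tl at h3
  rw [exT_eq _ ht] at h3
  simp_rw [exT_eq _ ht] at h3 h4
  exact ⟨h3, h4⟩

/-- the scaled tail -/
lemma bl2_tl {a : ℕ → ℝ → ℝ} {S : ℝ → ℝ} {α t : ℝ} {l : ℕ} (hα0 : 0 < α)
    (h : tl a S l (t / α) ≤ 2 * α ^ 2) :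
    tl (fun m t => a m (t / α) / α) (fun t => S (t / α) / α ^ 2) l t ≤ 2 := by
  unfold tl at h ⊢
  have e1 : ∑ j ∈ Finset.range l, (a j (t / α) / α) ^ 2
      = (∑ j ∈ Finset.range l, a j (t / α) ^ 2) / α ^ 2 := by
    rw [Finset.sum_div]
    exact Finset.sum_congr rfl fun j _ => by rw [div_pow]
  rw [e1, ← sub_div, div_le_iff₀ (by positivity)]
  exact h

/-- the scaled strain -/
lemma bl2_sm {a : ℕ → ℝ → ℝ} {α t : ℝ} {l : ℕ} (hα0 : 0 < α)
    (h : ∑ n ∈ Finset.range l, Gm n * |a n (t / α)| ≤ 2 * α * SG l) :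
    ∑ n ∈ Finset.range l, Gm n * |a n (t / α) / α| ≤ 2 * SG l := by
  have e1 : ∑ n ∈ Finset.range l, Gm n * |a n (t / α) / α|
      = (∑ n ∈ Finset.range l, Gm n * |a n (t / α)|) / α := by
    rw [Finset.sum_div]
    exact Finset.sum_congr rfl fun j _ => by rw [abs_div, abs_of_pos hα0, mul_div_assoc]
  rw [e1, div_le_iff₀ hα0]
  linarith only [h]

/-- the scaled integral -/
lemma bl2_int {a : ℕ → ℝ → ℝ} {α T1 : ℝ} (hα0 : 0 < α) (l : ℕ) :
    ∫ s in (0 : ℝ)..(α * T1), ∑ n ∈ Finset.range l, Gm n * |a n (s / α) / α|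
      = ∫ s in (0 : ℝ)..T1, ∑ n ∈ Finset.range l, Gm n * |a n s| := by
  have hα1 : α ≠ 0 := hα0.ne'
  have e1 : (fun s => ∑ n ∈ Finset.range l, Gm n * |a n (s / α) / α|)
      = fun s => (1 / α) * (fun r => ∑ n ∈ Finset.range l, Gm n * |a n r|) (s / α) := by
    funext s
    show _ = 1 / α * ∑ n ∈ Finset.range l, Gm n * |a n (s / α)|
    rw [Finset.mul_sum]
    refine Finset.sum_congr rfl fun n _ => ?_
    rw [abs_div, abs_of_pos hα0]
    ring
  have e2 : ∫ s in (0 : ℝ)..(α * T1),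
        (fun r => ∑ n ∈ Finset.range l, Gm n * |a n r|) (s / α)
      = α * ∫ s in (0 : ℝ)..T1, ∑ n ∈ Finset.range l, Gm n * |a n s| := by
    have e3 := intervalIntegral.integral_comp_div (a := 0) (b := α * T1)
      (fun r => ∑ n ∈ Finset.range l, Gm n * |a n r|) hα1
    rw [zero_div, mul_div_cancel_left₀ _ hα1, smul_eq_mul] at e3
    exact e3
  rw [e1, intervalIntegral.integral_const_mul, e2, ← mul_assoc, one_div,
    inv_mul_cancel₀ hα1, one_mul]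

/-- **the cascade is complete before the maximal time** -/
theorem s_bl2 (hplan : S_plan) (hgrow : S_grow) (hlow : S_low) (hnum : S_num) (hcas : S_cas) :
    S_bl2 := by
  intro K T B L q hK hT hB hL hq
  obtain ⟨⟨C0, hC0⟩, hnum⟩ := hnum
  have hC00 : 0 ≤ C0 := by simpa using hC0 0
  obtain ⟨C, hC⟩ : ∃ C : ℝ, C = (∑ n ∈ Finset.range L, Gm n * B) + 2 * T * B ^ 2 * C0 +
    16 * (T * B ^ 2) := ⟨_, rfl⟩
  have hs0 : 0 ≤ ∑ n ∈ Finset.range L, Gm n * B :=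
    Finset.sum_nonneg fun n _ => mul_nonneg (Gm_pos n).le hB
  have hTB : 0 ≤ T * B ^ 2 := mul_nonneg hT.le (sq_nonneg B)
  have hTC : 0 ≤ 2 * T * B ^ 2 * C0 := by
    have : 0 ≤ T * B ^ 2 * C0 := mul_nonneg hTB hC00
    linarith
  have hCn : 0 ≤ C := by linarith
  obtain ⟨m1, hm1, h1⟩ := hnum K C T q hK hCn hT hq
  refine ⟨max m1 (L + 1), le_max_right _ _, hm1.trans (le_max_left _ _),
    fun m0 hm0 A hA hA5 hKA c p ν a S W Ts hc hcG hp0 hp1 hν0 hνm hTs hsh hbd hS h00 h01 h02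
      h03 hint m hm => ?_⟩
  obtain ⟨hPar, hSG, hτ1, hA'⟩ := h1 m0 ((le_max_left _ _).trans hm0)
  have hLm : L + 1 ≤ m0 := (le_max_right _ _).trans hm0
  have hm03 : 3 ≤ m0 := hm1.trans ((le_max_left _ _).trans hm0)
  have hA0 : 0 < A := zero_lt_one.trans_le hA
  have hA1 : A ≠ 0 := hA0.ne'
  obtain ⟨k1, k2, k3⟩ := hA' A hA0.le hA5
  have hτ0 : 0 < tau m0 := by unfold tau; positivity
  obtain ⟨α, hα⟩ : ∃ α, α = 1 / A := ⟨_, rfl⟩
  have hα0 : 0 < α := by rw [hα]; positivity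
  have hα1 : α ≠ 0 := hα0.ne'
  have hαA : α * A = 1 := by rw [hα]; field_simp
  obtain ⟨T', hT'⟩ : ∃ T', T' = tau m0 * A := ⟨_, rfl⟩
  have hT'0 : 0 < T' := by rw [hT']; positivity
  have hT'T : T' ≤ T := by rw [hT']; exact k3
  have hαT : α * T' = tau m0 := by rw [hT', hα]; field_simp
  have hνA : ∀ m, ν m / α = A * ν m := fun m => by rw [hα]; field_simp
  have hctl : ∀ T1 ∈ Ioo 0 Ts, T1 ≤ T' → ∀ t ∈ Icc 0 T1, tl a S (m0 - 1) t ≤ 2 * α ^ 2 ∧
      ∑ n ∈ Finset.range (m0 - 1), Gm n * |a n t| ≤ 2 * α * SG (m0 - 1) := fun T1 hT1 hT1' =>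
    bl2_ctl hlow hC0 hT hB hL hLm hm03 hA hC hα hSG k1 k2 hT1.1 (hT1'.trans hT'T) (by
      rw [← hαT]; exact mul_le_mul_of_nonneg_left hT1' hα0.le) hcG hp0 hp1 hν0 hνm
      (hsh T1 hT1) hS h00 h01 h02 h03
  have hCH : CH c p (fun m => ν m / α) (K * A) := ⟨hc.c_lo, hc.p_hi, hc.p_lo, fun n => by
    rw [hνA]
    calc A * ν n ≤ A * (K * (RR n : ℝ) ^ 4) := mul_le_mul_of_nonneg_left (hc.ν_hi n) hA0.le
      _ = _ := by ring⟩
  have i0 : al m0 ≤ a m0 (0 / α) / α := by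
    rw [zero_div, h01, hα, div_div_eq_mul_div, div_one, div_mul_cancel₀ _ hA1]
  have i1 : a (m0 + 1) (0 / α) / α = rr m0 := by
    rw [zero_div, h02, hα, div_div_eq_mul_div, div_one, div_mul_cancel₀ _ hA1]
  have i2 : ∀ m, m0 + 2 ≤ m → a m (0 / α) / α = 0 := fun m hm => by
    rw [zero_div, h03 m hm, zero_div]
  -- the maximal time is at most `T'`
  have hTsT : Ts ≤ T' := by
    by_contra hlt
    push Not at hlt
    have hmem : T' ∈ Ioo 0 Ts := ⟨hT'0, hlt⟩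
    obtain ⟨B', hB'⟩ := hbd T' hmem
    have hsc := (hsh T' hmem).scale hα0
    rw [hαT] at hsc
    have hdom : ∀ t ∈ Icc 0 (tau m0), t / α ∈ Icc 0 T' := fun t ht =>
      ⟨div_nonneg ht.1 hα0.le, by rw [div_le_iff₀ hα0, mul_comm, hαT]; exact ht.2⟩
    refine blowP hplan hgrow (K := K * A) (by positivity) hτ0 hτ1 (by omega)
      (fun m hm => hPar (K * A) (by positivity) hKA m hm)
      (c := c) (p := p) (ν := fun m => ν m / α)
      hCH hcG hp0 (fun n => div_nonneg (hν0 n) hα0.le)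
      (fun i j hij => div_le_div_of_nonneg_right (hνm hij) hα0.le) hsc
      (fun t ht => bl2_tl hα0 (hctl T' hmem le_rfl _ (hdom t ht)).1)
      (fun t ht => bl2_sm hα0 (hctl T' hmem le_rfl _ (hdom t ht)).2) i0 i1 i2
      ⟨B' / α, fun t ht m => ?_⟩
    show (RR m : ℝ) * |a m (t / α) / α| ≤ B' / α
    have h2 := hB' _ (hdom t ht) m
    rw [abs_div, abs_of_pos hα0, ← mul_div_assoc]
    exact div_le_div_of_nonneg_right h2 hα0.le
  -- the cascade
  have hdomI : ∀ t ∈ Ico 0 (α * Ts), t / α ∈ Ico 0 Ts := fun t ht =>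
    ⟨div_nonneg ht.1 hα0.le, by rw [div_lt_iff₀ hα0, mul_comm]; exact ht.2⟩
  have hctl' : ∀ t ∈ Ico 0 (α * Ts), tl a S (m0 - 1) (t / α) ≤ 2 * α ^ 2 ∧
      ∑ n ∈ Finset.range (m0 - 1), Gm n * |a n (t / α)| ≤ 2 * α * SG (m0 - 1) := by
    intro t ht
    obtain ⟨g1, g2⟩ := hdomI t ht
    exact hctl ((t / α + Ts) / 2) ⟨by linarith, by linarith⟩ (by linarith) (t / α)
      ⟨g1, by linarith⟩
  have hsh' : ∀ T1 ∈ Ioo 0 (α * Ts), Shell c p (fun m => ν m / α) T1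
      (fun m t => a m (t / α) / α) (fun t => S (t / α) / α ^ 2)
      (fun m t => W m (t / α) / α ^ 2) := by
    intro T1 hT1
    have g := (hsh (T1 / α) ⟨div_pos hT1.1 hα0, by
      rw [div_lt_iff₀ hα0, mul_comm]; exact hT1.2⟩).scale hα0
    have e : α * (T1 / α) = T1 := by field_simp
    rwa [e] at g
  have hint' : ∀ Λ : ℝ, ∃ T1 ∈ Ico 0 (α * Ts), ∃ l : ℕ,
      Λ < ∫ s in (0 : ℝ)..T1, ∑ n ∈ Finset.range l, Gm n * |a n (s / α) / α| := by
    intro Λ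
    obtain ⟨T1, hT1, l, hl⟩ := hint Λ
    refine ⟨α * T1, ⟨mul_nonneg hα0.le hT1.1, mul_lt_mul_of_pos_left hT1.2 hα0⟩, l, ?_⟩
    rw [bl2_int hα0 l]
    exact hl
  obtain ⟨t, ht, htm⟩ := hcas (K * A) (tau m0) (α * Ts) m0 c p (fun m => ν m / α)
    (fun m t => a m (t / α) / α) (fun t => S (t / α) / α ^ 2) (fun m t => W m (t / α) / α ^ 2)
    (by positivity) hτ0 hτ1 (by omega)
    (fun m hm => hPar (K * A) (by positivity) hKA m hm) hCH hcG hp0
    (fun n => div_nonneg (hν0 n) hα0.le)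
    (fun i j hij => div_le_div_of_nonneg_right (hνm hij) hα0.le) (mul_pos hα0 hTs)
    (by rw [← hαT]; exact mul_le_mul_of_nonneg_left hTsT hα0.le) hsh'
    (fun t ht => bl2_tl hα0 (hctl' t ht).1) (fun t ht => bl2_sm hα0 (hctl' t ht).2) i0 i1 i2
    hint' m hm
  refine ⟨t / α, hdomI t ht, ?_⟩
  have g : al m ≤ a m (t / α) / α := htm
  rw [le_div_iff₀ hα0] at g
  rw [div_le_iff₀ hA0]
  calc al m = (al m * α) * A := by rw [mul_assoc, hαA, mul_one]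
    _ ≤ a m (t / α) * A := mul_le_mul_of_nonneg_right g hA0.le

end Pool.Agent.H226.GB

end
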