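import Pool.Agent.H226.GM.S

/-! ## Coup -/

section

/-!
Lower and upper bounds of the coupling coefficients (helper277 for helper226).
-/

open MeasureTheory Set Filter Topology
open scoped ContDiff
open H459R3.NS

namespace Pool.Agent.H226.GB

/-! ### Linearity of `tri` -/

/-- the components are smooth and periodic -/
def CoupF (u : V → V) : Prop := ∀ i, SP (fun x => u x i)

theorem Coup_smul {f : V → ℝ} (hf : SP f) (c : ℝ) : SP (fun x => c * f x) where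
  smooth := contDiff_const.mul hf.smooth
  per := fun i x => by
    have := hf.per i x
    simp only [this]

theorem Coup_lin {u u' : V → V} (hu : CoupF u) (hu' : CoupF u') (c : ℝ) :
    CoupF (fun x => u x + c • u' x) := fun i => (hu i).add (Coup_smul (hu' i) c)

theorem Coup_pd {f g : V → ℝ} (hf : SP f) (hg : SP g) (c : ℝ) (j : Fin 3) (x : V) :
    pd j (fun y => f y + c * g y) x = pd j f x + c * pd j g x := by
  unfold pd
  have h : HasFDerivAt (fun y => f y + c * g y) (fderiv ℝ f x + c • fderiv ℝ g x) x :=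
    (hf.diff x).hasFDerivAt.add ((hg.diff x).hasFDerivAt.const_mul c)
  rw [h.fderiv]
  simp

theorem Coup_pd' {g : V → ℝ} (hg : SP g) (c : ℝ) (j : Fin 3) (x : V) :
    pd j (fun y => c * g y) x = c * pd j g x := by
  unfold pd
  have h : HasFDerivAt (fun y => c * g y) (c • fderiv ℝ g x) x :=
    ((hg.diff x).hasFDerivAt.const_mul c)
  rw [h.fderiv]
  simp

theorem Coup_tri1 {u u' v w : V → V} (hu : CoupF u) (hu' : CoupF u') (hv : CoupF v)
    (hw : CoupF w) (c : ℝ) :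
    tri (fun x => u x + c • u' x) v w = tri u v w + c * tri u' v w := by
  unfold tri
  rw [Finset.mul_sum, ← Finset.sum_add_distrib]
  refine Finset.sum_congr rfl fun i _ => ?_
  rw [Finset.mul_sum, ← Finset.sum_add_distrib]
  refine Finset.sum_congr rfl fun j _ => ?_
  rw [← integral_const_mul, ← integral_add]
  · refine integral_congr_ae (Filter.Eventually.of_forall fun x => ?_)
    simp only [Pi.add_apply, Pi.smul_apply, smul_eq_mul]
    ring
  · exact (((hu i).mul (hv j)).mul ((hw j).pd i)).int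
  · exact (Coup_smul (((hu' i).mul (hv j)).mul ((hw j).pd i)) c).int

theorem Coup_tri2 {u v v' w : V → V} (hu : CoupF u) (hv : CoupF v) (hv' : CoupF v')
    (hw : CoupF w) (c : ℝ) :
    tri u (fun x => v x + c • v' x) w = tri u v w + c * tri u v' w := by
  unfold tri
  rw [Finset.mul_sum, ← Finset.sum_add_distrib]
  refine Finset.sum_congr rfl fun i _ => ?_
  rw [Finset.mul_sum, ← Finset.sum_add_distrib]
  refine Finset.sum_congr rfl fun j _ => ?_
  rw [← integral_const_mul, ← integral_add]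
  · refine integral_congr_ae (Filter.Eventually.of_forall fun x => ?_)
    simp only [Pi.add_apply, Pi.smul_apply, smul_eq_mul]
    ring
  · exact (((hu i).mul (hv j)).mul ((hw j).pd i)).int
  · exact (Coup_smul (((hu i).mul (hv' j)).mul ((hw j).pd i)) c).int

theorem Coup_tri3 {u v w w' : V → V} (hu : CoupF u) (hv : CoupF v) (hw : CoupF w)
    (hw' : CoupF w') (c : ℝ) :
    tri u v (fun x => w x + c • w' x) = tri u v w + c * tri u v w' := by
  unfold tri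
  rw [Finset.mul_sum, ← Finset.sum_add_distrib]
  refine Finset.sum_congr rfl fun i _ => ?_
  rw [Finset.mul_sum, ← Finset.sum_add_distrib]
  refine Finset.sum_congr rfl fun j _ => ?_
  rw [← integral_const_mul, ← integral_add]
  · refine integral_congr_ae (Filter.Eventually.of_forall fun x => ?_)
    have h := Coup_pd (hw j) (hw' j) c i x
    simp only [Pi.add_apply, Pi.smul_apply, smul_eq_mul]
    rw [h]
    ring
  · exact (((hu i).mul (hv j)).mul ((hw j).pd i)).int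
  · exact (Coup_smul (((hu i).mul (hv j)).mul ((hw' j).pd i)) c).int

theorem Coup_hom {u v w : V → V} (hw : CoupF w) (a b c : ℝ) :
    tri (fun x => a • u x) (fun x => b • v x) (fun x => c • w x) = a * b * c * tri u v w := by
  unfold tri
  rw [Finset.mul_sum]
  refine Finset.sum_congr rfl fun i _ => ?_
  rw [Finset.mul_sum]
  refine Finset.sum_congr rfl fun j _ => ?_
  rw [← integral_const_mul]
  refine integral_congr_ae (Filter.Eventually.of_forall fun x => ?_)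
  have h := Coup_pd' (hw j) c i x
  simp only [Pi.smul_apply, smul_eq_mul]
  rw [h]
  ring

theorem Coup_gpF {Θ : V → ℝ} (h : SP Θ) : CoupF (gp Θ) := by
  intro i
  have h0 : SP (fun _ : V => (0 : ℝ)) := ⟨contDiff_const, fun _ _ => rfl⟩
  fin_cases i
  · exact h.pd 2
  · exact h0
  · have h1 := Coup_smul (h.pd 0) (-1)
    have h2 : (fun x => gp Θ x 2) = fun x => (-1) * pd 0 Θ x := by
      funext x
      show -pd 0 Θ x = _
      ring
    show SP (fun x => gp Θ x 2)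
    rw [h2]
    exact h1

theorem Coup_gp {f g : V → ℝ} (hf : SP f) (hg : SP g) (c : ℝ) :
    gp (fun x => f x + c * g x) = fun x => gp f x + c • gp g x := by
  funext x
  funext i
  fin_cases i
  · show pd 2 (fun x => f x + c * g x) x = pd 2 f x + c * pd 2 g x
    exact Coup_pd hf hg c 2 x
  · show (0 : ℝ) = 0 + c * 0
    ring
  · show -pd 0 (fun x => f x + c * g x) x = -pd 0 f x + c * (-pd 0 g x)
    rw [Coup_pd hf hg c 0 x]
    ring

/-! ### Products with separated frequencies -/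

theorem Coup_van (P : S_prod) (G : S_trig) {F₁ G₁ H₁ F₂ G₂ H₂ F₃ G₃ H₃ : ℝ → ℝ}
    (f1 : P1 F₁) (g1 : P1 G₁) (f2 : P1 F₂) (g2 : P1 G₂) (f3 : P1 F₃) (g3 : P1 G₃)
    {A B C : Set ℕ} (h1 : Trig A H₁) (h2 : Trig B H₂) (h3 : Trig C H₃)
    (hr : ∀ a ∈ A, ∀ b ∈ B, ∀ c ∈ C, a ≠ b + c ∧ b ≠ a + c ∧ c ≠ a + b) :
    tri (gp (prd F₁ G₁ H₁)) (gp (prd F₂ G₂ H₂)) (gp (prd F₃ G₃ H₃)) = 0 := by
  rw [P.tri_gp f1 g1 (G.p1 h1) f2 g2 (G.p1 h2) f3 g3 (G.p1 h3),
    G.int3 (G.der h1) (G.der h2) (G.der h3) hr, G.int3 h1 (G.der h2) (G.der (G.der h3)) hr,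
    G.int3 (G.der h1) h2 h3 hr, G.int3 h1 h2 (G.der h3) hr]
  ring

/-! ### Sine and cosine sums -/

/-- sine sum -/
noncomputable def CoupS (s : Finset ℕ) (α : ℕ → ℝ) (x : ℝ) : ℝ := ∑ j ∈ s, α j * sn j x

/-- cosine sum -/
noncomputable def CoupC (s : Finset ℕ) (α : ℕ → ℝ) (x : ℝ) : ℝ := ∑ j ∈ s, α j * cs j x

theorem Coup_dsn (k : ℕ) (x : ℝ) : HasDerivAt (sn k) (2 * Real.pi * k * cs k x) x := by
  unfold sn cs
  have h1 : HasDerivAt (fun s : ℝ => 2 * Real.pi * k * s) (2 * Real.pi * k) x := by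
    simpa using (hasDerivAt_id x).const_mul (2 * Real.pi * k)
  have h2 := h1.sin
  refine h2.congr_deriv ?_
  ring

theorem Coup_dcs (k : ℕ) (x : ℝ) : HasDerivAt (cs k) (-(2 * Real.pi * k) * sn k x) x := by
  unfold sn cs
  have h1 : HasDerivAt (fun s : ℝ => 2 * Real.pi * k * s) (2 * Real.pi * k) x := by
    simpa using (hasDerivAt_id x).const_mul (2 * Real.pi * k)
  have h2 := h1.cos
  refine h2.congr_deriv ?_
  ring

theorem Coup_csn (k : ℕ) : Continuous (sn k) := by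
  unfold sn
  fun_prop

theorem Coup_ccs (k : ℕ) : Continuous (cs k) := by
  unfold cs
  fun_prop

theorem Coup_dS (s : Finset ℕ) (α : ℕ → ℝ) :
    deriv (CoupS s α) = CoupC s (fun j => α j * (2 * Real.pi * j)) := by
  funext x
  have h : HasDerivAt (CoupS s α) (∑ j ∈ s, α j * (2 * Real.pi * j * cs j x)) x := by
    unfold CoupS
    exact HasDerivAt.fun_sum fun j _ => (Coup_dsn j x).const_mul (α j)
  rw [h.deriv]
  unfold CoupC
  refine Finset.sum_congr rfl fun j _ => ?_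
  ring

theorem Coup_dC (s : Finset ℕ) (α : ℕ → ℝ) :
    deriv (CoupC s α) = CoupS s (fun j => -(α j * (2 * Real.pi * j))) := by
  funext x
  have h : HasDerivAt (CoupC s α) (∑ j ∈ s, α j * (-(2 * Real.pi * j) * sn j x)) x := by
    unfold CoupC
    exact HasDerivAt.fun_sum fun j _ => (Coup_dcs j x).const_mul (α j)
  rw [h.deriv]
  unfold CoupS
  refine Finset.sum_congr rfl fun j _ => ?_
  ring

theorem Coup_pS (O : S_one) (s : Finset ℕ) (α : ℕ → ℝ) : P1 (CoupS s α) where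
  smooth := by
    unfold CoupS
    exact ContDiff.sum fun j _ => contDiff_const.mul (O.p1_sn j).smooth
  per := fun x => by
    unfold CoupS
    exact Finset.sum_congr rfl fun j _ => by rw [(O.p1_sn j).per x]

theorem Coup_pC (O : S_one) (s : Finset ℕ) (α : ℕ → ℝ) : P1 (CoupC s α) where
  smooth := by
    unfold CoupC
    exact ContDiff.sum fun j _ => contDiff_const.mul (O.p1_cs j).smooth
  per := fun x => by
    unfold CoupC
    exact Finset.sum_congr rfl fun j _ => by rw [(O.p1_cs j).per x]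

theorem Coup_iS {f : ℝ → ℝ} (hf : Continuous f) (s : Finset ℕ) (α : ℕ → ℝ) :
    i1 (fun x => f x * CoupS s α x) = ∑ j ∈ s, α j * i1 (fun x => f x * sn j x) := by
  unfold i1 CoupS
  have h1 : ∀ x : ℝ, f x * ∑ j ∈ s, α j * sn j x = ∑ j ∈ s, α j * (f x * sn j x) := by
    intro x
    rw [Finset.mul_sum]
    exact Finset.sum_congr rfl fun j _ => by ring
  simp only [h1]
  have h2 : ∀ j ∈ s, IntervalIntegrable (fun x => α j * (f x * sn j x)) volume 0 1 := fun j _ =>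
    (continuous_const.mul (hf.mul (Coup_csn j))).intervalIntegrable 0 1
  rw [intervalIntegral.integral_finsetSum h2]
  refine Finset.sum_congr rfl fun j _ => ?_
  rw [intervalIntegral.integral_const_mul]

theorem Coup_iC {f : ℝ → ℝ} (hf : Continuous f) (s : Finset ℕ) (α : ℕ → ℝ) :
    i1 (fun x => f x * CoupC s α x) = ∑ j ∈ s, α j * i1 (fun x => f x * cs j x) := by
  unfold i1 CoupC
  have h1 : ∀ x : ℝ, f x * ∑ j ∈ s, α j * cs j x = ∑ j ∈ s, α j * (f x * cs j x) := by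
    intro x
    rw [Finset.mul_sum]
    exact Finset.sum_congr rfl fun j _ => by ring
  simp only [h1]
  have h2 : ∀ j ∈ s, IntervalIntegrable (fun x => α j * (f x * cs j x)) volume 0 1 := fun j _ =>
    (continuous_const.mul (hf.mul (Coup_ccs j))).intervalIntegrable 0 1
  rw [intervalIntegral.integral_finsetSum h2]
  refine Finset.sum_congr rfl fun j _ => ?_
  rw [intervalIntegral.integral_const_mul]

/-! ### The main estimate -/

theorem Coup_bp (O : S_one) {f : ℝ → ℝ} (hf : P1 f) (s : Finset ℕ) (α : ℕ → ℝ) :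
    i1 (fun x => f x * deriv f x * CoupS s α x)
      = -∑ j ∈ s, α j * (Real.pi * j) * i1 (fun x => f x ^ 2 * cs j x) := by
  have hc : Continuous fun x => f x * deriv f x := by
    have h1 : Continuous (deriv f) := (hf.smooth.continuous_deriv (by norm_cast))
    exact hf.smooth.continuous.mul h1
  rw [Coup_iS hc, ← Finset.sum_neg_distrib]
  refine Finset.sum_congr rfl fun j _ => ?_
  rw [O.by_parts hf j]
  ring

theorem Coup_sqC {f : ℝ → ℝ} (hf : Continuous f) (s : Finset ℕ) (α : ℕ → ℝ) :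
    i1 (fun x => f x * f x * CoupC s α x) = ∑ j ∈ s, α j * i1 (fun x => f x ^ 2 * cs j x) := by
  rw [Coup_iC (f := fun x => f x * f x) (hf.mul hf)]
  refine Finset.sum_congr rfl fun j _ => ?_
  congr 1
  unfold i1
  refine intervalIntegral.integral_congr fun x _ => ?_
  show f x * f x * cs j x = f x ^ 2 * cs j x
  ring

theorem Coup_ar {A B C b t2 t3 t4 D : ℝ} (hA : 0 ≤ A) (hB : 0 ≤ B) (hC : 0 ≤ C) (hb : 0 ≤ b)
    (h1 : 1024 * D * b ≤ C) (h2 : 0 ≤ t2) (h2' : t2 ≤ 2 * D * b) (h3 : 0 ≤ t3)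
    (h3' : t3 ≤ 2 * D * A) (h4 : 0 ≤ t4) (h4' : t4 ≤ 16 * D * A) :
    31 / 32 * (A * B * C) ≤ B * (A * C - (-(A / 2)) * t2 + t3 * (-(b / 2)) - t4 * b) ∧
    B * (A * C - (-(A / 2)) * t2 + t3 * (-(b / 2)) - t4 * b) ≤ 2 * (A * B * C) := by
  have e1 : 1024 * D * b * A ≤ C * A := mul_le_mul_of_nonneg_right h1 hA
  have e2 : A * t2 ≤ A * (2 * D * b) := mul_le_mul_of_nonneg_left h2' hA
  have e3 : t3 * b ≤ 2 * D * A * b := mul_le_mul_of_nonneg_right h3' hb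
  have e4 : t4 * b ≤ 16 * D * A * b := mul_le_mul_of_nonneg_right h4' hb
  have e5 : 0 ≤ A * t2 := mul_nonneg hA h2
  have e6 : 0 ≤ t3 * b := mul_nonneg h3 hb
  have e7 : 0 ≤ t4 * b := mul_nonneg h4 hb
  have e8 : 0 ≤ A * C := mul_nonneg hA hC
  have k1 : 31 / 32 * (A * C) ≤ A * C - (-(A / 2)) * t2 + t3 * (-(b / 2)) - t4 * b := by
    linarith only [e1, e2, e3, e4, e5, e6, e7, e8]
  have k2 : A * C - (-(A / 2)) * t2 + t3 * (-(b / 2)) - t4 * b ≤ 2 * (A * C) := by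
    linarith only [e1, e2, e3, e4, e5, e6, e7, e8]
  have l1 := mul_le_mul_of_nonneg_left k1 hB
  have l2 := mul_le_mul_of_nonneg_left k2 hB
  constructor
  · calc 31 / 32 * (A * B * C) = B * (31 / 32 * (A * C)) := by ring
      _ ≤ _ := l1
  · calc _ ≤ B * (2 * (A * C)) := l2
      _ = 2 * (A * B * C) := by ring

/-- the trilinear form at the main part of a field and a product of sums -/
theorem Coup_gen (P : S_prod) (O : S_one) {N : ℕ} {s1 s2 s3 : Finset ℕ} {α β γ : ℕ → ℝ}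
    (h1 : ∀ j ∈ s1, 1 ≤ j ∧ j ≤ N ∧ 0 ≤ α j) (h2 : ∀ j ∈ s2, 1 ≤ j ∧ j ≤ N ∧ 0 ≤ β j)
    (h3 : ∀ j ∈ s3, 1 ≤ j ∧ j ≤ N ∧ 0 ≤ γ j) {A B C T : ℝ}
    (hA : A = ∑ j ∈ s1, α j * (2 * Real.pi * j) * (((N : ℝ) - j) / 2))
    (hB : B = ∑ j ∈ s2, β j * (((N : ℝ) - j) / 2))
    (hC : C = ∑ j ∈ s3, γ j * (2 * Real.pi * j) * (((N : ℝ) - j) / 2))
    (hT : T = tri (gp (prd (fF N) (fG N) (fH N))) (gp (prd (fF N) (fG N) (fH N)))
      (gp (prd (CoupS s1 α) (CoupC s2 β) (CoupS s3 γ)))) :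
    31 / 32 * (A * B * C) ≤ T ∧ T ≤ 2 * (A * B * C) := by
  have pF := O.p1_F N
  have pG := O.p1_G N
  have pH := O.p1_H N
  have cF := pF.smooth.continuous
  have cG := pG.smooth.continuous
  have cH := pH.smooth.continuous
  have cdF : Continuous (deriv (fF N)) := (P.der pF).smooth.continuous
  have cdH : Continuous (deriv (fH N)) := (P.der pH).smooth.continuous
  have hpi := Real.pi_pos
  have hN0 : (0 : ℝ) ≤ N := Nat.cast_nonneg N
  have hp2 : ∀ j : ℕ, (0 : ℝ) ≤ 2 * Real.pi * j := fun j =>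
    mul_nonneg (mul_nonneg zero_le_two hpi.le) (Nat.cast_nonneg j)
  have hle : ∀ j : ℕ, j ≤ N → (0 : ℝ) ≤ ((N : ℝ) - j) / 2 := by
    intro j hj
    have : (j : ℝ) ≤ N := by exact_mod_cast hj
    linarith
  rw [P.tri_gp pF pG pH pF pG pH (Coup_pS O s1 α) (Coup_pC O s2 β) (Coup_pS O s3 γ),
    Coup_dS, Coup_dS, Coup_dC, Coup_dC] at hT
  -- the integral in `x₁`
  have iG : i1 (fun x => fG N x * fG N x * CoupC s2 β x) = B := by
    rw [Coup_sqC cG, hB]
    refine Finset.sum_congr rfl fun j hj => ?_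
    obtain ⟨a, b, -⟩ := h2 j hj
    rw [O.G2 N j a b]
  have i1a : i1 (fun x => fF N x * fF N x * CoupC s1 (fun j => α j * (2 * Real.pi * j)) x) = A := by
    rw [Coup_sqC cF, hA]
    refine Finset.sum_congr rfl fun j hj => ?_
    obtain ⟨a, b, -⟩ := h1 j hj
    rw [O.F2 N j a b]
  have i1b : i1 (fun x => deriv (fH N) x * deriv (fH N) x *
      CoupC s3 (fun j => γ j * (2 * Real.pi * j)) x) = C := by
    rw [Coup_sqC cdH, hC]
    refine Finset.sum_congr rfl fun j hj => ?_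
    obtain ⟨a, b, -⟩ := h3 j hj
    rw [O.dH2 N j a b]
  have i2a : i1 (fun x => deriv (fF N) x * fF N x * CoupS s1 α x) = -(A / 2) := by
    have e : (fun x => deriv (fF N) x * fF N x * CoupS s1 α x) =
        fun x => fF N x * deriv (fF N) x * CoupS s1 α x := by
      funext x
      ring
    rw [e, Coup_bp O pF, hA, Finset.sum_div]
    congr 1
    refine Finset.sum_congr rfl fun j hj => ?_
    obtain ⟨a, b, -⟩ := h1 j hj
    rw [O.F2 N j a b]
    ring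
  obtain ⟨t2, ht2⟩ : ∃ t2 : ℝ, t2 = ∑ j ∈ s3, γ j * (2 * Real.pi * j) * (2 * Real.pi * j) *
    (Real.pi * j) * i1 (fun x => fH N x ^ 2 * cs j x) := ⟨_, rfl⟩
  have i2b : i1 (fun x => fH N x * deriv (fH N) x *
      CoupS s3 (fun j => -(γ j * (2 * Real.pi * j) * (2 * Real.pi * j))) x) = t2 := by
    rw [Coup_bp O pH, ht2, ← Finset.sum_neg_distrib]
    refine Finset.sum_congr rfl fun j hj => ?_
    ring
  obtain ⟨t3, ht3⟩ : ∃ t3 : ℝ, t3 = ∑ j ∈ s1, α j * (2 * Real.pi * j) * (2 * Real.pi * j) *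
    (Real.pi * j) * (((N : ℝ) - j) / 2) := ⟨_, rfl⟩
  have i3a : i1 (fun x => fF N x * deriv (fF N) x *
      CoupS s1 (fun j => -(α j * (2 * Real.pi * j) * (2 * Real.pi * j))) x) = t3 := by
    rw [Coup_bp O pF, ht3, ← Finset.sum_neg_distrib]
    refine Finset.sum_congr rfl fun j hj => ?_
    obtain ⟨a, b, -⟩ := h1 j hj
    rw [O.F2 N j a b]
    ring
  obtain ⟨b4, hb4⟩ : ∃ b4 : ℝ, b4 = ∑ j ∈ s3, γ j * (2 * Real.pi * j) *
    i1 (fun x => fH N x ^ 2 * cs j x) := ⟨_, rfl⟩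
  have i3b : i1 (fun x => deriv (fH N) x * fH N x * CoupS s3 γ x) = -(b4 / 2) := by
    have e : (fun x => deriv (fH N) x * fH N x * CoupS s3 γ x) =
        fun x => fH N x * deriv (fH N) x * CoupS s3 γ x := by
      funext x
      ring
    rw [e, Coup_bp O pH, hb4, Finset.sum_div]
    congr 1
    refine Finset.sum_congr rfl fun j hj => ?_
    ring
  obtain ⟨t4, ht4⟩ : ∃ t4 : ℝ, t4 = ∑ j ∈ s1, α j * (2 * Real.pi * j) *
    i1 (fun x => deriv (fF N) x ^ 2 * cs j x) := ⟨_, rfl⟩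
  have i4a : i1 (fun x => deriv (fF N) x * deriv (fF N) x *
      CoupC s1 (fun j => α j * (2 * Real.pi * j)) x) = t4 := by
    rw [Coup_sqC cdF, ht4]
  have i4b : i1 (fun x => fH N x * fH N x * CoupC s3 (fun j => γ j * (2 * Real.pi * j)) x) = b4 := by
    rw [Coup_sqC cH, hb4]
  rw [iG, i1a, i1b, i2a, i2b, i3a, i3b, i4a, i4b] at hT
  rw [hT]
  -- the bounds
  have hA0 : 0 ≤ A := by
    rw [hA]
    refine Finset.sum_nonneg fun j hj => ?_
    obtain ⟨a, b, c⟩ := h1 j hj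
    exact mul_nonneg (mul_nonneg c (hp2 j)) (hle j b)
  have hB0 : 0 ≤ B := by
    rw [hB]
    refine Finset.sum_nonneg fun j hj => ?_
    obtain ⟨a, b, c⟩ := h2 j hj
    exact mul_nonneg c (hle j b)
  have hC0 : 0 ≤ C := by
    rw [hC]
    refine Finset.sum_nonneg fun j hj => ?_
    obtain ⟨a, b, c⟩ := h3 j hj
    exact mul_nonneg (mul_nonneg c (hp2 j)) (hle j b)
  have hh : ∀ j ∈ s3, 0 ≤ i1 (fun x => fH N x ^ 2 * cs j x) := fun j hj =>
    (O.H2 N j (h3 j hj).1 (h3 j hj).2.1).1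
  have hb0 : 0 ≤ b4 := by
    rw [hb4]
    refine Finset.sum_nonneg fun j hj => ?_
    exact mul_nonneg (mul_nonneg (h3 j hj).2.2 (hp2 j)) (hh j hj)
  refine Coup_ar (D := Real.pi ^ 2 * (N : ℝ) ^ 2) hA0 hB0 hC0 hb0 ?_ ?_ ?_ ?_ ?_ ?_ ?_
  · rw [hb4, hC, Finset.mul_sum]
    refine Finset.sum_le_sum fun j hj => ?_
    obtain ⟨a, b, c⟩ := h3 j hj
    have hj0 : (1 : ℝ) ≤ j := by exact_mod_cast a
    have hjN : (j : ℝ) ≤ N := by exact_mod_cast b
    have hNp : (0 : ℝ) < N := by linarith only [hj0, hjN]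
    have k1 := (O.H2 N j a b).2
    rw [le_div_iff₀ (pow_pos (mul_pos (mul_pos two_pos hpi) (mul_pos (by norm_num) hNp)) 2)] at k1
    have k2 : 0 ≤ γ j * (2 * Real.pi * j) := mul_nonneg c (hp2 j)
    generalize i1 (fun x => fH N x ^ 2 * cs j x) = q at *
    calc 1024 * (Real.pi ^ 2 * (N : ℝ) ^ 2) * (γ j * (2 * Real.pi * j) * q)
        = γ j * (2 * Real.pi * j) * (q * (2 * Real.pi * (16 * N)) ^ 2) := by ring
      _ ≤ γ j * (2 * Real.pi * j) * (((N : ℝ) - j) / 2) := mul_le_mul_of_nonneg_left k1 k2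
  · rw [ht2]
    refine Finset.sum_nonneg fun j hj => ?_
    exact mul_nonneg (mul_nonneg (mul_nonneg (mul_nonneg (h3 j hj).2.2 (hp2 j)) (hp2 j))
      (mul_nonneg hpi.le (Nat.cast_nonneg j))) (hh j hj)
  · rw [ht2, hb4, Finset.mul_sum]
    refine Finset.sum_le_sum fun j hj => ?_
    obtain ⟨a, b, c⟩ := h3 j hj
    have hjN : (j : ℝ) ≤ N := by exact_mod_cast b
    have k0 := hh j hj
    have k1 : (j : ℝ) ^ 2 ≤ (N : ℝ) ^ 2 := pow_le_pow_left₀ (Nat.cast_nonneg j) hjN 2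
    have k2 : 0 ≤ 2 * Real.pi ^ 2 * (γ j * (2 * Real.pi * j) *
      i1 (fun x => fH N x ^ 2 * cs j x)) :=
      mul_nonneg (mul_nonneg zero_le_two (sq_nonneg _)) (mul_nonneg (mul_nonneg c (hp2 j)) k0)
    generalize i1 (fun x => fH N x ^ 2 * cs j x) = q at *
    calc γ j * (2 * Real.pi * j) * (2 * Real.pi * j) * (Real.pi * j) * q
        = 2 * Real.pi ^ 2 * (γ j * (2 * Real.pi * j) * q) * (j : ℝ) ^ 2 := by ring
      _ ≤ 2 * Real.pi ^ 2 * (γ j * (2 * Real.pi * j) * q) * (N : ℝ) ^ 2 :=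
        mul_le_mul_of_nonneg_left k1 k2
      _ = _ := by ring
  · rw [ht3]
    refine Finset.sum_nonneg fun j hj => ?_
    obtain ⟨a, b, c⟩ := h1 j hj
    exact mul_nonneg (mul_nonneg (mul_nonneg (mul_nonneg c (hp2 j)) (hp2 j))
      (mul_nonneg hpi.le (Nat.cast_nonneg j))) (hle j b)
  · rw [ht3, hA, Finset.mul_sum]
    refine Finset.sum_le_sum fun j hj => ?_
    obtain ⟨a, b, c⟩ := h1 j hj
    have hjN : (j : ℝ) ≤ N := by exact_mod_cast b
    have k0 := hle j b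
    have k1 : (j : ℝ) ^ 2 ≤ (N : ℝ) ^ 2 := pow_le_pow_left₀ (Nat.cast_nonneg j) hjN 2
    have k2 : 0 ≤ 2 * Real.pi ^ 2 * (α j * (2 * Real.pi * j) * (((N : ℝ) - j) / 2)) :=
      mul_nonneg (mul_nonneg zero_le_two (sq_nonneg _)) (mul_nonneg (mul_nonneg c (hp2 j)) k0)
    calc α j * (2 * Real.pi * j) * (2 * Real.pi * j) * (Real.pi * j) * (((N : ℝ) - j) / 2)
        = 2 * Real.pi ^ 2 * (α j * (2 * Real.pi * j) * (((N : ℝ) - j) / 2)) * (j : ℝ) ^ 2 := by ring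
      _ ≤ 2 * Real.pi ^ 2 * (α j * (2 * Real.pi * j) * (((N : ℝ) - j) / 2)) * (N : ℝ) ^ 2 :=
          mul_le_mul_of_nonneg_left k1 k2
      _ = _ := by ring
  · rw [ht4]
    refine Finset.sum_nonneg fun j hj => ?_
    obtain ⟨a, b, c⟩ := h1 j hj
    exact mul_nonneg (mul_nonneg c (hp2 j)) (O.dF2 N j a b).1
  · rw [ht4, hA, Finset.mul_sum]
    refine Finset.sum_le_sum fun j hj => ?_
    obtain ⟨a, b, c⟩ := h1 j hj
    have k1 := (O.dF2 N j a b).2
    have k2 : 0 ≤ α j * (2 * Real.pi * j) := mul_nonneg c (hp2 j)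
    calc α j * (2 * Real.pi * j) * i1 (fun x => deriv (fF N) x ^ 2 * cs j x)
        ≤ α j * (2 * Real.pi * j) * ((2 * Real.pi * (2 * N)) ^ 2 * (((N : ℝ) - j) / 2)) :=
          mul_le_mul_of_nonneg_left k1 k2
      _ = _ := by ring

/-! ### The scales -/

theorem Coup_RR {n l : ℕ} (h : n < l) : 32 * RR n ≤ RR l := by
  unfold RR
  have e : 32 * 2 ^ ((n + 2) ^ 3) = 2 ^ (5 + (n + 2) ^ 3) := by
    have h5 : (32 : ℕ) = 2 ^ 5 := by norm_num
    rw [h5, pow_add]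
  rw [e]
  refine Nat.pow_le_pow_right (by norm_num) ?_
  have h1 : (n + 3) ^ 3 ≤ (l + 2) ^ 3 := Nat.pow_le_pow_left (by omega) 3
  have h2 : 5 + (n + 2) ^ 3 ≤ (n + 3) ^ 3 := by nlinarith [Nat.zero_le n]
  omega

theorem Coup_NN {n l : ℕ} (h : n < l) : 1024 * NN n ≤ NN l := by
  unfold NN
  have h1 := Nat.pow_le_pow_left (Coup_RR h) 2
  calc 1024 * RR n ^ 2 = (32 * RR n) ^ 2 := by ring
    _ ≤ _ := h1

theorem Coup_NNle {n l : ℕ} (h : n ≤ l) : NN n ≤ NN l := by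
  rcases h.lt_or_eq with h | rfl
  · have := Coup_NN h
    omega
  · exact le_rfl

theorem Coup_RRge (n : ℕ) : 256 ≤ RR n := by
  unfold RR
  have h1 : 2 ^ 8 ≤ 2 ^ ((n + 2) ^ 3) := by
    refine Nat.pow_le_pow_right (by norm_num) ?_
    have h1 : 2 ^ 3 ≤ (n + 2) ^ 3 := Nat.pow_le_pow_left (by omega) 3
    omega
  exact h1

theorem Coup_NNge (n : ℕ) : 65536 ≤ NN n := by
  unfold NN
  have h1 := Nat.pow_le_pow_left (Coup_RRge n) 2
  exact h1

theorem Coup_ee (m : ℕ) : 0 ≤ ee' m ∧ ee' m ≤ 1 := by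
  unfold ee'
  split_ifs with h
  · exact ⟨le_rfl, zero_le_one⟩
  · refine ⟨(Real.exp_pos _).le, ?_⟩
    rw [Real.exp_le_one_iff]
    have : 0 ≤ bb (m - 1) := by
      unfold bb
      positivity
    linarith

/-! ### The basic functions as sums -/

theorem Coup_fF (N : ℕ) : fF N = CoupS (Finset.Ico N (2 * N)) (fun _ => 1) := by
  funext x
  unfold fF CoupS
  exact Finset.sum_congr rfl fun j _ => by ring

theorem Coup_fG (N : ℕ) : fG N = CoupC (Finset.Ico N (2 * N)) (fun _ => 1) := by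
  funext x
  unfold fG CoupC
  exact Finset.sum_congr rfl fun j _ => by ring

theorem Coup_fH (N : ℕ) :
    fH N = CoupS (Finset.Ico (16 * N) (17 * N)) (fun j => 1 / (2 * Real.pi * j)) := by
  funext x
  unfold fH CoupS
  exact Finset.sum_congr rfl fun j _ => by ring

theorem Coup_sn (k : ℕ) : sn k = CoupS {k} (fun _ => 1) := by
  funext x
  unfold CoupS
  rw [Finset.sum_singleton, one_mul]

theorem Coup_cs (k : ℕ) : cs k = CoupC {k} (fun _ => 1) := by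
  funext x
  unfold CoupC
  rw [Finset.sum_singleton, one_mul]

theorem Coup_psiSP (P : S_prod) (O : S_one) (m : ℕ) : SP (psi m) :=
  P.sp (O.p1_F _) (O.p1_G _) (O.p1_H _)

theorem Coup_chiSP (P : S_prod) (O : S_one) (m : ℕ) : SP (chi m) :=
  P.sp (O.p1_sn _) (O.p1_cs _) (O.p1_sn _)

/-- the coupling coefficient in terms of the main part and the pump mode -/
theorem Coup_exp (P : S_prod) (O : S_one) (G : S_trig) {n l : ℕ} (h : n < l) :
    cc n l = (nm l)⁻¹ ^ 2 * (nm n)⁻¹ * (tri (gp (psi l)) (gp (psi l)) (gp (psi n))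
      + ee' n * tri (gp (psi l)) (gp (psi l)) (gp (chi n))) := by
  have pl := Coup_psiSP P O l
  have cl := Coup_chiSP P O l
  have pn := Coup_psiSP P O n
  have cn := Coup_chiSP P O n
  have Al := Coup_gpF pl
  have Bl := Coup_gpF cl
  have An := Coup_gpF pn
  have Bn := Coup_gpF cn
  have gl : gp (th0 l) = fun x => gp (psi l) x + ee' l • gp (chi l) x := Coup_gp pl cl (ee' l)
  have gn : gp (th0 n) = fun x => gp (psi n) x + ee' n • gp (chi n) x := Coup_gp pn cn (ee' n)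
  have Cl : CoupF (gp (th0 l)) := by
    rw [gl]
    exact Coup_lin Al Bl _
  have Cn : CoupF (gp (th0 n)) := by
    rw [gn]
    exact Coup_lin An Bn _
  -- the scales
  obtain ⟨l', rfl⟩ : ∃ l', l = l' + 1 := ⟨l - 1, by omega⟩
  have k1 : 1024 * NN l' ≤ NN (l' + 1) := Coup_NN (Nat.lt_succ_self l')
  have k2 : NN n ≤ NN l' := Coup_NNle (by omega)
  have k3 : NN (n - 1) ≤ NN n := Coup_NNle (by omega)
  have k4 : 65536 ≤ NN (n - 1) := Coup_NNge _
  have hsub : l' + 1 - 1 = l' := rfl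
  have hH := G.H (NN (l' + 1))
  have hHn := G.H (NN n)
  have hcl : Trig {2 * (17 * NN (l' + 1 - 1) - 1)} (sn (2 * (17 * NN (l' + 1 - 1) - 1))) :=
    G.sn (Set.mem_singleton _)
  have hcn : Trig {2 * (17 * NN (n - 1) - 1)} (sn (2 * (17 * NN (n - 1) - 1))) :=
    G.sn (Set.mem_singleton _)
  have v1 : tri (gp (psi (l' + 1))) (gp (chi (l' + 1))) (gp (psi n)) = 0 := by
    refine Coup_van P G (O.p1_F _) (O.p1_G _) (O.p1_sn _) (O.p1_cs _) (O.p1_F _) (O.p1_G _)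
      hH hcl hHn ?_
    rintro a ⟨ha1, ha2⟩ b hb c ⟨hc1, hc2⟩
    rw [Set.mem_singleton_iff, hsub] at hb
    omega
  have v2 : tri (gp (chi (l' + 1))) (gp (psi (l' + 1))) (gp (psi n)) = 0 := by
    refine Coup_van P G (O.p1_sn _) (O.p1_cs _) (O.p1_F _) (O.p1_G _) (O.p1_F _) (O.p1_G _)
      hcl hH hHn ?_
    rintro b hb a ⟨ha1, ha2⟩ c ⟨hc1, hc2⟩
    rw [Set.mem_singleton_iff, hsub] at hb
    omega
  have v3 : tri (gp (chi (l' + 1))) (gp (chi (l' + 1))) (gp (psi n)) = 0 := by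
    refine Coup_van P G (O.p1_sn _) (O.p1_cs _) (O.p1_sn _) (O.p1_cs _) (O.p1_F _) (O.p1_G _)
      hcl hcl hHn ?_
    rintro b hb a ha c ⟨hc1, hc2⟩
    rw [Set.mem_singleton_iff, hsub] at hb ha
    omega
  have v4 : tri (gp (psi (l' + 1))) (gp (chi (l' + 1))) (gp (chi n)) = 0 := by
    refine Coup_van P G (O.p1_F _) (O.p1_G _) (O.p1_sn _) (O.p1_cs _) (O.p1_sn _) (O.p1_cs _)
      hH hcl hcn ?_
    rintro a ⟨ha1, ha2⟩ b hb c hc
    rw [Set.mem_singleton_iff, hsub] at hb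
    rw [Set.mem_singleton_iff] at hc
    omega
  have v5 : tri (gp (chi (l' + 1))) (gp (psi (l' + 1))) (gp (chi n)) = 0 := by
    refine Coup_van P G (O.p1_sn _) (O.p1_cs _) (O.p1_F _) (O.p1_G _) (O.p1_sn _) (O.p1_cs _)
      hcl hH hcn ?_
    rintro b hb a ⟨ha1, ha2⟩ c hc
    rw [Set.mem_singleton_iff, hsub] at hb
    rw [Set.mem_singleton_iff] at hc
    omega
  have v6 : tri (gp (chi (l' + 1))) (gp (chi (l' + 1))) (gp (chi n)) = 0 := by
    refine Coup_van P G (O.p1_sn _) (O.p1_cs _) (O.p1_sn _) (O.p1_cs _) (O.p1_sn _) (O.p1_cs _)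
      hcl hcl hcn ?_
    rintro b hb a ha c hc
    rw [Set.mem_singleton_iff, hsub] at hb ha
    rw [Set.mem_singleton_iff] at hc
    omega
  have e0 : cc n (l' + 1) = (nm (l' + 1))⁻¹ ^ 2 * (nm n)⁻¹ *
      tri (gp (th0 (l' + 1))) (gp (th0 (l' + 1))) (gp (th0 n)) := by
    unfold cc
    have h1 := Coup_hom (u := gp (th0 (l' + 1))) (v := gp (th0 (l' + 1))) Cn
      (-(nm (l' + 1))⁻¹) (-(nm (l' + 1))⁻¹) (-(nm n)⁻¹)
    have h2 : tri (phi (l' + 1)) (phi (l' + 1)) (phi n) = _ := h1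
    rw [h2]
    ring
  rw [e0]
  congr 1
  have w1 : tri (gp (th0 (l' + 1))) (gp (th0 (l' + 1))) (gp (th0 n)) =
      tri (gp (th0 (l' + 1))) (gp (th0 (l' + 1))) (gp (psi n)) +
      ee' n * tri (gp (th0 (l' + 1))) (gp (th0 (l' + 1))) (gp (chi n)) := by
    rw [gn]
    exact Coup_tri3 Cl Cl An Bn _
  have w2 : ∀ w : V → V, CoupF w → tri (gp (th0 (l' + 1))) (gp (th0 (l' + 1))) w =
      tri (gp (psi (l' + 1))) (gp (psi (l' + 1))) w +
      ee' (l' + 1) * tri (gp (psi (l' + 1))) (gp (chi (l' + 1))) w +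
      ee' (l' + 1) * (tri (gp (chi (l' + 1))) (gp (psi (l' + 1))) w +
        ee' (l' + 1) * tri (gp (chi (l' + 1))) (gp (chi (l' + 1))) w) := by
    intro w hw
    have q1 : tri (gp (th0 (l' + 1))) (gp (th0 (l' + 1))) w =
        tri (gp (psi (l' + 1))) (gp (th0 (l' + 1))) w +
        ee' (l' + 1) * tri (gp (chi (l' + 1))) (gp (th0 (l' + 1))) w := by
      have := Coup_tri1 Al Bl Cl hw (ee' (l' + 1))
      rw [← gl] at this
      exact this
    have q2 : tri (gp (psi (l' + 1))) (gp (th0 (l' + 1))) w =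
        tri (gp (psi (l' + 1))) (gp (psi (l' + 1))) w +
        ee' (l' + 1) * tri (gp (psi (l' + 1))) (gp (chi (l' + 1))) w := by
      have := Coup_tri2 Al Al Bl hw (ee' (l' + 1))
      rw [← gl] at this
      exact this
    have q3 : tri (gp (chi (l' + 1))) (gp (th0 (l' + 1))) w =
        tri (gp (chi (l' + 1))) (gp (psi (l' + 1))) w +
        ee' (l' + 1) * tri (gp (chi (l' + 1))) (gp (chi (l' + 1))) w := by
      have := Coup_tri2 Bl Al Bl hw (ee' (l' + 1))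
      rw [← gl] at this
      exact this
    rw [q1, q2, q3]
  rw [w1, w2 _ An, w2 _ Bn, v1, v2, v3, v4, v5, v6]
  ring

/-! ### The sums -/

theorem Coup_sumle (s : Finset ℕ) (f : ℕ → ℝ) (m : ℕ) (hm : s.card = m) {a b : ℝ}
    (h : ∀ j ∈ s, a ≤ f j ∧ f j ≤ b) : m * a ≤ ∑ j ∈ s, f j ∧ ∑ j ∈ s, f j ≤ m * b := by
  constructor
  · have h1 := Finset.card_nsmul_le_sum s f a fun j hj => (h j hj).1
    rwa [nsmul_eq_mul, hm] at h1
  · have h1 := Finset.sum_le_card_nsmul s f b fun j hj => (h j hj).2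
    rwa [nsmul_eq_mul, hm] at h1

/-! ### Inequalities between real numbers -/

theorem Coup_r1 {p M N j : ℝ} (hp : 0 ≤ p) (hM : 0 ≤ M) (hN : 1024 * M ≤ N) (j1 : M ≤ j)
    (j2 : j ≤ 2 * M) : p * M * (3 * N / 8) ≤ 1 * (p * j) * ((N - j) / 2) ∧
    1 * (p * j) * ((N - j) / 2) ≤ p * (2 * M) * (N / 2) := by
  have hj : 0 ≤ j := hM.trans j1
  have h1 : 3 * N / 8 ≤ (N - j) / 2 := by linarith only [hM, hN, j2]
  have h2 : (N - j) / 2 ≤ N / 2 := by linarith only [hj]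
  have h3 : 0 ≤ 3 * N / 8 := by linarith only [hM, hN]
  rw [one_mul]
  exact ⟨mul_le_mul (mul_le_mul_of_nonneg_left j1 hp) h1 h3 (mul_nonneg hp hj),
    mul_le_mul (mul_le_mul_of_nonneg_left j2 hp) h2 (h3.trans h1)
      (mul_nonneg hp (hj.trans j2))⟩

theorem Coup_r2 {p M N A B C t : ℝ} (hp3 : 3 < p) (hp4 : p ≤ 4) (hM : 0 < M) (hN : 0 < N)
    (sA : M * (2 * p * M * (3 * N / 8)) ≤ A ∧ A ≤ M * (2 * p * (2 * M) * (N / 2)))
    (sB : M * (3 * N / 8) ≤ B ∧ B ≤ M * (N / 2)) (sC : M * (3 * N / 8) ≤ C ∧ C ≤ M * (N / 2))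
    (g1 : 31 / 32 * (A * B * C) ≤ t) (g2 : t ≤ 2 * (A * B * C)) :
    (3 / 10) * (M ^ 4 * N ^ 3) ≤ t ∧ t ≤ 4 * (M ^ 4 * N ^ 3) := by
  have hp0 : 0 < p := lt_trans (by norm_num) hp3
  have z0 : (0 : ℝ) ≤ 3 * N / 8 :=
    div_nonneg (mul_nonneg (by norm_num) hN.le) (by norm_num)
  have b0 : (0 : ℝ) ≤ M * (3 * N / 8) := mul_nonneg hM.le z0
  have a0 : (0 : ℝ) ≤ M * (2 * p * M * (3 * N / 8)) :=
    mul_nonneg hM.le (mul_nonneg (mul_nonneg (mul_nonneg zero_le_two hp0.le) hM.le) z0)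
  have lowAB : (M * (2 * p * M * (3 * N / 8))) * (M * (3 * N / 8)) ≤ A * B :=
    mul_le_mul sA.1 sB.1 b0 (a0.trans sA.1)
  have lowABC : (M * (2 * p * M * (3 * N / 8))) * (M * (3 * N / 8)) * (M * (3 * N / 8)) ≤
      A * B * C := mul_le_mul lowAB sC.1 b0 ((mul_nonneg a0 b0).trans lowAB)
  have upAB : A * B ≤ (M * (2 * p * (2 * M) * (N / 2))) * (M * (N / 2)) :=
    mul_le_mul sA.2 sB.2 (b0.trans sB.1) ((a0.trans sA.1).trans sA.2)
  have upABC : A * B * C ≤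
      (M * (2 * p * (2 * M) * (N / 2))) * (M * (N / 2)) * (M * (N / 2)) :=
    mul_le_mul upAB sC.2 (b0.trans sC.1) (((mul_nonneg a0 b0).trans lowAB).trans upAB)
  have hq : (0 : ℝ) ≤ M ^ 4 * N ^ 3 := mul_nonneg (pow_nonneg hM.le 4) (pow_nonneg hN.le 3)
  have e1 : (M * (2 * p * M * (3 * N / 8))) * (M * (3 * N / 8)) * (M * (3 * N / 8)) =
      27 / 256 * p * (M ^ 4 * N ^ 3) := by ring
  have e2 : (M * (2 * p * (2 * M) * (N / 2))) * (M * (N / 2)) * (M * (N / 2)) =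
      p / 2 * (M ^ 4 * N ^ 3) := by ring
  rw [e1] at lowABC
  rw [e2] at upABC
  generalize A * B * C = S at *
  have k3 := mul_le_mul_of_nonneg_right hp3.le hq
  have k4 := mul_le_mul_of_nonneg_right hp4 hq
  generalize M ^ 4 * N ^ 3 = Q at *
  constructor
  · linarith only [g1, lowABC, k3, hq]
  · linarith only [g2, upABC, k4, hq]

theorem Coup_r3 {p M N a b c t : ℝ} (hp0 : 0 ≤ p) (hp8 : p ≤ 8) (hM : 65536 ≤ M)
    (hN : 1024 * M ≤ N) (a0 : 0 ≤ a) (a1 : a ≤ 4 * M) (b0 : 0 ≤ b) (b1 : b ≤ 4 * M)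
    (c0 : 0 ≤ c) (c1 : c ≤ 34 * M)
    (g1 : 31 / 32 * (1 * (p * a) * ((N - a) / 2) * (1 * ((N - b) / 2)) *
      (1 * (p * c) * ((N - c) / 2))) ≤ t)
    (g2 : t ≤ 2 * (1 * (p * a) * ((N - a) / 2) * (1 * ((N - b) / 2)) *
      (1 * (p * c) * ((N - c) / 2)))) :
    0 ≤ t ∧ t ≤ 2 * (M ^ 4 * N ^ 3) := by
  rw [one_mul, one_mul, one_mul] at g1 g2
  have hM0 : 0 ≤ M := le_trans (by norm_num) hM
  have hN0 : 0 ≤ N := le_trans (mul_nonneg (by norm_num) hM0) hN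
  have hMN : 34 * M ≤ N := (mul_le_mul_of_nonneg_right (by norm_num) hM0).trans hN
  have hMN' : 4 * M ≤ N := (mul_le_mul_of_nonneg_right (by norm_num) hM0).trans hN
  have xx : ∀ u : ℝ, u ≤ N → 0 ≤ (N - u) / 2 := fun u hu => div_nonneg (sub_nonneg.2 hu) zero_le_two
  have yy : ∀ u : ℝ, 0 ≤ u → (N - u) / 2 ≤ N / 2 := fun u hu =>
    div_le_div_of_nonneg_right (sub_le_self _ hu) zero_le_two
  have xa := xx a (a1.trans hMN')
  have xb := xx b (b1.trans hMN')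
  have xc := xx c (c1.trans hMN)
  have ya := yy a a0
  have yb := yy b b0
  have yc := yy c c0
  have z1 : 0 ≤ 8 * (4 * M) := mul_nonneg (by norm_num) (mul_nonneg (by norm_num) hM0)
  have z2 : 0 ≤ 8 * (34 * M) := mul_nonneg (by norm_num) (mul_nonneg (by norm_num) hM0)
  have z3 : 0 ≤ N / 2 := div_nonneg hN0 zero_le_two
  have hA0 : 0 ≤ p * a * ((N - a) / 2) := mul_nonneg (mul_nonneg hp0 a0) xa
  have hC0 : 0 ≤ p * c * ((N - c) / 2) := mul_nonneg (mul_nonneg hp0 c0) xc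
  have hpa : p * a ≤ 8 * (4 * M) := mul_le_mul hp8 a1 a0 (by norm_num)
  have hpc : p * c ≤ 8 * (34 * M) := mul_le_mul hp8 c1 c0 (by norm_num)
  have hA1 : p * a * ((N - a) / 2) ≤ 8 * (4 * M) * (N / 2) :=
    mul_le_mul hpa ya xa z1
  have hC1 : p * c * ((N - c) / 2) ≤ 8 * (34 * M) * (N / 2) :=
    mul_le_mul hpc yc xc z2
  have hAB0 := mul_nonneg hA0 xb
  have hABC := mul_nonneg hAB0 hC0
  have k1 := mul_le_mul hA1 yb xb (mul_nonneg z1 z3)
  have k2 := mul_le_mul k1 hC1 hC0 (hAB0.trans k1)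
  have k3 : 8 * (4 * M) * (N / 2) * (N / 2) * (8 * (34 * M) * (N / 2)) =
      1088 * (M ^ 2 * N ^ 3) := by ring
  rw [k3] at k2
  have k5 : 1088 ≤ M ^ 2 := by
    have := mul_le_mul hM hM (by norm_num) hM0
    rw [← pow_two M] at this
    exact le_trans (by norm_num) this
  have k6 : 0 ≤ M ^ 2 * N ^ 3 := mul_nonneg (pow_nonneg hM0 2) (pow_nonneg hN0 3)
  have k7 := mul_le_mul_of_nonneg_right k5 k6
  have k8 : M ^ 2 * (M ^ 2 * N ^ 3) = M ^ 4 * N ^ 3 := by ring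
  rw [k8] at k7
  generalize p * a * ((N - a) / 2) * ((N - b) / 2) * (p * c * ((N - c) / 2)) = S at *
  generalize M ^ 4 * N ^ 3 = Q at *
  generalize M ^ 2 * N ^ 3 = Q' at *
  constructor
  · linarith only [g1, hABC]
  · linarith only [g2, k2, k7]

theorem Coup_r4 {R N e T₁ T₂ x y : ℝ} (hR0 : 256 ≤ R) (hN0 : 65536 ≤ N) (e0 : 0 ≤ e)
    (e1 : e ≤ 1) (t1 : 3 / 10 * ((R ^ 2) ^ 4 * N ^ 3) ≤ T₁) (t3 : 0 ≤ T₂)
    (t2 : T₁ ≤ 4 * ((R ^ 2) ^ 4 * N ^ 3)) (t4 : T₂ ≤ 2 * ((R ^ 2) ^ 4 * N ^ 3))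
    (l1 : N ^ 3 / 8 ≤ x ^ 2) (l2 : x ^ 2 ≤ N ^ 3 / 4) (l3 : 0 < x)
    (n1 : (R ^ 2) ^ 3 / 8 ≤ y ^ 2) (n2 : y ^ 2 ≤ (R ^ 2) ^ 3 / 4) (n3 : 0 < y) :
    R ^ 5 / 2 ≤ x⁻¹ ^ 2 * y⁻¹ * (T₁ + e * T₂) ∧
      x⁻¹ ^ 2 * y⁻¹ * (T₁ + e * T₂) ≤ 2 ^ 10 * R ^ 5 := by
  have hRp : 0 < R := lt_of_lt_of_le (by norm_num) hR0
  have hNp : 0 < N := lt_of_lt_of_le (by norm_num) hN0
  have hR3 : 0 < R ^ 3 := pow_pos hRp 3
  have hR5 : 0 < R ^ 5 := pow_pos hRp 5
  have hN3 : 0 < N ^ 3 := pow_pos hNp 3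
  have q0 : (R ^ 2) ^ 4 * N ^ 3 = R ^ 5 * (R ^ 3 * N ^ 3) := by ring
  rw [q0] at t1 t2 t4
  have q1 : (R ^ 2) ^ 3 = (R ^ 3) ^ 2 := by ring
  rw [q1] at n1 n2
  have h1 := mul_le_mul e1 t4 t3 zero_le_one
  have h2 := mul_nonneg e0 t3
  generalize R ^ 5 = R5 at *
  generalize R ^ 3 = R3 at *
  generalize N ^ 3 = N3 at *
  clear q0 q1
  -- the norms
  have m1 : y ≤ R3 / 2 := by
    refine le_of_sq_le_sq ?_ (by linarith only [hR3])
    calc y ^ 2 ≤ R3 ^ 2 / 4 := n2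
      _ = (R3 / 2) ^ 2 := by ring
  have m2 : R3 / 3 ≤ y := by
    refine le_of_sq_le_sq ?_ n3.le
    calc (R3 / 3) ^ 2 = R3 ^ 2 / 9 := by ring
      _ ≤ R3 ^ 2 / 8 := by
        have : 0 ≤ R3 ^ 2 := sq_nonneg _
        linarith only [this]
      _ ≤ _ := n1
  have d1 : x ^ 2 * y ≤ N3 / 4 * (R3 / 2) := mul_le_mul l2 m1 n3.le
    (div_nonneg hN3.le (by norm_num))
  have d2 : N3 / 8 * (R3 / 3) ≤ x ^ 2 * y := mul_le_mul l1 m2
    (div_nonneg hR3.le (by norm_num)) (sq_nonneg _)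
  have dp : 0 < x ^ 2 * y := mul_pos (pow_pos l3 2) n3
  have ee : x⁻¹ ^ 2 * y⁻¹ * (T₁ + e * T₂) = (T₁ + e * T₂) / (x ^ 2 * y) := by
    rw [div_eq_mul_inv, mul_inv, inv_pow]
    ring
  rw [ee]
  have hQ : 0 ≤ R5 * (R3 * N3) := mul_nonneg hR5.le (mul_nonneg hR3.le hN3.le)
  generalize x ^ 2 * y = z at *
  constructor
  · rw [le_div_iff₀ dp]
    have h3 := mul_le_mul_of_nonneg_left d1 (div_nonneg hR5.le zero_le_two : 0 ≤ R5 / 2)
    have h4 : R5 / 2 * (N3 / 4 * (R3 / 2)) = 1 / 16 * (R5 * (R3 * N3)) := by ring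
    rw [h4] at h3
    generalize R5 * (R3 * N3) = Q at *
    linarith only [h1, h2, h3, t1, t2, hQ]
  · rw [div_le_iff₀ dp]
    have h3 := mul_le_mul_of_nonneg_left d2 (mul_nonneg (by norm_num) hR5.le : 0 ≤ 2 ^ 10 * R5)
    have h4 : 2 ^ 10 * R5 * (N3 / 8 * (R3 / 3)) = (2 ^ 10 / 24) * (R5 * (R3 * N3)) := by ring
    rw [h4] at h3
    generalize R5 * (R3 * N3) = Q at *
    linarith only [h1, h2, h3, t1, t2, hQ]

/-- the main term -/
theorem Coup_T1 (P : S_prod) (O : S_one) {n l : ℕ} (h : n < l) :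
    (3 / 10) * ((NN n : ℝ) ^ 4 * (NN l : ℝ) ^ 3) ≤
      tri (gp (psi l)) (gp (psi l)) (gp (psi n)) ∧
    tri (gp (psi l)) (gp (psi l)) (gp (psi n)) ≤ 4 * ((NN n : ℝ) ^ 4 * (NN l : ℝ) ^ 3) := by
  have hpi := Real.pi_pos
  have hpi3 := Real.pi_gt_three
  have hpi4 := Real.pi_le_four
  obtain ⟨N, hN⟩ : ∃ N, N = NN l := ⟨_, rfl⟩
  obtain ⟨M, hM⟩ : ∃ M, M = NN n := ⟨_, rfl⟩
  have h0 : 1024 * M ≤ N := by
    rw [hN, hM]
    exact Coup_NN h
  have hM0 : 65536 ≤ M := by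
    rw [hM]
    exact Coup_NNge n
  have e1 : psi l = prd (fF N) (fG N) (fH N) := by
    rw [hN]
    rfl
  have e2 : psi n = prd (CoupS (Finset.Ico M (2 * M)) (fun _ => 1))
      (CoupC (Finset.Ico M (2 * M)) (fun _ => 1))
      (CoupS (Finset.Ico (16 * M) (17 * M)) (fun j => 1 / (2 * Real.pi * j))) := by
    rw [← Coup_fF, ← Coup_fG, ← Coup_fH, hM]
    rfl
  rw [e1, e2, ← hM, ← hN]
  have g := Coup_gen P O (N := N) (s1 := Finset.Ico M (2 * M)) (s2 := Finset.Ico M (2 * M))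
    (s3 := Finset.Ico (16 * M) (17 * M)) (α := fun _ => 1) (β := fun _ => 1)
    (γ := fun j => 1 / (2 * Real.pi * j))
    (fun j hj => by
      rw [Finset.mem_Ico] at hj
      exact ⟨by omega, by omega, zero_le_one⟩)
    (fun j hj => by
      rw [Finset.mem_Ico] at hj
      exact ⟨by omega, by omega, zero_le_one⟩)
    (fun j hj => by
      rw [Finset.mem_Ico] at hj
      exact ⟨by omega, by omega, div_nonneg zero_le_one
        (mul_nonneg (mul_nonneg zero_le_two hpi.le) (Nat.cast_nonneg j))⟩) rfl rfl rfl rfl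
  have hNr : (1024 : ℝ) * M ≤ N := by exact_mod_cast h0
  have hMr : (65536 : ℝ) ≤ M := by exact_mod_cast hM0
  have hM1 : (0 : ℝ) < M := lt_of_lt_of_le (by norm_num) hMr
  have hN0 : (0 : ℝ) < N := by linarith only [hM1, hNr]
  have hp0 : (0 : ℝ) ≤ 2 * Real.pi := mul_nonneg zero_le_two hpi.le
  have sA := Coup_sumle (Finset.Ico M (2 * M))
    (fun j => (1 : ℝ) * (2 * Real.pi * j) * (((N : ℝ) - j) / 2)) M
    (by rw [Nat.card_Ico]; omega) (a := 2 * Real.pi * M * (3 * N / 8))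
    (b := 2 * Real.pi * (2 * M) * (N / 2)) (fun j hj => by
      rw [Finset.mem_Ico] at hj
      have j1 : (M : ℝ) ≤ j := by exact_mod_cast hj.1
      have j2 : (j : ℝ) ≤ 2 * M := by exact_mod_cast hj.2.le
      exact Coup_r1 hp0 hM1.le hNr j1 j2)
  have sB := Coup_sumle (Finset.Ico M (2 * M))
    (fun j => (1 : ℝ) * (((N : ℝ) - j) / 2)) M
    (by rw [Nat.card_Ico]; omega) (a := 3 * N / 8) (b := N / 2) (fun j hj => by
      rw [Finset.mem_Ico] at hj
      have j2 : (j : ℝ) ≤ 2 * M := by exact_mod_cast hj.2.le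
      have j3 : (0 : ℝ) ≤ j := Nat.cast_nonneg j
      constructor
      · linarith only [j2, hNr, hM1]
      · linarith only [j3])
  have sC := Coup_sumle (Finset.Ico (16 * M) (17 * M))
    (fun j => 1 / (2 * Real.pi * j) * (2 * Real.pi * j) * (((N : ℝ) - j) / 2)) M
    (by rw [Nat.card_Ico]; omega) (a := 3 * N / 8) (b := N / 2) (fun j hj => by
      rw [Finset.mem_Ico] at hj
      have j1 : (1 : ℕ) ≤ j := by omega
      have j1' : (0 : ℝ) < j := by exact_mod_cast j1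
      have j2 : (j : ℝ) ≤ 17 * M := by exact_mod_cast hj.2.le
      have e : 1 / (2 * Real.pi * j) * (2 * Real.pi * j) = 1 :=
        one_div_mul_cancel (mul_pos (mul_pos two_pos hpi) j1').ne'
      rw [e, one_mul]
      constructor
      · linarith only [j2, hNr, hM1]
      · linarith only [j1'])
  exact Coup_r2 hpi3 hpi4 hM1 hN0 sA sB sC g.1 g.2

/-- the term with the pump mode -/
theorem Coup_T2 (P : S_prod) (O : S_one) {n l : ℕ} (h : n < l) :
    0 ≤ tri (gp (psi l)) (gp (psi l)) (gp (chi n)) ∧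
    tri (gp (psi l)) (gp (psi l)) (gp (chi n)) ≤ 2 * ((NN n : ℝ) ^ 4 * (NN l : ℝ) ^ 3) := by
  have hpi := Real.pi_pos
  have hpi4 := Real.pi_le_four
  obtain ⟨N, hN⟩ : ∃ N, N = NN l := ⟨_, rfl⟩
  obtain ⟨M, hM⟩ : ∃ M, M = NN n := ⟨_, rfl⟩
  obtain ⟨m, hm⟩ : ∃ m, m = NN (n - 1) := ⟨_, rfl⟩
  have h0 : 1024 * M ≤ N := by
    rw [hN, hM]
    exact Coup_NN h
  have hM0 : 65536 ≤ M := by
    rw [hM]
    exact Coup_NNge n
  have hmM : m ≤ M := by
    rw [hm, hM]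
    exact Coup_NNle (by omega)
  have hm0 : 65536 ≤ m := by
    rw [hm]
    exact Coup_NNge _
  have e1 : psi l = prd (fF N) (fG N) (fH N) := by
    rw [hN]
    rfl
  obtain ⟨a, ha⟩ : ∃ a, a = 4 * m - 3 := ⟨_, rfl⟩
  obtain ⟨b, hb⟩ : ∃ b, b = 4 * m - 2 := ⟨_, rfl⟩
  obtain ⟨c, hc⟩ : ∃ c, c = 2 * (17 * m - 1) := ⟨_, rfl⟩
  have e2 : chi n = prd (CoupS {a} (fun _ => 1)) (CoupC {b} (fun _ => 1))
      (CoupS {c} (fun _ => 1)) := by
    rw [← Coup_sn, ← Coup_cs, ← Coup_sn, ha, hb, hc, hm]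
    rfl
  rw [e1, e2, ← hM, ← hN]
  have g := Coup_gen P O (N := N) (s1 := {a}) (s2 := {b})
    (s3 := {c}) (α := fun _ => 1) (β := fun _ => 1) (γ := fun _ => 1)
    (fun j hj => by
      rw [Finset.mem_singleton] at hj
      exact ⟨by omega, by omega, zero_le_one⟩)
    (fun j hj => by
      rw [Finset.mem_singleton] at hj
      exact ⟨by omega, by omega, zero_le_one⟩)
    (fun j hj => by
      rw [Finset.mem_singleton] at hj
      exact ⟨by omega, by omega, zero_le_one⟩) rfl rfl rfl rfl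
  rw [Finset.sum_singleton, Finset.sum_singleton, Finset.sum_singleton] at g
  have hNr : (1024 : ℝ) * M ≤ N := by exact_mod_cast h0
  have hMr : (65536 : ℝ) ≤ M := by exact_mod_cast hM0
  have a1 : (a : ℝ) ≤ 4 * M := by exact_mod_cast (by omega : a ≤ 4 * M)
  have b1 : (b : ℝ) ≤ 4 * M := by exact_mod_cast (by omega : b ≤ 4 * M)
  have c1 : (c : ℝ) ≤ 34 * M := by exact_mod_cast (by omega : c ≤ 34 * M)
  have hp0 : (0 : ℝ) ≤ 2 * Real.pi := mul_nonneg zero_le_two hpi.le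
  exact Coup_r3 hp0 (by linarith only [hpi4]) hMr hNr (Nat.cast_nonneg a) a1 (Nat.cast_nonneg b) b1
    (Nat.cast_nonneg c) c1 g.1 g.2

/-! ### The bounds of the coupling coefficients -/

theorem Coup_both (P : S_prod) (O : S_one) (G : S_trig) (h : S_nm) {n l : ℕ} (hl : n < l) :
    (RR n : ℝ) ^ 5 / 2 ≤ cc n l ∧ cc n l ≤ 2 ^ 10 * (RR n : ℝ) ^ 5 := by
  obtain ⟨t1, t2⟩ := Coup_T1 P O hl
  obtain ⟨t3, t4⟩ := Coup_T2 P O hl
  obtain ⟨e0, e1⟩ := Coup_ee n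
  rw [Coup_exp P O G hl]
  obtain ⟨⟨l1, l2⟩, l3⟩ := h l
  obtain ⟨⟨n1, n2⟩, n3⟩ := h n
  have hR : (NN n : ℝ) = (RR n : ℝ) ^ 2 := by
    unfold NN
    push_cast
    rfl
  have hR0 : (256 : ℝ) ≤ RR n := by exact_mod_cast Coup_RRge n
  have hN0 : (65536 : ℝ) ≤ NN l := by exact_mod_cast Coup_NNge l
  rw [hR] at t1 t2 t4 n1 n2
  exact Coup_r4 hR0 hN0 e0 e1 t1 t3 t2 t4 l1 l2 l3 n1 n2 n3

/-- lower bound of the main couplings -/
theorem s_cc (P : S_prod) (O : S_one) (G : S_trig) (h : S_nm) : S_cc := fun n =>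
  (Coup_both P O G h (Nat.lt_succ_self n)).1

/-- upper bound of all couplings -/
theorem s_ccu (P : S_prod) (O : S_one) (G : S_trig) (h : S_nm) : S_ccu := fun n l hl => by
  obtain ⟨h1, h2⟩ := Coup_both P O G h hl
  have h3 : 0 ≤ (RR n : ℝ) ^ 5 / 2 := by positivity
  rw [abs_of_nonneg (h3.trans h1)]
  exact h2

end Pool.Agent.H226.GB

end
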