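import Pool.Agent.H226.GM.S

/-! ## Loc1 -/

section

/-!
Local existence for the infinite system.  The terms other than the dissipation are bounded bilinear
maps in all the weighted spaces, with tame estimates, so that the contraction principle applied to
Duhamel's formula gives the solution.
-/

open MeasureTheory Set Filter Topology
open scoped BoundedContinuousFunction

namespace Pool.Agent.H226.GB

/-- the right side without the dissipation, at a fixed time -/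
noncomputable def Loc1_N (c : ℕ → ℕ → ℝ) (p : ℕ → ℝ) (x : ℕ → ℝ) (m : ℕ) : ℝ :=
  (∑ n ∈ Finset.range m, c n m * x n) * x m - (∑' l, if m < l then c m l * x l ^ 2 else 0)
    + (if m = 0 then 0 else p (m - 1) * x (m - 1) ^ 2) - p m * x m * x (m + 1)

theorem Loc1_FF (c : ℕ → ℕ → ℝ) (p ν : ℕ → ℝ) (a : ℕ → ℝ → ℝ) (m : ℕ) (t : ℝ) :
    FF c p ν a m t = Loc1_N c p (fun n => a n t) m - ν m * a m t := by
  unfold FF Loc1_N pm
  ring

theorem Loc1_one (m : ℕ) : (1 : ℝ) ≤ RR m := by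
  have h : 1 ≤ RR m := Nat.one_le_two_pow
  exact_mod_cast h

theorem Loc1_Rp (m k : ℕ) : (0 : ℝ) ≤ (RR m : ℝ) ^ k :=
  pow_nonneg (zero_le_one.trans (Loc1_one m)) k

theorem Loc1_abs4 (u v w z : ℝ) : |u - v + w - z| ≤ |u| + |v| + |w| + |z| :=
  (abs_sub _ _).trans (add_le_add ((abs_add_le _ _).trans (add_le_add (abs_sub _ _) le_rfl)) le_rfl)

theorem Loc1_mono {m n : ℕ} (h : m ≤ n) : (RR m : ℝ) ≤ RR n := by
  have h1 : RR m ≤ RR n :=
    Nat.pow_le_pow_right (by norm_num) (Nat.pow_le_pow_left (by omega) 3)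
  exact_mod_cast h1

/-- a summable weight -/
noncomputable def Loc1_w (n : ℕ) : ℝ := 1 / 2 / 2 ^ n

theorem Loc1_w0 (n : ℕ) : 0 ≤ Loc1_w n := by unfold Loc1_w; positivity

theorem Loc1_wsum : HasSum Loc1_w 1 := hasSum_geometric_two' 1

theorem Loc1_wfin (m : ℕ) : ∑ n ∈ Finset.range m, Loc1_w n ≤ 1 :=
  sum_le_hasSum _ (fun n _ => Loc1_w0 n) Loc1_wsum

theorem Loc1_wR (n : ℕ) : 1 ≤ Loc1_w n * RR n := by
  have h : 2 ^ (n + 1) ≤ RR n := by
    refine Nat.pow_le_pow_right (by norm_num) ?_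
    calc n + 1 ≤ (n + 2) ^ 1 := by rw [pow_one]; omega
      _ ≤ (n + 2) ^ 3 := Nat.pow_le_pow_right (by omega) (by norm_num)
  have h1 : (2 : ℝ) ^ (n + 1) ≤ RR n := by exact_mod_cast h
  have h2 : (0 : ℝ) < 2 ^ n := by positivity
  calc (1 : ℝ) = Loc1_w n * 2 ^ (n + 1) := by
        unfold Loc1_w; rw [pow_succ]; field_simp
    _ ≤ Loc1_w n * RR n := mul_le_mul_of_nonneg_left h1 (Loc1_w0 n)

theorem Loc1_five {x M : ℝ} {n m : ℕ} (hnm : n ≤ m) (h : (RR m : ℝ) ^ 6 * |x| ≤ M) :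
    (RR n : ℝ) ^ 5 * |x| ≤ M * Loc1_w n := by
  have hR := Loc1_one n
  have h2 : (RR n : ℝ) ^ 6 * |x| ≤ M :=
    le_trans (mul_le_mul_of_nonneg_right (pow_le_pow_left₀ (zero_le_one.trans hR)
      (Loc1_mono hnm) 6) (abs_nonneg x)) h
  have h3 : 0 ≤ (RR n : ℝ) ^ 5 * |x| := mul_nonneg (Loc1_Rp n 5) (abs_nonneg x)
  calc (RR n : ℝ) ^ 5 * |x| = 1 * ((RR n : ℝ) ^ 5 * |x|) := by ring
    _ ≤ (Loc1_w n * RR n) * ((RR n : ℝ) ^ 5 * |x|) :=
        mul_le_mul_of_nonneg_right (Loc1_wR n) h3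
    _ = ((RR n : ℝ) ^ 6 * |x|) * Loc1_w n := by ring
    _ ≤ M * Loc1_w n := mul_le_mul_of_nonneg_right h2 (Loc1_w0 n)

theorem Loc1_five' {x M : ℝ} {m l : ℕ} (hml : m ≤ l) (h : (RR l : ℝ) ^ 6 * |x| ≤ M) :
    (RR m : ℝ) ^ 5 * |x| ≤ M * Loc1_w l := by
  have hR := Loc1_one m
  exact le_trans (mul_le_mul_of_nonneg_right (pow_le_pow_left₀ (zero_le_one.trans hR)
      (Loc1_mono hml) 5)
      (abs_nonneg x)) (Loc1_five le_rfl h)

theorem Loc1_le {x M : ℝ} {m k : ℕ} (h : (RR m : ℝ) ^ k * |x| ≤ M) : |x| ≤ M := by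
  have h1 : (1 : ℝ) ≤ (RR m : ℝ) ^ k := one_le_pow₀ (Loc1_one m)
  calc |x| = 1 * |x| := by ring
    _ ≤ (RR m : ℝ) ^ k * |x| := mul_le_mul_of_nonneg_right h1 (abs_nonneg x)
    _ ≤ M := h

variable {c : ℕ → ℕ → ℝ} {p ν : ℕ → ℝ} {C : ℝ}

theorem Loc1_C0 (hc : Coef c p ν C) : 0 ≤ C := by
  have h := hc.c_le 0 1 (by norm_num)
  have h1 := Loc1_one 0
  by_contra hC
  push Not at hC
  have h2 : C * (RR 0 : ℝ) ^ 5 < 0 := mul_neg_of_neg_of_pos hC (by positivity)
  linarith [abs_nonneg (c 0 1)]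

theorem Loc1_S1 (hc : Coef c p ν C) {y : ℕ → ℝ} {M : ℝ} {m : ℕ} (hM : 0 ≤ M)
    (hy : ∀ n, n < m → (RR n : ℝ) ^ 5 * |y n| ≤ M * Loc1_w n) :
    |∑ n ∈ Finset.range m, c n m * y n| ≤ C * M := by
  have h0 := Loc1_C0 hc
  refine (Finset.abs_sum_le_sum_abs _ _).trans ?_
  have h1 : ∀ n ∈ Finset.range m, |c n m * y n| ≤ C * M * Loc1_w n := by
    intro n hn
    have hn' := Finset.mem_range.1 hn
    rw [abs_mul]
    calc |c n m| * |y n| ≤ (C * (RR n : ℝ) ^ 5) * |y n| :=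
          mul_le_mul_of_nonneg_right (hc.c_le n m hn') (abs_nonneg _)
      _ = C * ((RR n : ℝ) ^ 5 * |y n|) := by ring
      _ ≤ C * (M * Loc1_w n) := mul_le_mul_of_nonneg_left (hy n hn') h0
      _ = _ := by ring
  refine (Finset.sum_le_sum h1).trans ?_
  rw [← Finset.mul_sum]
  calc C * M * ∑ n ∈ Finset.range m, Loc1_w n ≤ C * M * 1 :=
        mul_le_mul_of_nonneg_left (Loc1_wfin m) (mul_nonneg h0 hM)
    _ = C * M := by ring

theorem Loc1_S2t (hc : Coef c p ν C) {y : ℕ → ℝ} {G : ℝ} {m : ℕ} (hG : 0 ≤ G)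
    (hy : ∀ l, m < l → (RR m : ℝ) ^ 5 * |y l| ≤ G * Loc1_w l) (l : ℕ) :
    ‖if m < l then c m l * y l else 0‖ ≤ C * G * Loc1_w l := by
  have h0 := Loc1_C0 hc
  split_ifs with hl
  · rw [norm_mul, Real.norm_eq_abs, Real.norm_eq_abs]
    calc |c m l| * |y l| ≤ (C * (RR m : ℝ) ^ 5) * |y l| :=
          mul_le_mul_of_nonneg_right (hc.c_le m l hl) (abs_nonneg _)
      _ = C * ((RR m : ℝ) ^ 5 * |y l|) := by ring
      _ ≤ C * (G * Loc1_w l) := mul_le_mul_of_nonneg_left (hy l hl) h0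
      _ = _ := by ring
  · rw [norm_zero]
    exact mul_nonneg (mul_nonneg h0 hG) (Loc1_w0 l)

theorem Loc1_S2s (hc : Coef c p ν C) {y : ℕ → ℝ} {G : ℝ} {m : ℕ} (hG : 0 ≤ G)
    (hy : ∀ l, m < l → (RR m : ℝ) ^ 5 * |y l| ≤ G * Loc1_w l) :
    Summable fun l => if m < l then c m l * y l else 0 :=
  Summable.of_norm_bounded (Loc1_wsum.summable.mul_left (C * G)) (Loc1_S2t hc hG hy)

theorem Loc1_S2 (hc : Coef c p ν C) {y : ℕ → ℝ} {G : ℝ} {m : ℕ} (hG : 0 ≤ G)
    (hy : ∀ l, m < l → (RR m : ℝ) ^ 5 * |y l| ≤ G * Loc1_w l) :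
    |∑' l, if m < l then c m l * y l else 0| ≤ C * G := by
  have h := tsum_of_norm_bounded (Loc1_wsum.mul_left (C * G)) (Loc1_S2t hc hG hy)
  rw [mul_one] at h
  exact h

/-- the tame estimate -/
theorem Loc1_bd (hc : Coef c p ν C) {x : ℕ → ℝ} {M E P P0 : ℝ} {k : ℕ}
    (hP : ∀ n, p n * (RR (n + 1) : ℝ) ^ k ≤ P) (hP0 : ∀ n, p n ≤ P0)
    (hx : ∀ n, (RR n : ℝ) ^ 6 * |x n| ≤ M) (hE : ∀ n, (RR n : ℝ) ^ k * |x n| ≤ E) (m : ℕ) :
    (RR m : ℝ) ^ k * |Loc1_N c p x m| ≤ (2 * C + P + P0) * M * E := by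
  have h0 := Loc1_C0 hc
  have hM : 0 ≤ M := le_trans (abs_nonneg _) (Loc1_le (hx 0))
  have hE0 : 0 ≤ E := le_trans (abs_nonneg _) (Loc1_le (hE 0))
  have hR := Loc1_one m
  have hRk : 0 ≤ (RR m : ℝ) ^ k := Loc1_Rp m k
  have t1 : (RR m : ℝ) ^ k * |(∑ n ∈ Finset.range m, c n m * x n) * x m| ≤ C * M * E := by
    rw [abs_mul]
    have h1 := Loc1_S1 (m := m) hc hM fun n _ => Loc1_five le_rfl (hx n)
    calc (RR m : ℝ) ^ k * (|∑ n ∈ Finset.range m, c n m * x n| * |x m|)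
        = |∑ n ∈ Finset.range m, c n m * x n| * ((RR m : ℝ) ^ k * |x m|) := by ring
      _ ≤ (C * M) * E := mul_le_mul h1 (hE m) (mul_nonneg hRk (abs_nonneg _)) (mul_nonneg h0 hM)
  have t2 : (RR m : ℝ) ^ k * |∑' l, if m < l then c m l * x l ^ 2 else 0| ≤ C * M * E := by
    have e : (RR m : ℝ) ^ k * |∑' l, if m < l then c m l * x l ^ 2 else 0|
        = |∑' l, if m < l then c m l * ((RR m : ℝ) ^ k * x l ^ 2) else 0| := by
      rw [← abs_of_nonneg hRk, ← abs_mul, ← tsum_mul_left, abs_of_nonneg hRk]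
      congr 1
      refine tsum_congr fun l => ?_
      split_ifs
      · ring
      · ring
    rw [e]
    have h2 := Loc1_S2 (m := m) (y := fun l => (RR m : ℝ) ^ k * x l ^ 2) hc (mul_nonneg hM hE0)
      (fun l hl => ?_)
    · calc _ ≤ C * (M * E) := h2
        _ = C * M * E := by ring
    · have h3 := Loc1_five' hl.le (hx l)
      have h4 : (RR m : ℝ) ^ k * |x l| ≤ E :=
        le_trans (mul_le_mul_of_nonneg_right (pow_le_pow_left₀ (zero_le_one.trans hR)
          (Loc1_mono hl.le) k) (abs_nonneg _)) (hE l)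
      calc (RR m : ℝ) ^ 5 * |(RR m : ℝ) ^ k * x l ^ 2|
          = ((RR m : ℝ) ^ 5 * |x l|) * ((RR m : ℝ) ^ k * |x l|) := by
            rw [abs_mul, abs_of_nonneg hRk, abs_pow]; ring
        _ ≤ (M * Loc1_w l) * E := mul_le_mul h3 h4 (mul_nonneg hRk (abs_nonneg _))
            (mul_nonneg hM (Loc1_w0 l))
        _ = M * E * Loc1_w l := by ring
  have t3 : (RR m : ℝ) ^ k * |if m = 0 then 0 else p (m - 1) * x (m - 1) ^ 2| ≤ P * M * E := by
    have hPn : 0 ≤ P := le_trans (mul_nonneg (hc.p0 0) (Loc1_Rp _ _)) (hP 0)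
    split_ifs with hm
    · rw [abs_zero, mul_zero]
      exact mul_nonneg (mul_nonneg hPn hM) hE0
    · obtain ⟨n, rfl⟩ : ∃ n, m = n + 1 := ⟨m - 1, by omega⟩
      rw [Nat.add_sub_cancel, abs_mul, abs_of_nonneg (hc.p0 n), abs_pow]
      have h5 := Loc1_le (hx n)
      have h6 := Loc1_le (hE n)
      calc (RR (n + 1) : ℝ) ^ k * (p n * |x n| ^ 2)
          = (p n * (RR (n + 1) : ℝ) ^ k) * (|x n| * |x n|) := by ring
        _ ≤ P * (M * E) := mul_le_mul (hP n) (mul_le_mul h5 h6 (abs_nonneg _) hM)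
            (mul_nonneg (abs_nonneg _) (abs_nonneg _)) hPn
        _ = P * M * E := by ring
  have t4 : (RR m : ℝ) ^ k * |p m * x m * x (m + 1)| ≤ P0 * M * E := by
    have hPn : 0 ≤ P0 := le_trans (hc.p0 0) (hP0 0)
    rw [abs_mul, abs_mul, abs_of_nonneg (hc.p0 m)]
    have h5 := Loc1_le (hx (m + 1))
    calc (RR m : ℝ) ^ k * (p m * |x m| * |x (m + 1)|)
        = p m * (|x (m + 1)| * ((RR m : ℝ) ^ k * |x m|)) := by ring
      _ ≤ P0 * (M * E) := mul_le_mul (hP0 m)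
            (mul_le_mul h5 (hE m) (mul_nonneg hRk (abs_nonneg _)) hM)
            (mul_nonneg (abs_nonneg _) (mul_nonneg hRk (abs_nonneg _))) hPn
      _ = P0 * M * E := by ring
  unfold Loc1_N
  have h7 := Loc1_abs4
  calc _ ≤ (RR m : ℝ) ^ k * (_ + _ + _ + _) := mul_le_mul_of_nonneg_left (h7 _ _ _ _) hRk
    _ = _ := by rw [mul_add, mul_add, mul_add]
    _ ≤ C * M * E + C * M * E + P * M * E + P0 * M * E :=
        add_le_add (add_le_add (add_le_add t1 t2) t3) t4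
    _ = _ := by ring

/-- the Lipschitz estimate -/
theorem Loc1_lip (hc : Coef c p ν C) {x y : ℕ → ℝ} {M P0 d : ℝ} (hP0 : ∀ n, p n ≤ P0)
    (hx : ∀ n, (RR n : ℝ) ^ 6 * |x n| ≤ M) (hy : ∀ n, (RR n : ℝ) ^ 6 * |y n| ≤ M)
    (hd : ∀ n, |x n - y n| ≤ d) (m : ℕ) :
    |Loc1_N c p x m - Loc1_N c p y m| ≤ 4 * (C + P0) * M * d := by
  have h0 := Loc1_C0 hc
  have hM : 0 ≤ M := le_trans (abs_nonneg _) (Loc1_le (hx 0))
  have hd0 : 0 ≤ d := le_trans (abs_nonneg _) (hd 0)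
  have hPn : 0 ≤ P0 := le_trans (hc.p0 0) (hP0 0)
  have hR := Loc1_one m
  have sx : Summable fun l => if m < l then c m l * x l ^ 2 else 0 := by
    refine Loc1_S2s (G := M * M) hc (mul_nonneg hM hM) fun l hl => ?_
    rw [abs_pow, sq, ← mul_assoc]
    calc (RR m : ℝ) ^ 5 * |x l| * |x l| ≤ (M * Loc1_w l) * M :=
          mul_le_mul (Loc1_five' hl.le (hx l)) (Loc1_le (hx l)) (abs_nonneg _)
            (mul_nonneg hM (Loc1_w0 l))
      _ = M * M * Loc1_w l := by ring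
  have sy : Summable fun l => if m < l then c m l * y l ^ 2 else 0 := by
    refine Loc1_S2s (G := M * M) hc (mul_nonneg hM hM) fun l hl => ?_
    rw [abs_pow, sq, ← mul_assoc]
    calc (RR m : ℝ) ^ 5 * |y l| * |y l| ≤ (M * Loc1_w l) * M :=
          mul_le_mul (Loc1_five' hl.le (hy l)) (Loc1_le (hy l)) (abs_nonneg _)
            (mul_nonneg hM (Loc1_w0 l))
      _ = M * M * Loc1_w l := by ring
  have t1 : |(∑ n ∈ Finset.range m, c n m * x n) * x m
      - (∑ n ∈ Finset.range m, c n m * y n) * y m| ≤ 2 * C * M * d := by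
    have e : (∑ n ∈ Finset.range m, c n m * x n) * x m
      - (∑ n ∈ Finset.range m, c n m * y n) * y m
      = (∑ n ∈ Finset.range m, c n m * ((x n - y n) * x m))
        + (∑ n ∈ Finset.range m, c n m * y n) * (x m - y m) := by
      have e1 : ∑ n ∈ Finset.range m, c n m * ((x n - y n) * x m)
          = (∑ n ∈ Finset.range m, c n m * x n) * x m
            - (∑ n ∈ Finset.range m, c n m * y n) * x m := by
        rw [Finset.sum_mul, Finset.sum_mul, ← Finset.sum_sub_distrib]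
        exact Finset.sum_congr rfl fun n _ => by ring
      rw [e1]
      ring
    rw [e]
    have h1 : |∑ n ∈ Finset.range m, c n m * ((x n - y n) * x m)| ≤ C * (d * M) := by
      refine Loc1_S1 hc (mul_nonneg hd0 hM) fun n hn => ?_
      rw [abs_mul]
      have h2 := Loc1_five hn.le (hx m)
      calc (RR n : ℝ) ^ 5 * (|x n - y n| * |x m|)
          = |x n - y n| * ((RR n : ℝ) ^ 5 * |x m|) := by ring
        _ ≤ d * (M * Loc1_w n) :=
            mul_le_mul (hd n) h2 (mul_nonneg (Loc1_Rp n 5) (abs_nonneg _)) hd0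
        _ = d * M * Loc1_w n := by ring
    have h3 : |(∑ n ∈ Finset.range m, c n m * y n) * (x m - y m)| ≤ (C * M) * d := by
      rw [abs_mul]
      exact mul_le_mul (Loc1_S1 (m := m) hc hM fun n _ => Loc1_five le_rfl (hy n)) (hd m)
        (abs_nonneg _) (mul_nonneg h0 hM)
    refine (abs_add_le _ _).trans ((add_le_add h1 h3).trans_eq ?_)
    ring
  have t2 : |(∑' l, if m < l then c m l * x l ^ 2 else 0)
      - ∑' l, if m < l then c m l * y l ^ 2 else 0| ≤ 2 * C * M * d := by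
    rw [← sx.tsum_sub sy]
    have e : ∀ l, ((if m < l then c m l * x l ^ 2 else 0) - if m < l then c m l * y l ^ 2 else 0)
        = if m < l then c m l * (x l ^ 2 - y l ^ 2) else 0 := fun l => by
      split_ifs <;> ring
    rw [tsum_congr e]
    have h2 := Loc1_S2 (m := m) (y := fun l => x l ^ 2 - y l ^ 2) (G := 2 * M * d) hc
      (mul_nonneg (mul_nonneg zero_le_two hM) hd0) (fun l hl => ?_)
    · calc _ ≤ C * (2 * M * d) := h2
        _ = _ := by ring
    · have e2 : x l ^ 2 - y l ^ 2 = (x l - y l) * (x l + y l) := by ring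
      rw [e2, abs_mul]
      have h3 := Loc1_five' hl.le (hx l)
      have h4 := Loc1_five' hl.le (hy l)
      have h5 : (RR m : ℝ) ^ 5 * |x l + y l| ≤ 2 * M * Loc1_w l := by
        calc (RR m : ℝ) ^ 5 * |x l + y l| ≤ (RR m : ℝ) ^ 5 * (|x l| + |y l|) :=
              mul_le_mul_of_nonneg_left (abs_add_le _ _) (Loc1_Rp m 5)
          _ = (RR m : ℝ) ^ 5 * |x l| + (RR m : ℝ) ^ 5 * |y l| := by ring
          _ ≤ M * Loc1_w l + M * Loc1_w l := add_le_add h3 h4
          _ = _ := by ring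
      calc (RR m : ℝ) ^ 5 * (|x l - y l| * |x l + y l|)
          = |x l - y l| * ((RR m : ℝ) ^ 5 * |x l + y l|) := by ring
        _ ≤ d * (2 * M * Loc1_w l) :=
            mul_le_mul (hd l) h5 (mul_nonneg (Loc1_Rp m 5) (abs_nonneg _)) hd0
        _ = _ := by ring
  have t3 : |(if m = 0 then 0 else p (m - 1) * x (m - 1) ^ 2)
      - if m = 0 then 0 else p (m - 1) * y (m - 1) ^ 2| ≤ 2 * P0 * M * d := by
    split_ifs with hm
    · rw [sub_zero, abs_zero]
      exact mul_nonneg (mul_nonneg (mul_nonneg zero_le_two hPn) hM) hd0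
    · have e2 : p (m - 1) * x (m - 1) ^ 2 - p (m - 1) * y (m - 1) ^ 2
          = p (m - 1) * ((x (m - 1) - y (m - 1)) * (x (m - 1) + y (m - 1))) := by ring
      rw [e2, abs_mul, abs_mul, abs_of_nonneg (hc.p0 _)]
      have h5 : |x (m - 1) + y (m - 1)| ≤ 2 * M := by
        refine (abs_add_le _ _).trans
          ((add_le_add (Loc1_le (hx (m - 1))) (Loc1_le (hy (m - 1)))).trans_eq (two_mul M).symm)
      calc p (m - 1) * (|x (m - 1) - y (m - 1)| * |x (m - 1) + y (m - 1)|)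
          ≤ P0 * (d * (2 * M)) := mul_le_mul (hP0 _)
            (mul_le_mul (hd _) h5 (abs_nonneg _) hd0)
            (mul_nonneg (abs_nonneg _) (abs_nonneg _)) hPn
        _ = _ := by ring
  have t4 : |p m * x m * x (m + 1) - p m * y m * y (m + 1)| ≤ 2 * P0 * M * d := by
    have e2 : p m * x m * x (m + 1) - p m * y m * y (m + 1)
        = p m * ((x m - y m) * x (m + 1) + y m * (x (m + 1) - y (m + 1))) := by ring
    rw [e2, abs_mul, abs_of_nonneg (hc.p0 _)]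
    have h5 : |(x m - y m) * x (m + 1) + y m * (x (m + 1) - y (m + 1))| ≤ d * M + M * d := by
      refine (abs_add_le _ _).trans (add_le_add ?_ ?_)
      · rw [abs_mul]
        exact mul_le_mul (hd m) (Loc1_le (hx _)) (abs_nonneg _) hd0
      · rw [abs_mul]
        exact mul_le_mul (Loc1_le (hy _)) (hd _) (abs_nonneg _) hM
    calc p m * |(x m - y m) * x (m + 1) + y m * (x (m + 1) - y (m + 1))|
        ≤ P0 * (d * M + M * d) := mul_le_mul (hP0 m) h5 (abs_nonneg _) hPn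
      _ = _ := by ring
  have e : Loc1_N c p x m - Loc1_N c p y m
      = ((∑ n ∈ Finset.range m, c n m * x n) * x m
          - (∑ n ∈ Finset.range m, c n m * y n) * y m)
        - ((∑' l, if m < l then c m l * x l ^ 2 else 0)
          - ∑' l, if m < l then c m l * y l ^ 2 else 0)
        + ((if m = 0 then 0 else p (m - 1) * x (m - 1) ^ 2)
          - if m = 0 then 0 else p (m - 1) * y (m - 1) ^ 2)
        - (p m * x m * x (m + 1) - p m * y m * y (m + 1)) := by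
    unfold Loc1_N
    ring
  have h7 := Loc1_abs4
  rw [e]
  refine (h7 _ _ _ _).trans ?_
  linarith only [t1, t2, t3, t4]

/-- continuity in time -/
theorem Loc1_cont (hc : Coef c p ν C) {a : ℕ → ℝ → ℝ} {M : ℝ} (ha : ∀ n, Continuous (a n))
    (hx : ∀ n t, (RR n : ℝ) ^ 6 * |a n t| ≤ M) (m : ℕ) :
    Continuous fun t => Loc1_N c p (fun n => a n t) m := by
  have h0 := Loc1_C0 hc
  have hM : 0 ≤ M := le_trans (abs_nonneg _) (Loc1_le (hx 0 0))
  unfold Loc1_N
  refine Continuous.sub (Continuous.add (Continuous.sub ?_ ?_) ?_) ?_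
  · exact (continuous_finsetSum _ fun n _ => continuous_const.mul (ha n)).mul (ha m)
  · refine continuous_tsum (u := fun l => C * (M * M) * Loc1_w l) (fun l => ?_)
      (Loc1_wsum.summable.mul_left _) (fun l t => ?_)
    · split_ifs
      · exact continuous_const.mul ((ha l).pow 2)
      · exact continuous_const
    · refine Loc1_S2t (y := fun l => a l t ^ 2) (G := M * M) hc (mul_nonneg hM hM)
        (fun l hl => ?_) l
      show (RR m : ℝ) ^ 5 * |a l t ^ 2| ≤ M * M * Loc1_w l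
      rw [abs_pow, sq, ← mul_assoc]
      calc (RR m : ℝ) ^ 5 * |a l t| * |a l t| ≤ (M * Loc1_w l) * M :=
            mul_le_mul (Loc1_five' hl.le (hx l t)) (Loc1_le (hx l t)) (abs_nonneg _)
              (mul_nonneg hM (Loc1_w0 l))
        _ = M * M * Loc1_w l := by ring
  · split_ifs
    · exact continuous_const
    · exact continuous_const.mul ((ha _).pow 2)
  · exact (continuous_const.mul (ha m)).mul (ha _)

/-- Duhamel's formula -/
noncomputable def Loc1_D (ν x0 : ℝ) (g : ℝ → ℝ) (t : ℝ) : ℝ :=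
  Real.exp (-(ν * t)) * (x0 + ∫ r in (0 : ℝ)..t, Real.exp (ν * r) * g r)

theorem Loc1_Dder {ν x0 : ℝ} {g : ℝ → ℝ} (hg : Continuous g) (t : ℝ) :
    HasDerivAt (Loc1_D ν x0 g) (g t - ν * Loc1_D ν x0 g t) t := by
  have hc : Continuous fun r => Real.exp (ν * r) * g r :=
    (Real.continuous_exp.comp (continuous_const.mul continuous_id)).mul hg
  have h1 : HasDerivAt (fun t => x0 + ∫ r in (0 : ℝ)..t, Real.exp (ν * r) * g r)
      (Real.exp (ν * t) * g t) t :=
    (intervalIntegral.integral_hasDerivAt_right (hc.intervalIntegrable _ _)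
      (hc.stronglyMeasurableAtFilter _ _) hc.continuousAt).const_add x0
  have h2 : HasDerivAt (fun t => Real.exp (-(ν * t))) (Real.exp (-(ν * t)) * (-(ν * 1))) t :=
    ((hasDerivAt_id t).const_mul ν).neg.exp
  have h3 := h2.mul h1
  have e : Real.exp (-(ν * t)) * Real.exp (ν * t) = 1 := by
    rw [← Real.exp_add, neg_add_cancel, Real.exp_zero]
  refine h3.congr_deriv ?_
  unfold Loc1_D
  linear_combination g t * e

theorem Loc1_Dcont {ν x0 : ℝ} {g : ℝ → ℝ} (hg : Continuous g) : Continuous (Loc1_D ν x0 g) :=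
  continuous_iff_continuousAt.2 fun t => (Loc1_Dder hg t).continuousAt

theorem Loc1_D0 (ν x0 : ℝ) (g : ℝ → ℝ) : Loc1_D ν x0 g 0 = x0 := by
  unfold Loc1_D
  simp

theorem Loc1_Dint {ν : ℝ} (hν : 0 ≤ ν) {g : ℝ → ℝ} (hg : Continuous g) {t : ℝ} (ht : 0 ≤ t) :
    |Real.exp (-(ν * t)) * ∫ r in (0 : ℝ)..t, Real.exp (ν * r) * g r|
      ≤ ∫ r in (0 : ℝ)..t, |g r| := by
  have hc : Continuous fun r => Real.exp (ν * r) * g r :=
    (Real.continuous_exp.comp (continuous_const.mul continuous_id)).mul hg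
  rw [abs_mul, abs_of_pos (Real.exp_pos _)]
  have h1 : |∫ r in (0 : ℝ)..t, Real.exp (ν * r) * g r|
      ≤ ∫ r in (0 : ℝ)..t, |Real.exp (ν * r) * g r| :=
    intervalIntegral.norm_integral_le_integral_norm (f := fun r => Real.exp (ν * r) * g r) ht
  have h2 : ∫ r in (0 : ℝ)..t, |Real.exp (ν * r) * g r|
      ≤ ∫ r in (0 : ℝ)..t, Real.exp (ν * t) * |g r| := by
    refine intervalIntegral.integral_mono_on ht (hc.abs.intervalIntegrable _ _)
      ((continuous_const.mul hg.abs).intervalIntegrable _ _) fun r hr => ?_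
    rw [abs_mul, abs_of_pos (Real.exp_pos _)]
    exact mul_le_mul_of_nonneg_right (Real.exp_le_exp.2 (mul_le_mul_of_nonneg_left hr.2 hν))
      (abs_nonneg _)
  rw [intervalIntegral.integral_const_mul] at h2
  calc Real.exp (-(ν * t)) * |∫ r in (0 : ℝ)..t, Real.exp (ν * r) * g r|
      ≤ Real.exp (-(ν * t)) * (Real.exp (ν * t) * ∫ r in (0 : ℝ)..t, |g r|) :=
        mul_le_mul_of_nonneg_left (h1.trans h2) (Real.exp_pos _).le
    _ = (Real.exp (-(ν * t)) * Real.exp (ν * t)) * ∫ r in (0 : ℝ)..t, |g r| := by ring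
    _ = ∫ r in (0 : ℝ)..t, |g r| := by
        rw [← Real.exp_add, neg_add_cancel, Real.exp_zero, one_mul]

theorem Loc1_Dbd {ν x0 : ℝ} (hν : 0 ≤ ν) {g : ℝ → ℝ} (hg : Continuous g) {t : ℝ} (ht : 0 ≤ t) :
    |Loc1_D ν x0 g t| ≤ |x0| + ∫ r in (0 : ℝ)..t, |g r| := by
  unfold Loc1_D
  rw [mul_add]
  refine (abs_add_le _ _).trans (add_le_add ?_ (Loc1_Dint hν hg ht))
  rw [abs_mul, abs_of_pos (Real.exp_pos _)]
  have h1 : Real.exp (-(ν * t)) ≤ 1 := Real.exp_le_one_iff.2 (neg_nonpos.2 (mul_nonneg hν ht))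
  calc Real.exp (-(ν * t)) * |x0| ≤ 1 * |x0| := mul_le_mul_of_nonneg_right h1 (abs_nonneg _)
    _ = |x0| := one_mul _

theorem Loc1_Dsub {ν x0 : ℝ} (hν : 0 ≤ ν) {g h : ℝ → ℝ} (hg : Continuous g) (hh : Continuous h)
    {t : ℝ} (ht : 0 ≤ t) :
    |Loc1_D ν x0 g t - Loc1_D ν x0 h t| ≤ ∫ r in (0 : ℝ)..t, |g r - h r| := by
  have hc : ∀ {g : ℝ → ℝ}, Continuous g → Continuous fun r => Real.exp (ν * r) * g r :=
    fun hg => (Real.continuous_exp.comp (continuous_const.mul continuous_id)).mul hg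
  have e : Loc1_D ν x0 g t - Loc1_D ν x0 h t
      = Real.exp (-(ν * t)) * ∫ r in (0 : ℝ)..t, Real.exp (ν * r) * (g r - h r) := by
    unfold Loc1_D
    have e1 : ∫ r in (0 : ℝ)..t, Real.exp (ν * r) * (g r - h r)
        = (∫ r in (0 : ℝ)..t, Real.exp (ν * r) * g r)
          - ∫ r in (0 : ℝ)..t, Real.exp (ν * r) * h r := by
      rw [← intervalIntegral.integral_sub ((hc hg).intervalIntegrable _ _)
        ((hc hh).intervalIntegrable _ _)]
      refine intervalIntegral.integral_congr fun r _ => ?_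
      ring
    rw [e1]
    ring
  rw [e]
  exact Loc1_Dint hν (hg.sub hh) ht

/-- the growth estimate with an exponential weight -/
theorem Loc1_grow {ν x0 A B R : ℝ} (hν : 0 ≤ ν) (hR : 0 ≤ R) {g : ℝ → ℝ} (hg : Continuous g)
    {t : ℝ} (ht : 0 ≤ t) (h0 : R * |x0| ≤ A)
    (hgb : ∀ r ∈ Icc 0 t, R * |g r| ≤ B * (A * Real.exp (B * r))) :
    R * |Loc1_D ν x0 g t| ≤ A * Real.exp (B * t) := by
  have h1 := Loc1_Dbd (x0 := x0) hν hg ht
  have hcE : Continuous fun r => B * (A * Real.exp (B * r)) :=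
    continuous_const.mul (continuous_const.mul
      (Real.continuous_exp.comp (continuous_const.mul continuous_id)))
  have h2 : ∫ r in (0 : ℝ)..t, R * |g r| ≤ ∫ r in (0 : ℝ)..t, B * (A * Real.exp (B * r)) :=
    intervalIntegral.integral_mono_on ht ((continuous_const.mul hg.abs).intervalIntegrable _ _)
      (hcE.intervalIntegrable _ _) hgb
  rw [intervalIntegral.integral_const_mul] at h2
  have h3 : ∫ r in (0 : ℝ)..t, B * (A * Real.exp (B * r))
      = A * Real.exp (B * t) - A * Real.exp (B * 0) := by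
    refine intervalIntegral.integral_eq_sub_of_hasDerivAt
      (f := fun r => A * Real.exp (B * r)) (fun r _ => ?_) (hcE.intervalIntegrable _ _)
    have h4 : HasDerivAt (fun r => Real.exp (B * r)) (Real.exp (B * r) * (B * 1)) r :=
      ((hasDerivAt_id r).const_mul B).exp
    refine (h4.const_mul A).congr_deriv ?_
    ring
  rw [mul_zero, Real.exp_zero, mul_one] at h3
  calc R * |Loc1_D ν x0 g t| ≤ R * (|x0| + ∫ r in (0 : ℝ)..t, |g r|) :=
        mul_le_mul_of_nonneg_left h1 hR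
    _ = R * |x0| + R * ∫ r in (0 : ℝ)..t, |g r| := by ring
    _ ≤ A + (A * Real.exp (B * t) - A) := add_le_add h0 (h2.trans_eq h3)
    _ = A * Real.exp (B * t) := by ring

/-- a bound with a constant -/
theorem Loc1_small {R L : ℝ} {g : ℝ → ℝ} (hg : Continuous g)
    {t : ℝ} (ht : 0 ≤ t) (hgb : ∀ r ∈ Icc 0 t, R * |g r| ≤ L) :
    R * ∫ r in (0 : ℝ)..t, |g r| ≤ t * L := by
  have h2 : ∫ r in (0 : ℝ)..t, R * |g r| ≤ ∫ _r in (0 : ℝ)..t, L :=
    intervalIntegral.integral_mono_on ht ((continuous_const.mul hg.abs).intervalIntegrable _ _)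
      (continuous_const.intervalIntegrable _ _) hgb
  rw [intervalIntegral.integral_const_mul, intervalIntegral.integral_const, sub_zero,
    smul_eq_mul] at h2
  exact h2

/-- the clamped time -/
noncomputable def Loc1_cl (τ t : ℝ) : ℝ := max 0 (min t τ)

theorem Loc1_cl_cont (τ : ℝ) : Continuous (Loc1_cl τ) :=
  continuous_const.max (continuous_id.min continuous_const)

theorem Loc1_cl0 (τ t : ℝ) : 0 ≤ Loc1_cl τ t := le_max_left _ _

theorem Loc1_clτ {τ : ℝ} (hτ : 0 ≤ τ) (t : ℝ) : Loc1_cl τ t ≤ τ :=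
  max_le hτ (min_le_right _ _)

theorem Loc1_cl_eq {τ t : ℝ} (h : t ∈ Icc 0 τ) : Loc1_cl τ t = t := by
  unfold Loc1_cl
  rw [min_eq_left h.2, max_eq_right h.1]

theorem s_loc1 : S_loc1 := by
  intro c p ν C hc a0 ha0
  choose K hK using ha0
  choose P hP using hc.p_le
  have hP0 : ∀ n, p n ≤ P 0 := fun n => by
    have h := hP 0 n
    rw [pow_zero, mul_one] at h
    exact h
  have h0 := Loc1_C0 hc
  have hPn : ∀ k, 0 ≤ P k := fun k =>
    le_trans (mul_nonneg (hc.p0 0) (Loc1_Rp _ _)) (hP k 0)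
  have hKn : ∀ k, 0 ≤ K k := fun k => le_trans (abs_nonneg _) (Loc1_le (hK k 0))
  obtain ⟨M, hMdef⟩ : ∃ M, M = K 6 + 1 := ⟨_, rfl⟩
  have hM : 0 < M := by rw [hMdef]; exact add_pos_of_nonneg_of_pos (hKn 6) one_pos
  obtain ⟨B, hB⟩ : ∃ B : ℕ → ℝ, ∀ k, B k = (2 * C + P k + P 0) * M := ⟨_, fun _ => rfl⟩
  have hBn : ∀ k, 0 ≤ B k := fun k => by
    rw [hB]
    exact mul_nonneg (add_nonneg (add_nonneg (mul_nonneg zero_le_two h0) (hPn k)) (hPn 0)) hM.le
  obtain ⟨τ, hτ, hτ1, hτ2⟩ : ∃ τ : ℝ, 0 < τ ∧ τ * (B 6 * M) ≤ 1 ∧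
      τ * (4 * (C + P 0) * M) ≤ 1 / 2 := by
    have h1 : 0 ≤ B 6 * M := mul_nonneg (hBn 6) hM.le
    have h2 : 0 ≤ 4 * (C + P 0) * M :=
      mul_nonneg (mul_nonneg zero_le_four (add_nonneg h0 (hPn 0))) hM.le
    have h3 : 0 < B 6 * M + 2 * (4 * (C + P 0) * M) + 1 := by linarith only [h1, h2]
    refine ⟨1 / (B 6 * M + 2 * (4 * (C + P 0) * M) + 1), one_div_pos.2 h3, ?_, ?_⟩
    · rw [one_div, inv_mul_le_iff₀ h3]
      linarith only [h2]
    · rw [one_div, inv_mul_le_iff₀ h3]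
      linarith only [h1]
  -- the set
  let s : Set ((ℕ × ℝ) →ᵇ ℝ) := {a | (∀ m t, (RR m : ℝ) ^ 6 * |a (m, t)| ≤ M) ∧
    ∀ k m t, (RR m : ℝ) ^ k * |a (m, t)| ≤ K k * Real.exp (B k * Loc1_cl τ t)}
  have hsc : IsClosed s := by
    have hev : ∀ (k m : ℕ) (t L : ℝ),
        IsClosed {a : (ℕ × ℝ) →ᵇ ℝ | (RR m : ℝ) ^ k * |a (m, t)| ≤ L} := fun k m t L =>
      isClosed_le (continuous_const.mul
        (continuous_eval_const (F := (ℕ × ℝ) →ᵇ ℝ) (m, t)).abs) continuous_const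
    have e : s = (⋂ m : ℕ, ⋂ t : ℝ, {a : (ℕ × ℝ) →ᵇ ℝ | (RR m : ℝ) ^ 6 * |a (m, t)| ≤ M}) ∩
        ⋂ k : ℕ, ⋂ m : ℕ, ⋂ t : ℝ, {a : (ℕ × ℝ) →ᵇ ℝ | (RR m : ℝ) ^ k * |a (m, t)|
          ≤ K k * Real.exp (B k * Loc1_cl τ t)} := by
      ext a
      simp only [s, mem_ofPred_eq, mem_inter_iff, mem_iInter]
    rw [e]
    exact (isClosed_iInter fun m => isClosed_iInter fun t => hev _ _ _ _).inter
      (isClosed_iInter fun k => isClosed_iInter fun m => isClosed_iInter fun t => hev _ _ _ _)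
  have hexp : ∀ k t, K k ≤ K k * Real.exp (B k * Loc1_cl τ t) := fun k t => by
    have h1 : 1 ≤ Real.exp (B k * Loc1_cl τ t) :=
      Real.one_le_exp (mul_nonneg (hBn k) (Loc1_cl0 τ t))
    calc K k = K k * 1 := by ring
      _ ≤ _ := mul_le_mul_of_nonneg_left h1 (hKn k)
  -- continuity of the families
  have hac : ∀ (a : (ℕ × ℝ) →ᵇ ℝ) (m : ℕ), Continuous fun t => a (m, t) := fun a m =>
    a.continuous.comp (continuous_const.prodMk continuous_id)
  have hNc : ∀ a ∈ s, ∀ m, Continuous fun r => Loc1_N c p (fun n => a (n, r)) m :=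
    fun a ha m => Loc1_cont (a := fun n t => a (n, t)) hc (hac a) ha.1 m
  -- bounds of the map
  have hmap : ∀ a ∈ s, ∀ m t,
      (RR m : ℝ) ^ 6 * |Loc1_D (ν m) (a0 m) (fun r => Loc1_N c p (fun n => a (n, r)) m)
        (Loc1_cl τ t)| ≤ M ∧
      ∀ k : ℕ, (RR m : ℝ) ^ k * |Loc1_D (ν m) (a0 m)
        (fun r => Loc1_N c p (fun n => a (n, r)) m) (Loc1_cl τ t)|
          ≤ K k * Real.exp (B k * Loc1_cl τ t) := by
    intro a ha m t
    have ht := Loc1_cl0 τ t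
    have ht' := Loc1_clτ hτ.le t
    refine ⟨?_, fun k => ?_⟩
    · have h1 := Loc1_Dbd (x0 := a0 m) (hc.ν0 m) (hNc a ha m) ht
      have h2 := Loc1_small (R := (RR m : ℝ) ^ 6) (L := B 6 * M) (hNc a ha m) ht (fun r _ => by
        rw [hB]
        exact Loc1_bd hc (hP 6) hP0 (fun n => ha.1 n r) (fun n => ha.1 n r) m)
      calc _ ≤ (RR m : ℝ) ^ 6 * (|a0 m|
            + ∫ r in (0 : ℝ)..Loc1_cl τ t, |Loc1_N c p (fun n => a (n, r)) m|) :=
            mul_le_mul_of_nonneg_left h1 (Loc1_Rp m 6)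
        _ = (RR m : ℝ) ^ 6 * |a0 m| + (RR m : ℝ) ^ 6 *
            ∫ r in (0 : ℝ)..Loc1_cl τ t, |Loc1_N c p (fun n => a (n, r)) m| := by ring
        _ ≤ K 6 + Loc1_cl τ t * (B 6 * M) := add_le_add (hK 6 m) h2
        _ ≤ K 6 + τ * (B 6 * M) := by
            exact add_le_add le_rfl (mul_le_mul_of_nonneg_right ht' (mul_nonneg (hBn 6) hM.le))
        _ ≤ M := by linarith only [hMdef, hτ1]
    · refine Loc1_grow (hc.ν0 m) (Loc1_Rp m k) (hNc a ha m) ht (hK k m) fun r hr => ?_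
      have hr' : Loc1_cl τ r = r := Loc1_cl_eq ⟨hr.1, hr.2.trans ht'⟩
      have h3 := Loc1_bd (E := K k * Real.exp (B k * r)) hc (hP k) hP0 (fun n => ha.1 n r)
        (fun n => by
          have h4 := ha.2 k n r
          rw [hr'] at h4
          exact h4) m
      rw [hB k] at h3 ⊢
      exact h3
  -- the map
  have hex : ∀ a : s, ∃ b : s, ∀ m t, (b : (ℕ × ℝ) →ᵇ ℝ) (m, t)
      = Loc1_D (ν m) (a0 m) (fun r => Loc1_N c p (fun n => (a : (ℕ × ℝ) →ᵇ ℝ) (n, r)) m)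
        (Loc1_cl τ t) := by
    rintro ⟨a, ha⟩
    have hcont : Continuous fun z : ℕ × ℝ => Loc1_D (ν z.1) (a0 z.1)
        (fun r => Loc1_N c p (fun n => a (n, r)) z.1) (Loc1_cl τ z.2) := by
      rw [continuous_prod_of_discrete_left]
      intro m
      show Continuous fun x => Loc1_D (ν m) (a0 m)
        (fun r => Loc1_N c p (fun n => a (n, r)) m) (Loc1_cl τ x)
      exact (Loc1_Dcont (hNc a ha m)).comp (Loc1_cl_cont τ)
    refine ⟨⟨BoundedContinuousFunction.ofNormedAddCommGroup _ hcont M fun z => ?_, ?_, ?_⟩,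
      fun m t => rfl⟩
    · exact Loc1_le (hmap a ha z.1 z.2).1
    · exact fun m t => (hmap a ha m t).1
    · exact fun k m t => (hmap a ha m t).2 k
  choose Φ hΦ using hex
  have hcw : ContractingWith (1 / 2) Φ := by
    refine ⟨by norm_num, LipschitzWith.of_dist_le_mul fun a b => ?_⟩
    rw [Subtype.dist_eq, Subtype.dist_eq]
    refine (BoundedContinuousFunction.dist_le (by positivity)).2 ?_
    rintro ⟨m, t⟩
    have ht := Loc1_cl0 τ t
    have ht' := Loc1_clτ hτ.le t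
    rw [hΦ, hΦ, Real.dist_eq]
    refine (Loc1_Dsub (hc.ν0 m) (hNc a a.2 m) (hNc b b.2 m) ht).trans ?_
    have h2 := Loc1_small (R := 1) (L := 4 * (C + P 0) * M * dist (a : (ℕ × ℝ) →ᵇ ℝ) b)
      ((hNc a a.2 m).sub (hNc b b.2 m)) ht (fun r _ => by
        rw [one_mul]
        refine Loc1_lip hc hP0 (fun n => a.2.1 n r) (fun n => b.2.1 n r) (fun n => ?_) m
        rw [← Real.dist_eq]
        exact BoundedContinuousFunction.dist_coe_le_dist _)
    rw [one_mul] at h2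
    refine h2.trans ?_
    have hd : 0 ≤ dist (a : (ℕ × ℝ) →ᵇ ℝ) b := dist_nonneg
    have hL : 0 ≤ 4 * (C + P 0) * M :=
      mul_nonneg (mul_nonneg zero_le_four (add_nonneg h0 (hPn 0))) hM.le
    calc Loc1_cl τ t * (4 * (C + P 0) * M * dist (a : (ℕ × ℝ) →ᵇ ℝ) b)
        ≤ τ * (4 * (C + P 0) * M * dist (a : (ℕ × ℝ) →ᵇ ℝ) b) :=
          mul_le_mul_of_nonneg_right ht' (mul_nonneg hL hd)
      _ = (τ * (4 * (C + P 0) * M)) * dist (a : (ℕ × ℝ) →ᵇ ℝ) b := by ring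
      _ ≤ (1 / 2) * dist (a : (ℕ × ℝ) →ᵇ ℝ) b := mul_le_mul_of_nonneg_right hτ2 hd
      _ = _ := by norm_num
  -- the fixed point
  have : CompleteSpace s := hsc.completeSpace_coe
  have : Nonempty s := by
    have hcont : Continuous fun z : ℕ × ℝ => a0 z.1 := by
      rw [continuous_prod_of_discrete_left]
      intro m
      show Continuous fun _ : ℝ => a0 m
      exact continuous_const
    refine ⟨⟨BoundedContinuousFunction.ofNormedAddCommGroup _ hcont (K 0) fun z => ?_, ?_, ?_⟩⟩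
    · exact Loc1_le (hK 0 z.1)
    · intro m t
      exact (hK 6 m).trans (by rw [hMdef]; linarith)
    · intro k m t
      exact (hK k m).trans (hexp k t)
  obtain ⟨a, ha⟩ : ∃ a : s, Φ a = a :=
    ⟨ContractingWith.fixedPoint Φ hcw, hcw.fixedPoint_isFixedPt⟩
  have hfix : ∀ m t, (a : (ℕ × ℝ) →ᵇ ℝ) (m, t)
      = Loc1_D (ν m) (a0 m) (fun r => Loc1_N c p (fun n => (a : (ℕ × ℝ) →ᵇ ℝ) (n, r)) m)
        (Loc1_cl τ t) := fun m t => by
    rw [← hΦ a m t, ha]
  refine ⟨τ, hτ, fun m t => (a : (ℕ × ℝ) →ᵇ ℝ) (m, t), fun k => ?_, hac a, fun m => ?_,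
    fun t ht m => ?_⟩
  · refine ⟨K k * Real.exp (B k * τ), fun m t => (a.2.2 k m t).trans ?_⟩
    exact mul_le_mul_of_nonneg_left (Real.exp_le_exp.2
      (mul_le_mul_of_nonneg_left (Loc1_clτ hτ.le t) (hBn k))) (hKn k)
  · show (a : (ℕ × ℝ) →ᵇ ℝ) (m, 0) = a0 m
    rw [hfix, Loc1_cl_eq ⟨le_rfl, hτ.le⟩, Loc1_D0]
  · have h1 := Loc1_Dder (ν := ν m) (x0 := a0 m) (hNc a a.2 m) t
    have h2 : (fun t => (a : (ℕ × ℝ) →ᵇ ℝ) (m, t)) =ᶠ[𝓝 t]
        Loc1_D (ν m) (a0 m) (fun r => Loc1_N c p (fun n => (a : (ℕ × ℝ) →ᵇ ℝ) (n, r)) m) := by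
      filter_upwards [Ioo_mem_nhds ht.1 ht.2] with r hr
      rw [hfix, Loc1_cl_eq ⟨hr.1.le, hr.2.le⟩]
    rw [Loc1_FF]
    refine (h1.congr_of_eventuallyEq h2).congr_deriv ?_
    have h3 := h2.eq_of_nhds
    show Loc1_N c p (fun n => (a : (ℕ × ℝ) →ᵇ ℝ) (n, t)) m - ν m * _
      = Loc1_N c p (fun n => (a : (ℕ × ℝ) →ᵇ ℝ) (n, t)) m - ν m * (a : (ℕ × ℝ) →ᵇ ℝ) (m, t)
    rw [← h3]

end Pool.Agent.H226.GB

end

/-! ## Loc2 -/

section

/-!
Time regularity of the solutions of the infinite system (helper181 for helper226).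
-/

open MeasureTheory Set Filter Topology
open scoped ContDiff
open H459R3.NS

namespace Pool.Agent.H226.GB

theorem Loc2_one_le (m : ℕ) : (1 : ℝ) ≤ RR m := by
  unfold RR
  push_cast
  exact one_le_pow₀ (by norm_num)

theorem Loc2_pos (m : ℕ) : (0 : ℝ) < RR m := lt_of_lt_of_le one_pos (Loc2_one_le m)

theorem Loc2_mono : Monotone (fun m : ℕ => (RR m : ℝ)) := by
  intro m n h
  simp only [RR]
  push_cast
  refine pow_le_pow_right₀ (by norm_num) ?_
  gcongr

theorem Loc2_two_pow (m : ℕ) : (2 : ℝ) ^ m ≤ RR m := by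
  unfold RR
  push_cast
  refine pow_le_pow_right₀ (by norm_num) ?_
  calc m ≤ m + 2 := by omega
    _ ≤ (m + 2) ^ 3 := Nat.le_self_pow (by norm_num) _

theorem Loc2_summable : Summable (fun k : ℕ => ((RR k : ℝ))⁻¹) := by
  refine Summable.of_nonneg_of_le (fun k => (inv_pos.2 (Loc2_pos k)).le) (fun k => ?_)
    (summable_geometric_of_lt_one (r := (1 / 2 : ℝ)) (by norm_num) (by norm_num))
  rw [one_div, inv_pow]
  exact inv_anti₀ (by positivity) (Loc2_two_pow k)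

/-- the terms of the bilinear series -/
noncomputable def Loc2_tm (β₁ β₂ : ℕ → ℕ → ℝ) (a b : ℕ → ℝ → ℝ) (m k : ℕ) (t : ℝ) : ℝ :=
  β₁ m k * (a k t * b m t) + β₂ m k * (a k t * b k t)

/-- the bilinear series -/
noncomputable def Loc2_B (β₁ β₂ : ℕ → ℕ → ℝ) (a b : ℕ → ℝ → ℝ) (m : ℕ) (t : ℝ) : ℝ :=
  ∑' k, Loc2_tm β₁ β₂ a b m k t

/-- bounds of the coefficients -/
def Loc2_Bd (β₁ β₂ : ℕ → ℕ → ℝ) : Prop :=
  (∀ s : ℕ, ∃ (D : ℝ) (q : ℕ), ∀ m k, (RR m : ℝ) ^ s * |β₁ m k| ≤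
    D * ((RR k : ℝ) ^ q * (RR m : ℝ) ^ q)) ∧
  ∀ s : ℕ, ∃ (D : ℝ) (q : ℕ), ∀ m k, (RR m : ℝ) ^ s * |β₂ m k| ≤ D * (RR k : ℝ) ^ q

section

variable {β₁ β₂ : ℕ → ℕ → ℝ} (hβ : Loc2_Bd β₁ β₂)
include hβ

theorem Loc2_bound {a b : ℕ → ℝ → ℝ} (ha : Rap a) (hb : Rap b) (s : ℕ) :
    ∃ D : ℝ, 0 ≤ D ∧ ∀ m k t, (RR m : ℝ) ^ s * |Loc2_tm β₁ β₂ a b m k t| ≤ D * ((RR k : ℝ))⁻¹ := by
  obtain ⟨D1, q1, h1⟩ := hβ.1 s
  obtain ⟨D2, q2, h2⟩ := hβ.2 s
  obtain ⟨A1, hA1⟩ := ha (q1 + 1)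
  obtain ⟨A2, hA2⟩ := ha (q2 + 1)
  obtain ⟨B1, hB1⟩ := hb q1
  obtain ⟨B2, hB2⟩ := hb 0
  refine ⟨|D1| * |A1| * |B1| + |D2| * |A2| * |B2|, by positivity, fun m k t => ?_⟩
  have hk := Loc2_pos k
  have hm := Loc2_pos m
  have e1 : (RR m : ℝ) ^ s * |β₁ m k * (a k t * b m t)| ≤
      |D1| * |A1| * |B1| * ((RR k : ℝ))⁻¹ := by
    calc (RR m : ℝ) ^ s * |β₁ m k * (a k t * b m t)|
        = ((RR m : ℝ) ^ s * |β₁ m k|) * (|a k t| * |b m t|) := by
          rw [abs_mul, abs_mul]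
          ring
      _ ≤ (|D1| * ((RR k : ℝ) ^ q1 * (RR m : ℝ) ^ q1)) * (|a k t| * |b m t|) := by
          refine mul_le_mul_of_nonneg_right ((h1 m k).trans ?_) (by positivity)
          exact mul_le_mul_of_nonneg_right (le_abs_self _) (by positivity)
      _ = |D1| * ((RR k : ℝ) ^ (q1 + 1) * |a k t|) * ((RR m : ℝ) ^ q1 * |b m t|) *
          ((RR k : ℝ))⁻¹ := by
          field_simp
          ring
      _ ≤ |D1| * |A1| * |B1| * ((RR k : ℝ))⁻¹ := by
          gcongr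
          · exact (hA1 k t).trans (le_abs_self _)
          · exact (hB1 m t).trans (le_abs_self _)
  have e2 : (RR m : ℝ) ^ s * |β₂ m k * (a k t * b k t)| ≤
      |D2| * |A2| * |B2| * ((RR k : ℝ))⁻¹ := by
    calc (RR m : ℝ) ^ s * |β₂ m k * (a k t * b k t)|
        = ((RR m : ℝ) ^ s * |β₂ m k|) * (|a k t| * |b k t|) := by
          rw [abs_mul, abs_mul]
          ring
      _ ≤ (|D2| * (RR k : ℝ) ^ q2) * (|a k t| * |b k t|) := by
          refine mul_le_mul_of_nonneg_right ((h2 m k).trans ?_) (by positivity)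
          exact mul_le_mul_of_nonneg_right (le_abs_self _) (by positivity)
      _ = |D2| * ((RR k : ℝ) ^ (q2 + 1) * |a k t|) * ((RR k : ℝ) ^ 0 * |b k t|) *
          ((RR k : ℝ))⁻¹ := by
          field_simp
          ring
      _ ≤ |D2| * |A2| * |B2| * ((RR k : ℝ))⁻¹ := by
          gcongr
          · exact (hA2 k t).trans (le_abs_self _)
          · exact (hB2 k t).trans (le_abs_self _)
  calc (RR m : ℝ) ^ s * |Loc2_tm β₁ β₂ a b m k t|
      ≤ (RR m : ℝ) ^ s * (|β₁ m k * (a k t * b m t)| + |β₂ m k * (a k t * b k t)|) := by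
        gcongr
        exact abs_add_le _ _
    _ ≤ |D1| * |A1| * |B1| * ((RR k : ℝ))⁻¹ + |D2| * |A2| * |B2| * ((RR k : ℝ))⁻¹ := by
        rw [mul_add]
        exact add_le_add e1 e2
    _ = _ := by ring

theorem Loc2_bound0 {a b : ℕ → ℝ → ℝ} (ha : Rap a) (hb : Rap b) :
    ∃ D : ℝ, 0 ≤ D ∧ ∀ m k t, ‖Loc2_tm β₁ β₂ a b m k t‖ ≤ D * ((RR k : ℝ))⁻¹ := by
  obtain ⟨D, hD, h⟩ := Loc2_bound hβ ha hb 0
  refine ⟨D, hD, fun m k t => ?_⟩
  have := h m k t
  rwa [pow_zero, one_mul] at this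

theorem Loc2_sum {a b : ℕ → ℝ → ℝ} (ha : Rap a) (hb : Rap b) (m : ℕ) (t : ℝ) :
    Summable (fun k => Loc2_tm β₁ β₂ a b m k t) := by
  obtain ⟨D, -, h⟩ := Loc2_bound0 hβ ha hb
  exact Summable.of_norm_bounded (Loc2_summable.mul_left D) fun k => h m k t

theorem Loc2_rap {a b : ℕ → ℝ → ℝ} (ha : Rap a) (hb : Rap b) : Rap (Loc2_B β₁ β₂ a b) := by
  intro s
  obtain ⟨D, hD, h⟩ := Loc2_bound hβ ha hb s
  refine ⟨∑' k, D * ((RR k : ℝ))⁻¹, fun m t => ?_⟩
  have hm := Loc2_pos m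
  have hs : Summable (fun k => (RR m : ℝ) ^ s * Loc2_tm β₁ β₂ a b m k t) :=
    (Loc2_sum hβ ha hb m t).mul_left _
  have e : (RR m : ℝ) ^ s * |Loc2_B β₁ β₂ a b m t| =
      ‖∑' k, (RR m : ℝ) ^ s * Loc2_tm β₁ β₂ a b m k t‖ := by
    rw [tsum_mul_left, norm_mul, Real.norm_of_nonneg (by positivity), Real.norm_eq_abs]
    rfl
  rw [e]
  refine tsum_of_norm_bounded (Loc2_summable.mul_left D).hasSum fun k => ?_
  rw [norm_mul, Real.norm_of_nonneg (by positivity), Real.norm_eq_abs]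
  exact h m k t

theorem Loc2_cont {a b : ℕ → ℝ → ℝ} (ha : Rap a) (hb : Rap b) (ca : ∀ m, Continuous (a m))
    (cb : ∀ m, Continuous (b m)) (m : ℕ) : Continuous (Loc2_B β₁ β₂ a b m) := by
  obtain ⟨D, -, h⟩ := Loc2_bound0 hβ ha hb
  refine continuous_tsum (fun k => ?_) (Loc2_summable.mul_left D) fun k t => h m k t
  unfold Loc2_tm
  exact (continuous_const.mul ((ca k).mul (cb m))).add (continuous_const.mul ((ca k).mul (cb k)))

theorem Loc2_der {τ : ℝ} {a b a' b' : ℕ → ℝ → ℝ} (ha : Rap a) (hb : Rap b) (ha' : Rap a')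
    (hb' : Rap b') (da : ∀ t ∈ Ioo 0 τ, ∀ m, HasDerivAt (a m) (a' m t) t)
    (db : ∀ t ∈ Ioo 0 τ, ∀ m, HasDerivAt (b m) (b' m t) t) :
    ∀ t ∈ Ioo 0 τ, ∀ m, HasDerivAt (Loc2_B β₁ β₂ a b m)
      (Loc2_B β₁ β₂ a' b m t + Loc2_B β₁ β₂ a b' m t) t := by
  intro t ht m
  obtain ⟨D, -, h⟩ := Loc2_bound0 hβ ha' hb
  obtain ⟨D', -, h'⟩ := Loc2_bound0 hβ ha hb'
  have e : Loc2_B β₁ β₂ a' b m t + Loc2_B β₁ β₂ a b' m t =
      ∑' k, (Loc2_tm β₁ β₂ a' b m k t + Loc2_tm β₁ β₂ a b' m k t) :=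
    ((Loc2_sum hβ ha' hb m t).tsum_add (Loc2_sum hβ ha hb' m t)).symm
  rw [e]
  refine hasDerivAt_tsum_of_isPreconnected
    ((Loc2_summable.mul_left D).add (Loc2_summable.mul_left D')) isOpen_Ioo isPreconnected_Ioo
    (g := fun k t => Loc2_tm β₁ β₂ a b m k t)
    (g' := fun k t => Loc2_tm β₁ β₂ a' b m k t + Loc2_tm β₁ β₂ a b' m k t)
    (fun k y hy => ?_) (fun k y _ => ?_) ht (Loc2_sum hβ ha hb m t) ht
  · have h1 := ((da y hy k).mul (db y hy m)).const_mul (β₁ m k)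
    have h2 := ((da y hy k).mul (db y hy k)).const_mul (β₂ m k)
    refine (h1.add h2).congr_deriv ?_
    unfold Loc2_tm
    ring
  · exact (norm_add_le _ _).trans (add_le_add (h m k y) (h' m k y))

end

/-! ### families which are `n` times differentiable -/

theorem Loc2_AT_zero {τ : ℝ} {n : ℕ} {a : ℕ → ℝ → ℝ} (h : AT τ n a) :
    Rap a ∧ ∀ m, Continuous (a m) := by
  cases n with
  | zero => exact h
  | succ n => exact h.1

theorem Loc2_AT_pred {τ : ℝ} (n : ℕ) : ∀ {a : ℕ → ℝ → ℝ}, AT τ (n + 1) a → AT τ n a := by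
  induction n with
  | zero =>
    intro a h
    exact h.1
  | succ n ih =>
    intro a h
    obtain ⟨h1, a', h2, h3⟩ := h
    exact ⟨h1, a', h2, ih h3⟩

theorem Loc2_Rap_add {a b : ℕ → ℝ → ℝ} (ha : Rap a) (hb : Rap b) :
    Rap (fun m t => a m t + b m t) := by
  intro s
  obtain ⟨K, hK⟩ := ha s
  obtain ⟨L, hL⟩ := hb s
  refine ⟨K + L, fun m t => ?_⟩
  have hm := Loc2_pos m
  calc (RR m : ℝ) ^ s * |a m t + b m t| ≤ (RR m : ℝ) ^ s * (|a m t| + |b m t|) := by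
        gcongr
        exact abs_add_le _ _
    _ = (RR m : ℝ) ^ s * |a m t| + (RR m : ℝ) ^ s * |b m t| := mul_add _ _ _
    _ ≤ K + L := add_le_add (hK m t) (hL m t)

theorem Loc2_AT_add {τ : ℝ} (n : ℕ) : ∀ {a b : ℕ → ℝ → ℝ}, AT τ n a → AT τ n b →
    AT τ n (fun m t => a m t + b m t) := by
  induction n with
  | zero =>
    intro a b ha hb
    exact ⟨Loc2_Rap_add ha.1 hb.1, fun m => (ha.2 m).add (hb.2 m)⟩
  | succ n ih =>
    intro a b ha hb
    obtain ⟨ha1, a', ha2, ha3⟩ := ha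
    obtain ⟨hb1, b', hb2, hb3⟩ := hb
    refine ⟨⟨Loc2_Rap_add ha1.1 hb1.1, fun m => (ha1.2 m).add (hb1.2 m)⟩,
      fun m t => a' m t + b' m t, fun t ht m => ?_, ih ha3 hb3⟩
    exact (ha2 t ht m).add (hb2 t ht m)

theorem Loc2_AT_lin {τ C : ℝ} {ν : ℕ → ℝ} (h0 : ∀ n, 0 ≤ ν n)
    (hν : ∀ n, ν n ≤ C * (RR n : ℝ) ^ 4) (n : ℕ) :
    ∀ {a : ℕ → ℝ → ℝ}, AT τ n a → AT τ n (fun m t => -(ν m) * a m t) := by
  have hrap : ∀ {a : ℕ → ℝ → ℝ}, Rap a → Rap (fun m t => -(ν m) * a m t) := by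
    intro a ha s
    obtain ⟨K, hK⟩ := ha (s + 4)
    refine ⟨|C| * K, fun m t => ?_⟩
    have hm := Loc2_pos m
    calc (RR m : ℝ) ^ s * |-(ν m) * a m t| = ν m * ((RR m : ℝ) ^ s * |a m t|) := by
          rw [abs_mul, abs_neg, abs_of_nonneg (h0 m)]
          ring
      _ ≤ (|C| * (RR m : ℝ) ^ 4) * ((RR m : ℝ) ^ s * |a m t|) := by
          refine mul_le_mul_of_nonneg_right ((hν m).trans ?_) (by positivity)
          exact mul_le_mul_of_nonneg_right (le_abs_self _) (by positivity)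
      _ = |C| * ((RR m : ℝ) ^ (s + 4) * |a m t|) := by ring
      _ ≤ |C| * K := by
          gcongr
          exact hK m t
  induction n with
  | zero =>
    intro a ha
    exact ⟨hrap ha.1, fun m => continuous_const.mul (ha.2 m)⟩
  | succ n ih =>
    intro a ha
    obtain ⟨ha1, a', ha2, ha3⟩ := ha
    exact ⟨⟨hrap ha1.1, fun m => continuous_const.mul (ha1.2 m)⟩, fun m t => -(ν m) * a' m t,
      fun t ht m => (ha2 t ht m).const_mul _, ih ha3⟩

theorem Loc2_AT_B {β₁ β₂ : ℕ → ℕ → ℝ} (hβ : Loc2_Bd β₁ β₂) {τ : ℝ} (n : ℕ) :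
    ∀ {a b : ℕ → ℝ → ℝ}, AT τ n a → AT τ n b → AT τ n (Loc2_B β₁ β₂ a b) := by
  induction n with
  | zero =>
    intro a b ha hb
    exact ⟨Loc2_rap hβ ha.1 hb.1, Loc2_cont hβ ha.1 hb.1 ha.2 hb.2⟩
  | succ n ih =>
    intro a b ha hb
    have ha0 := Loc2_AT_pred n ha
    have hb0 := Loc2_AT_pred n hb
    obtain ⟨ha1, a', ha2, ha3⟩ := ha
    obtain ⟨hb1, b', hb2, hb3⟩ := hb
    refine ⟨⟨Loc2_rap hβ ha1.1 hb1.1, Loc2_cont hβ ha1.1 hb1.1 ha1.2 hb1.2⟩,
      fun m t => Loc2_B β₁ β₂ a' b m t + Loc2_B β₁ β₂ a b' m t, ?_,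
      Loc2_AT_add n (ih ha3 hb0) (ih ha0 hb3)⟩
    exact Loc2_der hβ ha1.1 hb1.1 (Loc2_AT_zero ha3).1 (Loc2_AT_zero hb3).1 ha2 hb2

/-! ### the system -/

/-- coefficients of the products `a_k a_m` -/
noncomputable def Loc2_b1 (c : ℕ → ℕ → ℝ) (p : ℕ → ℝ) (m k : ℕ) : ℝ :=
  (if k < m then c k m else 0) + (if k = m + 1 then -p m else 0)

/-- coefficients of the squares -/
noncomputable def Loc2_b2 (c : ℕ → ℕ → ℝ) (p : ℕ → ℝ) (m k : ℕ) : ℝ :=
  (if m < k then -c m k else 0) + (if k + 1 = m then p k else 0)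

theorem Loc2_bd {c : ℕ → ℕ → ℝ} {p ν : ℕ → ℝ} {C : ℝ} (h : Coef c p ν C) :
    Loc2_Bd (Loc2_b1 c p) (Loc2_b2 c p) := by
  constructor
  · intro s
    obtain ⟨K, hK⟩ := h.p_le s
    refine ⟨|C| + |K|, s + 5, fun m k => ?_⟩
    have hk := Loc2_one_le k
    have hm := Loc2_one_le m
    have hk0 := Loc2_pos k
    have hm0 := Loc2_pos m
    have e1 : (RR m : ℝ) ^ s * |if k < m then c k m else 0| ≤
        |C| * ((RR k : ℝ) ^ (s + 5) * (RR m : ℝ) ^ (s + 5)) := by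
      split_ifs with hkm
      · calc (RR m : ℝ) ^ s * |c k m| ≤ (RR m : ℝ) ^ s * (|C| * (RR k : ℝ) ^ 5) := by
              gcongr
              refine (h.c_le k m hkm).trans ?_
              gcongr
              exact le_abs_self _
          _ = |C| * ((RR k : ℝ) ^ 5 * (RR m : ℝ) ^ s) := by ring
          _ ≤ |C| * ((RR k : ℝ) ^ (s + 5) * (RR m : ℝ) ^ (s + 5)) := by
              gcongr
              · omega
              · omega
      · rw [abs_zero, mul_zero]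
        positivity
    have e2 : (RR m : ℝ) ^ s * |if k = m + 1 then -p m else 0| ≤
        |K| * ((RR k : ℝ) ^ (s + 5) * (RR m : ℝ) ^ (s + 5)) := by
      have h1 : (1 : ℝ) ≤ (RR k : ℝ) ^ (s + 5) * (RR m : ℝ) ^ (s + 5) :=
        one_le_mul_of_one_le_of_one_le (one_le_pow₀ hk) (one_le_pow₀ hm)
      split_ifs with hkm
      · calc (RR m : ℝ) ^ s * |-p m| = p m * (RR m : ℝ) ^ s := by
              rw [abs_neg, abs_of_nonneg (h.p0 m)]
              ring
          _ ≤ p m * (RR (m + 1) : ℝ) ^ s := by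
              have h3 : (RR m : ℝ) ≤ RR (m + 1) := Loc2_mono (Nat.le_succ m)
              exact mul_le_mul_of_nonneg_left (pow_le_pow_left₀ hm0.le h3 s) (h.p0 m)
          _ ≤ |K| * 1 := by
              rw [mul_one]
              exact (hK m).trans (le_abs_self _)
          _ ≤ _ := by gcongr
      · rw [abs_zero, mul_zero]
        positivity
    calc (RR m : ℝ) ^ s * |Loc2_b1 c p m k| ≤ (RR m : ℝ) ^ s *
          (|if k < m then c k m else 0| + |if k = m + 1 then -p m else 0|) := by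
          gcongr
          exact abs_add_le _ _
      _ ≤ |C| * ((RR k : ℝ) ^ (s + 5) * (RR m : ℝ) ^ (s + 5)) +
          |K| * ((RR k : ℝ) ^ (s + 5) * (RR m : ℝ) ^ (s + 5)) := by
          rw [mul_add]
          exact add_le_add e1 e2
      _ = _ := by ring
  · intro s
    obtain ⟨K, hK⟩ := h.p_le s
    refine ⟨|C| + |K|, s + 5, fun m k => ?_⟩
    have hk := Loc2_one_le k
    have hm := Loc2_one_le m
    have hk0 := Loc2_pos k
    have hm0 := Loc2_pos m
    have e1 : (RR m : ℝ) ^ s * |if m < k then -c m k else 0| ≤ |C| * (RR k : ℝ) ^ (s + 5) := by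
      split_ifs with hkm
      · have h2 : (RR m : ℝ) ≤ RR k := Loc2_mono hkm.le
        calc (RR m : ℝ) ^ s * |-c m k| ≤ (RR m : ℝ) ^ s * (|C| * (RR m : ℝ) ^ 5) := by
              rw [abs_neg]
              gcongr
              refine (h.c_le m k hkm).trans ?_
              gcongr
              exact le_abs_self _
          _ = |C| * (RR m : ℝ) ^ (s + 5) := by ring
          _ ≤ |C| * (RR k : ℝ) ^ (s + 5) := by gcongr
      · rw [abs_zero, mul_zero]
        positivity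
    have e2 : (RR m : ℝ) ^ s * |if k + 1 = m then p k else 0| ≤ |K| * (RR k : ℝ) ^ (s + 5) := by
      split_ifs with hkm
      · calc (RR m : ℝ) ^ s * |p k| = p k * (RR (k + 1) : ℝ) ^ s := by
              rw [abs_of_nonneg (h.p0 k), hkm]
              ring
          _ ≤ |K| * 1 := by
              rw [mul_one]
              exact (hK k).trans (le_abs_self _)
          _ ≤ _ := by
              gcongr
              exact one_le_pow₀ hk
      · rw [abs_zero, mul_zero]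
        positivity
    calc (RR m : ℝ) ^ s * |Loc2_b2 c p m k| ≤ (RR m : ℝ) ^ s *
          (|if m < k then -c m k else 0| + |if k + 1 = m then p k else 0|) := by
          gcongr
          exact abs_add_le _ _
      _ ≤ |C| * (RR k : ℝ) ^ (s + 5) + |K| * (RR k : ℝ) ^ (s + 5) := by
          rw [mul_add]
          exact add_le_add e1 e2
      _ = _ := by ring

theorem Loc2_FF {c : ℕ → ℕ → ℝ} {p ν : ℕ → ℝ} {C : ℝ} (h : Coef c p ν C) {a : ℕ → ℝ → ℝ}
    (ha : Rap a) (m : ℕ) (t : ℝ) :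
    Loc2_B (Loc2_b1 c p) (Loc2_b2 c p) a a m t + -(ν m) * a m t = FF c p ν a m t := by
  -- the sum over `l > m`
  have hs3 : Summable (fun k => if m < k then c m k * a k t ^ 2 else 0) := by
    have h1 : Loc2_Bd (fun _ _ => 0) (fun m k => if m < k then c m k else 0) := by
      constructor
      · intro s
        refine ⟨0, 0, fun m k => ?_⟩
        simp
      · intro s
        refine ⟨|C|, s + 5, fun m k => ?_⟩
        have hm0 := Loc2_pos m
        have hk0 := Loc2_pos k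
        beta_reduce
        split_ifs with hkm
        · have h2 : (RR m : ℝ) ≤ RR k := Loc2_mono hkm.le
          calc (RR m : ℝ) ^ s * |c m k| ≤ (RR m : ℝ) ^ s * (|C| * (RR m : ℝ) ^ 5) := by
                gcongr
                refine (h.c_le m k hkm).trans ?_
                gcongr
                exact le_abs_self _
            _ = |C| * (RR m : ℝ) ^ (s + 5) := by ring
            _ ≤ |C| * (RR k : ℝ) ^ (s + 5) := by gcongr
        · rw [abs_zero, mul_zero]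
          positivity
    have h2 := Loc2_sum h1 ha ha m t
    refine h2.congr fun k => ?_
    show 0 * (a k t * a m t) + (if m < k then c m k else 0) * (a k t * a k t) =
      (if m < k then c m k * a k t ^ 2 else 0)
    split_ifs
    · ring
    · ring
  have f1 : HasSum (fun k => if k < m then c k m * a k t * a m t else 0)
      (∑ n ∈ Finset.range m, c n m * a n t * a m t) := by
    have h1 : HasSum (fun k => if k < m then c k m * a k t * a m t else 0)
        (∑ k ∈ Finset.range m, (if k < m then c k m * a k t * a m t else 0)) :=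
      hasSum_sum_of_ne_finset_zero fun k hk => by
        rw [Finset.mem_range] at hk
        rw [if_neg hk]
    have h2 : ∑ k ∈ Finset.range m, (if k < m then c k m * a k t * a m t else 0) =
        ∑ n ∈ Finset.range m, c n m * a n t * a m t :=
      Finset.sum_congr rfl fun k hk => by rw [if_pos (Finset.mem_range.1 hk)]
    rwa [h2] at h1
  have f2 : HasSum (fun k => if k = m + 1 then -p m * (a (m + 1) t * a m t) else 0)
      (-p m * (a (m + 1) t * a m t)) := hasSum_ite_eq _ _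
  have f4 : HasSum (fun k => if k + 1 = m then p k * a k t ^ 2 else 0) (pm p a m t) := by
    unfold pm
    rcases m with _ | m
    · rw [if_pos rfl]
      have : (fun k => if k + 1 = 0 then p k * a k t ^ 2 else 0) = fun _ : ℕ => (0 : ℝ) := by
        ext k
        rw [if_neg (Nat.succ_ne_zero k)]
      rw [this]
      exact hasSum_zero
    · rw [if_neg (Nat.succ_ne_zero m), Nat.add_sub_cancel]
      have : (fun k => if k + 1 = m + 1 then p k * a k t ^ 2 else 0) =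
          fun k : ℕ => if k = m then p m * a m t ^ 2 else 0 := by
        ext k
        by_cases hk : k = m
        · rw [if_pos hk, if_pos (by rw [hk]), hk]
        · rw [if_neg hk, if_neg (fun e => hk (Nat.succ_injective e))]
      rw [this]
      exact hasSum_ite_eq _ _
  have hsum := ((f1.add f2).sub hs3.hasSum).add f4
  have e : Loc2_B (Loc2_b1 c p) (Loc2_b2 c p) a a m t =
      ∑' k, ((if k < m then c k m * a k t * a m t else 0) +
        (if k = m + 1 then -p m * (a (m + 1) t * a m t) else 0) -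
        (if m < k then c m k * a k t ^ 2 else 0) + (if k + 1 = m then p k * a k t ^ 2 else 0)) := by
    unfold Loc2_B
    refine tsum_congr fun k => ?_
    unfold Loc2_tm Loc2_b1 Loc2_b2
    by_cases h2 : k = m + 1
    · subst h2
      rw [if_pos rfl, if_pos rfl]
      split_ifs <;> ring
    · rw [if_neg h2, if_neg h2]
      split_ifs <;> ring
  rw [e, hsum.tsum_eq]
  unfold FF
  rw [← Finset.sum_mul]
  ring

/-- **GB10 Loc2**: regularity in time of the solutions of the infinite system -/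
theorem s_loc2 : S_loc2 := by
  intro c p ν C h τ a ha hc hd n
  induction n with
  | zero => exact ⟨ha, hc⟩
  | succ n ih =>
    refine ⟨⟨ha, hc⟩, fun m t => Loc2_B (Loc2_b1 c p) (Loc2_b2 c p) a a m t + -(ν m) * a m t,
      fun t ht m => ?_, Loc2_AT_add n (Loc2_AT_B (Loc2_bd h) n ih ih) (Loc2_AT_lin h.ν0 h.ν_le n ih)⟩
    have e := Loc2_FF h ha m t
    show HasDerivAt (a m) (Loc2_B (Loc2_b1 c p) (Loc2_b2 c p) a a m t + -(ν m) * a m t) t
    rw [e]
    exact hd t ht m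

end Pool.Agent.H226.GB

end

/-! ## Loc1u -/

section

/-!
Local existence for the infinite system, with a time depending only on the bound of
`R_m^6 |a0 m|`: the contraction principle applied to Duhamel's formula.
-/

open MeasureTheory Set Filter Topology
open scoped BoundedContinuousFunction

namespace Pool.Agent.H226.GB

theorem s_loc1u : S_loc1u := by
  intro c p ν C hc K6
  choose P hP using hc.p_le
  have hP0 : ∀ n, p n ≤ P 0 := fun n => by
    have h := hP 0 n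
    rw [pow_zero, mul_one] at h
    exact h
  have h0 := Loc1_C0 hc
  have hPn : ∀ k, 0 ≤ P k := fun k =>
    le_trans (mul_nonneg (hc.p0 0) (by positivity)) (hP k 0)
  obtain ⟨L6, hL6⟩ : ∃ L6, L6 = max K6 0 := ⟨_, rfl⟩
  have hL60 : 0 ≤ L6 := by rw [hL6]; exact le_max_right _ _
  have hL61 : K6 ≤ L6 := by rw [hL6]; exact le_max_left _ _
  obtain ⟨M, hMdef⟩ : ∃ M, M = L6 + 1 := ⟨_, rfl⟩
  have hM : 0 < M := by rw [hMdef]; linarith
  obtain ⟨B, hB⟩ : ∃ B : ℕ → ℝ, ∀ k, B k = (2 * C + P k + P 0) * M := ⟨_, fun _ => rfl⟩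
  have hBn : ∀ k, 0 ≤ B k := fun k => by
    rw [hB]
    have := hPn k
    have := hPn 0
    positivity
  obtain ⟨τ, hτ, hτ1, hτ2⟩ : ∃ τ : ℝ, 0 < τ ∧ τ * (B 6 * M) ≤ 1 ∧
      τ * (4 * (C + P 0) * M) ≤ 1 / 2 := by
    have h1 : 0 ≤ B 6 * M := mul_nonneg (hBn 6) hM.le
    have h2 : 0 ≤ 4 * (C + P 0) * M := by
      have := hPn 0
      positivity
    have h3 : 0 < B 6 * M + 2 * (4 * (C + P 0) * M) + 1 := by linarith
    refine ⟨1 / (B 6 * M + 2 * (4 * (C + P 0) * M) + 1), by positivity, ?_, ?_⟩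
    · rw [one_div, inv_mul_le_iff₀ h3]
      linarith
    · rw [one_div, inv_mul_le_iff₀ h3]
      linarith
  refine ⟨τ, hτ, fun a0 ha0 h6 => ?_⟩
  choose K hK using ha0
  have hKn : ∀ k, 0 ≤ K k := fun k => le_trans (abs_nonneg _) (Loc1_le (hK k 0))
  -- the set
  let s : Set ((ℕ × ℝ) →ᵇ ℝ) := {a | (∀ m t, (RR m : ℝ) ^ 6 * |a (m, t)| ≤ M) ∧
    ∀ k m t, (RR m : ℝ) ^ k * |a (m, t)| ≤ K k * Real.exp (B k * Loc1_cl τ t)}
  have hsc : IsClosed s := by
    have hev : ∀ (k m : ℕ) (t L : ℝ),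
        IsClosed {a : (ℕ × ℝ) →ᵇ ℝ | (RR m : ℝ) ^ k * |a (m, t)| ≤ L} := fun k m t L =>
      isClosed_le (continuous_const.mul
        (continuous_eval_const (F := (ℕ × ℝ) →ᵇ ℝ) (m, t)).abs) continuous_const
    have e : s = (⋂ m : ℕ, ⋂ t : ℝ, {a : (ℕ × ℝ) →ᵇ ℝ | (RR m : ℝ) ^ 6 * |a (m, t)| ≤ M}) ∩
        ⋂ k : ℕ, ⋂ m : ℕ, ⋂ t : ℝ, {a : (ℕ × ℝ) →ᵇ ℝ | (RR m : ℝ) ^ k * |a (m, t)|
          ≤ K k * Real.exp (B k * Loc1_cl τ t)} := by
      ext a
      simp only [s, mem_ofPred_eq, mem_inter_iff, mem_iInter]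
    rw [e]
    exact (isClosed_iInter fun m => isClosed_iInter fun t => hev _ _ _ _).inter
      (isClosed_iInter fun k => isClosed_iInter fun m => isClosed_iInter fun t => hev _ _ _ _)
  have hexp : ∀ k t, K k ≤ K k * Real.exp (B k * Loc1_cl τ t) := fun k t => by
    have h1 : 1 ≤ Real.exp (B k * Loc1_cl τ t) :=
      Real.one_le_exp (mul_nonneg (hBn k) (Loc1_cl0 τ t))
    calc K k = K k * 1 := by ring
      _ ≤ _ := mul_le_mul_of_nonneg_left h1 (hKn k)
  -- continuity of the families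
  have hac : ∀ (a : (ℕ × ℝ) →ᵇ ℝ) (m : ℕ), Continuous fun t => a (m, t) := fun a m =>
    a.continuous.comp (continuous_const.prodMk continuous_id)
  have hNc : ∀ a ∈ s, ∀ m, Continuous fun r => Loc1_N c p (fun n => a (n, r)) m :=
    fun a ha m => Loc1_cont (a := fun n t => a (n, t)) hc (hac a) ha.1 m
  -- bounds of the map
  have hmap : ∀ a ∈ s, ∀ m t,
      (RR m : ℝ) ^ 6 * |Loc1_D (ν m) (a0 m) (fun r => Loc1_N c p (fun n => a (n, r)) m)
        (Loc1_cl τ t)| ≤ M ∧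
      ∀ k : ℕ, (RR m : ℝ) ^ k * |Loc1_D (ν m) (a0 m)
        (fun r => Loc1_N c p (fun n => a (n, r)) m) (Loc1_cl τ t)|
          ≤ K k * Real.exp (B k * Loc1_cl τ t) := by
    intro a ha m t
    have ht := Loc1_cl0 τ t
    have ht' := Loc1_clτ hτ.le t
    refine ⟨?_, fun k => ?_⟩
    · have h1 := Loc1_Dbd (x0 := a0 m) (hc.ν0 m) (hNc a ha m) ht
      have h2 := Loc1_small (R := (RR m : ℝ) ^ 6) (L := B 6 * M) (hNc a ha m) ht (fun r _ => by
        rw [hB]
        exact Loc1_bd hc (hP 6) hP0 (fun n => ha.1 n r) (fun n => ha.1 n r) m)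
      calc _ ≤ (RR m : ℝ) ^ 6 * (|a0 m|
            + ∫ r in (0 : ℝ)..Loc1_cl τ t, |Loc1_N c p (fun n => a (n, r)) m|) :=
            mul_le_mul_of_nonneg_left h1 (by positivity)
        _ = (RR m : ℝ) ^ 6 * |a0 m| + (RR m : ℝ) ^ 6 *
            ∫ r in (0 : ℝ)..Loc1_cl τ t, |Loc1_N c p (fun n => a (n, r)) m| := by ring
        _ ≤ L6 + Loc1_cl τ t * (B 6 * M) := add_le_add ((h6 m).trans hL61) h2
        _ ≤ L6 + τ * (B 6 * M) := by
            have := mul_le_mul_of_nonneg_right ht' (mul_nonneg (hBn 6) hM.le)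
            linarith
        _ ≤ M := by rw [hMdef]; rw [hMdef] at hτ1; linarith
    · refine Loc1_grow (hc.ν0 m) (by positivity) (hNc a ha m) ht (hK k m) fun r hr => ?_
      have hr' : Loc1_cl τ r = r := Loc1_cl_eq ⟨hr.1, hr.2.trans ht'⟩
      have h3 := Loc1_bd (E := K k * Real.exp (B k * r)) hc (hP k) hP0 (fun n => ha.1 n r)
        (fun n => by
          have h4 := ha.2 k n r
          rw [hr'] at h4
          exact h4) m
      rw [hB k] at h3 ⊢
      exact h3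
  -- the map
  have hex : ∀ a : s, ∃ b : s, ∀ m t, (b : (ℕ × ℝ) →ᵇ ℝ) (m, t)
      = Loc1_D (ν m) (a0 m) (fun r => Loc1_N c p (fun n => (a : (ℕ × ℝ) →ᵇ ℝ) (n, r)) m)
        (Loc1_cl τ t) := by
    rintro ⟨a, ha⟩
    have hcont : Continuous fun z : ℕ × ℝ => Loc1_D (ν z.1) (a0 z.1)
        (fun r => Loc1_N c p (fun n => a (n, r)) z.1) (Loc1_cl τ z.2) := by
      rw [continuous_prod_of_discrete_left]
      intro m
      show Continuous fun x => Loc1_D (ν m) (a0 m)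
        (fun r => Loc1_N c p (fun n => a (n, r)) m) (Loc1_cl τ x)
      exact (Loc1_Dcont (hNc a ha m)).comp (Loc1_cl_cont τ)
    refine ⟨⟨BoundedContinuousFunction.ofNormedAddCommGroup _ hcont M fun z => ?_, ?_, ?_⟩,
      fun m t => rfl⟩
    · exact Loc1_le (hmap a ha z.1 z.2).1
    · exact fun m t => (hmap a ha m t).1
    · exact fun k m t => (hmap a ha m t).2 k
  choose Φ hΦ using hex
  have hcw : ContractingWith (1 / 2) Φ := by
    refine ⟨by norm_num, LipschitzWith.of_dist_le_mul fun a b => ?_⟩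
    rw [Subtype.dist_eq, Subtype.dist_eq]
    refine (BoundedContinuousFunction.dist_le (by positivity)).2 ?_
    rintro ⟨m, t⟩
    have ht := Loc1_cl0 τ t
    have ht' := Loc1_clτ hτ.le t
    rw [hΦ, hΦ, Real.dist_eq]
    refine (Loc1_Dsub (hc.ν0 m) (hNc a a.2 m) (hNc b b.2 m) ht).trans ?_
    have h2 := Loc1_small (R := 1) (L := 4 * (C + P 0) * M * dist (a : (ℕ × ℝ) →ᵇ ℝ) b)
      ((hNc a a.2 m).sub (hNc b b.2 m)) ht (fun r _ => by
        rw [one_mul]
        refine Loc1_lip hc hP0 (fun n => a.2.1 n r) (fun n => b.2.1 n r) (fun n => ?_) m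
        rw [← Real.dist_eq]
        exact BoundedContinuousFunction.dist_coe_le_dist _)
    rw [one_mul] at h2
    refine h2.trans ?_
    have hd : 0 ≤ dist (a : (ℕ × ℝ) →ᵇ ℝ) b := dist_nonneg
    have hL : 0 ≤ 4 * (C + P 0) * M := by
      have := hPn 0
      positivity
    calc Loc1_cl τ t * (4 * (C + P 0) * M * dist (a : (ℕ × ℝ) →ᵇ ℝ) b)
        ≤ τ * (4 * (C + P 0) * M * dist (a : (ℕ × ℝ) →ᵇ ℝ) b) :=
          mul_le_mul_of_nonneg_right ht' (mul_nonneg hL hd)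
      _ = (τ * (4 * (C + P 0) * M)) * dist (a : (ℕ × ℝ) →ᵇ ℝ) b := by ring
      _ ≤ (1 / 2) * dist (a : (ℕ × ℝ) →ᵇ ℝ) b := mul_le_mul_of_nonneg_right hτ2 hd
      _ = _ := by norm_num
  -- the fixed point
  have : CompleteSpace s := hsc.completeSpace_coe
  have : Nonempty s := by
    have hcont : Continuous fun z : ℕ × ℝ => a0 z.1 := by
      rw [continuous_prod_of_discrete_left]
      intro m
      show Continuous fun _ : ℝ => a0 m
      exact continuous_const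
    refine ⟨⟨BoundedContinuousFunction.ofNormedAddCommGroup _ hcont (K 0) fun z => ?_, ?_, ?_⟩⟩
    · exact Loc1_le (hK 0 z.1)
    · intro m t
      exact (h6 m).trans (by rw [hMdef]; linarith)
    · intro k m t
      exact (hK k m).trans (hexp k t)
  obtain ⟨a, ha⟩ : ∃ a : s, Φ a = a :=
    ⟨ContractingWith.fixedPoint Φ hcw, hcw.fixedPoint_isFixedPt⟩
  have hfix : ∀ m t, (a : (ℕ × ℝ) →ᵇ ℝ) (m, t)
      = Loc1_D (ν m) (a0 m) (fun r => Loc1_N c p (fun n => (a : (ℕ × ℝ) →ᵇ ℝ) (n, r)) m)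
        (Loc1_cl τ t) := fun m t => by
    rw [← hΦ a m t, ha]
  refine ⟨fun m t => (a : (ℕ × ℝ) →ᵇ ℝ) (m, t), fun k => ?_, hac a, fun m => ?_,
    fun t ht m => ?_⟩
  · refine ⟨K k * Real.exp (B k * τ), fun m t => (a.2.2 k m t).trans ?_⟩
    exact mul_le_mul_of_nonneg_left (Real.exp_le_exp.2
      (mul_le_mul_of_nonneg_left (Loc1_clτ hτ.le t) (hBn k))) (hKn k)
  · show (a : (ℕ × ℝ) →ᵇ ℝ) (m, 0) = a0 m
    rw [hfix, Loc1_cl_eq ⟨le_rfl, hτ.le⟩, Loc1_D0]
  · have h1 := Loc1_Dder (ν := ν m) (x0 := a0 m) (hNc a a.2 m) t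
    have h2 : (fun t => (a : (ℕ × ℝ) →ᵇ ℝ) (m, t)) =ᶠ[𝓝 t]
        Loc1_D (ν m) (a0 m) (fun r => Loc1_N c p (fun n => (a : (ℕ × ℝ) →ᵇ ℝ) (n, r)) m) := by
      filter_upwards [Ioo_mem_nhds ht.1 ht.2] with r hr
      rw [hfix, Loc1_cl_eq ⟨hr.1.le, hr.2.le⟩]
    rw [Loc1_FF]
    refine (h1.congr_of_eventuallyEq h2).congr_deriv ?_
    have h3 := h2.eq_of_nhds
    show Loc1_N c p (fun n => (a : (ℕ × ℝ) →ᵇ ℝ) (n, t)) m - ν m * _
      = Loc1_N c p (fun n => (a : (ℕ × ℝ) →ᵇ ℝ) (n, t)) m - ν m * (a : (ℕ × ℝ) →ᵇ ℝ) (m, t)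
    rw [← h3]

end Pool.Agent.H226.GB

end
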