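import Pool.Agent.H226.GM.S

/-! ## Loc3 -/

section

/-!
`s_loc3`: localization of the equation and of the time derivatives of the series, for the
block of the frequencies `RR m`.  Written by seat helper955.
-/

set_option autoImplicit false

open MeasureTheory Set Filter Topology
open scoped ContDiff
open H459R3.NS

namespace Pool.Agent.H226.GB

theorem loc3_RR_one (m : ℕ) : (1 : ℝ) ≤ (RR m : ℝ) := by
  have : 1 ≤ RR m := Nat.one_le_two_pow
  exact_mod_cast this

theorem loc3_RR_two (m : ℕ) : (2 : ℝ) ^ m ≤ (RR m : ℝ) := by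
  unfold RR
  push_cast
  refine pow_le_pow_right₀ one_le_two ?_
  calc m ≤ m + 2 := by omega
    _ = (m + 2) ^ 1 := (pow_one _).symm
    _ ≤ (m + 2) ^ 3 := Nat.pow_le_pow_right (by omega) (by norm_num)

theorem loc3_RR_mono {m n : ℕ} (h : m ≤ n) : RR m ≤ RR n := by
  unfold RR
  exact Nat.pow_le_pow_right (by norm_num) (Nat.pow_le_pow_left (by omega) 3)

theorem loc3_alg (K C : ℝ) {R : ℝ} (hR : 0 < R) (s : ℕ) :
    (K / R ^ (s + 1)) * (C * R ^ s) = (K * C) / R := by
  have h : R ^ s ≠ 0 := (pow_pos hR s).ne'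
  rw [pow_succ, div_mul_eq_mul_div, div_eq_div_iff (mul_ne_zero h hR.ne') hR.ne']
  ring

theorem loc3_summable (K : ℝ) : Summable fun m => K / (RR m : ℝ) := by
  have h0 : Summable fun m : ℕ => |K| * (1 / 2) ^ m :=
    (summable_geometric_of_lt_one (by norm_num) (by norm_num)).mul_left _
  refine Summable.of_norm_bounded h0 fun m => ?_
  have h1 := loc3_RR_two m
  have h2 : (0 : ℝ) < 2 ^ m := by positivity
  rw [norm_div, Real.norm_eq_abs, Real.norm_of_nonneg (h2.le.trans h1), one_div, inv_pow,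
    ← div_eq_mul_inv]
  exact div_le_div_of_nonneg_left (abs_nonneg _) h2 h1

section PB

variable {E : Type} [NormedAddCommGroup E] [NormedSpace ℝ E]
  {E' : Type} [NormedAddCommGroup E'] [NormedSpace ℝ E']

/-- smooth families with polynomially bounded derivatives -/
def Loc3PB (f : ℕ → E → ℝ) : Prop :=
  (∀ m, ContDiff ℝ ∞ (f m)) ∧ ∀ k : ℕ, ∃ (C : ℝ) (s : ℕ), 0 ≤ C ∧ ∀ j ≤ k, ∀ m x,
    ‖iteratedFDeriv ℝ j (f m) x‖ ≤ C * (RR m : ℝ) ^ s

theorem loc3_le (j : ℕ) : ((j : ℕ) : ℕ∞ω) ≤ (∞ : ℕ∞ω) := by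
  exact_mod_cast le_top

theorem loc3_cd {f : E → ℝ} (hf : ContDiff ℝ ∞ f) (j : ℕ) : ContDiff ℝ j f := hf.of_le (loc3_le j)

theorem Loc3PB.mul {f g : ℕ → E → ℝ} (hf : Loc3PB f) (hg : Loc3PB g) :
    Loc3PB (fun m x => f m x * g m x) := by
  refine ⟨fun m => (hf.1 m).mul (hg.1 m), fun k => ?_⟩
  obtain ⟨C, s, hC, h1⟩ := hf.2 k
  obtain ⟨C', s', hC', h2⟩ := hg.2 k
  refine ⟨2 ^ k * (C * C'), s + s', by positivity, fun j hj m x => ?_⟩
  have hR := loc3_RR_one m
  refine (norm_iteratedFDeriv_mul_le (hf.1 m) (hg.1 m) x (loc3_le j)).trans ?_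
  have h3 : ∀ i ∈ Finset.range (j + 1), (j.choose i : ℝ) * ‖iteratedFDeriv ℝ i (f m) x‖ *
      ‖iteratedFDeriv ℝ (j - i) (g m) x‖ ≤
      (j.choose i : ℝ) * ((C * (RR m : ℝ) ^ s) * (C' * (RR m : ℝ) ^ s')) := by
    intro i hi
    rw [Finset.mem_range] at hi
    rw [mul_assoc]
    refine mul_le_mul_of_nonneg_left ?_ (Nat.cast_nonneg _)
    exact mul_le_mul (h1 i (by omega) m x) (h2 (j - i) (by omega) m x) (norm_nonneg _)
      (by positivity)
  refine (Finset.sum_le_sum h3).trans ?_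
  rw [← Finset.sum_mul]
  have h4 : ∑ i ∈ Finset.range (j + 1), (j.choose i : ℝ) = 2 ^ j := by
    exact_mod_cast Nat.sum_range_choose j
  rw [h4]
  have h5 : (2 : ℝ) ^ j ≤ 2 ^ k := pow_le_pow_right₀ one_le_two hj
  calc (2 : ℝ) ^ j * ((C * (RR m : ℝ) ^ s) * (C' * (RR m : ℝ) ^ s'))
      ≤ 2 ^ k * ((C * (RR m : ℝ) ^ s) * (C' * (RR m : ℝ) ^ s')) :=
        mul_le_mul_of_nonneg_right h5 (by positivity)
    _ = _ := by ring

theorem Loc3PB.add {f g : ℕ → E → ℝ} (hf : Loc3PB f) (hg : Loc3PB g) :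
    Loc3PB (fun m x => f m x + g m x) := by
  refine ⟨fun m => (hf.1 m).add (hg.1 m), fun k => ?_⟩
  obtain ⟨C, s, hC, h1⟩ := hf.2 k
  obtain ⟨C', s', hC', h2⟩ := hg.2 k
  refine ⟨C + C', s + s', by positivity, fun j hj m x => ?_⟩
  have hR := loc3_RR_one m
  have e : iteratedFDeriv ℝ j (fun x => f m x + g m x) x =
      iteratedFDeriv ℝ j (f m) x + iteratedFDeriv ℝ j (g m) x :=
    iteratedFDeriv_add_apply (loc3_cd (hf.1 m) j).contDiffAt (loc3_cd (hg.1 m) j).contDiffAt
  rw [e]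
  refine (norm_add_le _ _).trans ?_
  have h3 : (RR m : ℝ) ^ s ≤ (RR m : ℝ) ^ (s + s') := pow_le_pow_right₀ hR (by omega)
  have h4 : (RR m : ℝ) ^ s' ≤ (RR m : ℝ) ^ (s + s') := pow_le_pow_right₀ hR (by omega)
  calc _ ≤ C * (RR m : ℝ) ^ s + C' * (RR m : ℝ) ^ s' := add_le_add (h1 j hj m x) (h2 j hj m x)
    _ ≤ C * (RR m : ℝ) ^ (s + s') + C' * (RR m : ℝ) ^ (s + s') :=
        add_le_add (mul_le_mul_of_nonneg_left h3 hC) (mul_le_mul_of_nonneg_left h4 hC')
    _ = _ := by ring

theorem Loc3PB.smul {f : ℕ → E → ℝ} (hf : Loc3PB f) (c : ℕ → ℝ) (B : ℝ) (r : ℕ)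
    (hc : ∀ m, |c m| ≤ B * (RR m : ℝ) ^ r) : Loc3PB (fun m x => c m * f m x) := by
  have hB : 0 ≤ B := by
    have h1 := (abs_nonneg _).trans (hc 0)
    have h2 : (0 : ℝ) < (RR 0 : ℝ) ^ r := pow_pos (lt_of_lt_of_le one_pos (loc3_RR_one 0)) r
    exact nonneg_of_mul_nonneg_left h1 h2
  refine ⟨fun m => contDiff_const.mul (hf.1 m), fun k => ?_⟩
  obtain ⟨C, s, hC, h1⟩ := hf.2 k
  refine ⟨B * C, r + s, by positivity, fun j hj m x => ?_⟩
  have hR := loc3_RR_one m
  have e : iteratedFDeriv ℝ j (fun x => c m * f m x) x = c m • iteratedFDeriv ℝ j (f m) x :=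
    iteratedFDeriv_const_smul_apply' (a := c m) (loc3_cd (hf.1 m) j).contDiffAt
  rw [e, norm_smul, Real.norm_eq_abs]
  calc _ ≤ (B * (RR m : ℝ) ^ r) * (C * (RR m : ℝ) ^ s) :=
        mul_le_mul (hc m) (h1 j hj m x) (norm_nonneg _) (by positivity)
    _ = _ := by ring

theorem Loc3PB.comp {f : ℕ → E → ℝ} (hf : Loc3PB f) (L : E' →L[ℝ] E) (hL : ‖L‖ ≤ 1) :
    Loc3PB (fun m x => f m (L x)) := by
  refine ⟨fun m => (hf.1 m).comp L.contDiff, fun k => ?_⟩
  obtain ⟨C, s, hC, h1⟩ := hf.2 k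
  refine ⟨C, s, hC, fun j hj m x => ?_⟩
  have e : iteratedFDeriv ℝ j (fun x => f m (L x)) x =
      (iteratedFDeriv ℝ j (f m) (L x)).compContinuousLinearMap fun _ => L :=
    L.iteratedFDeriv_comp_right (hf.1 m) x (loc3_le j)
  rw [e]
  refine (ContinuousMultilinearMap.norm_compContinuousLinearMap_le _ _).trans ?_
  rw [Finset.prod_const]
  calc _ ≤ (C * (RR m : ℝ) ^ s) * 1 := by
        refine mul_le_mul (h1 j hj m _) (pow_le_one₀ (norm_nonneg _) hL) (by positivity)
          (mul_nonneg hC (pow_nonneg (zero_le_one.trans (loc3_RR_one m)) _))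
    _ = _ := mul_one _

end PB

theorem Loc3PB.pd {f : ℕ → V → ℝ} (hf : Loc3PB f) (i : Fin 3) : Loc3PB (fun m => pd i (f m)) := by
  refine ⟨fun m => ((hf.1 m).fderiv_right (m := ∞) (by norm_cast)).clm_apply contDiff_const,
    fun k => ?_⟩
  obtain ⟨C, s, hC, h1⟩ := hf.2 (k + 1)
  refine ⟨C, s, hC, fun j hj m x => ?_⟩
  have h2 : ‖iteratedFDeriv ℝ j (H459R3.NS.pd i (f m)) x‖ ≤
      ‖(Pi.single i (1 : ℝ) : V)‖ * ‖iteratedFDeriv ℝ j (fderiv ℝ (f m)) x‖ :=
    norm_iteratedFDeriv_clm_apply_const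
      ((hf.1 m).fderiv_right (m := (j : ℕ∞ω)) (by exact_mod_cast le_top)).contDiffAt le_rfl
  have h3 : ‖(Pi.single i (1 : ℝ) : V)‖ ≤ 1 := by
    rw [pi_norm_le_iff_of_nonneg zero_le_one]
    intro l
    by_cases h : l = i
    · subst h
      rw [Pi.single_eq_same, norm_one]
    · rw [Pi.single_eq_of_ne h, norm_zero]
      exact zero_le_one
  rw [norm_iteratedFDeriv_fderiv] at h2
  refine h2.trans ?_
  calc _ ≤ 1 * (C * (RR m : ℝ) ^ s) :=
        mul_le_mul h3 (h1 (j + 1) (by omega) m x) (norm_nonneg _) zero_le_one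
    _ = _ := one_mul _

/-! ### The explicit fields -/

theorem loc3_sn_cd (j : ℕ) : ContDiff ℝ ∞ (sn j) := by
  unfold sn
  fun_prop

theorem loc3_cs_cd (j : ℕ) : ContDiff ℝ ∞ (cs j) := by
  unfold cs
  fun_prop

theorem loc3_mode (g : ℝ → ℝ) (j : ℕ) (hg : g = sn j ∨ g = cs j) (i : ℕ) (s : ℝ) :
    ‖iteratedFDeriv ℝ i g s‖ ≤ (2 * Real.pi * j) ^ i := by
  have hc : 0 ≤ 2 * Real.pi * (j : ℝ) := by positivity
  rw [norm_iteratedFDeriv_eq_norm_iteratedDeriv]
  rcases hg with rfl | rfl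
  · have e : iteratedDeriv i (sn j) = fun x => (2 * Real.pi * j) ^ i *
        iteratedDeriv i Real.sin (2 * Real.pi * j * x) :=
      iteratedDeriv_comp_const_mul Real.contDiff_sin (2 * Real.pi * j)
    rw [e]
    beta_reduce
    rw [norm_mul, norm_pow, Real.norm_of_nonneg hc]
    exact mul_le_of_le_one_right (pow_nonneg hc _) (Real.abs_iteratedDeriv_sin_le_one i _)
  · have e : iteratedDeriv i (cs j) = fun x => (2 * Real.pi * j) ^ i *
        iteratedDeriv i Real.cos (2 * Real.pi * j * x) :=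
      iteratedDeriv_comp_const_mul Real.contDiff_cos (2 * Real.pi * j)
    rw [e]
    beta_reduce
    rw [norm_mul, norm_pow, Real.norm_of_nonneg hc]
    exact mul_le_of_le_one_right (pow_nonneg hc _) (Real.abs_iteratedDeriv_cos_le_one i _)

theorem loc3_trig (J : ℕ → Finset ℕ) (c : ℕ → ℝ) (g : ℕ → ℝ → ℝ)
    (hg : ∀ j, g j = sn j ∨ g j = cs j) (hc : ∀ j, |c j| ≤ 1)
    (hJ : ∀ m, ∀ j ∈ J m, j ≤ 34 * NN m) (hcard : ∀ m, (J m).card ≤ 34 * NN m) :
    Loc3PB (fun m s => ∑ j ∈ J m, c j * g j s) := by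
  have hcd : ∀ j, ContDiff ℝ ∞ (g j) := fun j => by
    rcases hg j with h | h
    · rw [h]
      exact loc3_sn_cd j
    · rw [h]
      exact loc3_cs_cd j
  refine ⟨fun m => ContDiff.sum fun j _ => contDiff_const.mul (hcd j), fun k => ?_⟩
  refine ⟨34 * 272 ^ k, 2 + 2 * k, by positivity, fun i hi m x => ?_⟩
  have hR := loc3_RR_one m
  have e : iteratedFDeriv ℝ i (fun s => ∑ j ∈ J m, c j * g j s) x =
      ∑ j ∈ J m, iteratedFDeriv ℝ i (fun s => c j * g j s) x :=
    iteratedFDeriv_fun_sum_apply (fun j _ =>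
      (contDiff_const.mul (loc3_cd (hcd j) i)).contDiffAt)
  rw [e]
  have hN : (NN m : ℝ) = (RR m : ℝ) ^ 2 := by
    unfold NN
    push_cast
    rfl
  have h1 : ∀ j ∈ J m, ‖iteratedFDeriv ℝ i (fun s => c j * g j s) x‖ ≤ (272 * (RR m : ℝ) ^ 2) ^ k := by
    intro j hj
    have e2 : iteratedFDeriv ℝ i (fun x => c j * g j x) x = c j • iteratedFDeriv ℝ i (g j) x :=
      iteratedFDeriv_const_smul_apply' (a := c j) (loc3_cd (hcd j) i).contDiffAt
    rw [e2, norm_smul, Real.norm_eq_abs]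
    have h2 : (j : ℝ) ≤ 34 * (RR m : ℝ) ^ 2 := by
      rw [← hN]
      exact_mod_cast hJ m j hj
    have h3 : 2 * Real.pi * (j : ℝ) ≤ 272 * (RR m : ℝ) ^ 2 := by
      have h6 := Real.pi_le_four
      have h0 : (0 : ℝ) ≤ j := Nat.cast_nonneg _
      have h7 : 2 * Real.pi * (j : ℝ) ≤ 8 * (j : ℝ) :=
        mul_le_mul_of_nonneg_right (by linarith only [h6]) h0
      linarith only [h7, h2]
    have h4 : (1 : ℝ) ≤ 272 * (RR m : ℝ) ^ 2 := by
      have h6 : (1 : ℝ) ≤ (RR m : ℝ) ^ 2 := one_le_pow₀ hR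
      linarith only [h6]
    calc |c j| * ‖iteratedFDeriv ℝ i (g j) x‖ ≤ 1 * (2 * Real.pi * j) ^ i :=
          mul_le_mul (hc j) (loc3_mode _ j (hg j) i x) (norm_nonneg _) zero_le_one
      _ ≤ 1 * (272 * (RR m : ℝ) ^ 2) ^ i := by
          rw [one_mul, one_mul]
          exact pow_le_pow_left₀ (by positivity) h3 i
      _ ≤ (272 * (RR m : ℝ) ^ 2) ^ k := by
          rw [one_mul]
          exact pow_le_pow_right₀ h4 hi
  refine (norm_sum_le_of_le _ h1).trans ?_
  rw [Finset.sum_const, nsmul_eq_mul]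
  have h5 : ((J m).card : ℝ) ≤ 34 * (RR m : ℝ) ^ 2 := by
    rw [← hN]
    exact_mod_cast hcard m
  calc _ ≤ 34 * (RR m : ℝ) ^ 2 * (272 * (RR m : ℝ) ^ 2) ^ k :=
        mul_le_mul_of_nonneg_right h5 (by positivity)
    _ = _ := by
        rw [mul_pow, ← pow_mul, pow_add]
        ring

theorem loc3_NN_mono (m : ℕ) : NN (m - 1) ≤ NN m := by
  unfold NN
  exact Nat.pow_le_pow_left (loc3_RR_mono (by omega)) 2

theorem loc3_NN_pos (m : ℕ) : 0 < NN m := by
  unfold NN RR
  positivity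

theorem loc3_one (k : ℕ → ℕ) (g : ℕ → ℝ → ℝ) (hg : ∀ j, g j = sn j ∨ g j = cs j)
    (hk : ∀ m, k m ≤ 34 * NN m) : Loc3PB (fun m s => g (k m) s) := by
  have h := loc3_trig (fun m => {k m}) (fun _ => 1) g hg (fun _ => by simp)
    (fun m j hj => by rw [Finset.mem_singleton.1 hj]; exact hk m)
    (fun m => by
      rw [Finset.card_singleton]
      have := loc3_NN_pos m
      omega)
  simpa using h

theorem loc3_prd {F G H : ℕ → ℝ → ℝ} (hF : Loc3PB F) (hG : Loc3PB G) (hH : Loc3PB H) :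
    Loc3PB (fun m => prd (F m) (G m) (H m)) := by
  have hL : ∀ l : Fin 3, ‖(ContinuousLinearMap.proj l : V →L[ℝ] ℝ)‖ ≤ 1 := fun l =>
    ContinuousLinearMap.opNorm_le_bound _ zero_le_one fun x => by
      rw [one_mul]
      exact norm_le_pi_norm x l
  have h0 : Loc3PB (fun m (x : V) => F m (x 0)) :=
    hF.comp (ContinuousLinearMap.proj 0 : V →L[ℝ] ℝ) (hL 0)
  have h1 : Loc3PB (fun m (x : V) => G m (x 1)) :=
    hG.comp (ContinuousLinearMap.proj 1 : V →L[ℝ] ℝ) (hL 1)
  have h2 : Loc3PB (fun m (x : V) => H m (x 2)) :=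
    hH.comp (ContinuousLinearMap.proj 2 : V →L[ℝ] ℝ) (hL 2)
  have h3 := (h0.mul h1).mul h2
  have e : (fun m => prd (F m) (G m) (H m)) = fun m (x : V) => F m (x 0) * G m (x 1) * H m (x 2) := by
    funext m x
    rfl
  rw [e]
  exact h3

theorem loc3_psi : Loc3PB psi := by
  refine loc3_prd (F := fun m => fF (NN m)) (G := fun m => fG (NN m)) (H := fun m => fH (NN m))
    ?_ ?_ ?_
  · have h := loc3_trig (fun m => Finset.Ico (NN m) (2 * NN m)) (fun _ => 1) sn (fun _ => Or.inl rfl)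
      (fun _ => by simp) (fun m j hj => by rw [Finset.mem_Ico] at hj; omega)
      (fun m => by rw [Nat.card_Ico]; omega)
    have e : (fun m s => ∑ j ∈ Finset.Ico (NN m) (2 * NN m), (1 : ℝ) * sn j s) =
        fun m => fF (NN m) := by
      funext m s
      unfold fF
      exact Finset.sum_congr rfl fun j _ => one_mul _
    rw [e] at h
    exact h
  · have h := loc3_trig (fun m => Finset.Ico (NN m) (2 * NN m)) (fun _ => 1) cs (fun _ => Or.inr rfl)
      (fun _ => by simp) (fun m j hj => by rw [Finset.mem_Ico] at hj; omega)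
      (fun m => by rw [Nat.card_Ico]; omega)
    have e : (fun m s => ∑ j ∈ Finset.Ico (NN m) (2 * NN m), (1 : ℝ) * cs j s) =
        fun m => fG (NN m) := by
      funext m s
      unfold fG
      exact Finset.sum_congr rfl fun j _ => one_mul _
    rw [e] at h
    exact h
  · have h := loc3_trig (fun m => Finset.Ico (16 * NN m) (17 * NN m)) (fun j => (2 * Real.pi * j)⁻¹)
      sn (fun _ => Or.inl rfl) (fun j => ?_) (fun m j hj => by rw [Finset.mem_Ico] at hj; omega)
      (fun m => by rw [Nat.card_Ico]; omega)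
    · have e : (fun m s => ∑ j ∈ Finset.Ico (16 * NN m) (17 * NN m), (2 * Real.pi * (j : ℝ))⁻¹ * sn j s)
          = fun m => fH (NN m) := by
        funext m s
        unfold fH
        exact Finset.sum_congr rfl fun j _ => by rw [div_eq_inv_mul]
      rw [e] at h
      exact h
    · rw [abs_of_nonneg (by positivity)]
      rcases Nat.eq_zero_or_pos j with rfl | hj
      · simp
      · have h1 : (1 : ℝ) ≤ j := by exact_mod_cast hj
        apply inv_le_one_of_one_le₀
        have h2 := Real.pi_gt_three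
        have h3 : 2 * Real.pi ≤ 2 * Real.pi * (j : ℝ) :=
          le_mul_of_one_le_right (by linarith only [h2]) h1
        linarith only [h2, h3]

theorem loc3_chi : Loc3PB chi := by
  refine loc3_prd (F := fun m => sn (4 * NN (m - 1) - 3)) (G := fun m => cs (4 * NN (m - 1) - 2))
    (H := fun m => sn (2 * (17 * NN (m - 1) - 1))) ?_ ?_ ?_
  · exact loc3_one _ sn (fun _ => Or.inl rfl) fun m => by
      have := loc3_NN_mono m
      omega
  · exact loc3_one _ cs (fun _ => Or.inr rfl) fun m => by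
      have := loc3_NN_mono m
      omega
  · exact loc3_one _ sn (fun _ => Or.inl rfl) fun m => by
      have := loc3_NN_mono m
      omega

theorem loc3_th0 : Loc3PB th0 := by
  have hee : ∀ m, |ee' m| ≤ 1 * (RR m : ℝ) ^ 0 := by
    intro m
    rw [pow_zero, mul_one]
    unfold ee'
    split_ifs
    · simp
    · rw [abs_of_nonneg (Real.exp_pos _).le, Real.exp_le_one_iff, neg_nonpos]
      unfold bb
      positivity
  exact loc3_psi.add (loc3_chi.smul ee' 1 0 hee)

theorem loc3_phi (h : S_nm) (i : Fin 3) : Loc3PB (fun m x => phi m x i) := by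
  have hn : ∀ m, |(nm m)⁻¹| ≤ 3 * (RR m : ℝ) ^ 0 := by
    intro m
    obtain ⟨⟨h1, -⟩, h2⟩ := h m
    rw [pow_zero, mul_one, abs_of_pos (inv_pos.2 h2)]
    have h3 : (1 : ℝ) ≤ (NN m : ℝ) ^ 3 := by
      have : 1 ≤ NN m := loc3_NN_pos m
      exact one_le_pow₀ (by exact_mod_cast this)
    have h4 : 1 / 3 ≤ nm m := by
      by_contra h5
      have h6 : nm m ^ 2 < (1 / 3) ^ 2 := pow_lt_pow_left₀ (not_le.1 h5) h2.le two_ne_zero
      norm_num only at h6
      linarith only [h1, h3, h6]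
    rw [inv_le_comm₀ h2 (by norm_num)]
    linarith
  fin_cases i
  · have h1 := (loc3_th0.pd 2).smul (fun m => -(nm m)⁻¹) 3 0 (fun m => by rw [abs_neg]; exact hn m)
    exact h1
  · have h1 := loc3_th0.smul (fun _ => 0) 0 0 (fun m => by simp)
    have e : (fun (m : ℕ) (x : V) => phi m x ((fun i => i) ⟨1, by norm_num⟩)) =
        fun m x => (0 : ℝ) * th0 m x := by
      funext m x
      simp [phi, gp]
    rw [e]
    exact h1
  · have h1 := (loc3_th0.pd 0).smul (fun m => (nm m)⁻¹) 3 0 hn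
    have e : (fun (m : ℕ) (x : V) => phi m x ((fun i => i) ⟨2, by norm_num⟩)) =
        fun m x => (nm m)⁻¹ * pd 0 (th0 m) x := by
      funext m x
      simp [phi, gp]
    rw [e]
    exact h1

/-! ### Functions of the time -/

theorem loc3_rap_const {K : ℝ} {s : ℕ} {a : ℕ → ℝ → ℝ} (h : ∀ m t, (RR m : ℝ) ^ s * |a m t| ≤ K) :
    0 ≤ K :=
  (mul_nonneg (pow_nonneg (zero_le_one.trans (loc3_RR_one 0)) _) (abs_nonneg _)).trans (h 0 0)

theorem loc3_ext {τ : ℝ} (hτ : 0 < τ) : ∀ (n : ℕ) (a : ℕ → ℝ → ℝ), AT τ n a →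
    ∃ b : ℕ → ℝ → ℝ, (∀ m, ContDiff ℝ n (b m)) ∧ (∀ m, ∀ t ∈ Ico 0 τ, b m t = a m t) ∧
      ∀ k ≤ n, ∀ s : ℕ, ∃ K : ℝ, ∀ m t, |t| ≤ τ + 1 →
        (RR m : ℝ) ^ s * ‖iteratedFDeriv ℝ k (b m) t‖ ≤ K := by
  intro n
  induction n with
  | zero =>
    intro a h
    refine ⟨a, fun m => by rw [Nat.cast_zero, contDiff_zero]; exact h.2 m, fun _ _ _ => rfl,
      fun k hk s => ?_⟩
    obtain ⟨K, hK⟩ := h.1 s
    refine ⟨K, fun m t _ => ?_⟩
    rw [Nat.le_zero.1 hk, norm_iteratedFDeriv_zero, Real.norm_eq_abs]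
    exact hK m t
  | succ n ih =>
    intro a h
    obtain ⟨⟨h1, h2⟩, a', h3, h4⟩ := h
    have h4' : ∀ m, Continuous (a' m) := by
      cases n with
      | zero => exact h4.2
      | succ n => exact h4.1.2
    obtain ⟨b', hb1, hb2, hb3⟩ := ih a' h4
    have hbc : ∀ m, Continuous (b' m) := fun m => (hb1 m).continuous
    have hder : ∀ m t, HasDerivAt (fun t => a m 0 + ∫ r in (0 : ℝ)..t, b' m r) (b' m t) t := by
      intro m t
      exact (intervalIntegral.integral_hasDerivAt_right ((hbc m).intervalIntegrable _ _)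
        ((hbc m).stronglyMeasurableAtFilter _ _) (hbc m).continuousAt).const_add _
    have hd : ∀ m, deriv (fun t => a m 0 + ∫ r in (0 : ℝ)..t, b' m r) = b' m := fun m => by
      funext t
      exact (hder m t).deriv
    refine ⟨fun m t => a m 0 + ∫ r in (0 : ℝ)..t, b' m r, fun m => ?_, fun m t ht => ?_,
      fun k hk s => ?_⟩
    · rw [Nat.cast_succ, contDiff_succ_iff_deriv]
      refine ⟨fun t => (hder m t).differentiableAt, fun h => absurd h (by simp), ?_⟩
      rw [hd]
      exact hb1 m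
    · have e1 : (∫ r in (0 : ℝ)..t, b' m r) = ∫ r in (0 : ℝ)..t, a' m r := by
        refine intervalIntegral.integral_congr fun r hr => ?_
        rw [uIcc_of_le ht.1] at hr
        exact hb2 m r ⟨hr.1, hr.2.trans_lt ht.2⟩
      have e2 : (∫ r in (0 : ℝ)..t, a' m r) = a m t - a m 0 :=
        intervalIntegral.integral_eq_sub_of_hasDerivAt_of_le ht.1 (h2 m).continuousOn
          (fun r hr => h3 r ⟨hr.1, hr.2.trans ht.2⟩ m) ((h4' m).intervalIntegrable _ _)
      beta_reduce
      rw [e1, e2]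
      ring
    · cases k with
      | zero =>
        obtain ⟨K, hK⟩ := h1 s
        obtain ⟨K', hK'⟩ := hb3 0 (Nat.zero_le _) s
        refine ⟨K + (τ + 1) * K', fun m t ht => ?_⟩
        have hR : (0 : ℝ) ≤ (RR m : ℝ) ^ s := pow_nonneg (zero_le_one.trans (loc3_RR_one m)) _
        rw [norm_iteratedFDeriv_zero]
        have e3 : ‖∫ r in (0 : ℝ)..t, b' m r‖ * (RR m : ℝ) ^ s ≤ K' * |t| := by
          have e4 : (∫ r in (0 : ℝ)..t, b' m r) * (RR m : ℝ) ^ s =
              ∫ r in (0 : ℝ)..t, b' m r * (RR m : ℝ) ^ s :=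
            (intervalIntegral.integral_mul_const _ _).symm
          rw [← Real.norm_of_nonneg hR, ← norm_mul, e4]
          have h5 := intervalIntegral.norm_integral_le_of_norm_le_const (a := 0) (b := t)
            (f := fun r => b' m r * (RR m : ℝ) ^ s) (C := K') fun r hr => ?_
          · rw [sub_zero] at h5
            exact h5
          · have h6 : |r| ≤ τ + 1 := by
              rw [uIoc, mem_Ioc] at hr
              refine le_trans ?_ ht
              rcases le_total 0 t with h | h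
              · rw [min_eq_left h, max_eq_right h] at hr
                rw [abs_of_pos hr.1, abs_of_nonneg h]
                exact hr.2
              · rw [min_eq_right h, max_eq_left h] at hr
                rw [abs_of_nonpos hr.2, abs_of_nonpos h]
                linarith [hr.1]
            have h7 := hK' m r h6
            rw [norm_iteratedFDeriv_zero] at h7
            rw [norm_mul, Real.norm_of_nonneg hR, mul_comm]
            exact h7
        have h8 : 0 ≤ K' := by
          have := hK' 0 0 (by rw [abs_zero]; linarith)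
          exact (mul_nonneg (pow_nonneg (zero_le_one.trans (loc3_RR_one 0)) _)
            (norm_nonneg _)).trans this
        calc (RR m : ℝ) ^ s * ‖a m 0 + ∫ r in (0 : ℝ)..t, b' m r‖
            ≤ (RR m : ℝ) ^ s * (|a m 0| + ‖∫ r in (0 : ℝ)..t, b' m r‖) :=
              mul_le_mul_of_nonneg_left (norm_add_le _ _) hR
          _ = (RR m : ℝ) ^ s * |a m 0| + ‖∫ r in (0 : ℝ)..t, b' m r‖ * (RR m : ℝ) ^ s := by ring
          _ ≤ K + K' * |t| := add_le_add (hK m 0) e3
          _ ≤ K + (τ + 1) * K' := by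
              rw [mul_comm (τ + 1)]
              exact add_le_add le_rfl (mul_le_mul_of_nonneg_left ht h8)
      | succ k =>
        obtain ⟨K, hK⟩ := hb3 k (by omega) s
        refine ⟨K, fun m t ht => ?_⟩
        rw [norm_iteratedFDeriv_eq_norm_iteratedDeriv, iteratedDeriv_succ', hd]
        rw [← norm_iteratedFDeriv_eq_norm_iteratedDeriv]
        exact hK m t ht

/-- smooth families of functions of the time with rapidly decreasing derivatives -/
def Loc3TF (n : ℕ) (g : ℕ → ℝ → ℝ) : Prop :=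
  (∀ m, ContDiff ℝ n (g m)) ∧ ∀ s : ℕ, ∃ K : ℝ, 0 ≤ K ∧ ∀ k ≤ n, ∀ m t,
    (RR m : ℝ) ^ s * ‖iteratedFDeriv ℝ k (g m) t‖ ≤ K

theorem loc3_cut {τ : ℝ} (hτ : 0 < τ) : ∃ χ : ℝ → ℝ, ContDiff ℝ ∞ χ ∧ (∀ t ∈ Ico 0 τ, χ t = 1) ∧
    (∀ k, ∃ C : ℝ, 0 ≤ C ∧ ∀ t, ‖iteratedFDeriv ℝ k χ t‖ ≤ C) ∧
    ∀ k t, τ + 1 < |t| → iteratedFDeriv ℝ k χ t = 0 := by
  let χ : ContDiffBump (τ / 2) := ⟨τ / 2, τ / 2 + 1, by positivity, by linarith⟩
  have hcs : HasCompactSupport (χ : ℝ → ℝ) := χ.hasCompactSupport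
  refine ⟨χ, χ.contDiff, fun t ht => ?_, fun k => ?_, fun k t ht => ?_⟩
  · refine χ.one_of_mem_closedBall ?_
    rw [Metric.mem_closedBall, Real.dist_eq, abs_le]
    have h1 := ht.1
    have h2 := ht.2
    change -(τ / 2) ≤ t - τ / 2 ∧ t - τ / 2 ≤ τ / 2
    constructor <;> linarith
  · have h1 : Continuous (iteratedFDeriv ℝ k (χ : ℝ → ℝ)) :=
      (χ.contDiff (n := ⊤)).continuous_iteratedFDeriv (by exact_mod_cast le_top)
    obtain ⟨C, hC⟩ := h1.bounded_above_of_compact_support (hcs.iteratedFDeriv k)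
    exact ⟨C, (norm_nonneg _).trans (hC 0), hC⟩
  · have h1 : tsupport (iteratedFDeriv ℝ k (χ : ℝ → ℝ)) ⊆ tsupport (χ : ℝ → ℝ) :=
      tsupport_iteratedFDeriv_subset k
    rw [χ.tsupport_eq] at h1
    by_contra hne
    have h2 := h1 (subset_tsupport _ hne)
    rw [Metric.mem_closedBall, Real.dist_eq, abs_le] at h2
    have h3 : -(τ / 2 + 1) ≤ t - τ / 2 ∧ t - τ / 2 ≤ τ / 2 + 1 := h2
    have h4 : |t| ≤ τ + 1 := by
      rw [abs_le]
      constructor <;> linarith
    linarith

theorem loc3_TF {τ : ℝ} (hτ : 0 < τ) (n : ℕ) (a : ℕ → ℝ → ℝ) (ha : AT τ n a) :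
    ∃ g : ℕ → ℝ → ℝ, Loc3TF n g ∧ ∀ m, ∀ t ∈ Ico 0 τ, g m t = a m t := by
  obtain ⟨b, hb1, hb2, hb3⟩ := loc3_ext hτ n a ha
  obtain ⟨χ, hχ1, hχ2, hχ3, hχ4⟩ := loc3_cut hτ
  refine ⟨fun m t => χ t * b m t, ⟨fun m => (loc3_cd hχ1 n).mul (hb1 m), fun s => ?_⟩,
    fun m t ht => by
      beta_reduce
      rw [hχ2 t ht, one_mul, hb2 m t ht]⟩
  choose C hC0 hC using hχ3
  choose! K hK using fun k (hk : k ≤ n) => hb3 k hk s
  have hK0 : ∀ k ≤ n, 0 ≤ K k := fun k hk =>
    (mul_nonneg (pow_nonneg (zero_le_one.trans (loc3_RR_one 0)) _) (norm_nonneg _)).trans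
      (hK k hk 0 0 (by rw [abs_zero]; linarith))
  set CC := ∑ i ∈ Finset.range (n + 1), C i with hCC
  set KK := ∑ i ∈ Finset.range (n + 1), K i with hKK
  have hC1 : ∀ i ≤ n, C i ≤ CC := fun i hi =>
    Finset.single_le_sum (f := C) (fun j _ => hC0 j) (Finset.mem_range.2 (by omega))
  have hK1 : ∀ i ≤ n, K i ≤ KK := fun i hi =>
    Finset.single_le_sum (f := K) (fun j hj => hK0 j (by rw [Finset.mem_range] at hj; omega))
      (Finset.mem_range.2 (by omega))
  have hCC0 : 0 ≤ CC := (hC0 0).trans (hC1 0 (Nat.zero_le _))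
  have hKK0 : 0 ≤ KK := (hK0 0 (Nat.zero_le _)).trans (hK1 0 (Nat.zero_le _))
  refine ⟨2 ^ n * (CC * KK), mul_nonneg (pow_nonneg zero_le_two n) (mul_nonneg hCC0 hKK0),
    fun k hk m t => ?_⟩
  have hR : (0 : ℝ) ≤ (RR m : ℝ) ^ s := pow_nonneg (zero_le_one.trans (loc3_RR_one m)) _
  have h1 := norm_iteratedFDeriv_mul_le (loc3_cd hχ1 n) (hb1 m) t (n := k) (by exact_mod_cast hk)
  have h2 : ∀ i ∈ Finset.range (k + 1), (RR m : ℝ) ^ s * ((k.choose i : ℝ) * ‖iteratedFDeriv ℝ i χ t‖ *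
      ‖iteratedFDeriv ℝ (k - i) (b m) t‖) ≤ (k.choose i : ℝ) * (CC * KK) := by
    intro i hi
    rw [Finset.mem_range] at hi
    by_cases ht : |t| ≤ τ + 1
    · have e : (RR m : ℝ) ^ s * ((k.choose i : ℝ) * ‖iteratedFDeriv ℝ i χ t‖ *
          ‖iteratedFDeriv ℝ (k - i) (b m) t‖) = (k.choose i : ℝ) * (‖iteratedFDeriv ℝ i χ t‖ *
          ((RR m : ℝ) ^ s * ‖iteratedFDeriv ℝ (k - i) (b m) t‖)) := by ring
      rw [e]
      refine mul_le_mul_of_nonneg_left ?_ (Nat.cast_nonneg _)
      exact mul_le_mul ((hC i t).trans (hC1 i (by omega)))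
        ((hK (k - i) (by omega) m t ht).trans (hK1 _ (by omega)))
        (mul_nonneg hR (norm_nonneg _)) hCC0
    · rw [hχ4 i t (not_le.1 ht), norm_zero, mul_zero, zero_mul, mul_zero]
      exact mul_nonneg (Nat.cast_nonneg _) (mul_nonneg hCC0 hKK0)
  calc (RR m : ℝ) ^ s * ‖iteratedFDeriv ℝ k (fun t => χ t * b m t) t‖
      ≤ (RR m : ℝ) ^ s * ∑ i ∈ Finset.range (k + 1), (k.choose i : ℝ) * ‖iteratedFDeriv ℝ i χ t‖ *
        ‖iteratedFDeriv ℝ (k - i) (b m) t‖ := mul_le_mul_of_nonneg_left h1 hR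
    _ = ∑ i ∈ Finset.range (k + 1), (RR m : ℝ) ^ s * ((k.choose i : ℝ) * ‖iteratedFDeriv ℝ i χ t‖ *
        ‖iteratedFDeriv ℝ (k - i) (b m) t‖) := Finset.mul_sum _ _ _
    _ ≤ ∑ i ∈ Finset.range (k + 1), (k.choose i : ℝ) * (CC * KK) := Finset.sum_le_sum h2
    _ = 2 ^ k * (CC * KK) := by
        rw [← Finset.sum_mul]
        have h4 : ∑ i ∈ Finset.range (k + 1), (k.choose i : ℝ) = 2 ^ k := by
          exact_mod_cast Nat.sum_range_choose k
        rw [h4]
    _ ≤ 2 ^ n * (CC * KK) :=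
        mul_le_mul_of_nonneg_right (pow_le_pow_right₀ one_le_two hk) (mul_nonneg hCC0 hKK0)

/-! ### Series in space-time -/

theorem loc3_comp_norm {E E' : Type} [NormedAddCommGroup E] [NormedSpace ℝ E]
    [NormedAddCommGroup E'] [NormedSpace ℝ E'] {f : E → ℝ} {n : ℕ} (hf : ContDiff ℝ n f)
    (L : E' →L[ℝ] E) (hL : ‖L‖ ≤ 1) (i : ℕ) (hi : i ≤ n) (x : E') :
    ‖iteratedFDeriv ℝ i (fun y => f (L y)) x‖ ≤ ‖iteratedFDeriv ℝ i f (L x)‖ := by
  have e : iteratedFDeriv ℝ i (fun x => f (L x)) x =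
      (iteratedFDeriv ℝ i f (L x)).compContinuousLinearMap fun _ => L :=
    L.iteratedFDeriv_comp_right hf x (by exact_mod_cast hi)
  rw [e]
  refine (ContinuousMultilinearMap.norm_compContinuousLinearMap_le _ _).trans ?_
  rw [Finset.prod_const]
  exact mul_le_of_le_one_right (norm_nonneg _) (pow_le_one₀ (norm_nonneg _) hL)

theorem loc3_joint {n : ℕ} {g : ℕ → ℝ → ℝ} {f : ℕ → V → ℝ} (hg : Loc3TF n g) (hf : Loc3PB f) :
    ContDiff ℝ n (fun z : ℝ × V => ∑' m, g m z.1 * f m z.2) := by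
  obtain ⟨C, s, hC, h1⟩ := hf.2 n
  obtain ⟨K, hK, h2⟩ := hg.2 (s + 1)
  have hfst : ‖ContinuousLinearMap.fst ℝ ℝ V‖ ≤ 1 := ContinuousLinearMap.norm_fst_le ℝ ℝ V
  have hsnd : ‖ContinuousLinearMap.snd ℝ ℝ V‖ ≤ 1 := ContinuousLinearMap.norm_snd_le ℝ ℝ V
  have key : ContDiff ℝ ((n : ℕ∞) : ℕ∞ω) (fun z : ℝ × V => ∑' m, g m z.1 * f m z.2) := by
    refine contDiff_tsum (v := fun _ m => 2 ^ n * (K * C) / (RR m : ℝ)) (fun m => ?_)
      (fun k _ => loc3_summable _) (fun k m z hk => ?_)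
    · exact ((hg.1 m).comp contDiff_fst).mul ((loc3_cd (hf.1 m) n).comp contDiff_snd)
    · have hk' : k ≤ n := by exact_mod_cast hk
      have hR := loc3_RR_one m
      have hR0 : (0 : ℝ) < RR m := lt_of_lt_of_le one_pos hR
      have c1 : ContDiff ℝ n (fun z : ℝ × V => g m z.1) := (hg.1 m).comp contDiff_fst
      have c2 : ContDiff ℝ n (fun z : ℝ × V => f m z.2) := (loc3_cd (hf.1 m) n).comp contDiff_snd
      have h3 := norm_iteratedFDeriv_mul_le c1 c2 z (n := k) (by exact_mod_cast hk')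
      refine h3.trans ?_
      have h4 : ∀ i ∈ Finset.range (k + 1), (k.choose i : ℝ) *
          ‖iteratedFDeriv ℝ i (fun z : ℝ × V => g m z.1) z‖ *
          ‖iteratedFDeriv ℝ (k - i) (fun z : ℝ × V => f m z.2) z‖ ≤
          (k.choose i : ℝ) * ((K * C) / (RR m : ℝ)) := by
        intro i hi
        rw [Finset.mem_range] at hi
        rw [mul_assoc]
        refine mul_le_mul_of_nonneg_left ?_ (Nat.cast_nonneg _)
        have e1 := loc3_comp_norm (hg.1 m) (ContinuousLinearMap.fst ℝ ℝ V) hfst i (by omega) z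
        have e2 := loc3_comp_norm (loc3_cd (hf.1 m) n) (ContinuousLinearMap.snd ℝ ℝ V) hsnd (k - i)
          (by omega) z
        have e3 := h2 i (by omega) m z.1
        have e4 := h1 (k - i) (by omega) m z.2
        have e5 : ‖iteratedFDeriv ℝ i (g m) z.1‖ ≤ K / (RR m : ℝ) ^ (s + 1) := by
          rw [le_div_iff₀ (by positivity), mul_comm]
          exact e3
        calc _ ≤ (K / (RR m : ℝ) ^ (s + 1)) * (C * (RR m : ℝ) ^ s) :=
              mul_le_mul (e1.trans e5) (e2.trans e4) (norm_nonneg _) (by positivity)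
          _ = (K * C) / (RR m : ℝ) := loc3_alg K C hR0 s
      refine (Finset.sum_le_sum h4).trans ?_
      rw [← Finset.sum_mul]
      have h5 : ∑ i ∈ Finset.range (k + 1), (k.choose i : ℝ) = 2 ^ k := by
        exact_mod_cast Nat.sum_range_choose k
      rw [h5]
      calc (2 : ℝ) ^ k * (K * C / (RR m : ℝ)) ≤ 2 ^ n * (K * C / (RR m : ℝ)) :=
            mul_le_mul_of_nonneg_right (pow_le_pow_right₀ one_le_two hk') (by positivity)
        _ = 2 ^ n * (K * C) / (RR m : ℝ) := by ring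
  exact_mod_cast key

/-- rapidly decreasing sequences -/
def Loc3R (α : ℕ → ℝ) : Prop := ∀ s : ℕ, ∃ K : ℝ, ∀ m, (RR m : ℝ) ^ s * |α m| ≤ K

/-- series -/
noncomputable def loc3S (α : ℕ → ℝ) (f : ℕ → V → ℝ) (x : V) : ℝ := ∑' m, α m * f m x

theorem loc3_bd {α : ℕ → ℝ} {f : ℕ → V → ℝ} (hα : Loc3R α) (hf : Loc3PB f) (k : ℕ) :
    ∃ K : ℝ, 0 ≤ K ∧ ∀ j ≤ k, ∀ m x, ‖iteratedFDeriv ℝ j (fun x => α m * f m x) x‖ ≤
      K / (RR m : ℝ) := by
  obtain ⟨C, s, hC, h1⟩ := hf.2 k
  obtain ⟨K, h2⟩ := hα (s + 1)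
  have hK : 0 ≤ K := (mul_nonneg (pow_nonneg (zero_le_one.trans (loc3_RR_one 0)) _)
    (abs_nonneg _)).trans (h2 0)
  refine ⟨K * C, mul_nonneg hK hC, fun j hj m x => ?_⟩
  have hR0 : (0 : ℝ) < RR m := lt_of_lt_of_le one_pos (loc3_RR_one m)
  have e : iteratedFDeriv ℝ j (fun x => α m * f m x) x = α m • iteratedFDeriv ℝ j (f m) x :=
    iteratedFDeriv_const_smul_apply' (a := α m) (loc3_cd (hf.1 m) j).contDiffAt
  have e5 : |α m| ≤ K / (RR m : ℝ) ^ (s + 1) := by
    rw [le_div_iff₀ (by positivity), mul_comm]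
    exact h2 m
  rw [e, norm_smul, Real.norm_eq_abs]
  calc _ ≤ (K / (RR m : ℝ) ^ (s + 1)) * (C * (RR m : ℝ) ^ s) :=
        mul_le_mul e5 (h1 j hj m x) (norm_nonneg _) (by positivity)
    _ = (K * C) / (RR m : ℝ) := loc3_alg K C hR0 s

theorem loc3_bd0 {α : ℕ → ℝ} {f : ℕ → V → ℝ} (hα : Loc3R α) (hf : Loc3PB f) :
    ∃ K : ℝ, 0 ≤ K ∧ ∀ m x, |α m * f m x| ≤ K / (RR m : ℝ) := by
  obtain ⟨K, hK, h⟩ := loc3_bd hα hf 0
  refine ⟨K, hK, fun m x => ?_⟩
  have h1 := h 0 le_rfl m x
  rwa [norm_iteratedFDeriv_zero, Real.norm_eq_abs] at h1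

theorem loc3_sum {α : ℕ → ℝ} {f : ℕ → V → ℝ} (hα : Loc3R α) (hf : Loc3PB f) (x : V) :
    HasSum (fun m => α m * f m x) (loc3S α f x) := by
  obtain ⟨K, hK, h⟩ := loc3_bd0 hα hf
  exact (Summable.of_norm_bounded (loc3_summable K) fun m => h m x).hasSum

theorem loc3_cdS {α : ℕ → ℝ} {f : ℕ → V → ℝ} (hα : Loc3R α) (hf : Loc3PB f) :
    ContDiff ℝ ∞ (loc3S α f) := by
  rw [contDiff_infty]
  intro n
  obtain ⟨K, hK, h⟩ := loc3_bd hα hf n
  have key : ContDiff ℝ ((n : ℕ∞) : ℕ∞ω) (fun x => ∑' m, α m * f m x) := by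
    refine contDiff_tsum (v := fun _ m => K / (RR m : ℝ)) (fun m => ?_)
      (fun k _ => loc3_summable _) (fun k m x hk => h k (by exact_mod_cast hk) m x)
    exact contDiff_const.mul (loc3_cd (hf.1 m) n)
  exact_mod_cast key

theorem loc3_pdS {α : ℕ → ℝ} {f : ℕ → V → ℝ} (hα : Loc3R α) (hf : Loc3PB f) (j : Fin 3) :
    pd j (loc3S α f) = loc3S α (fun m => pd j (f m)) := by
  funext x
  obtain ⟨K, hK, h⟩ := loc3_bd hα hf 1
  have hd : ∀ m x, HasFDerivAt (fun y => α m * f m y) (α m • fderiv ℝ (f m) x) x := fun m x =>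
    (((hf.1 m).differentiable (by norm_cast)) x).hasFDerivAt.const_mul (α m)
  have hb : ∀ m x, ‖α m • fderiv ℝ (f m) x‖ ≤ K / (RR m : ℝ) := by
    intro m x
    have h1 := h 1 le_rfl m x
    rw [norm_iteratedFDeriv_one, (hd m x).fderiv] at h1
    exact h1
  have h2 := hasFDerivAt_tsum (x₀ := x) (loc3_summable K) hd hb (loc3_sum hα hf x).summable x
  have h3 : HasFDerivAt (loc3S α f) (∑' m, α m • fderiv ℝ (f m) x) x := h2
  have hs : Summable fun m => α m • fderiv ℝ (f m) x :=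
    Summable.of_norm_bounded (loc3_summable K) fun m => hb m x
  have h4 := (ContinuousLinearMap.apply ℝ ℝ (Pi.single j (1 : ℝ) : V)).map_tsum hs
  unfold pd
  rw [h3.fderiv]
  exact h4

theorem loc3_intS {α : ℕ → ℝ} {f : ℕ → V → ℝ} (hα : Loc3R α) (hf : Loc3PB f) {w : V → ℝ}
    (hw : Continuous w) : HasSum (fun m => α m * ∫ x in cube, f m x * w x)
      (∫ x in cube, loc3S α f x * w x) := by
  obtain ⟨K, hK, h⟩ := loc3_bd0 hα hf
  have hfc : ∀ m, Continuous (f m) := fun m => (hf.1 m).continuous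
  have h1 := hasSum_integral_of_summable_integral_norm (μ := volume.restrict cube)
    (F := fun m x => α m * f m x * w x)
    (fun m => integrableOn_cube ((continuous_const.mul (hfc m)).mul hw)) ?_
  · have e1 : (fun m => ∫ x in cube, α m * f m x * w x) =
        fun m => α m * ∫ x in cube, f m x * w x := by
      funext m
      rw [← integral_const_mul]
      congr 1
      funext x
      ring
    have e2 : (∫ x in cube, ∑' m, α m * f m x * w x) = ∫ x in cube, loc3S α f x * w x := by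
      congr 1
      funext x
      exact tsum_mul_right
    rw [e1, e2] at h1
    exact h1
  · refine Summable.of_norm_bounded ((loc3_summable K).mul_right (∫ x in cube, ‖w x‖)) fun m => ?_
    rw [Real.norm_of_nonneg (integral_nonneg fun x => norm_nonneg _), ← integral_const_mul]
    refine integral_mono (integrableOn_cube ((continuous_const.mul (hfc m)).mul hw).norm)
      (integrableOn_cube (continuous_const.mul hw.norm)) fun x => ?_
    beta_reduce
    rw [norm_mul]
    exact mul_le_mul_of_nonneg_right (h m x) (norm_nonneg _)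

theorem loc3_tail {α : ℕ → ℝ} {f : ℕ → V → ℝ} (hα : Loc3R α) (hf : Loc3PB f) {δ : ℝ}
    (hδ : 0 < δ) : ∀ᶠ L in atTop, ∀ x, |loc3S α f x - ∑ m ∈ Finset.range L, α m * f m x| ≤ δ := by
  obtain ⟨K, hK, h⟩ := loc3_bd0 hα hf
  have h1 := tendsto_sum_nat_add (fun m => K / (RR m : ℝ))
  have h2 := h1.eventually_lt_const hδ
  filter_upwards [h2] with L hL x
  have h3 := (loc3_sum hα hf x).summable.sum_add_tsum_nat_add L
  have h4 : loc3S α f x - ∑ m ∈ Finset.range L, α m * f m x = ∑' i, α (i + L) * f (i + L) x := by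
    unfold loc3S
    rw [← h3]
    ring
  rw [h4]
  have hs : Summable fun i => K / (RR (i + L) : ℝ) :=
    (summable_nat_add_iff (f := fun m : ℕ => K / (RR m : ℝ)) L).2 (loc3_summable K)
  rw [← Real.norm_eq_abs]
  refine (tsum_of_norm_bounded hs.hasSum fun i => ?_).trans hL.le
  rw [Real.norm_eq_abs]
  exact h (i + L) x

theorem loc3_dt {τ : ℝ} {a a' : ℕ → ℝ → ℝ} {f : ℕ → V → ℝ} (hf : Loc3PB f) (ha : Rap a)
    (ha' : Rap a') (hd : ∀ t ∈ Ioo 0 τ, ∀ m, HasDerivAt (a m) (a' m t) t) {t : ℝ}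
    (ht : t ∈ Ioo 0 τ) (x : V) :
    HasDerivAt (fun s => loc3S (fun m => a m s) f x) (loc3S (fun m => a' m t) f x) t := by
  obtain ⟨C, s, hC, h1⟩ := hf.2 0
  obtain ⟨K, h2⟩ := ha' (s + 1)
  have hK : 0 ≤ K := loc3_rap_const h2
  have hα : Loc3R (fun m => a m t) := fun s => by
    obtain ⟨K, hK⟩ := ha s
    exact ⟨K, fun m => hK m t⟩
  refine hasDerivAt_tsum_of_isPreconnected (u := fun m => (K * C) / (RR m : ℝ)) (t := Ioo 0 τ)
    (g := fun m s => a m s * f m x) (g' := fun m s => a' m s * f m x) (y₀ := t)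
    (loc3_summable _) isOpen_Ioo isPreconnected_Ioo (fun m y hy => (hd y hy m).mul_const _)
    (fun m y hy => ?_) ht (loc3_sum hα hf x).summable ht
  have hR0 : (0 : ℝ) < RR m := lt_of_lt_of_le one_pos (loc3_RR_one m)
  have e4 := h1 0 le_rfl m x
  rw [norm_iteratedFDeriv_zero] at e4
  have e5 : |a' m y| ≤ K / (RR m : ℝ) ^ (s + 1) := by
    rw [le_div_iff₀ (by positivity), mul_comm]
    exact h2 m y
  rw [norm_mul, Real.norm_eq_abs]
  calc _ ≤ (K / (RR m : ℝ) ^ (s + 1)) * (C * (RR m : ℝ) ^ s) :=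
        mul_le_mul e5 e4 (norm_nonneg _) (by positivity)
    _ = (K * C) / (RR m : ℝ) := loc3_alg K C hR0 s

/-! ### The equation -/

/-- components of the basis fields -/
noncomputable def loc3P (i : Fin 3) (m : ℕ) (x : V) : ℝ := phi m x i

section eqn

variable (h : S_nm) (hb : S_basis) {α β : ℕ → ℝ} (hα : Loc3R α) (hβ : Loc3R β) (m : ℕ)

include hb in
theorem loc3_sp (i : Fin 3) (m : ℕ) : SP (loc3P i m) := Basis.sp hb m i

include h in
theorem loc3_pb (i : Fin 3) : Loc3PB (loc3P i) := loc3_phi h i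

include h hb hβ in
theorem loc3_ip : ∑ i, ∫ x in cube, loc3S β (loc3P i) x * loc3P i m x = β m := by
  have H : ∀ i : Fin 3, HasSum (fun l => β l * ∫ x in cube, loc3P i l x * loc3P i m x)
      (∫ x in cube, loc3S β (loc3P i) x * loc3P i m x) := fun i =>
    loc3_intS hβ (loc3_pb h i) (loc3_sp hb i m).cont
  have H1 := hasSum_sum (s := Finset.univ) fun i _ => H i
  have e : (fun l => ∑ i : Fin 3, β l * ∫ x in cube, loc3P i l x * loc3P i m x) =
      fun l => if l = m then β m else 0 := by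
    funext l
    rw [← Finset.mul_sum]
    have e1 : ∑ i : Fin 3, ∫ x in cube, loc3P i l x * loc3P i m x = ip (phi l) (phi m) := rfl
    rw [e1, Basis.on hb l m]
    split_ifs with h1
    · rw [h1, mul_one]
    · rw [mul_zero]
  rw [e] at H1
  exact H1.unique (hasSum_ite_eq m (β m))

include h hb hα in
theorem loc3_gip : ∑ i, ∑ j, ∫ x in cube, pd j (pd j (loc3S α (loc3P i))) x * loc3P i m x =
    -(α m * gg m) := by
  have H : ∀ i j : Fin 3, HasSum (fun l => α l * -∫ x in cube, pd j (loc3P i l) x * pd j (loc3P i m) x)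
      (∫ x in cube, pd j (pd j (loc3S α (loc3P i))) x * loc3P i m x) := fun i j => by
    have h1 := loc3_intS hα (((loc3_pb h i).pd j).pd j) (loc3_sp hb i m).cont
    rw [loc3_pdS hα (loc3_pb h i) j, loc3_pdS hα ((loc3_pb h i).pd j) j]
    have e : (fun l => α l * -∫ x in cube, pd j (loc3P i l) x * pd j (loc3P i m) x) =
        fun l => α l * ∫ x in cube, pd j (pd j (loc3P i l)) x * loc3P i m x := by
      funext l
      rw [ibp ((loc3_sp hb i l).pd j) (loc3_sp hb i m) j]
    rw [e]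
    exact h1
  have H1 := hasSum_sum (s := Finset.univ) fun i _ => hasSum_sum (s := Finset.univ) fun j _ => H i j
  have e : (fun l => ∑ i : Fin 3, ∑ j : Fin 3, α l * -∫ x in cube, pd j (loc3P i l) x *
      pd j (loc3P i m) x) = fun l => if l = m then -(α m * gg m) else 0 := by
    funext l
    have e1 : ∑ i : Fin 3, ∑ j : Fin 3, α l * -∫ x in cube, pd j (loc3P i l) x *
        pd j (loc3P i m) x = -(α l * gip (phi l) (phi m)) := by
      unfold gip
      simp_rw [mul_neg, Finset.sum_neg_distrib, ← Finset.mul_sum]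
      rfl
    rw [e1, Basis.gon hb l m]
    split_ifs with h1
    · rw [h1]
    · rw [mul_zero, neg_zero]
  rw [e] at H1
  exact H1.unique (hasSum_ite_eq m _)

/-- the coupling terms -/
noncomputable def loc3X (α : ℕ → ℝ) (m : ℕ) : ℝ :=
  (∑' l, if m < l then cc m l * α l ^ 2 else 0) - α m * ∑ l ∈ Finset.range m, cc l m * α l +
    pp m * α m * α (m + 1) - (if m = 0 then 0 else pp (m - 1) * α (m - 1) ^ 2)

/-- the inner sums -/
noncomputable def loc3Q (α : ℕ → ℝ) (m k : ℕ) : ℝ :=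
  (if m < k then cc m k * α k else 0) - (if k = m then ∑ l ∈ Finset.range m, cc l m * α l else 0) +
    (if k = m then pp m * α (m + 1) else 0) - (if m = k + 1 then pp k * α k else 0)

include h hb hα in
theorem loc3_inner (k : ℕ) : ∑ i, ∑ j, ∫ x in cube, pd j (loc3S α (loc3P i)) x *
    (loc3P j k x * loc3P i m x) = loc3Q α m k := by
  have H : ∀ i j : Fin 3, HasSum (fun l => α l * ∫ x in cube, pd j (loc3P i l) x *
      (loc3P j k x * loc3P i m x))
      (∫ x in cube, pd j (loc3S α (loc3P i)) x * (loc3P j k x * loc3P i m x)) := fun i j => by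
    have h1 := loc3_intS hα ((loc3_pb h i).pd j)
      ((loc3_sp hb j k).cont.mul (loc3_sp hb i m).cont)
    rw [loc3_pdS hα (loc3_pb h i) j]
    exact h1
  have H1 := hasSum_sum (s := Finset.univ) fun i _ => hasSum_sum (s := Finset.univ) fun j _ => H i j
  have e : (fun l => ∑ i : Fin 3, ∑ j : Fin 3, α l * ∫ x in cube, pd j (loc3P i l) x *
      (loc3P j k x * loc3P i m x)) = fun l => α l * tri (phi k) (phi m) (phi l) := by
    funext l
    unfold tri
    rw [Finset.sum_comm, Finset.mul_sum]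
    refine Finset.sum_congr rfl fun j _ => ?_
    rw [Finset.mul_sum]
    refine Finset.sum_congr rfl fun i _ => ?_
    congr 1
    refine integral_congr_ae (Filter.Eventually.of_forall fun x => ?_)
    change pd j (loc3P i l) x * (phi k x j * phi m x i) = phi k x j * phi m x i * pd j (loc3P i l) x
    ring
  rw [e] at H1
  -- the four parts
  have p1 : HasSum (fun l => α l * (if m < l ∧ k = l then cc m l else 0))
      (if m < k then cc m k * α k else 0) := by
    have h1 := hasSum_single (f := fun l => α l * (if m < l ∧ k = l then cc m l else 0)) k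
      (fun l hl => by
        rw [if_neg (fun h => hl h.2.symm), mul_zero])
    have e1 : α k * (if m < k ∧ k = k then cc m k else 0) = if m < k then cc m k * α k else 0 := by
      by_cases h2 : m < k
      · rw [if_pos ⟨h2, rfl⟩, if_pos h2, mul_comm]
      · rw [if_neg (fun h => h2 h.1), if_neg h2, mul_zero]
    rw [← e1]
    exact h1
  have p2 : HasSum (fun l => α l * (if l < m ∧ k = m then cc l m else 0))
      (if k = m then ∑ l ∈ Finset.range m, cc l m * α l else 0) := by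
    have h1 : HasSum (fun l => α l * (if l < m ∧ k = m then cc l m else 0))
        (∑ l ∈ Finset.range m, α l * (if l < m ∧ k = m then cc l m else 0)) :=
      hasSum_sum_of_ne_finset_zero (fun l hl => by
        rw [if_neg (fun h => hl (Finset.mem_range.2 h.1)), mul_zero])
    have e1 : ∑ l ∈ Finset.range m, α l * (if l < m ∧ k = m then cc l m else 0) =
        if k = m then ∑ l ∈ Finset.range m, cc l m * α l else 0 := by
      by_cases h2 : k = m
      · rw [if_pos h2]
        refine Finset.sum_congr rfl fun l hl => ?_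
        rw [if_pos ⟨Finset.mem_range.1 hl, h2⟩, mul_comm]
      · rw [if_neg h2]
        refine Finset.sum_eq_zero fun l _ => ?_
        rw [if_neg (fun h => h2 h.2), mul_zero]
    rw [← e1]
    exact h1
  have p3 : HasSum (fun l => α l * (if k = m ∧ l = k + 1 then pp k else 0))
      (if k = m then pp m * α (m + 1) else 0) := by
    have h1 := hasSum_single (f := fun l => α l * (if k = m ∧ l = k + 1 then pp k else 0)) (k + 1)
      (fun l hl => by
        rw [if_neg (fun h => hl h.2), mul_zero])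
    have e1 : α (k + 1) * (if k = m ∧ k + 1 = k + 1 then pp k else 0) =
        if k = m then pp m * α (m + 1) else 0 := by
      by_cases h2 : k = m
      · rw [if_pos ⟨h2, rfl⟩, if_pos h2, h2, mul_comm]
      · rw [if_neg (fun h => h2 h.1), if_neg h2, mul_zero]
    rw [← e1]
    exact h1
  have p4 : HasSum (fun l => α l * (if k = l ∧ m = k + 1 then pp l else 0))
      (if m = k + 1 then pp k * α k else 0) := by
    have h1 := hasSum_single (f := fun l => α l * (if k = l ∧ m = k + 1 then pp l else 0)) k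
      (fun l hl => by
        rw [if_neg (fun h => hl h.1.symm), mul_zero])
    have e1 : α k * (if k = k ∧ m = k + 1 then pp k else 0) = if m = k + 1 then pp k * α k else 0 := by
      by_cases h2 : m = k + 1
      · rw [if_pos ⟨rfl, h2⟩, if_pos h2, mul_comm]
      · rw [if_neg (fun h => h2 h.2), if_neg h2, mul_zero]
    rw [← e1]
    exact h1
  have p5 := ((p1.sub p2).add p3).sub p4
  refine H1.unique ?_
  have e6 : (fun l => α l * tri (phi k) (phi m) (phi l)) = fun l =>
      α l * (if m < l ∧ k = l then cc m l else 0) - α l * (if l < m ∧ k = m then cc l m else 0) +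
      α l * (if k = m ∧ l = k + 1 then pp k else 0) - α l * (if k = l ∧ m = k + 1 then pp l else 0) := by
    funext l
    rw [Basis.tri_eq hb k m l]
    ring
  rw [e6]
  exact p5

include h hb hα in
theorem loc3_nl : ∑ i, ∑ j, ∫ x in cube, loc3S α (loc3P j) x *
    (pd j (loc3S α (loc3P i)) x * loc3P i m x) = loc3X α m := by
  have H : ∀ i j : Fin 3, HasSum (fun k => α k * ∫ x in cube, loc3P j k x *
      (pd j (loc3S α (loc3P i)) x * loc3P i m x))
      (∫ x in cube, loc3S α (loc3P j) x * (pd j (loc3S α (loc3P i)) x * loc3P i m x)) := fun i j => by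
    refine loc3_intS hα (loc3_pb h j) (Continuous.mul ?_ (loc3_sp hb i m).cont)
    rw [loc3_pdS hα (loc3_pb h i) j]
    exact (loc3_cdS hα ((loc3_pb h i).pd j)).continuous
  have H1 := hasSum_sum (s := Finset.univ) fun i _ => hasSum_sum (s := Finset.univ) fun j _ => H i j
  have e : (fun k => ∑ i : Fin 3, ∑ j : Fin 3, α k * ∫ x in cube, loc3P j k x *
      (pd j (loc3S α (loc3P i)) x * loc3P i m x)) = fun k => α k * loc3Q α m k := by
    funext k
    rw [← loc3_inner h hb hα m k, Finset.mul_sum]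
    refine Finset.sum_congr rfl fun i _ => ?_
    rw [Finset.mul_sum]
    refine Finset.sum_congr rfl fun j _ => ?_
    congr 1
    refine integral_congr_ae (Filter.Eventually.of_forall fun x => ?_)
    beta_reduce
    ring
  rw [e] at H1
  have q2 : HasSum (fun k => α k * (if k = m then ∑ l ∈ Finset.range m, cc l m * α l else 0))
      (α m * ∑ l ∈ Finset.range m, cc l m * α l) := by
    have h1 := hasSum_single (f := fun k => α k *
      (if k = m then ∑ l ∈ Finset.range m, cc l m * α l else 0)) m (fun l hl => by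
        rw [if_neg hl, mul_zero])
    beta_reduce at h1
    rw [if_pos rfl] at h1
    exact h1
  have q3 : HasSum (fun k => α k * (if k = m then pp m * α (m + 1) else 0))
      (pp m * α m * α (m + 1)) := by
    have h1 := hasSum_single (f := fun k => α k * (if k = m then pp m * α (m + 1) else 0)) m
      (fun l hl => by
        rw [if_neg hl, mul_zero])
    beta_reduce at h1
    rw [if_pos rfl] at h1
    have e3 : pp m * α m * α (m + 1) = α m * (pp m * α (m + 1)) := by ring
    rw [e3]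
    exact h1
  have q4 : HasSum (fun k => α k * (if m = k + 1 then pp k * α k else 0))
      (if m = 0 then 0 else pp (m - 1) * α (m - 1) ^ 2) := by
    by_cases hm : m = 0
    · rw [if_pos hm]
      have e4 : (fun k => α k * (if m = k + 1 then pp k * α k else 0)) = fun _ => 0 := by
        funext k
        rw [if_neg (by omega), mul_zero]
      rw [e4]
      exact hasSum_zero
    · rw [if_neg hm]
      have h1 := hasSum_single (f := fun k => α k * (if m = k + 1 then pp k * α k else 0)) (m - 1)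
        (fun l hl => by
          rw [if_neg (by omega), mul_zero])
      beta_reduce at h1
      rw [if_pos (by omega)] at h1
      have e4 : pp (m - 1) * α (m - 1) ^ 2 = α (m - 1) * (pp (m - 1) * α (m - 1)) := by ring
      rw [e4]
      exact h1
  have q1 := ((H1.add q2).sub q3).add q4
  have e5 : (fun k => α k * loc3Q α m k + α k * (if k = m then ∑ l ∈ Finset.range m, cc l m * α l else 0) -
      α k * (if k = m then pp m * α (m + 1) else 0) + α k * (if m = k + 1 then pp k * α k else 0)) =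
      fun k => if m < k then cc m k * α k ^ 2 else 0 := by
    funext k
    unfold loc3Q
    by_cases h2 : m < k
    · rw [if_pos h2, if_pos h2]
      ring
    · rw [if_neg h2, if_neg h2]
      ring
  rw [e5] at q1
  unfold loc3X
  rw [q1.tsum_eq]
  ring

/-- **The tested equation.** -/
theorem loc3_eqn (ν : ℝ) (hα : Loc3R α) (hβ : Loc3R β) (h : S_nm) (hb : S_basis) (m : ℕ) :
    ∑ i, ∫ x in cube, (loc3S β (loc3P i) x + ∑ j, loc3S α (loc3P j) x * pd j (loc3S α (loc3P i)) x
      - ν * ∑ j, pd j (pd j (loc3S α (loc3P i))) x) * loc3P i m x =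
    β m + loc3X α m + ν * (α m * gg m) := by
  have c0 : ∀ (γ : ℕ → ℝ) (hγ : Loc3R γ) (i : Fin 3), Continuous (loc3S γ (loc3P i)) :=
    fun γ hγ i => (loc3_cdS hγ (loc3_pb h i)).continuous
  have c1 : ∀ i j : Fin 3, Continuous (pd j (loc3S α (loc3P i))) := fun i j => by
    rw [loc3_pdS hα (loc3_pb h i) j]
    exact (loc3_cdS hα ((loc3_pb h i).pd j)).continuous
  have c2 : ∀ i j : Fin 3, Continuous (pd j (pd j (loc3S α (loc3P i)))) := fun i j => by
    rw [loc3_pdS hα (loc3_pb h i) j, loc3_pdS hα ((loc3_pb h i).pd j) j]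
    exact (loc3_cdS hα (((loc3_pb h i).pd j).pd j)).continuous
  have cP : ∀ i : Fin 3, Continuous (loc3P i m) := fun i => (loc3_sp hb i m).cont
  have e : ∀ i : Fin 3, (∫ x in cube, (loc3S β (loc3P i) x + ∑ j, loc3S α (loc3P j) x *
      pd j (loc3S α (loc3P i)) x - ν * ∑ j, pd j (pd j (loc3S α (loc3P i))) x) * loc3P i m x) =
      (∫ x in cube, loc3S β (loc3P i) x * loc3P i m x) +
      (∑ j, ∫ x in cube, loc3S α (loc3P j) x * (pd j (loc3S α (loc3P i)) x * loc3P i m x)) -
      ν * ∑ j, ∫ x in cube, pd j (pd j (loc3S α (loc3P i))) x * loc3P i m x := by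
    intro i
    have i1 : IntegrableOn (fun x => loc3S β (loc3P i) x * loc3P i m x) cube :=
      integrableOn_cube ((c0 β hβ i).mul (cP i))
    have i2 : ∀ j ∈ Finset.univ, IntegrableOn (fun x => loc3S α (loc3P j) x *
        (pd j (loc3S α (loc3P i)) x * loc3P i m x)) cube := fun j _ =>
      integrableOn_cube ((c0 α hα j).mul ((c1 i j).mul (cP i)))
    have i3 : ∀ j ∈ Finset.univ, IntegrableOn (fun x => pd j (pd j (loc3S α (loc3P i))) x *
        loc3P i m x) cube := fun j _ => integrableOn_cube ((c2 i j).mul (cP i))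
    have i4 : IntegrableOn (fun x => loc3S β (loc3P i) x * loc3P i m x +
        ∑ j, loc3S α (loc3P j) x * (pd j (loc3S α (loc3P i)) x * loc3P i m x)) cube :=
      i1.add (integrable_finsetSum _ i2)
    have i5 : IntegrableOn (fun x => ν * ∑ j, pd j (pd j (loc3S α (loc3P i))) x *
        loc3P i m x) cube := (integrable_finsetSum _ i3).const_mul ν
    rw [← integral_finsetSum _ i2, ← integral_finsetSum _ i3, ← integral_const_mul,
      ← integral_add i1 (integrable_finsetSum _ i2), ← integral_sub i4 i5]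
    refine integral_congr_ae (Filter.Eventually.of_forall fun x => ?_)
    beta_reduce
    simp only [Fin.sum_univ_three]
    ring
  rw [Finset.sum_congr rfl fun i _ => e i, Finset.sum_sub_distrib, Finset.sum_add_distrib,
    ← Finset.mul_sum, loc3_ip h hb hβ m, loc3_nl h hb hα m, loc3_gip h hb hα m]
  ring

end eqn

theorem s_loc3 (_ : S_prod) (_ : S_one) (_ : S_trig) (h : S_nm) (hb : S_basis) (_ : S_gg)
    (_ : S_ccu) (_ : S_pp) : S_loc3 := by
  intro ν τ a hν hτ hAT hode
  have hR : Rap a := (hAT 0).1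
  have hα : ∀ t, Loc3R (fun m => a m t) := fun t s => by
    obtain ⟨K, hK⟩ := hR s
    exact ⟨K, fun m => hK m t⟩
  obtain ⟨-, a', had, hR', hac'⟩ := hAT 1
  have hβ : ∀ t, Loc3R (fun m => a' m t) := fun t s => by
    obtain ⟨K, hK⟩ := hR' s
    exact ⟨K, fun m => hK m t⟩
  have hFF : ∀ t ∈ Ioo 0 τ, ∀ m, a' m t = FF cc pp (fun m => ν * gg m) a m t := fun t ht m =>
    (had t ht m).unique (hode t ht m)
  refine ⟨fun t x i => loc3S (fun m => a m t) (loc3P i) x, ⟨?_, ?_, ?_, ?_, ?_⟩,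
    fun t _ x i => loc3_sum (hα t) (loc3_pb h i) x⟩
  · rw [contDiffOn_pi]
    intro i
    rw [contDiffOn_infty]
    intro n
    obtain ⟨g, hg, hga⟩ := loc3_TF hτ n a (hAT n)
    refine (loc3_joint hg (loc3_pb h i)).contDiffOn.congr fun z hz => ?_
    refine tsum_congr fun m => ?_
    beta_reduce
    rw [hga m z.1 hz.1]
  · intro t _ j x
    funext i
    refine tsum_congr fun m => ?_
    rw [(loc3_sp hb i m).per j x]
  · intro t _ x
    have H : ∀ i : Fin 3, HasSum (fun m => a m t * pd i (loc3P i m) x)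
        (pd i (fun y => loc3S (fun m => a m t) (loc3P i) y) x) := fun i => by
      have h1 := loc3_sum (hα t) ((loc3_pb h i).pd i) x
      rw [← loc3_pdS (hα t) (loc3_pb h i) i] at h1
      exact h1
    have H1 := hasSum_sum (s := Finset.univ) fun i _ => H i
    have e : (fun m => ∑ i : Fin 3, a m t * pd i (loc3P i m) x) = fun _ => 0 := by
      funext m
      rw [← Finset.mul_sum]
      have h2 : ∑ i : Fin 3, pd i (loc3P i m) x = 0 := Basis.div hb m x
      rw [h2, mul_zero]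
    rw [e] at H1
    exact H1.unique hasSum_zero
  · intro t _ ε hε
    have h1 : ∀ᶠ L in atTop, ∀ i : Fin 3, ∀ x, |loc3S (fun m => a m t) (loc3P i) x -
        ∑ m ∈ Finset.range L, a m t * loc3P i m x| ≤ Real.sqrt (ε / 6) := by
      rw [eventually_all]
      intro i
      exact loc3_tail (hα t) (loc3_pb h i) (Real.sqrt_pos.2 (by positivity))
    obtain ⟨L, hL⟩ := h1.exists
    refine ⟨L, fun m => a m t, ?_⟩
    have h2 : ∀ i : Fin 3, ∫ x in cube, (loc3S (fun m => a m t) (loc3P i) x -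
        ∑ m ∈ Finset.range L, a m t * phi m x i) ^ 2 ≤ ε / 6 := by
      intro i
      have hc : Continuous fun x => (loc3S (fun m => a m t) (loc3P i) x -
          ∑ m ∈ Finset.range L, a m t * phi m x i) ^ 2 := by
        refine ((loc3_cdS (hα t) (loc3_pb h i)).continuous.sub
          (continuous_finsetSum _ fun m _ => continuous_const.mul ?_)).pow 2
        exact (loc3_sp hb i m).cont
      have h3 : ∫ x in cube, (loc3S (fun m => a m t) (loc3P i) x -
          ∑ m ∈ Finset.range L, a m t * phi m x i) ^ 2 ≤ ∫ x in cube, ε / 6 := by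
        refine setIntegral_mono (integrableOn_cube hc) (integrableOn_cube continuous_const) fun x => ?_
        have h4 := hL i x
        have h5 : (Real.sqrt (ε / 6)) ^ 2 = ε / 6 := Real.sq_sqrt (by positivity)
        beta_reduce
        rw [← h5, ← sq_abs]
        exact pow_le_pow_left₀ (abs_nonneg _) h4 2
      rw [setIntegral_const, smul_eq_mul] at h3
      have h6 : volume.real cube = 1 := by
        rw [Measure.real, volume_cube]
        rfl
      rw [h6, one_mul] at h3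
      exact h3
    calc _ ≤ ∑ i : Fin 3, ε / 6 := Finset.sum_le_sum fun i _ => h2 i
      _ < ε := by
        rw [Finset.sum_const, Finset.card_univ, Fintype.card_fin, nsmul_eq_mul]
        push_cast
        linarith
  · intro t ht m
    have e1 : ∀ (i : Fin 3) (x : V), deriv (fun s => loc3S (fun m => a m s) (loc3P i) x) t =
        loc3S (fun m => a' m t) (loc3P i) x := fun i x =>
      (loc3_dt (loc3_pb h i) hR hR' had ht x).deriv
    have h1 := loc3_eqn ν (hα t) (hβ t) h hb m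
    have e2 : ∀ i : Fin 3, (∫ x in cube, (deriv (fun s => loc3S (fun m => a m s) (loc3P i) x) t +
        ∑ j, loc3S (fun m => a m t) (loc3P j) x * pd j (fun y => loc3S (fun m => a m t) (loc3P i) y) x
        - ν * ∑ j, pd j (pd j (fun y => loc3S (fun m => a m t) (loc3P i) y)) x) * phi m x i) =
        ∫ x in cube, (loc3S (fun m => a' m t) (loc3P i) x +
        ∑ j, loc3S (fun m => a m t) (loc3P j) x * pd j (loc3S (fun m => a m t) (loc3P i)) x
        - ν * ∑ j, pd j (pd j (loc3S (fun m => a m t) (loc3P i))) x) * loc3P i m x := by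
      intro i
      refine integral_congr_ae (Filter.Eventually.of_forall fun x => ?_)
      beta_reduce
      rw [e1]
      rfl
    rw [Finset.sum_congr rfl fun i _ => e2 i, h1, hFF t ht m]
    unfold FF loc3X pm
    have e3 : ∑ l ∈ Finset.range m, cc l m * a l t = ∑ n ∈ Finset.range m, cc n m * a n t := rfl
    ring

end Pool.Agent.H226.GB

end
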