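import Pool.Agent.H226.GM.S

/-! ## Norm -/

section

/-!
The norms `nm m` and the dissipation coefficients `gg m`.
-/

open MeasureTheory Set Filter Topology
open scoped ContDiff
open H459R3.NS

namespace Pool.Agent.H226.GB

/-- the combination of two product functions -/
noncomputable def nm_W (e : ℝ) (F G H F' G' H' : ℝ → ℝ) (x : V) : ℝ :=
  prd F G H x + e * prd F' G' H' x

theorem nm_pd_add {A B : V → ℝ} (hA : SP A) (hB : SP B) (e : ℝ) (j : Fin 3) :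
    pd j (fun x => A x + e * B x) = fun x => pd j A x + e * pd j B x := by
  funext x
  unfold pd
  have h : HasFDerivAt (fun y => A y + e * B y) _ x :=
    (hA.diff x).hasFDerivAt.add ((hB.diff x).hasFDerivAt.const_mul e)
  rw [h.fderiv]
  simp

theorem nm_pd_mul {A : V → ℝ} (hA : SP A) (e : ℝ) (j : Fin 3) :
    pd j (fun x => e * A x) = fun x => e * pd j A x := by
  funext x
  unfold pd
  have h : HasFDerivAt (fun y => e * A y) _ x := (hA.diff x).hasFDerivAt.const_mul e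
  rw [h.fderiv]
  simp

theorem nm_pd_neg {A : V → ℝ} (hA : SP A) (j : Fin 3) :
    pd j (fun x => - A x) = fun x => - pd j A x := by
  funext x
  unfold pd
  have h : HasFDerivAt (fun y => - A y) _ x := (hA.diff x).hasFDerivAt.neg
  rw [h.fderiv]
  simp

theorem nm_pd_zero (j : Fin 3) : pd j (fun _ : V => (0 : ℝ)) = fun _ => 0 := by
  funext x
  unfold pd
  simp

theorem nm_int_sq {A B : V → ℝ} (hA : SP A) (hB : SP B) (e : ℝ)
    (h0 : ∫ x in cube, A x * B x = 0) :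
    ∫ x in cube, (A x + e * B x) * (A x + e * B x)
      = (∫ x in cube, A x * A x) + e ^ 2 * ∫ x in cube, B x * B x := by
  have e1 : ∀ x, (A x + e * B x) * (A x + e * B x)
      = (A x * A x + (2 * e) * (A x * B x)) + e ^ 2 * (B x * B x) := fun x => by ring
  simp_rw [e1]
  have i1 : IntegrableOn (fun x => A x * A x) cube := (hA.mul hA).int
  have i2 : IntegrableOn (fun x => (2 * e) * (A x * B x)) cube := (hA.mul hB).int.const_mul _
  have i3 : IntegrableOn (fun x => e ^ 2 * (B x * B x)) cube := (hB.mul hB).int.const_mul _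
  have i12 : IntegrableOn (fun x => A x * A x + (2 * e) * (A x * B x)) cube := i1.add i2
  rw [integral_add i12 i3, integral_add i1 i2, integral_const_mul, integral_const_mul, h0]
  ring

section W

variable {e : ℝ} {F G H F' G' H' : ℝ → ℝ}

theorem nm_sp (P : S_prod) (hF : P1 F) (hG : P1 G) (hH : P1 H) (hF' : P1 F') (hG' : P1 G')
    (hH' : P1 H') : SP (nm_W e F G H F' G' H') where
  smooth := (P.sp hF hG hH).smooth.add (contDiff_const.mul (P.sp hF' hG' hH').smooth)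
  per := fun i x => by
    show prd F G H (x + Pi.single i 1) + e * prd F' G' H' (x + Pi.single i 1)
      = prd F G H x + e * prd F' G' H' x
    rw [(P.sp hF hG hH).per, (P.sp hF' hG' hH').per]

theorem nm_W0 (P : S_prod) (hF : P1 F) (hG : P1 G) (hH : P1 H) (hF' : P1 F') (hG' : P1 G')
    (hH' : P1 H') : pd 0 (nm_W e F G H F' G' H') = nm_W e (deriv F) G H (deriv F') G' H' := by
  have h := nm_pd_add (P.sp hF hG hH) (P.sp hF' hG' hH') e 0
  rw [P.pd0 hF hG hH, P.pd0 hF' hG' hH'] at h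
  exact h

theorem nm_W1 (P : S_prod) (hF : P1 F) (hG : P1 G) (hH : P1 H) (hF' : P1 F') (hG' : P1 G')
    (hH' : P1 H') : pd 1 (nm_W e F G H F' G' H') = nm_W e F (deriv G) H F' (deriv G') H' := by
  have h := nm_pd_add (P.sp hF hG hH) (P.sp hF' hG' hH') e 1
  rw [P.pd1 hF hG hH, P.pd1 hF' hG' hH'] at h
  exact h

theorem nm_W2 (P : S_prod) (hF : P1 F) (hG : P1 G) (hH : P1 H) (hF' : P1 F') (hG' : P1 G')
    (hH' : P1 H') : pd 2 (nm_W e F G H F' G' H') = nm_W e F G (deriv H) F' G' (deriv H') := by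
  have h := nm_pd_add (P.sp hF hG hH) (P.sp hF' hG' hH') e 2
  rw [P.pd2 hF hG hH, P.pd2 hF' hG' hH'] at h
  exact h

/-- the product of the integrals of the squares -/
noncomputable def nm_I (F G H : ℝ → ℝ) : ℝ :=
  i1 (fun s => F s ^ 2) * i1 (fun s => G s ^ 2) * i1 (fun s => H s ^ 2)

theorem nm_prd_int (P : S_prod) (hF : P1 F) (hG : P1 G) (hH : P1 H) (hF' : P1 F') (hG' : P1 G')
    (hH' : P1 H') : ∫ x in cube, prd F G H x * prd F' G' H' x
      = i1 (fun s => F s * F' s) * i1 (fun s => G s * G' s) * i1 (fun s => H s * H' s) := by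
  rw [← P.int (P.mul hF hF') (P.mul hG hG') (P.mul hH hH')]
  refine integral_congr_ae (Eventually.of_forall fun x => ?_)
  simp only [prd]
  ring

theorem nm_prd_sq (P : S_prod) (hF : P1 F) (hG : P1 G) (hH : P1 H) :
    ∫ x in cube, prd F G H x * prd F G H x = nm_I F G H := by
  rw [nm_prd_int P hF hG hH hF hG hH]
  unfold nm_I
  simp only [pow_two]

theorem nm_Wsq (P : S_prod) (hF : P1 F) (hG : P1 G) (hH : P1 H) (hF' : P1 F') (hG' : P1 G')
    (hH' : P1 H') (h0 : i1 (fun s => H s * H' s) = 0) :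
    ∫ x in cube, nm_W e F G H F' G' H' x * nm_W e F G H F' G' H' x
      = nm_I F G H + e ^ 2 * nm_I F' G' H' := by
  have h1 := nm_int_sq (P.sp hF hG hH) (P.sp hF' hG' hH') e
    (by rw [nm_prd_int P hF hG hH hF' hG' hH', h0, mul_zero])
  rw [nm_prd_sq P hF hG hH, nm_prd_sq P hF' hG' hH'] at h1
  exact h1

theorem nm_ip (P : S_prod) (hF : P1 F) (hG : P1 G) (hH : P1 H) (hF' : P1 F') (hG' : P1 G')
    (hH' : P1 H') (h0 : i1 (fun s => H s * H' s) = 0)
    (h1 : i1 (fun s => deriv H s * deriv H' s) = 0) :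
    ip (gp (nm_W e F G H F' G' H')) (gp (nm_W e F G H F' G' H'))
      = (nm_I F G (deriv H) + nm_I (deriv F) G H)
        + e ^ 2 * (nm_I F' G' (deriv H') + nm_I (deriv F') G' H') := by
  unfold ip gp
  rw [Fin.sum_univ_three, nm_W0 P hF hG hH hF' hG' hH', nm_W2 P hF hG hH hF' hG' hH']
  have e0 : ∀ x : V, (![nm_W e F G (deriv H) F' G' (deriv H') x, 0,
      -nm_W e (deriv F) G H (deriv F') G' H' x] : V) 0 = nm_W e F G (deriv H) F' G' (deriv H') x :=
    fun x => rfl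
  have e1 : ∀ x : V, (![nm_W e F G (deriv H) F' G' (deriv H') x, 0,
      -nm_W e (deriv F) G H (deriv F') G' H' x] : V) 1 = 0 := fun x => rfl
  have e2 : ∀ x : V, (![nm_W e F G (deriv H) F' G' (deriv H') x, 0,
      -nm_W e (deriv F) G H (deriv F') G' H' x] : V) 2 = -nm_W e (deriv F) G H (deriv F') G' H' x :=
    fun x => rfl
  simp only [e0, e1, e2, neg_mul_neg, mul_zero, integral_zero]
  rw [nm_Wsq P hF hG (P.der hH) hF' hG' (P.der hH') h1,
    nm_Wsq P (P.der hF) hG hH (P.der hF') hG' hH' h0]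
  ring

theorem nm_gip (P : S_prod) (hF : P1 F) (hG : P1 G) (hH : P1 H) (hF' : P1 F') (hG' : P1 G')
    (hH' : P1 H') (h0 : i1 (fun s => H s * H' s) = 0)
    (h1 : i1 (fun s => deriv H s * deriv H' s) = 0)
    (h2 : i1 (fun s => deriv (deriv H) s * deriv (deriv H') s) = 0) (t : ℝ) :
    gip (fun x => t • gp (nm_W e F G H F' G' H') x) (fun x => t • gp (nm_W e F G H F' G' H') x)
      = t ^ 2 * ((nm_I (deriv F) G (deriv H) + nm_I (deriv (deriv F)) G H
          + nm_I F (deriv G) (deriv H) + nm_I (deriv F) (deriv G) H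
          + nm_I F G (deriv (deriv H)) + nm_I (deriv F) G (deriv H))
        + e ^ 2 * (nm_I (deriv F') G' (deriv H') + nm_I (deriv (deriv F')) G' H'
          + nm_I F' (deriv G') (deriv H') + nm_I (deriv F') (deriv G') H'
          + nm_I F' G' (deriv (deriv H')) + nm_I (deriv F') G' (deriv H'))) := by
  have s2 : SP (nm_W e F G (deriv H) F' G' (deriv H')) :=
    nm_sp P hF hG (P.der hH) hF' hG' (P.der hH')
  have s0 : SP (nm_W e (deriv F) G H (deriv F') G' H') :=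
    nm_sp P (P.der hF) hG hH (P.der hF') hG' hH'
  have e0 : ∀ j, pd j (fun y => (t • gp (nm_W e F G H F' G' H') y) 0)
      = fun x => t * pd j (nm_W e F G (deriv H) F' G' (deriv H')) x := by
    intro j
    have : (fun y => (t • gp (nm_W e F G H F' G' H') y) 0)
        = fun y => t * nm_W e F G (deriv H) F' G' (deriv H') y := by
      funext y
      show t * pd 2 (nm_W e F G H F' G' H') y = _
      rw [nm_W2 P hF hG hH hF' hG' hH']
    rw [this, nm_pd_mul s2]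
  have e1 : ∀ j, pd j (fun y => (t • gp (nm_W e F G H F' G' H') y) 1) = fun x => 0 := by
    intro j
    have : (fun y => (t • gp (nm_W e F G H F' G' H') y) 1) = fun y => (0 : ℝ) := by
      funext y
      show t * 0 = _
      rw [mul_zero]
    rw [this, nm_pd_zero]
  have e2 : ∀ j, pd j (fun y => (t • gp (nm_W e F G H F' G' H') y) 2)
      = fun x => (-t) * pd j (nm_W e (deriv F) G H (deriv F') G' H') x := by
    intro j
    have : (fun y => (t • gp (nm_W e F G H F' G' H') y) 2)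
        = fun y => (-t) * nm_W e (deriv F) G H (deriv F') G' H' y := by
      funext y
      show t * (-pd 0 (nm_W e F G H F' G' H') y) = _
      rw [nm_W0 P hF hG hH hF' hG' hH']
      ring
    rw [this, nm_pd_mul s0]
  have key : ∀ (c : ℝ) (f : V → ℝ), ∫ x in cube, (c * f x) * (c * f x)
      = c ^ 2 * ∫ x in cube, f x * f x := by
    intro c f
    rw [← integral_const_mul]
    refine integral_congr_ae (Eventually.of_forall fun x => ?_)
    simp only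
    ring
  unfold gip
  rw [Fin.sum_univ_three]
  simp only [e0, e1, e2, mul_zero, integral_zero, Finset.sum_const_zero, add_zero, key]
  rw [Fin.sum_univ_three, Fin.sum_univ_three,
    nm_W0 P hF hG (P.der hH) hF' hG' (P.der hH'), nm_W1 P hF hG (P.der hH) hF' hG' (P.der hH'),
    nm_W2 P hF hG (P.der hH) hF' hG' (P.der hH'),
    nm_W0 P (P.der hF) hG hH (P.der hF') hG' hH', nm_W1 P (P.der hF) hG hH (P.der hF') hG' hH',
    nm_W2 P (P.der hF) hG hH (P.der hF') hG' hH',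
    nm_Wsq P (P.der hF) hG (P.der hH) (P.der hF') hG' (P.der hH') h1,
    nm_Wsq P hF (P.der hG) (P.der hH) hF' (P.der hG') (P.der hH') h1,
    nm_Wsq P hF hG (P.der (P.der hH)) hF' hG' (P.der (P.der hH')) h2,
    nm_Wsq P (P.der (P.der hF)) hG hH (P.der (P.der hF')) hG' hH' h0,
    nm_Wsq P (P.der hF) (P.der hG) hH (P.der hF') (P.der hG') hH' h0]
  ring

end W

/-! ### One-dimensional bounds -/

theorem nm_i1_nn (f : ℝ → ℝ) : 0 ≤ i1 (fun s => f s ^ 2) := by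
  unfold i1
  exact intervalIntegral.integral_nonneg zero_le_one fun s _ => sq_nonneg _

theorem nm_i1_le {f : ℝ → ℝ} {C : ℝ} (h : ∀ s, |f s| ≤ C) : i1 (fun s => f s ^ 2) ≤ C ^ 2 := by
  unfold i1
  have h1 : ‖∫ s in (0 : ℝ)..1, f s ^ 2‖ ≤ C ^ 2 * |1 - 0| := by
    refine intervalIntegral.norm_integral_le_of_norm_le_const fun s _ => ?_
    rw [Real.norm_eq_abs, abs_pow]
    exact pow_le_pow_left₀ (abs_nonneg _) (h s) 2
  rw [sub_zero, abs_one, mul_one] at h1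
  exact (le_abs_self _).trans h1

theorem nm_d_sn (k : ℕ) : deriv (sn k) = fun s => 2 * Real.pi * k * cs k s := by
  funext s
  have h : HasDerivAt (sn k) (Real.cos (2 * Real.pi * k * s) * (2 * Real.pi * k)) s := by
    have h0 : HasDerivAt (fun s : ℝ => 2 * Real.pi * k * s) (2 * Real.pi * k) s := by
      simpa using (hasDerivAt_id s).const_mul (2 * Real.pi * k)
    exact h0.sin
  rw [h.deriv]
  unfold cs
  ring

theorem nm_d_cs (k : ℕ) : deriv (cs k) = fun s => -(2 * Real.pi * k) * sn k s := by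
  funext s
  have h : HasDerivAt (cs k) (-Real.sin (2 * Real.pi * k * s) * (2 * Real.pi * k)) s := by
    have h0 : HasDerivAt (fun s : ℝ => 2 * Real.pi * k * s) (2 * Real.pi * k) s := by
      simpa using (hasDerivAt_id s).const_mul (2 * Real.pi * k)
    exact h0.cos
  rw [h.deriv]
  unfold sn
  ring

theorem nm_dd_sn (k : ℕ) : deriv (deriv (sn k)) = fun s => -(2 * Real.pi * k) ^ 2 * sn k s := by
  rw [nm_d_sn]
  funext s
  have h : HasDerivAt (fun s => 2 * Real.pi * k * cs k s)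
      (2 * Real.pi * k * (-(2 * Real.pi * k) * sn k s)) s := by
    have h1 : HasDerivAt (cs k) (-(2 * Real.pi * k) * sn k s) s := by
      have h2 : DifferentiableAt ℝ (cs k) s := by
        unfold cs
        fun_prop
      have h3 := h2.hasDerivAt
      rw [nm_d_cs] at h3
      exact h3
    exact h1.const_mul _
  rw [h.deriv]
  ring

theorem nm_b_sn (k : ℕ) (s : ℝ) : |sn k s| ≤ 1 := Real.abs_sin_le_one _

theorem nm_b_cs (k : ℕ) (s : ℝ) : |cs k s| ≤ 1 := Real.abs_cos_le_one _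

theorem nm_b_dsn (k : ℕ) (s : ℝ) : |deriv (sn k) s| ≤ 2 * Real.pi * k := by
  rw [nm_d_sn]
  simp only
  rw [abs_mul, abs_of_nonneg (by positivity)]
  exact mul_le_of_le_one_right (by positivity) (nm_b_cs k s)

theorem nm_b_dcs (k : ℕ) (s : ℝ) : |deriv (cs k) s| ≤ 2 * Real.pi * k := by
  rw [nm_d_cs]
  simp only
  rw [abs_mul, abs_neg, abs_of_nonneg (by positivity)]
  exact mul_le_of_le_one_right (by positivity) (nm_b_sn k s)

theorem nm_b_ddsn (k : ℕ) (s : ℝ) : |deriv (deriv (sn k)) s| ≤ (2 * Real.pi * k) ^ 2 := by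
  rw [nm_dd_sn]
  simp only
  rw [abs_mul, abs_neg, abs_of_nonneg (by positivity)]
  exact mul_le_of_le_one_right (by positivity) (nm_b_sn k s)

theorem nm_I_nn (F G H : ℝ → ℝ) : 0 ≤ nm_I F G H :=
  mul_nonneg (mul_nonneg (nm_i1_nn F) (nm_i1_nn G)) (nm_i1_nn H)

theorem nm_I_le {F G H : ℝ → ℝ} {a b c : ℝ} (ha : i1 (fun s => F s ^ 2) ≤ a)
    (hb : i1 (fun s => G s ^ 2) ≤ b) (hc : i1 (fun s => H s ^ 2) ≤ c) :
    nm_I F G H ≤ a * b * c := by
  have h1 := nm_i1_nn F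
  have h2 := nm_i1_nn G
  have h3 := nm_i1_nn H
  unfold nm_I
  exact mul_le_mul (mul_le_mul ha hb h2 (h1.trans ha)) hc h3
    (mul_nonneg (h1.trans ha) (h2.trans hb))

/-- the pump part: all frequencies at most `n` -/
theorem nm_pump {a b c : ℕ} {L : ℝ} (ha : 2 * Real.pi * a ≤ L)
    (hb : 2 * Real.pi * b ≤ L) (hc : 2 * Real.pi * c ≤ L) :
    nm_I (sn a) (cs b) (deriv (sn c)) + nm_I (deriv (sn a)) (cs b) (sn c) ≤ 2 * L ^ 2 ∧
    nm_I (deriv (sn a)) (cs b) (deriv (sn c)) + nm_I (deriv (deriv (sn a))) (cs b) (sn c)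
      + nm_I (sn a) (deriv (cs b)) (deriv (sn c)) + nm_I (deriv (sn a)) (deriv (cs b)) (sn c)
      + nm_I (sn a) (cs b) (deriv (deriv (sn c)))
      + nm_I (deriv (sn a)) (cs b) (deriv (sn c)) ≤ 6 * L ^ 4 := by
  have s0 : ∀ k, i1 (fun s => sn k s ^ 2) ≤ 1 := fun k => by
    have := nm_i1_le (nm_b_sn k); rwa [one_pow] at this
  have c0 : ∀ k, i1 (fun s => cs k s ^ 2) ≤ 1 := fun k => by
    have := nm_i1_le (nm_b_cs k); rwa [one_pow] at this
  have s1 : ∀ k : ℕ, 2 * Real.pi * k ≤ L → i1 (fun s => deriv (sn k) s ^ 2) ≤ L ^ 2 := fun k hk =>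
    nm_i1_le fun s => (nm_b_dsn k s).trans hk
  have c1 : ∀ k : ℕ, 2 * Real.pi * k ≤ L → i1 (fun s => deriv (cs k) s ^ 2) ≤ L ^ 2 := fun k hk =>
    nm_i1_le fun s => (nm_b_dcs k s).trans hk
  have s2 : ∀ k : ℕ, 2 * Real.pi * k ≤ L → i1 (fun s => deriv (deriv (sn k)) s ^ 2) ≤ L ^ 4 :=
    fun k hk => by
      have h := nm_i1_le (C := L ^ 2) fun s => (nm_b_ddsn k s).trans
        (pow_le_pow_left₀ (by positivity) hk 2)
      rwa [← pow_mul] at h
  have t1 := nm_I_le (s0 a) (c0 b) (s1 c hc)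
  have t2 := nm_I_le (s1 a ha) (c0 b) (s0 c)
  have t3 := nm_I_le (s1 a ha) (c0 b) (s1 c hc)
  have t4 := nm_I_le (s2 a ha) (c0 b) (s0 c)
  have t5 := nm_I_le (s0 a) (c1 b hb) (s1 c hc)
  have t6 := nm_I_le (s1 a ha) (c1 b hb) (s0 c)
  have t7 := nm_I_le (s0 a) (c0 b) (s2 c hc)
  have e1 : L ^ 2 * L ^ 2 = L ^ 4 := by ring
  simp only [one_mul, mul_one, e1] at t1 t2 t3 t4 t5 t6 t7
  constructor <;> linarith

/-! ### The scales -/

theorem nm_NN1 (m : ℕ) : 1 ≤ NN m := by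
  unfold NN RR
  exact Nat.one_le_pow _ _ (Nat.one_le_pow _ _ (by norm_num))

theorem nm_NN2 (m : ℕ) (hm : m ≠ 0) : 2 ^ 38 * NN (m - 1) ≤ NN m := by
  obtain ⟨k, rfl⟩ := Nat.exists_eq_succ_of_ne_zero hm
  rw [Nat.succ_eq_add_one, Nat.add_sub_cancel]
  unfold NN RR
  rw [← pow_mul, ← pow_mul, ← pow_add]
  apply Nat.pow_le_pow_right (by norm_num)
  have h : (k + 1 + 2) ^ 3 = (k + 2) ^ 3 + (3 * k ^ 2 + 15 * k + 19) := by ring
  rw [h]
  omega

theorem nm_cross (G : S_trig) (m : ℕ) :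
    i1 (fun s => fH (NN m) s * sn (2 * (17 * NN (m - 1) - 1)) s) = 0 ∧
    i1 (fun s => deriv (fH (NN m)) s * deriv (sn (2 * (17 * NN (m - 1) - 1))) s) = 0 ∧
    i1 (fun s => deriv (deriv (fH (NN m))) s
      * deriv (deriv (sn (2 * (17 * NN (m - 1) - 1)))) s) = 0 := by
  have h1 := nm_NN1 m
  have h2 := nm_NN1 (m - 1)
  have hne : ∀ a ∈ {k | 16 * NN m ≤ k ∧ k ≤ 17 * NN m - 1},
      ∀ b ∈ ({2 * (17 * NN (m - 1) - 1)} : Set ℕ), a ≠ b := by
    rintro a ⟨ha1, ha2⟩ b hb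
    rw [Set.mem_singleton_iff] at hb
    by_cases hm : m = 0
    · have h3 : NN (m - 1) = NN m := by rw [hm]
      rw [h3] at hb
      omega
    · have h3 := nm_NN2 m hm
      omega
  have hs : Trig ({2 * (17 * NN (m - 1) - 1)} : Set ℕ) (sn (2 * (17 * NN (m - 1) - 1))) :=
    G.sn (Set.mem_singleton _)
  have hH := G.H (NN m)
  exact ⟨G.int2 hH hs hne, G.int2 (G.der hH) (G.der hs) hne,
    G.int2 (G.der (G.der hH)) (G.der (G.der hs)) hne⟩

theorem nm_ee (m : ℕ) : 0 ≤ ee' m ∧ ee' m ≤ 1 := by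
  unfold ee'
  split_ifs with h
  · exact ⟨le_rfl, zero_le_one⟩
  · refine ⟨(Real.exp_pos _).le, ?_⟩
    rw [Real.exp_le_one_iff, neg_nonpos]
    unfold bb
    positivity

/-- the main part -/
theorem nm_main (O : S_one) (N : ℕ) (hN : 1 ≤ N) :
    ((N : ℝ) ^ 3 / 8 ≤ nm_I (fF N) (fG N) (deriv (fH N)) + nm_I (deriv (fF N)) (fG N) (fH N) ∧
      nm_I (fF N) (fG N) (deriv (fH N)) + nm_I (deriv (fF N)) (fG N) (fH N)
        ≤ (N : ℝ) ^ 3 / 8 * (65 / 64)) ∧
    ((32 * Real.pi * N) ^ 2 * ((N : ℝ) ^ 3 / 8) ≤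
      nm_I (deriv (fF N)) (fG N) (deriv (fH N)) + nm_I (deriv (deriv (fF N))) (fG N) (fH N)
        + nm_I (fF N) (deriv (fG N)) (deriv (fH N)) + nm_I (deriv (fF N)) (deriv (fG N)) (fH N)
        + nm_I (fF N) (fG N) (deriv (deriv (fH N)))
        + nm_I (deriv (fF N)) (fG N) (deriv (fH N)) ∧
      nm_I (deriv (fF N)) (fG N) (deriv (fH N)) + nm_I (deriv (deriv (fF N))) (fG N) (fH N)
        + nm_I (fF N) (deriv (fG N)) (deriv (fH N)) + nm_I (deriv (fF N)) (deriv (fG N)) (fH N)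
        + nm_I (fF N) (fG N) (deriv (deriv (fH N)))
        + nm_I (deriv (fF N)) (fG N) (deriv (fH N))
        ≤ 1205 * Real.pi ^ 2 * (N : ℝ) ^ 2 * ((N : ℝ) ^ 3 / 8)) := by
  have hx : (1 : ℝ) ≤ N := by exact_mod_cast hN
  have hx0 : (0 : ℝ) < N := by linarith
  have hpi : 0 < Real.pi := Real.pi_pos
  have hF := O.nF N hN
  have hG := O.nG N hN
  have hdH := O.ndH N hN
  have hdF := O.ndF N hN
  have hdG := O.ndG N hN
  have hddF := O.nddF N hN
  have hH := O.nH N hN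
  obtain ⟨hddH1, hddH2⟩ := O.nddH N hN
  have m1 : nm_I (fF N) (fG N) (deriv (fH N)) = (N : ℝ) ^ 3 / 8 := by
    unfold nm_I
    rw [hF, hG, hdH]
    ring
  have u2 : nm_I (deriv (fF N)) (fG N) (fH N) ≤ (N : ℝ) ^ 3 / 8 / 64 := by
    refine (nm_I_le hdF hG.le hH).trans (le_of_eq ?_)
    field_simp
    ring
  have u3 : nm_I (deriv (fF N)) (fG N) (deriv (fH N)) ≤
      16 * Real.pi ^ 2 * (N : ℝ) ^ 2 * ((N : ℝ) ^ 3 / 8) := by
    refine (nm_I_le hdF hG.le hdH.le).trans (le_of_eq ?_)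
    ring
  have u4 : nm_I (deriv (deriv (fF N))) (fG N) (fH N) ≤
      (1 / 4) * Real.pi ^ 2 * (N : ℝ) ^ 2 * ((N : ℝ) ^ 3 / 8) := by
    refine (nm_I_le hddF hG.le hH).trans (le_of_eq ?_)
    field_simp
    ring
  have u5 : nm_I (fF N) (deriv (fG N)) (deriv (fH N)) ≤
      16 * Real.pi ^ 2 * (N : ℝ) ^ 2 * ((N : ℝ) ^ 3 / 8) := by
    refine (nm_I_le hF.le hdG hdH.le).trans (le_of_eq ?_)
    ring
  have u6 : nm_I (deriv (fF N)) (deriv (fG N)) (fH N) ≤
      (1 / 4) * Real.pi ^ 2 * (N : ℝ) ^ 2 * ((N : ℝ) ^ 3 / 8) := by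
    refine (nm_I_le hdF hdG hH).trans (le_of_eq ?_)
    field_simp
    ring
  have u7 : nm_I (fF N) (fG N) (deriv (deriv (fH N))) ≤
      1156 * Real.pi ^ 2 * (N : ℝ) ^ 2 * ((N : ℝ) ^ 3 / 8) := by
    refine (nm_I_le hF.le hG.le hddH2).trans (le_of_eq ?_)
    ring
  have l7 : (32 * Real.pi * N) ^ 2 * ((N : ℝ) ^ 3 / 8) ≤
      nm_I (fF N) (fG N) (deriv (deriv (fH N))) := by
    unfold nm_I
    rw [hF, hG]
    have h := mul_le_mul_of_nonneg_left hddH1 (show (0 : ℝ) ≤ (N : ℝ) / 2 * (N / 2) by positivity)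
    refine le_trans (le_of_eq ?_) h
    ring
  have n2 := nm_I_nn (deriv (fF N)) (fG N) (fH N)
  have n3 := nm_I_nn (deriv (fF N)) (fG N) (deriv (fH N))
  have n4 := nm_I_nn (deriv (deriv (fF N))) (fG N) (fH N)
  have n5 := nm_I_nn (fF N) (deriv (fG N)) (deriv (fH N))
  have n6 := nm_I_nn (deriv (fF N)) (deriv (fG N)) (fH N)
  have hp : 0 ≤ Real.pi ^ 2 * (N : ℝ) ^ 2 * ((N : ℝ) ^ 3 / 8) := by positivity
  refine ⟨⟨by linarith, by linarith⟩, by linarith, ?_⟩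
  have e : ∀ c : ℝ, c * Real.pi ^ 2 * (N : ℝ) ^ 2 * ((N : ℝ) ^ 3 / 8)
      = c * (Real.pi ^ 2 * (N : ℝ) ^ 2 * ((N : ℝ) ^ 3 / 8)) := fun c => by ring
  rw [e] at u3 u4 u5 u6 u7 ⊢
  linarith

/-- the pump part is small -/
theorem nm_small (m : ℕ) :
    ee' m ^ 2 * (nm_I (sn (4 * NN (m - 1) - 3)) (cs (4 * NN (m - 1) - 2))
        (deriv (sn (2 * (17 * NN (m - 1) - 1))))
      + nm_I (deriv (sn (4 * NN (m - 1) - 3))) (cs (4 * NN (m - 1) - 2))
        (sn (2 * (17 * NN (m - 1) - 1)))) ≤ (NN m : ℝ) ^ 2 / 16 ∧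
    ee' m ^ 2 * (nm_I (deriv (sn (4 * NN (m - 1) - 3))) (cs (4 * NN (m - 1) - 2))
        (deriv (sn (2 * (17 * NN (m - 1) - 1))))
      + nm_I (deriv (deriv (sn (4 * NN (m - 1) - 3)))) (cs (4 * NN (m - 1) - 2))
        (sn (2 * (17 * NN (m - 1) - 1)))
      + nm_I (sn (4 * NN (m - 1) - 3)) (deriv (cs (4 * NN (m - 1) - 2)))
        (deriv (sn (2 * (17 * NN (m - 1) - 1))))
      + nm_I (deriv (sn (4 * NN (m - 1) - 3))) (deriv (cs (4 * NN (m - 1) - 2)))
        (sn (2 * (17 * NN (m - 1) - 1)))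
      + nm_I (sn (4 * NN (m - 1) - 3)) (cs (4 * NN (m - 1) - 2))
        (deriv (deriv (sn (2 * (17 * NN (m - 1) - 1)))))
      + nm_I (deriv (sn (4 * NN (m - 1) - 3))) (cs (4 * NN (m - 1) - 2))
        (deriv (sn (2 * (17 * NN (m - 1) - 1))))) ≤ (NN m : ℝ) ^ 4 / 16 := by
  by_cases hm : m = 0
  · have h0 : ee' m = 0 := by unfold ee'; rw [if_pos hm]
    rw [h0]
    constructor
    · rw [zero_pow two_ne_zero, zero_mul]; positivity
    · rw [zero_pow two_ne_zero, zero_mul]; positivity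
  · have h1 := nm_NN1 (m - 1)
    have h2 := nm_NN2 m hm
    have hy : (1 : ℝ) ≤ NN (m - 1) := by exact_mod_cast h1
    have hxy : (2 : ℝ) ^ 38 * NN (m - 1) ≤ NN m := by exact_mod_cast h2
    have hpi : 0 < Real.pi := Real.pi_pos
    have hpi2 : Real.pi ^ 2 ≤ 10 :=
      (pow_le_pow_left₀ Real.pi_pos.le Real.pi_lt_d2.le 2).trans (by norm_num)
    obtain ⟨he0, he1⟩ := nm_ee m
    have he2 : ee' m ^ 2 ≤ 1 := pow_le_one₀ he0 he1
    set y : ℝ := ((NN (m - 1) : ℕ) : ℝ) with hydef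
    set x : ℝ := ((NN m : ℕ) : ℝ) with hxdef
    have hfr : ∀ k : ℕ, k ≤ 34 * NN (m - 1) → 2 * Real.pi * k ≤ 2 * Real.pi * (34 * y) := by
      intro k hk
      apply mul_le_mul_of_nonneg_left _ (by positivity)
      rw [hydef]
      exact_mod_cast hk
    obtain ⟨p1, p2⟩ := nm_pump (a := 4 * NN (m - 1) - 3) (b := 4 * NN (m - 1) - 2)
      (c := 2 * (17 * NN (m - 1) - 1)) (hfr _ (by omega)) (hfr _ (by omega)) (hfr _ (by omega))
    have hL2 : (2 * Real.pi * (34 * y)) ^ 2 ≤ 2 ^ 16 * y ^ 2 := by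
      have : (2 * Real.pi * (34 * y)) ^ 2 = 4624 * (Real.pi ^ 2 * y ^ 2) := by ring
      rw [this]
      linarith only [mul_le_mul_of_nonneg_right hpi2 (sq_nonneg y), sq_nonneg y]
    have hL4 : (2 * Real.pi * (34 * y)) ^ 4 ≤ 2 ^ 32 * y ^ 4 := by
      have h3 := pow_le_pow_left₀ (by positivity) hL2 2
      have e1 : ((2 * Real.pi * (34 * y)) ^ 2) ^ 2 = (2 * Real.pi * (34 * y)) ^ 4 := by ring
      have e2 : (2 ^ 16 * y ^ 2) ^ 2 = 2 ^ 32 * y ^ 4 := by ring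
      rwa [e1, e2] at h3
    have hy2 : (2 ^ 38 * y) ^ 2 ≤ x ^ 2 := pow_le_pow_left₀ (by positivity) hxy 2
    have hy4 : (2 ^ 38 * y) ^ 4 ≤ x ^ 4 := pow_le_pow_left₀ (by positivity) hxy 4
    have q1 : 0 ≤ y ^ 2 := by positivity
    have q2 : 0 ≤ y ^ 4 := by positivity
    constructor
    · refine (mul_le_mul_of_nonneg_left p1 (by positivity)).trans ?_
      refine (mul_le_of_le_one_left (by positivity) he2).trans ?_
      have e1 : (2 ^ 38 * y) ^ 2 = 2 ^ 76 * y ^ 2 := by ring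
      rw [e1] at hy2
      linarith only [hy2, hL2, q1]
    · refine (mul_le_mul_of_nonneg_left p2 (by positivity)).trans ?_
      refine (mul_le_of_le_one_left (by positivity) he2).trans ?_
      have e1 : (2 ^ 38 * y) ^ 4 = 2 ^ 152 * y ^ 4 := by ring
      rw [e1] at hy4
      linarith only [hy4, hL4, q2]

theorem nm_th0 (m : ℕ) : th0 m = nm_W (ee' m) (fF (NN m)) (fG (NN m)) (fH (NN m))
    (sn (4 * NN (m - 1) - 3)) (cs (4 * NN (m - 1) - 2)) (sn (2 * (17 * NN (m - 1) - 1))) := rfl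

theorem s_nm (P : S_prod) (O : S_one) (G : S_trig) : S_nm := by
  intro m
  obtain ⟨c0, c1, c2⟩ := nm_cross G m
  have h := nm_ip (e := ee' m) P (O.p1_F (NN m)) (O.p1_G (NN m)) (O.p1_H (NN m))
    (O.p1_sn (4 * NN (m - 1) - 3)) (O.p1_cs (4 * NN (m - 1) - 2))
    (O.p1_sn (2 * (17 * NN (m - 1) - 1))) c0 c1
  rw [← nm_th0] at h
  obtain ⟨⟨a1, a2⟩, -⟩ := nm_main O (NN m) (nm_NN1 m)
  obtain ⟨b1, -⟩ := nm_small m
  have hx : (1 : ℝ) ≤ NN m := by exact_mod_cast nm_NN1 m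
  have n1 := nm_I_nn (sn (4 * NN (m - 1) - 3)) (cs (4 * NN (m - 1) - 2))
    (deriv (sn (2 * (17 * NN (m - 1) - 1))))
  have n2 := nm_I_nn (deriv (sn (4 * NN (m - 1) - 3))) (cs (4 * NN (m - 1) - 2))
    (sn (2 * (17 * NN (m - 1) - 1)))
  have n3 := mul_nonneg (sq_nonneg (ee' m)) (add_nonneg n1 n2)
  have hx3 : (0 : ℝ) < (NN m : ℝ) ^ 3 / 8 := by positivity
  have hx2 : (NN m : ℝ) ^ 2 ≤ (NN m : ℝ) ^ 3 := pow_le_pow_right₀ hx (by norm_num)
  have l1 : (NN m : ℝ) ^ 3 / 8 ≤ ip (gp (th0 m)) (gp (th0 m)) := by rw [h]; linarith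
  have l2 : ip (gp (th0 m)) (gp (th0 m)) ≤ (NN m : ℝ) ^ 3 / 4 := by rw [h]; linarith
  have hs : nm m ^ 2 = ip (gp (th0 m)) (gp (th0 m)) := by
    unfold nm
    exact Real.sq_sqrt (hx3.le.trans l1)
  rw [hs]
  refine ⟨⟨l1, l2⟩, ?_⟩
  unfold nm
  exact Real.sqrt_pos.2 (hx3.trans_le l1)

theorem s_gg (P : S_prod) (O : S_one) (G : S_trig) (h : S_nm) : S_gg := by
  intro m
  obtain ⟨⟨k1, k2⟩, k3⟩ := h m
  obtain ⟨c0, c1, c2⟩ := nm_cross G m
  have h := nm_gip (e := ee' m) P (O.p1_F (NN m)) (O.p1_G (NN m)) (O.p1_H (NN m))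
    (O.p1_sn (4 * NN (m - 1) - 3)) (O.p1_cs (4 * NN (m - 1) - 2))
    (O.p1_sn (2 * (17 * NN (m - 1) - 1))) c0 c1 c2 (-(nm m)⁻¹)
  rw [← nm_th0] at h
  obtain ⟨-, a1, a2⟩ := nm_main O (NN m) (nm_NN1 m)
  obtain ⟨-, b1⟩ := nm_small m
  have hx : (1 : ℝ) ≤ NN m := by exact_mod_cast nm_NN1 m
  have hx0 : (0 : ℝ) < NN m := by linarith
  have hR : (RR m : ℝ) ^ 4 = (NN m : ℝ) ^ 2 := by
    unfold NN
    push_cast
    ring
  rw [hR]
  have hg : gg m = gip (fun x => (-(nm m)⁻¹) • gp (th0 m) x)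
      (fun x => (-(nm m)⁻¹) • gp (th0 m) x) := rfl
  rw [hg, h]
  set x : ℝ := ((NN m : ℕ) : ℝ) with hxd
  set A := nm_I (deriv (fF (NN m))) (fG (NN m)) (deriv (fH (NN m)))
      + nm_I (deriv (deriv (fF (NN m)))) (fG (NN m)) (fH (NN m))
      + nm_I (fF (NN m)) (deriv (fG (NN m))) (deriv (fH (NN m)))
      + nm_I (deriv (fF (NN m))) (deriv (fG (NN m))) (fH (NN m))
      + nm_I (fF (NN m)) (fG (NN m)) (deriv (deriv (fH (NN m))))
      + nm_I (deriv (fF (NN m))) (fG (NN m)) (deriv (fH (NN m))) with hA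
  have n0 : 0 ≤ ee' m ^ 2 * (nm_I (deriv (sn (4 * NN (m - 1) - 3))) (cs (4 * NN (m - 1) - 2))
        (deriv (sn (2 * (17 * NN (m - 1) - 1))))
      + nm_I (deriv (deriv (sn (4 * NN (m - 1) - 3)))) (cs (4 * NN (m - 1) - 2))
        (sn (2 * (17 * NN (m - 1) - 1)))
      + nm_I (sn (4 * NN (m - 1) - 3)) (deriv (cs (4 * NN (m - 1) - 2)))
        (deriv (sn (2 * (17 * NN (m - 1) - 1))))
      + nm_I (deriv (sn (4 * NN (m - 1) - 3))) (deriv (cs (4 * NN (m - 1) - 2)))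
        (sn (2 * (17 * NN (m - 1) - 1)))
      + nm_I (sn (4 * NN (m - 1) - 3)) (cs (4 * NN (m - 1) - 2))
        (deriv (deriv (sn (2 * (17 * NN (m - 1) - 1)))))
      + nm_I (deriv (sn (4 * NN (m - 1) - 3))) (cs (4 * NN (m - 1) - 2))
        (deriv (sn (2 * (17 * NN (m - 1) - 1))))) := by
    refine mul_nonneg (sq_nonneg _) ?_
    refine add_nonneg (add_nonneg (add_nonneg (add_nonneg (add_nonneg ?_ ?_) ?_) ?_) ?_) ?_ <;>
      exact nm_I_nn _ _ _
  set B := ee' m ^ 2 * (nm_I (deriv (sn (4 * NN (m - 1) - 3))) (cs (4 * NN (m - 1) - 2))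
        (deriv (sn (2 * (17 * NN (m - 1) - 1))))
      + nm_I (deriv (deriv (sn (4 * NN (m - 1) - 3)))) (cs (4 * NN (m - 1) - 2))
        (sn (2 * (17 * NN (m - 1) - 1)))
      + nm_I (sn (4 * NN (m - 1) - 3)) (deriv (cs (4 * NN (m - 1) - 2)))
        (deriv (sn (2 * (17 * NN (m - 1) - 1))))
      + nm_I (deriv (sn (4 * NN (m - 1) - 3))) (deriv (cs (4 * NN (m - 1) - 2)))
        (sn (2 * (17 * NN (m - 1) - 1)))
      + nm_I (sn (4 * NN (m - 1) - 3)) (cs (4 * NN (m - 1) - 2))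
        (deriv (deriv (sn (2 * (17 * NN (m - 1) - 1)))))
      + nm_I (deriv (sn (4 * NN (m - 1) - 3))) (cs (4 * NN (m - 1) - 2))
        (deriv (sn (2 * (17 * NN (m - 1) - 1))))) with hB
  have hpi1 : (9 : ℝ) ≤ Real.pi ^ 2 :=
    le_trans (by norm_num) (pow_le_pow_left₀ zero_le_three Real.pi_gt_three.le 2)
  have hpi2 : Real.pi ^ 2 ≤ 10 :=
      (pow_le_pow_left₀ Real.pi_pos.le Real.pi_lt_d2.le 2).trans (by norm_num)
  have hn2 : 0 < nm m ^ 2 := by positivity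
  have ht : (-(nm m)⁻¹) ^ 2 = (nm m ^ 2)⁻¹ := by rw [neg_sq, inv_pow]
  rw [ht, inv_mul_eq_div]
  have hx45 : x ^ 4 ≤ x ^ 5 := pow_le_pow_right₀ hx (by norm_num)
  have hx5 : 0 < x ^ 5 := by positivity
  constructor
  · rw [le_div_iff₀ hn2]
    have e1 : x ^ 2 * nm m ^ 2 ≤ x ^ 2 * (x ^ 3 / 4) :=
      mul_le_mul_of_nonneg_left k2 (by positivity)
    have e2 : (32 * Real.pi * x) ^ 2 * (x ^ 3 / 8) = 128 * (Real.pi ^ 2 * x ^ 5) := by ring
    rw [e2] at a1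
    have e3 : 9 * x ^ 5 ≤ Real.pi ^ 2 * x ^ 5 := mul_le_mul_of_nonneg_right hpi1 hx5.le
    have e4 : x ^ 2 * (x ^ 3 / 4) = x ^ 5 / 4 := by ring
    rw [e4] at e1
    linarith
  · rw [div_le_iff₀ hn2]
    have e1 : 2 ^ 14 * x ^ 2 * (x ^ 3 / 8) ≤ 2 ^ 14 * x ^ 2 * nm m ^ 2 :=
      mul_le_mul_of_nonneg_left k1 (by positivity)
    have e2 : 1205 * Real.pi ^ 2 * x ^ 2 * (x ^ 3 / 8) = (1205 / 8) * (Real.pi ^ 2 * x ^ 5) := by
      ring
    rw [e2] at a2
    have e3 : Real.pi ^ 2 * x ^ 5 ≤ 10 * x ^ 5 := mul_le_mul_of_nonneg_right hpi2 hx5.le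
    have e4 : 2 ^ 14 * x ^ 2 * (x ^ 3 / 8) = 2048 * x ^ 5 := by ring
    rw [e4] at e1
    linarith

end Pool.Agent.H226.GB

end
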