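import Pool.Agent.H226.GM.S

/-! ## Prod -/

section

/-!
Calculus of product functions.
-/

open MeasureTheory Set Filter Topology
open scoped ContDiff
open H459R3.NS

namespace Pool.Agent.H226.GB

namespace Prod_

variable {F G H : ℝ → ℝ}

theorem der (hF : P1 F) : P1 (deriv F) := by
  refine ⟨(contDiff_infty_iff_deriv.1 hF.smooth).2, fun s => ?_⟩
  have h : (fun x => F (x + 1)) = F := funext hF.per
  have h1 := deriv_comp_add_const F 1 s
  rw [h] at h1
  exact h1.symm

theorem mul (hF : P1 F) (hG : P1 G) : P1 (fun s => F s * G s) :=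
  ⟨hF.smooth.mul hG.smooth, fun s => by simp only [hF.per, hG.per]⟩

theorem per1 (hF : P1 F) (i j : Fin 3) (x : V) :
    F ((x + (Pi.single i (1 : ℝ) : V)) j) = F (x j) := by
  by_cases h : j = i
  · subst h
    rw [Pi.add_apply, Pi.single_eq_same, hF.per]
  · rw [Pi.add_apply, Pi.single_eq_of_ne h, add_zero]

theorem sp (hF : P1 F) (hG : P1 G) (hH : P1 H) : SP (prd F G H) := by
  refine ⟨?_, fun i x => ?_⟩
  · unfold prd
    have h : ∀ j : Fin 3, ContDiff ℝ ∞ (fun x : V => x j) := fun j => contDiff_apply ℝ ℝ j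
    exact ((hF.smooth.comp (h 0)).mul (hG.smooth.comp (h 1))).mul (hH.smooth.comp (h 2))
  · simp only [prd, per1 hF, per1 hG, per1 hH]

theorem hd (hF : P1 F) (j : Fin 3) (x : V) : HasFDerivAt (fun y : V => F (y j))
    (deriv F (x j) • (ContinuousLinearMap.proj j : V →L[ℝ] ℝ)) x := by
  have h1 : HasDerivAt F (deriv F (x j)) (x j) :=
    ((contDiff_infty_iff_deriv.1 hF.smooth).1 (x j)).hasDerivAt
  have h2 : HasFDerivAt (fun y : V => y j) (ContinuousLinearMap.proj j : V →L[ℝ] ℝ) x :=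
    (ContinuousLinearMap.proj j : V →L[ℝ] ℝ).hasFDerivAt
  exact h1.comp_hasFDerivAt x h2

theorem pdj (hF : P1 F) (hG : P1 G) (hH : P1 H) (j : Fin 3) (x : V) : pd j (prd F G H) x =
    (if j = 0 then deriv F (x 0) * G (x 1) * H (x 2) else 0) +
    (if j = 1 then F (x 0) * deriv G (x 1) * H (x 2) else 0) +
    (if j = 2 then F (x 0) * G (x 1) * deriv H (x 2) else 0) := by
  have h := ((hd hF 0 x).mul (hd hG 1 x)).mul (hd hH 2 x)
  have h1 : fderiv ℝ (prd F G H) x = _ := h.fderiv
  unfold pd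
  rw [h1]
  fin_cases j <;> simp <;> ring

theorem pd0 (hF : P1 F) (hG : P1 G) (hH : P1 H) : pd 0 (prd F G H) = prd (deriv F) G H := by
  funext x
  rw [pdj hF hG hH]
  simp [prd]

theorem pd1 (hF : P1 F) (hG : P1 G) (hH : P1 H) : pd 1 (prd F G H) = prd F (deriv G) H := by
  funext x
  rw [pdj hF hG hH]
  simp [prd]

theorem pd2 (hF : P1 F) (hG : P1 G) (hH : P1 H) : pd 2 (prd F G H) = prd F G (deriv H) := by
  funext x
  rw [pdj hF hG hH]
  simp [prd]

theorem int (F G H : ℝ → ℝ) : ∫ x in cube, prd F G H x = i1 F * i1 G * i1 H := by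
  have h1 : (volume.restrict cube : Measure V) =
      Measure.pi (fun _ : Fin 3 => (volume : Measure ℝ).restrict (Icc 0 1)) := by
    rw [← Measure.restrict_pi_pi, ← volume_pi]
    congr 1
    ext x
    simp only [cube, Set.mem_Icc, Set.mem_pi, Set.mem_univ, true_implies, Pi.le_def]
    constructor
    · rintro ⟨h1, h2⟩ i
      exact ⟨h1 i, h2 i⟩
    · intro h
      exact ⟨fun i => (h i).1, fun i => (h i).2⟩
  have h2 : ∀ x : V, prd F G H x = ∏ i, (![F, G, H] : Fin 3 → ℝ → ℝ) i (x i) := by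
    intro x
    rw [Fin.prod_univ_three]
    rfl
  have h3 : ∀ f : ℝ → ℝ, ∫ s in Icc (0 : ℝ) 1, f s = i1 f := by
    intro f
    unfold i1
    rw [intervalIntegral.integral_of_le zero_le_one, integral_Icc_eq_integral_Ioc]
  rw [h1]
  simp only [h2]
  rw [integral_fin_nat_prod_eq_prod, Fin.prod_univ_three]
  show (∫ s in Icc (0 : ℝ) 1, F s) * (∫ s in Icc (0 : ℝ) 1, G s) * (∫ s in Icc (0 : ℝ) 1, H s) = _
  rw [h3, h3, h3]

theorem int' {f : V → ℝ} {c : ℝ} (F G H : ℝ → ℝ) (h : ∀ x, f x = c * prd F G H x) :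
    ∫ x in cube, f x = c * (i1 F * i1 G * i1 H) := by
  rw [← int, ← integral_const_mul]
  exact integral_congr_ae (Eventually.of_forall h)

theorem gp0 (hF : P1 F) (hG : P1 G) (hH : P1 H) (x : V) :
    gp (prd F G H) x 0 = prd F G (deriv H) x := by
  show pd 2 (prd F G H) x = _
  rw [pd2 hF hG hH]

theorem gp1 (x : V) : gp (prd F G H) x 1 = 0 := rfl

theorem gp2 (hF : P1 F) (hG : P1 G) (hH : P1 H) (x : V) :
    gp (prd F G H) x 2 = -prd (deriv F) G H x := by
  show -pd 0 (prd F G H) x = _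
  rw [pd0 hF hG hH]

theorem pd_neg (j : Fin 3) (f : V → ℝ) (x : V) : pd j (fun y => -f y) x = -pd j f x := by
  unfold pd
  rw [fderiv_fun_neg]
  rfl

theorem ip_gp {F G H F' G' H' : ℝ → ℝ} (hF : P1 F) (hG : P1 G) (hH : P1 H) (hF' : P1 F')
    (hG' : P1 G') (hH' : P1 H') : ip (gp (prd F G H)) (gp (prd F' G' H'))
      = i1 (fun s => F s * F' s) * i1 (fun s => G s * G' s)
          * i1 (fun s => deriv H s * deriv H' s)
        + i1 (fun s => deriv F s * deriv F' s) * i1 (fun s => G s * G' s)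
          * i1 (fun s => H s * H' s) := by
  unfold ip
  rw [Fin.sum_univ_three]
  have e0 := int' (f := fun x => gp (prd F G H) x 0 * gp (prd F' G' H') x 0) (c := 1)
    (fun s => F s * F' s) (fun s => G s * G' s) (fun s => deriv H s * deriv H' s) (fun x => by
      rw [gp0 hF hG hH, gp0 hF' hG' hH']
      simp only [prd]
      ring)
  have e1 : ∫ x in cube, gp (prd F G H) x 1 * gp (prd F' G' H') x 1 = 0 := by
    simp only [gp1, mul_zero, integral_zero]
  have e2 := int' (f := fun x => gp (prd F G H) x 2 * gp (prd F' G' H') x 2) (c := 1)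
    (fun s => deriv F s * deriv F' s) (fun s => G s * G' s) (fun s => H s * H' s) (fun x => by
      rw [gp2 hF hG hH, gp2 hF' hG' hH']
      simp only [prd]
      ring)
  rw [e0, e1, e2]
  ring

theorem tri_gp {F₁ G₁ H₁ F₂ G₂ H₂ F₃ G₃ H₃ : ℝ → ℝ} (hF₁ : P1 F₁) (hG₁ : P1 G₁) (hH₁ : P1 H₁)
    (hF₂ : P1 F₂) (hG₂ : P1 G₂) (hH₂ : P1 H₂) (hF₃ : P1 F₃) (hG₃ : P1 G₃) (hH₃ : P1 H₃) :
    tri (gp (prd F₁ G₁ H₁)) (gp (prd F₂ G₂ H₂)) (gp (prd F₃ G₃ H₃))
      = i1 (fun s => G₁ s * G₂ s * G₃ s) *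
        (i1 (fun s => F₁ s * F₂ s * deriv F₃ s) * i1 (fun s => deriv H₁ s * deriv H₂ s * deriv H₃ s)
        - i1 (fun s => deriv F₁ s * F₂ s * F₃ s)
          * i1 (fun s => H₁ s * deriv H₂ s * deriv (deriv H₃) s)
        + i1 (fun s => F₁ s * deriv F₂ s * deriv (deriv F₃) s)
          * i1 (fun s => deriv H₁ s * H₂ s * H₃ s)
        - i1 (fun s => deriv F₁ s * deriv F₂ s * deriv F₃ s)
          * i1 (fun s => H₁ s * H₂ s * deriv H₃ s)) := by
  have w0 : (fun y => gp (prd F₃ G₃ H₃) y 0) = prd F₃ G₃ (deriv H₃) :=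
    funext (gp0 hF₃ hG₃ hH₃)
  have w2 : (fun y => gp (prd F₃ G₃ H₃) y 2) = fun y => -prd (deriv F₃) G₃ H₃ y :=
    funext (gp2 hF₃ hG₃ hH₃)
  have p00 : ∀ x, pd 0 (fun y => gp (prd F₃ G₃ H₃) y 0) x = prd (deriv F₃) G₃ (deriv H₃) x := by
    intro x
    rw [w0, pd0 hF₃ hG₃ (der hH₃)]
  have p20 : ∀ x, pd 2 (fun y => gp (prd F₃ G₃ H₃) y 0) x =
      prd F₃ G₃ (deriv (deriv H₃)) x := by
    intro x
    rw [w0, pd2 hF₃ hG₃ (der hH₃)]
  have p02 : ∀ x, pd 0 (fun y => gp (prd F₃ G₃ H₃) y 2) x =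
      -prd (deriv (deriv F₃)) G₃ H₃ x := by
    intro x
    rw [w2, pd_neg, pd0 (der hF₃) hG₃ hH₃]
  have p22 : ∀ x, pd 2 (fun y => gp (prd F₃ G₃ H₃) y 2) x =
      -prd (deriv F₃) G₃ (deriv H₃) x := by
    intro x
    rw [w2, pd_neg, pd2 (der hF₃) hG₃ hH₃]
  have e00 := int' (f := fun x => gp (prd F₁ G₁ H₁) x 0 * gp (prd F₂ G₂ H₂) x 0 *
      pd 0 (fun y => gp (prd F₃ G₃ H₃) y 0) x) (c := 1)
    (fun s => F₁ s * F₂ s * deriv F₃ s) (fun s => G₁ s * G₂ s * G₃ s)
    (fun s => deriv H₁ s * deriv H₂ s * deriv H₃ s) (fun x => by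
      rw [gp0 hF₁ hG₁ hH₁, gp0 hF₂ hG₂ hH₂, p00]
      simp only [prd]
      ring)
  have e02 := int' (f := fun x => gp (prd F₁ G₁ H₁) x 0 * gp (prd F₂ G₂ H₂) x 2 *
      pd 0 (fun y => gp (prd F₃ G₃ H₃) y 2) x) (c := 1)
    (fun s => F₁ s * deriv F₂ s * deriv (deriv F₃) s) (fun s => G₁ s * G₂ s * G₃ s)
    (fun s => deriv H₁ s * H₂ s * H₃ s) (fun x => by
      rw [gp0 hF₁ hG₁ hH₁, gp2 hF₂ hG₂ hH₂, p02]
      simp only [prd]
      ring)
  have e20 := int' (f := fun x => gp (prd F₁ G₁ H₁) x 2 * gp (prd F₂ G₂ H₂) x 0 *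
      pd 2 (fun y => gp (prd F₃ G₃ H₃) y 0) x) (c := -1)
    (fun s => deriv F₁ s * F₂ s * F₃ s) (fun s => G₁ s * G₂ s * G₃ s)
    (fun s => H₁ s * deriv H₂ s * deriv (deriv H₃) s) (fun x => by
      rw [gp2 hF₁ hG₁ hH₁, gp0 hF₂ hG₂ hH₂, p20]
      simp only [prd]
      ring)
  have e22 := int' (f := fun x => gp (prd F₁ G₁ H₁) x 2 * gp (prd F₂ G₂ H₂) x 2 *
      pd 2 (fun y => gp (prd F₃ G₃ H₃) y 2) x) (c := -1)
    (fun s => deriv F₁ s * deriv F₂ s * deriv F₃ s) (fun s => G₁ s * G₂ s * G₃ s)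
    (fun s => H₁ s * H₂ s * deriv H₃ s) (fun x => by
      rw [gp2 hF₁ hG₁ hH₁, gp2 hF₂ hG₂ hH₂, p22]
      simp only [prd]
      ring)
  unfold tri
  simp only [Fin.sum_univ_three]
  rw [e00, e02, e20, e22]
  simp only [gp1, mul_zero, zero_mul, integral_zero]
  ring

end Prod_

theorem s_prod : S_prod where
  sp := Prod_.sp
  pd0 := Prod_.pd0
  pd1 := Prod_.pd1
  pd2 := Prod_.pd2
  der := Prod_.der
  mul := Prod_.mul
  int := fun _ _ _ => Prod_.int _ _ _
  ip_gp := Prod_.ip_gp
  tri_gp := Prod_.tri_gp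

end Pool.Agent.H226.GB

end

/-! ## TrigP -/

section

/-!
Trigonometric polynomials with prescribed frequencies: proof of `S_trig`.
-/

open MeasureTheory Set Filter Topology
open scoped ContDiff
open H459R3.NS

namespace Pool.Agent.H226.GB

/-- a wave with a phase -/
noncomputable def TrigP_e (k : ℕ) (θ : ℝ) (s : ℝ) : ℝ := Real.cos (2 * Real.pi * k * s + θ)

theorem TrigP_cs (k : ℕ) : cs k = TrigP_e k 0 := by
  funext s
  unfold cs TrigP_e
  rw [add_zero]

theorem TrigP_sn (k : ℕ) : sn k = TrigP_e k (-(Real.pi / 2)) := by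
  funext s
  unfold sn TrigP_e
  rw [← sub_eq_add_neg, Real.cos_sub_pi_div_two]

theorem TrigP_int (m : ℤ) (hm : m ≠ 0) (θ : ℝ) :
    ∫ s in (0 : ℝ)..1, Real.cos (2 * Real.pi * m * s + θ) = 0 := by
  have hc : 2 * Real.pi * (m : ℝ) ≠ 0 :=
    mul_ne_zero (mul_ne_zero two_ne_zero Real.pi_ne_zero) (Int.cast_ne_zero.2 hm)
  have h := intervalIntegral.integral_comp_mul_add (a := 0) (b := 1) (fun x => Real.cos x) hc θ
  rw [h, integral_cos, mul_one, mul_zero, zero_add]
  have e : 2 * Real.pi * (m : ℝ) + θ = θ + m * (2 * Real.pi) := by ring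
  rw [e, Real.sin_add_int_mul_two_pi, sub_self, smul_zero]

theorem TrigP_e_smooth (k : ℕ) (θ : ℝ) : ContDiff ℝ ∞ (TrigP_e k θ) := by
  unfold TrigP_e
  exact Real.contDiff_cos.comp ((contDiff_const.mul contDiff_id).add contDiff_const)

theorem TrigP_e_per (k : ℕ) (θ : ℝ) (s : ℝ) : TrigP_e k θ (s + 1) = TrigP_e k θ s := by
  unfold TrigP_e
  have e : 2 * Real.pi * (k : ℝ) * (s + 1) + θ = 2 * Real.pi * k * s + θ + k * (2 * Real.pi) := by
    ring
  rw [e, Real.cos_add_nat_mul_two_pi]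

theorem TrigP_e_p1 (k : ℕ) (θ : ℝ) : P1 (TrigP_e k θ) :=
  ⟨TrigP_e_smooth k θ, TrigP_e_per k θ⟩

theorem TrigP_e_cont (k : ℕ) (θ : ℝ) : Continuous (TrigP_e k θ) :=
  (TrigP_e_smooth k θ).continuous

theorem TrigP_ii {f : ℝ → ℝ} (hf : Continuous f) : IntervalIntegrable f volume 0 1 :=
  hf.intervalIntegrable 0 1

theorem TrigP_add {f g h : ℝ → ℝ} (hf : Continuous f) (hg : Continuous g) (h1 : i1 f = 0)
    (h2 : i1 g = 0) (e : ∀ s, h s = f s + g s) : i1 h = 0 := by
  have e' : h = fun s => f s + g s := funext e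
  unfold i1 at h1 h2 ⊢
  rw [e', intervalIntegral.integral_add (TrigP_ii hf) (TrigP_ii hg), h1, h2, add_zero]

theorem TrigP_smul {f h : ℝ → ℝ} (c : ℝ) (h1 : i1 f = 0) (e : ∀ s, h s = c * f s) :
    i1 h = 0 := by
  have e' : h = fun s => c * f s := funext e
  unfold i1 at h1 ⊢
  rw [e', intervalIntegral.integral_const_mul, h1, mul_zero]

theorem TrigP_b2 {a b : ℕ} (hab : a ≠ b) (θ η : ℝ) :
    i1 (fun s => TrigP_e a θ s * TrigP_e b η s) = 0 := by
  have e : (fun s => TrigP_e a θ s * TrigP_e b η s) = fun s =>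
      2⁻¹ * Real.cos (2 * Real.pi * ((a + b : ℤ) : ℝ) * s + (θ + η)) +
      2⁻¹ * Real.cos (2 * Real.pi * ((a - b : ℤ) : ℝ) * s + (θ - η)) := by
    funext s
    unfold TrigP_e
    have h1 : 2 * Real.pi * ((a + b : ℤ) : ℝ) * s + (θ + η) =
      (2 * Real.pi * a * s + θ) + (2 * Real.pi * b * s + η) := by push_cast; ring
    have h2 : 2 * Real.pi * ((a - b : ℤ) : ℝ) * s + (θ - η) =
      (2 * Real.pi * a * s + θ) - (2 * Real.pi * b * s + η) := by push_cast; ring
    rw [h1, h2]
    generalize 2 * Real.pi * a * s + θ = x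
    generalize 2 * Real.pi * b * s + η = y
    rw [Real.cos_add, Real.cos_sub]
    ring
  unfold i1
  rw [e, intervalIntegral.integral_add (TrigP_ii (by fun_prop)) (TrigP_ii (by fun_prop)),
    intervalIntegral.integral_const_mul, intervalIntegral.integral_const_mul,
    TrigP_int _ (by omega), TrigP_int _ (by omega)]
  ring

theorem TrigP_b3 {a b c : ℕ} (h1 : a ≠ b + c) (h2 : b ≠ a + c) (h3 : c ≠ a + b) (θ η ζ : ℝ) :
    i1 (fun s => TrigP_e a θ s * TrigP_e b η s * TrigP_e c ζ s) = 0 := by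
  have e : (fun s => TrigP_e a θ s * TrigP_e b η s * TrigP_e c ζ s) = fun s =>
      (4⁻¹ * Real.cos (2 * Real.pi * ((a + b + c : ℤ) : ℝ) * s + (θ + η + ζ)) +
      4⁻¹ * Real.cos (2 * Real.pi * ((a + b - c : ℤ) : ℝ) * s + (θ + η - ζ))) +
      (4⁻¹ * Real.cos (2 * Real.pi * ((a - b + c : ℤ) : ℝ) * s + (θ - η + ζ)) +
      4⁻¹ * Real.cos (2 * Real.pi * ((a - b - c : ℤ) : ℝ) * s + (θ - η - ζ))) := by
    funext s
    unfold TrigP_e
    have h1 : 2 * Real.pi * ((a + b + c : ℤ) : ℝ) * s + (θ + η + ζ) =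
      (2 * Real.pi * a * s + θ) + (2 * Real.pi * b * s + η) + (2 * Real.pi * c * s + ζ) := by
      push_cast; ring
    have h2 : 2 * Real.pi * ((a + b - c : ℤ) : ℝ) * s + (θ + η - ζ) =
      (2 * Real.pi * a * s + θ) + (2 * Real.pi * b * s + η) - (2 * Real.pi * c * s + ζ) := by
      push_cast; ring
    have h3 : 2 * Real.pi * ((a - b + c : ℤ) : ℝ) * s + (θ - η + ζ) =
      (2 * Real.pi * a * s + θ) - (2 * Real.pi * b * s + η) + (2 * Real.pi * c * s + ζ) := by
      push_cast; ring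
    have h4 : 2 * Real.pi * ((a - b - c : ℤ) : ℝ) * s + (θ - η - ζ) =
      (2 * Real.pi * a * s + θ) - (2 * Real.pi * b * s + η) - (2 * Real.pi * c * s + ζ) := by
      push_cast; ring
    rw [h1, h2, h3, h4]
    generalize 2 * Real.pi * a * s + θ = x
    generalize 2 * Real.pi * b * s + η = y
    generalize 2 * Real.pi * c * s + ζ = z
    rw [Real.cos_add (x + y) z, Real.cos_sub (x + y) z, Real.cos_add (x - y) z,
      Real.cos_sub (x - y) z, Real.cos_add x y, Real.cos_sub x y]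
    ring
  unfold i1
  rw [e, intervalIntegral.integral_add (TrigP_ii (by fun_prop)) (TrigP_ii (by fun_prop)),
    intervalIntegral.integral_add (TrigP_ii (by fun_prop)) (TrigP_ii (by fun_prop)),
    intervalIntegral.integral_add (TrigP_ii (by fun_prop)) (TrigP_ii (by fun_prop)),
    intervalIntegral.integral_const_mul, intervalIntegral.integral_const_mul,
    intervalIntegral.integral_const_mul, intervalIntegral.integral_const_mul,
    TrigP_int _ (by omega), TrigP_int _ (by omega), TrigP_int _ (by omega),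
    TrigP_int _ (by omega)]
  ring

/-- induction for trigonometric polynomials -/
theorem TrigP_ind {A : Set ℕ} {f : ℝ → ℝ} (hf : Trig A f) (P : (ℝ → ℝ) → Prop)
    (h1 : ∀ k ∈ A, ∀ θ, P (TrigP_e k θ)) (h0 : P (fun _ => 0))
    (hadd : ∀ f g, P f → P g → P (fun s => f s + g s))
    (hsmul : ∀ (c : ℝ) (f : ℝ → ℝ), P f → P (fun s => c * f s)) : P f := by
  unfold Trig at hf
  refine Submodule.span_induction (p := fun f _ => P f) ?_ h0 ?_ ?_ hf
  · rintro g (⟨k, hk, rfl⟩ | ⟨k, hk, rfl⟩)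
    · rw [TrigP_sn]; exact h1 k hk _
    · rw [TrigP_cs]; exact h1 k hk _
  · intro f g _ _ hf hg
    exact hadd f g hf hg
  · intro c f _ hf
    exact hsmul c f hf

theorem TrigP_p1 {A : Set ℕ} {f : ℝ → ℝ} (hf : Trig A f) : P1 f := by
  refine TrigP_ind hf P1 (fun k _ θ => TrigP_e_p1 k θ) ⟨contDiff_const, fun _ => rfl⟩ ?_ ?_
  · intro f g hf hg
    exact ⟨hf.smooth.add hg.smooth, fun s => by rw [hf.per, hg.per]⟩
  · intro c f hf
    exact ⟨contDiff_const.mul hf.smooth, fun s => by rw [hf.per]⟩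

theorem TrigP_cont {A : Set ℕ} {f : ℝ → ℝ} (hf : Trig A f) : Continuous f :=
  (TrigP_p1 hf).smooth.continuous

theorem TrigP_msn {A : Set ℕ} {k : ℕ} (hk : k ∈ A) : Trig A (sn k) :=
  Submodule.subset_span (Or.inl ⟨k, hk, rfl⟩)

theorem TrigP_mcs {A : Set ℕ} {k : ℕ} (hk : k ∈ A) : Trig A (cs k) :=
  Submodule.subset_span (Or.inr ⟨k, hk, rfl⟩)

theorem TrigP_dsn (k : ℕ) : deriv (sn k) = (2 * Real.pi * k) • cs k := by
  funext s
  have h : HasDerivAt (sn k) (Real.cos (2 * Real.pi * k * s) * (2 * Real.pi * k * 1)) s :=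
    (Real.hasDerivAt_sin _).comp s ((hasDerivAt_id s).const_mul (2 * Real.pi * k))
  rw [h.deriv]
  simp only [Pi.smul_apply, smul_eq_mul]
  unfold cs
  ring

theorem TrigP_dcs (k : ℕ) : deriv (cs k) = (-(2 * Real.pi * k)) • sn k := by
  funext s
  have h : HasDerivAt (cs k) (-Real.sin (2 * Real.pi * k * s) * (2 * Real.pi * k * 1)) s :=
    (Real.hasDerivAt_cos _).comp s ((hasDerivAt_id s).const_mul (2 * Real.pi * k))
  rw [h.deriv]
  simp only [Pi.smul_apply, smul_eq_mul]
  unfold sn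
  ring

theorem TrigP_der {A : Set ℕ} {f : ℝ → ℝ} (hf : Trig A f) : Trig A (deriv f) := by
  have h : Differentiable ℝ f ∧ Trig A (deriv f) := by
    unfold Trig at hf
    refine Submodule.span_induction (p := fun f _ => Differentiable ℝ f ∧ Trig A (deriv f))
      ?_ ?_ ?_ ?_ hf
    · rintro g (⟨k, hk, rfl⟩ | ⟨k, hk, rfl⟩)
      · refine ⟨(TrigP_p1 (TrigP_msn hk)).smooth.differentiable (by simp), ?_⟩
        rw [TrigP_dsn]
        exact Submodule.smul_mem _ _ (TrigP_mcs hk)
      · refine ⟨(TrigP_p1 (TrigP_mcs hk)).smooth.differentiable (by simp), ?_⟩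
        rw [TrigP_dcs]
        exact Submodule.smul_mem _ _ (TrigP_msn hk)
    · refine ⟨differentiable_const (0 : ℝ), ?_⟩
      have e : deriv (0 : ℝ → ℝ) = 0 := by
        funext s
        exact deriv_const s (0 : ℝ)
      rw [e]
      exact Submodule.zero_mem _
    · rintro f g _ _ ⟨hf1, hf2⟩ ⟨hg1, hg2⟩
      refine ⟨hf1.add hg1, ?_⟩
      have e : deriv (f + g) = deriv f + deriv g := by
        funext s
        exact deriv_add (hf1 s) (hg1 s)
      rw [e]
      exact Submodule.add_mem _ hf2 hg2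
    · rintro c f _ ⟨hf1, hf2⟩
      refine ⟨hf1.const_smul c, ?_⟩
      have e : deriv (c • f) = c • deriv f := by
        funext s
        exact deriv_const_smul c (hf1 s)
      rw [e]
      exact Submodule.smul_mem _ _ hf2
  exact h.2

theorem TrigP_H (N : ℕ) : Trig {k | 16 * N ≤ k ∧ k ≤ 17 * N - 1} (fH N) := by
  have e : fH N = ∑ j ∈ Finset.Ico (16 * N) (17 * N), (2 * Real.pi * j)⁻¹ • sn j := by
    funext s
    rw [Finset.sum_apply]
    unfold fH
    refine Finset.sum_congr rfl fun j _ => ?_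
    rw [Pi.smul_apply, smul_eq_mul, div_eq_inv_mul]
  rw [e]
  refine Submodule.sum_mem _ fun j hj => Submodule.smul_mem _ _ (TrigP_msn ?_)
  rw [Finset.mem_Ico] at hj
  exact ⟨hj.1, by omega⟩

theorem TrigP_int2 {A B : Set ℕ} {f g : ℝ → ℝ} (hf : Trig A f) (hg : Trig B g)
    (hAB : ∀ a ∈ A, ∀ b ∈ B, a ≠ b) : i1 (fun s => f s * g s) = 0 := by
  have s1 : ∀ b ∈ B, ∀ η, Continuous f ∧ i1 (fun s => f s * TrigP_e b η s) = 0 := by
    intro b hb η
    refine TrigP_ind hf (fun f => Continuous f ∧ i1 (fun s => f s * TrigP_e b η s) = 0)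
      (fun k hk θ => ⟨TrigP_e_cont k θ, TrigP_b2 (hAB k hk b hb) θ η⟩) ?_ ?_ ?_
    · refine ⟨continuous_const, ?_⟩
      simp [i1]
    · rintro f g ⟨hf, hf'⟩ ⟨hg, hg'⟩
      exact ⟨hf.add hg, TrigP_add (hf.mul (TrigP_e_cont b η)) (hg.mul (TrigP_e_cont b η)) hf' hg'
        fun s => add_mul _ _ _⟩
    · rintro c f ⟨hf, hf'⟩
      exact ⟨continuous_const.mul hf, TrigP_smul c hf' fun s => mul_assoc _ _ _⟩
  have hfc : Continuous f := TrigP_cont hf
  have s2 : Continuous g ∧ i1 (fun s => f s * g s) = 0 := by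
    refine TrigP_ind hg (fun g => Continuous g ∧ i1 (fun s => f s * g s) = 0)
      (fun k hk θ => ⟨TrigP_e_cont k θ, (s1 k hk θ).2⟩) ?_ ?_ ?_
    · refine ⟨continuous_const, ?_⟩
      simp [i1]
    · rintro g h ⟨hg, hg'⟩ ⟨hh, hh'⟩
      exact ⟨hg.add hh, TrigP_add (hfc.mul hg) (hfc.mul hh) hg' hh' fun s => mul_add _ _ _⟩
    · rintro c g ⟨hg, hg'⟩
      exact ⟨continuous_const.mul hg, TrigP_smul c hg' fun s => mul_left_comm _ _ _⟩
  exact s2.2

theorem TrigP_int3 {A B C : Set ℕ} {f g h : ℝ → ℝ} (hf : Trig A f) (hg : Trig B g)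
    (hh : Trig C h)
    (hABC : ∀ a ∈ A, ∀ b ∈ B, ∀ c ∈ C, a ≠ b + c ∧ b ≠ a + c ∧ c ≠ a + b) :
    i1 (fun s => f s * g s * h s) = 0 := by
  have s1 : ∀ b ∈ B, ∀ η, ∀ c ∈ C, ∀ ζ,
      Continuous f ∧ i1 (fun s => f s * TrigP_e b η s * TrigP_e c ζ s) = 0 := by
    intro b hb η c hc ζ
    refine TrigP_ind hf
      (fun f => Continuous f ∧ i1 (fun s => f s * TrigP_e b η s * TrigP_e c ζ s) = 0)
      (fun k hk θ => ⟨TrigP_e_cont k θ, ?_⟩) ?_ ?_ ?_
    · obtain ⟨h1, h2, h3⟩ := hABC k hk b hb c hc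
      exact TrigP_b3 h1 h2 h3 θ η ζ
    · refine ⟨continuous_const, ?_⟩
      simp [i1]
    · rintro f g ⟨hf, hf'⟩ ⟨hg, hg'⟩
      exact ⟨hf.add hg, TrigP_add ((hf.mul (TrigP_e_cont b η)).mul (TrigP_e_cont c ζ))
        ((hg.mul (TrigP_e_cont b η)).mul (TrigP_e_cont c ζ)) hf' hg'
        fun s => by simp only [Pi.mul_apply]; ring⟩
    · rintro r f ⟨hf, hf'⟩
      exact ⟨continuous_const.mul hf, TrigP_smul r hf' fun s => by ring⟩
  have hfc : Continuous f := TrigP_cont hf
  have s2 : ∀ c ∈ C, ∀ ζ, Continuous g ∧ i1 (fun s => f s * g s * TrigP_e c ζ s) = 0 := by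
    intro c hc ζ
    refine TrigP_ind hg (fun g => Continuous g ∧ i1 (fun s => f s * g s * TrigP_e c ζ s) = 0)
      (fun k hk θ => ⟨TrigP_e_cont k θ, (s1 k hk θ c hc ζ).2⟩) ?_ ?_ ?_
    · refine ⟨continuous_const, ?_⟩
      simp [i1]
    · rintro g h ⟨hg, hg'⟩ ⟨hh, hh'⟩
      exact ⟨hg.add hh, TrigP_add ((hfc.mul hg).mul (TrigP_e_cont c ζ))
        ((hfc.mul hh).mul (TrigP_e_cont c ζ)) hg' hh'
        fun s => by simp only [Pi.mul_apply]; ring⟩
    · rintro r g ⟨hg, hg'⟩
      exact ⟨continuous_const.mul hg, TrigP_smul r hg' fun s => by ring⟩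
  have hgc : Continuous g := TrigP_cont hg
  have s3 : Continuous h ∧ i1 (fun s => f s * g s * h s) = 0 := by
    refine TrigP_ind hh (fun h => Continuous h ∧ i1 (fun s => f s * g s * h s) = 0)
      (fun k hk θ => ⟨TrigP_e_cont k θ, (s2 k hk θ).2⟩) ?_ ?_ ?_
    · refine ⟨continuous_const, ?_⟩
      simp [i1]
    · rintro h k ⟨hh, hh'⟩ ⟨hk, hk'⟩
      exact ⟨hh.add hk, TrigP_add ((hfc.mul hgc).mul hh) ((hfc.mul hgc).mul hk) hh' hk'
        fun s => by simp only [Pi.mul_apply]; ring⟩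
    · rintro r h ⟨hh, hh'⟩
      exact ⟨continuous_const.mul hh, TrigP_smul r hh' fun s => by ring⟩
  exact s3.2

theorem s_trig : S_trig where
  p1 := TrigP_p1
  der := TrigP_der
  sn := TrigP_msn
  cs := TrigP_mcs
  H := TrigP_H
  int2 := TrigP_int2
  int3 := TrigP_int3

end Pool.Agent.H226.GB

end

/-! ## One -/

section

/-!
One-dimensional trigonometric integrals.
-/

set_option autoImplicit false
set_option linter.all false

open MeasureTheory Set Filter Topology
open scoped ContDiff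
open H459R3.NS

namespace Pool.Agent.H226.GB

/-- cosine with an integer frequency -/
noncomputable def One_ci (m : ℤ) (s : ℝ) : ℝ := Real.cos (2 * Real.pi * m * s)

theorem One_ci_cont (m : ℤ) : Continuous (One_ci m) := by
  unfold One_ci; fun_prop

theorem One_sn_cont (m : ℕ) : Continuous (sn m) := by
  unfold sn; fun_prop

theorem One_cs_cont (m : ℕ) : Continuous (cs m) := by
  unfold cs; fun_prop

theorem One_i1_ci (m : ℤ) : i1 (One_ci m) = if m = 0 then 1 else 0 := by
  unfold i1 One_ci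
  split_ifs with h
  · subst h; simp
  · have hc : 2 * Real.pi * (m : ℝ) ≠ 0 := by
      have : (m : ℝ) ≠ 0 := by exact_mod_cast h
      have := Real.pi_pos.ne'
      positivity
    rw [intervalIntegral.integral_comp_mul_left (fun x => Real.cos x) hc, integral_cos]
    have : Real.sin (2 * Real.pi * (m : ℝ) * 1) = 0 := by
      have h2 := Real.sin_int_mul_pi (2 * m)
      rw [← h2]; congr 1; push_cast; ring
    rw [this]; simp

theorem One_i1_add {f g : ℝ → ℝ} (hf : Continuous f) (hg : Continuous g) :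
    i1 (fun s => f s + g s) = i1 f + i1 g :=
  intervalIntegral.integral_add (hf.intervalIntegrable _ _) (hg.intervalIntegrable _ _)

theorem One_i1_sub {f g : ℝ → ℝ} (hf : Continuous f) (hg : Continuous g) :
    i1 (fun s => f s - g s) = i1 f - i1 g :=
  intervalIntegral.integral_sub (hf.intervalIntegrable _ _) (hg.intervalIntegrable _ _)

theorem One_i1_smul (c : ℝ) (f : ℝ → ℝ) : i1 (fun s => c * f s) = c * i1 f :=
  intervalIntegral.integral_const_mul _ _

theorem One_i1_sum (A : Finset ℕ) (f : ℕ → ℝ → ℝ) (hf : ∀ j ∈ A, Continuous (f j)) :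
    i1 (fun s => ∑ j ∈ A, f j s) = ∑ j ∈ A, i1 (f j) :=
  intervalIntegral.integral_finset_sum fun j hj => (hf j hj).intervalIntegrable _ _

theorem One_2a (m n : ℤ) : i1 (fun s => One_ci m s + One_ci n s) =
    (if m = 0 then 1 else 0) + (if n = 0 then 1 else 0) := by
  rw [One_i1_add (One_ci_cont m) (One_ci_cont n), One_i1_ci, One_i1_ci]

theorem One_4s (m n m' n' : ℤ) : i1 (fun s => (One_ci m s + One_ci n s) - (One_ci m' s + One_ci n' s)) =
    ((if m = 0 then 1 else 0) + (if n = 0 then 1 else 0)) -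
      ((if m' = 0 then 1 else 0) + (if n' = 0 then 1 else 0)) := by
  rw [One_i1_sub (f := fun s => One_ci m s + One_ci n s) (g := fun s => One_ci m' s + One_ci n' s)
    ((One_ci_cont m).add (One_ci_cont n)) ((One_ci_cont m').add (One_ci_cont n')), One_2a, One_2a]

theorem One_4a (m n m' n' : ℤ) : i1 (fun s => (One_ci m s + One_ci n s) + (One_ci m' s + One_ci n' s)) =
    ((if m = 0 then 1 else 0) + (if n = 0 then 1 else 0)) +
      ((if m' = 0 then 1 else 0) + (if n' = 0 then 1 else 0)) := by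
  rw [One_i1_add (f := fun s => One_ci m s + One_ci n s) (g := fun s => One_ci m' s + One_ci n' s)
    ((One_ci_cont m).add (One_ci_cont n)) ((One_ci_cont m').add (One_ci_cont n')), One_2a, One_2a]

/-- the two kinds of triple integrals -/
theorem One_ssc (a b k : ℕ) (ha : 1 ≤ a) : i1 (fun s => sn a s * sn b s * cs k s) =
    1 / 4 * ((if a + k = b then 1 else 0) + (if b + k = a then 1 else 0) - (if a + b = k then 1 else 0)) := by
  have h : (fun s => sn a s * sn b s * cs k s) = fun s => 1 / 4 * ((One_ci ((a : ℤ) - b + k) s +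
      One_ci ((a : ℤ) - b - k) s) - (One_ci ((a : ℤ) + b - k) s + One_ci ((a : ℤ) + b + k) s)) := by
    funext s
    unfold sn cs One_ci
    push_cast
    have e1 : 2 * Real.pi * ((a : ℝ) - b + k) * s =
      (2 * Real.pi * a * s - 2 * Real.pi * b * s) + 2 * Real.pi * k * s := by ring
    have e2 : 2 * Real.pi * ((a : ℝ) - b - k) * s =
      (2 * Real.pi * a * s - 2 * Real.pi * b * s) - 2 * Real.pi * k * s := by ring
    have e3 : 2 * Real.pi * ((a : ℝ) + b - k) * s =
      (2 * Real.pi * a * s + 2 * Real.pi * b * s) - 2 * Real.pi * k * s := by ring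
    have e4 : 2 * Real.pi * ((a : ℝ) + b + k) * s =
      (2 * Real.pi * a * s + 2 * Real.pi * b * s) + 2 * Real.pi * k * s := by ring
    rw [e1, e2, e3, e4]
    simp only [Real.cos_add, Real.cos_sub, Real.sin_add, Real.sin_sub]
    ring
  rw [h, One_i1_smul, One_4s]
  have c1 : ((a : ℤ) - b + k = 0) ↔ a + k = b := by omega
  have c2 : ((a : ℤ) - b - k = 0) ↔ b + k = a := by omega
  have c3 : ((a : ℤ) + b - k = 0) ↔ a + b = k := by omega
  have c4 : ¬ ((a : ℤ) + b + k = 0) := by omega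
  simp only [c1, c2, c3, c4, if_false, add_zero]

theorem One_ccc (a b k : ℕ) (ha : 1 ≤ a) : i1 (fun s => cs a s * cs b s * cs k s) =
    1 / 4 * ((if a + k = b then 1 else 0) + (if b + k = a then 1 else 0) + (if a + b = k then 1 else 0)) := by
  have h : (fun s => cs a s * cs b s * cs k s) = fun s => 1 / 4 * ((One_ci ((a : ℤ) - b + k) s +
      One_ci ((a : ℤ) - b - k) s) + (One_ci ((a : ℤ) + b - k) s + One_ci ((a : ℤ) + b + k) s)) := by
    funext s
    unfold cs One_ci
    push_cast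
    have e1 : 2 * Real.pi * ((a : ℝ) - b + k) * s =
      (2 * Real.pi * a * s - 2 * Real.pi * b * s) + 2 * Real.pi * k * s := by ring
    have e2 : 2 * Real.pi * ((a : ℝ) - b - k) * s =
      (2 * Real.pi * a * s - 2 * Real.pi * b * s) - 2 * Real.pi * k * s := by ring
    have e3 : 2 * Real.pi * ((a : ℝ) + b - k) * s =
      (2 * Real.pi * a * s + 2 * Real.pi * b * s) - 2 * Real.pi * k * s := by ring
    have e4 : 2 * Real.pi * ((a : ℝ) + b + k) * s =
      (2 * Real.pi * a * s + 2 * Real.pi * b * s) + 2 * Real.pi * k * s := by ring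
    rw [e1, e2, e3, e4]
    simp only [Real.cos_add, Real.cos_sub, Real.sin_add, Real.sin_sub]
    ring
  rw [h, One_i1_smul, One_4a]
  have c1 : ((a : ℤ) - b + k = 0) ↔ a + k = b := by omega
  have c2 : ((a : ℤ) - b - k = 0) ↔ b + k = a := by omega
  have c3 : ((a : ℤ) + b - k = 0) ↔ a + b = k := by omega
  have c4 : ¬ ((a : ℤ) + b + k = 0) := by omega
  simp only [c1, c2, c3, c4, if_false, add_zero]

theorem One_cs_zero (s : ℝ) : cs 0 s = 1 := by simp [cs]

/-- sums of sines -/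
noncomputable def One_S (A : Finset ℕ) (u : ℕ → ℝ) (s : ℝ) : ℝ := ∑ j ∈ A, u j * sn j s

/-- sums of cosines -/
noncomputable def One_C (A : Finset ℕ) (u : ℕ → ℝ) (s : ℝ) : ℝ := ∑ j ∈ A, u j * cs j s

theorem One_S_sq (A : Finset ℕ) (hA : ∀ a ∈ A, 1 ≤ a) (u : ℕ → ℝ) (k : ℕ) :
    i1 (fun s => One_S A u s ^ 2 * cs k s) = ∑ a ∈ A, ∑ b ∈ A, u a * u b * (1 / 4 *
      ((if a + k = b then 1 else 0) + (if b + k = a then 1 else 0) - (if a + b = k then 1 else 0))) := by
  have h : (fun s => One_S A u s ^ 2 * cs k s) =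
      fun s => ∑ a ∈ A, ∑ b ∈ A, (u a * u b) * (sn a s * sn b s * cs k s) := by
    funext s
    unfold One_S
    rw [sq, Finset.sum_mul_sum, Finset.sum_mul]
    refine Finset.sum_congr rfl fun a _ => ?_
    rw [Finset.sum_mul]
    refine Finset.sum_congr rfl fun b _ => ?_
    ring
  have hc : ∀ a b : ℕ, Continuous (fun s => (u a * u b) * (sn a s * sn b s * cs k s)) := fun a b =>
    continuous_const.mul (((One_sn_cont a).mul (One_sn_cont b)).mul (One_cs_cont k))
  rw [h, One_i1_sum A (fun a s => ∑ b ∈ A, (u a * u b) * (sn a s * sn b s * cs k s))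
    (fun a _ => continuous_finset_sum _ fun b _ => hc a b)]
  refine Finset.sum_congr rfl fun a ha => ?_
  rw [One_i1_sum A (fun b s => (u a * u b) * (sn a s * sn b s * cs k s)) (fun b _ => hc a b)]
  refine Finset.sum_congr rfl fun b _ => ?_
  rw [One_i1_smul, One_ssc a b k (hA a ha)]

theorem One_C_sq (A : Finset ℕ) (hA : ∀ a ∈ A, 1 ≤ a) (u : ℕ → ℝ) (k : ℕ) :
    i1 (fun s => One_C A u s ^ 2 * cs k s) = ∑ a ∈ A, ∑ b ∈ A, u a * u b * (1 / 4 *
      ((if a + k = b then 1 else 0) + (if b + k = a then 1 else 0) + (if a + b = k then 1 else 0))) := by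
  have h : (fun s => One_C A u s ^ 2 * cs k s) =
      fun s => ∑ a ∈ A, ∑ b ∈ A, (u a * u b) * (cs a s * cs b s * cs k s) := by
    funext s
    unfold One_C
    rw [sq, Finset.sum_mul_sum, Finset.sum_mul]
    refine Finset.sum_congr rfl fun a _ => ?_
    rw [Finset.sum_mul]
    refine Finset.sum_congr rfl fun b _ => ?_
    ring
  have hc : ∀ a b : ℕ, Continuous (fun s => (u a * u b) * (cs a s * cs b s * cs k s)) := fun a b =>
    continuous_const.mul (((One_cs_cont a).mul (One_cs_cont b)).mul (One_cs_cont k))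
  rw [h, One_i1_sum A (fun a s => ∑ b ∈ A, (u a * u b) * (cs a s * cs b s * cs k s))
    (fun a _ => continuous_finset_sum _ fun b _ => hc a b)]
  refine Finset.sum_congr rfl fun a ha => ?_
  rw [One_i1_sum A (fun b s => (u a * u b) * (cs a s * cs b s * cs k s)) (fun b _ => hc a b)]
  refine Finset.sum_congr rfl fun b _ => ?_
  rw [One_i1_smul, One_ccc a b k (hA a ha)]

/-! ### Derivatives -/

theorem One_sn_der (k : ℕ) (s : ℝ) : HasDerivAt (sn k) (2 * Real.pi * k * cs k s) s := by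
  have h1 : HasDerivAt (fun s : ℝ => 2 * Real.pi * k * s) (2 * Real.pi * k) s := by
    have := (hasDerivAt_id s).const_mul (2 * Real.pi * k)
    simpa using this
  have h2 := h1.sin
  unfold sn cs
  rw [mul_comm (2 * Real.pi * (k : ℝ)) (Real.cos _)]
  exact h2

theorem One_cs_der (k : ℕ) (s : ℝ) : HasDerivAt (cs k) (-(2 * Real.pi * k * sn k s)) s := by
  have h1 : HasDerivAt (fun s : ℝ => 2 * Real.pi * k * s) (2 * Real.pi * k) s := by
    have := (hasDerivAt_id s).const_mul (2 * Real.pi * k)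
    simpa using this
  have h2 := h1.cos
  unfold sn cs
  have e : -(2 * Real.pi * (k : ℝ) * Real.sin (2 * Real.pi * k * s)) =
    -Real.sin (2 * Real.pi * k * s) * (2 * Real.pi * k) := by ring
  rw [e]
  exact h2

theorem One_dS (A : Finset ℕ) (u : ℕ → ℝ) :
    deriv (One_S A u) = One_C A (fun j => u j * (2 * Real.pi * j)) := by
  funext s
  have : HasDerivAt (One_S A u) (∑ j ∈ A, u j * (2 * Real.pi * j * cs j s)) s := by
    unfold One_S
    exact HasDerivAt.fun_sum fun j _ => (One_sn_der j s).const_mul (u j)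
  rw [this.deriv]
  unfold One_C
  refine Finset.sum_congr rfl fun j _ => ?_
  ring

theorem One_dC (A : Finset ℕ) (u : ℕ → ℝ) :
    deriv (One_C A u) = One_S A (fun j => -(u j * (2 * Real.pi * j))) := by
  funext s
  have : HasDerivAt (One_C A u) (∑ j ∈ A, u j * (-(2 * Real.pi * j * sn j s))) s := by
    unfold One_C
    exact HasDerivAt.fun_sum fun j _ => (One_cs_der j s).const_mul (u j)
  rw [this.deriv]
  unfold One_S
  refine Finset.sum_congr rfl fun j _ => ?_
  ring

theorem One_C_congr (A : Finset ℕ) (u v : ℕ → ℝ) (h : ∀ j ∈ A, u j = v j) : One_C A u = One_C A v := by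
  funext s
  unfold One_C
  exact Finset.sum_congr rfl fun j hj => by rw [h j hj]

theorem One_S_congr (A : Finset ℕ) (u v : ℕ → ℝ) (h : ∀ j ∈ A, u j = v j) : One_S A u = One_S A v := by
  funext s
  unfold One_S
  exact Finset.sum_congr rfl fun j hj => by rw [h j hj]

theorem One_F (N : ℕ) : fF N = One_S (Finset.Ico N (2 * N)) (fun _ => 1) := by
  funext s; simp [fF, One_S]

theorem One_G (N : ℕ) : fG N = One_C (Finset.Ico N (2 * N)) (fun _ => 1) := by
  funext s; simp [fG, One_C]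

theorem One_H (N : ℕ) : fH N = One_S (Finset.Ico (16 * N) (17 * N)) (fun j => 1 / (2 * Real.pi * j)) := by
  funext s
  unfold fH One_S
  refine Finset.sum_congr rfl fun j _ => ?_
  ring

theorem One_dF (N : ℕ) : deriv (fF N) = One_C (Finset.Ico N (2 * N)) (fun j => 2 * Real.pi * j) := by
  rw [One_F, One_dS]
  exact One_C_congr _ _ _ fun j _ => by ring

theorem One_ddF (N : ℕ) : deriv (deriv (fF N)) =
    One_S (Finset.Ico N (2 * N)) (fun j => -((2 * Real.pi * j) ^ 2)) := by
  rw [One_dF, One_dC]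
  exact One_S_congr _ _ _ fun j _ => by ring

theorem One_dG (N : ℕ) : deriv (fG N) = One_S (Finset.Ico N (2 * N)) (fun j => -(2 * Real.pi * j)) := by
  rw [One_G, One_dC]
  exact One_S_congr _ _ _ fun j _ => by ring

theorem One_dH (N : ℕ) : deriv (fH N) = One_C (Finset.Ico (16 * N) (17 * N)) (fun _ => 1) := by
  rw [One_H, One_dS]
  refine One_C_congr _ _ _ fun j hj => ?_
  rw [Finset.mem_Ico] at hj
  have : (j : ℝ) ≠ 0 := by
    have : 1 ≤ j := by omega
    positivity
  have := Real.pi_pos.ne'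
  field_simp

theorem One_ddH (N : ℕ) : deriv (deriv (fH N)) =
    One_S (Finset.Ico (16 * N) (17 * N)) (fun j => -(2 * Real.pi * j)) := by
  rw [One_dH, One_dC]
  exact One_S_congr _ _ _ fun j _ => by ring

/-! ### Counting -/

theorem One_cnt1 (M L k : ℕ) (u : ℕ → ℝ) :
    ∑ a ∈ Finset.Ico M L, ∑ b ∈ Finset.Ico M L, u a * u b * (if a + k = b then 1 else 0) =
      ∑ a ∈ Finset.Ico M (L - k), u a * u (a + k) := by
  have h1 : ∀ a ∈ Finset.Ico M L, ∑ b ∈ Finset.Ico M L, u a * u b * (if a + k = b then (1 : ℝ) else 0) =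
      if a + k < L then u a * u (a + k) else 0 := by
    intro a ha
    rw [Finset.mem_Ico] at ha
    split_ifs with h
    · rw [Finset.sum_eq_single_of_mem (a + k) (Finset.mem_Ico.2 ⟨by omega, h⟩)]
      · rw [if_pos rfl, mul_one]
      · intro b _ hb
        rw [if_neg (fun h => hb h.symm), mul_zero]
    · refine Finset.sum_eq_zero fun b hb => ?_
      rw [Finset.mem_Ico] at hb
      rw [if_neg (by omega), mul_zero]
  rw [Finset.sum_congr rfl h1, ← Finset.sum_filter]
  refine Finset.sum_congr ?_ fun _ _ => rfl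
  ext a
  simp only [Finset.mem_filter, Finset.mem_Ico]
  omega

theorem One_cnt2 (M L k : ℕ) (u : ℕ → ℝ) :
    ∑ a ∈ Finset.Ico M L, ∑ b ∈ Finset.Ico M L, u a * u b * (if b + k = a then 1 else 0) =
      ∑ a ∈ Finset.Ico M (L - k), u a * u (a + k) := by
  rw [← One_cnt1, Finset.sum_comm]
  refine Finset.sum_congr rfl fun a _ => Finset.sum_congr rfl fun b _ => ?_
  rw [mul_comm (u b) (u a)]

theorem One_cnt3 (M L k : ℕ) (u : ℕ → ℝ) (hk : k < 2 * M) :
    ∑ a ∈ Finset.Ico M L, ∑ b ∈ Finset.Ico M L, u a * u b * (if a + b = k then (1 : ℝ) else 0) = 0 := by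
  refine Finset.sum_eq_zero fun a ha => Finset.sum_eq_zero fun b hb => ?_
  rw [Finset.mem_Ico] at ha hb
  rw [if_neg (by omega), mul_zero]

theorem One_pair (A : Finset ℕ) (u : ℕ → ℝ) (p q : ℕ) (hp : p ∈ A) (hq : q ∈ A) :
    ∑ a ∈ A, ∑ b ∈ A, u a * u b * (if a = p ∧ b = q then (1 : ℝ) else 0) = u p * u q := by
  rw [Finset.sum_eq_single_of_mem p hp]
  · rw [Finset.sum_eq_single_of_mem q hq]
    · simp
    · intro b _ hb
      rw [if_neg (fun h => hb h.2), mul_zero]
  · intro a _ ha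
    refine Finset.sum_eq_zero fun b _ => ?_
    rw [if_neg (fun h => ha h.1), mul_zero]

theorem One_top (M L : ℕ) (u : ℕ → ℝ) (hM : M < L) :
    ∑ a ∈ Finset.Ico M L, ∑ b ∈ Finset.Ico M L, u a * u b * (if a + b = 2 * (L - 1) then (1 : ℝ) else 0) =
      u (L - 1) * u (L - 1) := by
  rw [← One_pair (Finset.Ico M L) u (L - 1) (L - 1) (Finset.mem_Ico.2 (by omega)) (Finset.mem_Ico.2 (by omega))]
  refine Finset.sum_congr rfl fun a ha => Finset.sum_congr rfl fun b hb => ?_
  rw [Finset.mem_Ico] at ha hb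
  have : a + b = 2 * (L - 1) ↔ a = L - 1 ∧ b = L - 1 := by omega
  simp only [this]

theorem One_top2 (M L : ℕ) (u : ℕ → ℝ) (hM : M + 1 < L) :
    ∑ a ∈ Finset.Ico M L, ∑ b ∈ Finset.Ico M L, u a * u b * (if a + b = 2 * L - 3 then (1 : ℝ) else 0) =
      2 * (u (L - 1) * u (L - 2)) := by
  have h1 := One_pair (Finset.Ico M L) u (L - 1) (L - 2) (Finset.mem_Ico.2 (by omega)) (Finset.mem_Ico.2 (by omega))
  have h2 := One_pair (Finset.Ico M L) u (L - 2) (L - 1) (Finset.mem_Ico.2 (by omega)) (Finset.mem_Ico.2 (by omega))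
  have h3 : 2 * (u (L - 1) * u (L - 2)) = u (L - 1) * u (L - 2) + u (L - 2) * u (L - 1) := by ring
  rw [h3, ← h1, ← h2, ← Finset.sum_add_distrib]
  refine Finset.sum_congr rfl fun a ha => ?_
  rw [← Finset.sum_add_distrib]
  refine Finset.sum_congr rfl fun b hb => ?_
  rw [Finset.mem_Ico] at ha hb
  rw [← mul_add]
  congr 1
  by_cases c1 : a = L - 1 ∧ b = L - 2
  · have c3 : a + b = 2 * L - 3 := by omega
    have c4 : ¬ (a = L - 2 ∧ b = L - 1) := by omega
    rw [if_pos c1, if_neg c4, if_pos c3, add_zero]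
  · by_cases c2 : a = L - 2 ∧ b = L - 1
    · have c3 : a + b = 2 * L - 3 := by omega
      rw [if_neg c1, if_pos c2, if_pos c3, zero_add]
    · have c3 : ¬ (a + b = 2 * L - 3) := by omega
      rw [if_neg c1, if_neg c2, if_neg c3, zero_add]

theorem One_S_gen (M L k : ℕ) (u : ℕ → ℝ) (hM : 1 ≤ M) :
    i1 (fun s => One_S (Finset.Ico M L) u s ^ 2 * cs k s) =
      1 / 2 * ∑ a ∈ Finset.Ico M (L - k), u a * u (a + k) -
        1 / 4 * ∑ a ∈ Finset.Ico M L, ∑ b ∈ Finset.Ico M L, u a * u b * (if a + b = k then 1 else 0) := by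
  rw [One_S_sq _ (fun a ha => hM.trans (Finset.mem_Ico.1 ha).1)]
  have e : ∀ a b : ℕ, u a * u b * (1 / 4 * ((if a + k = b then 1 else 0) + (if b + k = a then 1 else 0) -
      (if a + b = k then 1 else 0))) = 1 / 4 * (u a * u b * (if a + k = b then 1 else 0)) +
      1 / 4 * (u a * u b * (if b + k = a then 1 else 0)) -
      1 / 4 * (u a * u b * (if a + b = k then 1 else 0)) := fun a b => by ring
  simp only [e, Finset.sum_sub_distrib, Finset.sum_add_distrib, ← Finset.mul_sum]
  rw [One_cnt1, One_cnt2]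
  ring

theorem One_C_gen (M L k : ℕ) (u : ℕ → ℝ) (hM : 1 ≤ M) :
    i1 (fun s => One_C (Finset.Ico M L) u s ^ 2 * cs k s) =
      1 / 2 * ∑ a ∈ Finset.Ico M (L - k), u a * u (a + k) +
        1 / 4 * ∑ a ∈ Finset.Ico M L, ∑ b ∈ Finset.Ico M L, u a * u b * (if a + b = k then 1 else 0) := by
  rw [One_C_sq _ (fun a ha => hM.trans (Finset.mem_Ico.1 ha).1)]
  have e : ∀ a b : ℕ, u a * u b * (1 / 4 * ((if a + k = b then 1 else 0) + (if b + k = a then 1 else 0) +
      (if a + b = k then 1 else 0))) = 1 / 4 * (u a * u b * (if a + k = b then 1 else 0)) +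
      1 / 4 * (u a * u b * (if b + k = a then 1 else 0)) +
      1 / 4 * (u a * u b * (if a + b = k then 1 else 0)) := fun a b => by ring
  simp only [e, Finset.sum_add_distrib, ← Finset.mul_sum]
  rw [One_cnt1, One_cnt2]
  ring

theorem One_S_low (M L k : ℕ) (u : ℕ → ℝ) (hM : 1 ≤ M) (hk : k < 2 * M) :
    i1 (fun s => One_S (Finset.Ico M L) u s ^ 2 * cs k s) =
      1 / 2 * ∑ a ∈ Finset.Ico M (L - k), u a * u (a + k) := by
  rw [One_S_gen M L k u hM, One_cnt3 M L k u hk]; ring

theorem One_C_low (M L k : ℕ) (u : ℕ → ℝ) (hM : 1 ≤ M) (hk : k < 2 * M) :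
    i1 (fun s => One_C (Finset.Ico M L) u s ^ 2 * cs k s) =
      1 / 2 * ∑ a ∈ Finset.Ico M (L - k), u a * u (a + k) := by
  rw [One_C_gen M L k u hM, One_cnt3 M L k u hk]; ring

theorem One_S_nrm (M L : ℕ) (u : ℕ → ℝ) (hM : 1 ≤ M) :
    i1 (fun s => One_S (Finset.Ico M L) u s ^ 2) = 1 / 2 * ∑ a ∈ Finset.Ico M L, u a ^ 2 := by
  have h := One_S_low M L 0 u hM (by omega)
  simp only [One_cs_zero, mul_one, add_zero, Nat.sub_zero] at h
  rw [h]
  congr 1
  exact Finset.sum_congr rfl fun a _ => (sq (u a)).symm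

theorem One_C_nrm (M L : ℕ) (u : ℕ → ℝ) (hM : 1 ≤ M) :
    i1 (fun s => One_C (Finset.Ico M L) u s ^ 2) = 1 / 2 * ∑ a ∈ Finset.Ico M L, u a ^ 2 := by
  have h := One_C_low M L 0 u hM (by omega)
  simp only [One_cs_zero, mul_one, add_zero, Nat.sub_zero] at h
  rw [h]
  congr 1
  exact Finset.sum_congr rfl fun a _ => (sq (u a)).symm

theorem One_S_high (M L k : ℕ) (u : ℕ → ℝ) (hM : 1 ≤ M) (hk : L ≤ M + k) :
    i1 (fun s => One_S (Finset.Ico M L) u s ^ 2 * cs k s) =
      -(1 / 4 * ∑ a ∈ Finset.Ico M L, ∑ b ∈ Finset.Ico M L, u a * u b * (if a + b = k then 1 else 0)) := by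
  rw [One_S_gen M L k u hM, Finset.Ico_eq_empty (by omega : ¬ M < L - k), Finset.sum_empty]; ring

theorem One_C_high (M L k : ℕ) (u : ℕ → ℝ) (hM : 1 ≤ M) (hk : L ≤ M + k) :
    i1 (fun s => One_C (Finset.Ico M L) u s ^ 2 * cs k s) =
      1 / 4 * ∑ a ∈ Finset.Ico M L, ∑ b ∈ Finset.Ico M L, u a * u b * (if a + b = k then 1 else 0) := by
  rw [One_C_gen M L k u hM, Finset.Ico_eq_empty (by omega : ¬ M < L - k), Finset.sum_empty]; ring

/-- bounds of sums -/
theorem One_le (M L : ℕ) (f : ℕ → ℝ) (c : ℝ) (hf : ∀ a ∈ Finset.Ico M L, f a ≤ c) :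
    ∑ a ∈ Finset.Ico M L, f a ≤ ((L - M : ℕ) : ℝ) * c := by
  have := Finset.sum_le_card_nsmul (Finset.Ico M L) f c hf
  rwa [Nat.card_Ico, nsmul_eq_mul] at this

theorem One_ge (M L : ℕ) (f : ℕ → ℝ) (c : ℝ) (hf : ∀ a ∈ Finset.Ico M L, c ≤ f a) :
    ((L - M : ℕ) : ℝ) * c ≤ ∑ a ∈ Finset.Ico M L, f a := by
  have := Finset.card_nsmul_le_sum (Finset.Ico M L) f c hf
  rwa [Nat.card_Ico, nsmul_eq_mul] at this

/-! ### Smoothness -/

theorem One_p1_sn (k : ℕ) : P1 (sn k) where
  smooth := by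
    unfold sn
    exact Real.contDiff_sin.comp (contDiff_const.mul contDiff_id)
  per := by
    intro s
    unfold sn
    have : 2 * Real.pi * (k : ℝ) * (s + 1) = 2 * Real.pi * k * s + k * (2 * Real.pi) := by ring
    rw [this, Real.sin_add_nat_mul_two_pi]

theorem One_p1_cs (k : ℕ) : P1 (cs k) where
  smooth := by
    unfold cs
    exact Real.contDiff_cos.comp (contDiff_const.mul contDiff_id)
  per := by
    intro s
    unfold cs
    have : 2 * Real.pi * (k : ℝ) * (s + 1) = 2 * Real.pi * k * s + k * (2 * Real.pi) := by ring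
    rw [this, Real.cos_add_nat_mul_two_pi]

theorem One_p1_S (A : Finset ℕ) (u : ℕ → ℝ) : P1 (One_S A u) where
  smooth := by
    unfold One_S
    exact ContDiff.sum fun j _ => contDiff_const.mul (One_p1_sn j).smooth
  per := by
    intro s
    unfold One_S
    exact Finset.sum_congr rfl fun j _ => by rw [(One_p1_sn j).per]

theorem One_p1_C (A : Finset ℕ) (u : ℕ → ℝ) : P1 (One_C A u) where
  smooth := by
    unfold One_C
    exact ContDiff.sum fun j _ => contDiff_const.mul (One_p1_cs j).smooth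
  per := by
    intro s
    unfold One_C
    exact Finset.sum_congr rfl fun j _ => by rw [(One_p1_cs j).per]

theorem One_by_parts {f : ℝ → ℝ} (hf : P1 f) (k : ℕ) :
    i1 (fun s => f s * deriv f s * sn k s) = -(Real.pi * k) * i1 (fun s => f s ^ 2 * cs k s) := by
  have hd : Differentiable ℝ f := hf.smooth.differentiable (by simp)
  have hc : Continuous (deriv f) := hf.smooth.continuous_deriv (by simp)
  have hfc : Continuous f := hd.continuous
  have h1 : ∀ x ∈ uIcc (0 : ℝ) 1, HasDerivAt (sn k) (2 * Real.pi * k * cs k x) x := fun x _ => One_sn_der k x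
  have h2 : ∀ x ∈ uIcc (0 : ℝ) 1, HasDerivAt (fun s => f s ^ 2 / 2) (f x * deriv f x) x := by
    intro x _
    have := ((hd x).hasDerivAt.pow 2).div_const 2
    have e : f x * deriv f x = ((2 : ℕ) : ℝ) * f x ^ (2 - 1) * deriv f x / 2 := by push_cast; ring
    rw [e]
    exact this
  have h3 := intervalIntegral.integral_mul_deriv_eq_deriv_mul h1 h2
    ((continuous_const.mul (One_cs_cont k)).intervalIntegrable _ _) ((hfc.mul hc).intervalIntegrable _ _)
  have e1 : sn k 1 = 0 := by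
    have := (One_p1_sn k).per 0
    rw [zero_add] at this
    rw [this]; simp [sn]
  have e0 : sn k 0 = 0 := by simp [sn]
  rw [e1, e0, zero_mul, zero_mul, sub_zero, zero_sub] at h3
  have e3 : i1 (fun s => f s * deriv f s * sn k s) = ∫ x in (0 : ℝ)..1, sn k x * (f x * deriv f x) := by
    unfold i1
    congr 1
    funext x
    ring
  rw [e3, h3, ← One_i1_smul]
  unfold i1
  rw [← intervalIntegral.integral_neg]
  congr 1
  funext x
  ring

theorem One_card1 (N k : ℕ) (hk : k ≤ N) : ((2 * N - k - N : ℕ) : ℝ) = N - k := by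
  have : 2 * N - k - N = N - k := by omega
  rw [this, Nat.cast_sub hk]

theorem One_card2 (N k : ℕ) (hk : k ≤ N) : ((17 * N - k - 16 * N : ℕ) : ℝ) = N - k := by
  have : 17 * N - k - 16 * N = N - k := by omega
  rw [this, Nat.cast_sub hk]

theorem s_one : S_one where
  p1_sn := One_p1_sn
  p1_cs := One_p1_cs
  p1_F := fun N => by rw [One_F]; exact One_p1_S _ _
  p1_G := fun N => by rw [One_G]; exact One_p1_C _ _
  p1_H := fun N => by rw [One_H]; exact One_p1_S _ _
  dF := fun N s => by rw [One_dF]; rfl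
  dH := fun N s => by rw [One_dH]; simp [One_C]
  F2 := fun N k hk hkN => by
    rw [One_F, One_S_low _ _ _ _ (hk.trans hkN) (by omega)]
    simp only [mul_one, Finset.sum_const, Nat.card_Ico, nsmul_eq_mul]
    rw [One_card1 N k hkN]; ring
  G2 := fun N k hk hkN => by
    rw [One_G, One_C_low _ _ _ _ (hk.trans hkN) (by omega)]
    simp only [mul_one, Finset.sum_const, Nat.card_Ico, nsmul_eq_mul]
    rw [One_card1 N k hkN]; ring
  dH2 := fun N k hk hkN => by
    rw [One_dH, One_C_low _ _ _ _ (by omega) (by omega)]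
    simp only [mul_one, Finset.sum_const, Nat.card_Ico, nsmul_eq_mul]
    rw [One_card2 N k hkN]; ring
  dF2 := fun N k hk hkN => by
    rw [One_dF, One_C_low _ _ _ _ (hk.trans hkN) (by omega)]
    have hp := Real.pi_pos
    constructor
    · refine mul_nonneg (by norm_num) (Finset.sum_nonneg fun a _ => by positivity)
    · have h1 := One_le N (2 * N - k) (fun a => 2 * Real.pi * (a : ℝ) * (2 * Real.pi * ((a + k : ℕ) : ℝ)))
        ((2 * Real.pi * (2 * N)) ^ 2) (by
          intro a ha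
          rw [Finset.mem_Ico] at ha
          have q1 : (a : ℝ) ≤ 2 * N := by
            have : a ≤ 2 * N := by omega
            exact_mod_cast this
          have q2 : ((a + k : ℕ) : ℝ) ≤ 2 * N := by
            have : a + k ≤ 2 * N := by omega
            exact_mod_cast this
          rw [sq]
          exact mul_le_mul (mul_le_mul_of_nonneg_left q1 (by positivity))
            (mul_le_mul_of_nonneg_left q2 (by positivity)) (by positivity) (by positivity))
      rw [One_card1 N k hkN] at h1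
      linarith
  H2 := fun N k hk hkN => by
    rw [One_H, One_S_low _ _ _ _ (by omega) (by omega)]
    have hp := Real.pi_pos
    constructor
    · refine mul_nonneg (by norm_num) (Finset.sum_nonneg fun a _ => by positivity)
    · have h1 := One_le (16 * N) (17 * N - k) (fun a => 1 / (2 * Real.pi * (a : ℝ)) * (1 / (2 * Real.pi * ((a + k : ℕ) : ℝ))))
        (1 / (2 * Real.pi * (16 * N)) ^ 2) (by
          intro a ha
          rw [Finset.mem_Ico] at ha
          have hN : (0 : ℝ) < N := by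
            have : 0 < N := by omega
            exact_mod_cast this
          have q1 : (16 : ℝ) * N ≤ a := by
            have : 16 * N ≤ a := by omega
            exact_mod_cast this
          have q2 : (16 : ℝ) * N ≤ ((a + k : ℕ) : ℝ) := by
            have : 16 * N ≤ a + k := by omega
            exact_mod_cast this
          rw [sq, one_div_mul_one_div]
          refine one_div_le_one_div_of_le (by positivity) ?_
          exact mul_le_mul (mul_le_mul_of_nonneg_left q1 (by positivity))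
            (mul_le_mul_of_nonneg_left q2 (by positivity)) (by positivity) (by positivity))
      rw [One_card2 N k hkN] at h1
      have e : (((N : ℝ) - k) / 2) / (2 * Real.pi * (16 * N)) ^ 2 =
        1 / 2 * (((N : ℝ) - k) * (1 / (2 * Real.pi * (16 * N)) ^ 2)) := by ring
      rw [e]
      exact mul_le_mul_of_nonneg_left h1 (by norm_num)
  by_parts := fun hf k => One_by_parts hf k
  nF := fun N hN => by
    rw [One_F, One_S_nrm _ _ _ hN]
    have := One_card1 N 0 (Nat.zero_le _)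
    simp only [Nat.sub_zero, Nat.cast_zero, sub_zero] at this
    simp only [one_pow, Finset.sum_const, Nat.card_Ico, nsmul_eq_mul, mul_one]
    rw [this]; ring
  nG := fun N hN => by
    rw [One_G, One_C_nrm _ _ _ hN]
    have := One_card1 N 0 (Nat.zero_le _)
    simp only [Nat.sub_zero, Nat.cast_zero, sub_zero] at this
    simp only [one_pow, Finset.sum_const, Nat.card_Ico, nsmul_eq_mul, mul_one]
    rw [this]; ring
  ndH := fun N hN => by
    rw [One_dH, One_C_nrm _ _ _ (by omega)]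
    have := One_card2 N 0 (Nat.zero_le _)
    simp only [Nat.sub_zero, Nat.cast_zero, sub_zero] at this
    simp only [one_pow, Finset.sum_const, Nat.card_Ico, nsmul_eq_mul, mul_one]
    rw [this]; ring
  ndF := fun N hN => by
    rw [One_dF, One_C_nrm _ _ _ hN]
    have hp := Real.pi_pos
    have h1 := One_le N (2 * N) (fun a => (2 * Real.pi * (a : ℝ)) ^ 2)
      ((2 * Real.pi * (2 * N)) ^ 2) (by
        intro a ha
        rw [Finset.mem_Ico] at ha
        have q1 : (a : ℝ) ≤ 2 * N := by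
          have : a ≤ 2 * N := by omega
          exact_mod_cast this
        exact pow_le_pow_left₀ (by positivity) (mul_le_mul_of_nonneg_left q1 (by positivity)) 2)
    have := One_card1 N 0 (Nat.zero_le _)
    simp only [Nat.sub_zero, Nat.cast_zero, sub_zero] at this
    rw [this] at h1
    linarith
  ndG := fun N hN => by
    rw [One_dG, One_S_nrm _ _ _ hN]
    have hp := Real.pi_pos
    have h1 := One_le N (2 * N) (fun a => (-(2 * Real.pi * (a : ℝ))) ^ 2)
      ((2 * Real.pi * (2 * N)) ^ 2) (by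
        intro a ha
        rw [Finset.mem_Ico] at ha
        have q1 : (a : ℝ) ≤ 2 * N := by
          have : a ≤ 2 * N := by omega
          exact_mod_cast this
        simp only [neg_sq]
        exact pow_le_pow_left₀ (by positivity) (mul_le_mul_of_nonneg_left q1 (by positivity)) 2)
    have := One_card1 N 0 (Nat.zero_le _)
    simp only [Nat.sub_zero, Nat.cast_zero, sub_zero] at this
    rw [this] at h1
    linarith
  nddF := fun N hN => by
    rw [One_ddF, One_S_nrm _ _ _ hN]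
    have hp := Real.pi_pos
    have h1 := One_le N (2 * N) (fun a => (-((2 * Real.pi * (a : ℝ)) ^ 2)) ^ 2)
      ((2 * Real.pi * (2 * N)) ^ 4) (by
        intro a ha
        rw [Finset.mem_Ico] at ha
        have q1 : (a : ℝ) ≤ 2 * N := by
          have : a ≤ 2 * N := by omega
          exact_mod_cast this
        simp only [neg_sq, ← pow_mul]
        exact pow_le_pow_left₀ (by positivity) (mul_le_mul_of_nonneg_left q1 (by positivity)) 4)
    have := One_card1 N 0 (Nat.zero_le _)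
    simp only [Nat.sub_zero, Nat.cast_zero, sub_zero] at this
    rw [this] at h1
    linarith
  nH := fun N hN => by
    rw [One_H, One_S_nrm _ _ _ (by omega)]
    have hp := Real.pi_pos
    have hN0 : (0 : ℝ) < N := by exact_mod_cast hN
    have h1 := One_le (16 * N) (17 * N) (fun a => (1 / (2 * Real.pi * (a : ℝ))) ^ 2)
      (1 / (2 * Real.pi * (16 * N)) ^ 2) (by
        intro a ha
        rw [Finset.mem_Ico] at ha
        have q1 : (16 : ℝ) * N ≤ a := by
          have : 16 * N ≤ a := by omega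
          exact_mod_cast this
        simp only [div_pow, one_pow]
        refine one_div_le_one_div_of_le (by positivity) ?_
        exact pow_le_pow_left₀ (by positivity) (mul_le_mul_of_nonneg_left q1 (by positivity)) 2)
    have := One_card2 N 0 (Nat.zero_le _)
    simp only [Nat.sub_zero, Nat.cast_zero, sub_zero] at this
    rw [this] at h1
    have e : ((N : ℝ) / 2) / (2 * Real.pi * (16 * N)) ^ 2 =
      1 / 2 * ((N : ℝ) * (1 / (2 * Real.pi * (16 * N)) ^ 2)) := by ring
    rw [e]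
    exact mul_le_mul_of_nonneg_left h1 (by norm_num)
  nddH := fun N hN => by
    rw [One_ddH, One_S_nrm _ _ _ (by omega)]
    have hp := Real.pi_pos
    have := One_card2 N 0 (Nat.zero_le _)
    simp only [Nat.sub_zero, Nat.cast_zero, sub_zero] at this
    constructor
    · have h1 := One_ge (16 * N) (17 * N) (fun a => (-(2 * Real.pi * (a : ℝ))) ^ 2)
        ((2 * Real.pi * (16 * N)) ^ 2) (by
          intro a ha
          rw [Finset.mem_Ico] at ha
          have q1 : (16 : ℝ) * N ≤ a := by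
            have : 16 * N ≤ a := by omega
            exact_mod_cast this
          simp only [neg_sq]
          exact pow_le_pow_left₀ (by positivity) (mul_le_mul_of_nonneg_left q1 (by positivity)) 2)
      rw [this] at h1
      linarith
    · have h1 := One_le (16 * N) (17 * N) (fun a => (-(2 * Real.pi * (a : ℝ))) ^ 2)
        ((2 * Real.pi * (17 * N)) ^ 2) (by
          intro a ha
          rw [Finset.mem_Ico] at ha
          have q1 : (a : ℝ) ≤ 17 * N := by
            have : a ≤ 17 * N := by omega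
            exact_mod_cast this
          simp only [neg_sq]
          exact pow_le_pow_left₀ (by positivity) (mul_le_mul_of_nonneg_left q1 (by positivity)) 2)
      rw [this] at h1
      linarith
  pF := fun N hN => by
    have e : 4 * N - 3 = 2 * (2 * N) - 3 := by omega
    rw [One_F, One_S_high _ _ _ _ (by omega) (by omega), e, One_top2 _ _ _ (by omega)]
    norm_num
  pdF := fun N hN => by
    have e : 4 * N - 3 = 2 * (2 * N) - 3 := by omega
    rw [One_dF, One_C_high _ _ _ _ (by omega) (by omega), e, One_top2 _ _ _ (by omega)]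
    have e1 : ((2 * N - 1 : ℕ) : ℝ) = 2 * N - 1 := by
      rw [Nat.cast_sub (by omega)]; push_cast; ring
    have e2 : ((2 * N - 2 : ℕ) : ℝ) = 2 * N - 2 := by
      rw [Nat.cast_sub (by omega)]; push_cast; ring
    rw [e1, e2]
    ring
  pG := fun N hN => by
    have e : 4 * N - 2 = 2 * (2 * N - 1) := by omega
    rw [One_G, One_C_high _ _ _ _ (by omega) (by omega), e, One_top _ _ _ (by omega)]
    norm_num
  pdH := fun N hN => by
    rw [One_dH, One_C_high _ _ _ _ (by omega) (by omega), One_top _ _ _ (by omega)]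
    norm_num
  pH := fun N hN => by
    rw [One_H, One_S_high _ _ _ _ (by omega) (by omega), One_top _ _ _ (by omega)]
    have e1 : ((17 * N - 1 : ℕ) : ℝ) = 17 * N - 1 := by
      rw [Nat.cast_sub (by omega)]; push_cast; ring
    rw [e1]
    have h2 : (0 : ℝ) < 17 * N - 1 := by
      have : (2 : ℝ) ≤ N := by exact_mod_cast hN
      linarith
    have hp := Real.pi_pos
    field_simp

end Pool.Agent.H226.GB

end
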