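import Pool.Agent.H226.GM.S

/-! ## Plan -/

section

/-!
# GB13 Plan (helper183): the perturbed planar amplifier `x' = - c y²`, `y' = c x y`
-/

set_option autoImplicit false

open Set Real

namespace Pool.Agent.H226.GB

lemma plan_mono {a b : ℝ} {f f' : ℝ → ℝ} (hc : ContinuousOn f (Icc a b))
    (hd : ∀ t ∈ Ioo a b, HasDerivAt f (f' t) t) (h : ∀ t ∈ Ioo a b, 0 ≤ f' t) {u v : ℝ}
    (hu : u ∈ Icc a b) (hv : v ∈ Icc a b) (huv : u ≤ v) : f u ≤ f v := by
  refine monotoneOn_of_deriv_nonneg (convex_Icc a b) hc ?_ ?_ hu hv huv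
  · rw [interior_Icc]
    exact fun t ht => (hd t ht).differentiableAt.differentiableWithinAt
  · rw [interior_Icc]
    intro t ht
    rw [(hd t ht).deriv]
    exact h t ht

lemma plan_exp {a b k : ℝ} {N N' : ℝ → ℝ} (hc : ContinuousOn N (Icc a b))
    (hd : ∀ t ∈ Ioo a b, HasDerivAt N (N' t) t) (h : ∀ t ∈ Ioo a b, 0 ≤ N' t + k * N t) {v : ℝ}
    (hv : v ∈ Icc a b) : N a ≤ N v * Real.exp (k * (v - a)) := by
  have hdl : ∀ r : ℝ, HasDerivAt (fun r => Real.exp (k * (r - a)))
      (Real.exp (k * (r - a)) * k) r := by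
    intro r
    have h1 : HasDerivAt (fun r => k * (r - a)) k r := by
      have h2 := ((hasDerivAt_id r).sub_const a).const_mul k
      rwa [mul_one] at h2
    exact h1.exp
  have hce : ContinuousOn (fun r => Real.exp (k * (r - a))) (Icc a b) := fun r _ =>
    (hdl r).continuousAt.continuousWithinAt
  have hm := plan_mono (hc.mul hce) (fun r hr => (hd r hr).mul (hdl r)) (fun r hr => by
    have e : N' r * Real.exp (k * (r - a)) + N r * (Real.exp (k * (r - a)) * k) =
        Real.exp (k * (r - a)) * (N' r + k * N r) := by ring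
    rw [e]
    exact mul_nonneg (Real.exp_pos _).le (h r hr)) ⟨le_rfl, hv.1.trans hv.2⟩ hv hv.1
  simp only [Pi.mul_apply, sub_self, mul_zero, Real.exp_zero, mul_one] at hm
  exact hm

section
variable {x y x' y' I : ℝ → ℝ} {c lam P α D X t0 s : ℝ}

lemma plan_Xpos (h : PlanHyp x y x' y' I c lam P α D X t0 s) : 0 < X := h.α0.trans_le h.αX

/-- a linear function of the time is small -/
lemma plan_time (h : PlanHyp x y x' y' I c lam P α D X t0 s) {k : ℝ} (_ : 0 ≤ k) (hk : k ≤ 4)
    {u v : ℝ} (hu : u ∈ Icc t0 s) (hv : v ∈ Icc t0 s) (huv : u ≤ v) :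
    k * lam * (v - u) ≤ 1 / 2 ^ 31 := by
  have h1 : v - u ≤ D := by
    have h5 := h.sD
    have h6 := hu.1
    have h7 := hv.2
    linarith only [h5, h6, h7]
  have h2 : 0 ≤ v - u := sub_nonneg.2 huv
  have h3 : 0 < lam := by linarith [h.lam1]
  refine le_trans ?_ h.lamD
  have h4 : k * lam ≤ 4 * lam := mul_le_mul_of_nonneg_right hk h3.le
  exact mul_le_mul h4 h1 h2 (by positivity)

/-- the derivative of `N` -/
lemma plan_dN (h : PlanHyp x y x' y' I c lam P α D X t0 s) {t : ℝ} (ht : t ∈ Ioo t0 s) :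
    |2 * x t * x' t + 2 * y t * y' t| ≤ 4 * lam * (x t ^ 2 + y t ^ 2 + α ^ 2) := by
  have ht' := Ioo_subset_Icc_self ht
  have h1 := h.hx t ht
  have h2 := h.hy1 t ht
  have h3 := h.hy2 t ht
  have hx0 := h.xn t ht'
  have hy0 := h.yn t ht'
  have hl : 0 < lam := by linarith [h.lam1]
  have hP := h.P0
  have hPα := h.Pα
  have hα := h.α0
  have e : 2 * x t * x' t + 2 * y t * y' t =
      2 * x t * (x' t + c * y t ^ 2) + 2 * y t * (y' t - c * x t * y t) := by ring
  have h4 : |y' t - c * x t * y t| ≤ lam * y t + P := by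
    rw [abs_le]
    constructor
    · linarith only [h2, hP]
    · linarith only [h3]
  have h5 : |2 * x t * (x' t + c * y t ^ 2)| ≤ 2 * x t * (lam * (x t + y t) + P) := by
    rw [abs_mul, abs_of_nonneg (by positivity : (0 : ℝ) ≤ 2 * x t)]
    exact mul_le_mul_of_nonneg_left h1 (by positivity)
  have h6 : |2 * y t * (y' t - c * x t * y t)| ≤ 2 * y t * (lam * y t + P) := by
    rw [abs_mul, abs_of_nonneg (by positivity : (0 : ℝ) ≤ 2 * y t)]
    exact mul_le_mul_of_nonneg_left h4 (by positivity)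
  rw [e]
  refine (abs_add_le _ _).trans ((add_le_add h5 h6).trans ?_)
  have h7 : 2 * P * (x t + y t) ≤ α * lam * (x t + y t) :=
    mul_le_mul_of_nonneg_right (by linarith only [hPα]) (add_nonneg hx0 hy0)
  have h8 : α * (x t + y t) ≤ x t ^ 2 + y t ^ 2 + α ^ 2 / 2 := by
    have e8 : x t ^ 2 + y t ^ 2 + α ^ 2 / 2 - α * (x t + y t) =
        (x t - α / 2) ^ 2 + (y t - α / 2) ^ 2 := by ring
    rw [← sub_nonneg, e8]
    exact add_nonneg (sq_nonneg _) (sq_nonneg _)
  have h9 : α * lam * (x t + y t) ≤ lam * (x t ^ 2 + y t ^ 2 + α ^ 2 / 2) := by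
    calc α * lam * (x t + y t) = lam * (α * (x t + y t)) := by ring
      _ ≤ _ := mul_le_mul_of_nonneg_left h8 hl.le
  have h10 : lam * (2 * (x t * y t)) ≤ lam * (x t ^ 2 + y t ^ 2) :=
    mul_le_mul_of_nonneg_left (by
      rw [← mul_assoc]
      exact two_mul_le_add_sq (x t) (y t)) hl.le
  have h11 : 0 ≤ lam * α ^ 2 := mul_nonneg hl.le (sq_nonneg α)
  linarith only [h7, h9, h10, h11]

/-- the function `N + α²` changes little -/
lemma plan_M (h : PlanHyp x y x' y' I c lam P α D X t0 s) {t : ℝ} (ht : t ∈ Icc t0 s) :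
    (1 - 1 / 2 ^ 31) * (x t ^ 2 + y t ^ 2 + α ^ 2) ≤ x t0 ^ 2 + y t0 ^ 2 + α ^ 2 ∧
    (1 - 1 / 2 ^ 31) * (x t0 ^ 2 + y t0 ^ 2 + α ^ 2) ≤ x t ^ 2 + y t ^ 2 + α ^ 2 := by
  have ht0 : t0 ∈ Icc t0 s := ⟨le_refl _, h.ts⟩
  have hl : 0 < lam := by linarith [h.lam1]
  have hcx := h.cx
  have hcy := h.cy
  have htime := plan_time h (k := 4) (by norm_num) le_rfl ht0 ht ht.1
  have hexp : 1 - 1 / 2 ^ 31 ≤ Real.exp (-(4 * lam * (t - t0))) := by
    have := Real.add_one_le_exp (-(4 * lam * (t - t0)))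
    linarith only [this, htime]
  have hdN : ∀ r ∈ Ioo t0 s, HasDerivAt (fun r => x r ^ 2 + y r ^ 2 + α ^ 2)
      (2 * x r * x' r + 2 * y r * y' r) r := by
    intro r hr
    have h1 := (((h.dx r hr).pow 2).add ((h.dy r hr).pow 2)).add_const (α ^ 2)
    refine h1.congr_deriv ?_
    norm_num
  have hcN : ContinuousOn (fun r => x r ^ 2 + y r ^ 2 + α ^ 2) (Icc t0 s) :=
    ((hcx.pow 2).add (hcy.pow 2)).add continuousOn_const
  constructor
  · have hm := plan_exp (k := -(4 * lam)) hcN.neg (fun r hr => (hdN r hr).neg) (fun r hr => by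
      have h1 := (abs_le.1 (plan_dN h hr)).2
      simp only [Pi.neg_apply]
      linarith only [h1]) ht
    simp only [Pi.neg_apply] at hm
    have e2 : -(4 * lam) * (t - t0) = -(4 * lam * (t - t0)) := neg_mul _ _
    rw [e2] at hm
    have h3 : 0 ≤ x t ^ 2 + y t ^ 2 + α ^ 2 := by positivity
    have h4 := mul_le_mul_of_nonneg_left hexp h3
    linarith only [hm, h4]
  · have hm := plan_exp (k := 4 * lam) hcN hdN (fun r hr => by
      have h1 := (abs_le.1 (plan_dN h hr)).1
      linarith only [h1]) ht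
    have h3 : 0 ≤ x t0 ^ 2 + y t0 ^ 2 + α ^ 2 := by positivity
    have h4 := mul_le_mul_of_nonneg_right hexp h3
    have h5 := mul_le_mul_of_nonneg_right hm (Real.exp_pos (-(4 * lam * (t - t0)))).le
    have e2 : (x t ^ 2 + y t ^ 2 + α ^ 2) * Real.exp (4 * lam * (t - t0)) *
        Real.exp (-(4 * lam * (t - t0))) = x t ^ 2 + y t ^ 2 + α ^ 2 := by
      rw [mul_assoc, ← Real.exp_add, add_neg_cancel, Real.exp_zero, mul_one]
    rw [e2] at h5
    linarith only [h4, h5]

/-- the bounds of `N` -/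
lemma plan_N (h : PlanHyp x y x' y' I c lam P α D X t0 s) {t : ℝ} (ht : t ∈ Icc t0 s) :
    X ^ 2 * (1 - 2 / 2 ^ 31) ≤ x t ^ 2 + y t ^ 2 ∧ x t ^ 2 + y t ^ 2 ≤ X ^ 2 * (1 + 6 / 2 ^ 31) := by
  obtain ⟨h1, h2⟩ := plan_M h ht
  have hX := plan_Xpos h
  have hα := h.α0
  have h3 := h.y0
  have h4 : α ^ 2 ≤ X ^ 2 := pow_le_pow_left₀ hα.le h.αX 2
  have h5 : 0 ≤ y t0 ^ 2 := sq_nonneg _
  rw [h.x0] at h1 h2
  constructor
  · linarith only [h2, h4, h5]
  · have h6 : (1 - 1 / 2 ^ 31) * (x t ^ 2 + y t ^ 2) ≤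
        (1 - 1 / 2 ^ 31) * (X ^ 2 * (1 + 6 / 2 ^ 31)) := by
      linarith only [h1, h3, h4, h5]
    exact le_of_mul_le_mul_left h6 (by norm_num)

/-- simple consequences -/
lemma plan_bd (h : PlanHyp x y x' y' I c lam P α D X t0 s) {t : ℝ} (ht : t ∈ Icc t0 s) :
    x t ≤ 101 / 100 * X ∧ y t ≤ 101 / 100 * X ∧ 9 / 10 * X ≤ x t + y t ∧
      x t + y t ≤ 3 / 2 * X ∧ x t + 2 * y t ≤ 5 / 2 * X := by
  obtain ⟨h1, h2⟩ := plan_N h ht
  have hX := plan_Xpos h
  have hx0 := h.xn t ht
  have hy0 := h.yn t ht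
  have hXX : 0 < X ^ 2 := by positivity
  refine ⟨?_, ?_, ?_, ?_, ?_⟩
  · exact abs_le_of_sq_le_sq' (by linarith only [h2, sq_nonneg (y t), hXX])
      (mul_nonneg (by norm_num) hX.le) |>.2
  · exact abs_le_of_sq_le_sq' (by linarith only [h2, sq_nonneg (x t), hXX])
      (mul_nonneg (by norm_num) hX.le) |>.2
  · exact abs_le_of_sq_le_sq' (by linarith only [h1, mul_nonneg hx0 hy0, hXX])
      (add_nonneg hx0 hy0) |>.2
  · exact abs_le_of_sq_le_sq' (by linarith only [h2, sq_nonneg (x t - y t), hXX])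
      (mul_nonneg (by norm_num) hX.le) |>.2
  · exact abs_le_of_sq_le_sq' (by linarith only [h2, sq_nonneg (2 * x t - y t), hXX])
      (mul_nonneg (by norm_num) hX.le) |>.2

/-- the estimate for `y - x` -/
lemma plan_yx (h : PlanHyp x y x' y' I c lam P α D X t0 s) :
    9 / 10 * X * (c * (I s - I t0)) - X / 2 ^ 31 ≤ (y s - x s) - (y t0 - x t0) := by
  have hX := plan_Xpos h
  have hl : 0 < lam := by linarith [h.lam1]
  have ht0 : t0 ∈ Icc t0 s := ⟨le_refl _, h.ts⟩
  have hts : s ∈ Icc t0 s := ⟨h.ts, le_refl _⟩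
  have hcx := h.cx
  have hcy := h.cy
  have hcI := h.cI
  have hc0 := h.c0
  have hm := plan_mono (a := t0) (b := s)
    (f := fun r => (y r - x r) - 9 / 10 * X * c * I r + 3 * lam * X * r)
    (f' := fun r => (y' r - x' r) - 9 / 10 * X * c * y r + 3 * lam * X)
    (by fun_prop) (fun r hr => by
      have h1 := (((h.dy r hr).sub (h.dx r hr)).sub ((h.dI r hr).const_mul (9 / 10 * X * c))).add
        ((hasDerivAt_id r).const_mul (3 * lam * X))
      exact h1.congr_deriv (by rw [mul_one])) (by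
      intro r hr
      have hr' := Ioo_subset_Icc_self hr
      obtain ⟨b1, b2, b3, b4, b5⟩ := plan_bd h hr'
      have h1 := (abs_le.1 (h.hx r hr)).2
      have h2 := h.hy1 r hr
      have hy0 := h.yn r hr'
      have h3 : c * y r * (9 / 10 * X) ≤ c * y r * (x r + y r) :=
        mul_le_mul_of_nonneg_left b3 (by positivity)
      have h4 : lam * (x r + 2 * y r) ≤ lam * (5 / 2 * X) := mul_le_mul_of_nonneg_left b5 hl.le
      have h5 : P ≤ lam * X / 2 := by
        refine h.Pα.trans ?_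
        have := mul_le_mul_of_nonneg_right h.αX hl.le
        linarith only [this]
      linarith only [h1, h2, h3, h4, h5]) ht0 hts h.ts
  have htime := plan_time h (k := 3) (by norm_num) (by norm_num) ht0 hts h.ts
  have h6 : 3 * lam * (s - t0) * X ≤ 1 / 2 ^ 31 * X := mul_le_mul_of_nonneg_right htime hX.le
  linarith only [hm, h6]

/-- positivity of `y` -/
lemma plan_ypos (h : PlanHyp x y x' y' I c lam P α D X t0 s) {t : ℝ} (ht : t ∈ Icc t0 s) :
    0 < y t := by
  have ht0 : t0 ∈ Icc t0 s := ⟨le_refl _, h.ts⟩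
  have hcy := h.cy
  have hm := plan_exp (k := lam) hcy h.dy (fun r hr => by
      have hr' := Ioo_subset_Icc_self hr
      have h2 := h.hy1 r hr
      have h3 : 0 ≤ c * x r * y r :=
        mul_nonneg (mul_nonneg h.c0.le (h.xn r hr')) (h.yn r hr')
      linarith only [h2, h3]) ht
  have h1 : 0 < y t * Real.exp (lam * (t - t0)) := h.y00.trans_le hm
  exact (mul_pos_iff_of_pos_right (Real.exp_pos _)).1 h1

/-- the estimate for `log y - x / X` -/
lemma plan_log (h : PlanHyp x y x' y' I c lam P α D X t0 s) :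
    9 / 10 * c * X * (s - t0) ≤ 2 - Real.log (y t0) := by
  have hX := plan_Xpos h
  have hl : 0 < lam := by linarith [h.lam1]
  have ht0 : t0 ∈ Icc t0 s := ⟨le_refl _, h.ts⟩
  have hts : s ∈ Icc t0 s := ⟨h.ts, le_refl _⟩
  have hcx := h.cx
  have hcy := h.cy
  have hc0 := h.c0
  have hcl : ContinuousOn (fun r => Real.log (y r)) (Icc t0 s) :=
    hcy.log fun r hr => (plan_ypos h hr).ne'
  have hm := plan_mono (a := t0) (b := s)
    (f := fun r => Real.log (y r) - x r / X - (9 / 10 * c * X - 3 * lam) * r)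
    (f' := fun r => y' r / y r - x' r / X - (9 / 10 * c * X - 3 * lam))
    ((hcl.sub (hcx.div_const X)).sub (by fun_prop)) (fun r hr => by
      have hr' := Ioo_subset_Icc_self hr
      have h1 := (((h.dy r hr).log (plan_ypos h hr').ne').sub ((h.dx r hr).div_const X)).sub
        ((hasDerivAt_id r).const_mul (9 / 10 * c * X - 3 * lam))
      exact h1.congr_deriv (by rw [mul_one])) (by
      intro r hr
      have hr' := Ioo_subset_Icc_self hr
      obtain ⟨b1, b2, b3, b4, b5⟩ := plan_bd h hr'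
      obtain ⟨n1, n2⟩ := plan_N h hr'
      have hy0 := plan_ypos h hr'
      have hx0 := h.xn r hr'
      have h1 := (abs_le.1 (h.hx r hr)).2
      have h2 := h.hy1 r hr
      have h3 : c * x r - lam ≤ y' r / y r := by
        rw [le_div_iff₀ hy0]
        linarith only [h2]
      have h5 : P ≤ lam * X / 2 := by
        refine h.Pα.trans ?_
        have := mul_le_mul_of_nonneg_right h.αX hl.le
        linarith only [this]
      have h4 : lam * (x r + y r) ≤ lam * (3 / 2 * X) := mul_le_mul_of_nonneg_left b4 hl.le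
      have h6 : x' r ≤ -(c * y r ^ 2) + 2 * lam * X := by linarith only [h1, h4, h5]
      have h7 : x' r / X ≤ -(c * y r ^ 2) / X + 2 * lam := by
        rw [div_le_iff₀ hX]
        have e : (-(c * y r ^ 2) / X + 2 * lam) * X = -(c * y r ^ 2) + 2 * lam * X := by
          rw [add_mul, div_mul_cancel₀ _ hX.ne']
        rw [e]
        exact h6
      have h8 : 9 / 10 * X ≤ x r + y r ^ 2 / X := by
        have e : x r + y r ^ 2 / X = (x r * X + y r ^ 2) / X := by
          rw [add_div, mul_div_cancel_right₀ _ hX.ne']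
        rw [e, le_div_iff₀ hX]
        have h9 : x r * x r ≤ 101 / 100 * X * x r := mul_le_mul_of_nonneg_right b1 hx0
        have hXX : 0 < X ^ 2 := by positivity
        linarith only [h9, n1, hXX, sq_nonneg (y r)]
      have h9 : c * (9 / 10 * X) ≤ c * (x r + y r ^ 2 / X) := mul_le_mul_of_nonneg_left h8 hc0.le
      have e : -(c * y r ^ 2) / X = -(c * (y r ^ 2 / X)) := by ring
      rw [e] at h7
      linarith only [h3, h7, h9]) ht0 hts h.ts
  have htime := plan_time h (k := 3) (by norm_num) (by norm_num) ht0 hts h.ts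
  have hys := (plan_bd h hts).2.1
  have hys0 := plan_ypos h hts
  have hxs := h.xn s hts
  have h1 : Real.log (y s) ≤ 71 / 100 := by
    have h2 : y s ≤ 2 * (101 / 100) := by
      have := h.X2
      linarith only [this, hys]
    have h3 : Real.log (y s) ≤ Real.log (2 * (101 / 100)) := Real.log_le_log hys0 h2
    have h4 : Real.log (2 * (101 / 100)) = Real.log 2 + Real.log (101 / 100) :=
      Real.log_mul (by norm_num) (by norm_num)
    have h5 : Real.log (101 / 100) ≤ 101 / 100 - 1 := Real.log_le_sub_one_of_pos (by norm_num)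
    have h6 := Real.log_two_lt_d9
    linarith only [h3, h4, h5, h6]
  have h2 : x t0 / X = 1 := by
    rw [h.x0]
    exact div_self hX.ne'
  have h3 : 0 ≤ x s / X := by positivity
  rw [h2] at hm
  linarith only [hm, h1, h3, htime]

/-- the loss of `x` -/
lemma plan_x (h : PlanHyp x y x' y' I c lam P α D X t0 s) {u v : ℝ} (hu : u ∈ Icc t0 s)
    (hv : v ∈ Icc t0 s) (huv : u ≤ v) :
    x u - x v ≤ 101 / 100 * X * c * (I v - I u) + X / 2 ^ 31 := by
  have hX := plan_Xpos h
  have hl : 0 < lam := by linarith [h.lam1]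
  have hcx := h.cx
  have hcI := h.cI
  have hc0 := h.c0
  have hm := plan_mono (a := t0) (b := s)
    (f := fun r => x r + 101 / 100 * X * c * I r + 2 * lam * X * r)
    (f' := fun r => x' r + 101 / 100 * X * c * y r + 2 * lam * X)
    (by fun_prop) (fun r hr => by
      have h1 := ((h.dx r hr).add ((h.dI r hr).const_mul (101 / 100 * X * c))).add
        ((hasDerivAt_id r).const_mul (2 * lam * X))
      exact h1.congr_deriv (by rw [mul_one])) (by
      intro r hr
      have hr' := Ioo_subset_Icc_self hr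
      obtain ⟨b1, b2, b3, b4, b5⟩ := plan_bd h hr'
      have h1 := (abs_le.1 (h.hx r hr)).1
      have hy0 := h.yn r hr'
      have h5 : P ≤ lam * X / 2 := by
        refine h.Pα.trans ?_
        have := mul_le_mul_of_nonneg_right h.αX hl.le
        linarith only [this]
      have h4 : lam * (x r + y r) ≤ lam * (3 / 2 * X) := mul_le_mul_of_nonneg_left b4 hl.le
      have h6 : c * y r * y r ≤ c * y r * (101 / 100 * X) :=
        mul_le_mul_of_nonneg_left b2 (by positivity)
      linarith only [h1, h4, h5, h6]) hu hv huv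
  have htime := plan_time h (k := 2) (by norm_num) (by norm_num) hu hv huv
  have h6 : 2 * lam * (v - u) * X ≤ 1 / 2 ^ 31 * X := mul_le_mul_of_nonneg_right htime hX.le
  linarith only [hm, h6]

end

theorem s_plan : S_plan := by
  intro x y x' y' I c lam P α D X t0 s h
  have hX := plan_Xpos h
  have hts : s ∈ Icc t0 s := ⟨h.ts, le_refl _⟩
  have ht0 : t0 ∈ Icc t0 s := ⟨le_refl _, h.ts⟩
  have hyx := plan_yx h
  have hXX : 0 < X ^ 2 := by positivity
  refine ⟨?_, ?_, ?_, plan_log h, fun u hu v hv huv => plan_x h hu hv huv⟩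
  · intro t ht
    obtain ⟨h1, h2⟩ := plan_N h ht
    exact ⟨by linarith only [h1, hXX], h2⟩
  · have h1 := (plan_bd h hts).2.1
    have h2 := h.xn s hts
    have h3 := h.y00
    have h4 := h.x0
    have h5 : 9 / 10 * X * (c * (I s - I t0)) ≤ 9 / 10 * X * (9 / 4) := by
      linarith only [hyx, h1, h2, h3, h4, hX]
    exact le_of_mul_le_mul_left h5 (mul_pos (by norm_num) hX)
  · intro hθ
    by_contra hlt
    rw [not_le] at hlt
    have h1 : 9 / 10 * X * (1 / 2 ^ 26) ≤ 9 / 10 * X * (c * (I s - I t0)) :=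
      mul_le_mul_of_nonneg_left hθ (mul_nonneg (by norm_num) hX.le)
    have h3 := h.y00
    have h4 := h.x0
    have hys := h.yn s hts
    have hxs := h.xn s hts
    have h5 : x s ≤ X * (1 - 7 / 10 / 2 ^ 26) := by
      linarith only [hyx, h1, hlt, h3, h4, hX]
    have h6 : x s ^ 2 ≤ (X * (1 - 7 / 10 / 2 ^ 26)) ^ 2 := pow_le_pow_left₀ hxs h5 2
    have h7 : y s ^ 2 ≤ (X / 2 ^ 29) ^ 2 := pow_le_pow_left₀ hys hlt.le 2
    have h8 := (plan_N h hts).1
    have h9 : (X * (1 - 7 / 10 / 2 ^ 26)) ^ 2 + (X / 2 ^ 29) ^ 2 < X ^ 2 * (1 - 2 / 2 ^ 31) := by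
      have e : (X * (1 - 7 / 10 / 2 ^ 26)) ^ 2 + (X / 2 ^ 29) ^ 2 =
          X ^ 2 * ((1 - 7 / 10 / 2 ^ 26) ^ 2 + (1 / 2 ^ 29) ^ 2) := by ring
      rw [e]
      exact mul_lt_mul_of_pos_left (by norm_num) hXX
    linarith only [h6, h7, h8, h9]

end Pool.Agent.H226.GB

end

/-! ## Grow -/

section

/-!
GB14: growth of the next level (by helper385).
-/

open MeasureTheory Set Filter Topology

namespace Pool.Agent.H226.GB

theorem grow_mono {f f' : ℝ → ℝ} {a b : ℝ} (hf : ContinuousOn f (Icc a b))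
    (hd : ∀ t ∈ Ioo a b, HasDerivAt f (f' t) t) (h0 : ∀ t ∈ Ioo a b, 0 ≤ f' t) :
    MonotoneOn f (Icc a b) := by
  refine monotoneOn_of_hasDerivWithinAt_nonneg (convex_Icc a b) hf (f' := f') ?_ ?_
  · intro t ht
    rw [interior_Icc] at ht
    exact (hd t ht).hasDerivWithinAt
  · intro t ht
    rw [interior_Icc] at ht
    exact h0 t ht

theorem s_grow : S_grow := by
  intro x y z x' z' I c c1 E p err D t0 s1 s h01 h1s hsD hc hc1 hE hp herr cx cz cI dx dz dI
    hy hz hx' hz'
  have h0s : t0 ≤ s := h01.trans h1s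
  have hI : MonotoneOn I (Icc t0 s) :=
    grow_mono cI dI (fun t ht => hy t (Ioo_subset_Icc_self ht))
  have m0 : t0 ∈ Icc t0 s := ⟨le_rfl, h0s⟩
  have m1 : s1 ∈ Icc t0 s := ⟨h01, h1s⟩
  have ms : s ∈ Icc t0 s := ⟨h0s, le_rfl⟩
  rcases lt_or_ge (x t0 - x s1 - err * D) 0 with hneg | hpos
  · refine le_trans ?_ (hz s ms)
    refine mul_nonpos_of_nonpos_of_nonneg ?_ (Real.exp_pos _).le
    exact mul_nonpos_of_nonneg_of_nonpos (by positivity) hneg.le
  obtain ⟨Psi, hPsi⟩ : ∃ Psi : ℝ → ℝ, Psi = fun t => c1 * (I t - I t0) - E * (t - t0) := ⟨_, rfl⟩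
  have cPsi : ContinuousOn Psi (Icc t0 s) := by
    rw [hPsi]
    exact (continuousOn_const.mul (cI.sub continuousOn_const)).sub
      (continuousOn_const.mul (continuousOn_id.sub continuousOn_const))
  have dPsi : ∀ t ∈ Ioo t0 s, HasDerivAt Psi (c1 * y t - E) t := by
    intro t ht
    rw [hPsi]
    have h1 := (((dI t ht).sub_const (I t0)).const_mul c1).sub
      (((hasDerivAt_id t).sub_const t0).const_mul E)
    rw [mul_one] at h1
    exact h1
  obtain ⟨u, hu⟩ : ∃ u : ℝ → ℝ, u = fun t => z t * Real.exp (-Psi t) := ⟨_, rfl⟩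
  have cu : ContinuousOn u (Icc t0 s) := by
    rw [hu]
    exact cz.mul (Real.continuous_exp.comp_continuousOn cPsi.neg)
  have du : ∀ t ∈ Ioo t0 s, HasDerivAt u ((z' t - (c1 * y t - E) * z t) * Real.exp (-Psi t)) t := by
    intro t ht
    rw [hu]
    have h1 := (dz t ht).mul ((dPsi t ht).neg.exp)
    refine h1.congr_deriv ?_
    rw [Pi.neg_apply]
    ring
  have du0 : ∀ t ∈ Ioo t0 s, p * y t ^ 2 * Real.exp (-Psi t) ≤
      (z' t - (c1 * y t - E) * z t) * Real.exp (-Psi t) := by
    intro t ht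
    have h1 := hz' t ht
    exact mul_le_mul_of_nonneg_right (by linarith) (Real.exp_pos _).le
  have hmono : MonotoneOn u (Icc t0 s) := by
    refine grow_mono cu du fun t ht => le_trans ?_ (du0 t ht)
    positivity
  obtain ⟨J, hJ⟩ : ∃ J : ℝ, J = c1 * (I s1 - I t0) := ⟨_, rfl⟩
  obtain ⟨k, hk⟩ : ∃ k : ℝ, k = p / c * Real.exp (-J) := ⟨_, rfl⟩
  have hk0 : 0 ≤ k := by
    rw [hk]
    positivity
  -- the first part
  have hsub : Icc t0 s1 ⊆ Icc t0 s := Icc_subset_Icc_right h1s
  have hsub' : Ioo t0 s1 ⊆ Ioo t0 s := Ioo_subset_Ioo_right h1s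
  have hm1 : MonotoneOn (fun t => u t + k * x t + k * err * (t - t0)) (Icc t0 s1) := by
    refine grow_mono (f' := fun t => (z' t - (c1 * y t - E) * z t) * Real.exp (-Psi t) +
      k * x' t + k * err * 1) ?_ ?_ ?_
    · exact ((cu.mono hsub).add (continuousOn_const.mul (cx.mono hsub))).add
        (continuousOn_const.mul (continuousOn_id.sub continuousOn_const))
    · intro t ht
      exact ((du t (hsub' ht)).add ((dx t (hsub' ht)).const_mul k)).add
        (((hasDerivAt_id t).sub_const t0).const_mul (k * err))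
    · intro t ht
      have h1 := du0 t (hsub' ht)
      have h2 := hx' t (hsub' ht)
      have h3 : Real.exp (-J) ≤ Real.exp (-Psi t) := by
        apply Real.exp_le_exp.2
        have h4 : I t ≤ I s1 := hI (hsub (Ioo_subset_Icc_self ht)) m1 ht.2.le
        have h5 : c1 * (I t - I t0) ≤ J := by
          rw [hJ]
          exact mul_le_mul_of_nonneg_left (by linarith) hc1
        have h6 : 0 ≤ E * (t - t0) := mul_nonneg hE (by linarith [ht.1])
        rw [hPsi]
        simp only
        linarith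
      have h4 : p * y t ^ 2 * Real.exp (-J) ≤ p * y t ^ 2 * Real.exp (-Psi t) :=
        mul_le_mul_of_nonneg_left h3 (by positivity)
      have h5 : p * y t ^ 2 * Real.exp (-J) = k * (c * y t ^ 2) := by
        rw [hk]
        field_simp
      have h6 : k * (-(c * y t ^ 2) - err) ≤ k * x' t := mul_le_mul_of_nonneg_left h2 hk0
      nlinarith
  have h1 := hm1 ⟨le_rfl, h01⟩ ⟨h01, le_rfl⟩ h01
  simp only [sub_self, mul_zero, add_zero] at h1
  have hu0 : 0 ≤ u t0 := by
    rw [hu]
    exact mul_nonneg (hz t0 m0) (Real.exp_pos _).le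
  have h2 : k * (x t0 - x s1 - err * D) ≤ u s1 := by
    have h3 : k * err * (s1 - t0) ≤ k * err * D :=
      mul_le_mul_of_nonneg_left (by linarith) (by positivity)
    nlinarith
  have h3 : u s1 ≤ u s := hmono m1 ms h1s
  have h4 : z s = u s * Real.exp (Psi s) := by
    rw [hu]
    simp only
    rw [mul_assoc, ← Real.exp_add, neg_add_cancel, Real.exp_zero, mul_one]
  rw [h4]
  have h5 : k * (x t0 - x s1 - err * D) * Real.exp (Psi s) ≤ u s * Real.exp (Psi s) :=
    mul_le_mul_of_nonneg_right (h2.trans h3) (Real.exp_pos _).le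
  refine le_trans ?_ h5
  have h6 : k * (x t0 - x s1 - err * D) * Real.exp (Psi s) =
      p / c * (x t0 - x s1 - err * D) * Real.exp (-J + Psi s) := by
    rw [hk, Real.exp_add]
    ring
  rw [h6]
  refine mul_le_mul_of_nonneg_left ?_ (by positivity)
  apply Real.exp_le_exp.2
  have h7 : E * (s - t0) ≤ E * D := mul_le_mul_of_nonneg_left hsD hE
  rw [hPsi, hJ]
  simp only
  nlinarith

end Pool.Agent.H226.GB

end

/-! ## Low -/

section

/-!
The lower levels stay under control for a short time.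
-/

open MeasureTheory Set Filter Topology

namespace Pool.Agent.H226.GB

lemma Low_exp {x : ℝ} (hx : x ≤ 1 / 8) : Real.exp x ≤ 114 / 100 := by
  have h1 : Real.exp x ≤ Real.exp (1 / 8) := Real.exp_le_exp.mpr hx
  have h2 : Real.exp (1 / 8) ≤ 114 / 100 := by
    by_contra h
    push Not at h
    have h3 : (114 / 100 : ℝ) ^ 8 < Real.exp (1 / 8) ^ 8 := pow_lt_pow_left₀ h (by norm_num) (by norm_num)
    rw [← Real.exp_nat_mul] at h3
    have h4 : ((8 : ℕ) : ℝ) * (1 / 8) = 1 := by norm_num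
    rw [h4] at h3
    have h5 := Real.exp_one_lt_d9
    norm_num at h3
    linarith
  exact h1.trans h2

section

variable {c : ℕ → ℕ → ℝ} {G p ν : ℕ → ℝ} {T : ℝ} {a : ℕ → ℝ → ℝ} {S : ℝ → ℝ} {W : ℕ → ℝ → ℝ}

lemma Low_tl_cont (h : Sys0 c G p ν T a S W) (n : ℕ) : Continuous (tl a S n) := by
  unfold tl
  have h1 := h.contS
  have h2 := h.cont
  exact h1.sub (continuous_finsetSum _ fun j _ => (h2 j).pow 2)

/-- the energy decreases -/
lemma Low_en (h : Sys0 c G p ν T a S W) {t : ℝ} (ht : t ∈ Icc 0 T) : S t ≤ S 0 := by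
  have hd : ∀ s ∈ Ioo 0 t, HasDerivAt S (deriv S s) s ∧ deriv S s ≤ 0 := by
    intro s hs
    obtain ⟨S', hS', hL⟩ := h.en s ⟨hs.1, hs.2.trans_le ht.2⟩
    rw [hS'.deriv]
    refine ⟨hS', ?_⟩
    have := hL 0
    simpa using this
  have h1 := mono_of (f := fun s => -S s) (f' := fun s => -deriv S s) (s := 0) (t := t)
    h.contS.neg.continuousOn (fun s hs => (hd s hs).1.neg)
    (fun s hs => by have := (hd s hs).2; simpa using this) le_rfl ht.1 le_rfl
  simpa using h1

/-- Gronwall for the square root of the tail -/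
lemma Low_tl (h : Sys0 c G p ν T a S W) {B α Λ t : ℝ} {n l : ℕ} (ht : t ∈ Icc 0 T) (hα : 0 < α)
    (hΛ : 0 ≤ Λ) (hΛT : Λ * T ≤ 1 / 8) (hB : ∀ s ∈ Icc 0 T, S s ≤ B ^ 2)
    (hM : ∀ s ∈ Ioo 0 t, ∑ j ∈ Finset.range l, G j * |a j s| ≤ Λ) (hn : 1 ≤ n) (hnl : n ≤ l)
    (h0 : tl a S n 0 ≤ α ^ 2) :
    Real.sqrt (tl a S n t) ≤ 114 / 100 * (α + T * (p (n - 1) * B ^ 2)) := by
  obtain ⟨q, hq⟩ : ∃ q, q = p (n - 1) * B ^ 2 := ⟨_, rfl⟩
  rw [← hq]
  have hq0 : 0 ≤ q := by
    rw [hq]
    exact mul_nonneg (h.p0 _) (sq_nonneg _)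
  have key : ∀ η : ℝ, 0 < η → Real.sqrt (tl a S n t) ≤ 114 / 100 * (α + η + T * q) := by
    intro η hη
    have hpos : ∀ s ∈ Icc 0 T, 0 < tl a S n s + η ^ 2 := by
      intro s hs
      have := h.tl_nonneg hs n
      positivity
    have hcont : Continuous fun s => q * s - Real.exp (-(Λ * s)) * Real.sqrt (tl a S n s + η ^ 2) := by
      have h1 := Low_tl_cont h n
      fun_prop
    obtain ⟨D, hD⟩ : ∃ D : ℝ → ℝ, ∀ s ∈ Ioo 0 T, HasDerivAt (tl a S n) (D s) s ∧
        D s ≤ 2 * (∑ j ∈ Finset.range n, G j * |a j s|) * tl a S n s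
          + 2 * pm p a n s * |a n s| - 2 * ν n * tl a S n s := by
      classical
      refine ⟨fun s => if hs : s ∈ Ioo 0 T then (h.tl_der_le hs n).choose else 0, ?_⟩
      intro s hs
      simp only [dif_pos hs]
      exact (h.tl_der_le hs n).choose_spec
    have hmono := mono_of
      (f := fun s => q * s - Real.exp (-(Λ * s)) * Real.sqrt (tl a S n s + η ^ 2))
      (f' := fun s => q * 1 - (Real.exp (-(Λ * s)) * (-(Λ * 1)) * Real.sqrt (tl a S n s + η ^ 2) +
        Real.exp (-(Λ * s)) * (D s / (2 * Real.sqrt (tl a S n s + η ^ 2))))) (s := 0) (t := t)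
      hcont.continuousOn ?_ ?_ le_rfl ht.1 le_rfl
    · simp only [mul_zero, neg_zero, Real.exp_zero, one_mul, zero_sub] at hmono
      have hf0 : Real.sqrt (tl a S n 0 + η ^ 2) ≤ α + η := by
        apply Real.sqrt_le_iff.mpr
        constructor
        · positivity
        · nlinarith
      have h1 : Real.exp (-(Λ * t)) * Real.sqrt (tl a S n t + η ^ 2) ≤ α + η + q * t := by linarith
      have h2 : Real.sqrt (tl a S n t + η ^ 2) ≤ Real.exp (Λ * t) * (α + η + q * t) := by
        have h3 := mul_le_mul_of_nonneg_left h1 (Real.exp_pos (Λ * t)).le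
        rwa [← mul_assoc, ← Real.exp_add, add_neg_cancel, Real.exp_zero, one_mul] at h3
      have h4 : Real.exp (Λ * t) ≤ 114 / 100 := by
        apply Low_exp
        have := mul_le_mul_of_nonneg_left ht.2 hΛ
        linarith
      have h5 : q * t ≤ T * q := by
        have := mul_le_mul_of_nonneg_left ht.2 hq0
        linarith
      have h6 : 0 ≤ α + η + q * t := by
        have := mul_nonneg hq0 ht.1
        positivity
      calc Real.sqrt (tl a S n t) ≤ Real.sqrt (tl a S n t + η ^ 2) := by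
            apply Real.sqrt_le_sqrt
            nlinarith
        _ ≤ Real.exp (Λ * t) * (α + η + q * t) := h2
        _ ≤ 114 / 100 * (α + η + q * t) := mul_le_mul_of_nonneg_right h4 h6
        _ ≤ _ := by linarith
    · intro s hs
      have hsT : s ∈ Ioo 0 T := ⟨hs.1, hs.2.trans_le ht.2⟩
      have hs' : s ∈ Icc 0 T := ⟨hsT.1.le, hsT.2.le⟩
      have d1 : HasDerivAt (fun s : ℝ => Real.sqrt (tl a S n s + η ^ 2))
          (D s / (2 * Real.sqrt (tl a S n s + η ^ 2))) s :=
        ((hD s hsT).1.add_const _).sqrt (hpos s hs').ne'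
      have d2 : HasDerivAt (fun s : ℝ => Real.exp (-(Λ * s))) (Real.exp (-(Λ * s)) * (-(Λ * 1))) s :=
        (((hasDerivAt_id s).const_mul Λ).neg).exp
      exact ((hasDerivAt_id s).const_mul q).sub (d2.mul d1)
    · intro s hs
      have hsT : s ∈ Ioo 0 T := ⟨hs.1, hs.2.trans_le ht.2⟩
      have hs' : s ∈ Icc 0 T := ⟨hsT.1.le, hsT.2.le⟩
      obtain ⟨f, hf⟩ : ∃ f, f = Real.sqrt (tl a S n s + η ^ 2) := ⟨_, rfl⟩
      have hf0 : 0 < f := by
        rw [hf]
        exact Real.sqrt_pos.mpr (hpos s hs')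
      have hf2 : f ^ 2 = tl a S n s + η ^ 2 := by
        rw [hf, Real.sq_sqrt (hpos s hs').le]
      have htl := h.tl_nonneg hs' n
      have han : |a n s| ≤ f := by
        apply abs_le_of_sq_le_sq
        · have := h.sq_le_tl hs' n
          nlinarith
        · exact hf0.le
      have hMn : ∑ j ∈ Finset.range n, G j * |a j s| ≤ Λ := by
        refine le_trans ?_ (hM s hs)
        apply Finset.sum_le_sum_of_subset_of_nonneg
        · intro j hj
          rw [Finset.mem_range] at hj ⊢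
          omega
        · intro j _ _
          exact mul_nonneg (h.G0 j) (abs_nonneg _)
      have hpm : pm p a n s ≤ q := by
        unfold pm
        rw [if_neg (by omega), hq]
        apply mul_le_mul_of_nonneg_left _ (h.p0 _)
        have h1 := h.sq_le_tl hs' (n - 1)
        have h2 : tl a S (n - 1) s ≤ S s := tl_le_S _
        exact h1.trans (h2.trans (hB s hs'))
      have hpm0 : 0 ≤ pm p a n s := pm_nonneg h.p0 n s
      have hD1 : D s ≤ 2 * (Λ * f + q) * f := by
        have h1 := (hD s hsT).2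
        have h2 : (∑ j ∈ Finset.range n, G j * |a j s|) * tl a S n s ≤ Λ * f ^ 2 := by
          calc _ ≤ Λ * tl a S n s := mul_le_mul_of_nonneg_right hMn htl
            _ ≤ Λ * f ^ 2 := by
              apply mul_le_mul_of_nonneg_left _ hΛ
              rw [hf2]
              nlinarith
        have h3 : pm p a n s * |a n s| ≤ q * f := mul_le_mul hpm han (abs_nonneg _) hq0
        have h4 : 0 ≤ ν n * tl a S n s := mul_nonneg (h.ν0 n) htl
        nlinarith
      have hD2 : D s / (2 * f) ≤ Λ * f + q := by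
        rw [div_le_iff₀ (by positivity)]
        linarith
      rw [← hf]
      have he : Real.exp (-(Λ * s)) ≤ 1 := by
        rw [Real.exp_le_one_iff]
        have := mul_nonneg hΛ hs.1.le
        linarith
      have he0 : 0 < Real.exp (-(Λ * s)) := Real.exp_pos _
      have h1 : Real.exp (-(Λ * s)) * (D s / (2 * f)) ≤ Real.exp (-(Λ * s)) * (Λ * f + q) :=
        mul_le_mul_of_nonneg_left hD2 he0.le
      have h2 : Real.exp (-(Λ * s)) * q ≤ 1 * q := mul_le_mul_of_nonneg_right he hq0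
      nlinarith
  apply le_of_forall_pos_le_add
  intro ε hε
  have h1 := key (ε / 2) (by positivity)
  linarith

end

theorem s_low : S_low := by
  intro c p ν T a S W L l B α h hT hα hB hL hLl hS0 htl0 hTs hsum hTB
  have hSB : ∀ s ∈ Icc 0 T, S s ≤ B ^ 2 := fun s hs => (Low_en h hs).trans hS0
  have haB : ∀ n, ∀ s ∈ Icc 0 T, |a n s| ≤ B := by
    intro n s hs
    apply abs_le_of_sq_le_sq _ hB
    exact (h.sq_le_tl hs n).trans ((tl_le_S n).trans (hSB s hs))
  have hG0 : ∀ n, 0 < Gm n := by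
    intro n
    unfold Gm RR
    positivity
  have hSG : 0 < SG l := by
    unfold SG
    apply Finset.sum_pos (fun n _ => hG0 n)
    rw [Finset.nonempty_range_iff]
    omega
  have h00 : ∀ n, L ≤ n → tl a S n 0 ≤ α ^ 2 := fun n hn => (tl_anti hn).trans htl0
  have hΛ : 0 ≤ 2 * α * SG l := by positivity
  -- the strain
  have hstr : ∀ t ∈ Icc 0 T, (∀ s ∈ Ioo 0 t, ∑ n ∈ Finset.range l, Gm n * |a n s| ≤ 2 * α * SG l) →
      ∑ n ∈ Finset.range l, Gm n * |a n t| < 2 * α * SG l := by
    intro t ht hM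
    have h1 : ∀ n ∈ Finset.range l, Gm n * |a n t| ≤ (if n < L then Gm n * B else 0) +
        114 / 100 * α * Gm n + 114 / 100 * (T * B ^ 2) * (Gm n * (if n = 0 then 0 else p (n - 1))) := by
      intro n hn
      rw [Finset.mem_range] at hn
      have hp : 0 ≤ (if n = 0 then 0 else p (n - 1)) := by
        split_ifs
        · exact le_rfl
        · exact h.p0 _
      have hp2 : 0 ≤ Gm n * (if n = 0 then 0 else p (n - 1)) := mul_nonneg (hG0 n).le hp
      have hp3 : 0 ≤ 114 / 100 * (T * B ^ 2) * (Gm n * (if n = 0 then 0 else p (n - 1))) := by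
        positivity
      by_cases hnL : n < L
      · rw [if_pos hnL]
        have h2 := mul_le_mul_of_nonneg_left (haB n t ht) (hG0 n).le
        have h3 : 0 ≤ 114 / 100 * α * Gm n := by
          have := hG0 n
          positivity
        linarith
      · rw [if_neg hnL, zero_add]
        have h2 := Low_tl h (B := B) ht hα hΛ hTs hSB hM (by omega : 1 ≤ n) hn.le
          (h00 n (by omega))
        have h3 : |a n t| ≤ Real.sqrt (tl a S n t) := by
          rw [← Real.sqrt_sq_eq_abs]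
          exact Real.sqrt_le_sqrt (h.sq_le_tl ht n)
        rw [if_neg (by omega : n ≠ 0)]
        have h4 := mul_le_mul_of_nonneg_left (h3.trans h2) (hG0 n).le
        linarith
    have h2 := Finset.sum_le_sum h1
    rw [Finset.sum_add_distrib, Finset.sum_add_distrib, ← Finset.mul_sum, ← Finset.mul_sum] at h2
    have h3 : ∑ n ∈ Finset.range l, (if n < L then Gm n * B else 0) =
        ∑ n ∈ Finset.range L, Gm n * B := by
      rw [← Finset.sum_filter]
      apply Finset.sum_congr _ (fun _ _ => rfl)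
      ext n
      rw [Finset.mem_filter, Finset.mem_range, Finset.mem_range]
      omega
    rw [h3] at h2
    have h4 : 0 ≤ (T * B ^ 2) * ∑ n ∈ Finset.range l, Gm n * (if n = 0 then 0 else p (n - 1)) := by
      apply mul_nonneg (by positivity)
      apply Finset.sum_nonneg
      intro n _
      apply mul_nonneg (hG0 n).le
      split_ifs
      · exact le_rfl
      · exact h.p0 _
    have h5 : 0 < α * SG l := mul_pos hα hSG
    have h6 : ∑ n ∈ Finset.range l, Gm n = SG l := rfl
    rw [h6] at h2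
    nlinarith
  have hall : ∀ t ∈ Icc 0 T, ∑ n ∈ Finset.range l, Gm n * |a n t| ≤ 2 * α * SG l := by
    by_contra hcon
    push Not at hcon
    obtain ⟨t1, ht1, hlt⟩ := hcon
    have hMc : Continuous fun t => ∑ n ∈ Finset.range l, Gm n * |a n t| :=
      continuous_finsetSum _ fun n _ => continuous_const.mul (h.cont n).abs
    have hK : IsCompact (Icc 0 t1 ∩ {t | 2 * α * SG l ≤ ∑ n ∈ Finset.range l, Gm n * |a n t|}) :=
      isCompact_Icc.inter_right (isClosed_le continuous_const hMc)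
    obtain ⟨t2, ht2, hmin⟩ := hK.exists_isLeast ⟨t1, ⟨ht1.1, le_rfl⟩, hlt.le⟩
    have h1 : t2 ∈ Icc 0 T := ⟨ht2.1.1, ht2.1.2.trans ht1.2⟩
    have h2 := hstr t2 h1 (by
      intro s hs
      by_contra hc
      push Not at hc
      have h3 := hmin ⟨⟨hs.1.le, hs.2.le.trans ht2.1.2⟩, hc.le⟩
      exact absurd hs.2 (not_lt.mpr h3))
    exact absurd ht2.2 (not_le.mpr h2)
  intro t ht
  refine ⟨?_, hall t ht⟩
  have h1 := Low_tl h (B := B) ht hα hΛ hTs hSB (fun s hs => hall s ⟨hs.1.le, hs.2.le.trans ht.2⟩)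
    (by omega : 1 ≤ l) le_rfl (h00 l hLl)
  have h2 : Real.sqrt (tl a S l t) ≤ 114 / 100 * (17 / 16 * α) := by
    refine h1.trans ?_
    have : T * (p (l - 1) * B ^ 2) = T * B ^ 2 * p (l - 1) := by ring
    rw [this]
    linarith
  have h3 := h.tl_nonneg ht l
  have h4 : tl a S l t = Real.sqrt (tl a S l t) ^ 2 := (Real.sq_sqrt h3).symm
  have h5 : Real.sqrt (tl a S l t) ^ 2 ≤ (114 / 100 * (17 / 16 * α)) ^ 2 :=
    pow_le_pow_left₀ (Real.sqrt_nonneg _) h2 2
  rw [h4]
  refine h5.trans ?_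
  nlinarith [sq_nonneg α]

end Pool.Agent.H226.GB

end
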