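import Pool.Agent.H226.GM.S

/-! ## Pump -/

section

/-!
Bounds of the pump coefficients.
-/

open MeasureTheory Set Filter Topology
open scoped ContDiff
open H459R3.NS

namespace Pool.Agent.H226.GB

/-- all components smooth and periodic -/
def Pump_S (u : V → V) : Prop := ∀ i, SP (fun x => u x i)

theorem Pump_const (c : ℝ) : SP (fun _ : V => c) where
  smooth := contDiff_const
  per := fun _ _ => rfl

theorem Pump_smul {f : V → ℝ} (hf : SP f) (c : ℝ) : SP (fun x => c * f x) :=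
  (Pump_const c).mul hf

theorem Pump_pd_add {f g : V → ℝ} (hf : SP f) (hg : SP g) (j : Fin 3) (x : V) :
    pd j (fun y => f y + g y) x = pd j f x + pd j g x := by
  unfold pd
  have h : HasFDerivAt (fun y => f y + g y) _ x := (hf.diff x).hasFDerivAt.add (hg.diff x).hasFDerivAt
  rw [h.fderiv]
  rfl

theorem Pump_pd_smul {f : V → ℝ} (hf : SP f) (c : ℝ) (j : Fin 3) (x : V) :
    pd j (fun y => c * f y) x = c * pd j f x := by
  unfold pd
  have h : HasFDerivAt (fun y => c * f y) _ x := (hf.diff x).hasFDerivAt.const_mul c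
  rw [h.fderiv]
  rfl

theorem Pump_pd_lin {f g : V → ℝ} (hf : SP f) (hg : SP g) (c : ℝ) (j : Fin 3) (x : V) :
    pd j (fun y => f y + c * g y) x = pd j f x + c * pd j g x := by
  rw [Pump_pd_add hf (Pump_smul hg c), Pump_pd_smul hg]

theorem Pump_gp_S {Θ : V → ℝ} (h : SP Θ) : Pump_S (gp Θ) := by
  intro i
  fin_cases i
  · exact h.pd 2
  · exact Pump_const 0
  · have := Pump_smul (h.pd 0) (-1)
    have e : (fun x => gp Θ x ((fun i => i) ⟨2, by omega⟩)) = fun x => -1 * pd 0 Θ x := by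
      funext x
      simp [gp]
    rw [e]
    exact this

theorem Pump_gp_lin {f g : V → ℝ} (hf : SP f) (hg : SP g) (c : ℝ) :
    gp (fun y => f y + c * g y) = fun x => gp f x + c • gp g x := by
  funext x
  ext i
  fin_cases i
  · simp [gp, Pump_pd_lin hf hg]
  · simp [gp]
  · simp [gp, Pump_pd_lin hf hg]
    ring

theorem Pump_tri_smul1 (c : ℝ) (u v w : V → V) :
    tri (fun x => c • u x) v w = c * tri u v w := by
  unfold tri
  simp only [Finset.mul_sum]
  refine Finset.sum_congr rfl fun i _ => Finset.sum_congr rfl fun j _ => ?_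
  rw [← integral_const_mul]
  refine integral_congr_ae (Filter.Eventually.of_forall fun x => ?_)
  simp only [Pi.smul_apply, smul_eq_mul]
  ring

theorem Pump_tri_smul2 (c : ℝ) (u v w : V → V) :
    tri u (fun x => c • v x) w = c * tri u v w := by
  unfold tri
  simp only [Finset.mul_sum]
  refine Finset.sum_congr rfl fun i _ => Finset.sum_congr rfl fun j _ => ?_
  rw [← integral_const_mul]
  refine integral_congr_ae (Filter.Eventually.of_forall fun x => ?_)
  simp only [Pi.smul_apply, smul_eq_mul]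
  ring

theorem Pump_tri_smul3 (c : ℝ) (u v : V → V) {w : V → V} (hw : Pump_S w) :
    tri u v (fun x => c • w x) = c * tri u v w := by
  unfold tri
  simp only [Finset.mul_sum]
  refine Finset.sum_congr rfl fun i _ => Finset.sum_congr rfl fun j _ => ?_
  rw [← integral_const_mul]
  refine integral_congr_ae (Filter.Eventually.of_forall fun x => ?_)
  simp only [Pi.smul_apply, smul_eq_mul]
  rw [Pump_pd_smul (hw j)]
  ring

theorem Pump_tri_add1 {u u' v w : V → V} (hu : Pump_S u) (hu' : Pump_S u') (hv : Pump_S v)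
    (hw : Pump_S w) :
    tri (fun x => u x + u' x) v w = tri u v w + tri u' v w := by
  unfold tri
  simp only [← Finset.sum_add_distrib]
  refine Finset.sum_congr rfl fun i _ => Finset.sum_congr rfl fun j _ => ?_
  have h1 : IntegrableOn (fun x => u x i * v x j * pd i (fun y => w y j) x) cube :=
    (((hu i).mul (hv j)).mul ((hw j).pd i)).int
  have h2 : IntegrableOn (fun x => u' x i * v x j * pd i (fun y => w y j) x) cube :=
    (((hu' i).mul (hv j)).mul ((hw j).pd i)).int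
  rw [← integral_add h1 h2]
  refine integral_congr_ae (Filter.Eventually.of_forall fun x => ?_)
  simp only [Pi.add_apply]
  ring

theorem Pump_tri_add2 {u v v' w : V → V} (hu : Pump_S u) (hv : Pump_S v) (hv' : Pump_S v')
    (hw : Pump_S w) :
    tri u (fun x => v x + v' x) w = tri u v w + tri u v' w := by
  unfold tri
  simp only [← Finset.sum_add_distrib]
  refine Finset.sum_congr rfl fun i _ => Finset.sum_congr rfl fun j _ => ?_
  have h1 : IntegrableOn (fun x => u x i * v x j * pd i (fun y => w y j) x) cube :=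
    (((hu i).mul (hv j)).mul ((hw j).pd i)).int
  have h2 : IntegrableOn (fun x => u x i * v' x j * pd i (fun y => w y j) x) cube :=
    (((hu i).mul (hv' j)).mul ((hw j).pd i)).int
  rw [← integral_add h1 h2]
  refine integral_congr_ae (Filter.Eventually.of_forall fun x => ?_)
  simp only [Pi.add_apply]
  ring

theorem Pump_tri_add3 {u v w w' : V → V} (hu : Pump_S u) (hv : Pump_S v) (hw : Pump_S w)
    (hw' : Pump_S w') :
    tri u v (fun x => w x + w' x) = tri u v w + tri u v w' := by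
  unfold tri
  simp only [← Finset.sum_add_distrib]
  refine Finset.sum_congr rfl fun i _ => Finset.sum_congr rfl fun j _ => ?_
  have h1 : IntegrableOn (fun x => u x i * v x j * pd i (fun y => w y j) x) cube :=
    (((hu i).mul (hv j)).mul ((hw j).pd i)).int
  have h2 : IntegrableOn (fun x => u x i * v x j * pd i (fun y => w' y j) x) cube :=
    (((hu i).mul (hv j)).mul ((hw' j).pd i)).int
  rw [← integral_add h1 h2]
  refine integral_congr_ae (Filter.Eventually.of_forall fun x => ?_)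
  simp only [Pi.add_apply]
  rw [Pump_pd_add (hw j) (hw' j)]
  ring

theorem Pump_S_smul {u : V → V} (hu : Pump_S u) (c : ℝ) : Pump_S (fun x => c • u x) := by
  intro i
  have := Pump_smul (hu i) c
  exact this

theorem Pump_S_add {u v : V → V} (hu : Pump_S u) (hv : Pump_S v) :
    Pump_S (fun x => u x + v x) := by
  intro i
  have := (hu i).add (hv i)
  exact this

/-- trilinear expansion -/
theorem Pump_expand {u u' v v' w w' : V → V} (hu : Pump_S u) (hu' : Pump_S u') (hv : Pump_S v)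
    (hv' : Pump_S v') (hw : Pump_S w) (hw' : Pump_S w') (a b c : ℝ) :
    tri (fun x => u x + a • u' x) (fun x => v x + b • v' x) (fun x => w x + c • w' x)
      = tri u v w + a * tri u' v w + b * tri u v' w + a * b * tri u' v' w
        + c * (tri u v w' + a * tri u' v w' + b * tri u v' w' + a * b * tri u' v' w') := by
  have hau := Pump_S_smul hu' a
  have hbv := Pump_S_smul hv' b
  have hcw := Pump_S_smul hw' c
  have e1 := Pump_tri_add3 (Pump_S_add hu hau) (Pump_S_add hv hbv) hw hcw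
  have e2 : ∀ {z : V → V}, Pump_S z →
      tri (fun x => u x + a • u' x) (fun x => v x + b • v' x) z
      = tri u v z + a * tri u' v z + b * tri u v' z + a * b * tri u' v' z := by
    intro z hz
    rw [Pump_tri_add2 (Pump_S_add hu hau) hv hbv hz, Pump_tri_add1 hu hau hv hz,
      Pump_tri_add1 hu hau hbv hz, Pump_tri_smul1, Pump_tri_smul1, Pump_tri_smul2,
      Pump_tri_smul2]
    ring
  rw [e1, e2 hw, e2 hcw, Pump_tri_smul3 _ _ _ hw', Pump_tri_smul3 _ _ _ hw',
    Pump_tri_smul3 _ _ _ hw', Pump_tri_smul3 _ _ _ hw']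
  ring

theorem Pump_NN_pos (m : ℕ) : 2 ≤ NN m := by
  unfold NN RR
  rw [← pow_mul]
  calc 2 = 2 ^ 1 := by norm_num
    _ ≤ 2 ^ ((m + 2) ^ 3 * 2) := Nat.pow_le_pow_right (by norm_num)
        (Nat.succ_le_of_lt (by positivity))

theorem Pump_RR_le (m : ℕ) : 2 * RR m ≤ RR (m + 1) := by
  unfold RR
  rw [← pow_succ']
  exact Nat.pow_le_pow_right (Nat.succ_pos 1)
    (Nat.succ_le_of_lt (Nat.pow_lt_pow_left (by omega) (by omega)))

theorem Pump_NN_le (m : ℕ) : 4 * NN m ≤ NN (m + 1) := by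
  unfold NN
  have := Nat.pow_le_pow_left (Pump_RR_le m) 2
  calc 4 * RR m ^ 2 = (2 * RR m) ^ 2 := by ring
    _ ≤ _ := this

theorem Pump_NN_le' {m : ℕ} (h : 1 ≤ m) : 4 * NN (m - 1) ≤ NN m := by
  have := Pump_NN_le (m - 1)
  rwa [Nat.sub_add_cancel h] at this

/-- vanishing without resonances in the last variable -/
theorem Pump_zero (P : S_prod) (G : S_trig) {F₁ G₁ H₁ F₂ G₂ H₂ F₃ G₃ H₃ : ℝ → ℝ} (f1 : P1 F₁)
    (g1 : P1 G₁) (f2 : P1 F₂) (g2 : P1 G₂) (f3 : P1 F₃) (g3 : P1 G₃) {A B C : Set ℕ}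
    (h1 : Trig A H₁) (h2 : Trig B H₂) (h3 : Trig C H₃)
    (hn : ∀ a ∈ A, ∀ b ∈ B, ∀ c ∈ C, a ≠ b + c ∧ b ≠ a + c ∧ c ≠ a + b) :
    tri (gp (prd F₁ G₁ H₁)) (gp (prd F₂ G₂ H₂)) (gp (prd F₃ G₃ H₃)) = 0 := by
  rw [P.tri_gp f1 g1 (G.p1 h1) f2 g2 (G.p1 h2) f3 g3 (G.p1 h3)]
  rw [G.int3 (G.der h1) (G.der h2) (G.der h3) hn, G.int3 h1 (G.der h2) (G.der (G.der h3)) hn,
    G.int3 (G.der h1) h2 h3 hn, G.int3 h1 h2 (G.der h3) hn]
  ring

theorem Pump_i1_const (c : ℝ) (f : ℝ → ℝ) : i1 (fun s => c * f s) = c * i1 f := by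
  unfold i1
  exact intervalIntegral.integral_const_mul c f

theorem Pump_dsn (k : ℕ) : deriv (sn k) = fun s => 2 * Real.pi * k * cs k s := by
  funext s
  have h : HasDerivAt (fun s : ℝ => Real.sin (2 * Real.pi * k * s))
      (Real.cos (2 * Real.pi * k * s) * (2 * Real.pi * k * 1)) s :=
    ((hasDerivAt_id s).const_mul (2 * Real.pi * (k : ℝ))).sin
  have e : deriv (sn k) s = _ := h.deriv
  rw [e]
  unfold cs
  ring

theorem Pump_dcs (k : ℕ) : deriv (cs k) = fun s => -(2 * Real.pi * k) * sn k s := by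
  funext s
  have h : HasDerivAt (fun s : ℝ => Real.cos (2 * Real.pi * k * s))
      (-Real.sin (2 * Real.pi * k * s) * (2 * Real.pi * k * 1)) s :=
    ((hasDerivAt_id s).const_mul (2 * Real.pi * (k : ℝ))).cos
  have e : deriv (cs k) s = _ := h.deriv
  rw [e]
  unfold sn
  ring

theorem Pump_ddsn (k : ℕ) : deriv (deriv (sn k)) = fun s => -(2 * Real.pi * k) ^ 2 * sn k s := by
  rw [Pump_dsn]
  funext s
  have h : HasDerivAt (cs k) (-(2 * Real.pi * k) * sn k s) s := by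
    have h : HasDerivAt (fun s : ℝ => Real.cos (2 * Real.pi * k * s))
        (-Real.sin (2 * Real.pi * k * s) * (2 * Real.pi * k * 1)) s :=
      ((hasDerivAt_id s).const_mul (2 * Real.pi * (k : ℝ))).cos
    have e : -Real.sin (2 * Real.pi * k * s) * (2 * Real.pi * k * 1)
        = -(2 * Real.pi * k) * sn k s := by unfold sn; ring
    rw [e] at h
    exact h
  have h2 : HasDerivAt (fun s => 2 * Real.pi * k * cs k s)
      (2 * Real.pi * k * (-(2 * Real.pi * k) * sn k s)) s := h.const_mul _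
  rw [h2.deriv]
  ring

/-- the main term of the pump -/
theorem Pump_main (P : S_prod) (O : S_one) (N : ℕ) (hN : 2 ≤ N) :
    tri (gp (prd (fF N) (fG N) (fH N))) (gp (prd (fF N) (fG N) (fH N)))
      (gp (prd (sn (4 * N - 3)) (cs (4 * N - 2)) (sn (2 * (17 * N - 1)))))
      = -((2 * Real.pi) ^ 2 * (4 * N - 3) / (64 * (17 * N - 1))) := by
  have pf := O.p1_F N
  have pg := O.p1_G N
  have ph := O.p1_H N
  rw [P.tri_gp pf pg ph pf pg ph (O.p1_sn _) (O.p1_cs _) (O.p1_sn _)]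
  obtain ⟨k1, hk1⟩ : ∃ k, k = 4 * N - 3 := ⟨_, rfl⟩
  obtain ⟨k2, hk2⟩ : ∃ k, k = 4 * N - 2 := ⟨_, rfl⟩
  obtain ⟨k3, hk3⟩ : ∃ k, k = 2 * (17 * N - 1) := ⟨_, rfl⟩
  have a1 := O.pF N hN
  have a2 := O.pdF N hN
  have a3 := O.pG N hN
  have a4 := O.pdH N hN
  have a5 := O.pH N hN
  rw [← hk1, ← hk2, ← hk3]
  rw [← hk1] at a1 a2
  rw [← hk2] at a3
  rw [← hk3] at a4 a5
  have b1 := O.by_parts pf k1
  have b2 := O.by_parts ph k3
  have r1 : (k1 : ℝ) = 4 * N - 3 := by
    rw [hk1, Nat.cast_sub (by omega)]; push_cast; ring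
  have r3 : (k3 : ℝ) = 2 * (17 * N - 1) := by
    rw [hk3]; push_cast [Nat.cast_sub (show 1 ≤ 17 * N by omega)]; ring
  have c0 : i1 (fun s => fG N s * fG N s * cs k2 s) = 1 / 4 := by
    rw [← a3]; congr 1; funext s; ring
  have c1 : i1 (fun s => fF N s * fF N s * deriv (sn k1) s) = 2 * Real.pi * k1 * (-(1 / 2)) := by
    rw [← a1, ← Pump_i1_const]; congr 1; funext s; rw [Pump_dsn]; ring
  have c2 : i1 (fun s => deriv (fH N) s * deriv (fH N) s * deriv (sn k3) s)
      = 2 * Real.pi * k3 * (1 / 4) := by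
    rw [← a4, ← Pump_i1_const]; congr 1; funext s; rw [Pump_dsn]; ring
  have c3 : i1 (fun s => deriv (fF N) s * fF N s * sn k1 s)
      = -(Real.pi * k1) * (-(1 / 2)) := by
    rw [← a1, ← b1]; congr 1; funext s; ring
  have c4 : i1 (fun s => fH N s * deriv (fH N) s * deriv (deriv (sn k3)) s)
      = -(2 * Real.pi * k3) ^ 2 * (-(Real.pi * k3) *
        (-(1 / (4 * (2 * Real.pi) ^ 2 * (17 * N - 1) ^ 2)))) := by
    rw [← a5, ← b2, ← Pump_i1_const]; congr 1; funext s; rw [Pump_ddsn]; ring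
  have c5 : i1 (fun s => fF N s * deriv (fF N) s * deriv (deriv (sn k1)) s)
      = -(2 * Real.pi * k1) ^ 2 * (-(Real.pi * k1) * (-(1 / 2))) := by
    rw [← a1, ← b1, ← Pump_i1_const]; congr 1; funext s; rw [Pump_ddsn]; ring
  have c6 : i1 (fun s => deriv (fH N) s * fH N s * sn k3 s)
      = -(Real.pi * k3) * (-(1 / (4 * (2 * Real.pi) ^ 2 * (17 * N - 1) ^ 2))) := by
    rw [← a5, ← b2]; congr 1; funext s; ring
  have c7 : i1 (fun s => deriv (fF N) s * deriv (fF N) s * deriv (sn k1) s)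
      = 2 * Real.pi * k1 * ((2 * Real.pi) ^ 2 * ((2 * N - 1) * (2 * N - 2)) / 2) := by
    rw [← a2, ← Pump_i1_const]; congr 1; funext s; rw [Pump_dsn]; ring
  have c8 : i1 (fun s => fH N s * fH N s * deriv (sn k3) s)
      = 2 * Real.pi * k3 * (-(1 / (4 * (2 * Real.pi) ^ 2 * (17 * N - 1) ^ 2))) := by
    rw [← a5, ← Pump_i1_const]; congr 1; funext s; rw [Pump_dsn]; ring
  rw [c0, c1, c2, c3, c4, c5, c6, c7, c8, r1, r3]
  have hN' : (2 : ℝ) ≤ N := by exact_mod_cast hN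
  have hJ : (17 * (N : ℝ) - 1) ≠ 0 := by
    have : 0 < 17 * (N : ℝ) - 1 := by linarith
    exact this.ne'
  have hp : Real.pi ≠ 0 := Real.pi_ne_zero
  field_simp
  ring

theorem Pump_psi_P (P : S_prod) (O : S_one) (m : ℕ) : SP (psi m) :=
  P.sp (O.p1_F _) (O.p1_G _) (O.p1_H _)

theorem Pump_chi_P (P : S_prod) (O : S_one) (m : ℕ) : SP (chi m) :=
  P.sp (O.p1_sn _) (O.p1_cs _) (O.p1_sn _)

theorem Pump_gp_th0 (P : S_prod) (O : S_one) (m : ℕ) :
    gp (th0 m) = fun x => gp (psi m) x + ee' m • gp (chi m) x :=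
  Pump_gp_lin (Pump_psi_P P O m) (Pump_chi_P P O m) (ee' m)

theorem Pump_tri (P : S_prod) (O : S_one) (G : S_trig) (n : ℕ) (hn : 1 ≤ n) :
    tri (gp (th0 n)) (gp (th0 n)) (gp (th0 (n + 1)))
      = -(Real.exp (-bb n) * ((2 * Real.pi) ^ 2 * (4 * NN n - 3) / (64 * (17 * NN n - 1)))) := by
  have h1 := Pump_NN_pos (n - 1)
  have h2 := Pump_NN_le' hn
  have h3 := Pump_NN_le n
  have sp1 := Pump_gp_S (Pump_psi_P P O n)
  have sp2 := Pump_gp_S (Pump_chi_P P O n)
  have sp3 := Pump_gp_S (Pump_psi_P P O (n + 1))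
  have sp4 := Pump_gp_S (Pump_chi_P P O (n + 1))
  rw [Pump_gp_th0 P O, Pump_gp_th0 P O, Pump_expand sp1 sp2 sp1 sp2 sp3 sp4]
  have tH : ∀ N, Trig {k | 16 * N ≤ k ∧ k ≤ 17 * N - 1} (fH N) := G.H
  have tS : ∀ k, Trig {k} (sn k) := fun k => G.sn rfl
  have pF := O.p1_F
  have pG := O.p1_G
  have pS := O.p1_sn
  have pC := O.p1_cs
  have z1 : tri (gp (psi n)) (gp (psi n)) (gp (psi (n + 1))) = 0 := by
    refine Pump_zero P G (pF _) (pG _) (pF _) (pG _) (pF _) (pG _) (tH _) (tH _) (tH _) ?_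
    rintro a ⟨ha, ha'⟩ b ⟨hb, hb'⟩ c ⟨hc, hc'⟩
    refine ⟨?_, ?_, ?_⟩ <;> omega
  have z2 : tri (gp (chi n)) (gp (psi n)) (gp (psi (n + 1))) = 0 := by
    refine Pump_zero P G (pS _) (pC _) (pF _) (pG _) (pF _) (pG _) (tS _) (tH _) (tH _) ?_
    rintro a rfl b ⟨hb, hb'⟩ c ⟨hc, hc'⟩
    refine ⟨?_, ?_, ?_⟩ <;> omega
  have z3 : tri (gp (psi n)) (gp (chi n)) (gp (psi (n + 1))) = 0 := by
    refine Pump_zero P G (pF _) (pG _) (pS _) (pC _) (pF _) (pG _) (tH _) (tS _) (tH _) ?_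
    rintro a ⟨ha, ha'⟩ b rfl c ⟨hc, hc'⟩
    refine ⟨?_, ?_, ?_⟩ <;> omega
  have z4 : tri (gp (chi n)) (gp (chi n)) (gp (psi (n + 1))) = 0 := by
    refine Pump_zero P G (pS _) (pC _) (pS _) (pC _) (pF _) (pG _) (tS _) (tS _) (tH _) ?_
    rintro a rfl b rfl c ⟨hc, hc'⟩
    refine ⟨?_, ?_, ?_⟩ <;> omega
  have hs : n + 1 - 1 = n := Nat.add_sub_cancel n 1
  have z5 : tri (gp (chi n)) (gp (psi n)) (gp (chi (n + 1))) = 0 := by
    refine Pump_zero P G (pS _) (pC _) (pF _) (pG _) (pS _) (pC _) (tS _) (tH _) (tS _) ?_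
    rw [hs]
    rintro a rfl b ⟨hb, hb'⟩ c rfl
    refine ⟨?_, ?_, ?_⟩ <;> omega
  have z6 : tri (gp (psi n)) (gp (chi n)) (gp (chi (n + 1))) = 0 := by
    refine Pump_zero P G (pF _) (pG _) (pS _) (pC _) (pS _) (pC _) (tH _) (tS _) (tS _) ?_
    rw [hs]
    rintro a ⟨ha, ha'⟩ b rfl c rfl
    refine ⟨?_, ?_, ?_⟩ <;> omega
  have z7 : tri (gp (chi n)) (gp (chi n)) (gp (chi (n + 1))) = 0 := by
    refine Pump_zero P G (pS _) (pC _) (pS _) (pC _) (pS _) (pC _) (tS _) (tS _) (tS _) ?_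
    rw [hs]
    rintro a rfl b rfl c rfl
    refine ⟨?_, ?_, ?_⟩ <;> omega
  have z8 : tri (gp (psi n)) (gp (psi n)) (gp (chi (n + 1)))
      = -((2 * Real.pi) ^ 2 * (4 * NN n - 3) / (64 * (17 * NN n - 1))) := by
    have := Pump_main P O (NN n) (Pump_NN_pos n)
    unfold psi chi
    rw [hs]
    exact this
  have he : ee' (n + 1) = Real.exp (-bb n) := by
    unfold ee'
    rw [if_neg (Nat.succ_ne_zero n), hs]
  rw [z1, z2, z3, z4, z5, z6, z7, z8, he]
  ring

theorem Pump_pp (P : S_prod) (O : S_one) (G : S_trig) (n : ℕ) (hn : 1 ≤ n) :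
    pp n = Real.exp (-bb n) * (((2 * Real.pi) ^ 2 * (4 * NN n - 3) / (64 * (17 * NN n - 1)))
      * ((nm n)⁻¹ ^ 2 * (nm (n + 1))⁻¹)) := by
  have e : ∀ m, phi m = fun x => (-(nm m)⁻¹) • gp (th0 m) x := fun m => rfl
  have s3 : Pump_S (gp (th0 (n + 1))) := by
    refine Pump_gp_S ?_
    exact (Pump_psi_P P O (n + 1)).add (Pump_smul (Pump_chi_P P O (n + 1)) _)
  unfold pp
  rw [e n, e (n + 1), Pump_tri_smul3 _ _ _ s3, Pump_tri_smul1, Pump_tri_smul2,
    Pump_tri P O G n hn]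
  ring

theorem s_pp (P : S_prod) (O : S_one) (G : S_trig) (h : S_nm) : S_pp := by
  intro n hn
  rw [Pump_pp P O G n hn]
  have hE := Real.exp_pos (-bb n)
  obtain ⟨⟨a1, a2⟩, a3⟩ := h n
  obtain ⟨⟨b1, b2⟩, b3⟩ := h (n + 1)
  have hN : (2 : ℝ) ≤ NN n := by exact_mod_cast Pump_NN_pos n
  have hN1 : (2 : ℝ) ≤ NN (n + 1) := by exact_mod_cast Pump_NN_pos (n + 1)
  have hR : (2 : ℝ) * RR n ≤ RR (n + 1) := by exact_mod_cast Pump_RR_le n
  have hR0 : (0 : ℝ) < RR n := Nat.cast_pos.2 (pow_pos (by norm_num) _)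
  have hR1 : (0 : ℝ) < RR (n + 1) := Nat.cast_pos.2 (pow_pos (by norm_num) _)
  have eN : (NN n : ℝ) = (RR n : ℝ) ^ 2 := by unfold NN; push_cast; ring
  have eN1 : (NN (n + 1) : ℝ) = (RR (n + 1) : ℝ) ^ 2 := by unfold NN; push_cast; ring
  have p3 := Real.pi_gt_three
  have p4 := Real.pi_lt_four
  have hJ : 0 < 64 * (17 * (NN n : ℝ) - 1) := by linarith
  -- the constant
  obtain ⟨q, hq⟩ : ∃ q, q = (2 * Real.pi) ^ 2 * (4 * NN n - 3) / (64 * (17 * (NN n : ℝ) - 1)) :=
    ⟨_, rfl⟩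
  have q1 : 1 / 16 ≤ q := by
    have h1 : (6 : ℝ) ^ 2 ≤ (2 * Real.pi) ^ 2 :=
      pow_le_pow_left₀ (by norm_num) (by linarith only [p3]) 2
    have h2 := mul_le_mul_of_nonneg_right h1 (show 0 ≤ 4 * (NN n : ℝ) - 3 by linarith only [hN])
    rw [hq, le_div_iff₀ hJ]
    linarith only [h2, hN]
  have q2 : q ≤ 1 := by
    have h1 : (2 * Real.pi) ^ 2 ≤ (8 : ℝ) ^ 2 :=
      pow_le_pow_left₀ (by linarith only [p3]) (by linarith only [p4]) 2
    have h2 := mul_le_mul_of_nonneg_right h1 (show 0 ≤ 4 * (NN n : ℝ) - 3 by linarith only [hN])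
    rw [hq, div_le_iff₀ hJ]
    linarith only [h2, hN]
  rw [← hq]
  -- norms
  have c1 : (RR (n + 1) : ℝ) ^ 9 = (RR (n + 1) : ℝ) ^ 6 * (RR (n + 1) : ℝ) ^ 3 := by ring
  have c2 : nm (n + 1) ≤ (RR (n + 1) : ℝ) ^ 3 / 2 := by
    refine abs_le_of_sq_le_sq' ?_ (div_nonneg (pow_nonneg hR1.le 3) (by norm_num)) |>.2
    calc nm (n + 1) ^ 2 ≤ (NN (n + 1) : ℝ) ^ 3 / 4 := b2
      _ = _ := by rw [eN1]; ring
  have c3 : nm n ^ 2 ≤ (RR (n + 1) : ℝ) ^ 6 / 4 := by
    refine a2.trans ?_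
    rw [eN, ← pow_mul]
    have : (RR n : ℝ) ^ 6 ≤ (RR (n + 1) : ℝ) ^ 6 :=
      pow_le_pow_left₀ hR0.le (by linarith) 6
    linarith
  have c4 : 1 ≤ nm n ^ 2 := by
    refine le_trans ?_ a1
    have : (2 : ℝ) ^ 3 ≤ (NN n : ℝ) ^ 3 := pow_le_pow_left₀ (by norm_num) hN 3
    linarith
  have c5 : 1 ≤ nm (n + 1) := by
    have h1 : 1 ≤ nm (n + 1) ^ 2 := by
      refine le_trans ?_ b1
      have : (2 : ℝ) ^ 3 ≤ (NN (n + 1) : ℝ) ^ 3 := pow_le_pow_left₀ (by norm_num) hN1 3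
      linarith only [this]
    exact (one_le_sq_iff₀ b3.le).1 h1
  have c6 : (nm n)⁻¹ ^ 2 * (nm (n + 1))⁻¹ = 1 / (nm n ^ 2 * nm (n + 1)) := by
    rw [inv_pow, one_div, mul_inv]
  have c7 : 0 < nm n ^ 2 * nm (n + 1) := mul_pos (pow_pos a3 2) b3
  have c8 : nm n ^ 2 * nm (n + 1) ≤ (RR (n + 1) : ℝ) ^ 9 / 8 := by
    rw [c1]
    calc nm n ^ 2 * nm (n + 1) ≤ (RR (n + 1) : ℝ) ^ 6 / 4 * ((RR (n + 1) : ℝ) ^ 3 / 2) :=
        mul_le_mul c3 c2 b3.le (div_nonneg (pow_nonneg hR1.le 6) (by norm_num))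
      _ = _ := by ring
  have c9 : 1 ≤ nm n ^ 2 * nm (n + 1) := one_le_mul_of_one_le_of_one_le c4 c5
  rw [c6]
  constructor
  · rw [div_eq_mul_inv]
    refine mul_le_mul_of_nonneg_left ?_ hE.le
    rw [← one_div, mul_one_div, div_le_div_iff₀ (mul_pos two_pos (pow_pos hR1 9)) c7, one_mul]
    have hR9 : (0 : ℝ) < (RR (n + 1) : ℝ) ^ 9 := pow_pos hR1 9
    have h2 := mul_le_mul_of_nonneg_right q1 (mul_pos two_pos hR9).le
    linarith only [h2, c8]
  · have : q * (1 / (nm n ^ 2 * nm (n + 1))) ≤ 1 := by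
      rw [mul_one_div, div_le_one c7]
      linarith
    calc Real.exp (-bb n) * (q * (1 / (nm n ^ 2 * nm (n + 1)))) ≤ Real.exp (-bb n) * 1 :=
        mul_le_mul_of_nonneg_left this hE.le
      _ = _ := mul_one _

end Pool.Agent.H226.GB

end

/-! ## Bas -/

section

/-!
The structure of the basis (helper376).
-/

open MeasureTheory Set Filter Topology
open scoped ContDiff
open H459R3.NS

namespace Pool.Agent.H226.GB

/-! ### Functions with prescribed frequencies in the last variable -/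

/-- sums of two product functions, with frequencies in `A` in the last variable -/
def Bas_X (A : Set ℕ) (f : V → ℝ) : Prop :=
  ∃ F G H : Fin 2 → ℝ → ℝ, (∀ i, P1 (F i)) ∧ (∀ i, P1 (G i)) ∧ (∀ i, Trig A (H i)) ∧
    f = fun x => ∑ i, prd (F i) (G i) (H i) x

theorem Bas_const (c : ℝ) : P1 fun _ => c := ⟨contDiff_const, fun _ => rfl⟩

theorem Bas_sp (P : S_prod) (T : S_trig) {A : Set ℕ} {f : V → ℝ} (h : Bas_X A f) : SP f := by
  obtain ⟨F, G, H, hF, hG, hH, rfl⟩ := h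
  exact SP.sum fun i _ => P.sp (hF i) (hG i) (T.p1 (hH i))

theorem Bas_pd (P : S_prod) (T : S_trig) {A : Set ℕ} {f : V → ℝ} (h : Bas_X A f) (j : Fin 3) :
    Bas_X A (pd j f) := by
  obtain ⟨F, G, H, hF, hG, hH, rfl⟩ := h
  have e : pd j (fun x => ∑ i, prd (F i) (G i) (H i) x) =
      fun x => ∑ i, pd j (prd (F i) (G i) (H i)) x := by
    funext x
    exact pd_sum (f := fun i => prd (F i) (G i) (H i))
      (fun i _ => P.sp (hF i) (hG i) (T.p1 (hH i))) j x
  rw [e]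
  have hj : ∀ j : Fin 3, j = 0 ∨ j = 1 ∨ j = 2 := by decide
  rcases hj j with rfl | rfl | rfl
  · refine ⟨fun i => deriv (F i), G, H, fun i => P.der (hF i), hG, hH, ?_⟩
    funext x
    exact Finset.sum_congr rfl fun i _ => by rw [P.pd0 (hF i) (hG i) (T.p1 (hH i))]
  · refine ⟨F, fun i => deriv (G i), H, hF, fun i => P.der (hG i), hH, ?_⟩
    funext x
    exact Finset.sum_congr rfl fun i _ => by rw [P.pd1 (hF i) (hG i) (T.p1 (hH i))]
  · refine ⟨F, G, fun i => deriv (H i), hF, hG, fun i => T.der (hH i), ?_⟩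
    funext x
    exact Finset.sum_congr rfl fun i _ => by rw [P.pd2 (hF i) (hG i) (T.p1 (hH i))]

theorem Bas_smul (P : S_prod) {A : Set ℕ} {f : V → ℝ} (h : Bas_X A f) (c : ℝ) :
    Bas_X A (fun x => c * f x) := by
  obtain ⟨F, G, H, hF, hG, hH, rfl⟩ := h
  refine ⟨fun i s => c * F i s, G, H, fun i => P.mul (Bas_const c) (hF i), hG, hH, ?_⟩
  funext x
  rw [Finset.mul_sum]
  refine Finset.sum_congr rfl fun i _ => ?_
  unfold prd
  ring

theorem Bas_int2 (P : S_prod) (T : S_trig) {A B : Set ℕ} {f g : V → ℝ} (hf : Bas_X A f)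
    (hg : Bas_X B g) (h : ∀ a ∈ A, ∀ b ∈ B, a ≠ b) : ∫ x in cube, f x * g x = 0 := by
  obtain ⟨F, G, H, hF, hG, hH, rfl⟩ := hf
  obtain ⟨F', G', H', hF', hG', hH', rfl⟩ := hg
  have e : ∀ x, (∑ i, prd (F i) (G i) (H i) x) * (∑ j, prd (F' j) (G' j) (H' j) x) =
      ∑ i, ∑ j, prd (fun s => F i s * F' j s) (fun s => G i s * G' j s)
        (fun s => H i s * H' j s) x := by
    intro x
    rw [Finset.sum_mul_sum]
    refine Finset.sum_congr rfl fun i _ => Finset.sum_congr rfl fun j _ => ?_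
    unfold prd
    ring
  have hsp : ∀ i j, SP (prd (fun s => F i s * F' j s) (fun s => G i s * G' j s)
      (fun s => H i s * H' j s)) := fun i j =>
    P.sp (P.mul (hF i) (hF' j)) (P.mul (hG i) (hG' j)) (P.mul (T.p1 (hH i)) (T.p1 (hH' j)))
  simp_rw [e]
  rw [integral_finsetSum _ fun i _ => (SP.sum fun j _ => hsp i j).int]
  refine Finset.sum_eq_zero fun i _ => ?_
  rw [integral_finsetSum _ fun j _ => (hsp i j).int]
  refine Finset.sum_eq_zero fun j _ => ?_
  rw [P.int (P.mul (hF i) (hF' j)) (P.mul (hG i) (hG' j)) (P.mul (T.p1 (hH i)) (T.p1 (hH' j))),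
    T.int2 (hH i) (hH' j) h, mul_zero]

theorem Bas_int3 (P : S_prod) (T : S_trig) {A B C : Set ℕ} {f g k : V → ℝ} (hf : Bas_X A f)
    (hg : Bas_X B g) (hk : Bas_X C k)
    (h : ∀ a ∈ A, ∀ b ∈ B, ∀ c ∈ C, a ≠ b + c ∧ b ≠ a + c ∧ c ≠ a + b) :
    ∫ x in cube, f x * g x * k x = 0 := by
  obtain ⟨F, G, H, hF, hG, hH, rfl⟩ := hf
  obtain ⟨F', G', H', hF', hG', hH', rfl⟩ := hg
  obtain ⟨F'', G'', H'', hF'', hG'', hH'', rfl⟩ := hk
  have e : ∀ x, (∑ i, prd (F i) (G i) (H i) x) * (∑ j, prd (F' j) (G' j) (H' j) x) *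
      (∑ l, prd (F'' l) (G'' l) (H'' l) x) =
      ∑ i, ∑ j, ∑ l, prd (fun s => F i s * F' j s * F'' l s) (fun s => G i s * G' j s * G'' l s)
        (fun s => H i s * H' j s * H'' l s) x := by
    intro x
    rw [Finset.sum_mul_sum, Finset.sum_mul]
    refine Finset.sum_congr rfl fun i _ => ?_
    rw [Finset.sum_mul_sum]
    refine Finset.sum_congr rfl fun j _ => Finset.sum_congr rfl fun l _ => ?_
    unfold prd
    ring
  have hsp : ∀ i j l, SP (prd (fun s => F i s * F' j s * F'' l s)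
      (fun s => G i s * G' j s * G'' l s) (fun s => H i s * H' j s * H'' l s)) := fun i j l =>
    P.sp (P.mul (P.mul (hF i) (hF' j)) (hF'' l)) (P.mul (P.mul (hG i) (hG' j)) (hG'' l))
      (P.mul (P.mul (T.p1 (hH i)) (T.p1 (hH' j))) (T.p1 (hH'' l)))
  simp_rw [e]
  rw [integral_finsetSum _ fun i _ => (SP.sum fun j _ => SP.sum fun l _ => hsp i j l).int]
  refine Finset.sum_eq_zero fun i _ => ?_
  rw [integral_finsetSum _ fun j _ => (SP.sum fun l _ => hsp i j l).int]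
  refine Finset.sum_eq_zero fun j _ => ?_
  rw [integral_finsetSum _ fun l _ => (hsp i j l).int]
  refine Finset.sum_eq_zero fun l _ => ?_
  rw [P.int (P.mul (P.mul (hF i) (hF' j)) (hF'' l)) (P.mul (P.mul (hG i) (hG' j)) (hG'' l))
      (P.mul (P.mul (T.p1 (hH i)) (T.p1 (hH' j))) (T.p1 (hH'' l))),
    T.int3 (hH i) (hH' j) (hH'' l) h, mul_zero]

/-! ### Frequencies -/

theorem Bas_RR (m : ℕ) : 16 * RR m ≤ RR (m + 1) := by
  unfold RR
  have e : (m + 1 + 2) ^ 3 = (m + 2) ^ 3 + (3 * m ^ 2 + 15 * m + 19) := by ring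
  calc 16 * 2 ^ ((m + 2) ^ 3) = 2 ^ ((m + 2) ^ 3 + 4) := by rw [pow_add]; ring
    _ ≤ 2 ^ ((m + 1 + 2) ^ 3) := by
        refine Nat.pow_le_pow_right (by norm_num) ?_
        rw [e]
        omega

theorem Bas_NN (m : ℕ) : 4 * NN m ≤ NN (m + 1) := by
  unfold NN
  have h := Bas_RR m
  calc 4 * RR m ^ 2 ≤ (16 * RR m) ^ 2 := by nlinarith [sq_nonneg (RR m)]
    _ ≤ RR (m + 1) ^ 2 := Nat.pow_le_pow_left h 2

theorem Bas_NNpos (m : ℕ) : 1 ≤ NN m := by
  unfold NN RR
  exact Nat.one_le_two_pow.trans (Nat.le_self_pow two_ne_zero _)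

theorem Bas_NNlt {m n : ℕ} (h : m < n) : NN m < NN n := by
  refine strictMono_nat_of_lt_succ (f := NN) (fun k => ?_) h
  have h1 := Bas_NN k
  have h2 := Bas_NNpos k
  omega

theorem Bas_NNle {m n : ℕ} (h : m ≤ n) : NN m ≤ NN n := by
  rcases h.eq_or_lt with rfl | h
  · exact le_rfl
  · exact (Bas_NNlt h).le

/-- the frequencies of the `m`-th field in the last variable -/
def Bas_A (m : ℕ) : Set ℕ :=
  {k | 16 * NN m ≤ k ∧ k ≤ 17 * NN m - 1} ∪ {k | 1 ≤ m ∧ k = 2 * (17 * NN (m - 1) - 1)}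

theorem Bas_hi {m a : ℕ} (h : a ∈ Bas_A m) : a ≤ 17 * NN m - 1 := by
  rcases h with h | ⟨h1, h2⟩
  · exact h.2
  · obtain ⟨k, rfl⟩ : ∃ k, m = k + 1 := ⟨m - 1, by omega⟩
    rw [Nat.add_sub_cancel] at h2
    have h3 := Bas_NN k
    omega

theorem Bas_lo {k a : ℕ} (h : a ∈ Bas_A (k + 1)) : 2 * (17 * NN k - 1) ≤ a := by
  rcases h with h | ⟨h1, h2⟩
  · have h3 := Bas_NN k
    have h4 : 16 * NN (k + 1) ≤ a := h.1
    omega
  · rw [Nat.add_sub_cancel] at h2
    exact h2.ge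

theorem Bas_lt {m n a b : ℕ} (h : m < n) (ha : a ∈ Bas_A m) (hb : b ∈ Bas_A n) : a < b := by
  obtain ⟨k, rfl⟩ : ∃ k, n = k + 1 := ⟨n - 1, by omega⟩
  have h1 := Bas_hi ha
  have h2 := Bas_lo hb
  have h3 := Bas_NNle (show m ≤ k by omega)
  have h4 := Bas_NNpos k
  omega

theorem Bas_ne {m n : ℕ} (h : m ≠ n) : ∀ a ∈ Bas_A m, ∀ b ∈ Bas_A n, a ≠ b := by
  intro a ha b hb
  rcases lt_or_gt_of_ne h with h | h
  · exact (Bas_lt h ha hb).ne
  · exact (Bas_lt h hb ha).ne'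

theorem Bas_lt3 {i j m a b c : ℕ} (hi : i < m) (hj : j < m) (h : i + 1 < m ∨ j + 1 < m)
    (ha : a ∈ Bas_A i) (hb : b ∈ Bas_A j) (hc : c ∈ Bas_A m) : a + b < c := by
  obtain ⟨k, rfl⟩ : ∃ k, m = k + 1 := ⟨m - 1, by omega⟩
  have h1 := Bas_hi ha
  have h2 := Bas_hi hb
  have h3 := Bas_lo hc
  have h4 := Bas_NNle (show i ≤ k by omega)
  have h5 := Bas_NNle (show j ≤ k by omega)
  have h6 := Bas_NNpos i
  have h7 := Bas_NNpos j
  rcases h with h | h
  · have h8 := Bas_NNlt (show i < k by omega)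
    omega
  · have h8 := Bas_NNlt (show j < k by omega)
    omega

theorem Bas_trig {A B : Set ℕ} (h : A ⊆ B) {f : ℝ → ℝ} (hf : Trig A f) : Trig B f := by
  refine Submodule.span_mono ?_ hf
  rintro g (⟨k, hk, rfl⟩ | ⟨k, hk, rfl⟩)
  · exact Or.inl ⟨k, h hk, rfl⟩
  · exact Or.inr ⟨k, h hk, rfl⟩

theorem Bas_H (T : S_trig) (m : ℕ) : Trig (Bas_A m) (fH (NN m)) :=
  Bas_trig (fun _ hk => Or.inl hk) (T.H (NN m))

theorem Bas_th0 (P : S_prod) (O : S_one) (T : S_trig) (m : ℕ) : Bas_X (Bas_A m) (th0 m) := by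
  rcases Nat.eq_zero_or_pos m with rfl | hm
  · refine ⟨![fF (NN 0), fun _ => 0], ![fG (NN 0), fG (NN 0)], ![fH (NN 0), fH (NN 0)], ?_, ?_, ?_,
      ?_⟩
    · intro i
      fin_cases i
      · exact O.p1_F _
      · exact Bas_const 0
    · intro i
      fin_cases i
      · exact O.p1_G _
      · exact O.p1_G _
    · intro i
      fin_cases i
      · exact Bas_H T 0
      · exact Bas_H T 0
    · funext x
      rw [Fin.sum_univ_two]
      unfold th0 ee' psi prd
      simp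
  · refine ⟨![fF (NN m), fun s => ee' m * sn (4 * NN (m - 1) - 3) s],
      ![fG (NN m), cs (4 * NN (m - 1) - 2)], ![fH (NN m), sn (2 * (17 * NN (m - 1) - 1))],
      ?_, ?_, ?_, ?_⟩
    · intro i
      fin_cases i
      · exact O.p1_F _
      · exact P.mul (Bas_const _) (O.p1_sn _)
    · intro i
      fin_cases i
      · exact O.p1_G _
      · exact O.p1_cs _
    · intro i
      fin_cases i
      · exact Bas_H T m
      · exact T.sn (Or.inr ⟨hm, rfl⟩)
    · funext x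
      rw [Fin.sum_univ_two]
      unfold th0 psi chi prd
      simp only [Matrix.cons_val_zero, Matrix.cons_val_one]
      ring

/-! ### The fields -/

theorem Bas_phi0 (m : ℕ) (x : V) : phi m x 0 = -(nm m)⁻¹ * pd 2 (th0 m) x := rfl

theorem Bas_phi1 (m : ℕ) (x : V) : phi m x 1 = -(nm m)⁻¹ * 0 := rfl

theorem Bas_phi2 (m : ℕ) (x : V) : phi m x 2 = -(nm m)⁻¹ * -pd 0 (th0 m) x := rfl

theorem Bas_comp (P : S_prod) (O : S_one) (T : S_trig) (m : ℕ) (i : Fin 3) :
    Bas_X (Bas_A m) (fun x => phi m x i) := by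
  have h := Bas_th0 P O T m
  have hi : i = 0 ∨ i = 1 ∨ i = 2 := by
    revert i
    decide
  rcases hi with rfl | rfl | rfl
  · exact Bas_smul P (Bas_pd P T h 2) (-(nm m)⁻¹)
  · have h1 := Bas_smul P h 0
    have e : (fun x => phi m x 1) = fun x => 0 * th0 m x := by
      funext x
      rw [Bas_phi1]
      ring
    rw [e]
    exact h1
  · have h1 := Bas_smul P (Bas_pd P T h 0) ((nm m)⁻¹)
    have e : (fun x => phi m x 2) = fun x => (nm m)⁻¹ * pd 0 (th0 m) x := by
      funext x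
      rw [Bas_phi2]
      ring
    rw [e]
    exact h1

theorem Bas_pdc {f : V → ℝ} (hf : SP f) (c : ℝ) (j : Fin 3) (x : V) :
    pd j (fun y => c * f y) x = c * pd j f x := by
  unfold pd
  rw [fderiv_const_mul (hf.diff x) c]
  rfl

theorem Bas_div (P : S_prod) (O : S_one) (T : S_trig) (m : ℕ) (x : V) :
    ∑ i, pd i (fun y => phi m y i) x = 0 := by
  have h := Bas_sp P T (Bas_th0 P O T m)
  rw [Fin.sum_univ_three]
  have e1 : pd 0 (fun y => phi m y 0) x = -(nm m)⁻¹ * pd 0 (pd 2 (th0 m)) x :=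
    Bas_pdc (h.pd 2) _ 0 x
  have e2 : pd 1 (fun y => phi m y 1) x = 0 := by
    have e : (fun y => phi m y 1) = fun _ => (-(nm m)⁻¹ * 0 : ℝ) := rfl
    rw [e]
    unfold pd
    rw [fderiv_fun_const]
    rfl
  have e3 : pd 2 (fun y => phi m y 2) x = (nm m)⁻¹ * pd 2 (pd 0 (th0 m)) x := by
    have e : (fun y => phi m y 2) = fun y => (nm m)⁻¹ * pd 0 (th0 m) y := by
      funext y
      rw [Bas_phi2]
      ring
    rw [e]
    exact Bas_pdc (h.pd 0) _ 2 x
  rw [e1, e2, e3, pd_comm h 2 0]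
  ring

theorem Bas_anti (P : S_prod) (O : S_one) (T : S_trig) (i j m : ℕ) :
    tri (phi i) (phi j) (phi m) = -tri (phi i) (phi m) (phi j) := by
  have hs : ∀ m l, SP (fun x => phi m x l) := fun m l => Bas_sp P T (Bas_comp P O T m l)
  rw [eq_neg_iff_add_eq_zero]
  unfold tri
  rw [← Finset.sum_add_distrib]
  have e : ∀ k l : Fin 3, (∫ x in cube, phi i x k * phi j x l * pd k (fun y => phi m y l) x) +
      ∫ x in cube, phi i x k * phi m x l * pd k (fun y => phi j y l) x =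
      ∫ x in cube, phi i x k * pd k (fun y => phi j y l * phi m y l) x := by
    intro k l
    rw [← integral_add (((hs i k).mul (hs j l)).mul ((hs m l).pd k)).int
      (((hs i k).mul (hs m l)).mul ((hs j l).pd k)).int]
    congr 1
    funext x
    rw [pd_mul (hs j l) (hs m l)]
    ring
  simp_rw [← Finset.sum_add_distrib, e]
  rw [Finset.sum_comm]
  refine Finset.sum_eq_zero fun l _ => ?_
  exact int_press (v := fun k x => phi i x k) (fun k => hs i k) (Bas_div P O T i)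
    ((hs j l).mul (hs m l))

theorem Bas_tri0 (P : S_prod) (O : S_one) (T : S_trig) {i j m : ℕ}
    (h : ∀ a ∈ Bas_A i, ∀ b ∈ Bas_A j, ∀ c ∈ Bas_A m, a ≠ b + c ∧ b ≠ a + c ∧ c ≠ a + b) :
    tri (phi i) (phi j) (phi m) = 0 := by
  unfold tri
  refine Finset.sum_eq_zero fun k _ => Finset.sum_eq_zero fun l _ => ?_
  exact Bas_int3 P T (Bas_comp P O T i k) (Bas_comp P O T j l) (Bas_pd P T (Bas_comp P O T m l) k) h

theorem Bas_tri1 (P : S_prod) (O : S_one) (T : S_trig) {i m : ℕ} (h : i + 1 < m) :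
    tri (phi i) (phi i) (phi m) = 0 := by
  refine Bas_tri0 P O T fun a ha b hb c hc => ?_
  have := Bas_lt3 (by omega) (by omega) (Or.inl h) ha hb hc
  omega

theorem Bas_tri2 (P : S_prod) (O : S_one) (T : S_trig) {i j m : ℕ} (h1 : i ≠ j) (h2 : i ≠ m)
    (h3 : j ≠ m) : tri (phi i) (phi j) (phi m) = 0 := by
  refine Bas_tri0 P O T fun a ha b hb c hc => ?_
  by_cases hm : i < m ∧ j < m
  · have := Bas_lt3 hm.1 hm.2 (by omega) ha hb hc
    omega
  · by_cases hj : i < j ∧ m < j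
    · have := Bas_lt3 hj.1 hj.2 (by omega) ha hc hb
      omega
    · have := Bas_lt3 (show j < i by omega) (show m < i by omega) (by omega) hb hc ha
      omega

theorem s_basis (P : S_prod) (O : S_one) (G : S_trig) (h : S_nm) (hg : S_gg) : S_basis where
  sp := fun m i => Bas_sp P G (Bas_comp P O G m i)
  div := Bas_div P O G
  on := by
    intro m n
    split_ifs with hmn
    · subst hmn
      have h1 : 0 < nm m := (h m).2
      have h2 : 0 < ip (gp (th0 m)) (gp (th0 m)) := Real.sqrt_pos.1 h1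
      have h3 : nm m ^ 2 = ip (gp (th0 m)) (gp (th0 m)) := Real.sq_sqrt h2.le
      have h4 : ip (phi m) (phi m) = ((nm m)⁻¹) ^ 2 * ip (gp (th0 m)) (gp (th0 m)) := by
        unfold ip
        rw [Finset.mul_sum]
        refine Finset.sum_congr rfl fun i _ => ?_
        rw [← integral_const_mul]
        congr 1
        funext x
        have e : phi m x i = -(nm m)⁻¹ * gp (th0 m) x i := rfl
        rw [e]
        ring
      rw [h4, ← h3, ← mul_pow, inv_mul_cancel₀ h1.ne', one_pow]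
    · unfold ip
      exact Finset.sum_eq_zero fun i _ =>
        Bas_int2 P G (Bas_comp P O G m i) (Bas_comp P O G n i) (Bas_ne hmn)
  gon := by
    intro m n
    split_ifs with hmn
    · subst hmn
      rfl
    · unfold gip
      exact Finset.sum_eq_zero fun i _ => Finset.sum_eq_zero fun j _ =>
        Bas_int2 P G (Bas_pd P G (Bas_comp P O G m i) j) (Bas_pd P G (Bas_comp P O G n i) j)
          (Bas_ne hmn)
  mono := by
    refine monotone_nat_of_le_succ fun m => ?_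
    have h1 : (16 * RR m : ℝ) ≤ RR (m + 1) := by exact_mod_cast Bas_RR m
    have h2 : (16 * RR m : ℝ) ^ 4 ≤ (RR (m + 1) : ℝ) ^ 4 := pow_le_pow_left₀ (by positivity) h1 4
    have h3 : (0 : ℝ) ≤ (RR m : ℝ) ^ 4 := by positivity
    have h4 := (hg m).2
    have h5 := (hg (m + 1)).1
    have h6 : (16 * RR m : ℝ) ^ 4 = 2 ^ 16 * (RR m : ℝ) ^ 4 := by ring
    rw [h6] at h2
    linarith
  tri_eq := by
    intro i j m
    by_cases h1 : j = m
    · subst h1
      have h2 := Bas_anti P O G i j j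
      have h3 : tri (phi i) (phi j) (phi j) = 0 := by linarith
      rw [h3, if_neg (by omega), if_neg (by omega), if_neg (by omega)]
      ring
    · by_cases h2 : i = m
      · subst h2
        rw [Bas_anti P O G i j i]
        rcases lt_or_gt_of_ne h1 with h3 | h3
        · rw [if_pos ⟨h3, rfl⟩, if_neg (by omega), if_neg (by omega), if_neg (by omega)]
          unfold cc
          ring
        · rw [if_neg (by omega), if_neg (by omega), if_neg (by omega)]
          by_cases h4 : j = i + 1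
          · rw [if_pos ⟨rfl, h4⟩, h4]
            unfold pp
            ring
          · rw [if_neg (by omega), Bas_tri1 P O G (by omega)]
            ring
      · by_cases h3 : i = j
        · subst h3
          rcases lt_or_gt_of_ne h1 with h4 | h4
          · rw [if_neg (by omega), if_neg (by omega), if_neg (c := i = m ∧ i = i + 1) (by omega)]
            by_cases h5 : m = i + 1
            · rw [if_pos ⟨rfl, h5⟩, h5]
              unfold pp
              ring
            · rw [if_neg (by omega), Bas_tri1 P O G (by omega)]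
              ring
          · rw [if_neg (by omega), if_pos ⟨h4, rfl⟩, if_neg (by omega), if_neg (by omega)]
            unfold cc
            ring
        · rw [if_neg (by omega), if_neg (by omega), if_neg (by omega), if_neg (by omega),
            Bas_tri2 P O G h3 h2 h1]
          ring

end Pool.Agent.H226.GB

end
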