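import Pool.Agent.H226.GM.Coef
import Pool.Agent.H226.GM.OdeC
import Pool.Agent.H226.GM.PlanGrow
import Pool.Agent.H226.GM.OneDim
import Pool.Agent.H226.GM.Norm
import Pool.Agent.H226.GM.Coup
import Pool.Agent.H226.GM.Pump
import Pool.Agent.H226.GM.Uniq
import Pool.Agent.H226.GM.LocA
import Pool.Agent.H226.GM.LocB
import Pool.Agent.H226.GM.Red

/-! ## Fin2 -/

section

/-!
Blow-up for the Galerkin projection of the Navier-Stokes equations onto the closed span of the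
fields `phi m`.
-/

open MeasureTheory Set Filter Topology
open scoped ContDiff
open H459R3.NS

namespace Pool.Agent.H226.GB

theorem f_nm : S_nm := s_nm s_prod s_one s_trig

theorem f_gg : S_gg := s_gg s_prod s_one s_trig f_nm

theorem f_cc : S_cc := s_cc s_prod s_one s_trig f_nm

theorem f_ccu : S_ccu := s_ccu s_prod s_one s_trig f_nm

theorem f_pp : S_pp := s_pp s_prod s_one s_trig f_nm

theorem f_bas : Basis phi cc pp gg := s_basis s_prod s_one s_trig f_nm f_gg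

theorem f_sf (m : ℕ) : RedSF (phi m) := f_bas.sp m

theorem f_coef {ν : ℝ} (hν : 0 ≤ ν) : Coef cc pp (fun m => ν * gg m) (2 ^ 10 + ν * 2 ^ 14) :=
  Fin_coef s_prod s_one s_trig f_nm f_gg f_ccu hν

theorem f_ch {ν ν₀ : ℝ} (hν0 : 0 ≤ ν) (hν : ν ≤ ν₀) :
    CH cc pp (fun m => ν * gg m) (ν₀ * 2 ^ 14) := by
  refine ⟨f_cc, fun n hn => (f_pp n hn).2, fun n hn => (f_pp n hn).1, fun n => ?_⟩
  have h1 := f_gg n
  have h0 := Fin_gg0 f_gg n
  calc ν * gg n ≤ ν₀ * gg n := mul_le_mul_of_nonneg_right hν h0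
    _ ≤ ν₀ * (2 ^ 14 * (RR n : ℝ) ^ 4) := mul_le_mul_of_nonneg_left h1.2 (hν0.trans hν)
    _ = _ := by ring

theorem f_ip_comb (d : ℕ → ℝ) (M m : ℕ) :
    ip (red_comb phi d M) (phi m) = if m < M then d m else 0 := by
  rw [red_ip_comb_left f_sf d M (f_sf m)]
  simp_rw [f_bas.on]
  by_cases hm : m < M
  · rw [if_pos hm, Finset.sum_eq_single m]
    · rw [if_pos rfl, mul_one]
    · intro k _ hk
      rw [if_neg hk, mul_zero]
    · intro h
      exact absurd (Finset.mem_range.2 hm) h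
  · rw [if_neg hm]
    refine Finset.sum_eq_zero fun k hk => ?_
    have := Finset.mem_range.1 hk
    rw [if_neg (by omega), mul_zero]

/-- the data: the modes below `L` are prescribed -/
noncomputable def dat (b : ℕ → ℝ) (L : ℕ) (A : ℝ) (m0 : ℕ) (m : ℕ) : ℝ :=
  if m < L then b m else if m = m0 then al m0 / A else if m = m0 + 1 then rr m0 / A else 0

/-- exponents -/
theorem f_expo {e : ℕ} {s : ℝ} (hs : s < e / 2) : ∃ q : ℕ, 1 ≤ q ∧ ∃ δ : ℝ, 0 < δ ∧
    ∀ x : ℕ, 4 * s * x - 2 * ((e * x - x / q : ℕ) : ℝ) ≤ -(δ * x) := by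
  obtain ⟨q, hq⟩ := exists_nat_gt (1 / (e / 2 - s))
  have hd : 0 < (e : ℝ) / 2 - s := by linarith
  have hq0 : (0 : ℝ) < q := lt_trans (by positivity) hq
  have hq1 : 1 ≤ q := by
    have : 0 < q := by exact_mod_cast hq0
    omega
  have h1 : 1 / (q : ℝ) < e / 2 - s := by
    rw [div_lt_iff₀ hd] at hq
    rw [div_lt_iff₀ hq0]
    linarith
  refine ⟨q, hq1, 2 * (e / 2 - s), by linarith, fun x => ?_⟩
  have h2 : ((x / q : ℕ) : ℝ) ≤ (x : ℝ) / q := Nat.cast_div_le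
  have h3 : (e : ℝ) * x - ((x / q : ℕ) : ℝ) ≤ ((e * x - x / q : ℕ) : ℝ) := by
    have h4 : ((e * x : ℕ) : ℝ) ≤ ((e * x - x / q + x / q : ℕ) : ℝ) := by
      exact_mod_cast (by omega : e * x ≤ e * x - x / q + x / q)
    push_cast at h4 ⊢
    linarith
  have hx : (0 : ℝ) ≤ x := Nat.cast_nonneg x
  have h5 : (x : ℝ) / q ≤ x * (e / 2 - s) := by
    rw [div_eq_mul_one_div]
    exact mul_le_mul_of_nonneg_left h1.le hx
  have h6 : (e : ℝ) * x - x * (e / 2 - s) ≤ ((e * x - x / q : ℕ) : ℝ) := by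
    linarith only [h2, h3, h5]
  have h7 : 4 * s * x - 2 * ((e : ℝ) * x - x * (e / 2 - s)) = -(2 * (e / 2 - s) * x) := by ring
  linarith only [h6, h7]

/-- **blow-up**: near every finite combination of the fields, in the norm of `H^s`, there are data
without a smooth solution on `[0, T)`, whatever the viscosity in `[0, ν₀]` is. Here `s < 1/2`
(`e = 1`), or `s < 5/2` in the case `ν₀ = 0` (`e = 5`). -/
theorem noSol {ν₀ T : ℝ} (hν₀ : 0 ≤ ν₀) (hT : 0 < T) (b : ℕ → ℝ) (L : ℕ) {e : ℕ}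
    (he : e = 1 ∨ e = 5 ∧ ν₀ = 0) {s : ℝ} (hs0 : 0 ≤ s) (hs : s < e / 2) {ε : ℝ} (hε : 0 < ε) :
    ∃ (M : ℕ) (d : ℕ → ℝ), L ≤ M ∧ (∀ m < L, d m = b m) ∧
      ∑ m ∈ Finset.Ico L M, (RR m : ℝ) ^ (4 * s) * d m ^ 2 < ε ∧
      ∀ ν, 0 ≤ ν → ν ≤ ν₀ → ∀ u, IsGal phi ν T u → u 0 ≠ red_comb phi d M := by
  obtain ⟨q, hq, δ, hδ, hexp⟩ := f_expo hs
  -- the size of the data
  set B : ℝ := 1 + ∑ m ∈ Finset.range L, |b m| with hB
  have hsn : 0 ≤ ∑ m ∈ Finset.range L, |b m| := Finset.sum_nonneg fun m _ => abs_nonneg _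
  have hB1 : 1 ≤ B := by linarith
  have hbB : ∑ m ∈ Finset.range L, b m ^ 2 + 1 ≤ B ^ 2 := by
    have h1 : ∑ m ∈ Finset.range L, b m ^ 2 ≤ (∑ m ∈ Finset.range L, |b m|) ^ 2 := by
      rw [sq (∑ m ∈ Finset.range L, |b m|), Finset.sum_mul]
      refine Finset.sum_le_sum fun m hm => ?_
      rw [← sq_abs, sq]
      exact mul_le_mul_of_nonneg_left (Finset.single_le_sum (f := fun m => |b m|)
        (fun m _ => abs_nonneg _) hm) (abs_nonneg _)
    have h2 : B ^ 2 = 1 + 2 * (∑ m ∈ Finset.range L, |b m|)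
        + (∑ m ∈ Finset.range L, |b m|) ^ 2 := by rw [hB]; ring
    rw [h2]
    linarith only [h1, hsn]
  have hT2 : 0 < T / 2 := by linarith
  have hK : 0 ≤ ν₀ * 2 ^ 14 := mul_nonneg hν₀ (pow_nonneg zero_le_two 14)
  obtain ⟨m1, hLm1, hm1, hblow⟩ := blow2 s_plan s_grow s_low s_num hK hT2
    (show 0 ≤ B by linarith) (L := L + 1) (q := q) (by omega) hq
  -- the level
  obtain ⟨N, hN⟩ : ∃ N : ℕ, 2 * (2 : ℝ) ^ (-(δ * N)) < ε := by
    have h1 : Tendsto (fun N : ℕ => 2 * (2 : ℝ) ^ (-(δ * N))) atTop (𝓝 (2 * 0)) := by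
      refine Tendsto.const_mul 2 ?_
      have h2 : Tendsto (fun N : ℕ => -(δ * (N : ℝ))) atTop atBot :=
        tendsto_neg_atTop_atBot.comp (tendsto_natCast_atTop_atTop.const_mul_atTop hδ)
      exact (tendsto_rpow_atBot_of_base_gt_one 2 (by norm_num)).comp h2
    rw [mul_zero] at h1
    exact (h1.eventually_lt_const hε).exists
  set m0 := max m1 (max N L) with hm0
  have hm01 : m1 ≤ m0 := le_max_left _ _
  have hm0N : N ≤ m0 := (le_max_left _ _).trans (le_max_right _ _)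
  have hm0L : L ≤ m0 := (le_max_right _ _).trans (le_max_right _ _)
  obtain ⟨x, hx⟩ : ∃ x, x = (m0 + 2) ^ 3 := ⟨_, rfl⟩
  have hxN : N ≤ x := by
    rw [hx]
    have : m0 + 2 ≤ (m0 + 2) ^ 3 := Nat.le_self_pow (by norm_num) _
    omega
  obtain ⟨A, hA⟩ : ∃ A : ℝ, A = 2 ^ (e * x - x / q) := ⟨_, rfl⟩
  have hA1 : 1 ≤ A := by rw [hA]; exact one_le_pow₀ (by norm_num)
  have hA0 : 0 < A := by linarith
  have ha0 := al_pos m0
  have ha1 := al_le m0
  have hr0 := rr_pos m0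
  have hr1 := rr_le m0
  have hd0 : dat b L A m0 m0 = al m0 / A := by
    unfold dat
    rw [if_neg (by omega), if_pos rfl]
  have hd1 : dat b L A m0 (m0 + 1) = rr m0 / A := by
    unfold dat
    rw [if_neg (by omega), if_neg (by omega), if_pos rfl]
  have hdz : ∀ m, L ≤ m → m ≠ m0 → m ≠ m0 + 1 → dat b L A m0 m = 0 := by
    intro m h1 h2 h3
    unfold dat
    rw [if_neg (by omega), if_neg h2, if_neg h3]
  have hsumw : ∀ w : ℕ → ℝ, ∑ m ∈ Finset.Ico L (m0 + 2), w m * dat b L A m0 m ^ 2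
      = w m0 * (al m0 / A) ^ 2 + w (m0 + 1) * (rr m0 / A) ^ 2 := by
    intro w
    have h1 : ∀ m ∈ Finset.Ico L m0, w m * dat b L A m0 m ^ 2 = 0 := by
      intro m hm
      have h2 := Finset.mem_Ico.1 hm
      rw [hdz m (by omega) (by omega) (by omega)]
      ring
    rw [Finset.sum_Ico_succ_top (by omega), Finset.sum_Ico_succ_top (by omega),
      Finset.sum_eq_zero h1, hd0, hd1]
    ring
  have h2p : (0 : ℝ) < 2 := by norm_num
  have hRx : (RR m0 : ℝ) = (2 : ℝ) ^ (x : ℝ) := by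
    rw [ParP_RR, hx, Real.rpow_natCast]
  have hAx : A = (2 : ℝ) ^ ((e * x - x / q : ℕ) : ℝ) := by rw [hA, Real.rpow_natCast]
  have hmain : (RR m0 : ℝ) ^ (4 * s) / A ^ 2 ≤ (2 : ℝ) ^ (-(δ * N)) := by
    have e1 : (RR m0 : ℝ) ^ (4 * s) / A ^ 2
        = (2 : ℝ) ^ (4 * s * x - 2 * ((e * x - x / q : ℕ) : ℝ)) := by
      rw [hRx, hAx, ← Real.rpow_mul h2p.le, ← Real.rpow_natCast, ← Real.rpow_mul h2p.le,
        ← Real.rpow_sub h2p]
      congr 1
      push_cast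
      ring
    rw [e1]
    refine Real.rpow_le_rpow_of_exponent_le (by norm_num) ((hexp x).trans ?_)
    have : (N : ℝ) ≤ x := Nat.cast_le.2 hxN
    exact neg_le_neg (mul_le_mul_of_nonneg_left this hδ.le)
  have he5 : (e : ℝ) ≤ 5 := by
    rcases he with rfl | ⟨rfl, -⟩ <;> norm_num
  have hR1 : (1 : ℝ) ≤ RR m0 := one_le_RR m0
  have hsecond : (RR (m0 + 1) : ℝ) ^ (4 * s) * rr m0 ^ 2 ≤ 1 := by
    have h1 := one_le_RR (m0 + 1)
    have h2 : (RR (m0 + 1) : ℝ) ^ (4 * s) ≤ (RR (m0 + 1) : ℝ) ^ (10 : ℝ) :=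
      Real.rpow_le_rpow_of_exponent_le h1 (by linarith)
    have h3 : (RR (m0 + 1) : ℝ) ^ (10 : ℝ) = (RR (m0 + 1) : ℝ) ^ 10 := by
      rw [← Real.rpow_natCast]; norm_num
    have h4 : rr m0 ≤ 1 / (RR (m0 + 1) : ℝ) ^ 5 := by
      unfold rr Gm
      have h5 : (0 : ℝ) < (RR (m0 + 1) : ℝ) ^ 5 := pow_pos (RR_pos _) 5
      refine one_div_le_one_div_of_le h5 ?_
      linarith only [h5]
    calc (RR (m0 + 1) : ℝ) ^ (4 * s) * rr m0 ^ 2
        ≤ (RR (m0 + 1) : ℝ) ^ 10 * (1 / (RR (m0 + 1) : ℝ) ^ 5) ^ 2 :=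
          mul_le_mul (h2.trans_eq h3) (pow_le_pow_left₀ hr0.le h4 2) (sq_nonneg _)
            (pow_nonneg (RR_pos _).le 10)
      _ = 1 := by
          have h5 : (RR (m0 + 1) : ℝ) ^ 5 ≠ 0 := (pow_pos (RR_pos _) 5).ne'
          rw [div_pow, one_pow, ← pow_mul]
          field_simp
  refine ⟨m0 + 2, dat b L A m0, by omega, fun m hm => ?_, ?_, fun ν hν hνν u hu hu0 => ?_⟩
  · unfold dat
    rw [if_pos hm]
  · rw [hsumw fun m => (RR m : ℝ) ^ (4 * s)]
    have h1 : (RR m0 : ℝ) ^ (4 * s) * (al m0 / A) ^ 2 ≤ (2 : ℝ) ^ (-(δ * N)) := by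
      refine le_trans ?_ hmain
      rw [div_pow, mul_div_assoc']
      refine div_le_div_of_nonneg_right ?_ (sq_nonneg A)
      have : al m0 ^ 2 ≤ 1 := pow_le_one₀ ha0.le ha1
      have h2 : 0 ≤ (RR m0 : ℝ) ^ (4 * s) := Real.rpow_nonneg (RR_pos m0).le _
      exact mul_le_of_le_one_right h2 this
    have h2 : (RR (m0 + 1) : ℝ) ^ (4 * s) * (rr m0 / A) ^ 2 ≤ (2 : ℝ) ^ (-(δ * N)) := by
      refine le_trans ?_ hmain
      rw [div_pow, mul_div_assoc']
      refine div_le_div_of_nonneg_right (hsecond.trans ?_) (sq_nonneg A)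
      exact Real.one_le_rpow hR1 (by linarith)
    linarith
  -- the contradiction
  have hccb : ∀ n, ∃ C, ∀ l, |cc n l| ≤ C := by
    intro n
    refine ⟨2 ^ 10 * (RR n : ℝ) ^ 5 + ∑ l ∈ Finset.range (n + 1), |cc n l|, fun l => ?_⟩
    have h1 : 0 ≤ ∑ l ∈ Finset.range (n + 1), |cc n l| := Finset.sum_nonneg fun _ _ => abs_nonneg _
    have h2 : (0 : ℝ) ≤ 2 ^ 10 * (RR n : ℝ) ^ 5 :=
      mul_nonneg (by norm_num) (pow_nonneg (RR_pos n).le 5)
    by_cases hl : n < l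
    · have := f_ccu n l hl
      linarith
    · have := Finset.single_le_sum (f := fun l => |cc n l|) (fun l _ => abs_nonneg _)
        (Finset.mem_range.2 (show l < n + 1 by omega))
      linarith
  obtain ⟨S, W, Q, hsh, hQ⟩ := s_red phi cc pp gg f_bas hccb ν T u hν hu (T / 2) ⟨hT2, by linarith⟩
  have ha : ∀ m, ip (u 0) (phi m) = if m < m0 + 2 then dat b L A m0 m else 0 := fun m => by
    rw [hu0]; exact f_ip_comb _ _ m
  have hS0 : S 0 = ∑ m ∈ Finset.range (m0 + 2), dat b L A m0 m ^ 2 := by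
    have h1 := hsh.sum 0 ⟨le_rfl, hT2.le⟩
    simp only [ha] at h1
    have h2 : (fun m => (if m < m0 + 2 then dat b L A m0 m else 0) ^ 2)
        = fun m => if m < m0 + 2 then dat b L A m0 m ^ 2 else 0 := by
      funext m
      split_ifs
      · rfl
      · norm_num
    rw [h2] at h1
    have h3 : HasSum (fun m => if m < m0 + 2 then dat b L A m0 m ^ 2 else 0)
        (∑ m ∈ Finset.range (m0 + 2), if m < m0 + 2 then dat b L A m0 m ^ 2 else 0) :=
      hasSum_sum_of_ne_finset_zero fun k hk => by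
        rw [Finset.mem_range] at hk; exact if_neg hk
    rw [h1.unique h3]
    exact Finset.sum_congr rfl fun m hm => if_pos (Finset.mem_range.1 hm)
  have hS2 : S 0 ≤ B ^ 2 := by
    have h0 := hsumw fun _ => 1
    simp only [one_mul] at h0
    rw [hS0, ← Finset.sum_range_add_sum_Ico _ (show L ≤ m0 + 2 by omega), h0]
    have h1 : ∑ m ∈ Finset.range L, dat b L A m0 m ^ 2 = ∑ m ∈ Finset.range L, b m ^ 2 :=
      Finset.sum_congr rfl fun m hm => by
        unfold dat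
        rw [if_pos (Finset.mem_range.1 hm)]
    rw [h1]
    have h2 : (al m0 / A) ^ 2 ≤ 1 / 4 := by
      have e1 : al m0 ≤ 1 / 2 := by
        unfold al
        calc (1 / 2 ^ 29 : ℝ) ^ m0 ≤ (1 / 2 ^ 29) ^ 1 :=
              pow_le_pow_of_le_one (by norm_num) (by norm_num) (by omega)
          _ ≤ 1 / 2 := by norm_num
      have e2 : al m0 / A ≤ 1 / 2 := (div_le_self ha0.le hA1).trans e1
      have e3 : 0 ≤ al m0 / A := div_nonneg ha0.le hA0.le
      exact (pow_le_pow_left₀ e3 e2 2).trans_eq (by norm_num)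
    have h3 : (rr m0 / A) ^ 2 ≤ 1 / 4 := by
      have e2 : rr m0 / A ≤ 1 / 2 := (div_le_self hr0.le hA1).trans hr1
      have e3 : 0 ≤ rr m0 / A := div_nonneg hr0.le hA0.le
      exact (pow_le_pow_left₀ e3 e2 2).trans_eq (by norm_num)
    linarith only [h2, h3, hbB]
  have hx5 : A ≤ 2 ^ (5 * (m0 + 2) ^ 3 - (m0 + 2) ^ 3 / q) := by
    rw [hA, ← hx]
    refine pow_le_pow_right₀ (by norm_num) (Nat.sub_le_sub_right ?_ _)
    have : e ≤ 5 := by rcases he with rfl | ⟨rfl, -⟩ <;> norm_num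
    exact Nat.mul_le_mul_right x this
  have hKA : ν₀ * 2 ^ 14 * A ≤ ν₀ * 2 ^ 14 * 2 ^ ((m0 + 2) ^ 3 - (m0 + 2) ^ 3 / q) := by
    rcases he with rfl | ⟨-, h0⟩
    · rw [hA, one_mul, ← hx]
    · rw [h0]; simp
  refine hblow m0 hm01 A hA1 hx5 hKA cc pp (fun m => ν * gg m) _ S W (f_ch hν hνν)
    (fun n l hnl => f_ccu n l hnl)
    (fun n => (Fin_pp_bd s_prod s_one s_trig f_nm n).1)
    (fun n => (Fin_pp_bd s_prod s_one s_trig f_nm n).2)
    (fun n => mul_nonneg hν (Fin_gg0 f_gg n))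
    (fun i j hij => mul_le_mul_of_nonneg_left (f_bas.mono hij) hν) hsh hS2 (fun m hm hm' => ?_)
    ?_ ?_ (fun m hm => ?_) ⟨Q + 1, fun t ht m => ?_⟩
  · show ip (u 0) (phi m) = 0
    rw [ha, if_pos (by omega), hdz m (by omega) (by omega) (by omega)]
  · show ip (u 0) (phi m0) = al m0 / A
    rw [ha, if_pos (by omega), hd0]
  · show ip (u 0) (phi (m0 + 1)) = rr m0 / A
    rw [ha, if_pos (by omega), hd1]
  · show ip (u 0) (phi m) = 0
    rw [ha, if_neg (by omega)]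
  · show (RR m : ℝ) * |ip (u t) (phi m)| ≤ Q + 1
    have h1 := hQ t ht m
    have h2 := (f_gg m).1
    have h3 := one_le_RR m
    obtain ⟨x, hx⟩ : ∃ x, x = |ip (u t) (phi m)| := ⟨_, rfl⟩
    have hx0 : 0 ≤ x := by rw [hx]; exact abs_nonneg _
    have h4 : ip (u t) (phi m) ^ 2 = x ^ 2 := by rw [hx, sq_abs]
    rw [h4] at h1
    rw [← hx]
    obtain ⟨r, hr⟩ : ∃ r, r = (RR m : ℝ) := ⟨_, rfl⟩
    rw [← hr] at h2 h3 ⊢
    have h5 : r ^ 2 ≤ r ^ 4 := pow_le_pow_right₀ h3 (by norm_num)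
    have h6 : r ^ 2 * x ^ 2 ≤ Q :=
      le_trans (mul_le_mul_of_nonneg_right (h5.trans h2) (sq_nonneg x)) h1
    have h7 : (r * x) ^ 2 ≤ Q := by rw [mul_pow]; exact h6
    have h8 : 0 ≤ r * x := mul_nonneg (zero_le_one.trans h3) hx0
    generalize r * x = w at h7 h8 ⊢
    have h9 : 0 ≤ w ^ 2 - 2 * w + 1 := (sq_nonneg (w - 1)).trans_eq (by ring)
    linarith only [h7, h8, h9]

end Pool.Agent.H226.GB

end
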