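import Pool.Agent.H226.GM.Spc12
import Pool.Agent.H226.GM.OdeB

/-! ## Tls -/

section

/-!
If the threshold of the next stage is not reached, all exponents are bounded.
-/

open MeasureTheory Set Filter Topology

namespace Pool.Agent.H226.GB

section

variable {l1 : ℕ} {c : ℕ → ℕ → ℝ} {p ν : ℕ → ℝ} {T T1 K : ℝ} {a : ℕ → ℝ → ℝ} {S : ℝ → ℝ}
  {W : ℕ → ℝ → ℝ} {m : ℕ}

lemma tls_om (n : ℕ) : 0 ≤ om n := by
  unfold om
  have h1 := RR_pos n
  have h2 := RR_pos (n - 1)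
  positivity

lemma tls_Bm_one (hp : Par K T m) : Bm m + 1 ≤ Bm (m + 1) := by
  have h1 := hp.f6
  have h2 := mul_nonneg (Dm_pos m).le (SG_nonneg (m + 1))
  have h3 := tls_om (m + 1)
  linarith only [h1, h2, h3]

lemma tls_Bm (hp : ∀ l, m ≤ l → Par K T l) (k : ℕ) : Bm (m + 1) + 1 ≤ Bm (m + 2 + k) := by
  induction k with
  | zero => exact tls_Bm_one (hp (m + 1) (by omega))
  | succ k ih =>
    have h1 := tls_Bm_one (hp (m + 2 + k) (by omega))
    have h2 : Bm (m + 2 + (k + 1)) = Bm (m + 2 + k + 1) := rfl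
    linarith only [h1, h2, ih]

/-- the exponents are monotone in the level -/
lemma tls_Ph_le {j l : ℕ} (hc : ∀ m, Continuous (a m)) {t : ℝ} (ht : 0 ≤ t) (hjl : j ≤ l) :
    Ph Gm a j t ≤ Ph Gm a l t := by
  induction l, hjl using Nat.le_induction with
  | base => exact le_rfl
  | succ l _ ih =>
    rw [Ph_succ]
    have h1 := mul_nonneg (Gm_pos (l + 1)).le (II_nonneg (hc (l + 1)) ht)
    linarith only [h1, ih]

/-- a bound of a level gives a bound of its contribution to the exponent -/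
lemma tls_Ph_add (h : Sys l1 c Gm p ν T1 a S W) (hT0 : 0 ≤ T1) (hT1 : T1 ≤ 1) {l : ℕ} {C : ℝ}
    (hC : 0 ≤ C) (hb : ∀ t ∈ Icc 0 T1, |a (l + 1) t| ≤ rr l * C) :
    Ph Gm a (l + 1) T1 ≤ Ph Gm a l T1 + C := by
  rw [Ph_succ]
  have h2 : II a (l + 1) T1 - II a (l + 1) 0 ≤ rr l * C * (T1 - 0) :=
    II_sub_le (h.cont _) hT0 hb
  rw [II_zero, sub_zero, sub_zero] at h2
  have h3 : 0 ≤ rr l * C := mul_nonneg (rr_pos l).le hC
  have h5 : II a (l + 1) T1 ≤ rr l * C := h2.trans (mul_le_of_le_one_right h3 hT1)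
  have h6 : 2 * Gm (l + 1) * rr l * C = C := by rw [Gm_rr, one_mul]
  have h7 := mul_le_mul_of_nonneg_left h5 (Gm_pos (l + 1)).le
  linarith only [h6, h7]

/-- from one level to the next one -/
lemma tls_step (h : Sys l1 c Gm p ν T1 a S W) (hc : CH c p ν K) (hT0 : 0 ≤ T1) (hT1 : T1 ≤ 1)
    {l : ℕ} (hl1 : l1 ≤ l) (hp : Par K T l) (ha : 0 ≤ a (l + 1) 0)
    (hz : tl a S (l + 2) 0 ≤ 0) (hφ : Ph Gm a (l + 1) T1 ≤ Bm l + 1) {ε : ℝ} (hε : 0 ≤ ε)
    (hb : ∀ t ∈ Icc 0 T1, |a (l + 1) t| ≤ ε) :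
    (∀ t ∈ Icc 0 T1, |a (l + 2) t| ≤ ε / 2) ∧ Ph Gm a (l + 2) T1 ≤ Ph Gm a (l + 1) T1 + ε / 2 := by
  have hφ1 : Ph Gm a (l + 1) T1 ≤ bb (l + 1) - 1 := by linarith only [hp.f5, hφ]
  have hst := star h hc (l := l + 1) (by omega) (by omega) ha hz ⟨hT0, le_rfl⟩ hφ1
  have hmono := Ph_mono (fun n => (Gm_pos n).le) h.cont (l + 1)
  have hr := rr_pos (l + 1)
  have key : ∀ t ∈ Icc 0 T1, |a (l + 2) t| ≤ rr (l + 1) * (ε / 2) := by
    intro t ht
    obtain ⟨g1, g2⟩ := hst t ht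
    have g3 : Ph Gm a (l + 1) t ≤ Bm l + 1 := (hmono ht.2).trans hφ
    have g4 : Real.exp (Ph Gm a (l + 1) t - bb (l + 1)) ≤ Real.exp (Bm l + 1 - bb (l + 1)) :=
      Real.exp_le_exp.2 (by linarith only [g3])
    have g5 : a (l + 1) t ≤ ε := (le_abs_self _).trans (hb t ht)
    have g6 : Real.exp (Ph Gm a (l + 1) t - bb (l + 1)) * a (l + 1) t ≤ rr (l + 1) / 2 * ε := by
      have g : Real.exp (Ph Gm a (l + 1) t - bb (l + 1)) ≤ rr (l + 1) / 2 := by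
        linarith only [g4, hp.f5']
      exact mul_le_mul g g5 g1 (half_pos hr).le
    have g7 : 0 ≤ Real.exp (Ph Gm a (l + 1) t - bb (l + 1)) * a (l + 1) t :=
      mul_nonneg (Real.exp_pos _).le g1
    have g8 : a (l + 2) t ^ 2 ≤ tl a S (l + 2) t := h.sq_le_tl ht (l + 2)
    have g9 : (Real.exp (Ph Gm a (l + 1) t - bb (l + 1)) * a (l + 1) t) ^ 2
        ≤ (rr (l + 1) / 2 * ε) ^ 2 := pow_le_pow_left₀ g7 g6 2
    have g10 : a (l + 2) t ^ 2 ≤ (rr (l + 1) * (ε / 2)) ^ 2 := by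
      have e : rr (l + 1) / 2 * ε = rr (l + 1) * (ε / 2) := by ring
      rw [← e]
      exact (g8.trans g2).trans g9
    exact abs_le_of_sq_le_sq g10 (mul_nonneg hr.le (div_nonneg hε zero_le_two))
  refine ⟨fun t ht => (key t ht).trans ?_, tls_Ph_add h hT0 hT1 (div_nonneg hε zero_le_two) key⟩
  have h1 : rr (l + 1) ≤ 1 := by linarith only [rr_le (l + 1)]
  exact mul_le_of_le_one_left (div_nonneg hε zero_le_two) h1

/-- all levels `≥ m + 2` -/
lemma tls_all (h : Sys l1 c Gm p ν T1 a S W) (hc : CH c p ν K) (hT0 : 0 ≤ T1) (hT1 : T1 ≤ 1)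
    (hlm : l1 + 1 ≤ m) (hp : ∀ l, m ≤ l → Par K T l) (ha : ∀ l, m + 1 ≤ l → 0 ≤ a l 0)
    (hz : ∀ l, m + 2 ≤ l → tl a S l 0 ≤ 0)
    (hle : ∀ t ∈ Icc 0 T1, tl a S (m + 2) t ≤ rr (m + 1) ^ 2)
    (hph : Ph Gm a (m + 1) T1 ≤ Bm (m + 1)) (k : ℕ) :
    Ph Gm a (m + 2 + k) T1 ≤ Bm (m + 1) + 2 - (1 / 2) ^ k ∧
      ∀ t ∈ Icc 0 T1, |a (m + 2 + k) t| ≤ (1 / 2) ^ k := by
  induction k with
  | zero =>
    have h1 : ∀ t ∈ Icc 0 T1, |a (m + 2) t| ≤ rr (m + 1) := fun t ht =>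
      abs_le_of_sq_le_sq ((h.sq_le_tl ht (m + 2)).trans (hle t ht)) (rr_pos (m + 1)).le
    refine ⟨?_, fun t ht => ?_⟩
    · have h2 : Ph Gm a (m + 2) T1 ≤ Ph Gm a (m + 1) T1 + 1 :=
        tls_Ph_add h hT0 hT1 zero_le_one fun t ht => by
          rw [mul_one]; exact h1 t ht
      have h3 : Ph Gm a (m + 2 + 0) T1 = Ph Gm a (m + 2) T1 := rfl
      rw [pow_zero]
      linarith only [h2, h3, hph]
    · rw [pow_zero]
      have h2 := rr_le (m + 1)
      have h3 : |a (m + 2 + 0) t| ≤ rr (m + 1) := h1 t ht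
      linarith only [h2, h3]
  | succ k ih =>
    obtain ⟨ih1, ih2⟩ := ih
    have hpos : (0 : ℝ) ≤ (1 / 2) ^ k := by positivity
    have hφ : Ph Gm a (m + 1 + k + 1) T1 ≤ Bm (m + 1 + k) + 1 := by
      have e : m + 1 + k + 1 = m + 2 + k := by omega
      rw [e]
      rcases k with _ | k
      · have h3 : Bm (m + 1 + 0) = Bm (m + 1) := rfl
        rw [pow_zero] at ih1
        linarith only [ih1, h3]
      · have e2 : m + 1 + (k + 1) = m + 2 + k := by omega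
        have h3 := tls_Bm hp k
        rw [e2]
        linarith only [ih1, h3, hpos]
    have e1 : m + 1 + k + 1 = m + 2 + k := by omega
    have e3 : m + 1 + k + 2 = m + 2 + (k + 1) := by omega
    have hs := tls_step h hc hT0 hT1 (l := m + 1 + k) (by omega) (hp _ (by omega))
      (ha _ (by omega)) (hz _ (by omega)) hφ hpos (by rw [e1]; exact ih2)
    rw [e3, e1] at hs
    have e4 : (1 / 2 : ℝ) ^ (k + 1) = (1 / 2) ^ k / 2 := by rw [pow_succ]; ring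
    rw [e4]
    refine ⟨?_, hs.1⟩
    have h5 := hs.2
    linarith only [h5, ih1]

end

/-- if the threshold of the next stage is not reached, all exponents are bounded -/
theorem s_tls : S_tls := by
  intro l1 c p ν T T1 K a S W m h hc hT0 hT1 _ hlm hp ha hz hle hph l
  rcases le_total l (m + 2) with hl | hl
  · have h1 := (tls_all h hc hT0 hT1 hlm hp ha hz hle hph 0).1
    have h2 := tls_Ph_le (a := a) h.cont hT0 hl
    have h3 : Ph Gm a (m + 2 + 0) T1 = Ph Gm a (m + 2) T1 := rfl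
    rw [pow_zero] at h1
    linarith only [h1, h2, h3]
  · obtain ⟨k, rfl⟩ := Nat.exists_eq_add_of_le hl
    have h1 := (tls_all h hc hT0 hT1 hlm hp ha hz hle hph k).1
    have h2 : (0 : ℝ) ≤ (1 / 2) ^ k := by positivity
    linarith only [h1, h2]

end Pool.Agent.H226.GB

end

/-! ## Cas -/

section

/-!
The cascade is complete before the maximal time (by helper864 for helper226).
-/

open MeasureTheory Set Filter Topology

namespace Pool.Agent.H226.GB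

lemma cas_tl {a1 a2 : ℕ → ℝ → ℝ} {S1 S2 : ℝ → ℝ} {t : ℝ} (ha : ∀ n, a1 n t = a2 n t)
    (hS : S1 t = S2 t) (l : ℕ) : tl a1 S1 l t = tl a2 S2 l t := by
  unfold tl
  rw [hS]
  simp_rw [ha]

lemma cas_II {a1 a2 : ℕ → ℝ → ℝ} {t0 : ℝ} (h0 : 0 ≤ t0) (n : ℕ)
    (ha : ∀ t ∈ Icc 0 t0, a1 n t = a2 n t) : II a1 n t0 = II a2 n t0 := by
  unfold II
  refine intervalIntegral.integral_congr fun s hs => ?_
  rw [uIcc_of_le h0] at hs
  show |a1 n s| = |a2 n s|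
  rw [ha s hs]

lemma cas_Ph {a1 a2 : ℕ → ℝ → ℝ} {t0 : ℝ} (h0 : 0 ≤ t0) (m : ℕ)
    (ha : ∀ n, ∀ t ∈ Icc 0 t0, a1 n t = a2 n t) : Ph Gm a1 m t0 = Ph Gm a2 m t0 := by
  unfold Ph
  congr 1
  exact Finset.sum_congr rfl fun n _ => by rw [cas_II h0 n (ha n)]

/-- the state depends only on the values up to the time `t0` -/
lemma cas_St {a1 a2 : ℕ → ℝ → ℝ} {S1 S2 : ℝ → ℝ} {T : ℝ} {m : ℕ} {t0 : ℝ}
    (hs : St a1 S1 T m t0) (ha : ∀ n, ∀ t ∈ Icc 0 t0, a1 n t = a2 n t)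
    (hS : ∀ t ∈ Icc 0 t0, S1 t = S2 t) : St a2 S2 T m t0 := by
  have h0 : t0 ∈ Icc 0 t0 := ⟨hs.nn, le_rfl⟩
  refine ⟨hs.nn, hs.tT, ?_, ?_, fun t ht => ?_, ?_⟩
  · rw [← ha m t0 h0]
    exact hs.X
  · rw [← cas_tl (fun n => ha n t0 h0) (hS t0 h0)]
    exact hs.eq
  · rw [← cas_tl (fun n => ha n t ht) (hS t ht)]
    exact hs.le t ht
  · rw [← cas_Ph hs.nn m ha]
    exact hs.ph

/-- transfer between different end times -/
lemma cas_tr {a : ℕ → ℝ → ℝ} {S : ℝ → ℝ} {T T1 T2 : ℝ} {m : ℕ} {t0 : ℝ}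
    (hs : St (fun m => exT T1 (a m)) (exT T1 S) T m t0) (h1 : t0 ≤ T1) (h2 : t0 ≤ T2) :
    St (fun m => exT T2 (a m)) (exT T2 S) T m t0 := by
  refine cas_St hs (fun n t ht => ?_) (fun t ht => ?_)
  · show exT T1 (a n) t = exT T2 (a n) t
    rw [exT_eq _ ⟨ht.1, ht.2.trans h1⟩, exT_eq _ ⟨ht.1, ht.2.trans h2⟩]
  · rw [exT_eq _ ⟨ht.1, ht.2.trans h1⟩, exT_eq _ ⟨ht.1, ht.2.trans h2⟩]

/-- the total exponent is bounded below by the integral -/
lemma cas_int {a : ℕ → ℝ → ℝ} {T1 T2 : ℝ} (l : ℕ) (h1 : 0 ≤ T1) (h12 : T1 ≤ T2)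
    (hc : ∀ m, Continuous (exT T2 (a m))) :
    2 * (∫ s in (0 : ℝ)..T1, ∑ n ∈ Finset.range l, Gm n * |a n s|) ≤
      Ph Gm (fun m => exT T2 (a m)) l T2 := by
  have e1 : (∫ s in (0 : ℝ)..T1, ∑ n ∈ Finset.range l, Gm n * |a n s|) =
      ∫ s in (0 : ℝ)..T1, ∑ n ∈ Finset.range l, Gm n * |exT T2 (a n) s| := by
    refine intervalIntegral.integral_congr fun s hs => ?_
    rw [uIcc_of_le h1] at hs
    refine Finset.sum_congr rfl fun n _ => ?_
    rw [exT_eq (T := T2) (a n) ⟨hs.1, hs.2.trans h12⟩]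
  have e2 : (∫ s in (0 : ℝ)..T1, ∑ n ∈ Finset.range l, Gm n * |exT T2 (a n) s|) =
      ∑ n ∈ Finset.range l, Gm n * II (fun m => exT T2 (a m)) n T1 := by
    rw [intervalIntegral.integral_finsetSum fun n _ =>
      ((hc n).abs.const_mul (Gm n)).intervalIntegrable _ _]
    refine Finset.sum_congr rfl fun n _ => ?_
    rw [intervalIntegral.integral_const_mul]
    rfl
  rw [e1, e2]
  unfold Ph
  refine mul_le_mul_of_nonneg_left ?_ two_pos.le
  rw [Finset.sum_range_succ]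
  have h3 : ∑ n ∈ Finset.range l, Gm n * II (fun m => exT T2 (a m)) n T1 ≤
      ∑ n ∈ Finset.range l, Gm n * II (fun m => exT T2 (a m)) n T2 :=
    Finset.sum_le_sum fun n _ => mul_le_mul_of_nonneg_left (II_mono (hc n) h12) (Gm_pos n).le
  have h4 : 0 ≤ Gm l * II (fun m => exT T2 (a m)) l T2 :=
    mul_nonneg (Gm_pos l).le (II_nonneg (hc l) (h1.trans h12))
  linarith only [h3, h4]

theorem s_cas (h1 : S_nxt) (h2 : S_tls) : S_cas := by
  intro K T Ts m0 c p ν a S W hK hT hT1 hm0 hP hc hcG hp0 hν0 hνm hTs hTsT hsh hE2 hlow ha00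
    ha01 ha02 hbig
  have hr0 := rr_pos m0
  -- the system up to the time `T1`
  have hsys : ∀ T1 ∈ Ioo 0 Ts, Sys (m0 - 1) c Gm p ν T1 (fun m => exT T1 (a m)) (exT T1 S)
      (fun m => exT T1 (W m)) := by
    intro T1 hT1'
    have e : ∀ m, ∀ t ∈ Icc 0 T1, exT T1 (a m) t = a m t := fun m t ht => exT_eq _ ht
    refine ⟨(hsh T1 hT1').sys0 hT1'.1.le hcG hp0 hν0 hνm, fun t ht => ?_, fun t ht => ?_⟩
    · have h3 := hE2 t ⟨ht.1, ht.2.trans_lt hT1'.2⟩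
      unfold tl at h3 ⊢
      rw [exT_eq _ ht]
      simp_rw [e _ t ht]
      exact h3
    · simp_rw [e _ t ht]
      exact hlow t ⟨ht.1, ht.2.trans_lt hT1'.2⟩
  have h0I : ∀ T1 ∈ Ioo 0 Ts, (0 : ℝ) ∈ Icc 0 T1 := fun T1 h => ⟨le_rfl, h.1.le⟩
  have hnn : ∀ T1 ∈ Ioo 0 Ts, ∀ m, m0 + 1 ≤ m → 0 ≤ exT T1 (a m) 0 := by
    intro T1 hT1' m hm
    rw [exT_eq _ (h0I T1 hT1')]
    rcases Nat.lt_or_ge m (m0 + 2) with h | h
    · obtain rfl : m = m0 + 1 := by omega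
      rw [ha01]
      exact hr0.le
    · rw [ha02 m h]
  have htl2 : ∀ T1 ∈ Ioo 0 Ts, ∀ l, m0 + 2 ≤ l →
      tl (fun m => exT T1 (a m)) (exT T1 S) l 0 = 0 := by
    intro T1 hT1' l hl
    have h3 := (hsys T1 hT1').tl_hasSum (h0I T1 hT1') l
    have h4 : (fun k => if l ≤ k then (fun m => exT T1 (a m)) k 0 ^ 2 else 0) =
        fun _ => (0 : ℝ) := by
      funext k
      by_cases hk : l ≤ k
      · rw [if_pos hk]
        show exT T1 (a k) 0 ^ 2 = 0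
        rw [exT_eq _ (h0I T1 hT1'), ha02 k (by omega)]
        norm_num
      · rw [if_neg hk]
    rw [h4] at h3
    exact h3.unique hasSum_zero
  -- the claim
  have hcas : ∀ m, m0 ≤ m → ∃ t0 ∈ Ico 0 Ts, ∀ T1 ∈ Ioo 0 Ts, t0 ≤ T1 →
      St (fun m => exT T1 (a m)) (exT T1 S) T m t0 := by
    intro m hm
    induction m, hm using Nat.le_induction with
    | base =>
      refine ⟨0, ⟨le_rfl, hTs⟩, fun T1 hT1' _ => ?_⟩
      have e1 : tl (fun m => exT T1 (a m)) (exT T1 S) (m0 + 1) 0 = rr m0 ^ 2 := by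
        rw [tl_succ, htl2 T1 hT1' (m0 + 1 + 1) (by omega), add_zero]
        show exT T1 (a (m0 + 1)) 0 ^ 2 = rr m0 ^ 2
        rw [exT_eq _ (h0I T1 hT1'), ha01]
      refine ⟨le_rfl, ?_, ?_, e1, fun t ht => ?_, ?_⟩
      · have h3 : (1 : ℝ) / 2 ^ m0 ≤ 1 := by
          rw [div_le_one (by positivity)]
          exact one_le_pow₀ (by norm_num)
        exact mul_nonneg hT.le (by linarith only [h3])
      · show al m0 ≤ exT T1 (a m0) 0
        rw [exT_eq _ (h0I T1 hT1')]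
        exact ha00
      · have h3 : t = 0 := le_antisymm ht.2 ht.1
        rw [h3, e1]
      · rw [Ph_zero]
        unfold Bm om
        have := RR_pos m0
        have := RR_pos (m0 - 1)
        positivity
    | succ m hm ih =>
      obtain ⟨t0, ht0, hst⟩ := ih
      by_cases hex : ∃ T1 ∈ Ioo 0 Ts, t0 ≤ T1 ∧ ∃ t1, t1 ≤ T1 ∧
          St (fun m => exT T1 (a m)) (exT T1 S) T (m + 1) t1
      · obtain ⟨T1, hT1', -, t1, ht1, hs1⟩ := hex
        exact ⟨t1, ⟨hs1.nn, ht1.trans_lt hT1'.2⟩, fun T2 _ hT2 => cas_tr hs1 ht1 hT2⟩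
      · exfalso
        obtain ⟨T3, hT3, l, hl⟩ := hbig ((Bm (m + 1) + 2) / 2)
        set T2 : ℝ := max T3 (max t0 (Ts / 2)) with hT2
        have hT2I : T2 ∈ Ioo 0 Ts := by
          refine ⟨?_, ?_⟩
          · exact lt_of_lt_of_le (half_pos hTs) ((le_max_right _ _).trans (le_max_right _ _))
          · exact max_lt hT3.2 (max_lt ht0.2 (half_lt_self hTs))
        have ht02 : t0 ≤ T2 := (le_max_left _ _).trans (le_max_right _ _)
        have hT32 : T3 ≤ T2 := le_max_left _ _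
        have hsy := hsys T2 hT2I
        have hTT : T2 ≤ T := hT2I.2.le.trans hTsT
        have h3 := h1 (m0 - 1) c p ν T T2 K (fun m => exT T2 (a m)) (exT T2 S)
          (fun m => exT T2 (W m)) m t0 (hst T2 hT2I ht02) ht02 hTT hsy hc hK hT hT1 (by omega)
          (by omega) (hP m hm) (hnn T2 hT2I _ (by omega)) (hnn T2 hT2I _ (by omega))
          (htl2 T2 hT2I _ (by omega)).le
        rcases h3 with ⟨t1, ht1, hs1⟩ | ⟨-, h4, h5⟩
        · exact hex ⟨T2, hT2I, ht02, t1, ht1, hs1⟩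
        · have h6 := h2 (m0 - 1) c p ν T T2 K (fun m => exT T2 (a m)) (exT T2 S)
            (fun m => exT T2 (W m)) m hsy hc hT2I.1.le (hTT.trans hT1) (by omega) (by omega)
            (fun l hl => hP l (hm.trans hl)) (fun l hl => hnn T2 hT2I l (by omega))
            (fun l hl => (htl2 T2 hT2I l (by omega)).le) h4 h5 l
          have h7 := cas_int l hT3.1 hT32 hsy.cont
          linarith only [h6, h7, hl]
  intro m hm
  obtain ⟨t0, ht0, hst⟩ := hcas m hm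
  have hI : max t0 (Ts / 2) ∈ Ioo 0 Ts :=
    ⟨lt_of_lt_of_le (half_pos hTs) (le_max_right _ _), max_lt ht0.2 (half_lt_self hTs)⟩
  have h3 := (hst _ hI (le_max_left _ _)).X
  refine ⟨t0, ht0, ?_⟩
  have h4 : exT (max t0 (Ts / 2)) (a m) t0 = a m t0 := exT_eq _ ⟨ht0.1, le_max_left _ _⟩
  rw [← h4]
  exact h3

end Pool.Agent.H226.GB

end

/-! ## Can -/

section

/-!
The sums of a solution may be replaced by the canonical ones.
-/

open MeasureTheory Set Filter Topology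

namespace Pool.Agent.H226.GB

/-- the energy is the canonical sum on `[0, T]` -/
theorem can_S {c : ℕ → ℕ → ℝ} {p ν : ℕ → ℝ} {T : ℝ} {a : ℕ → ℝ → ℝ} {S : ℝ → ℝ}
    {W : ℕ → ℝ → ℝ} (h : Shell c p ν T a S W) {t : ℝ} (ht : t ∈ Icc 0 T) : Sca a t = S t :=
  (h.sum t ht).tsum_eq

/-- the sums `W` are the canonical ones on `[0, T]` -/
theorem can_W {c : ℕ → ℕ → ℝ} {p ν : ℕ → ℝ} {T : ℝ} {a : ℕ → ℝ → ℝ} {S : ℝ → ℝ}
    {W : ℕ → ℝ → ℝ} (h : Shell c p ν T a S W) {t : ℝ} (ht : t ∈ Icc 0 T) (m : ℕ) :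
    Wca c a m t = W m t :=
  (h.sumW t ht m).tsum_eq

/-- the sums may be replaced by the canonical ones -/
theorem s_can : S_can := by
  intro c p ν T a S W h
  refine ⟨h.cont, h.contS.congr fun t ht => can_S h ht, fun t ht => ?_, fun t ht m => ?_,
    fun t ht m => ?_, fun t ht => ?_⟩
  · rw [can_S h ht]
    exact h.sum t ht
  · rw [can_W h ht m]
    exact h.sumW t ht m
  · rw [can_W h (Ioo_subset_Icc_self ht) m]
    exact h.der t ht m
  · obtain ⟨S', hS, hL⟩ := h.en t ht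
    refine ⟨S', hS.congr_of_eventuallyEq ?_, hL⟩
    filter_upwards [Ioo_mem_nhds ht.1 ht.2] with s hs
    exact can_S h (Ioo_subset_Icc_self hs)

end Pool.Agent.H226.GB

end
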