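import Pool.Agent.H226.GM.S

/-! ## ParP -/

section

/-!
The numerical conditions hold for all large `m` (helper800).
-/

namespace Pool.Agent.H226.GB

theorem ParP_RR (m : ℕ) : (RR m : ℝ) = 2 ^ ((m + 2) ^ 3) := by
  unfold RR
  push_cast
  rfl

theorem ParP_om (k : ℕ) : om (k + 1) = 2 ^ (15 * k ^ 2 + 75 * k + 95) := by
  unfold om
  rw [ParP_RR, ParP_RR, Nat.add_sub_cancel, div_pow, ← pow_mul, ← pow_mul,
    div_eq_iff (by positivity), ← pow_add]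
  congr 1
  ring

theorem ParP_bb (m : ℕ) : bb m = om m / 2 ^ 13 := rfl

theorem ParP_Gm (m : ℕ) : Gm m = 2 ^ (10 + 5 * (m + 2) ^ 3) := by
  unfold Gm
  rw [ParP_RR, ← pow_mul, ← pow_add]
  congr 1
  ring

theorem ParP_rr (m : ℕ) : rr m = 1 / 2 ^ (11 + 5 * (m + 3) ^ 3) := by
  unfold rr
  rw [ParP_Gm, ← pow_succ']
  congr 2
  ring

theorem ParP_al (m : ℕ) : al m = 1 / 2 ^ (29 * m) := by
  unfold al
  rw [div_pow, one_pow, ← pow_mul]

theorem ParP_two {a b : ℕ} (h : a ≤ b) : (2 : ℝ) ^ a ≤ 2 ^ b :=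
  pow_le_pow_right₀ (by norm_num) h

theorem ParP_log2 : Real.log 2 ≤ 1 := by
  have := Real.log_two_lt_d9
  linarith

theorem ParP_logpow (n : ℕ) : Real.log (2 ^ n) ≤ n := by
  rw [Real.log_pow]
  have h1 := ParP_log2
  have h2 : (0 : ℝ) ≤ n := Nat.cast_nonneg n
  nlinarith

theorem ParP_logpow0 (n : ℕ) : 0 ≤ Real.log (2 ^ n) := Real.log_nonneg (one_le_pow₀ (by norm_num))

/-- cubes against powers of two -/
theorem ParP_cube (m : ℕ) : (m : ℝ) ^ 3 ≤ 2 ^ (3 * m) := by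
  have h1 : m ≤ 2 ^ m := Nat.lt_two_pow_self.le
  have h2 : (m : ℝ) ≤ 2 ^ m := by exact_mod_cast h1
  calc (m : ℝ) ^ 3 ≤ (2 ^ m) ^ 3 := pow_le_pow_left₀ (Nat.cast_nonneg m) h2 3
    _ = 2 ^ (3 * m) := by rw [← pow_mul]; congr 1; ring

theorem ParP_Lg (m : ℕ) : Real.log (1 / rr m) + 3 ≤ 2 ^ (3 * m + 13) := by
  rw [ParP_rr, one_div_one_div]
  have h1 := ParP_logpow (11 + 5 * (m + 3) ^ 3)
  push_cast at h1
  have h2 := ParP_cube (m + 3)
  push_cast at h2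
  have h3 : (2 : ℝ) ^ (3 * (m + 3)) = 2 ^ (3 * m) * 2 ^ 9 := by rw [← pow_add]; congr 1
  have h4 : (2 : ℝ) ^ (3 * m + 13) = 2 ^ (3 * m) * 2 ^ 13 := by rw [← pow_add]
  have h5 : (1 : ℝ) ≤ 2 ^ (3 * m) := one_le_pow₀ (by norm_num)
  rw [h3] at h2
  rw [h4]
  nlinarith

theorem ParP_Lg0 (m : ℕ) : 3 ≤ Real.log (1 / rr m) + 3 := by
  rw [ParP_rr, one_div_one_div]
  have h1 := ParP_logpow0 (11 + 5 * (m + 3) ^ 3)
  linarith

theorem ParP_Dm0 (m : ℕ) : 0 < Dm m := by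
  unfold Dm
  have h1 := ParP_Lg0 m
  rw [ParP_al, ParP_RR]
  have h2 : 0 < Real.log (1 / rr m) + 3 := by linarith
  positivity

theorem ParP_Dm (m : ℕ) : Dm m ≤ 2 ^ (32 * m + 15) / 2 ^ (5 * (m + 2) ^ 3) := by
  unfold Dm
  rw [ParP_al, ParP_RR, ← pow_mul, mul_comm ((m + 2) ^ 3) 5, mul_one_div, div_div_eq_mul_div]
  refine div_le_div_of_nonneg_right ?_ (by positivity)
  have h1 := ParP_Lg m
  calc 4 * (Real.log (1 / rr m) + 3) * 2 ^ (29 * m) ≤ 4 * 2 ^ (3 * m + 13) * 2 ^ (29 * m) := by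
        gcongr
    _ = 2 ^ (32 * m + 15) := by
        rw [show (4 : ℝ) = 2 ^ 2 by norm_num, ← pow_add, ← pow_add]
        congr 1
        ring

theorem ParP_SG (m : ℕ) : SG (m + 1) ≤ 2 ^ (11 + 5 * (m + 2) ^ 3) := by
  induction m with
  | zero =>
    unfold SG
    rw [Finset.sum_range_one, ParP_Gm]
    exact ParP_two (by norm_num)
  | succ m ih =>
    have h1 : SG (m + 1 + 1) = SG (m + 1) + Gm (m + 1) := by
      unfold SG
      rw [Finset.sum_range_succ]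
    rw [h1, ParP_Gm]
    have h2 : (2 : ℝ) ^ (11 + 5 * (m + 2) ^ 3) ≤ 2 ^ (10 + 5 * (m + 1 + 2) ^ 3) :=
      ParP_two (by ring_nf; omega)
    have h3 : (2 : ℝ) ^ (11 + 5 * (m + 1 + 2) ^ 3) = 2 * 2 ^ (10 + 5 * (m + 1 + 2) ^ 3) := by
      rw [← pow_succ']
      congr 1
      ring
    rw [h3]
    linarith

theorem ParP_SG0 (m : ℕ) : 0 ≤ SG m := by
  unfold SG
  exact Finset.sum_nonneg fun n _ => by rw [ParP_Gm]; positivity

/-- `4 D_m S_{m+1}` -/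
theorem ParP_DSG (m : ℕ) : Dm m * SG (m + 1) ≤ 2 ^ (32 * m + 26) := by
  calc Dm m * SG (m + 1)
      ≤ (2 ^ (32 * m + 15) / 2 ^ (5 * (m + 2) ^ 3)) * 2 ^ (11 + 5 * (m + 2) ^ 3) :=
        mul_le_mul (ParP_Dm m) (ParP_SG m) (ParP_SG0 _) (by positivity)
    _ = 2 ^ (32 * m + 26) := by
        rw [div_mul_eq_mul_div, div_eq_iff (by positivity), ← pow_add, ← pow_add]
        congr 1
        ring

theorem ParP_exp (n : ℕ) {x : ℝ} (h : (n : ℝ) ≤ x) : (2 : ℝ) ^ n ≤ Real.exp x := by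
  have h1 : (2 : ℝ) ≤ Real.exp 1 := by
    have := Real.exp_one_gt_d9
    linarith
  calc (2 : ℝ) ^ n ≤ Real.exp 1 ^ n := pow_le_pow_left₀ (by norm_num) h1 n
    _ = Real.exp n := by rw [← Real.exp_nat_mul, mul_one]
    _ ≤ Real.exp x := Real.exp_le_exp.2 h

theorem ParP_expn (n : ℕ) {x : ℝ} (h : (n : ℝ) ≤ x) : Real.exp (-x) ≤ 1 / 2 ^ n := by
  rw [Real.exp_neg, ← one_div]
  exact one_div_le_one_div_of_le (by positivity) (ParP_exp n h)

/-- exponents against `om` -/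
theorem ParP_big (m : ℕ) (n : ℕ) (h : n ≤ (m + 5) ^ 5) :
    (n : ℝ) ≤ 2 ^ (15 * m ^ 2 + 75 * m + 77) := by
  have h1 : m + 5 ≤ 2 ^ (m + 5) := Nat.lt_two_pow_self.le
  have h2 : (m + 5) ^ 5 ≤ (2 ^ (m + 5)) ^ 5 := Nat.pow_le_pow_left h1 5
  have h3 : (2 ^ (m + 5)) ^ 5 ≤ 2 ^ (15 * m ^ 2 + 75 * m + 77) := by
    rw [← pow_mul]
    exact Nat.pow_le_pow_right (by norm_num) (by ring_nf; omega)
  have h4 : n ≤ 2 ^ (15 * m ^ 2 + 75 * m + 77) := h.trans (h2.trans h3)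
  exact_mod_cast h4

theorem ParP_bbBm (m : ℕ) (hm : 100 ≤ m) : Bm m + 2 + om (m + 1) / 2 ^ 14 ≤ bb (m + 1) := by
  obtain ⟨k, rfl⟩ : ∃ k, m = k + 1 := ⟨m - 1, by omega⟩
  rw [ParP_bb, Bm, ParP_om, ParP_om]
  have h1 : (2 : ℝ) ^ (15 * (k + 1) ^ 2 + 75 * (k + 1) + 95) =
      2 ^ (15 * k ^ 2 + 75 * k + 95) * 2 ^ (30 * k) * 2 ^ 90 := by
    rw [← pow_add, ← pow_add]
    congr 1
    ring
  have h2 : (1 : ℝ) ≤ 2 ^ (30 * k) := one_le_pow₀ (by norm_num)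
  have h3 : (1 : ℝ) ≤ 2 ^ (15 * k ^ 2 + 75 * k + 95) := one_le_pow₀ (by norm_num)
  rw [h1]
  set A : ℝ := 2 ^ (15 * k ^ 2 + 75 * k + 95) with hA
  set B : ℝ := 2 ^ (30 * k) with hB
  have h4 : A ≤ A * B := by nlinarith
  nlinarith

theorem ParP_f5' (m : ℕ) (hm : 100 ≤ m) :
    2 * Real.exp (Bm m + 1 - bb (m + 1)) < rr (m + 1) := by
  have h1 := ParP_bbBm m hm
  have h2 : ((13 + 5 * (m + 4) ^ 3 : ℕ) : ℝ) ≤ -(Bm m + 1 - bb (m + 1)) := by
    have h3 := ParP_big m (13 + 5 * (m + 4) ^ 3) (by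
      obtain ⟨k, rfl⟩ : ∃ k, m = k + 100 := ⟨m - 100, by omega⟩
      ring_nf; omega)
    have h4 : om (m + 1) / 2 ^ 14 = 2 ^ (15 * m ^ 2 + 75 * m + 77) * 2 ^ 4 := by
      rw [ParP_om, div_eq_iff (by positivity), ← pow_add, ← pow_add]
    have h5 : (0 : ℝ) ≤ 2 ^ (15 * m ^ 2 + 75 * m + 77) := by positivity
    rw [h4] at h1
    linarith
  have h3 := ParP_expn _ h2
  rw [neg_neg] at h3
  rw [ParP_rr]
  calc 2 * Real.exp (Bm m + 1 - bb (m + 1)) ≤ 2 * (1 / 2 ^ (13 + 5 * (m + 4) ^ 3)) := by gcongr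
    _ < 1 / 2 ^ (11 + 5 * (m + 1 + 3) ^ 3) := by
        rw [mul_one_div, div_lt_div_iff₀ (by positivity) (by positivity)]
        have h4 : (2 : ℝ) ^ (13 + 5 * (m + 4) ^ 3) = 4 * 2 ^ (11 + 5 * (m + 1 + 3) ^ 3) := by
          rw [show (4 : ℝ) = 2 ^ 2 by norm_num, ← pow_add]
          congr 1
          ring
        have h5 : (0 : ℝ) < 2 ^ (11 + 5 * (m + 1 + 3) ^ 3) := by positivity
        rw [h4]
        linarith

theorem ParP_bb1 (m : ℕ) : (1 : ℝ) ≤ bb (m + 1) := by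
  rw [ParP_bb, ParP_om, le_div_iff₀ (by positivity), one_mul]
  exact ParP_two (by omega)

theorem ParP_expbb (m : ℕ) : Real.exp (-bb (m + 1)) ≤ 1 := by
  have h1 := ParP_bb1 m
  exact Real.exp_le_one_iff.2 (by linarith)

theorem ParP_f8 (m : ℕ) (hm : 100 ≤ m) :
    Real.log (2 / rr (m + 1)) + Bm m + 2 + 4 * Dm m * SG (m + 1) ≤ bb (m + 1) / 2 := by
  have h1 : Real.log (2 / rr (m + 1)) ≤ 2 ^ (15 * m ^ 2 + 75 * m + 77) := by
    rw [ParP_rr, div_div_eq_mul_div, div_one, ← pow_succ']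
    refine (ParP_logpow _).trans (ParP_big m _ ?_)
    obtain ⟨k, rfl⟩ : ∃ k, m = k + 100 := ⟨m - 100, by omega⟩
    ring_nf; omega
  have h2 : Bm m + 2 ≤ 2 ^ (15 * m ^ 2 + 75 * m + 77) := by
    obtain ⟨k, rfl⟩ : ∃ k, m = k + 1 := ⟨m - 1, by omega⟩
    rw [Bm, ParP_om]
    have h3 : (2 : ℝ) ^ 14 * 2 ^ (15 * k ^ 2 + 75 * k + 95) ≤
        2 ^ (15 * (k + 1) ^ 2 + 75 * (k + 1) + 76) := by
      rw [← pow_add]
      exact ParP_two (by ring_nf; omega)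
    have h4 : (2 : ℝ) ^ (15 * (k + 1) ^ 2 + 75 * (k + 1) + 77) =
        2 * 2 ^ (15 * (k + 1) ^ 2 + 75 * (k + 1) + 76) := by
      rw [← pow_succ']
    have h5 : (2 : ℝ) ^ 1 ≤ 2 ^ (15 * (k + 1) ^ 2 + 75 * (k + 1) + 76) := ParP_two (by omega)
    rw [h4]
    linarith
  have h3 : 4 * Dm m * SG (m + 1) ≤ 2 ^ (15 * m ^ 2 + 75 * m + 77) := by
    have h4 := ParP_DSG m
    have h5 : (4 : ℝ) * 2 ^ (32 * m + 26) ≤ 2 ^ (15 * m ^ 2 + 75 * m + 77) := by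
      rw [show (4 : ℝ) = 2 ^ 2 by norm_num, ← pow_add]
      exact ParP_two (by ring_nf; omega)
    nlinarith
  have h4 : bb (m + 1) / 2 = 2 ^ (15 * m ^ 2 + 75 * m + 77) * 2 ^ 4 := by
    rw [ParP_bb, ParP_om, div_div, div_eq_iff (by positivity), ← pow_succ, ← pow_add, ← pow_add]
  have h5 : (0 : ℝ) ≤ 2 ^ (15 * m ^ 2 + 75 * m + 77) := by positivity
  rw [h4]
  linarith

theorem ParP_lam (K : ℝ) (m : ℕ) (hm : 100 ≤ m) (hK0 : 0 ≤ K) (hK : K ≤ 2 ^ m) :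
    lam K m ≤ 2 ^ (5 * (m + 2) ^ 3) / 2 ^ (32 * m + 48) ∧ 1 ≤ lam K m := by
  have e1 : 0 ≤ SG m := ParP_SG0 m
  have e2 : 0 ≤ K * (RR (m + 1) : ℝ) ^ 4 := by positivity
  have e3 : 0 ≤ Gm (m + 1) * rr (m + 1) := by
    rw [ParP_Gm, ParP_rr]; positivity
  have e4 := Real.exp_pos (-bb m)
  have e5 := Real.exp_pos (-bb (m + 1))
  constructor
  · obtain ⟨Q, hQ⟩ : ∃ Q : ℝ, Q = 2 ^ (5 * (m + 2) ^ 3) / 2 ^ (32 * m + 50) := ⟨_, rfl⟩
    have h0 : 2 ^ (5 * (m + 2) ^ 3) / 2 ^ (32 * m + 48) = 4 * Q := by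
      rw [hQ, ← mul_div_assoc, div_eq_div_iff (by positivity) (by positivity),
        show (4 : ℝ) = 2 ^ 2 by norm_num, ← pow_add, ← pow_add, ← pow_add]
      congr 1
      ring
    have h1 : (6 : ℝ) ≤ Q := by
      rw [hQ, le_div_iff₀ (by positivity)]
      calc (6 : ℝ) * 2 ^ (32 * m + 50) ≤ 2 ^ 3 * 2 ^ (32 * m + 50) := by gcongr; norm_num
        _ = 2 ^ (3 + (32 * m + 50)) := by rw [← pow_add]
        _ ≤ _ := ParP_two (by
          obtain ⟨k, rfl⟩ : ∃ k, m = k + 100 := ⟨m - 100, by omega⟩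
          ring_nf; omega)
    have h2 : 2 * SG m ≤ Q := by
      obtain ⟨k, rfl⟩ : ∃ k, m = k + 1 := ⟨m - 1, by omega⟩
      have h3 := ParP_SG k
      rw [hQ, le_div_iff₀ (by positivity)]
      calc 2 * SG (k + 1) * 2 ^ (32 * (k + 1) + 50)
          ≤ 2 * 2 ^ (11 + 5 * (k + 2) ^ 3) * 2 ^ (32 * (k + 1) + 50) := by gcongr
        _ = 2 ^ (1 + (11 + 5 * (k + 2) ^ 3) + (32 * (k + 1) + 50)) := by
            rw [← pow_succ', ← pow_add]
            congr 1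
            ring
        _ ≤ _ := ParP_two (by
          obtain ⟨j, rfl⟩ : ∃ j, k = j + 99 := ⟨k - 99, by omega⟩
          ring_nf; omega)
    have h3 : K * (RR (m + 1) : ℝ) ^ 4 ≤ Q := by
      rw [hQ, le_div_iff₀ (by positivity), ParP_RR, ← pow_mul]
      calc K * 2 ^ ((m + 1 + 2) ^ 3 * 4) * 2 ^ (32 * m + 50)
          ≤ 2 ^ m * 2 ^ ((m + 1 + 2) ^ 3 * 4) * 2 ^ (32 * m + 50) := by gcongr
        _ = 2 ^ (m + (m + 1 + 2) ^ 3 * 4 + (32 * m + 50)) := by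
            rw [← pow_add, ← pow_add]
        _ ≤ _ := ParP_two (by
          obtain ⟨j, rfl⟩ : ∃ j, m = j + 100 := ⟨m - 100, by omega⟩
          ring_nf; omega)
    have h4 : Gm (m + 1) * rr (m + 1) ≤ 1 := by
      rw [ParP_Gm, ParP_rr, mul_one_div, div_le_one (by positivity)]
      exact ParP_two (by ring_nf; omega)
    have h5 : Real.exp (-bb m) ≤ 1 := by
      obtain ⟨k, rfl⟩ : ∃ k, m = k + 1 := ⟨m - 1, by omega⟩
      exact ParP_expbb k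
    have h6 : Real.exp (-bb (m + 1)) ≤ 1 := ParP_expbb m
    rw [h0]
    unfold lam
    linarith
  · unfold lam
    linarith

theorem s_par : S_par := by
  intro K T hK0 hT
  obtain ⟨k1, hk1⟩ : ∃ k : ℕ, K < 2 ^ k := pow_unbounded_of_one_lt K (by norm_num)
  obtain ⟨k2, hk2⟩ : ∃ k : ℕ, 1 / T < 2 ^ k := pow_unbounded_of_one_lt _ (by norm_num)
  refine ⟨100 + k1 + k2, by omega, fun m hm => ?_⟩
  have hm100 : 100 ≤ m := by omega
  have hK : K ≤ 2 ^ m := hk1.le.trans (ParP_two (by omega))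
  have hTm : 1 ≤ T * 2 ^ m := by
    have h1 : 1 / T ≤ 2 ^ m := hk2.le.trans (ParP_two (by omega))
    rwa [div_le_iff₀ hT, mul_comm] at h1
  obtain ⟨hl1, hl2⟩ := ParP_lam K m hm100 hK0 hK
  have hD := ParP_Dm m
  have hD0 := ParP_Dm0 m
  have hDS := ParP_DSG m
  have hom : om (m + 1) = 2 ^ (15 * m ^ 2 + 75 * m + 77) * 2 ^ 18 := by
    rw [ParP_om, ← pow_add]
  have hB1 : (2 : ℝ) ≤ 2 ^ (15 * m ^ 2 + 75 * m + 77) := by
    calc (2 : ℝ) = 2 ^ 1 := by norm_num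
      _ ≤ _ := ParP_two (by omega)
  refine ⟨?_, ?_, ?_, ?_, ?_, ParP_f5' m hm100, ?_, ?_, ?_, ?_, ParP_f8 m hm100, ?_, ?_⟩
  · -- f1
    calc 4 * lam K m * Dm m
        ≤ 4 * (2 ^ (5 * (m + 2) ^ 3) / 2 ^ (32 * m + 48)) *
          (2 ^ (32 * m + 15) / 2 ^ (5 * (m + 2) ^ 3)) := by gcongr
      _ = 4 * 2 ^ (32 * m + 15) / 2 ^ (32 * m + 48) := by
          field_simp
      _ = 1 / 2 ^ 31 := by
          rw [div_eq_div_iff (by positivity) (by positivity), one_mul,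
            show (4 : ℝ) = 2 ^ 2 by norm_num, ← pow_add, ← pow_add]
          congr 1
          ring
  · -- f2
    have h1 : (29 * m + 4 : ℕ) ≤ bb (m - 1) := by
      obtain ⟨k, rfl⟩ : ∃ k, m = k + 2 := ⟨m - 2, by omega⟩
      rw [show k + 2 - 1 = k + 1 by omega, ParP_bb, ParP_om, le_div_iff₀ (by positivity)]
      have h3 : 29 * (k + 2) + 4 ≤ 2 ^ (k + 69) := by
        have h4 : k + 1 ≤ 2 ^ k := Nat.lt_two_pow_self
        have h5 : 2 ^ (k + 69) = 2 ^ k * 2 ^ 69 := pow_add 2 k 69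
        rw [h5]
        nlinarith
      have h4 : ((29 * (k + 2) + 4 : ℕ) : ℝ) ≤ 2 ^ (k + 69) := by exact_mod_cast h3
      calc ((29 * (k + 2) + 4 : ℕ) : ℝ) * 2 ^ 13 ≤ 2 ^ (k + 69) * 2 ^ 13 := by gcongr
        _ = 2 ^ (k + 69 + 13) := by rw [← pow_add]
        _ ≤ _ := ParP_two (by ring_nf; omega)
    have h2 : (29 * m + 4 : ℕ) ≤ bb m := by
      obtain ⟨k, rfl⟩ : ∃ k, m = k + 2 := ⟨m - 2, by omega⟩
      refine h1.trans ?_
      rw [show k + 2 - 1 = k + 1 by omega, ParP_bb, ParP_bb, ParP_om, ParP_om]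
      refine div_le_div_of_nonneg_right (ParP_two (by ring_nf; omega)) (by positivity)
    have h3 := ParP_expn _ h1
    have h4 := ParP_expn _ h2
    have h5 : al m * lam K m ≥ al m * 1 := by
      have h6 : 0 ≤ al m := by rw [ParP_al]; positivity
      exact mul_le_mul_of_nonneg_left hl2 h6
    have h6 : (1 : ℝ) / 2 ^ (29 * m + 4) = al m / 2 ^ 4 := by
      rw [ParP_al, pow_add, div_div]
    rw [h6] at h3 h4
    have h7 : 0 ≤ al m := by rw [ParP_al]; positivity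
    linarith
  · -- f3
    rw [ParP_rr, ParP_al, div_pow, div_pow, one_pow, div_div, ← pow_mul, ← pow_mul, ← pow_add]
    exact one_div_le_one_div_of_le (by positivity) (ParP_two (by ring_nf; omega))
  · -- f4
    rw [ParP_rr, ParP_al]
    refine one_div_lt_one_div_of_lt (by positivity) (pow_lt_pow_right₀ (by norm_num) ?_)
    ring_nf; omega
  · -- f5
    have h1 := ParP_bbBm m hm100
    have h2 : 0 ≤ om (m + 1) / 2 ^ 14 := by rw [ParP_om]; positivity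
    linarith
  · -- f6
    have h1 := ParP_bbBm m hm100
    rw [ParP_bb, hom] at h1
    unfold Bm at h1 ⊢
    rw [hom]
    have h5 : (4 : ℝ) * 2 ^ (32 * m + 26) ≤ 2 ^ (15 * m ^ 2 + 75 * m + 77) := by
      rw [show (4 : ℝ) = 2 ^ 2 by norm_num, ← pow_add]
      exact ParP_two (by ring_nf; omega)
    have h6 : 4 * Dm m * SG (m + 1) = 4 * (Dm m * SG (m + 1)) := by ring
    rw [h6]
    linarith
  · -- f7
    have h1 := ParP_bbBm (m + 1) (by omega)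
    have h2 : 0 ≤ om (m + 1 + 1) / 2 ^ 14 := by rw [ParP_om]; positivity
    have h3 : bb (m + 2) = bb (m + 1 + 1) := rfl
    rw [h3]
    linarith
  · -- f7b
    have h1 := ParP_f5' (m + 1) (by omega)
    have h3 : bb (m + 2) = bb (m + 1 + 1) := rfl
    rw [h3]
    have h4 := Real.exp_pos (Bm (m + 1) + 1 - bb (m + 1 + 1))
    set e := Real.exp (Bm (m + 1) + 1 - bb (m + 1 + 1)) with he
    have h5 : e ≤ 1 / 2 ^ (11 + 5 * (m + 1 + 1 + 3) ^ 3) := by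
      rw [ParP_rr] at h1
      linarith
    have h6 : (2 : ℝ) ^ (11 + 5 * (m + 2 + 2) ^ 3) ≤ 2 ^ (11 + 5 * (m + 1 + 1 + 3) ^ 3) :=
      ParP_two (by ring_nf; omega)
    have h7 : e * 2 ^ (11 + 5 * (m + 2 + 2) ^ 3) ≤ 1 := by
      calc e * 2 ^ (11 + 5 * (m + 2 + 2) ^ 3)
          ≤ 1 / 2 ^ (11 + 5 * (m + 1 + 1 + 3) ^ 3) * 2 ^ (11 + 5 * (m + 1 + 1 + 3) ^ 3) := by
            gcongr
        _ = 1 := by rw [one_div, inv_mul_cancel₀ (by positivity)]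
    have h8 : 2 * Gm (m + 2) = 2 ^ (11 + 5 * (m + 2 + 2) ^ 3) := by
      rw [ParP_Gm, ← pow_succ']
      congr 1
      ring
    have h9 : e ≤ 1 := by
      refine h5.trans ?_
      rw [div_le_one (by positivity)]
      exact one_le_pow₀ (by norm_num)
    rw [h8]
    calc (2 : ℝ) ^ (11 + 5 * (m + 2 + 2) ^ 3) * e ^ 2
        = e * 2 ^ (11 + 5 * (m + 2 + 2) ^ 3) * e := by ring
      _ ≤ 1 * 1 := mul_le_mul h7 h9 h4.le (by norm_num)
      _ = 1 := one_mul 1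
  · -- f7c
    have h1 : bb (m + 2) = bb (m + 1 + 1) := rfl
    have h2 := ParP_bb1 (m + 1)
    have h3 := ParP_expn 1 (x := bb (m + 1 + 1)) (by push_cast; exact h2)
    rw [h1]
    rw [pow_one] at h3
    linarith
  · -- f10
    have h1 : (2 * SG (m + 1) + K * (RR (m + 2) : ℝ) ^ 4 + 2) * Dm m ≤
        2 ^ (15 * m ^ 2 + 75 * m + 77) + 2 := by
      have h5 : (2 : ℝ) * 2 ^ (32 * m + 26) ≤ 2 ^ (15 * m ^ 2 + 75 * m + 77) := by
        rw [← pow_succ']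
        exact ParP_two (by ring_nf; omega)
      have h6 : K * (RR (m + 2) : ℝ) ^ 4 * Dm m ≤ 1 := by
        rw [ParP_RR, ← pow_mul]
        calc K * 2 ^ ((m + 2 + 2) ^ 3 * 4) * Dm m
            ≤ 2 ^ m * 2 ^ ((m + 2 + 2) ^ 3 * 4) *
              (2 ^ (32 * m + 15) / 2 ^ (5 * (m + 2) ^ 3)) := by gcongr
          _ = 2 ^ (m + (m + 2 + 2) ^ 3 * 4 + (32 * m + 15)) / 2 ^ (5 * (m + 2) ^ 3) := by
              rw [← mul_div_assoc, pow_add 2 (m + (m + 2 + 2) ^ 3 * 4), pow_add 2 m]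
          _ ≤ 1 := by
              rw [div_le_one (by positivity)]
              refine ParP_two ?_
              obtain ⟨j, rfl⟩ : ∃ j, m = j + 100 := ⟨m - 100, by omega⟩
              ring_nf; omega
      have h7 : 2 * Dm m ≤ 1 := by
        have h8 : 2 * (2 ^ (32 * m + 15) / 2 ^ (5 * (m + 2) ^ 3)) ≤ (1 : ℝ) := by
          rw [← mul_div_assoc, ← pow_succ', div_le_one (by positivity)]
          refine ParP_two ?_
          obtain ⟨j, rfl⟩ : ∃ j, m = j + 100 := ⟨m - 100, by omega⟩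
          ring_nf; omega
        linarith
      have h9 : (2 * SG (m + 1) + K * (RR (m + 2) : ℝ) ^ 4 + 2) * Dm m =
          2 * (Dm m * SG (m + 1)) + K * (RR (m + 2) : ℝ) ^ 4 * Dm m + 2 * Dm m := by ring
      rw [h9]
      linarith
    obtain ⟨N, hN⟩ : ∃ N : ℕ, N = 13 + 9 * (m + 4) ^ 3 + 29 * m + 5 * (m + 2) ^ 3 := ⟨_, rfl⟩
    have h2 : (N : ℝ) ≤ 2 ^ (15 * m ^ 2 + 75 * m + 77) := by
      refine ParP_big m N ?_
      rw [hN]
      obtain ⟨k, rfl⟩ : ∃ k, m = k + 100 := ⟨m - 100, by omega⟩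
      ring_nf; omega
    have h3 : (N : ℝ) ≤ 49 / 100 / 2 ^ 11 * om (m + 1) - bb (m + 1)
      - (2 * SG (m + 1) + K * (RR (m + 2) : ℝ) ^ 4 + 2) * Dm m := by
      rw [ParP_bb, hom]
      linarith
    have h4 := ParP_exp N h3
    set X := Real.exp (49 / 100 / 2 ^ 11 * om (m + 1) - bb (m + 1)
      - (2 * SG (m + 1) + K * (RR (m + 2) : ℝ) ^ 4 + 2) * Dm m) with hX
    have h5 : rr (m + 1) < 1 := by
      rw [ParP_rr, div_lt_one (by positivity)]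
      exact one_lt_pow₀ (by norm_num) (by positivity)
    refine h5.trans_le ?_
    rw [ParP_RR, ParP_al, ParP_Gm]
    have h6 : (2 : ℝ) ^ N = 2 ^ ((m + 2 + 2) ^ 3 * 9) * 2 ^ (29 * m) *
        2 ^ (10 + 5 * (m + 2) ^ 3) * 8 := by
      rw [show (8 : ℝ) = 2 ^ 3 by norm_num, ← pow_add, ← pow_add, ← pow_add, hN]
      congr 1
      ring
    rw [h6] at h4
    rw [← pow_mul]
    calc (1 : ℝ) ≤ 49 * 8 / 200 := by norm_num
      _ = 1 / (2 * 2 ^ ((m + 2 + 2) ^ 3 * 9)) *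
        (49 / 100 * (1 / 2 ^ (29 * m)) / 2 ^ (10 + 5 * (m + 2) ^ 3)) *
        (2 ^ ((m + 2 + 2) ^ 3 * 9) * 2 ^ (29 * m) * 2 ^ (10 + 5 * (m + 2) ^ 3) * 8) := by
          have key : ∀ a b c : ℝ, 0 < a → 0 < b → 0 < c → (49 * 8 / 200 : ℝ) =
              1 / (2 * a) * (49 / 100 * (1 / b) / c) * (a * b * c * 8) := by
            intro a b c ha hb hc
            field_simp
            norm_num
          exact key _ _ _ (by positivity) (by positivity) (by positivity)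
      _ ≤ _ := by gcongr
  · -- f11
    rw [le_div_iff₀ (by positivity)]
    calc Dm m * 2 ^ (m + 1)
        ≤ (2 ^ (32 * m + 15) / 2 ^ (5 * (m + 2) ^ 3)) * 2 ^ (m + 1) := by gcongr
      _ ≤ 1 / 2 ^ m := by
          rw [div_mul_eq_mul_div, div_le_div_iff₀ (by positivity) (by positivity), one_mul,
            ← pow_add, ← pow_add]
          refine ParP_two ?_
          obtain ⟨j, rfl⟩ : ∃ j, m = j + 100 := ⟨m - 100, by omega⟩
          ring_nf; omega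
      _ ≤ T := by
          rw [div_le_iff₀ (by positivity)]
          exact hTm

end Pool.Agent.H226.GB

end

/-! ## Par2 -/

section

/-!
The numerical conditions with large viscosity and short time (helper353).
-/

namespace Pool.Agent.H226.GB

/-- the quotient dominates the quadratic polynomials that occur -/
theorem Par2_div (m q : ℕ) (hq : 1 ≤ q) (hm : 100 * q ≤ m) :
    24 * (m + 2) ^ 2 + 100 * (m + 2) + 200 ≤ (m + 2) ^ 3 / q := by
  rw [Nat.le_div_iff_mul_le (by omega)]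
  have h1 : 100 * q ≤ m + 2 := by omega
  have h2 : 100 ≤ m + 2 := by omega
  have h3 : 100 * (m + 2) + 200 ≤ 3 * (m + 2) ^ 2 := by nlinarith
  calc (24 * (m + 2) ^ 2 + 100 * (m + 2) + 200) * q
      ≤ (27 * (m + 2) ^ 2) * q := Nat.mul_le_mul_right q (by omega)
    _ ≤ (m + 2) ^ 2 * (100 * q) := by nlinarith [Nat.zero_le ((m + 2) ^ 2 * q)]
    _ ≤ (m + 2) ^ 2 * (m + 2) := Nat.mul_le_mul_left _ h1
    _ = (m + 2) ^ 3 := by ring

theorem Par2_aux (m : ℕ) (hm : 100 ≤ m) : 32 * m + 53 ≤ 5 * (m + 2) ^ 3 := by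
  obtain ⟨k, rfl⟩ : ∃ k, m = k + 100 := ⟨m - 100, by omega⟩
  ring_nf; omega

/-- the bound of the viscous term -/
theorem Par2_K (K : ℝ) (m d a b : ℕ) (hd : d ≤ (m + 2) ^ 3)
    (hK : K ≤ 2 ^ m * 2 ^ ((m + 2) ^ 3 - d)) (h : m + 4 * a + b ≤ 4 * (m + 2) ^ 3 + d) :
    K * (2 ^ a) ^ 4 * 2 ^ b ≤ 2 ^ (5 * (m + 2) ^ 3) := by
  calc K * (2 ^ a) ^ 4 * 2 ^ b
      ≤ 2 ^ m * 2 ^ ((m + 2) ^ 3 - d) * (2 ^ a) ^ 4 * 2 ^ b := by gcongr
    _ = 2 ^ (m + ((m + 2) ^ 3 - d) + a * 4 + b) := by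
        rw [← pow_mul, ← pow_add, ← pow_add, ← pow_add]
    _ ≤ _ := ParP_two (by omega)

theorem Par2_lam (K : ℝ) (m d : ℕ) (hm : 100 ≤ m) (hd : d ≤ (m + 2) ^ 3)
    (hd2 : 24 * (m + 2) ^ 2 + 100 * (m + 2) + 200 ≤ d)
    (hK : K ≤ 2 ^ m * 2 ^ ((m + 2) ^ 3 - d)) :
    lam K m ≤ 2 ^ (5 * (m + 2) ^ 3) / 2 ^ (32 * m + 48) := by
  obtain ⟨Q, hQ⟩ : ∃ Q : ℝ, Q = 2 ^ (5 * (m + 2) ^ 3) / 2 ^ (32 * m + 50) := ⟨_, rfl⟩
  have h0 : 2 ^ (5 * (m + 2) ^ 3) / 2 ^ (32 * m + 48) = 4 * Q := by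
    rw [hQ, ← mul_div_assoc, div_eq_div_iff (by positivity) (by positivity),
      show (4 : ℝ) = 2 ^ 2 by norm_num, ← pow_add, ← pow_add, ← pow_add]
    congr 1
    ring
  have h1 : (6 : ℝ) ≤ Q := by
    rw [hQ, le_div_iff₀ (by positivity)]
    calc (6 : ℝ) * 2 ^ (32 * m + 50) ≤ 2 ^ 3 * 2 ^ (32 * m + 50) := by gcongr; norm_num
      _ = 2 ^ (3 + (32 * m + 50)) := by rw [← pow_add]
      _ ≤ _ := ParP_two (by have := Par2_aux m hm; omega)
  have h2 : 2 * SG m ≤ Q := by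
    obtain ⟨k, rfl⟩ : ∃ k, m = k + 1 := ⟨m - 1, by omega⟩
    have h3 := ParP_SG k
    rw [hQ, le_div_iff₀ (by positivity)]
    calc 2 * SG (k + 1) * 2 ^ (32 * (k + 1) + 50)
        ≤ 2 * 2 ^ (11 + 5 * (k + 2) ^ 3) * 2 ^ (32 * (k + 1) + 50) := by gcongr
      _ = 2 ^ (1 + (11 + 5 * (k + 2) ^ 3) + (32 * (k + 1) + 50)) := by
          rw [← pow_succ', ← pow_add]
          congr 1
          ring
      _ ≤ _ := ParP_two (by
        obtain ⟨j, rfl⟩ : ∃ j, k = j + 99 := ⟨k - 99, by omega⟩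
        ring_nf; omega)
  have h3 : K * (RR (m + 1) : ℝ) ^ 4 ≤ Q := by
    rw [hQ, le_div_iff₀ (by positivity), ParP_RR]
    refine Par2_K K m d _ _ hd hK ?_
    have e : (m + 1 + 2) ^ 3 = (m + 2) ^ 3 + 3 * (m + 2) ^ 2 + 3 * (m + 2) + 1 := by ring
    omega
  have h4 : Gm (m + 1) * rr (m + 1) ≤ 1 := by
    rw [ParP_Gm, ParP_rr, mul_one_div, div_le_one (by positivity)]
    exact ParP_two (by ring_nf; omega)
  have h5 : Real.exp (-bb m) ≤ 1 := by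
    obtain ⟨k, rfl⟩ : ∃ k, m = k + 1 := ⟨m - 1, by omega⟩
    exact ParP_expbb k
  have h6 : Real.exp (-bb (m + 1)) ≤ 1 := ParP_expbb m
  rw [h0]
  unfold lam
  linarith

theorem s_par2 : S_par2 := by
  intro K T q hK0 hT hq
  obtain ⟨k1, hk1⟩ : ∃ k : ℕ, K < 2 ^ k := pow_unbounded_of_one_lt K (by norm_num)
  obtain ⟨k2, hk2⟩ : ∃ k : ℕ, 1 / T < 2 ^ k := pow_unbounded_of_one_lt _ (by norm_num)
  obtain ⟨m0, -, hpar⟩ := s_par 0 1 le_rfl one_pos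
  refine ⟨100 * q + k1 + k2 + m0 + 2, by omega, fun m hm K' T' hK' hKK hTT => ?_⟩
  have hP := hpar m (by omega)
  have hm100 : 100 ≤ m := by omega
  have hdiv := Par2_div m q hq (by omega)
  obtain ⟨d, hd⟩ : ∃ d, d = (m + 2) ^ 3 / q := ⟨_, rfl⟩
  have hds : d ≤ (m + 2) ^ 3 := hd ▸ Nat.div_le_self _ _
  rw [← hd] at hdiv hKK hTT
  have hKm : K' ≤ 2 ^ m * 2 ^ ((m + 2) ^ 3 - d) := by
    refine hKK.trans ?_
    have hK : K ≤ 2 ^ m := hk1.le.trans (ParP_two (by omega))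
    gcongr
  have hTm : 1 ≤ T * 2 ^ m := by
    have h1 : 1 / T ≤ 2 ^ m := hk2.le.trans (ParP_two (by omega))
    rwa [div_le_iff₀ hT, mul_comm] at h1
  have hl1 := Par2_lam K' m d hm100 hds hdiv hKm
  have hl2 : lam 0 m ≤ lam K' m := by
    unfold lam
    have e2 : 0 ≤ K' * (RR (m + 1) : ℝ) ^ 4 := by positivity
    linarith
  have hD := ParP_Dm m
  have hD0 := ParP_Dm0 m
  have hDS := ParP_DSG m
  have hom : om (m + 1) = 2 ^ (15 * m ^ 2 + 75 * m + 77) * 2 ^ 18 := by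
    rw [ParP_om, ← pow_add]
  have hB1 : (2 : ℝ) ≤ 2 ^ (15 * m ^ 2 + 75 * m + 77) := by
    calc (2 : ℝ) = 2 ^ 1 := by norm_num
      _ ≤ _ := ParP_two (by omega)
  refine ⟨?_, ?_, hP.f3, hP.f4, hP.f5, hP.f5', hP.f6, hP.f7, hP.f7b, hP.f7c, hP.f8, ?_, ?_⟩
  · -- f1
    calc 4 * lam K' m * Dm m
        ≤ 4 * (2 ^ (5 * (m + 2) ^ 3) / 2 ^ (32 * m + 48)) *
          (2 ^ (32 * m + 15) / 2 ^ (5 * (m + 2) ^ 3)) := by gcongr
      _ = 4 * 2 ^ (32 * m + 15) / 2 ^ (32 * m + 48) := by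
          field_simp
      _ = 1 / 2 ^ 31 := by
          rw [div_eq_div_iff (by positivity) (by positivity), one_mul,
            show (4 : ℝ) = 2 ^ 2 by norm_num, ← pow_add, ← pow_add]
          congr 1
          ring
  · -- f2
    have h1 := hP.f2
    have h7 : 0 ≤ al m := by rw [ParP_al]; positivity
    have h8 := mul_le_mul_of_nonneg_left hl2 h7
    linarith
  · -- f10
    have h1 : (2 * SG (m + 1) + K' * (RR (m + 2) : ℝ) ^ 4 + 2) * Dm m ≤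
        2 ^ (15 * m ^ 2 + 75 * m + 77) + 2 := by
      have h5 : (2 : ℝ) * 2 ^ (32 * m + 26) ≤ 2 ^ (15 * m ^ 2 + 75 * m + 77) := by
        rw [← pow_succ']
        exact ParP_two (by ring_nf; omega)
      have h6 : K' * (RR (m + 2) : ℝ) ^ 4 * Dm m ≤ 1 := by
        rw [ParP_RR]
        calc K' * (2 ^ ((m + 2 + 2) ^ 3)) ^ 4 * Dm m
            ≤ K' * (2 ^ ((m + 2 + 2) ^ 3)) ^ 4 *
              (2 ^ (32 * m + 15) / 2 ^ (5 * (m + 2) ^ 3)) := by gcongr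
          _ = (K' * (2 ^ ((m + 2 + 2) ^ 3)) ^ 4 * 2 ^ (32 * m + 15)) /
              2 ^ (5 * (m + 2) ^ 3) := by rw [← mul_div_assoc]
          _ ≤ 1 := by
              rw [div_le_one (by positivity)]
              refine Par2_K K' m d _ _ hds hKm ?_
              have e : (m + 2 + 2) ^ 3 = (m + 2) ^ 3 + 6 * (m + 2) ^ 2 + 12 * (m + 2) + 8 := by
                ring
              omega
      have h7 : 2 * Dm m ≤ 1 := by
        have h8 : 2 * (2 ^ (32 * m + 15) / 2 ^ (5 * (m + 2) ^ 3)) ≤ (1 : ℝ) := by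
          rw [← mul_div_assoc, ← pow_succ', div_le_one (by positivity)]
          exact ParP_two (by have := Par2_aux m hm100; omega)
        linarith
      have h9 : (2 * SG (m + 1) + K' * (RR (m + 2) : ℝ) ^ 4 + 2) * Dm m =
          2 * (Dm m * SG (m + 1)) + K' * (RR (m + 2) : ℝ) ^ 4 * Dm m + 2 * Dm m := by ring
      rw [h9]
      linarith
    obtain ⟨N, hN⟩ : ∃ N : ℕ, N = 13 + 9 * (m + 4) ^ 3 + 29 * m + 5 * (m + 2) ^ 3 := ⟨_, rfl⟩
    have h2 : (N : ℝ) ≤ 2 ^ (15 * m ^ 2 + 75 * m + 77) := by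
      refine ParP_big m N ?_
      rw [hN]
      obtain ⟨k, rfl⟩ : ∃ k, m = k + 100 := ⟨m - 100, by omega⟩
      ring_nf; omega
    have h3 : (N : ℝ) ≤ 49 / 100 / 2 ^ 11 * om (m + 1) - bb (m + 1)
      - (2 * SG (m + 1) + K' * (RR (m + 2) : ℝ) ^ 4 + 2) * Dm m := by
      rw [ParP_bb, hom]
      linarith
    have h4 := ParP_exp N h3
    set X := Real.exp (49 / 100 / 2 ^ 11 * om (m + 1) - bb (m + 1)
      - (2 * SG (m + 1) + K' * (RR (m + 2) : ℝ) ^ 4 + 2) * Dm m) with hX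
    have h5 : rr (m + 1) < 1 := by
      rw [ParP_rr, div_lt_one (by positivity)]
      exact one_lt_pow₀ (by norm_num) (by positivity)
    refine h5.trans_le ?_
    rw [ParP_RR, ParP_al, ParP_Gm]
    have h6 : (2 : ℝ) ^ N = 2 ^ ((m + 2 + 2) ^ 3 * 9) * 2 ^ (29 * m) *
        2 ^ (10 + 5 * (m + 2) ^ 3) * 8 := by
      rw [show (8 : ℝ) = 2 ^ 3 by norm_num, ← pow_add, ← pow_add, ← pow_add, hN]
      congr 1
      ring
    rw [h6] at h4
    rw [← pow_mul]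
    calc (1 : ℝ) ≤ 49 * 8 / 200 := by norm_num
      _ = 1 / (2 * 2 ^ ((m + 2 + 2) ^ 3 * 9)) *
        (49 / 100 * (1 / 2 ^ (29 * m)) / 2 ^ (10 + 5 * (m + 2) ^ 3)) *
        (2 ^ ((m + 2 + 2) ^ 3 * 9) * 2 ^ (29 * m) * 2 ^ (10 + 5 * (m + 2) ^ 3) * 8) := by
          have key : ∀ a b c : ℝ, 0 < a → 0 < b → 0 < c → (49 * 8 / 200 : ℝ) =
              1 / (2 * a) * (49 / 100 * (1 / b) / c) * (a * b * c * 8) := by
            intro a b c ha hb hc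
            field_simp
            norm_num
          exact key _ _ _ (by positivity) (by positivity) (by positivity)
      _ ≤ _ := by gcongr
  · -- f11
    refine le_trans ?_ (div_le_div_of_nonneg_right hTT (by positivity))
    rw [div_div, le_div_iff₀ (by positivity)]
    calc Dm m * (2 ^ (5 * (m + 2) ^ 3 - d) * 2 ^ (m + 1))
        ≤ (2 ^ (32 * m + 15) / 2 ^ (5 * (m + 2) ^ 3)) *
          (2 ^ (5 * (m + 2) ^ 3 - d) * 2 ^ (m + 1)) := by gcongr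
      _ ≤ 1 / 2 ^ m := by
          rw [div_mul_eq_mul_div, div_le_div_iff₀ (by positivity) (by positivity), one_mul,
            ← pow_add, ← pow_add, ← pow_add]
          exact ParP_two (by omega)
      _ ≤ T := by
          rw [div_le_iff₀ (by positivity)]
          exact hTm

end Pool.Agent.H226.GB

end
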