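import Pool.Agent.H226.GM.Pump
import Pool.Agent.H226.GM.Params
import Pool.Agent.H226.GM.S
import Pool.Agent.H226.GM.OneDim

/-! ## Fin1 -/

section

/-!
The coefficients of the Galerkin system satisfy the hypotheses of the analysis.
-/

open MeasureTheory Set Filter Topology
open scoped ContDiff
open H459R3.NS

namespace Pool.Agent.H226.GB

theorem Fin_tri0 (P : S_prod) (O : S_one) (G : S_trig) :
    tri (gp (th0 0)) (gp (th0 0)) (gp (th0 1))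
      = -(Real.exp (-bb 0) * ((2 * Real.pi) ^ 2 * (4 * NN 0 - 3) / (64 * (17 * NN 0 - 1)))) := by
  have h1 := Pump_NN_pos 0
  have h3 : 4 * NN 0 ≤ NN 1 := Pump_NN_le 0
  have sp1 := Pump_gp_S (Pump_psi_P P O 0)
  have sp3 := Pump_gp_S (Pump_psi_P P O 1)
  have sp4 := Pump_gp_S (Pump_chi_P P O 1)
  have e0 : gp (th0 0) = gp (psi 0) := by
    rw [Pump_gp_th0 P O]
    funext x
    simp [ee']
  rw [e0, Pump_gp_th0 P O 1]
  have tH : ∀ N, Trig {k | 16 * N ≤ k ∧ k ≤ 17 * N - 1} (fH N) := G.H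
  have z1 : tri (gp (psi 0)) (gp (psi 0)) (gp (psi 1)) = 0 := by
    refine Pump_zero P G (O.p1_F _) (O.p1_G _) (O.p1_F _) (O.p1_G _) (O.p1_F _) (O.p1_G _)
      (tH _) (tH _) (tH _) ?_
    rintro a ⟨ha, ha'⟩ b ⟨hb, hb'⟩ c ⟨hc, hc'⟩
    refine ⟨?_, ?_, ?_⟩ <;> omega
  have z8 : tri (gp (psi 0)) (gp (psi 0)) (gp (chi 1))
      = -((2 * Real.pi) ^ 2 * (4 * NN 0 - 3) / (64 * (17 * NN 0 - 1))) := by
    have := Pump_main P O (NN 0) (Pump_NN_pos 0)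
    unfold psi chi
    exact this
  have he : ee' 1 = Real.exp (-bb 0) := by
    unfold ee'
    rw [if_neg one_ne_zero]
  have s4 : Pump_S (fun x => ee' 1 • gp (chi 1) x) := Pump_S_smul sp4 _
  rw [Pump_tri_add3 sp1 sp1 sp3 s4, Pump_tri_smul3 _ _ _ sp4, z1, z8, he]
  ring

theorem Fin_pp (P : S_prod) (O : S_one) (G : S_trig) (n : ℕ) :
    pp n = Real.exp (-bb n) * (((2 * Real.pi) ^ 2 * (4 * NN n - 3) / (64 * (17 * NN n - 1)))
      * ((nm n)⁻¹ ^ 2 * (nm (n + 1))⁻¹)) := by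
  rcases Nat.eq_zero_or_pos n with rfl | hn
  · have e : ∀ m, phi m = fun x => (-(nm m)⁻¹) • gp (th0 m) x := fun m => rfl
    have s3 : Pump_S (gp (th0 (0 + 1))) := by
      refine Pump_gp_S ?_
      exact (Pump_psi_P P O (0 + 1)).add (Pump_smul (Pump_chi_P P O (0 + 1)) _)
    unfold pp
    rw [e 0, e (0 + 1), Pump_tri_smul3 _ _ _ s3, Pump_tri_smul1, Pump_tri_smul2, zero_add,
      Fin_tri0 P O G]
    ring
  · exact Pump_pp P O G n hn

theorem Fin_pp_bd (P : S_prod) (O : S_one) (G : S_trig) (h : S_nm) (n : ℕ) :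
    0 ≤ pp n ∧ pp n ≤ Real.exp (-bb n) := by
  rw [Fin_pp P O G n]
  have hE := Real.exp_pos (-bb n)
  obtain ⟨⟨a1, a2⟩, a3⟩ := h n
  obtain ⟨⟨b1, b2⟩, b3⟩ := h (n + 1)
  have hN : (2 : ℝ) ≤ NN n := by exact_mod_cast Pump_NN_pos n
  have hN1 : (2 : ℝ) ≤ NN (n + 1) := by exact_mod_cast Pump_NN_pos (n + 1)
  have p3 := Real.pi_gt_three
  have p4 := Real.pi_lt_four
  have hJ : 0 < 64 * (17 * (NN n : ℝ) - 1) := by linarith
  obtain ⟨q, hq⟩ : ∃ q, q = (2 * Real.pi) ^ 2 * (4 * NN n - 3) / (64 * (17 * (NN n : ℝ) - 1)) :=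
    ⟨_, rfl⟩
  have q1 : 0 ≤ q := by
    rw [hq]
    have : 0 ≤ 4 * (NN n : ℝ) - 3 := by linarith
    exact div_nonneg (mul_nonneg (sq_nonneg _) this) hJ.le
  have q2 : q ≤ 1 := by
    rw [hq, div_le_iff₀ hJ]
    nlinarith [mul_pos (sub_pos.2 p4) (show 0 < 4 * (NN n : ℝ) - 3 by linarith)]
  rw [← hq]
  have c1 : 1 ≤ nm n ^ 2 := by
    have : (2 : ℝ) ^ 3 ≤ (NN n : ℝ) ^ 3 := pow_le_pow_left₀ (by norm_num) hN 3
    linarith
  have c2 : 1 ≤ nm (n + 1) := by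
    have : (2 : ℝ) ^ 3 ≤ (NN (n + 1) : ℝ) ^ 3 := pow_le_pow_left₀ (by norm_num) hN1 3
    nlinarith
  have c3 : (nm n)⁻¹ ^ 2 * (nm (n + 1))⁻¹ ≤ 1 := by
    rw [inv_pow]
    exact mul_le_one₀ (inv_le_one_of_one_le₀ c1) (inv_nonneg.2 b3.le) (inv_le_one_of_one_le₀ c2)
  have c4 : 0 ≤ (nm n)⁻¹ ^ 2 * (nm (n + 1))⁻¹ :=
    mul_nonneg (pow_nonneg (inv_nonneg.2 a3.le) 2) (inv_nonneg.2 b3.le)
  refine ⟨mul_nonneg hE.le (mul_nonneg q1 c4), ?_⟩
  have c5 : q * ((nm n)⁻¹ ^ 2 * (nm (n + 1))⁻¹) ≤ 1 := mul_le_one₀ q2 c4 c3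
  nlinarith

/-- super-exponential decay of the pumps against the powers of `R` -/
theorem Fin_exp_bd (s : ℕ) : ∃ K : ℝ, ∀ n, Real.exp (-bb n) * (RR (n + 1) : ℝ) ^ s ≤ K := by
  have hev : ∀ n, max 1 (64 * s) ≤ n → Real.exp (-bb (n + 1)) * (RR (n + 1 + 1) : ℝ) ^ s ≤ 1 := by
    intro n hn
    have h1 : 1 ≤ n := (le_max_left _ _).trans hn
    have h2 : 64 * s ≤ n := (le_max_right _ _).trans hn
    have h3 : s * (n + 4) ^ 3 ≤ (n + 5) ^ 5 := by
      have h4 : s ≤ (n + 5) ^ 2 := by nlinarith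
      have h5 : (n + 4) ^ 3 ≤ (n + 5) ^ 3 := Nat.pow_le_pow_left (by omega) 3
      calc s * (n + 4) ^ 3 ≤ (n + 5) ^ 2 * (n + 5) ^ 3 := Nat.mul_le_mul h4 h5
        _ = (n + 5) ^ 5 := by rw [← pow_add]
    have h6 := ParP_big n (s * (n + 4) ^ 3) h3
    have h7 : ((s * (n + 4) ^ 3 : ℕ) : ℝ) ≤ bb (n + 1) := by
      refine h6.trans ?_
      rw [ParP_bb, ParP_om, le_div_iff₀ (by positivity), ← pow_add]
      exact ParP_two (by omega)
    have h8 := ParP_expn _ h7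
    have h9 : (RR (n + 1 + 1) : ℝ) ^ s = 2 ^ (s * (n + 4) ^ 3) := by
      rw [ParP_RR, ← pow_mul]
      congr 1
      ring
    rw [h9]
    calc Real.exp (-bb (n + 1)) * 2 ^ (s * (n + 4) ^ 3)
        ≤ 1 / 2 ^ (s * (n + 4) ^ 3) * 2 ^ (s * (n + 4) ^ 3) := by gcongr
      _ = 1 := by
        rw [one_div, inv_mul_cancel₀ (by positivity)]
  refine ⟨1 + ∑ n ∈ Finset.range (max 1 (64 * s) + 1),
    Real.exp (-bb n) * (RR (n + 1) : ℝ) ^ s, fun n => ?_⟩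
  have hnn : ∀ k, 0 ≤ Real.exp (-bb k) * (RR (k + 1) : ℝ) ^ s := fun k => by positivity
  by_cases hn : n < max 1 (64 * s) + 1
  · have := Finset.single_le_sum (f := fun n => Real.exp (-bb n) * (RR (n + 1) : ℝ) ^ s)
      (fun k _ => hnn k) (Finset.mem_range.2 hn)
    linarith
  · obtain ⟨k, rfl⟩ : ∃ k, n = k + 1 := ⟨n - 1, by omega⟩
    have h1 := hev k (by omega)
    have h2 : 0 ≤ ∑ n ∈ Finset.range (max 1 (64 * s) + 1),
      Real.exp (-bb n) * (RR (n + 1) : ℝ) ^ s := Finset.sum_nonneg fun k _ => hnn k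
    linarith

theorem Fin_gg0 (h : S_gg) (m : ℕ) : 0 ≤ gg m :=
  le_trans (by positivity) (h m).1

/-- the hypotheses on the coefficients -/
theorem Fin_coef (P : S_prod) (O : S_one) (G : S_trig) (h : S_nm) (hgg : S_gg) (hccu : S_ccu)
    {ν : ℝ} (hν : 0 ≤ ν) :
    Coef cc pp (fun m => ν * gg m) (2 ^ 10 + ν * 2 ^ 14) := by
  refine ⟨fun n l hnl => ?_, fun n => (Fin_pp_bd P O G h n).1, fun s => ?_,
    fun n => mul_nonneg hν (Fin_gg0 hgg n), fun n => ?_⟩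
  · refine (hccu n l hnl).trans ?_
    have : (0 : ℝ) ≤ (RR n : ℝ) ^ 5 := by positivity
    have h2 : 0 ≤ ν * 2 ^ 14 * (RR n : ℝ) ^ 5 := by positivity
    nlinarith
  · obtain ⟨K, hK⟩ := Fin_exp_bd s
    refine ⟨K, fun n => le_trans ?_ (hK n)⟩
    exact mul_le_mul_of_nonneg_right (Fin_pp_bd P O G h n).2 (by positivity)
  · have h1 := (hgg n).2
    have h2 : (0 : ℝ) ≤ (RR n : ℝ) ^ 4 := by positivity
    calc ν * gg n ≤ ν * (2 ^ 14 * (RR n : ℝ) ^ 4) := mul_le_mul_of_nonneg_left h1 hν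
      _ ≤ _ := by nlinarith

end Pool.Agent.H226.GB

end

/-! ## Num -/

section

/-!
The choice of the parameters (helper824).
-/

namespace Pool.Agent.H226.GB

/-- the quotient dominates the quadratic polynomials that occur -/
theorem Num_div (m q : ℕ) (hq : 1 ≤ q) (hm : 100 * q ≤ m) :
    100 * (m + 2) ^ 2 ≤ (m + 2) ^ 3 / q := by
  rw [Nat.le_div_iff_mul_le (by omega)]
  calc 100 * (m + 2) ^ 2 * q = (m + 2) ^ 2 * (100 * q) := by ring
    _ ≤ (m + 2) ^ 2 * (m + 2) := Nat.mul_le_mul_left _ (by omega)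
    _ = (m + 2) ^ 3 := by ring

/-- `x - x / q` is nondecreasing -/
theorem Num_sub (a b q : ℕ) (hq : 1 ≤ q) (hab : a ≤ b) : a - a / q ≤ b - b / q := by
  obtain ⟨c, rfl⟩ : ∃ c, b = a + c := ⟨b - a, by omega⟩
  have h1 : (a + c) / q ≤ a / q + c := by
    calc (a + c) / q ≤ (a + c * q) / q := Nat.div_le_div_right (by nlinarith)
      _ = a / q + c := Nat.add_mul_div_right _ _ (by omega)
  have h2 : a / q ≤ a := Nat.div_le_self _ _
  have h3 : (a + c) / q ≤ a + c := Nat.div_le_self _ _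
  omega

/-- the sum of the pumps against the couplings is bounded -/
theorem Num_sum : ∃ C : ℝ, ∀ l, ∑ n ∈ Finset.range l, Gm n *
    (if n = 0 then 0 else Real.exp (-bb (n - 1))) ≤ C := by
  obtain ⟨K, hK⟩ := Fin_exp_bd 6
  have hK0 : 0 ≤ K := le_trans (by positivity) (hK 0)
  have ht : ∀ n, Gm n * (if n = 0 then 0 else Real.exp (-bb (n - 1))) ≤
      2 ^ 10 * K * (1 / 2) ^ n := by
    intro n
    rcases Nat.eq_zero_or_pos n with rfl | hn
    · rw [if_pos rfl, mul_zero]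
      positivity
    · obtain ⟨k, rfl⟩ : ∃ k, n = k + 1 := ⟨n - 1, by omega⟩
      rw [if_neg (by omega), Nat.add_sub_cancel]
      have h1 := hK k
      have h2 : (2 : ℝ) ^ (k + 1) ≤ RR (k + 1) := by
        rw [ParP_RR]
        exact ParP_two (by ring_nf; omega)
      have h3 : (0 : ℝ) < 2 ^ (k + 1) := by positivity
      have h4 : (0 : ℝ) < RR (k + 1) := h3.trans_le h2
      unfold Gm
      rw [one_div_pow, mul_one_div, le_div_iff₀ h3]
      have h5 : 0 < Real.exp (-bb k) := Real.exp_pos _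
      calc 2 ^ 10 * (RR (k + 1) : ℝ) ^ 5 * Real.exp (-bb k) * 2 ^ (k + 1)
          ≤ 2 ^ 10 * (RR (k + 1) : ℝ) ^ 5 * Real.exp (-bb k) * RR (k + 1) := by gcongr
        _ = 2 ^ 10 * (Real.exp (-bb k) * (RR (k + 1) : ℝ) ^ 6) := by ring
        _ ≤ 2 ^ 10 * K := by gcongr
  refine ⟨2 ^ 10 * K * 2, fun l => ?_⟩
  calc _ ≤ ∑ n ∈ Finset.range l, 2 ^ 10 * K * (1 / 2) ^ n := Finset.sum_le_sum fun n _ => ht n
    _ = 2 ^ 10 * K * ∑ n ∈ Finset.range l, (1 / 2 : ℝ) ^ n := by rw [Finset.mul_sum]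
    _ ≤ _ := mul_le_mul_of_nonneg_left (sum_geometric_two_le l) (by positivity)

/-- the stage lengths against the time -/
theorem Num_f11 (m0 m : ℕ) (hm : m0 ≤ m) : Dm m ≤ tau m0 / 2 ^ (m + 1) := by
  refine (ParP_Dm m).trans ?_
  unfold tau
  rw [div_div, div_le_div_iff₀ (by positivity) (by positivity), ← pow_add, ← pow_add, ← pow_add]
  refine ParP_two ?_
  obtain ⟨k, rfl⟩ : ∃ k, m = m0 + k := ⟨m - m0, by omega⟩
  have h1 : (m0 + 2) ^ 3 + 12 * k ≤ (m0 + k + 2) ^ 3 := by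
    have e : (m0 + k + 2) ^ 3 = (m0 + 2) ^ 3 + 12 * k + (3 * (m0 ^ 2 + 4 * m0) * k +
      3 * (m0 + 2) * k ^ 2 + k ^ 3) := by ring
    rw [e]
    exact Nat.le_add_right _ _
  omega

theorem s_num : S_num := by
  refine ⟨Num_sum, fun K C T q hK hC hT hq => ?_⟩
  obtain ⟨k1, hk1⟩ : ∃ k : ℕ, C < 2 ^ k := pow_unbounded_of_one_lt C (by norm_num)
  obtain ⟨k2, hk2⟩ : ∃ k : ℕ, 1 / T < 2 ^ k := pow_unbounded_of_one_lt _ (by norm_num)
  obtain ⟨m1, hm1, hpar⟩ := s_par2 K 1 q hK one_pos hq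
  refine ⟨m1 + 100 * q + k1 + k2 + 100, by omega, fun m0 hm0 => ?_⟩
  obtain ⟨i, rfl⟩ : ∃ i, m0 = i + 3 := ⟨m0 - 3, by omega⟩
  have e1 : i + 3 - 1 = i + 1 + 1 := by omega
  have e2 : i + 3 - 2 = i + 1 := by omega
  have e3 : i + 3 + 2 = i + 5 := by omega
  rw [e1, e2, e3]
  have hdiv := Num_div (i + 3) q hq (by omega)
  rw [e3] at hdiv
  obtain ⟨d, hd⟩ : ∃ d, d = (i + 5) ^ 3 / q := ⟨_, rfl⟩
  have hds : d ≤ (i + 5) ^ 3 := hd ▸ Nat.div_le_self _ _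
  rw [← hd] at hdiv ⊢
  have hCm : C ≤ 2 ^ (i + 3) := hk1.le.trans (ParP_two (by omega))
  have hTm : 1 / 2 ^ (i + 3) ≤ T := by
    have h1 : 1 / T ≤ 2 ^ (i + 3) := hk2.le.trans (ParP_two (by omega))
    rw [div_le_iff₀ hT] at h1
    rw [div_le_iff₀ (by positivity)]
    linarith
  have etau : tau (i + 3) = 2 ^ (34 * (i + 3) + 17) / 2 ^ (5 * (i + 5) ^ 3) := rfl
  have c1 : (i + 5) ^ 3 = (i + 3) ^ 3 + 6 * (i + 5) ^ 2 - 12 * (i + 5) + 8 := by
    have : 12 * (i + 5) ≤ 6 * (i + 5) ^ 2 := by nlinarith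
    have h2 : (i + 5) ^ 3 + 12 * (i + 5) = (i + 3) ^ 3 + 6 * (i + 5) ^ 2 + 8 := by ring
    omega
  have c2 : (i + 5) * 100 ≤ (i + 5) ^ 2 := by nlinarith
  have c3 : (i + 5) ^ 2 * 100 ≤ (i + 5) ^ 3 := by
    have : (i + 5) ^ 3 = (i + 5) ^ 2 * (i + 5) := by ring
    rw [this]
    exact Nat.mul_le_mul_left _ (by omega)
  refine ⟨fun K' hK'0 hK' m hm => ?_, ?_, ?_, fun A hA0 hA => ⟨?_, ?_, ?_⟩⟩
  · have hmon := Num_sub ((i + 5) ^ 3) ((m + 2) ^ 3) q hq (Nat.pow_le_pow_left (by omega) 3)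
    rw [← hd] at hmon
    have hP := hpar m (by omega) K' 1 hK'0 (hK'.trans (by
      have := ParP_two hmon
      gcongr)) (by
        rw [div_le_one (by positivity)]
        exact one_le_pow₀ (by norm_num))
    exact ⟨hP.f1, hP.f2, hP.f3, hP.f4, hP.f5, hP.f5', hP.f6, hP.f7, hP.f7b, hP.f7c, hP.f8,
      hP.f10, Num_f11 (i + 3) m hm⟩
  · have h3 := ParP_SG (i + 1)
    rw [etau, ← mul_div_assoc, div_le_div_iff₀ (by positivity) (by norm_num), one_mul]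
    calc 2 * SG (i + 1 + 1) * 2 ^ (34 * (i + 3) + 17) * 8
        ≤ 2 * 2 ^ (11 + 5 * (i + 1 + 2) ^ 3) * 2 ^ (34 * (i + 3) + 17) * 8 := by gcongr
      _ = 2 ^ (1 + (11 + 5 * (i + 1 + 2) ^ 3) + (34 * (i + 3) + 17) + 3) := by
          rw [show (8 : ℝ) = 2 ^ 3 by norm_num, ← pow_succ', ← pow_add, ← pow_add]
          congr 1
          ring
      _ ≤ _ := ParP_two (by
        have e : i + 1 + 2 = i + 3 := by omega
        rw [e]
        omega)
  · rw [etau, div_le_one (by positivity)]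
    exact ParP_two (by omega)
  · have h1 : Gm (i + 1) ≤ SG (i + 1 + 1) := by
      unfold SG
      exact Finset.single_le_sum (f := Gm) (fun k _ => by rw [ParP_Gm]; positivity)
        (Finset.mem_range.2 (by omega))
    rw [ParP_Gm] at h1
    have h2 : C * A ≤ 2 ^ (i + 3) * 2 ^ (5 * (i + 5) ^ 3 - d) := by gcongr
    have h3 : (2 : ℝ) ^ (i + 3) * 2 ^ (5 * (i + 5) ^ 3 - d) * 2 ≤ 2 ^ (10 + 5 * (i + 1 + 2) ^ 3) := by
      rw [← pow_add, ← pow_succ]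
      refine ParP_two ?_
      have e : i + 1 + 2 = i + 3 := by omega
      rw [e]
      omega
    linarith
  · obtain ⟨N, hN⟩ : ∃ N : ℕ, N = (i + 3) + (5 * (i + 5) ^ 3) * 2 := ⟨_, rfl⟩
    have h2 : (N : ℝ) ≤ 2 ^ (15 * i ^ 2 + 75 * i + 77) := by
      refine ParP_big i N ?_
      rw [hN]
      obtain ⟨k, rfl⟩ : ∃ k, i = k + 90 := ⟨i - 90, by omega⟩
      ring_nf; omega
    have h3 : (N : ℝ) ≤ bb (i + 1) := by
      refine h2.trans ?_
      rw [ParP_bb, ParP_om, le_div_iff₀ (by positivity), ← pow_add]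
      exact ParP_two (by omega)
    have h4 := ParP_expn N h3
    have h5 : A ≤ 2 ^ (5 * (i + 5) ^ 3) := hA.trans (ParP_two (by omega))
    calc C * A ^ 2 * Real.exp (-bb (i + 1))
        ≤ 2 ^ (i + 3) * (2 ^ (5 * (i + 5) ^ 3)) ^ 2 * (1 / 2 ^ N) := by gcongr
      _ = 1 := by
          rw [← pow_mul, ← pow_add, ← hN, mul_one_div, div_self (by positivity)]
  · refine le_trans ?_ hTm
    rw [etau]
    calc 2 ^ (34 * (i + 3) + 17) / 2 ^ (5 * (i + 5) ^ 3) * A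
        ≤ 2 ^ (34 * (i + 3) + 17) / 2 ^ (5 * (i + 5) ^ 3) * 2 ^ (5 * (i + 5) ^ 3 - d) := by
          gcongr
      _ ≤ 1 / 2 ^ (i + 3) := by
          rw [div_mul_eq_mul_div, div_le_div_iff₀ (by positivity) (by positivity), one_mul,
            ← pow_add, ← pow_add]
          exact ParP_two (by omega)

end Pool.Agent.H226.GB

end

/-! ## Modes -/

section

/-!
The explicit fields are divergence-free trigonometric polynomials .
-/

open MeasureTheory Set Filter Topology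
open scoped ContDiff
open H459R3.NS

namespace Pool.Agent.H226.GB

/-- the field of one product mode -/
noncomputable def Modes_E (a b c : ℕ) (x : V) : V :=
  ![2 * Real.pi * c * (sn a (x 0) * cs b (x 1) * cs c (x 2)), 0,
    -(2 * Real.pi * a * (cs a (x 0) * cs b (x 1) * sn c (x 2)))]

/-- one mode -/
noncomputable def Modes_M (p q r : ℤ) (x : V) : V :=
  Real.sin (2 * Real.pi * (p * x 0 + q * x 1 + r * x 2)) • (![(r : ℝ), 0, -(p : ℝ)] : V)

theorem Modes_M_mem (p q r : ℤ) (hr : r ≠ 0) : Modes_M p q r ∈ Submodule.span ℝ (md 0) := by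
  apply Submodule.subset_span
  refine ⟨![p, q, r], ![(r : ℝ), 0, -(p : ℝ)], ⟨2, ?_⟩, ?_, Or.inr fun x => ?_⟩
  · simpa using hr
  · simp [Fin.sum_univ_three]
    ring
  · simp [Fin.sum_univ_three, Modes_M]

theorem Modes_t1 (α β γ : ℝ) : Real.sin (α + β + γ) + Real.sin (α - β + γ) -
    Real.sin (-α + β + γ) - Real.sin (-α - β + γ) = 4 * (Real.sin α * Real.cos β * Real.cos γ) := by
  simp only [Real.sin_add, Real.cos_add, Real.sin_sub, Real.cos_sub, Real.sin_neg, Real.cos_neg]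
  ring

theorem Modes_t2 (α β γ : ℝ) : Real.sin (α + β + γ) + Real.sin (α - β + γ) +
    Real.sin (-α + β + γ) + Real.sin (-α - β + γ) = 4 * (Real.cos α * Real.cos β * Real.sin γ) := by
  simp only [Real.sin_add, Real.cos_add, Real.sin_sub, Real.cos_sub, Real.sin_neg, Real.cos_neg]
  ring

theorem Modes_E_eq (a b c : ℕ) : Modes_E a b c = (Real.pi / 2) •
    (Modes_M a b c + Modes_M a (-b) c - Modes_M (-a) b c - Modes_M (-a) (-b) c) := by
  funext x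
  have e1 : 2 * Real.pi * (((a : ℤ) : ℝ) * x 0 + ((b : ℤ) : ℝ) * x 1 + ((c : ℤ) : ℝ) * x 2) =
      2 * Real.pi * a * x 0 + 2 * Real.pi * b * x 1 + 2 * Real.pi * c * x 2 := by
    push_cast
    ring
  have e2 : 2 * Real.pi * (((a : ℤ) : ℝ) * x 0 + ((-(b : ℤ) : ℤ) : ℝ) * x 1 +
      ((c : ℤ) : ℝ) * x 2) =
      2 * Real.pi * a * x 0 - 2 * Real.pi * b * x 1 + 2 * Real.pi * c * x 2 := by
    push_cast
    ring
  have e3 : 2 * Real.pi * (((-(a : ℤ) : ℤ) : ℝ) * x 0 + ((b : ℤ) : ℝ) * x 1 +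
      ((c : ℤ) : ℝ) * x 2) =
      -(2 * Real.pi * a * x 0) + 2 * Real.pi * b * x 1 + 2 * Real.pi * c * x 2 := by
    push_cast
    ring
  have e4 : 2 * Real.pi * (((-(a : ℤ) : ℤ) : ℝ) * x 0 + ((-(b : ℤ) : ℤ) : ℝ) * x 1 +
      ((c : ℤ) : ℝ) * x 2) =
      -(2 * Real.pi * a * x 0) - 2 * Real.pi * b * x 1 + 2 * Real.pi * c * x 2 := by
    push_cast
    ring
  have t1 := Modes_t1 (2 * Real.pi * a * x 0) (2 * Real.pi * b * x 1) (2 * Real.pi * c * x 2)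
  have t2 := Modes_t2 (2 * Real.pi * a * x 0) (2 * Real.pi * b * x 1) (2 * Real.pi * c * x 2)
  rw [← e1, ← e2, ← e3, ← e4] at t1 t2
  rw [Pi.smul_apply, Pi.sub_apply, Pi.sub_apply, Pi.add_apply]
  ext i
  fin_cases i
  · show 2 * Real.pi * c * (sn a (x 0) * cs b (x 1) * cs c (x 2)) = Real.pi / 2 *
      (Real.sin (2 * Real.pi * (((a : ℤ) : ℝ) * x 0 + ((b : ℤ) : ℝ) * x 1 + ((c : ℤ) : ℝ) * x 2)) *
        ((c : ℤ) : ℝ) +
      Real.sin (2 * Real.pi * (((a : ℤ) : ℝ) * x 0 + ((-(b : ℤ) : ℤ) : ℝ) * x 1 +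
        ((c : ℤ) : ℝ) * x 2)) * ((c : ℤ) : ℝ) -
      Real.sin (2 * Real.pi * (((-(a : ℤ) : ℤ) : ℝ) * x 0 + ((b : ℤ) : ℝ) * x 1 +
        ((c : ℤ) : ℝ) * x 2)) * ((c : ℤ) : ℝ) -
      Real.sin (2 * Real.pi * (((-(a : ℤ) : ℤ) : ℝ) * x 0 + ((-(b : ℤ) : ℤ) : ℝ) * x 1 +
        ((c : ℤ) : ℝ) * x 2)) * ((c : ℤ) : ℝ))
    unfold sn cs
    have hc : ((c : ℤ) : ℝ) = (c : ℝ) := by push_cast; rfl
    linear_combination (-(Real.pi / 2) * (c : ℝ)) * t1
  · show (0 : ℝ) = Real.pi / 2 *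
      (Real.sin (2 * Real.pi * (((a : ℤ) : ℝ) * x 0 + ((b : ℤ) : ℝ) * x 1 + ((c : ℤ) : ℝ) * x 2)) * 0 +
      Real.sin (2 * Real.pi * (((a : ℤ) : ℝ) * x 0 + ((-(b : ℤ) : ℤ) : ℝ) * x 1 +
        ((c : ℤ) : ℝ) * x 2)) * 0 -
      Real.sin (2 * Real.pi * (((-(a : ℤ) : ℤ) : ℝ) * x 0 + ((b : ℤ) : ℝ) * x 1 +
        ((c : ℤ) : ℝ) * x 2)) * 0 -
      Real.sin (2 * Real.pi * (((-(a : ℤ) : ℤ) : ℝ) * x 0 + ((-(b : ℤ) : ℤ) : ℝ) * x 1 +
        ((c : ℤ) : ℝ) * x 2)) * 0)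
    ring
  · show -(2 * Real.pi * a * (cs a (x 0) * cs b (x 1) * sn c (x 2))) = Real.pi / 2 *
      (Real.sin (2 * Real.pi * (((a : ℤ) : ℝ) * x 0 + ((b : ℤ) : ℝ) * x 1 + ((c : ℤ) : ℝ) * x 2)) *
        -((a : ℤ) : ℝ) +
      Real.sin (2 * Real.pi * (((a : ℤ) : ℝ) * x 0 + ((-(b : ℤ) : ℤ) : ℝ) * x 1 +
        ((c : ℤ) : ℝ) * x 2)) * -((a : ℤ) : ℝ) -
      Real.sin (2 * Real.pi * (((-(a : ℤ) : ℤ) : ℝ) * x 0 + ((b : ℤ) : ℝ) * x 1 +
        ((c : ℤ) : ℝ) * x 2)) * -((-(a : ℤ) : ℤ) : ℝ) -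
      Real.sin (2 * Real.pi * (((-(a : ℤ) : ℤ) : ℝ) * x 0 + ((-(b : ℤ) : ℤ) : ℝ) * x 1 +
        ((c : ℤ) : ℝ) * x 2)) * -((-(a : ℤ) : ℤ) : ℝ))
    have hna : ((-(a : ℤ) : ℤ) : ℝ) = -((a : ℤ) : ℝ) := Int.cast_neg _
    rw [hna] at t2 ⊢
    unfold sn cs
    push_cast at t2 ⊢
    linear_combination ((Real.pi / 2) * (a : ℝ)) * t2

theorem Modes_E_mem (a b c : ℕ) (hc : 1 ≤ c) : Modes_E a b c ∈ Submodule.span ℝ (md 0) := by
  have hc0 : ((c : ℕ) : ℤ) ≠ 0 := by omega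
  rw [Modes_E_eq]
  exact Submodule.smul_mem _ _ (Submodule.sub_mem _ (Submodule.sub_mem _ (Submodule.add_mem _
    (Modes_M_mem _ _ _ hc0) (Modes_M_mem _ _ _ hc0)) (Modes_M_mem _ _ _ hc0))
    (Modes_M_mem _ _ _ hc0))

theorem Modes_NN_pos (m : ℕ) : 1 ≤ NN m := by
  unfold NN RR
  exact Nat.one_le_iff_ne_zero.2 (by positivity)

theorem Modes_psi (m : ℕ) : gp (psi m) ∈ Submodule.span ℝ (md 0) := by
  have hN := Modes_NN_pos m
  set N := NN m with hNdef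
  have e : gp (psi m) = ∑ a ∈ Finset.Ico N (2 * N), ∑ b ∈ Finset.Ico N (2 * N),
      ∑ c ∈ Finset.Ico (16 * N) (17 * N), (1 / (2 * Real.pi * (c : ℝ))) • Modes_E a b c := by
    funext x
    have hs : (∑ a ∈ Finset.Ico N (2 * N), ∑ b ∈ Finset.Ico N (2 * N),
        ∑ c ∈ Finset.Ico (16 * N) (17 * N), (1 / (2 * Real.pi * (c : ℝ))) • Modes_E a b c) x =
        ∑ a ∈ Finset.Ico N (2 * N), ∑ b ∈ Finset.Ico N (2 * N),
        ∑ c ∈ Finset.Ico (16 * N) (17 * N), (1 / (2 * Real.pi * (c : ℝ))) • Modes_E a b c x := by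
      simp only [Finset.sum_apply, Pi.smul_apply]
    rw [hs]
    ext i
    simp only [Finset.sum_apply, Pi.smul_apply, smul_eq_mul]
    have hc0 : ∀ c ∈ Finset.Ico (16 * N) (17 * N), (2 * Real.pi * (c : ℝ)) ≠ 0 := by
      intro c hc
      rw [Finset.mem_Ico] at hc
      have h1 : (c : ℝ) ≠ 0 := by
        have : c ≠ 0 := by omega
        exact_mod_cast this
      have := Real.pi_ne_zero
      positivity
    fin_cases i
    · show pd 2 (psi m) x = _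
      unfold psi
      rw [s_prod.pd2 (s_one.p1_F _) (s_one.p1_G _) (s_one.p1_H _)]
      show fF N (x 0) * fG N (x 1) * deriv (fH N) (x 2) = _
      rw [s_one.dH, fF, fG, Finset.sum_mul_sum, Finset.sum_mul]
      refine Finset.sum_congr rfl fun a _ => ?_
      rw [Finset.sum_mul]
      refine Finset.sum_congr rfl fun b _ => ?_
      rw [Finset.mul_sum]
      refine Finset.sum_congr rfl fun c hc => ?_
      have h2 := hc0 c hc
      have h3 : (c : ℝ) ≠ 0 := right_ne_zero_of_mul h2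
      show _ = 1 / (2 * Real.pi * (c : ℝ)) *
        (2 * Real.pi * c * (sn a (x 0) * cs b (x 1) * cs c (x 2)))
      field_simp
    · show (0 : ℝ) = ∑ a ∈ Finset.Ico N (2 * N), ∑ b ∈ Finset.Ico N (2 * N),
        ∑ c ∈ Finset.Ico (16 * N) (17 * N), (1 / (2 * Real.pi * (c : ℝ))) * 0
      simp
    · show -pd 0 (psi m) x = _
      unfold psi
      rw [s_prod.pd0 (s_one.p1_F _) (s_one.p1_G _) (s_one.p1_H _)]
      show -(deriv (fF N) (x 0) * fG N (x 1) * fH N (x 2)) = _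
      rw [s_one.dF, fG, fH, Finset.sum_mul_sum, Finset.sum_mul, ← Finset.sum_neg_distrib]
      refine Finset.sum_congr rfl fun a _ => ?_
      rw [Finset.sum_mul, ← Finset.sum_neg_distrib]
      refine Finset.sum_congr rfl fun b _ => ?_
      rw [Finset.mul_sum, ← Finset.sum_neg_distrib]
      refine Finset.sum_congr rfl fun c hc => ?_
      have h2 := hc0 c hc
      have h3 : (c : ℝ) ≠ 0 := right_ne_zero_of_mul h2
      show _ = 1 / (2 * Real.pi * (c : ℝ)) *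
        -(2 * Real.pi * a * (cs a (x 0) * cs b (x 1) * sn c (x 2)))
      field_simp
  rw [e]
  refine Submodule.sum_mem _ fun a _ => Submodule.sum_mem _ fun b _ => Submodule.sum_mem _
    fun c hc => Submodule.smul_mem _ _ (Modes_E_mem a b c ?_)
  rw [Finset.mem_Ico] at hc
  omega

theorem Modes_chi (m : ℕ) : gp (chi m) ∈ Submodule.span ℝ (md 0) := by
  have hN := Modes_NN_pos (m - 1)
  have e : gp (chi m) = Modes_E (4 * NN (m - 1) - 3) (4 * NN (m - 1) - 2)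
      (2 * (17 * NN (m - 1) - 1)) := by
    funext x
    ext i
    fin_cases i
    · show pd 2 (chi m) x = _
      unfold chi
      rw [s_prod.pd2 (s_one.p1_sn _) (s_one.p1_cs _) (s_one.p1_sn _)]
      show sn _ (x 0) * cs _ (x 1) * deriv (sn (2 * (17 * NN (m - 1) - 1))) (x 2) = _
      rw [(One_sn_der _ _).deriv]
      show _ = 2 * Real.pi * _ * (_ * _ * _)
      ring
    · rfl
    · show -pd 0 (chi m) x = _
      unfold chi
      rw [s_prod.pd0 (s_one.p1_sn _) (s_one.p1_cs _) (s_one.p1_sn _)]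
      show -(deriv (sn (4 * NN (m - 1) - 3)) (x 0) * cs _ (x 1) * sn _ (x 2)) = _
      rw [(One_sn_der _ _).deriv]
      show _ = -(2 * Real.pi * _ * (_ * _ * _))
      ring
  rw [e]
  exact Modes_E_mem _ _ _ (by omega)

theorem s_modes : ∀ m, phi m ∈ Submodule.span ℝ (md 0) := by
  intro m
  have hpsi : SP (psi m) := s_prod.sp (s_one.p1_F _) (s_one.p1_G _) (s_one.p1_H _)
  have hchi : SP (chi m) := s_prod.sp (s_one.p1_sn _) (s_one.p1_cs _) (s_one.p1_sn _)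
  have e1 : gp (th0 m) = gp (psi m) + ee' m • gp (chi m) :=
    Pump_gp_lin hpsi hchi (ee' m)
  have e2 : phi m = (-(nm m)⁻¹) • gp (th0 m) := rfl
  rw [e2, e1]
  exact Submodule.smul_mem _ _ (Submodule.add_mem _ (Modes_psi m)
    (Submodule.smul_mem _ _ (Modes_chi m)))

end Pool.Agent.H226.GB

end
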