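import Pool.Agent.H226.GM.S
import Pool.Agent.H226.GM.Shift
import Pool.Agent.H226.GM.LocB
import Pool.Agent.H226.GM.Uniq

/-! ## Stat -/

section

/-!
Finiteness of the Sobolev norms of smooth fields, and smooth series of the basis fields.
Written by seat helper588.
-/

set_option autoImplicit false

open MeasureTheory Set Filter Topology
open scoped ContDiff ENNReal
open H459R3.NS

namespace Pool.Agent.H226.GB

/-! ### Fourier coefficients -/

theorem stat_ee (k : K3) (x : V) : ee (-k) x = ((Real.cos (2 * Real.pi * ph k x) : ℝ) : ℂ) -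
    ((Real.sin (2 * Real.pi * ph k x) : ℝ) : ℂ) * Complex.I := by
  have h1 : ee (-k) x = Complex.exp (((-(2 * Real.pi * ph k x) : ℝ) : ℂ) * Complex.I) := by
    rw [ee, ph_neg]
    congr 1
    push_cast
    ring
  rw [h1, Complex.exp_mul_I, ← Complex.ofReal_cos, ← Complex.ofReal_sin, Real.cos_neg,
    Real.sin_neg]
  push_cast
  ring

theorem stat_fr {f : V → ℝ} (hf : SP f) (k : K3) : fr f k =
    ((∫ x in cube, f x * Real.cos (2 * Real.pi * ph k x) : ℝ) : ℂ) -
      ((∫ x in cube, f x * Real.sin (2 * Real.pi * ph k x) : ℝ) : ℂ) * Complex.I := by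
  have c1 : Continuous fun x => ((f x * Real.cos (2 * Real.pi * ph k x) : ℝ) : ℂ) :=
    Complex.continuous_ofReal.comp (hf.mul (up_cos k)).cont
  have c2 : Continuous fun x =>
      ((f x * Real.sin (2 * Real.pi * ph k x) : ℝ) : ℂ) * Complex.I :=
    (Complex.continuous_ofReal.comp (hf.mul (up_sin k)).cont).mul continuous_const
  rw [← integral_complex_ofReal, ← integral_complex_ofReal, ← integral_mul_const,
    ← integral_sub (integrableOn_cube c1) (integrableOn_cube c2)]
  unfold fr fc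
  refine integral_congr_ae (Filter.Eventually.of_forall fun x => ?_)
  beta_reduce
  rw [stat_ee]
  push_cast
  ring

theorem stat_norm {f : V → ℝ} (hf : SP f) (k : K3) : ‖fr f k‖ ^ 2 =
    (∫ x in cube, f x * Real.cos (2 * Real.pi * ph k x)) ^ 2
      + (∫ x in cube, f x * Real.sin (2 * Real.pi * ph k x)) ^ 2 := by
  rw [stat_fr hf, ← Complex.normSq_eq_norm_sq, Complex.normSq_apply]
  simp
  ring

theorem stat_fq {v : V → V} (hv : ∀ i, SP (fun x => v x i)) (k : K3) :
    fq v k = ∑ i, ‖fr (fun x => v x i) k‖ ^ 2 := by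
  unfold fq
  refine Finset.sum_congr rfl fun i _ => ?_
  rw [stat_norm (hv i)]
  rfl

theorem stat_fq_nonneg (v : V → V) (k : K3) : 0 ≤ fq v k :=
  Finset.sum_nonneg fun _ _ => by positivity

/-- the weight is polynomially bounded -/
theorem stat_wt (s : ℝ) : ∃ n : ℕ, ∀ k : K3, (1 + ∑ j, (k j : ℝ) ^ 2) ^ s ≤
    4 ^ n * (1 + (N k : ℝ) ^ (2 * n)) := by
  obtain ⟨n, hn⟩ := exists_nat_ge s
  refine ⟨n, fun k => ?_⟩
  have h1 : (1 : ℝ) ≤ 1 + ∑ j, (k j : ℝ) ^ 2 :=
    le_add_of_nonneg_right (Finset.sum_nonneg fun _ _ => sq_nonneg _)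
  have h2 : ∀ j, (k j : ℝ) ^ 2 ≤ (N k : ℝ) ^ 2 := by
    intro j
    have h := (N_le_iff k (N k)).1 le_rfl j
    have h3 : |(k j : ℝ)| ≤ N k := by exact_mod_cast h
    rw [← sq_abs (k j : ℝ)]
    exact pow_le_pow_left₀ (abs_nonneg _) h3 2
  have h3 : 1 + ∑ j, (k j : ℝ) ^ 2 ≤ 1 + 3 * (N k : ℝ) ^ 2 := by
    rw [Fin.sum_univ_three]
    linarith [h2 0, h2 1, h2 2]
  calc (1 + ∑ j, (k j : ℝ) ^ 2) ^ s ≤ (1 + ∑ j, (k j : ℝ) ^ 2) ^ (n : ℝ) :=
        Real.rpow_le_rpow_of_exponent_le h1 hn
    _ = (1 + ∑ j, (k j : ℝ) ^ 2) ^ n := Real.rpow_natCast _ _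
    _ ≤ (1 + 3 * (N k : ℝ) ^ 2) ^ n := pow_le_pow_left₀ (by linarith) h3 n
    _ ≤ 4 ^ n * (1 + (N k : ℝ) ^ (2 * n)) := by
        rcases Nat.eq_zero_or_pos (N k) with h | h
        · rw [h]
          have h4 : (1 + 3 * ((0 : ℕ) : ℝ) ^ 2) = 1 := by norm_num
          rw [h4, one_pow]
          have h5 : (1 : ℝ) ≤ 4 ^ n := one_le_pow₀ (by norm_num)
          have h6 : (0 : ℝ) ≤ ((0 : ℕ) : ℝ) ^ (2 * n) := by positivity
          nlinarith
        · have h4 : (1 : ℝ) ≤ N k := by exact_mod_cast h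
          have h5 : 1 + 3 * (N k : ℝ) ^ 2 ≤ 4 * (N k : ℝ) ^ 2 := by nlinarith
          calc (1 + 3 * (N k : ℝ) ^ 2) ^ n ≤ (4 * (N k : ℝ) ^ 2) ^ n :=
                pow_le_pow_left₀ (by positivity) h5 n
            _ = 4 ^ n * (N k : ℝ) ^ (2 * n) := by rw [mul_pow, pow_mul]
            _ ≤ 4 ^ n * (1 + (N k : ℝ) ^ (2 * n)) := by
                refine mul_le_mul_of_nonneg_left ?_ (by positivity)
                linarith

theorem stat_summable {f : V → ℝ} (hf : SP f) (s : ℝ) :
    Summable fun k : K3 => (1 + ∑ j, (k j : ℝ) ^ 2) ^ s * ‖fr f k‖ ^ 2 := by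
  obtain ⟨n, hn⟩ := stat_wt s
  obtain ⟨C, hC⟩ := norm_fr_le hf
  have h1 := rap_fr hf 0
  have h2 := rap_fr hf (2 * n)
  have h3 := ((h1.add h2).mul_left (4 ^ n)).mul_right C
  refine Summable.of_nonneg_of_le (fun k => ?_) (fun k => ?_) h3
  · refine mul_nonneg (Real.rpow_nonneg ?_ _) (sq_nonneg _)
    exact add_nonneg zero_le_one (Finset.sum_nonneg fun _ _ => sq_nonneg _)
  · have h4 : (0 : ℝ) ≤ 4 ^ n * (1 + (N k : ℝ) ^ (2 * n)) := by positivity
    calc (1 + ∑ j, (k j : ℝ) ^ 2) ^ s * ‖fr f k‖ ^ 2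
        ≤ (4 ^ n * (1 + (N k : ℝ) ^ (2 * n))) * ‖fr f k‖ ^ 2 :=
          mul_le_mul_of_nonneg_right (hn k) (sq_nonneg _)
      _ = (4 ^ n * (1 + (N k : ℝ) ^ (2 * n))) * ‖fr f k‖ * ‖fr f k‖ := by ring
      _ ≤ (4 ^ n * (1 + (N k : ℝ) ^ (2 * n))) * ‖fr f k‖ * C :=
          mul_le_mul_of_nonneg_left (hC k) (mul_nonneg h4 (norm_nonneg _))
      _ = 4 ^ n * ((N k : ℝ) ^ 0 * ‖fr f k‖ + (N k : ℝ) ^ (2 * n) * ‖fr f k‖) * C := by
          rw [pow_zero]
          ring

theorem stat_fin {f : V → V} (s : ℝ) (hf : ∀ i, SP (fun x => f x i)) : hs s f < ⊤ := by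
  unfold hs
  refine Summable.tsum_ofReal_lt_top ?_
  have h1 : Summable fun k : K3 => ∑ i, (1 + ∑ j, (k j : ℝ) ^ 2) ^ s *
      ‖fr (fun x => f x i) k‖ ^ 2 := summable_sum fun i _ => stat_summable (hf i) s
  refine h1.congr fun k => ?_
  rw [stat_fq hf, Finset.mul_sum]

theorem stat_fq_add {f g : V → V} (hf : ∀ i, SP (fun x => f x i)) (hg : ∀ i, SP (fun x => g x i))
    (k : K3) : fq (fun x => f x + g x) k ≤ 2 * fq f k + 2 * fq g k := by
  unfold fq
  rw [Finset.mul_sum, Finset.mul_sum, ← Finset.sum_add_distrib]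
  refine Finset.sum_le_sum fun i _ => ?_
  have h1 : (∫ x in cube, (f x + g x) i * Real.cos (2 * Real.pi * ∑ j, (k j : ℝ) * x j)) =
      (∫ x in cube, f x i * Real.cos (2 * Real.pi * ∑ j, (k j : ℝ) * x j)) +
      ∫ x in cube, g x i * Real.cos (2 * Real.pi * ∑ j, (k j : ℝ) * x j) := by
    refine Eq.trans ?_ (integral_add ((hf i).mul (up_cos k)).int ((hg i).mul (up_cos k)).int)
    refine integral_congr_ae (Filter.Eventually.of_forall fun x => ?_)
    exact add_mul _ _ _
  have h2 : (∫ x in cube, (f x + g x) i * Real.sin (2 * Real.pi * ∑ j, (k j : ℝ) * x j)) =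
      (∫ x in cube, f x i * Real.sin (2 * Real.pi * ∑ j, (k j : ℝ) * x j)) +
      ∫ x in cube, g x i * Real.sin (2 * Real.pi * ∑ j, (k j : ℝ) * x j) := by
    refine Eq.trans ?_ (integral_add ((hf i).mul (up_sin k)).int ((hg i).mul (up_sin k)).int)
    refine integral_congr_ae (Filter.Eventually.of_forall fun x => ?_)
    exact add_mul _ _ _
  rw [h1, h2]
  generalize (∫ x in cube, f x i * Real.cos (2 * Real.pi * ∑ j, (k j : ℝ) * x j)) = a
  generalize (∫ x in cube, g x i * Real.cos (2 * Real.pi * ∑ j, (k j : ℝ) * x j)) = b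
  generalize (∫ x in cube, f x i * Real.sin (2 * Real.pi * ∑ j, (k j : ℝ) * x j)) = c
  generalize (∫ x in cube, g x i * Real.sin (2 * Real.pi * ∑ j, (k j : ℝ) * x j)) = d
  nlinarith [sq_nonneg (a - b), sq_nonneg (c - d)]

theorem s_hfin : S_hfin := by
  refine ⟨fun f s hf => stat_fin s hf, fun f g s hf hg => ?_⟩
  unfold hs
  rw [← ENNReal.tsum_mul_left, ← ENNReal.tsum_mul_left, ← ENNReal.tsum_add]
  refine ENNReal.tsum_le_tsum fun k => ?_
  have hw : (0 : ℝ) ≤ (1 + ∑ j, (k j : ℝ) ^ 2) ^ s :=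
    Real.rpow_nonneg (add_nonneg zero_le_one (Finset.sum_nonneg fun _ _ => sq_nonneg _)) _
  have e2 : (2 : ℝ≥0∞) = ENNReal.ofReal 2 := by norm_num
  rw [e2, ← ENNReal.ofReal_mul zero_le_two, ← ENNReal.ofReal_mul zero_le_two,
    ← ENNReal.ofReal_add (mul_nonneg zero_le_two (mul_nonneg hw (stat_fq_nonneg _ _)))
      (mul_nonneg zero_le_two (mul_nonneg hw (stat_fq_nonneg _ _)))]
  refine ENNReal.ofReal_le_ofReal ?_
  calc (1 + ∑ j, (k j : ℝ) ^ 2) ^ s * fq (fun x => f x + g x) k
      ≤ (1 + ∑ j, (k j : ℝ) ^ 2) ^ s * (2 * fq f k + 2 * fq g k) :=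
        mul_le_mul_of_nonneg_left (stat_fq_add hf hg k) hw
    _ = _ := by ring

/-! ### Series -/

theorem stat_sp (hb : Basis phi cc pp gg) (hn : S_nm) {b : ℕ → ℝ} (hR : Loc3R b) (i : Fin 3) :
    SP (loc3S b (loc3P i)) where
  smooth := loc3_cdS hR (loc3_pb hn i)
  per := by
    intro j x
    refine tsum_congr fun m => ?_
    rw [(loc3_sp hb i m).per j x]

theorem s_stat (_ : S_int) (hb : Basis phi cc pp gg) (hn : S_nm) : S_stat := by
  intro p b _ hR
  have hR' : Loc3R b := hR
  refine ⟨fun x i => loc3S b (loc3P i) ((p : ℝ) • x), fun i => up_sp (stat_sp hb hn hR' i) p,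
    fun x => ?_, fun x i => loc3_sum hR' (loc3_pb hn i) ((p : ℝ) • x), fun ε hε => ?_⟩
  · have h0 : ∀ i : Fin 3, pd i (fun y => loc3S b (loc3P i) ((p : ℝ) • y)) x =
        p * pd i (loc3S b (loc3P i)) ((p : ℝ) • x) := fun i => up_pd (stat_sp hb hn hR' i) _ i x
    rw [Finset.sum_congr rfl fun i _ => h0 i, ← Finset.mul_sum]
    have H : ∀ i : Fin 3, HasSum (fun m => b m * pd i (loc3P i m) ((p : ℝ) • x))
        (pd i (loc3S b (loc3P i)) ((p : ℝ) • x)) := fun i => by
      have h1 := loc3_sum hR' ((loc3_pb hn i).pd i) ((p : ℝ) • x)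
      rw [← loc3_pdS hR' (loc3_pb hn i) i] at h1
      exact h1
    have H1 := hasSum_sum (s := Finset.univ) fun i _ => H i
    have e : (fun m => ∑ i : Fin 3, b m * pd i (loc3P i m) ((p : ℝ) • x)) = fun _ => 0 := by
      funext m
      rw [← Finset.mul_sum]
      have h2 : ∑ i : Fin 3, pd i (loc3P i m) ((p : ℝ) • x) = 0 := Basis.div hb m _
      rw [h2, mul_zero]
    rw [e] at H1
    rw [H1.unique hasSum_zero, mul_zero]
  · have h1 : ∀ᶠ L in atTop, ∀ i : Fin 3, ∀ x, |loc3S b (loc3P i) x -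
        ∑ m ∈ Finset.range L, b m * loc3P i m x| ≤ Real.sqrt (ε / 6) := by
      rw [eventually_all]
      intro i
      exact loc3_tail hR' (loc3_pb hn i) (Real.sqrt_pos.2 (by positivity))
    obtain ⟨L₀, hL₀⟩ := eventually_atTop.1 h1
    refine ⟨L₀, fun L hL => ?_⟩
    have h2 : ∀ i : Fin 3, ∫ x in cube, (loc3S b (loc3P i) ((p : ℝ) • x) -
        ∑ m ∈ Finset.range L, b m * phi m ((p : ℝ) • x) i) ^ 2 ≤ ε / 6 := by
      intro i
      have hc : Continuous fun x : V => (loc3S b (loc3P i) ((p : ℝ) • x) -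
          ∑ m ∈ Finset.range L, b m * phi m ((p : ℝ) • x) i) ^ 2 := by
        refine ((up_sp (stat_sp hb hn hR' i) p).cont.sub
          (continuous_finsetSum _ fun m _ => continuous_const.mul ?_)).pow 2
        exact (up_sp (loc3_sp hb i m) p).cont
      have h3 : ∫ x in cube, (loc3S b (loc3P i) ((p : ℝ) • x) -
          ∑ m ∈ Finset.range L, b m * phi m ((p : ℝ) • x) i) ^ 2 ≤ ∫ x in cube, ε / 6 := by
        refine setIntegral_mono (integrableOn_cube hc) (integrableOn_cube continuous_const)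
          fun x => ?_
        have h4 := hL₀ L hL i ((p : ℝ) • x)
        have h5 : (Real.sqrt (ε / 6)) ^ 2 = ε / 6 := Real.sq_sqrt (by positivity)
        beta_reduce
        rw [← h5, ← sq_abs]
        exact pow_le_pow_left₀ (abs_nonneg _) h4 2
      rw [setIntegral_const, smul_eq_mul] at h3
      have h6 : volume.real cube = 1 := by
        rw [Measure.real, volume_cube]
        rfl
      rw [h6, one_mul] at h3
      exact h3
    calc _ ≤ ∑ i : Fin 3, ε / 6 := Finset.sum_le_sum fun i _ => h2 i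
      _ < ε := by
        rw [Finset.sum_const, Finset.card_univ, Fintype.card_fin, nsmul_eq_mul]
        push_cast
        linarith

end Pool.Agent.H226.GB

end

/-! ## Avg -/

section

/-!
The part of a divergence-free field with frequencies in `(pℤ)³`.
-/

set_option autoImplicit false

open MeasureTheory Set Filter Topology
open scoped ContDiff ENNReal
open H459R3.NS

namespace Pool.Agent.H226.GB

/-! ### Fourier coefficients -/

theorem avg_ee (k : K3) (x : V) : ee k x = ((Real.cos (2 * Real.pi * ph k x) : ℝ) : ℂ) +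
    ((Real.sin (2 * Real.pi * ph k x) : ℝ) : ℂ) * Complex.I := by
  have e : ee k x = Complex.exp (((2 * Real.pi * ph k x : ℝ) : ℂ) * Complex.I) := by
    rw [ee]
    refine congrArg _ ?_
    push_cast
    ring
  rw [e, Complex.exp_mul_I, ← Complex.ofReal_cos, ← Complex.ofReal_sin]

/-- the Fourier coefficients in terms of cosines and sines -/
theorem avg_fr {f : V → ℝ} (hf : SP f) (k : K3) :
    fr f k = ((∫ x in cube, f x * Real.cos (2 * Real.pi * ph k x) : ℝ) : ℂ) -
      ((∫ x in cube, f x * Real.sin (2 * Real.pi * ph k x) : ℝ) : ℂ) * Complex.I := by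
  have e : ∀ x, ee (-k) x * (f x : ℂ) = ((f x * Real.cos (2 * Real.pi * ph k x) : ℝ) : ℂ) -
      ((f x * Real.sin (2 * Real.pi * ph k x) : ℝ) : ℂ) * Complex.I := by
    intro x
    rw [avg_ee, ph_neg, mul_neg, Real.cos_neg, Real.sin_neg]
    push_cast
    ring
  have i1 : Integrable (fun x => ((f x * Real.cos (2 * Real.pi * ph k x) : ℝ) : ℂ))
      (volume.restrict cube) := ((hf.mul (up_cos k)).int).ofReal
  have i2 : Integrable (fun x => ((f x * Real.sin (2 * Real.pi * ph k x) : ℝ) : ℂ) * Complex.I)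
      (volume.restrict cube) := (((hf.mul (up_sin k)).int).ofReal).mul_const _
  unfold fr fc
  rw [integral_congr_ae (Eventually.of_forall e), integral_sub i1 i2, integral_mul_const,
    integral_complex_ofReal, integral_complex_ofReal]

theorem avg_norm {f : V → ℝ} (hf : SP f) (k : K3) :
    ‖fr f k‖ ^ 2 = (∫ x in cube, f x * Real.cos (2 * Real.pi * ph k x)) ^ 2 +
      (∫ x in cube, f x * Real.sin (2 * Real.pi * ph k x)) ^ 2 := by
  rw [avg_fr hf, ← Complex.normSq_eq_norm_sq, Complex.normSq_apply]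
  simp only [Complex.sub_re, Complex.ofReal_re, Complex.mul_re, Complex.I_re, mul_zero,
    Complex.ofReal_im, Complex.I_im, mul_one, sub_zero, Complex.sub_im, Complex.mul_im,
    zero_sub, zero_mul, add_zero, zero_add]
  ring

theorem avg_fq {v : V → V} (hv : ∀ i, SP (fun x => v x i)) (k : K3) :
    fq v k = ∑ i, ‖fr (fun x => v x i) k‖ ^ 2 := by
  unfold fq
  refine Finset.sum_congr rfl fun i _ => ?_
  rw [avg_norm (hv i) k]
  rfl

/-- translations -/
theorem avg_tr (hI : S_int) {f : V → ℝ} (hf : SP f) (y : V) (k : K3) :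
    fr (fun x => f (x + y)) k = ee k y * fr f k := by
  have h1 := hI.2 _ (hf.mul (up_cos k)) y
  have h2 := hI.2 _ (hf.mul (up_sin k)) y
  have hft := mem_trans hf y
  have i1 : Integrable (fun x => f (x + y) * Real.cos (2 * Real.pi * ph k (x + y)))
      (volume.restrict cube) := (mem_trans (hf.mul (up_cos k)) y).int
  have i2 : Integrable (fun x => f (x + y) * Real.sin (2 * Real.pi * ph k (x + y)))
      (volume.restrict cube) := (mem_trans (hf.mul (up_sin k)) y).int
  have e0 : ∀ x, 2 * Real.pi * ph k x = 2 * Real.pi * ph k (x + y) - 2 * Real.pi * ph k y := by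
    intro x
    rw [ph_add]
    ring
  have e1 : ∫ x in cube, f (x + y) * Real.cos (2 * Real.pi * ph k x) =
      (∫ x in cube, f x * Real.cos (2 * Real.pi * ph k x)) * Real.cos (2 * Real.pi * ph k y) +
      (∫ x in cube, f x * Real.sin (2 * Real.pi * ph k x)) * Real.sin (2 * Real.pi * ph k y) := by
    rw [← h1, ← h2, ← integral_mul_const, ← integral_mul_const,
      ← integral_add (i1.mul_const _) (i2.mul_const _)]
    refine integral_congr_ae (Eventually.of_forall fun x => ?_)
    show f (x + y) * Real.cos (2 * Real.pi * ph k x) = _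
    rw [e0 x, Real.cos_sub]
    ring
  have e2 : ∫ x in cube, f (x + y) * Real.sin (2 * Real.pi * ph k x) =
      (∫ x in cube, f x * Real.sin (2 * Real.pi * ph k x)) * Real.cos (2 * Real.pi * ph k y) -
      (∫ x in cube, f x * Real.cos (2 * Real.pi * ph k x)) * Real.sin (2 * Real.pi * ph k y) := by
    rw [← h1, ← h2, ← integral_mul_const, ← integral_mul_const,
      ← integral_sub (i2.mul_const _) (i1.mul_const _)]
    refine integral_congr_ae (Eventually.of_forall fun x => ?_)
    show f (x + y) * Real.sin (2 * Real.pi * ph k x) = _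
    rw [e0 x, Real.sin_sub]
    ring
  rw [avg_fr hft, avg_fr hf, avg_ee, e1, e2]
  push_cast
  have hII : Complex.I * Complex.I = -1 := Complex.I_mul_I
  linear_combination (((∫ x in cube, f x * Real.sin (2 * Real.pi * ph k x) : ℝ) : ℂ) *
    Complex.sin (2 * Real.pi * ph k y)) * hII

theorem avg_lin {ι : Type*} [Fintype ι] {g : ι → V → ℝ} (hg : ∀ n, SP (g n)) (c : ℝ) (k : K3) :
    fr (fun x => c * ∑ n, g n x) k = c * ∑ n, fr (g n) k := by
  unfold fr fc
  have e : ∀ x, ee (-k) x * ((c * ∑ n, g n x : ℝ) : ℂ) =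
      (c : ℂ) * ∑ n, ee (-k) x * ((g n x : ℝ) : ℂ) := by
    intro x
    rw [← Finset.mul_sum]
    push_cast
    ring
  rw [integral_congr_ae (Eventually.of_forall e), integral_const_mul, integral_finsetSum]
  intro n _
  exact integrableOn_cube ((ee_continuous _).mul (Complex.continuous_ofReal.comp (hg n).cont))

theorem avg_frsub {f g : V → ℝ} (hf : SP f) (hg : SP g) (k : K3) :
    fr (fun x => f x - g x) k = fr f k - fr g k := by
  unfold fr fc
  have e : ∀ x, ee (-k) x * ((f x - g x : ℝ) : ℂ) =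
      ee (-k) x * (f x : ℂ) - ee (-k) x * (g x : ℂ) := by
    intro x
    push_cast
    ring
  rw [integral_congr_ae (Eventually.of_forall e), integral_sub]
  · exact integrableOn_cube ((ee_continuous _).mul (Complex.continuous_ofReal.comp hf.cont))
  · exact integrableOn_cube ((ee_continuous _).mul (Complex.continuous_ofReal.comp hg.cont))

/-! ### The average -/

/-- the frequencies which are not divisible by `p` -/
def avgB (p : ℕ) : Set K3 := {k | ∃ j, ¬((p : ℤ) ∣ k j)}

theorem avg_one {p : ℕ} (hp : 1 ≤ p) {k : K3} (hk : k ∉ avgB p) (n : Fin 3 → Fin p) :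
    ee k (memSh p n) = 1 := by
  have hp0 : (p : ℝ) ≠ 0 := by positivity
  have h : ∀ j, ∃ m : ℤ, k j = p * m := by
    intro j
    by_contra hcon
    exact hk ⟨j, fun ⟨m, hm⟩ => hcon ⟨m, hm⟩⟩
  choose m hm using h
  have e : ph k (memSh p n) = ((∑ j, m j * ((n j : ℕ) : ℤ) : ℤ) : ℝ) := by
    unfold ph memSh
    push_cast
    refine Finset.sum_congr rfl fun j _ => ?_
    rw [hm j]
    push_cast
    field_simp
  rw [ee, e, Complex.exp_eq_one_iff]
  refine ⟨∑ j, m j * ((n j : ℕ) : ℤ), ?_⟩
  push_cast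
  ring

theorem avg_zero {p : ℕ} (hp : 1 ≤ p) {k : K3} (hk : k ∈ avgB p) :
    ∑ n : Fin 3 → Fin p, ee k (memSh p n) = 0 := by
  have h := mem_mode hp hk 0
  rw [← h]
  refine Finset.sum_congr rfl fun n _ => ?_
  rw [zero_add, ee]
  refine congrArg _ ?_
  unfold ph
  push_cast
  ring

theorem avg_sp {p : ℕ} {f : V → V} (hf : ∀ i, SP (fun x => f x i)) (i : Fin 3) :
    SP (fun x => memAv p f x i) := by
  have e : (fun x => memAv p f x i) = fun x =>
      ((p : ℝ) ^ 3)⁻¹ * ∑ n : Fin 3 → Fin p, f (x + memSh p n) i := by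
    funext x
    exact mem_av_apply p f x i
  rw [e]
  exact uni_smul _ (SP.sum fun n _ => mem_trans (hf i) _)

open Classical in
theorem avg_frh (hI : S_int) {p : ℕ} (hp : 1 ≤ p) {f : V → V} (hf : ∀ i, SP (fun x => f x i))
    (i : Fin 3) (k : K3) : fr (fun x => memAv p f x i) k =
      if k ∈ avgB p then 0 else fr (fun x => f x i) k := by
  have e : (fun x => memAv p f x i) = fun x =>
      ((p : ℝ) ^ 3)⁻¹ * ∑ n : Fin 3 → Fin p, f (x + memSh p n) i := by
    funext x
    exact mem_av_apply p f x i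
  have hp0 : (p : ℂ) ^ 3 ≠ 0 := pow_ne_zero _ (by exact_mod_cast (by omega : p ≠ 0))
  have e1 : ∀ n : Fin 3 → Fin p, fr (fun x => f (x + memSh p n) i) k =
      ee k (memSh p n) * fr (fun x => f x i) k := fun n =>
    avg_tr hI (hf i) (memSh p n) k
  rw [e, avg_lin (g := fun (n : Fin 3 → Fin p) x => f (x + memSh p n) i)
    (fun n => mem_trans (hf i) _), Finset.sum_congr rfl fun n _ => e1 n, ← Finset.sum_mul]
  split_ifs with hk
  · rw [avg_zero hp hk, zero_mul, mul_zero]
  · rw [Finset.sum_congr rfl fun n _ => avg_one hp hk n, Finset.sum_const, Finset.card_univ,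
      nsmul_eq_mul, mul_one, ← mul_assoc]
    have h3 : ((Fintype.card (Fin 3 → Fin p) : ℕ) : ℂ) = (p : ℂ) ^ 3 := by
      exact_mod_cast mem_card p
    rw [h3]
    push_cast
    rw [inv_mul_cancel₀ hp0, one_mul]

open Classical in
theorem avg_frd (hI : S_int) {p : ℕ} (hp : 1 ≤ p) {f : V → V} (hf : ∀ i, SP (fun x => f x i))
    (i : Fin 3) (k : K3) : fr (fun x => f x i - memAv p f x i) k =
      if k ∈ avgB p then fr (fun x => f x i) k else 0 := by
  rw [avg_frsub (hf i) (avg_sp hf i), avg_frh hI hp hf]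
  split_ifs
  · rw [sub_zero]
  · rw [sub_self]

theorem avg_div {p : ℕ} {f : V → V} (hf : ∀ i, SP (fun x => f x i))
    (hd : ∀ x, ∑ i, pd i (fun y => f y i) x = 0) (x : V) :
    ∑ i, pd i (fun y => memAv p f y i) x = 0 := by
  have e : ∀ i : Fin 3, pd i (fun y => memAv p f y i) x =
      ((p : ℝ) ^ 3)⁻¹ * ∑ n : Fin 3 → Fin p, pd i (fun y => f y i) (x + memSh p n) := by
    intro i
    have e0 : (fun x => memAv p f x i) = fun x =>
        ((p : ℝ) ^ 3)⁻¹ * ∑ n : Fin 3 → Fin p, f (x + memSh p n) i := by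
      funext x
      exact mem_av_apply p f x i
    rw [e0, up_pdc (SP.sum fun n _ => mem_trans (hf i) _),
      pd_sum (f := fun (n : Fin 3 → Fin p) x => f (x + memSh p n) i)
        (fun n _ => mem_trans (hf i) _)]
    refine congrArg _ (Finset.sum_congr rfl fun n _ => ?_)
    exact shift_pd (fun z => f z i) i (memSh p n) x
  rw [Finset.sum_congr rfl fun i _ => e i, ← Finset.mul_sum, Finset.sum_comm,
    Finset.sum_eq_zero fun n _ => hd _, mul_zero]

theorem avg_rot {q : ℕ} (j : Fin 3) (n : Fin 3 → Fin (q + 1)) {f : V → V} (hf : Per f) (x : V) :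
    f (x + Pi.single j (1 / ((q + 1 : ℕ) : ℝ)) + memSh (q + 1) n) = f (x + memSh (q + 1)
      (Equiv.piCongrRight (fun l => if l = j then finRotate (q + 1) else Equiv.refl _) n)) := by
  have hp0 : ((q + 1 : ℕ) : ℝ) ≠ 0 := by positivity
  have hne : ∀ l, l ≠ j → (Equiv.piCongrRight
      (fun l => if l = j then finRotate (q + 1) else Equiv.refl _) n) l = n l := by
    intro l hl
    show (if l = j then finRotate (q + 1) else Equiv.refl _) (n l) = n l
    rw [if_neg hl]
    rfl
  have heq : (Equiv.piCongrRight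
      (fun l => if l = j then finRotate (q + 1) else Equiv.refl _) n) j =
        finRotate (q + 1) (n j) := by
    show (if j = j then finRotate (q + 1) else Equiv.refl _) (n j) = _
    rw [if_pos rfl]
  by_cases h : n j = Fin.last q
  · have e : x + Pi.single j (1 / ((q + 1 : ℕ) : ℝ)) + memSh (q + 1) n =
        (x + memSh (q + 1) (Equiv.piCongrRight
          (fun l => if l = j then finRotate (q + 1) else Equiv.refl _) n)) + Pi.single j 1 := by
      rw [add_assoc, add_assoc]
      refine congrArg _ ?_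
      funext l
      rw [Pi.add_apply, Pi.add_apply]
      unfold memSh
      by_cases hl : l = j
      · subst hl
        rw [heq, h, Pi.single_eq_same, Pi.single_eq_same, coe_finRotate, if_pos rfl,
          Fin.val_last]
        push_cast
        push_cast at hp0
        field_simp
        ring
      · rw [hne l hl, Pi.single_eq_of_ne hl, Pi.single_eq_of_ne hl, zero_add, add_zero]
    rw [e, hf]
  · have e : x + Pi.single j (1 / ((q + 1 : ℕ) : ℝ)) + memSh (q + 1) n =
        x + memSh (q + 1) (Equiv.piCongrRight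
          (fun l => if l = j then finRotate (q + 1) else Equiv.refl _) n) := by
      rw [add_assoc]
      refine congrArg _ ?_
      funext l
      rw [Pi.add_apply]
      unfold memSh
      by_cases hl : l = j
      · subst hl
        rw [heq, Pi.single_eq_same, coe_finRotate, if_neg h]
        push_cast
        ring
      · rw [hne l hl, Pi.single_eq_of_ne hl, zero_add]
    rw [e]

theorem avg_per {p : ℕ} (hp : 1 ≤ p) {f : V → V} (hf : Per f) (j : Fin 3) (x : V) :
    memAv p f (x + Pi.single j (1 / (p : ℝ))) = memAv p f x := by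
  obtain ⟨q, rfl⟩ : ∃ q, p = q + 1 := ⟨p - 1, by omega⟩
  unfold memAv
  rw [Finset.sum_congr rfl fun n _ => avg_rot j n hf x]
  exact congrArg _ ((Equiv.piCongrRight (fun l : Fin 3 =>
    if l = j then finRotate (q + 1) else Equiv.refl (Fin (q + 1)))).sum_comp
      (fun n => f (x + memSh (q + 1) n)))

theorem avg_ip (hI : S_int) {p : ℕ} (hp : 1 ≤ p) {f w : V → V} (hf : ∀ i, SP (fun x => f x i))
    (hw : ∀ i, SP (fun x => w x i))
    (hwp : ∀ (j : Fin 3) (x : V), w (x + Pi.single j (1 / (p : ℝ))) = w x) (i : Fin 3) :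
    ∫ x in cube, memAv p f x i * w x i = ∫ x in cube, f x i * w x i := by
  have hp0 : (0 : ℝ) < (p : ℝ) ^ 3 := by positivity
  have hwn : ∀ (n : Fin 3 → Fin p) (x : V), w (x + memSh p n) = w x := fun n x =>
    mem_nat hwp (fun j => (n j : ℕ)) x
  have e : ∀ x, memAv p f x i * w x i = ((p : ℝ) ^ 3)⁻¹ *
      ∑ n : Fin 3 → Fin p, f (x + memSh p n) i * w (x + memSh p n) i := by
    intro x
    rw [mem_av_apply, mul_assoc, Finset.sum_mul]
    refine congrArg _ (Finset.sum_congr rfl fun n _ => ?_)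
    rw [hwn]
  have h1 : ∀ n : Fin 3 → Fin p, ∫ x in cube, f (x + memSh p n) i * w (x + memSh p n) i =
      ∫ x in cube, f x i * w x i := fun n => hI.2 _ ((hf i).mul (hw i)) (memSh p n)
  rw [integral_congr_ae (Eventually.of_forall e), integral_const_mul,
    integral_finsetSum _ fun n _ => (mem_trans ((hf i).mul (hw i)) (memSh p n)).int,
    Finset.sum_congr rfl fun n _ => h1 n, Finset.sum_const, Finset.card_univ, nsmul_eq_mul,
    mem_card, ← mul_assoc, inv_mul_cancel₀ hp0.ne', one_mul]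

/-! ### The span -/

theorem avg_kdiv {f : V → V} (hf : ∀ i, SP (fun x => f x i))
    (hd : ∀ x, ∑ i, pd i (fun y => f y i) x = 0) (k : K3) :
    ∑ i, (k i : ℂ) * fr (fun x => f x i) k = 0 := by
  have h1 := avg_lin (g := fun (i : Fin 3) => pd i (fun y => f y i)) (fun i => (hf i).pd i) 1 k
  have h2 : (fun x => (1 : ℝ) * ∑ i, pd i (fun y => f y i) x) = fun _ => (0 : ℝ) := by
    funext x
    rw [hd, mul_zero]
  have h3 : fr (fun _ => (0 : ℝ)) k = 0 := by
    unfold fr fc
    simp
  have h4 : ∀ i : Fin 3, fr (pd i (fun y => f y i)) k =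
      (2 * Real.pi * Complex.I) * ((k i : ℂ) * fr (fun x => f x i) k) := by
    intro i
    rw [fr_pd (hf i)]
    unfold D
    ring
  rw [h2, h3, Finset.sum_congr rfl fun i _ => h4 i, ← Finset.mul_sum] at h1
  have h5 : (2 * Real.pi * Complex.I : ℂ) ≠ 0 := Complex.two_pi_I_ne_zero
  rw [Complex.ofReal_one, one_mul] at h1
  exact (mul_eq_zero.1 h1.symm).resolve_left h5

/-- the truncations of the Fourier series -/
noncomputable def avgW (f : V → V) (s : Finset K3) (x : V) : V :=
  ∑ k ∈ s, (Real.cos (2 * Real.pi * ph k x) • (fun i => (fr (fun x => f x i) k).re : V) -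
    Real.sin (2 * Real.pi * ph k x) • (fun i => (fr (fun x => f x i) k).im : V))

theorem avg_W_mem {p : ℕ} {f : V → V} (hf : ∀ i, SP (fun x => f x i))
    (hd : ∀ x, ∑ i, pd i (fun y => f y i) x = 0) {s : Finset K3} (hs : ∀ k ∈ s, k ∈ avgB p) :
    avgW f s ∈ Submodule.span ℝ (md p) := by
  have e : avgW f s = ∑ k ∈ s,
      ((fun x => Real.cos (2 * Real.pi * ph k x) • (fun i => (fr (fun x => f x i) k).re : V)) -
        fun x => Real.sin (2 * Real.pi * ph k x) • (fun i => (fr (fun x => f x i) k).im : V)) := by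
    funext x
    rw [Finset.sum_apply]
    rfl
  rw [e]
  refine Submodule.sum_mem _ fun k hk => ?_
  have h0 := avg_kdiv hf hd k
  refine Submodule.sub_mem _ (Submodule.subset_span ?_) (Submodule.subset_span ?_)
  · refine ⟨k, fun i => (fr (fun x => f x i) k).re, hs k hk, ?_, Or.inl fun x => rfl⟩
    have h1 := congrArg Complex.re h0
    rw [Complex.re_sum, Complex.zero_re] at h1
    rw [← h1]
    refine Finset.sum_congr rfl fun i _ => ?_
    rw [Complex.mul_re, Complex.intCast_re, Complex.intCast_im, zero_mul, sub_zero]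
  · refine ⟨k, fun i => (fr (fun x => f x i) k).im, hs k hk, ?_, Or.inr fun x => rfl⟩
    have h1 := congrArg Complex.im h0
    rw [Complex.im_sum, Complex.zero_im] at h1
    rw [← h1]
    refine Finset.sum_congr rfl fun i _ => ?_
    rw [Complex.mul_im, Complex.intCast_re, Complex.intCast_im, zero_mul, add_zero]

theorem avg_W_re (f : V → V) (s : Finset K3) (x : V) (i : Fin 3) :
    avgW f s x i = (∑ k ∈ s, fr (fun x => f x i) k * ee k x).re := by
  unfold avgW
  rw [Finset.sum_apply, Complex.re_sum]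
  refine Finset.sum_congr rfl fun k _ => ?_
  rw [avg_ee, Pi.sub_apply, Pi.smul_apply, Pi.smul_apply, smul_eq_mul, smul_eq_mul,
    Complex.mul_re]
  simp only [Complex.add_re, Complex.ofReal_re, Complex.mul_re, Complex.I_re, mul_zero,
    Complex.ofReal_im, Complex.I_im, mul_one, sub_zero, Complex.add_im, Complex.mul_im,
    zero_add, add_zero, sub_self]
  ring

open Classical in
theorem avg_ite {E : Type*} [AddCommGroup E] [TopologicalSpace E] [IsTopologicalAddGroup E]
    {g : K3 → E} {a : E} (h : HasSum g a) (s : Finset K3) :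
    HasSum (fun k => if k ∈ s then 0 else g k) (a - ∑ k ∈ s, g k) := by
  have h1 : HasSum (fun k => if k ∈ s then g k else 0) (∑ k ∈ s, g k) := by
    have h2 : HasSum (fun k => if k ∈ s then g k else 0) (∑ k ∈ s, if k ∈ s then g k else 0) :=
      hasSum_sum_of_ne_finset_zero (fun k hk => if_neg hk)
    rwa [Finset.sum_congr rfl fun k hk => if_pos hk] at h2
  have h3 := h.sub h1
  have e : (fun k => g k - if k ∈ s then g k else 0) = fun k => if k ∈ s then 0 else g k := by
    funext k
    split_ifs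
    · rw [sub_self]
    · rw [sub_zero]
  rwa [e] at h3

open Classical in
/-- the distance to the truncations -/
theorem avg_dist (hI : S_int) {p : ℕ} (hp : 1 ≤ p) {f : V → V} (hf : ∀ i, SP (fun x => f x i))
    (s : Finset K3) (i : Fin 3) :
    ∫ x in cube, (f x i - memAv p f x i - avgW f (s.filter fun k => k ∈ avgB p) x i) ^ 2 ≤
      (∑' k, ‖fr (fun x => f x i) k‖ ^ 2) - ∑ k ∈ s, ‖fr (fun x => f x i) k‖ ^ 2 := by
  set a : K3 → ℂ := fr (fun x => f x i) with ha
  set d : V → ℝ := fun x => f x i - memAv p f x i with hdd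
  have hd : SP d := uni_sub (hf i) (avg_sp hf i)
  set c : K3 → ℂ := fr d with hc
  have hca : ∀ k, c k = if k ∈ avgB p then a k else 0 := fun k => avg_frd hI hp hf i k
  have hcs : Summable c := (rap_fr hd).summable
  have has : Summable a := (rap_fr (hf i)).summable
  set b : K3 → ℂ := fun k => if k ∈ s then 0 else c k with hb
  have hbn : ∀ k, ‖b k‖ ≤ ‖c k‖ := by
    intro k
    simp only [hb]
    split_ifs
    · rw [norm_zero]
      exact norm_nonneg _
    · exact le_rfl
  have hbs : Summable b := Summable.of_norm_bounded hcs.norm hbn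
  have hW : ∀ x, avgW f (s.filter fun k => k ∈ avgB p) x i = (∑ k ∈ s, c k * ee k x).re := by
    intro x
    rw [avg_W_re, Finset.sum_filter]
    refine congrArg _ (Finset.sum_congr rfl fun k _ => ?_)
    rw [hca]
    split_ifs
    · rfl
    · rw [zero_mul]
  have hSb : ∀ x, S b x = (d x : ℂ) - ∑ k ∈ s, c k * ee k x := by
    intro x
    have h1 : HasSum (fun k => c k * ee k x) (d x : ℂ) := by
      have h2 := (summable_term hcs x).hasSum
      have h3 : ∑' k, c k * ee k x = (d x : ℂ) := S_fr hd x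
      rwa [h3] at h2
    have h4 := (avg_ite h1 s).tsum_eq
    rw [← h4]
    unfold S
    refine tsum_congr fun k => ?_
    simp only [hb]
    split_ifs
    · rw [zero_mul]
    · rfl
  have hle : ∀ x, (f x i - memAv p f x i - avgW f (s.filter fun k => k ∈ avgB p) x i) ^ 2 ≤
      ‖S b x‖ ^ 2 := by
    intro x
    have h1 : f x i - memAv p f x i - avgW f (s.filter fun k => k ∈ avgB p) x i =
        (S b x).re := by
      rw [hSb, hW, Complex.sub_re, Complex.ofReal_re]
    rw [h1, ← sq_abs]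
    exact pow_le_pow_left₀ (abs_nonneg _) (Complex.abs_re_le_norm _) 2
  have hWsp : SP (fun x => avgW f (s.filter fun k => k ∈ avgB p) x i) := by
    have e : (fun x => avgW f (s.filter fun k => k ∈ avgB p) x i) = fun x =>
        ∑ k ∈ s.filter (fun k => k ∈ avgB p), ((a k).re * Real.cos (2 * Real.pi * ph k x) -
          (a k).im * Real.sin (2 * Real.pi * ph k x)) := by
      funext x
      unfold avgW
      rw [Finset.sum_apply]
      refine Finset.sum_congr rfl fun k _ => ?_
      rw [Pi.sub_apply, Pi.smul_apply, Pi.smul_apply, smul_eq_mul, smul_eq_mul, mul_comm,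
        mul_comm (Real.sin _)]
    rw [e]
    exact SP.sum fun k _ => uni_sub (uni_smul _ (up_cos k)) (uni_smul _ (up_sin k))
  have h1 : ∫ x in cube, (f x i - memAv p f x i -
      avgW f (s.filter fun k => k ∈ avgB p) x i) ^ 2 ≤ ∫ x in cube, ‖S b x‖ ^ 2 := by
    refine integral_mono ?_ ?_ hle
    · exact uni_sq (uni_sub hd hWsp)
    · exact integrableOn_cube ((S_continuous hbs).norm.pow 2)
  refine h1.trans ?_
  rw [integral_norm_sq hbs, n2_sq]
  have h2 := avg_ite (summable_sq has).hasSum s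
  rw [← h2.tsum_eq]
  refine Summable.tsum_le_tsum (fun k => ?_) (summable_sq hbs) h2.summable
  simp only [hb]
  split_ifs with hk
  · rw [norm_zero]
    norm_num
  · rw [hca]
    split_ifs
    · exact le_rfl
    · rw [norm_zero]
      exact pow_le_pow_left₀ le_rfl (norm_nonneg _) 2

theorem avg_span (hI : S_int) {p : ℕ} (hp : 1 ≤ p) {f : V → V} (hf : ∀ i, SP (fun x => f x i))
    (hd : ∀ x, ∑ i, pd i (fun y => f y i) x = 0) :
    InSpan (md p) (fun x => f x - memAv p f x) := by
  classical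
  intro ε hε
  have has : ∀ i : Fin 3, HasSum (fun k => ‖fr (fun x => f x i) k‖ ^ 2)
      (∑' k, ‖fr (fun x => f x i) k‖ ^ 2) := fun i =>
    (summable_sq (rap_fr (hf i)).summable).hasSum
  have hsum := hasSum_sum (s := Finset.univ) fun i (_ : i ∈ Finset.univ) => has i
  have hev := hsum.eventually (lt_mem_nhds (show (∑ i, ∑' k, ‖fr (fun x => f x i) k‖ ^ 2) - ε <
    ∑ i, ∑' k, ‖fr (fun x => f x i) k‖ ^ 2 by linarith))
  obtain ⟨s, hs⟩ := hev.exists
  refine ⟨avgW f (s.filter fun k => k ∈ avgB p),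
    avg_W_mem hf hd (fun k hk => (Finset.mem_filter.1 hk).2), ?_⟩
  have h1 : ∑ i, ∫ x in cube, ((f x - memAv p f x) i -
      avgW f (s.filter fun k => k ∈ avgB p) x i) ^ 2 ≤
      ∑ i, ((∑' k, ‖fr (fun x => f x i) k‖ ^ 2) - ∑ k ∈ s, ‖fr (fun x => f x i) k‖ ^ 2) :=
    Finset.sum_le_sum fun i _ => avg_dist hI hp hf s i
  refine lt_of_le_of_lt h1 ?_
  rw [Finset.sum_sub_distrib]
  rw [Finset.sum_comm] at hs
  linarith

theorem s_avg (hI : S_int) : S_avg := by
  classical
  intro p f hp hf hd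
  have hfP : Per f := fun j x => funext fun i => (hf i).per j x
  refine ⟨memAv p f, avg_sp hf, avg_div hf hd, avg_per hp hfP, ?_, avg_span hI hp hf hd, ?_⟩
  · intro w hw hwp
    exact Finset.sum_congr rfl fun i _ => avg_ip hI hp hf hw hwp i
  · intro s
    unfold hs
    refine ENNReal.tsum_le_tsum fun k => ENNReal.ofReal_le_ofReal ?_
    refine mul_le_mul_of_nonneg_left ?_ (by positivity)
    rw [avg_fq (v := fun x => f x - memAv p f x) (fun i => uni_sub (hf i) (avg_sp hf i)),
      avg_fq hf]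
    refine Finset.sum_le_sum fun i _ => ?_
    have h1 : fr (fun x => (f x - memAv p f x) i) k =
        if k ∈ avgB p then fr (fun x => f x i) k else 0 := avg_frd hI hp hf i k
    rw [h1]
    split_ifs
    · exact le_rfl
    · rw [norm_zero]
      exact pow_le_pow_left₀ le_rfl (norm_nonneg _) 2

end Pool.Agent.H226.GB

end

/-! ## ProjP -/

section

/-!
The orthogonal projection onto the closed span of `Fp phi p` is bounded in Sobolev spaces.
-/

set_option autoImplicit false

open MeasureTheory Set Filter Topology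
open scoped ContDiff ENNReal
open H459R3.NS

namespace Pool.Agent.H226.GB

theorem ProjP_pd_add {f g : V → ℝ} (hf : SP f) (hg : SP g) (j : Fin 3) (x : V) :
    pd j (fun y => f y + g y) x = pd j f x + pd j g x := by
  unfold pd
  have h : HasFDerivAt (fun y => f y + g y) _ x :=
    (hf.diff x).hasFDerivAt.add (hg.diff x).hasFDerivAt
  rw [h.fderiv]
  rfl

/-- Cauchy-Schwarz -/
theorem ProjP_cs {a b : V → ℝ} (ha : SP a) (hb : SP b) :
    (∫ x in cube, a x * b x) ^ 2 ≤ (∫ x in cube, a x ^ 2) * ∫ x in cube, b x ^ 2 := by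
  have h : ∀ t : ℝ, 0 ≤ (∫ x in cube, a x ^ 2) * (t * t) + (-2 * ∫ x in cube, a x * b x) * t
      + ∫ x in cube, b x ^ 2 := by
    intro t
    have e : ∫ x in cube, (t * a x - b x) ^ 2 = (∫ x in cube, a x ^ 2) * (t * t)
        + (-2 * ∫ x in cube, a x * b x) * t + ∫ x in cube, b x ^ 2 := by
      have e1 : ∀ x, (t * a x - b x) ^ 2 = (t * t * a x ^ 2 + (-2 * t) * (a x * b x)) + b x ^ 2 := by
        intro x
        ring
      simp_rw [e1]
      have i1 : IntegrableOn (fun x => t * t * a x ^ 2) cube := (uni_sq ha).const_mul _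
      have i2 : IntegrableOn (fun x => (-2 * t) * (a x * b x)) cube := (ha.mul hb).int.const_mul _
      have i3 : IntegrableOn (fun x => b x ^ 2) cube := uni_sq hb
      have i12 : IntegrableOn (fun x => t * t * a x ^ 2 + (-2 * t) * (a x * b x)) cube := i1.add i2
      rw [integral_add i12 i3, integral_add i1 i2, integral_const_mul, integral_const_mul]
      ring
    rw [← e]
    exact integral_nonneg fun x => sq_nonneg _
  have h2 := discrim_le_zero h
  unfold discrim at h2
  nlinarith

/-- convergence in `L²` implies weak convergence -/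
theorem ProjP_conv {G : V → V} {S : ℕ → V → V} (hG : ∀ i, SP (fun x => G x i))
    (hS : ∀ L i, SP (fun x => S L x i))
    (hc : ∀ ε > 0, ∃ L₀, ∀ L, L₀ ≤ L → ∑ i, ∫ x in cube, (G x i - S L x i) ^ 2 < ε)
    {c : V → ℝ} (hcs : SP c) (i : Fin 3) :
    Tendsto (fun L => ∫ x in cube, S L x i * c x) atTop (𝓝 (∫ x in cube, G x i * c x)) := by
  rw [Metric.tendsto_atTop]
  intro ε hε
  set B := ∫ x in cube, c x ^ 2 with hB
  have hB0 : 0 ≤ B := integral_nonneg fun x => sq_nonneg _
  obtain ⟨L₀, h⟩ := hc (ε ^ 2 / (B + 1)) (by positivity)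
  refine ⟨L₀, fun L hL => ?_⟩
  have h1 := h L hL
  have h2 : ∫ x in cube, (G x i - S L x i) ^ 2 < ε ^ 2 / (B + 1) := by
    refine lt_of_le_of_lt ?_ h1
    exact Finset.single_le_sum (f := fun i => ∫ x in cube, (G x i - S L x i) ^ 2)
      (fun j _ => integral_nonneg fun x => sq_nonneg _) (Finset.mem_univ i)
  have h3 := ProjP_cs (uni_sub (hG i) (hS L i)) hcs
  have h4 : ∫ x in cube, (G x i - S L x i) * c x =
      (∫ x in cube, G x i * c x) - ∫ x in cube, S L x i * c x := by
    have e1 : ∀ x, (G x i - S L x i) * c x = G x i * c x - S L x i * c x := by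
      intro x
      ring
    simp_rw [e1]
    exact integral_sub ((hG i).mul hcs).int ((hS L i).mul hcs).int
  rw [h4, ← hB] at h3
  rw [Real.dist_eq, abs_sub_comm]
  have h5 : ((∫ x in cube, G x i * c x) - ∫ x in cube, S L x i * c x) ^ 2 < ε ^ 2 := by
    have h6 : (∫ x in cube, (G x i - S L x i) ^ 2) * B ≤ ε ^ 2 / (B + 1) * B := by
      have := h2.le
      gcongr
    have h7 : ε ^ 2 / (B + 1) * B < ε ^ 2 := by
      have hB1 : 0 < B + 1 := by linarith
      rw [div_mul_eq_mul_div, div_lt_iff₀ hB1]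
      have : 0 < ε ^ 2 := by positivity
      nlinarith
    linarith
  have h8 := abs_lt_of_sq_lt_sq h5 hε.le
  exact h8

/-- `1/p`-periodic functions are orthogonal to the modes with frequency not divisible by `p` -/
theorem ProjP_mode (hI : S_int) {H : V → ℝ} (hH : SP H) {p : ℕ} (hp : 1 ≤ p)
    (hper : ∀ (j : Fin 3) (x : V), H (x + Pi.single j (1 / (p : ℝ))) = H x) (k : K3)
    (j : Fin 3) (hk : ¬((p : ℤ) ∣ k j)) :
    ∫ x in cube, H x * Real.cos (2 * Real.pi * ph k x) = 0 ∧
    ∫ x in cube, H x * Real.sin (2 * Real.pi * ph k x) = 0 := by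
  have hp0 : (p : ℝ) ≠ 0 := by positivity
  have hg : SP (fun y => H ((p : ℝ)⁻¹ • y)) := by
    refine ⟨hH.smooth.comp (contDiff_const_smul ((p : ℝ)⁻¹)), ?_⟩
    intro l y
    show H ((p : ℝ)⁻¹ • (y + Pi.single l 1)) = H ((p : ℝ)⁻¹ • y)
    rw [smul_add, shift_smul_single, mul_one, ← one_div]
    exact hper l _
  have h := up_mode hI hg hp0 k j hk
  have e : ∀ x : V, (p : ℝ)⁻¹ • ((p : ℝ) • x) = x := by
    intro x
    rw [smul_smul, inv_mul_cancel₀ hp0, one_smul]
  simp only [e] at h
  exact h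

/-- the limit of the Sobolev norms -/
theorem ProjP_hs {G : V → V} {S : ℕ → V → V} (hG : ∀ i, SP (fun x => G x i))
    (hS : ∀ L i, SP (fun x => S L x i))
    (hc : ∀ ε > 0, ∃ L₀, ∀ L, L₀ ≤ L → ∑ i, ∫ x in cube, (G x i - S L x i) ^ 2 < ε)
    (s : ℝ) (B : ℝ≥0∞) (hB : ∀ L, hs s (S L) ≤ B) : hs s G ≤ B := by
  have hfq : ∀ k : Fin 3 → ℤ, Tendsto (fun L => fq (S L) k) atTop (𝓝 (fq G k)) := by
    intro k
    unfold fq
    refine tendsto_finsetSum _ fun i _ => ?_
    have h1 := ProjP_conv hG hS hc (up_cos k) i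
    have h2 := ProjP_conv hG hS hc (up_sin k) i
    exact (h1.pow 2).add (h2.pow 2)
  unfold hs
  rw [ENNReal.tsum_eq_iSup_sum]
  refine iSup_le fun F => ?_
  have h3 : Tendsto (fun L => ∑ k ∈ F, ENNReal.ofReal ((1 + ∑ j, (k j : ℝ) ^ 2) ^ s * fq (S L) k)) atTop
      (𝓝 (∑ k ∈ F, ENNReal.ofReal ((1 + ∑ j, (k j : ℝ) ^ 2) ^ s * fq G k))) := by
    refine tendsto_finsetSum _ fun k _ => ?_
    exact (ENNReal.continuous_ofReal.tendsto _).comp ((hfq k).const_mul _)
  refine le_of_tendsto' h3 fun L => ?_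
  exact (ENNReal.sum_le_tsum F).trans (hB L)

theorem s_projP (h1 : S_hs) (h2 : S_hsb) (h3 : S_hfin) (h4 : S_stat) (h5 : S_avg) (hI : S_int)
    (hb : Basis phi cc pp gg) : S_projP := by
  intro p hp
  have hp0 : (p : ℝ) ≠ 0 := by positivity
  have hcon : ∀ s : ℝ, ∃ C1 C2 : ℝ, 0 ≤ s → (0 ≤ C1 ∧ (∀ (d : ℕ → ℝ) (M : ℕ),
      hs s (fun x i => ∑ m ∈ Finset.range M, d m * phi m ((p : ℝ) • x) i)
        ≤ ENNReal.ofReal (C1 * ∑ m ∈ Finset.range M, (RR m : ℝ) ^ (4 * s) * d m ^ 2)) ∧
      0 ≤ C2 ∧ ∀ f : V → V,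
      (∀ i, SP (fun x => f x i)) → ∀ M : ℕ, ENNReal.ofReal (∑ m ∈ Finset.range M,
        (RR m : ℝ) ^ (4 * s) * (∑ i, ∫ x in cube, f x i * phi m ((p : ℝ) • x) i) ^ 2)
        ≤ ENNReal.ofReal C2 * hs s f) := by
    intro s
    by_cases hs0 : 0 ≤ s
    · obtain ⟨C1, a1, b1⟩ := h1 p s hp hs0
      obtain ⟨C2, a2, b2⟩ := h2 p s hp hs0
      exact ⟨C1, C2, fun _ => ⟨a1, b1, a2, b2⟩⟩
    · exact ⟨0, 0, fun h => absurd h hs0⟩
  choose C1 C2 hC using hcon
  refine ⟨fun s => 2 + 2 * (C1 s * C2 s), fun f hf hdf => ?_⟩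
  obtain ⟨h, hh, hdh, hper, hhw, hspan, hhs⟩ := h5 p f hp hf hdf
  -- the fields
  have hphi : ∀ m i, SP (fun x => phi m ((p : ℝ) • x) i) := shift_sp_phi hb.sp p
  -- the coefficients
  set b : ℕ → ℝ := fun m => ∑ i, ∫ x in cube, f x i * phi m ((p : ℝ) • x) i with hbdef
  have hrap : ∀ s : ℕ, ∃ K : ℝ, ∀ m, (RR m : ℝ) ^ s * |b m| ≤ K := by
    intro s
    obtain ⟨-, -, a2, b2⟩ := hC ((s : ℝ) / 2) (by positivity)
    have hfin : ENNReal.ofReal (C2 ((s : ℝ) / 2)) * hs ((s : ℝ) / 2) f ≠ ⊤ :=
      ENNReal.mul_ne_top ENNReal.ofReal_ne_top (h3.1 f _ hf).ne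
    set B := (ENNReal.ofReal (C2 ((s : ℝ) / 2)) * hs ((s : ℝ) / 2) f).toReal with hB
    refine ⟨Real.sqrt B, fun m => ?_⟩
    have h6 := b2 f hf (m + 1)
    rw [ENNReal.ofReal_le_iff_le_toReal hfin, ← hB] at h6
    have h7 : (RR m : ℝ) ^ (4 * ((s : ℝ) / 2)) * b m ^ 2 ≤ B := by
      refine le_trans ?_ h6
      exact Finset.single_le_sum
        (f := fun m => (RR m : ℝ) ^ (4 * ((s : ℝ) / 2)) * (∑ i, ∫ x in cube, f x i * phi m ((p : ℝ) • x) i) ^ 2)
        (fun j _ => by positivity) (Finset.mem_range.2 (Nat.lt_succ_self m))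
    have h8 : (RR m : ℝ) ^ (4 * ((s : ℝ) / 2)) = ((RR m : ℝ) ^ s) ^ 2 := by
      have e : 4 * ((s : ℝ) / 2) = ((s * 2 : ℕ) : ℝ) := by push_cast; ring
      rw [e, Real.rpow_natCast, pow_mul]
    rw [h8] at h7
    apply Real.le_sqrt_of_sq_le
    rw [mul_pow, sq_abs]
    exact h7
  obtain ⟨G, hG, hdG, hsum, hlim⟩ := h4 p b hp hrap
  set S : ℕ → V → V := fun L x i => ∑ m ∈ Finset.range L, b m * phi m ((p : ℝ) • x) i with hSdef
  have hS : ∀ L i, SP (fun x => S L x i) := by
    intro L i
    exact SP.sum fun m _ => uni_smul (b m) (hphi m i)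
  -- `G` is `1/p`-periodic
  have hGper : ∀ (j : Fin 3) (x : V), G (x + Pi.single j (1 / (p : ℝ))) = G x := by
    intro j x
    funext i
    have e1 := hsum (x + Pi.single j (1 / (p : ℝ))) i
    simp only [shift_phi_add hb.sp hp] at e1
    exact e1.unique (hsum x i)
  -- `f - g = h - G`
  have hfg : ∀ x i, f x i - (f x - h x + G x) i = h x i - G x i := by
    intro x i
    rw [Pi.add_apply, Pi.sub_apply]
    ring
  refine ⟨fun x => f x - h x + G x, ?_, ?_, ?_, ?_, ?_⟩
  · intro i
    exact SP.add (uni_sub (hf i) (hh i)) (hG i)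
  · intro x
    have e : ∀ i, pd i (fun y => (f y - h y + G y) i) x =
        pd i (fun y => f y i) x - pd i (fun y => h y i) x + pd i (fun y => G y i) x := by
      intro i
      have e1 := ProjP_pd_add (uni_sub (hf i) (hh i)) (hG i) i x
      have e2 := uni_pd_sub (hf i) (hh i) i x
      rw [← e2]
      exact e1
    rw [Finset.sum_congr rfl fun i _ => e i, Finset.sum_add_distrib, Finset.sum_sub_distrib, hdf, hdh, hdG]
    ring
  · -- in the closed span
    intro ε hε
    obtain ⟨w, hw, hwε⟩ := hspan (ε / 4) (by linarith)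
    obtain ⟨L₀, hL⟩ := hlim (ε / 4) (by linarith)
    have hL0 := hL L₀ le_rfl
    have hwsp := shift_sp_span (fun w hw i => shift_sp_md hw i) hw
    refine ⟨w + S L₀, ?_, ?_⟩
    · refine Submodule.add_mem _ (Submodule.span_mono subset_union_right hw) ?_
      have e : S L₀ = ∑ m ∈ Finset.range L₀, b m • (fun x => phi m ((p : ℝ) • x)) := by
        funext x i
        simp only [hSdef, Finset.sum_apply, Pi.smul_apply, smul_eq_mul]
      rw [e]
      refine Submodule.sum_mem _ fun m _ => Submodule.smul_mem _ _ (Submodule.subset_span ?_)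
      exact Or.inl ⟨m, fun x => rfl⟩
    · have e : ∀ i, ∫ x in cube, ((f x - h x + G x) i - (w + S L₀) x i) ^ 2 ≤
          2 * (∫ x in cube, ((f x - h x) i - w x i) ^ 2) + 2 * ∫ x in cube, (G x i - S L₀ x i) ^ 2 := by
        intro i
        have i1 : IntegrableOn (fun x => ((f x - h x) i - w x i) ^ 2) cube :=
          uni_sq (uni_sub (uni_sub (hf i) (hh i)) (hwsp i))
        have i2 : IntegrableOn (fun x => (G x i - S L₀ x i) ^ 2) cube :=
          uni_sq (uni_sub (hG i) (hS L₀ i))
        rw [← integral_const_mul, ← integral_const_mul, ← integral_add (i1.const_mul 2) (i2.const_mul 2)]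
        refine integral_mono ?_ ((i1.const_mul 2).add (i2.const_mul 2)) ?_
        · exact uni_sq (uni_sub (SP.add (uni_sub (hf i) (hh i)) (hG i)) (SP.add (hwsp i) (hS L₀ i)))
        · intro x
          show ((f x - h x + G x) i - (w + S L₀) x i) ^ 2 ≤
            2 * ((f x - h x) i - w x i) ^ 2 + 2 * (G x i - S L₀ x i) ^ 2
          rw [Pi.add_apply, Pi.add_apply, Pi.add_apply]
          nlinarith [sq_nonneg (((f x - h x) i - w x i) - (G x i - S L₀ x i))]
      refine lt_of_le_of_lt (Finset.sum_le_sum fun i _ => e i) ?_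
      rw [Finset.sum_add_distrib, ← Finset.mul_sum, ← Finset.mul_sum]
      have hL1 : ∑ i, ∫ x in cube, (G x i - S L₀ x i) ^ 2 < ε / 4 := hL0
      have hw1 : ∑ i, ∫ x in cube, ((f x - h x) i - w x i) ^ 2 < ε / 4 := hwε
      linarith
  · -- orthogonality
    intro w hw
    have e0 : ∀ i, ∫ x in cube, (f x i - (f x - h x + G x) i) * w x i =
        ∫ x in cube, (h x i - G x i) * w x i := by
      intro i
      refine integral_congr_ae (ae_of_all _ fun x => ?_)
      show (f x i - (f x - h x + G x) i) * w x i = (h x i - G x i) * w x i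
      rw [hfg x i]
    rw [Finset.sum_congr rfl fun i _ => e0 i]
    rcases hw with ⟨m, hw⟩ | ⟨k, a, ⟨j, hj⟩, -, hw⟩
    · have hw' : ∀ x i, w x i = phi m ((p : ℝ) • x) i := fun x i => by rw [hw x]
      simp_rw [hw']
      have e1 : ∀ i, ∫ x in cube, (h x i - G x i) * phi m ((p : ℝ) • x) i =
          (∫ x in cube, h x i * phi m ((p : ℝ) • x) i) - ∫ x in cube, G x i * phi m ((p : ℝ) • x) i := by
        intro i
        rw [← integral_sub ((hh i).mul (hphi m i)).int ((hG i).mul (hphi m i)).int]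
        refine integral_congr_ae (ae_of_all _ fun x => ?_)
        show (h x i - G x i) * phi m ((p : ℝ) • x) i = _
        ring
      rw [Finset.sum_congr rfl fun i _ => e1 i, Finset.sum_sub_distrib]
      have e2 : ∑ i, ∫ x in cube, h x i * phi m ((p : ℝ) • x) i = b m :=
        hhw (fun x => phi m ((p : ℝ) • x)) (hphi m) (fun j x => shift_phi_add hb.sp hp j m x)
      have e3 : Tendsto (fun L => ∑ i, ∫ x in cube, S L x i * phi m ((p : ℝ) • x) i) atTop
          (𝓝 (∑ i, ∫ x in cube, G x i * phi m ((p : ℝ) • x) i)) :=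
        tendsto_finsetSum _ fun i _ => ProjP_conv hG hS hlim (hphi m i) i
      have e4 : ∀ L, m < L → ∑ i, ∫ x in cube, S L x i * phi m ((p : ℝ) • x) i = b m := by
        intro L hmL
        have f1 : ∀ i, ∫ x in cube, S L x i * phi m ((p : ℝ) • x) i =
            ∑ n ∈ Finset.range L, b n * ∫ x in cube, phi n x i * phi m x i := by
          intro i
          have f2 : ∀ x, S L x i * phi m ((p : ℝ) • x) i =
              ∑ n ∈ Finset.range L, b n * (phi n ((p : ℝ) • x) i * phi m ((p : ℝ) • x) i) := by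
            intro x
            simp only [hSdef]
            rw [Finset.sum_mul]
            refine Finset.sum_congr rfl fun n _ => ?_
            ring
          simp_rw [f2]
          rw [integral_finsetSum _ fun n _ => ((hphi n i).mul (hphi m i)).int.const_mul _]
          refine Finset.sum_congr rfl fun n _ => ?_
          rw [integral_const_mul]
          have f3 := hI.1 (fun x => phi n x i * phi m x i) ((hb.sp n i).mul (hb.sp m i)) p hp
          rw [← f3]
        rw [Finset.sum_congr rfl fun i _ => f1 i, Finset.sum_comm]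
        have f4 : ∀ n, ∑ i, b n * ∫ x in cube, phi n x i * phi m x i = if n = m then b n else 0 := by
          intro n
          rw [← Finset.mul_sum]
          have := hb.on n m
          unfold ip at this
          rw [this]
          split_ifs <;> simp
        rw [Finset.sum_congr rfl fun n _ => f4 n, Finset.sum_ite_eq' , if_pos (Finset.mem_range.2 hmL)]
      have e5 : ∑ i, ∫ x in cube, G x i * phi m ((p : ℝ) • x) i = b m := by
        refine tendsto_nhds_unique e3 (tendsto_const_nhds.congr' ?_)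
        filter_upwards [eventually_gt_atTop m] with L hmL
        exact (e4 L hmL).symm
      rw [e2, e5, sub_self]
    · refine Finset.sum_eq_zero fun i _ => ?_
      have hH : SP (fun x => h x i - G x i) := uni_sub (hh i) (hG i)
      have hHper : ∀ (j : Fin 3) (x : V), (fun x => h x i - G x i) (x + Pi.single j (1 / (p : ℝ)))
          = (fun x => h x i - G x i) x := by
        intro j x
        show h (x + Pi.single j (1 / (p : ℝ))) i - G (x + Pi.single j (1 / (p : ℝ))) i = h x i - G x i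
        rw [hper, hGper]
      have hm := ProjP_mode hI hH hp hHper k j hj
      rcases hw with hw | hw
      · have e1 : ∀ x, (h x i - G x i) * w x i =
            (h x i - G x i) * Real.cos (2 * Real.pi * ph k x) * a i := by
          intro x
          rw [hw x, Pi.smul_apply, smul_eq_mul]
          unfold ph
          ring
        simp_rw [e1]
        rw [integral_mul_const, hm.1, zero_mul]
      · have e1 : ∀ x, (h x i - G x i) * w x i =
            (h x i - G x i) * Real.sin (2 * Real.pi * ph k x) * a i := by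
          intro x
          rw [hw x, Pi.smul_apply, smul_eq_mul]
          unfold ph
          ring
        simp_rw [e1]
        rw [integral_mul_const, hm.2, zero_mul]
  · -- Sobolev norms
    intro s hs0
    obtain ⟨a1, b1, a2, b2⟩ := hC s hs0
    have g1 : hs s G ≤ ENNReal.ofReal (C1 s) * (ENNReal.ofReal (C2 s) * hs s f) := by
      refine ProjP_hs hG hS hlim s _ fun L => ?_
      refine (b1 b L).trans ?_
      rw [ENNReal.ofReal_mul a1]
      gcongr
      exact b2 f hf L
    have g2 := h3.2 (fun x => f x - h x) G s (fun i => uni_sub (hf i) (hh i)) hG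
    refine g2.trans ?_
    have g3 := hhs s
    calc 2 * hs s (fun x => f x - h x) + 2 * hs s G
        ≤ 2 * hs s f + 2 * (ENNReal.ofReal (C1 s) * (ENNReal.ofReal (C2 s) * hs s f)) := by
          gcongr
      _ = ENNReal.ofReal (2 + 2 * (C1 s * C2 s)) * hs s f := by
          rw [ENNReal.ofReal_add (by norm_num) (by positivity), ENNReal.ofReal_mul (by norm_num),
            ENNReal.ofReal_mul a1]
          have : ENNReal.ofReal 2 = 2 := by norm_num
          rw [this]
          ring

end Pool.Agent.H226.GB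

end

/-! ## PrS -/

section

/-!
The orthogonal projection onto the closed span of the rescaled fields preserves smoothness (extracted from
the proof of `s_projP` in `ProjP.lean`).
-/

set_option autoImplicit false

open MeasureTheory Set Filter Topology
open scoped ContDiff ENNReal
open H459R3.NS

namespace Pool.Agent.H226.GB

/-- the coefficients are rapidly decreasing -/
theorem prs_rap (h2 : S_hsb) (h3 : S_hfin) (p : ℕ) (hp : 1 ≤ p) (f : V → V)
    (hf : ∀ i, SP (fun x => f x i)) (s : ℕ) :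
    ∃ K : ℝ, ∀ m, (RR m : ℝ) ^ s * |∑ i, ∫ x in cube, f x i * phi m ((p : ℝ) • x) i| ≤ K := by
  obtain ⟨C2, a2, b2⟩ := h2 p ((s : ℝ) / 2) hp (by positivity)
  have hfin : ENNReal.ofReal C2 * hs ((s : ℝ) / 2) f ≠ ⊤ :=
    ENNReal.mul_ne_top ENNReal.ofReal_ne_top (h3.1 f _ hf).ne
  set B := (ENNReal.ofReal C2 * hs ((s : ℝ) / 2) f).toReal with hB
  refine ⟨Real.sqrt B, fun m => ?_⟩
  have h6 := b2 f hf (m + 1)
  rw [ENNReal.ofReal_le_iff_le_toReal hfin, ← hB] at h6
  have h7 : (RR m : ℝ) ^ (4 * ((s : ℝ) / 2)) *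
      (∑ i, ∫ x in cube, f x i * phi m ((p : ℝ) • x) i) ^ 2 ≤ B := by
    refine le_trans ?_ h6
    exact Finset.single_le_sum
      (f := fun m => (RR m : ℝ) ^ (4 * ((s : ℝ) / 2)) *
        (∑ i, ∫ x in cube, f x i * phi m ((p : ℝ) • x) i) ^ 2)
      (fun j _ => by positivity) (Finset.mem_range.2 (Nat.lt_succ_self m))
  have h8 : (RR m : ℝ) ^ (4 * ((s : ℝ) / 2)) = ((RR m : ℝ) ^ s) ^ 2 := by
    have e : 4 * ((s : ℝ) / 2) = ((s * 2 : ℕ) : ℝ) := by push_cast; ring
    rw [e, Real.rpow_natCast, pow_mul]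
  rw [h8] at h7
  apply Real.le_sqrt_of_sq_le
  rw [mul_pow, sq_abs]
  exact h7

theorem s_prS (h2 : S_hsb) (h3 : S_hfin) (h4 : S_stat) (hI : S_int) (hb : Basis phi cc pp gg) :
    S_prS := by
  intro p f hp hf
  -- the fields
  have hphi : ∀ m i, SP (fun x => phi m ((p : ℝ) • x) i) := shift_sp_phi hb.sp p
  -- the coefficients
  set b : ℕ → ℝ := fun m => ∑ i, ∫ x in cube, f x i * phi m ((p : ℝ) • x) i with hbdef
  have hrap : ∀ s : ℕ, ∃ K : ℝ, ∀ m, (RR m : ℝ) ^ s * |b m| ≤ K :=
    fun s => prs_rap h2 h3 p hp f hf s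
  obtain ⟨G, hG, hdG, hsum, hlim⟩ := h4 p b hp hrap
  set S : ℕ → V → V := fun L x i => ∑ m ∈ Finset.range L, b m * phi m ((p : ℝ) • x) i with hSdef
  have hS : ∀ L i, SP (fun x => S L x i) := by
    intro L i
    exact SP.sum fun m _ => uni_smul (b m) (hphi m i)
  refine ⟨G, hG, hdG, ?_, ?_, b, hrap, hsum⟩
  · -- in the closed span
    intro ε hε
    obtain ⟨L₀, hL⟩ := hlim ε hε
    refine ⟨S L₀, ?_, hL L₀ le_rfl⟩
    have e : S L₀ = ∑ m ∈ Finset.range L₀, b m • (fun x => phi m ((p : ℝ) • x)) := by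
      funext x i
      simp only [hSdef, Finset.sum_apply, Pi.smul_apply, smul_eq_mul]
    rw [e]
    refine Submodule.sum_mem _ fun m _ => Submodule.smul_mem _ _ (Submodule.subset_span ?_)
    exact ⟨m, fun x => rfl⟩
  · -- orthogonality
    intro m
    have e1 : ∀ i, ∫ x in cube, (f x i - G x i) * phi m ((p : ℝ) • x) i =
        (∫ x in cube, f x i * phi m ((p : ℝ) • x) i) - ∫ x in cube, G x i * phi m ((p : ℝ) • x) i := by
      intro i
      rw [← integral_sub ((hf i).mul (hphi m i)).int ((hG i).mul (hphi m i)).int]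
      refine integral_congr_ae (ae_of_all _ fun x => ?_)
      show (f x i - G x i) * phi m ((p : ℝ) • x) i = _
      ring
    rw [Finset.sum_congr rfl fun i _ => e1 i, Finset.sum_sub_distrib]
    have e2 : ∑ i, ∫ x in cube, f x i * phi m ((p : ℝ) • x) i = b m := rfl
    have e3 : Tendsto (fun L => ∑ i, ∫ x in cube, S L x i * phi m ((p : ℝ) • x) i) atTop
        (𝓝 (∑ i, ∫ x in cube, G x i * phi m ((p : ℝ) • x) i)) :=
      tendsto_finsetSum _ fun i _ => ProjP_conv hG hS hlim (hphi m i) i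
    have e4 : ∀ L, m < L → ∑ i, ∫ x in cube, S L x i * phi m ((p : ℝ) • x) i = b m := by
      intro L hmL
      have f1 : ∀ i, ∫ x in cube, S L x i * phi m ((p : ℝ) • x) i =
          ∑ n ∈ Finset.range L, b n * ∫ x in cube, phi n x i * phi m x i := by
        intro i
        have f2 : ∀ x, S L x i * phi m ((p : ℝ) • x) i =
            ∑ n ∈ Finset.range L, b n * (phi n ((p : ℝ) • x) i * phi m ((p : ℝ) • x) i) := by
          intro x
          simp only [hSdef]
          rw [Finset.sum_mul]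
          refine Finset.sum_congr rfl fun n _ => ?_
          ring
        simp_rw [f2]
        rw [integral_finsetSum _ fun n _ => ((hphi n i).mul (hphi m i)).int.const_mul _]
        refine Finset.sum_congr rfl fun n _ => ?_
        rw [integral_const_mul]
        have f3 := hI.1 (fun x => phi n x i * phi m x i) ((hb.sp n i).mul (hb.sp m i)) p hp
        rw [← f3]
      rw [Finset.sum_congr rfl fun i _ => f1 i, Finset.sum_comm]
      have f4 : ∀ n, ∑ i, b n * ∫ x in cube, phi n x i * phi m x i = if n = m then b n else 0 := by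
        intro n
        rw [← Finset.mul_sum]
        have := hb.on n m
        unfold ip at this
        rw [this]
        split_ifs <;> simp
      rw [Finset.sum_congr rfl fun n _ => f4 n, Finset.sum_ite_eq' , if_pos (Finset.mem_range.2 hmL)]
    have e5 : ∑ i, ∫ x in cube, G x i * phi m ((p : ℝ) • x) i = b m := by
      refine tendsto_nhds_unique e3 (tendsto_const_nhds.congr' ?_)
      filter_upwards [eventually_gt_atTop m] with L hmL
      exact (e4 L hmL).symm
    rw [e2, e5, sub_self]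

end Pool.Agent.H226.GB

end

/-! ## LocS -/

section

/-!
Local existence for all smooth data of the small space (project GB of helper226, task GB47 LocS, by
helper289).
-/

set_option autoImplicit false

open MeasureTheory Set Filter Topology
open scoped ContDiff ENNReal
open H459R3.NS

namespace Pool.Agent.H226.GB

theorem locs_sp (hb : Basis phi cc pp gg) (p : ℕ) : ∀ w ∈ Sc p, ∀ i, SP (fun x => w x i) := by
  rintro w ⟨m, hm⟩ i
  have h := shift_sp_phi (φ := phi) hb.sp p m i
  simp_rw [hm]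
  exact h

/-- an element of the closed span is determined by its products with the fields -/
theorem locs_unique (hb : Basis phi cc pp gg) (p : ℕ) {f G : V → V}
    (hf : ∀ i, SP (fun x => f x i)) (hG : ∀ i, SP (fun x => G x i)) (hfs : InSpan (Sc p) f)
    (hGs : InSpan (Sc p) G)
    (h : ∀ m, ∑ i, ∫ x in cube, (f x i - G x i) * phi m ((p : ℝ) • x) i = 0) : G = f := by
  have hd : ∀ i, SP (fun x => f x i - G x i) := fun i => uni_sub (hf i) (hG i)
  have h0 : ∀ w ∈ Sc p, ∑ i, ∫ x in cube, (f x i - G x i) * w x i = 0 := by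
    rintro w ⟨m, hm⟩
    simp_rw [hm]
    exact h m
  have e1 := uniP_dens (locs_sp hb p) (G := fun i x => f x i - G x i) hd hf h0 hfs
  have e2 := uniP_dens (locs_sp hb p) (G := fun i x => f x i - G x i) hd hG h0 hGs
  have e3 : ∀ i, ∫ x in cube, (f x i - G x i) ^ 2 =
      (∫ x in cube, (f x i - G x i) * f x i) - ∫ x in cube, (f x i - G x i) * G x i := by
    intro i
    rw [← integral_sub ((hd i).mul (hf i)).int ((hd i).mul (hG i)).int]
    refine integral_congr_ae (Eventually.of_forall fun x => ?_)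
    simp only
    ring
  have e4 : ∑ i, ∫ x in cube, (f x i - G x i) ^ 2 = 0 := by
    rw [Finset.sum_congr rfl fun i _ => e3 i, Finset.sum_sub_distrib, e1, e2, sub_zero]
  funext x
  funext i
  have a1 := (Finset.sum_eq_zero_iff_of_nonneg fun i _ =>
      integral_nonneg (μ := volume.restrict cube)
        (f := fun x => (f x i - G x i) ^ 2) fun x => by positivity).1 e4 i
      (Finset.mem_univ i)
  exact (sub_eq_zero.1 (uni_zero (hd i) a1 x)).symm

/-- **Task GB47.** -/
theorem s_locS (h1 : S_prS) (h2 : S_locG) (h3 : S_scl) (hb : Basis phi cc pp gg) : S_locS := by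
  intro p v₀ hp hv hs ν hν
  obtain ⟨G, hG, -, hGs, horth, b, hbr, hsum⟩ := h1 p v₀ hp hv
  have hGv : G = v₀ := locs_unique hb p hv hG hs hGs horth
  subst hGv
  have hp0 : (0 : ℝ) < p := by exact_mod_cast hp
  obtain ⟨τ, hτ, u, hu, hu0⟩ := h2 (ν * p ^ 2) (fun m => (p : ℝ) * b m) (by positivity)
    (fun s => by
      obtain ⟨K, hK⟩ := hbr s
      refine ⟨p * K, fun m => ?_⟩
      rw [abs_mul, abs_of_pos hp0]
      have := mul_le_mul_of_nonneg_left (hK m) hp0.le
      linarith)
  refine ⟨τ, hτ, _, h3 p ν τ u hp hu, ?_⟩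
  funext x
  funext i
  have e1 := (hu0 ((p : ℝ) • x) i).mul_left ((p : ℝ)⁻¹)
  have e2 : (fun m => (p : ℝ)⁻¹ * ((p : ℝ) * b m * phi m ((p : ℝ) • x) i)) =
      fun m => b m * phi m ((p : ℝ) • x) i := by
    funext m
    field_simp
  rw [e2] at e1
  show (p : ℝ)⁻¹ * u 0 ((p : ℝ) • x) i = G x i
  exact e1.unique (hsum x i)

end Pool.Agent.H226.GB

end
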