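import Pool.Agent.H226.GM.S
import Pool.Agent.H226.GM.Shift
import Pool.Agent.H226.GM.Proj
import Pool.Agent.H226.GM.Uniq

/-! ## Ort -/

section

/-!
The constraints are smooth and orthogonal to the fields; the space of the earlier theorem is
admissible.
-/

set_option autoImplicit false

open MeasureTheory Set Filter Topology
open scoped ContDiff ENNReal
open H459R3.NS

namespace Pool.Agent.H226.GB

theorem ort_ip_comm (u v : V → V) : ip u v = ip v u := by
  unfold ip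
  refine Finset.sum_congr rfl fun i _ => ?_
  congr 1
  funext x
  exact mul_comm _ _

/-- the convection term -/
theorem ort_conv {u v z : V → V} (hu : ∀ i, SP (fun x => u x i))
    (hdiv : ∀ x, ∑ i, pd i (fun y => u y i) x = 0) (hv : ∀ i, SP (fun x => v x i))
    (hz : ∀ i, SP (fun x => z x i)) : ip (cv u v) z = -tri u v z := by
  unfold ip cv
  have h1 : ∀ i : Fin 3, ∫ x in cube, (∑ j, u x j * pd j (fun y => v y i) x) * z x i
      = ∑ j, ∫ x in cube, pd j (fun y => v y i) x * (u x j * z x i) := by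
    intro i
    rw [← integral_finsetSum _ fun j _ => (((hv i).pd j).mul ((hu j).mul (hz i))).int]
    congr 1
    funext x
    rw [Finset.sum_mul]
    exact Finset.sum_congr rfl fun j _ => by ring
  have h2 : ∀ i j : Fin 3, ∫ x in cube, pd j (fun y => v y i) x * (u x j * z x i)
      = -(∫ x in cube, v x i * (u x j * pd j (fun y => z y i) x))
        - ∫ x in cube, v x i * z x i * pd j (fun y => u y j) x := by
    intro i j
    rw [ibp (hv i) ((hu j).mul (hz i)) j]
    have e : ∀ x, v x i * pd j (fun y => u y j * z y i) x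
        = v x i * (u x j * pd j (fun y => z y i) x) + v x i * z x i * pd j (fun y => u y j) x := by
      intro x
      rw [pd_mul (hu j) (hz i)]
      ring
    simp_rw [e]
    rw [integral_add ((hv i).mul ((hu j).mul ((hz i).pd j))).int
      (((hv i).mul (hz i)).mul ((hu j).pd j)).int]
    ring
  simp_rw [h1, h2, Finset.sum_sub_distrib, Finset.sum_neg_distrib]
  have h3 : ∀ i : Fin 3, ∑ j, ∫ x in cube, v x i * z x i * pd j (fun y => u y j) x = 0 := by
    intro i
    rw [← integral_finsetSum _ fun j _ => (((hv i).mul (hz i)).mul ((hu j).pd j)).int]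
    simp_rw [← Finset.mul_sum, hdiv]
    simp
  simp_rw [h3]
  rw [Finset.sum_const_zero, sub_zero]
  congr 1
  unfold tri
  rw [Finset.sum_comm]
  refine Finset.sum_congr rfl fun i _ => Finset.sum_congr rfl fun j _ => ?_
  congr 1
  funext x
  ring

/-- the viscous term -/
theorem ort_lap {u z : V → V} (hu : ∀ i, SP (fun x => u x i)) (hz : ∀ i, SP (fun x => z x i)) :
    ip (lp u) z = -gip u z := by
  unfold ip gip
  rw [← Finset.sum_neg_distrib]
  refine Finset.sum_congr rfl fun i _ => ?_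
  exact int_lap_mul (hu i) (hz i)

theorem ort_sp_cv {u v : V → V} (hu : ∀ i, SP (fun x => u x i)) (hv : ∀ i, SP (fun x => v x i))
    (l : Fin 3) : SP (fun x => cv u v x l) := SP.sum fun j _ => (hu j).mul ((hv l).pd j)

theorem ort_sp_lp {u : V → V} (hu : ∀ i, SP (fun x => u x i)) (l : Fin 3) :
    SP (fun x => lp u x l) := SP.sum fun j _ => ((hu l).pd j).pd j

theorem ort_sp_zero : SP (fun _ : V => (0 : ℝ)) := ⟨contDiff_const, fun _ _ => rfl⟩

theorem ort_sp_qq (hb : Basis phi cc pp gg) (i j : ℕ) (l : Fin 3) :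
    SP (fun x => qq i j x l) :=
  SP.add (ort_sp_cv (hb.sp i) (hb.sp j) l) (ort_sp_cv (hb.sp j) (hb.sp i) l)

theorem ort_sp_res (hb : Basis phi cc pp gg) (n : ℕ) {f : V → V} (hf : ∀ i, SP (fun x => f x i))
    (l : Fin 3) : SP (fun x => res n f x l) :=
  uni_sub (hf l) (SP.sum fun m _ => uni_smul (ip f (phi m)) (hb.sp m l))

theorem ort_sp_cst (hb : Basis phi cc pp gg) (n i : ℕ) (l : Fin 3) :
    SP (fun x => cst n i x l) := by
  unfold cst
  split_ifs
  · exact ort_sp_res hb n (ort_sp_qq hb i n) l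
  · exact ort_sp_res hb n (ort_sp_lp (hb.sp n)) l
  · exact ort_sp_zero

/-- the products of the residual part with the fields -/
theorem ort_ip_res (hb : Basis phi cc pp gg) (n : ℕ) {f : V → V} (hf : ∀ i, SP (fun x => f x i))
    (m : ℕ) : ip (res n f) (phi m) = if m < n + 2 then 0 else ip f (phi m) := by
  have h1 : ip (res n f) (phi m) =
      ip f (phi m) - ∑ k ∈ Finset.range (n + 2), ip f (phi k) * ip (phi k) (phi m) := by
    have e1 : ∀ l : Fin 3, ∫ x in cube, res n f x l * phi m x l =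
        (∫ x in cube, f x l * phi m x l) -
          ∑ k ∈ Finset.range (n + 2), ip f (phi k) * ∫ x in cube, phi k x l * phi m x l := by
      intro l
      have e2 : ∀ x, res n f x l * phi m x l = f x l * phi m x l -
          ∑ k ∈ Finset.range (n + 2), ip f (phi k) * (phi k x l * phi m x l) := by
        intro x
        unfold res
        rw [sub_mul, Finset.sum_mul]
        congr 1
        exact Finset.sum_congr rfl fun k _ => by ring
      simp_rw [e2]
      have i2 : ∀ k ∈ Finset.range (n + 2),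
          IntegrableOn (fun x => ip f (phi k) * (phi k x l * phi m x l)) cube :=
        fun k _ => ((hb.sp k l).mul (hb.sp m l)).int.const_mul _
      rw [integral_sub ((hf l).mul (hb.sp m l)).int (integrable_finsetSum _ i2),
        integral_finsetSum _ i2]
      congr 1
      exact Finset.sum_congr rfl fun k _ => integral_const_mul _ _
    unfold ip at e1 ⊢
    rw [Finset.sum_congr rfl fun l _ => e1 l, Finset.sum_sub_distrib, Finset.sum_comm]
    congr 1
    refine Finset.sum_congr rfl fun k _ => ?_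
    rw [← Finset.mul_sum]
  have h2 : ∑ k ∈ Finset.range (n + 2), ip f (phi k) * ip (phi k) (phi m) =
      if m < n + 2 then ip f (phi m) else 0 := by
    have e1 : ∀ k ∈ Finset.range (n + 2), ip f (phi k) * ip (phi k) (phi m) =
        if k = m then ip f (phi m) else 0 := by
      intro k _
      rw [hb.on k m]
      by_cases h : k = m
      · rw [if_pos h, if_pos h, h, mul_one]
      · rw [if_neg h, if_neg h, mul_zero]
    rw [Finset.sum_congr rfl e1, Finset.sum_ite_eq' (Finset.range (n + 2)) m]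
    simp only [Finset.mem_range]
  rw [h1, h2]
  split_ifs
  · exact sub_self _
  · exact sub_zero _

theorem ort_ip_add {u v z : V → V} (hu : ∀ i, SP (fun x => u x i)) (hv : ∀ i, SP (fun x => v x i))
    (hz : ∀ i, SP (fun x => z x i)) : ip (fun x l => u x l + v x l) z = ip u z + ip v z := by
  unfold ip
  rw [← Finset.sum_add_distrib]
  refine Finset.sum_congr rfl fun i _ => ?_
  rw [← integral_add ((hu i).mul (hz i)).int ((hv i).mul (hz i)).int]
  congr 1
  funext x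
  exact add_mul _ _ _

theorem ort_cst (hb : Basis phi cc pp gg) (n i m : ℕ) : ip (cst n i) (phi m) = 0 := by
  by_cases h1 : i ≤ n
  · have e : cst n i = res n (qq i n) := by
      unfold cst
      rw [if_pos h1]
    rw [e, ort_ip_res hb n (ort_sp_qq hb i n) m]
    split_ifs with h2
    · rfl
    · have e2 : ip (qq i n) (phi m) = ip (cv (phi i) (phi n)) (phi m) +
          ip (cv (phi n) (phi i)) (phi m) :=
        ort_ip_add (ort_sp_cv (hb.sp i) (hb.sp n)) (ort_sp_cv (hb.sp n) (hb.sp i)) (hb.sp m)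
      rw [e2, ort_conv (hb.sp i) (hb.div i) (hb.sp n) (hb.sp m),
        ort_conv (hb.sp n) (hb.div n) (hb.sp i) (hb.sp m), hb.tri_eq, hb.tri_eq]
      have g1 : ¬ (n < m ∧ i = m) := by omega
      have g2 : ¬ (m < n ∧ i = n) := by omega
      have g3 : ¬ (i = n ∧ m = i + 1) := by omega
      have g4 : ¬ (i = m ∧ n = i + 1) := by omega
      have g5 : ¬ (i < m ∧ n = m) := by omega
      have g6 : ¬ (m < i ∧ n = i) := by omega
      have g7 : ¬ (n = i ∧ m = n + 1) := by omega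
      have g8 : ¬ (n = m ∧ i = n + 1) := by omega
      rw [if_neg g1, if_neg g2, if_neg g3, if_neg g4, if_neg g5, if_neg g6, if_neg g7, if_neg g8]
      norm_num
  · by_cases h3 : i = n + 1
    · have e : cst n i = res n (lp (phi n)) := by
        unfold cst
        rw [if_neg h1, if_pos h3]
      rw [e, ort_ip_res hb n (ort_sp_lp (hb.sp n)) m]
      split_ifs with h2
      · rfl
      · rw [ort_lap (hb.sp n) (hb.sp m), hb.gon, if_neg (by omega)]
        norm_num
    · have e : cst n i = 0 := by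
        unfold cst
        rw [if_neg h1, if_neg h3]
      rw [e]
      unfold ip
      simp

/-- **Orthogonality** -/
theorem s_ort (hb : Basis phi cc pp gg) : S_ort :=
  ⟨fun n i l => ort_sp_cst hb n i l, fun n i m => ort_cst hb n i m⟩

/-! ### Divergences -/

theorem ort_pd_cos (k : K3) (a : ℝ) (j : Fin 3) (x : V) :
    pd j (fun y => Real.cos (2 * Real.pi * ph k y) * a) x =
      -(2 * Real.pi * Real.sin (2 * Real.pi * ph k x)) * ((k j : ℝ) * a) := by
  have h1 := (((hasFDerivAt_ph k x).const_mul (2 * Real.pi)).cos).mul_const a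
  unfold pd
  rw [h1.fderiv]
  simp only [smul_apply, sum_apply, ContinuousLinearMap.proj_apply, smul_eq_mul,
    Pi.single_apply]
  rw [Finset.sum_eq_single j (fun b _ hb => by rw [if_neg hb, mul_zero])
    (fun h => absurd (Finset.mem_univ j) h), if_pos rfl]
  ring

theorem ort_pd_sin (k : K3) (a : ℝ) (j : Fin 3) (x : V) :
    pd j (fun y => Real.sin (2 * Real.pi * ph k y) * a) x =
      (2 * Real.pi * Real.cos (2 * Real.pi * ph k x)) * ((k j : ℝ) * a) := by
  have h1 := (((hasFDerivAt_ph k x).const_mul (2 * Real.pi)).sin).mul_const a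
  unfold pd
  rw [h1.fderiv]
  simp only [smul_apply, sum_apply, ContinuousLinearMap.proj_apply, smul_eq_mul,
    Pi.single_apply]
  rw [Finset.sum_eq_single j (fun b _ hb => by rw [if_neg hb, mul_zero])
    (fun h => absurd (Finset.mem_univ j) h), if_pos rfl]
  ring

theorem ort_div_Fp (hb : Basis phi cc pp gg) {p : ℕ} {w : V → V} (hw : w ∈ Fp phi p) (x : V) :
    ∑ i, pd i (fun y => w y i) x = 0 := by
  rcases hw with ⟨m, h⟩ | ⟨k, a, -, h2, h | h⟩
  · have e : ∀ i, pd i (fun y => w y i) x =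
        (p : ℝ) * pd i (fun y => phi m y i) ((p : ℝ) • x) := by
      intro i
      have e1 : (fun y => w y i) = fun y => phi m ((p : ℝ) • y) i := by
        funext y
        rw [h y]
      rw [e1]
      exact up_pd (hb.sp m i) (p : ℝ) i x
    rw [Finset.sum_congr rfl fun i _ => e i, ← Finset.mul_sum, hb.div, mul_zero]
  · have e : ∀ i, pd i (fun y => w y i) x =
        -(2 * Real.pi * Real.sin (2 * Real.pi * ph k x)) * ((k i : ℝ) * a i) := by
      intro i
      have e1 : (fun y => w y i) = fun y => Real.cos (2 * Real.pi * ph k y) * a i := by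
        funext y
        rw [h y]
        rfl
      rw [e1]
      exact ort_pd_cos k (a i) i x
    rw [Finset.sum_congr rfl fun i _ => e i, ← Finset.mul_sum, h2, mul_zero]
  · have e : ∀ i, pd i (fun y => w y i) x =
        (2 * Real.pi * Real.cos (2 * Real.pi * ph k x)) * ((k i : ℝ) * a i) := by
      intro i
      have e1 : (fun y => w y i) = fun y => Real.sin (2 * Real.pi * ph k y) * a i := by
        funext y
        rw [h y]
        rfl
      rw [e1]
      exact ort_pd_sin k (a i) i x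
    rw [Finset.sum_congr rfl fun i _ => e i, ← Finset.mul_sum, h2, mul_zero]

/-- **The space of the earlier theorem is admissible** -/
theorem s_admF (hI : S_int) (h : S_ort) (hb : Basis phi cc pp gg) : S_admF := by
  intro p hp
  refine ⟨?_, ?_, ?_, ?_⟩
  · intro w hw i
    exact shift_sp_Fp hb.sp hw i
  · intro w hw x
    exact ort_div_Fp hb hw x
  · intro w hw
    exact Or.inl hw
  · intro w hw n i
    rcases hw with ⟨m, hw⟩ | ⟨k, a, ⟨j, hj⟩, -, hw⟩
    · have e1 : ∀ l : Fin 3, ∫ x in cube, w x l * cst n i ((p : ℝ) • x) l =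
          ∫ x in cube, phi m x l * cst n i x l := by
        intro l
        have := hI.1 (fun x => phi m x l * cst n i x l) ((hb.sp m l).mul (h.1 n i l)) p hp
        rw [← this]
        congr 1
        funext x
        rw [hw x]
      rw [Finset.sum_congr rfl fun l _ => e1 l]
      have e2 : ∑ l, ∫ x in cube, phi m x l * cst n i x l = ip (phi m) (cst n i) := rfl
      rw [e2, ort_ip_comm]
      exact h.2 n i m
    · refine Finset.sum_eq_zero fun l _ => ?_
      have hH : SP (fun x => cst n i ((p : ℝ) • x) l) :=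
        shift_sp_phi (φ := fun _ => cst n i) (fun _ l => h.1 n i l) p 0 l
      have hHper : ∀ (j : Fin 3) (x : V),
          (fun x => cst n i ((p : ℝ) • x) l) (x + Pi.single j (1 / (p : ℝ)))
            = (fun x => cst n i ((p : ℝ) • x) l) x := by
        intro j x
        have h1 := shift_phi_add (φ := fun _ => cst n i) (fun _ l => h.1 n i l) hp j 0 x
        exact congrFun h1 l
      have hm := ProjP_mode hI hH hp hHper k j hj
      rcases hw with hw | hw
      · have e1 : ∀ x, w x l * cst n i ((p : ℝ) • x) l =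
            cst n i ((p : ℝ) • x) l * Real.cos (2 * Real.pi * ph k x) * a l := by
          intro x
          rw [hw x, Pi.smul_apply, smul_eq_mul]
          unfold ph
          ring
        simp_rw [e1]
        rw [integral_mul_const, hm.1, zero_mul]
      · have e1 : ∀ x, w x l * cst n i ((p : ℝ) • x) l =
            cst n i ((p : ℝ) • x) l * Real.sin (2 * Real.pi * ph k x) * a l := by
          intro x
          rw [hw x, Pi.smul_apply, smul_eq_mul]
          unfold ph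
          ring
        simp_rw [e1]
        rw [integral_mul_const, hm.2, zero_mul]

end Pool.Agent.H226.GB

end

/-! ## Lr -/

section

/-!
The Leray projection of trigonometric polynomials, and gradients.
-/

set_option autoImplicit false

open MeasureTheory Set Filter Topology
open scoped ContDiff
open H459R3.NS

namespace Pool.Agent.H226.GB

theorem lr_hf (k : Fin 3 → ℤ) (x : V) : HasFDerivAt (fun x : V => ∑ j, (k j : ℝ) * x j)
    (∑ j, (k j : ℝ) • (ContinuousLinearMap.proj j : V →L[ℝ] ℝ)) x :=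
  HasFDerivAt.fun_sum fun j _ => (hasFDerivAt_apply j x).const_mul (k j : ℝ)

theorem lr_single (k : Fin 3 → ℤ) (i : Fin 3) :
    (∑ j, (k j : ℝ) • (ContinuousLinearMap.proj j : V →L[ℝ] ℝ)) (Pi.single i (1 : ℝ)) = k i := by
  rw [sum_apply, Finset.sum_eq_single i]
  · simp
  · intro j _ hj
    simp [hj]
  · intro h
    exact absurd (Finset.mem_univ i) h

theorem lr_pd_sin (k : Fin 3 → ℤ) (b : ℝ) (i : Fin 3) (x : V) :
    pd i (fun x : V => Real.sin (2 * Real.pi * ∑ j, (k j : ℝ) * x j) * b) x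
      = Real.cos (2 * Real.pi * ∑ j, (k j : ℝ) * x j) * (2 * Real.pi * k i) * b := by
  have h1 : HasFDerivAt (fun x : V => 2 * Real.pi * ∑ j, (k j : ℝ) * x j)
      ((2 * Real.pi) • ∑ j, (k j : ℝ) • (ContinuousLinearMap.proj j : V →L[ℝ] ℝ)) x :=
    (lr_hf k x).const_mul (2 * Real.pi)
  have h2 := (h1.sin).mul_const b
  unfold pd
  rw [h2.fderiv]
  simp only [smul_apply, smul_eq_mul, lr_single]
  ring

theorem lr_pd_cos (k : Fin 3 → ℤ) (b : ℝ) (i : Fin 3) (x : V) :
    pd i (fun x : V => Real.cos (2 * Real.pi * ∑ j, (k j : ℝ) * x j) * b) x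
      = -(Real.sin (2 * Real.pi * ∑ j, (k j : ℝ) * x j) * (2 * Real.pi * k i) * b) := by
  have h1 : HasFDerivAt (fun x : V => 2 * Real.pi * ∑ j, (k j : ℝ) * x j)
      ((2 * Real.pi) • ∑ j, (k j : ℝ) • (ContinuousLinearMap.proj j : V →L[ℝ] ℝ)) x :=
    (lr_hf k x).const_mul (2 * Real.pi)
  have h2 := (h1.cos).mul_const b
  unfold pd
  rw [h2.fderiv]
  simp only [smul_apply, smul_eq_mul, lr_single]
  ring

theorem lr_per_ph (k : Fin 3 → ℤ) (i : Fin 3) (x : V) :
    ∑ j, (k j : ℝ) * (x + Pi.single i 1 : V) j = ∑ j, (k j : ℝ) * x j + k i := by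
  have h : ∀ j, (k j : ℝ) * (x + Pi.single i 1 : V) j = (k j : ℝ) * x j + if j = i then (k i : ℝ) else 0 := by
    intro j
    rw [Pi.add_apply, mul_add]
    by_cases hj : j = i
    · subst hj
      simp
    · simp [hj]
  simp_rw [h]
  rw [Finset.sum_add_distrib]
  simp

theorem lr_sp_sin (k : Fin 3 → ℤ) (b : ℝ) :
    SP (fun x : V => Real.sin (2 * Real.pi * ∑ j, (k j : ℝ) * x j) * b) where
  smooth := (Real.contDiff_sin.comp (contDiff_const.mul
    (ContDiff.sum fun j _ => contDiff_const.mul (contDiff_apply ℝ ℝ j)))).mul contDiff_const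
  per := by
    intro i x
    show Real.sin _ * b = Real.sin _ * b
    rw [lr_per_ph, mul_add, mul_comm (2 * Real.pi) (k i : ℝ), Real.sin_add_int_mul_two_pi]

theorem lr_sp_cos (k : Fin 3 → ℤ) (b : ℝ) :
    SP (fun x : V => Real.cos (2 * Real.pi * ∑ j, (k j : ℝ) * x j) * b) where
  smooth := (Real.contDiff_cos.comp (contDiff_const.mul
    (ContDiff.sum fun j _ => contDiff_const.mul (contDiff_apply ℝ ℝ j)))).mul contDiff_const
  per := by
    intro i x
    show Real.cos _ * b = Real.cos _ * b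
    rw [lr_per_ph, mul_add, mul_comm (2 * Real.pi) (k i : ℝ), Real.cos_add_int_mul_two_pi]

theorem lr_sp_smul {q : V → ℝ} (hq : SP q) (c : ℝ) : SP (fun x => c * q x) where
  smooth := contDiff_const.mul hq.smooth
  per := fun i x => by
    show c * q _ = c * q _
    rw [hq.per i x]

theorem lr_pd_add {f g : V → ℝ} (hf : SP f) (hg : SP g) (j : Fin 3) (x : V) :
    pd j (fun y => f y + g y) x = pd j f x + pd j g x := by
  unfold pd
  have h : HasFDerivAt (fun y => f y + g y) _ x := (hf.diff x).hasFDerivAt.add (hg.diff x).hasFDerivAt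
  rw [h.fderiv]
  rfl

theorem lr_pd_smul {f : V → ℝ} (hf : SP f) (c : ℝ) (j : Fin 3) (x : V) :
    pd j (fun y => c * f y) x = c * pd j f x := by
  unfold pd
  have h : HasFDerivAt (fun y => c * f y) _ x := (hf.diff x).hasFDerivAt.const_mul c
  rw [h.fderiv]
  rfl

/-- the coefficient of the gradient part -/
noncomputable def lr_c (k : Fin 3 → ℤ) (a : V) : ℝ :=
  (∑ j, (k j : ℝ) * a j) / ∑ j, (k j : ℝ) * (k j : ℝ)

theorem lr_orth (k : Fin 3 → ℤ) (a : V) :
    ∑ j, (k j : ℝ) * (a - lr_c k a • (fun j => (k j : ℝ)) : V) j = 0 := by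
  have h1 : ∑ j, (k j : ℝ) * (a - lr_c k a • (fun j => (k j : ℝ)) : V) j
      = ∑ j, (k j : ℝ) * a j - lr_c k a * ∑ j, (k j : ℝ) * (k j : ℝ) := by
    rw [Finset.mul_sum, ← Finset.sum_sub_distrib]
    refine Finset.sum_congr rfl fun j _ => ?_
    simp only [Pi.sub_apply, Pi.smul_apply, smul_eq_mul]
    ring
  rw [h1]
  by_cases hN : ∑ j, (k j : ℝ) * (k j : ℝ) = 0
  · have h2 : ∀ j, (k j : ℝ) = 0 := by
      intro j
      have h3 := (Finset.sum_eq_zero_iff_of_nonneg (fun j _ => mul_self_nonneg (k j : ℝ))).1 hN j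
        (Finset.mem_univ j)
      exact mul_self_eq_zero.1 h3
    have h4 : ∑ j, (k j : ℝ) * a j = 0 := Finset.sum_eq_zero fun j _ => by rw [h2 j, zero_mul]
    rw [h4, hN, mul_zero, sub_zero]
  · unfold lr_c
    rw [div_mul_cancel₀ _ hN, sub_self]

theorem s_lr : S_lr := by
  intro A f hf
  unfold TP at hf
  induction hf using Submodule.span_induction with
  | mem w hw =>
    obtain ⟨k, hk, a, hw⟩ := hw
    have hpi : (2 * Real.pi : ℝ) ≠ 0 := by positivity
    rcases hw with hw | hw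
    · refine ⟨fun x => Real.cos (2 * Real.pi * ∑ j, (k j : ℝ) * x j) •
        (a - lr_c k a • (fun j => (k j : ℝ)) : V), Submodule.subset_span
          ⟨k, hk, _, lr_orth k a, Or.inl fun x => rfl⟩,
        fun x => Real.sin (2 * Real.pi * ∑ j, (k j : ℝ) * x j) * (lr_c k a / (2 * Real.pi)),
        lr_sp_sin k _, ?_⟩
      intro x i
      rw [lr_pd_sin, hw x]
      simp only [Pi.smul_apply, Pi.sub_apply, smul_eq_mul]
      field_simp
      ring
    · refine ⟨fun x => Real.sin (2 * Real.pi * ∑ j, (k j : ℝ) * x j) •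
        (a - lr_c k a • (fun j => (k j : ℝ)) : V), Submodule.subset_span
          ⟨k, hk, _, lr_orth k a, Or.inr fun x => rfl⟩,
        fun x => Real.cos (2 * Real.pi * ∑ j, (k j : ℝ) * x j) * (-(lr_c k a / (2 * Real.pi))),
        lr_sp_cos k _, ?_⟩
      intro x i
      rw [lr_pd_cos, hw x]
      simp only [Pi.smul_apply, Pi.sub_apply, smul_eq_mul]
      field_simp
      ring
  | zero =>
    refine ⟨0, Submodule.zero_mem _, fun _ => 0, ⟨contDiff_const, fun _ _ => rfl⟩, ?_⟩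
    intro x i
    have h : pd i (fun _ : V => (0 : ℝ)) x = 0 := by
      unfold pd
      simp
    rw [h]
    simp
  | add v w _ _ hv hw =>
    obtain ⟨g1, hg1, q1, hq1, h1⟩ := hv
    obtain ⟨g2, hg2, q2, hq2, h2⟩ := hw
    refine ⟨g1 + g2, Submodule.add_mem _ hg1 hg2, fun x => q1 x + q2 x, hq1.add hq2, ?_⟩
    intro x i
    rw [lr_pd_add hq1 hq2]
    simp only [Pi.add_apply, h1, h2]
    ring
  | smul c w _ hw =>
    obtain ⟨g1, hg1, q1, hq1, h1⟩ := hw
    refine ⟨c • g1, Submodule.smul_mem _ c hg1, fun x => c * q1 x, lr_sp_smul hq1 c, ?_⟩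
    intro x i
    rw [lr_pd_smul hq1]
    simp only [Pi.smul_apply, smul_eq_mul, h1]
    ring

theorem lr_nat {f : V → ℝ} {j : Fin 3} (h : ∀ x : V, f (x + Pi.single j 1) = f x) (n : ℕ)
    (x : V) : f (x + Pi.single j (n : ℝ)) = f x := by
  induction n generalizing x with
  | zero => simp
  | succ n ih =>
    have e : x + Pi.single j ((n + 1 : ℕ) : ℝ)
        = (x + Pi.single j (n : ℝ)) + Pi.single j 1 := by
      rw [add_assoc, ← Pi.single_add]
      push_cast
      rfl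
    rw [e, h, ih]

theorem lr_sp_scale {q : V → ℝ} (hq : SP q) (p : ℕ) : SP (fun x => q ((p : ℝ) • x)) where
  smooth := hq.smooth.comp (contDiff_const_smul (p : ℝ))
  per := by
    intro j x
    have h := lr_nat (f := q) (j := j) (fun x => hq.per j x) p ((p : ℝ) • x)
    show q ((p : ℝ) • (x + Pi.single j 1)) = q ((p : ℝ) • x)
    have e : (p : ℝ) • (Pi.single j (1 : ℝ) : V) = Pi.single j (p : ℝ) := by
      funext l
      rcases eq_or_ne l j with h | h
      · subst h; simp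
      · simp [h]
    rw [smul_add, e]
    exact h

theorem lr_pd_scale {q : V → ℝ} (hq : SP q) (p : ℝ) (j : Fin 3) (x : V) :
    pd j (fun x => q (p • x)) x = p * pd j q (p • x) := by
  unfold pd
  have h1 : HasFDerivAt (fun x : V => p • x) (p • ContinuousLinearMap.id ℝ V) x :=
    (hasFDerivAt_id x).const_smul p
  have h2 : HasFDerivAt (fun x : V => q (p • x))
      ((fderiv ℝ q (p • x)).comp (p • ContinuousLinearMap.id ℝ V)) x :=
    (hq.diff (p • x)).hasFDerivAt.comp x h1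
  rw [h2.fderiv]
  simp

theorem s_grd_aux : S_grd := by
  intro p q w hp hq hw hdiv
  have hp0 : (p : ℝ) ≠ 0 := by
    have : (0 : ℝ) < p := by exact_mod_cast hp
    exact this.ne'
  have h1 := int_press (v := fun i x => w x i) hw hdiv (lr_sp_scale hq p)
  simp_rw [lr_pd_scale hq] at h1
  have h2 : ∑ i, ∫ x in cube, w x i * ((p : ℝ) * pd i q ((p : ℝ) • x))
      = (p : ℝ) * ∑ i, ∫ x in cube, w x i * pd i q ((p : ℝ) • x) := by
    rw [Finset.mul_sum]
    refine Finset.sum_congr rfl fun i _ => ?_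
    rw [← integral_const_mul]
    congr 1
    funext x
    ring
  rw [h2] at h1
  exact (mul_eq_zero.1 h1).resolve_left hp0

theorem s_grd (_hI : S_int) : S_grd := s_grd_aux

end Pool.Agent.H226.GB

end

/-! ## Nz -/

section

/-!
Non-zero Fourier coefficients of trigonometric polynomials.
-/

set_option autoImplicit false

open MeasureTheory Set Filter Topology
open scoped ContDiff ENNReal
open H459R3.NS

namespace Pool.Agent.H226.GB

theorem nz_am_sp {k : Fin 3 → ℤ} {w : V → V} (hw : w ∈ am k) : ∀ i, SP (fun x => w x i) := by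
  intro i
  obtain ⟨a, h | h⟩ := hw
  · have e : (fun x => w x i) = fun x => a i * Real.cos (2 * Real.pi * ph k x) := by
      funext x
      rw [h x]
      show Real.cos (2 * Real.pi * ∑ j, (k j : ℝ) * x j) * a i = _
      rw [mul_comm]
      rfl
    rw [e]
    exact uni_smul _ (up_cos k)
  · have e : (fun x => w x i) = fun x => a i * Real.sin (2 * Real.pi * ph k x) := by
      funext x
      rw [h x]
      show Real.sin (2 * Real.pi * ∑ j, (k j : ℝ) * x j) * a i = _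
      rw [mul_comm]
      rfl
    rw [e]
    exact uni_smul _ (up_sin k)

theorem nz_zero_sp : SP (fun _ : V => (0 : ℝ)) where
  smooth := contDiff_const
  per := fun _ _ => rfl

theorem nz_tp_sp {A : Set (Fin 3 → ℤ)} {f : V → V} (hf : f ∈ TP A) : ∀ i, SP (fun x => f x i) := by
  unfold TP at hf
  induction hf using Submodule.span_induction with
  | mem w hw =>
    obtain ⟨k, _, hk⟩ := hw
    exact nz_am_sp hk
  | zero => exact fun i => nz_zero_sp
  | add u v _ _ hu hv => exact fun i => (hu i).add (hv i)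
  | smul c u _ hu => exact fun i => uni_smul c (hu i)

theorem nz_ip_add {u v f : V → V} (hu : ∀ i, SP (fun x => u x i)) (hv : ∀ i, SP (fun x => v x i))
    (hf : ∀ i, SP (fun x => f x i)) : ip (u + v) f = ip u f + ip v f := by
  unfold ip
  rw [← Finset.sum_add_distrib]
  refine Finset.sum_congr rfl fun i _ => ?_
  rw [← integral_add ((hu i).mul (hf i)).int ((hv i).mul (hf i)).int]
  congr 1
  funext x
  show (u x i + v x i) * f x i = _
  ring

theorem nz_ip_smul {u f : V → V} (c : ℝ) : ip (c • u) f = c * ip u f := by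
  unfold ip
  rw [Finset.mul_sum]
  refine Finset.sum_congr rfl fun i _ => ?_
  rw [← integral_const_mul]
  congr 1
  funext x
  show c * u x i * f x i = _
  ring

theorem nz_fq_zero {f : V → V} {k : Fin 3 → ℤ} (h : fq f k = 0) (i : Fin 3) :
    (∫ x in cube, f x i * Real.cos (2 * Real.pi * ∑ j, (k j : ℝ) * x j)) = 0 ∧
    (∫ x in cube, f x i * Real.sin (2 * Real.pi * ∑ j, (k j : ℝ) * x j)) = 0 := by
  unfold fq at h
  have h1 := (Finset.sum_eq_zero_iff_of_nonneg (fun i _ => by positivity)).1 h i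
    (Finset.mem_univ i)
  constructor
  · by_contra h2
    have : 0 < (∫ x in cube, f x i * Real.cos (2 * Real.pi * ∑ j, (k j : ℝ) * x j)) ^ 2 := by
      positivity
    nlinarith [sq_nonneg (∫ x in cube, f x i * Real.sin (2 * Real.pi * ∑ j, (k j : ℝ) * x j))]
  · by_contra h2
    have : 0 < (∫ x in cube, f x i * Real.sin (2 * Real.pi * ∑ j, (k j : ℝ) * x j)) ^ 2 := by
      positivity
    nlinarith [sq_nonneg (∫ x in cube, f x i * Real.cos (2 * Real.pi * ∑ j, (k j : ℝ) * x j))]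

theorem nz_am_ip {f w : V → V} {k : Fin 3 → ℤ} (h : fq f k = 0) (hw : w ∈ am k) : ip w f = 0 := by
  unfold ip
  refine Finset.sum_eq_zero fun i _ => ?_
  obtain ⟨a, hc | hs⟩ := hw
  · have e : (fun x => w x i * f x i) = fun x =>
        a i * (f x i * Real.cos (2 * Real.pi * ∑ j, (k j : ℝ) * x j)) := by
      funext x
      rw [hc x]
      show Real.cos (2 * Real.pi * ∑ j, (k j : ℝ) * x j) * a i * f x i = _
      ring
    rw [e, integral_const_mul, (nz_fq_zero h i).1, mul_zero]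
  · have e : (fun x => w x i * f x i) = fun x =>
        a i * (f x i * Real.sin (2 * Real.pi * ∑ j, (k j : ℝ) * x j)) := by
      funext x
      rw [hs x]
      show Real.sin (2 * Real.pi * ∑ j, (k j : ℝ) * x j) * a i * f x i = _
      ring
    rw [e, integral_const_mul, (nz_fq_zero h i).2, mul_zero]

theorem nz_tp_ip {A : Set (Fin 3 → ℤ)} {f w : V → V} (hf : ∀ i, SP (fun x => f x i))
    (h : ∀ k ∈ A, fq f k = 0) (hw : w ∈ TP A) : ip w f = 0 := by
  unfold TP at hw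
  induction hw using Submodule.span_induction with
  | mem w hw =>
    obtain ⟨k, hkA, hk⟩ := hw
    exact nz_am_ip (h k hkA) hk
  | zero =>
    have : (0 : V → V) = (0 : ℝ) • (0 : V → V) := by simp
    rw [this, nz_ip_smul, zero_mul]
  | add u v hu' hv' hu hv =>
    rw [nz_ip_add (nz_tp_sp (A := A) hu') (nz_tp_sp (A := A) hv') hf, hu, hv, add_zero]
  | smul c u _ hu => rw [nz_ip_smul, hu, mul_zero]

theorem nz_ip_self {f : V → V} (hf : ∀ i, SP (fun x => f x i)) (h : ip f f = 0) : f = 0 := by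
  unfold ip at h
  have h0 : ∀ i ∈ (Finset.univ : Finset (Fin 3)), 0 ≤ ∫ x in cube, f x i * f x i := fun i _ =>
    integral_nonneg fun x => mul_self_nonneg _
  have h1 := (Finset.sum_eq_zero_iff_of_nonneg h0).1 h
  funext x i
  have h2 := h1 i (Finset.mem_univ i)
  refine uni_zero (hf i) ?_ x
  rw [← h2]
  congr 1
  funext y
  ring

theorem s_nz : S_nz := by
  refine ⟨?_, ?_, ?_⟩
  · intro A f w hf hw hne
    by_contra h
    push Not at h
    exact hne (nz_tp_ip hf h hw)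
  · intro A f hf
    exact ⟨nz_tp_sp hf, fun hne h => hne (nz_ip_self (nz_tp_sp hf) h)⟩
  · intro A
    unfold DP TP
    apply Submodule.span_mono
    rintro w ⟨k, hk, a, _, h⟩
    exact ⟨k, hk, a, h⟩

end Pool.Agent.H226.GB

end

/-! ## Glu -/

section

/-!
Concatenation of solutions (task GB63 Glu, by helper878).
-/

set_option autoImplicit false

open MeasureTheory Set Filter Topology
open scoped ContDiff ENNReal
open H459R3.NS

namespace Pool.Agent.H226.GB

theorem glu_mono {φ : ℕ → V → V} {ν T T' : ℝ} {u : ℝ → V → V} (h : IsGal φ ν T u)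
    (hT : T' ≤ T) : IsGal φ ν T' u where
  smooth := h.smooth.mono (prod_mono (Ico_subset_Ico le_rfl hT) (subset_univ _))
  per := fun t ht => h.per t ⟨ht.1, ht.2.trans_le hT⟩
  divfree := fun t ht => h.divfree t ⟨ht.1, ht.2.trans_le hT⟩
  mem := fun t ht => h.mem t ⟨ht.1, ht.2.trans_le hT⟩
  eq := fun t ht => h.eq t ⟨ht.1, ht.2.trans_le hT⟩

theorem glu_tsh {φ : ℕ → V → V} {ν T t₀ : ℝ} {u : ℝ → V → V} (hu : IsGal φ ν T u)
    (ht₀ : 0 ≤ t₀) : IsGal φ ν (T - t₀) (fun t x => u (t₀ + t) x) := by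
  have hin : ∀ t ∈ Ico 0 (T - t₀), t₀ + t ∈ Ico 0 T := fun t ht =>
    ⟨add_nonneg ht₀ ht.1, by linarith [ht.2]⟩
  refine ⟨?_, fun t ht => hu.per _ (hin t ht), fun t ht => hu.divfree _ (hin t ht),
    fun t ht => hu.mem _ (hin t ht), ?_⟩
  · have h1 : ContDiff ℝ ∞ (fun z : ℝ × V => ((t₀ + z.1, z.2) : ℝ × V)) :=
      (contDiff_const.add contDiff_fst).prodMk contDiff_snd
    exact hu.smooth.comp h1.contDiffOn (fun z hz => ⟨hin _ hz.1, mem_univ _⟩)
  · intro t ht w
    have ht' : t₀ + t ∈ Ioo 0 T := ⟨by linarith [ht.1], by linarith [ht.2]⟩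
    have e : ∀ (x : V) (i : Fin 3), deriv (fun s => u (t₀ + s) x i) t =
        deriv (fun s => u s x i) (t₀ + t) := fun x i =>
      deriv_comp_const_add (f := fun s => u s x i) t₀ t
    simp only [e]
    exact hu.eq _ ht' w

/-- the solution property at the time `t` of the function `w` -/
structure GluAt (φ : ℕ → V → V) (ν T : ℝ) (w : ℝ → V → V) (t : ℝ) : Prop where
  smooth : ∀ x, ContDiffWithinAt ℝ ∞ (fun z : ℝ × V => w z.1 z.2) (Ico 0 T ×ˢ univ) (t, x)
  per : Per (w t)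
  divfree : ∀ x, ∑ i, pd i (fun y => w t y i) x = 0
  mem : ∀ ε > 0, ∃ (L : ℕ) (a : ℕ → ℝ),
    ∑ i, ∫ x in cube, (w t x i - ∑ m ∈ Finset.range L, a m * φ m x i) ^ 2 < ε
  eq : 0 < t → ∀ m, ∑ i, ∫ x in cube,
    (deriv (fun s => w s x i) t + ∑ j, w t x j * pd j (fun y => w t y i) x
      - ν * ∑ j, pd j (pd j (fun y => w t y i)) x) * φ m x i = 0

theorem glu_of {φ : ℕ → V → V} {ν T : ℝ} {w : ℝ → V → V}
    (h : ∀ t ∈ Ico 0 T, GluAt φ ν T w t) : IsGal φ ν T w where
  smooth := by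
    rintro ⟨t, x⟩ ⟨ht, -⟩
    exact (h t ht).smooth x
  per := fun t ht => (h t ht).per
  divfree := fun t ht => (h t ht).divfree
  mem := fun t ht => (h t ht).mem
  eq := fun t ht => (h t ⟨ht.1.le, ht.2⟩).eq ht.1

/-- near `t`, the function `w` is a solution `u` (up to the starting time) -/
theorem glu_at1 {φ : ℕ → V → V} {ν T T' : ℝ} {u w : ℝ → V → V} (hu : IsGal φ ν T u)
    (hw : ∀ s ∈ Ico 0 T, w s = u s) {t : ℝ} (ht : t ∈ Ico 0 T) :
    GluAt φ ν T' w t := by
  have e0 := hw t ht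
  refine ⟨fun x => ?_, ?_, fun x => ?_, ?_, fun h0 m => ?_⟩
  · have h1 := hu.smooth (t, x) ⟨ht, mem_univ _⟩
    have h2 : Ico 0 T ×ˢ (univ : Set V) ∈ 𝓝[Ico 0 T' ×ˢ univ] (t, x) := by
      refine mem_nhdsWithin.2 ⟨Iio T ×ˢ univ, isOpen_Iio.prod isOpen_univ,
        ⟨ht.2, mem_univ _⟩, ?_⟩
      rintro ⟨s, y⟩ ⟨⟨hs, -⟩, ⟨hs', -⟩⟩
      exact ⟨⟨hs'.1, hs⟩, mem_univ _⟩
    have h3 : ContDiffWithinAt ℝ ∞ (fun z : ℝ × V => u z.1 z.2) (Ico 0 T' ×ˢ univ) (t, x) :=
      h1.mono_of_mem_nhdsWithin h2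
    refine h3.congr_of_eventuallyEq ?_ ?_
    · filter_upwards [h2] with z hz
      have := hw z.1 hz.1
      show w z.1 z.2 = u z.1 z.2
      rw [this]
    · show w t x = u t x
      rw [e0]
  · rw [e0]
    exact hu.per t ht
  · rw [e0]
    exact hu.divfree t ht x
  · rw [e0]
    exact hu.mem t ht
  · have h1 := hu.eq t ⟨h0, ht.2⟩ m
    have h2 : ∀ x i, deriv (fun s => w s x i) t = deriv (fun s => u s x i) t := by
      intro x i
      refine Filter.EventuallyEq.deriv_eq ?_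
      filter_upwards [Ioo_mem_nhds h0 ht.2] with s hs
      rw [hw s ⟨hs.1.le, hs.2⟩]
    simp only [h2, e0]
    exact h1

/-- near `t > t₀`, the function `w` is a translate of a solution `U` -/
theorem glu_at2 {φ : ℕ → V → V} {ν τ t₀ : ℝ} {U w : ℝ → V → V} (hU : IsGal φ ν τ U)
    (hw : ∀ s ∈ Ico 0 τ, w (t₀ + s) = U s) {t : ℝ} (ht : t ∈ Ioo t₀ (t₀ + τ)) :
    GluAt φ ν (t₀ + τ) w t := by
  have hw' : ∀ s ∈ Ico t₀ (t₀ + τ), w s = U (s - t₀) := by
    intro s hs
    have := hw (s - t₀) ⟨by linarith [hs.1], by linarith [hs.2]⟩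
    rw [← this]
    congr 1
    ring
  have ht' : t - t₀ ∈ Ioo 0 τ := ⟨by linarith [ht.1], by linarith [ht.2]⟩
  have ht'' : t - t₀ ∈ Ico 0 τ := ⟨ht'.1.le, ht'.2⟩
  have e0 := hw' t ⟨ht.1.le, ht.2⟩
  refine ⟨fun x => ?_, ?_, fun x => ?_, ?_, fun h0 m => ?_⟩
  · have h1 : ContDiffWithinAt ℝ ∞ (fun z : ℝ × V => U z.1 z.2) (Ico 0 τ ×ˢ univ)
        (t - t₀, x) := hU.smooth (t - t₀, x) ⟨ht'', mem_univ _⟩
    have h4 : ContDiffWithinAt ℝ ∞ (fun z : ℝ × V => ((z.1 - t₀, z.2) : ℝ × V))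
        (Ico t₀ (t₀ + τ) ×ˢ univ) (t, x) :=
      ((contDiff_fst.sub contDiff_const).prodMk contDiff_snd).contDiffWithinAt
    have h5 : ContDiffWithinAt ℝ ∞
        ((fun z : ℝ × V => U z.1 z.2) ∘ (fun z : ℝ × V => ((z.1 - t₀, z.2) : ℝ × V)))
        (Ico t₀ (t₀ + τ) ×ˢ univ) (t, x) :=
      ContDiffWithinAt.comp (t := Ico 0 τ ×ˢ (univ : Set V)) (t, x) h1 h4
        (fun z hz => ⟨⟨by linarith [hz.1.1], by linarith [hz.1.2]⟩, mem_univ _⟩)
    have h2 : Ico t₀ (t₀ + τ) ×ˢ (univ : Set V) ∈ 𝓝[Ico 0 (t₀ + τ) ×ˢ univ] (t, x) := by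
      refine mem_nhdsWithin.2 ⟨Ioi t₀ ×ˢ univ, isOpen_Ioi.prod isOpen_univ,
        ⟨ht.1, mem_univ _⟩, ?_⟩
      rintro ⟨s, y⟩ ⟨⟨hs, -⟩, ⟨hs', -⟩⟩
      exact ⟨⟨le_of_lt hs, hs'.2⟩, mem_univ _⟩
    have h3 := h5.mono_of_mem_nhdsWithin h2
    refine h3.congr_of_eventuallyEq ?_ ?_
    · filter_upwards [h2] with z hz
      have := hw' z.1 hz.1
      show w z.1 z.2 = U (z.1 - t₀) z.2
      rw [this]
    · show w t x = U (t - t₀) x
      rw [e0]
  · rw [e0]
    exact hU.per _ ht''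
  · rw [e0]
    exact hU.divfree _ ht'' x
  · rw [e0]
    exact hU.mem _ ht''
  · have h1 := hU.eq (t - t₀) ht' m
    have h2 : ∀ x i, deriv (fun s => w s x i) t = deriv (fun s => U s x i) (t - t₀) := by
      intro x i
      have e1 : deriv (fun s => w s x i) t = deriv (fun s => U (s - t₀) x i) t := by
        refine Filter.EventuallyEq.deriv_eq ?_
        filter_upwards [Ioo_mem_nhds ht.1 ht.2] with s hs
        rw [hw' s ⟨hs.1.le, hs.2⟩]
      rw [e1]
      exact deriv_comp_sub_const (f := fun s => U s x i) t₀ t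
    simp only [h2, e0]
    exact h1

/-- **Task GB63.** -/
theorem s_glu (h : S_uni) : S_glu := by
  intro φ c p g hb ν T t₀ τ u U hν h0 h1 h2 hu hU hU0
  have hτ : T - t₀ ≤ τ := by linarith
  have key : ∀ t ∈ Ico 0 (T - t₀), u (t₀ + t) = U t := by
    intro t ht
    have e1 := h φ c p g hb ν (T - t₀) (fun t x => u (t₀ + t) x) U hν (glu_tsh hu h0)
      (glu_mono hU hτ) (by
        show (fun x => u (t₀ + 0) x) = U 0
        rw [add_zero, hU0]) t ht
    exact e1
  set w : ℝ → V → V := fun t => if t < T then u t else U (t - t₀) with hw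
  have hw1 : ∀ s ∈ Ico 0 T, w s = u s := by
    intro s hs
    simp only [hw]
    rw [if_pos hs.2]
  have hw2 : ∀ s ∈ Ico 0 τ, w (t₀ + s) = U s := by
    intro s hs
    simp only [hw]
    split_ifs with hc
    · exact key s ⟨hs.1, by linarith⟩
    · congr 1
      ring
  refine ⟨w, glu_of fun t ht => ?_, hw1⟩
  by_cases hc : t < T
  · exact glu_at1 hu hw1 ⟨ht.1, hc⟩
  · exact glu_at2 hU hw2 ⟨by linarith [not_lt.1 hc], ht.2⟩

end Pool.Agent.H226.GB

end

/-! ## Str -/

section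

/-!
Bounds of the strain.
-/

open Filter Topology

namespace Pool.Agent.H226.GB

theorem str_RR (m : ℕ) : (RR m : ℝ) = 2 ^ ((m + 2) ^ 3) := by
  unfold RR
  push_cast
  rfl

theorem str_RR_pos (m : ℕ) : (0 : ℝ) < RR m := by
  rw [str_RR]
  positivity

theorem str_step (m : ℕ) : 2 ^ (m + 2) * (RR m : ℝ) ^ 4 ≤ (RR (m + 1) : ℝ) ^ 4 := by
  rw [str_RR, str_RR, ← pow_mul, ← pow_mul, ← pow_add]
  refine pow_le_pow_right₀ (by norm_num) ?_
  nlinarith [Nat.zero_le m, Nat.zero_le (m ^ 2)]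

theorem str_sum (m : ℕ) : 2 ^ m * ∑ n ∈ Finset.range m, (RR n : ℝ) ^ 4 ≤ (RR m : ℝ) ^ 4 := by
  induction m with
  | zero =>
    rw [Finset.sum_range_zero, mul_zero]
    positivity
  | succ m ih =>
    rw [Finset.sum_range_succ]
    have h1 := str_step m
    have h2 : (1 : ℝ) ≤ 2 ^ m := one_le_pow₀ (by norm_num)
    have h3 : (0 : ℝ) ≤ (RR m : ℝ) ^ 4 := by positivity
    have h4 : (2 : ℝ) ^ (m + 1) = 2 * 2 ^ m := by ring
    have h5 : (2 : ℝ) ^ (m + 2) = 4 * 2 ^ m := by ring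
    rw [h5] at h1
    rw [h4]
    nlinarith

theorem str_part1 (ν K : ℝ) (hν : 0 < ν) (hK : 0 ≤ K) : ∃ Λ : ℝ, 0 ≤ Λ ∧ ∀ a : ℕ → ℝ,
    (∀ m, (RR m : ℝ) * |a m| ≤ K) →
    ∀ m, ∑ n ∈ Finset.range m, Gm n * |a n| ≤ ν * (RR m : ℝ) ^ 4 + Λ := by
  obtain ⟨m1, hm1⟩ := pow_unbounded_of_one_lt (2 ^ 10 * K / ν) (one_lt_two (α := ℝ))
  rw [div_lt_iff₀ hν] at hm1
  refine ⟨2 ^ 10 * K * ∑ n ∈ Finset.range m1, (RR n : ℝ) ^ 4, ?_, ?_⟩
  · exact mul_nonneg (by positivity) (Finset.sum_nonneg fun n _ => by positivity)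
  intro a ha m
  have h1 : ∑ n ∈ Finset.range m, Gm n * |a n| ≤
      2 ^ 10 * K * ∑ n ∈ Finset.range m, (RR n : ℝ) ^ 4 := by
    rw [Finset.mul_sum]
    apply Finset.sum_le_sum
    intro n _
    unfold Gm
    have h2 := ha n
    have h3 : (0 : ℝ) ≤ 2 ^ 10 * (RR n : ℝ) ^ 4 := by positivity
    calc 2 ^ 10 * (RR n : ℝ) ^ 5 * |a n| = 2 ^ 10 * (RR n : ℝ) ^ 4 * ((RR n : ℝ) * |a n|) := by ring
      _ ≤ 2 ^ 10 * (RR n : ℝ) ^ 4 * K := mul_le_mul_of_nonneg_left h2 h3
      _ = _ := by ring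
  refine h1.trans ?_
  have hR : (0 : ℝ) ≤ (RR m : ℝ) ^ 4 := by positivity
  rcases le_total m1 m with hm | hm
  · have h2 := str_sum m
    have h3 : (2 : ℝ) ^ m1 ≤ 2 ^ m := pow_le_pow_right₀ (by norm_num) hm
    have h4 : 0 ≤ ∑ n ∈ Finset.range m, (RR n : ℝ) ^ 4 := Finset.sum_nonneg fun n _ => by positivity
    have h5 : 0 ≤ 2 ^ 10 * K * ∑ n ∈ Finset.range m1, (RR n : ℝ) ^ 4 :=
      mul_nonneg (by positivity) (Finset.sum_nonneg fun n _ => by positivity)
    have h6 : 2 ^ 10 * K * ∑ n ∈ Finset.range m, (RR n : ℝ) ^ 4 ≤ ν * (RR m : ℝ) ^ 4 := by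
      calc 2 ^ 10 * K * ∑ n ∈ Finset.range m, (RR n : ℝ) ^ 4
          ≤ (2 ^ m * ν) * ∑ n ∈ Finset.range m, (RR n : ℝ) ^ 4 := by
            refine mul_le_mul_of_nonneg_right ?_ h4
            exact hm1.le.trans (mul_le_mul_of_nonneg_right h3 hν.le)
        _ = ν * (2 ^ m * ∑ n ∈ Finset.range m, (RR n : ℝ) ^ 4) := by ring
        _ ≤ _ := mul_le_mul_of_nonneg_left h2 hν.le
    linarith
  · have h2 : ∑ n ∈ Finset.range m, (RR n : ℝ) ^ 4 ≤ ∑ n ∈ Finset.range m1, (RR n : ℝ) ^ 4 :=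
      Finset.sum_le_sum_of_subset_of_nonneg (Finset.range_mono hm) fun n _ _ => by positivity
    have h3 : 2 ^ 10 * K * ∑ n ∈ Finset.range m, (RR n : ℝ) ^ 4 ≤
        2 ^ 10 * K * ∑ n ∈ Finset.range m1, (RR n : ℝ) ^ 4 :=
      mul_le_mul_of_nonneg_left h2 (by positivity)
    have h4 : 0 ≤ ν * (RR m : ℝ) ^ 4 := mul_nonneg hν.le hR
    linarith

theorem str_part2 (r K : ℝ) (hr : 5 / 2 < r) (hK : 0 ≤ K) : ∃ Λ : ℝ, 0 ≤ Λ ∧ ∀ a : ℕ → ℝ,
    (∀ m, (RR m : ℝ) ^ (2 * r) * |a m| ≤ K) →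
    ∀ m, ∑ n ∈ Finset.range m, Gm n * |a n| ≤ Λ := by
  set x : ℝ := (2 : ℝ) ^ (5 - 2 * r) with hx
  have hx0 : 0 ≤ x := Real.rpow_nonneg (by norm_num) _
  have hx1 : x < 1 := Real.rpow_lt_one_of_one_lt_of_neg (by norm_num) (by linarith)
  refine ⟨2 ^ 10 * K * ∑' n : ℕ, x ^ n, ?_, ?_⟩
  · exact mul_nonneg (by positivity) (tsum_nonneg fun n => pow_nonneg hx0 n)
  intro a ha m
  have h1 : ∀ n : ℕ, Gm n * |a n| ≤ 2 ^ 10 * K * x ^ n := by
    intro n
    have hR := str_RR_pos n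
    have hRn : (2 : ℝ) ^ n ≤ RR n := by
      rw [str_RR]
      refine pow_le_pow_right₀ (by norm_num) ?_
      nlinarith [Nat.zero_le n, Nat.zero_le (n ^ 2), Nat.zero_le (n ^ 3)]
    have h2 : (RR n : ℝ) ^ 5 = (RR n : ℝ) ^ (5 - 2 * r) * (RR n : ℝ) ^ (2 * r) := by
      rw [← Real.rpow_add hR, sub_add_cancel]
      exact_mod_cast (Real.rpow_natCast (RR n : ℝ) 5).symm
    have h3 : (RR n : ℝ) ^ (5 - 2 * r) ≤ x ^ n := by
      have h4 : x ^ n = ((2 : ℝ) ^ n) ^ (5 - 2 * r) := by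
        rw [hx, ← Real.rpow_natCast, ← Real.rpow_natCast, ← Real.rpow_mul (by norm_num),
          ← Real.rpow_mul (by norm_num), mul_comm]
      rw [h4]
      exact Real.rpow_le_rpow_of_nonpos (by positivity) hRn (by linarith)
    unfold Gm
    calc 2 ^ 10 * (RR n : ℝ) ^ 5 * |a n| =
        2 ^ 10 * (RR n : ℝ) ^ (5 - 2 * r) * ((RR n : ℝ) ^ (2 * r) * |a n|) := by
          rw [h2]
          ring
      _ ≤ 2 ^ 10 * (RR n : ℝ) ^ (5 - 2 * r) * K :=
          mul_le_mul_of_nonneg_left (ha n) (mul_nonneg (by norm_num) (Real.rpow_nonneg hR.le _))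
      _ ≤ 2 ^ 10 * x ^ n * K :=
          mul_le_mul_of_nonneg_right (mul_le_mul_of_nonneg_left h3 (by norm_num)) hK
      _ = _ := by ring
  calc ∑ n ∈ Finset.range m, Gm n * |a n| ≤ ∑ n ∈ Finset.range m, 2 ^ 10 * K * x ^ n :=
        Finset.sum_le_sum fun n _ => h1 n
    _ = 2 ^ 10 * K * ∑ n ∈ Finset.range m, x ^ n := by rw [Finset.mul_sum]
    _ ≤ _ := by
        refine mul_le_mul_of_nonneg_left ?_ (by positivity)
        exact (summable_geometric_of_lt_one hx0 hx1).sum_le_tsum _ fun n _ => pow_nonneg hx0 n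

theorem s_str : S_str := ⟨fun ν K hν hK => str_part1 ν K hν hK, fun r K hr hK =>
  str_part2 r K hr hK⟩

end Pool.Agent.H226.GB

end

/-! ## Bup -/

section

/-!
Blow-up of the critical norms at the maximal time (assembly).
-/

set_option autoImplicit false

open MeasureTheory Set Filter Topology
open scoped ContDiff ENNReal
open H459R3.NS

namespace Pool.Agent.H226.GB

/-- the Fourier sums are nonnegative -/
theorem bup_fq (f : V → V) (k : Fin 3 → ℤ) : 0 ≤ fq f k :=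
  Finset.sum_nonneg fun _ _ => add_nonneg (sq_nonneg _) (sq_nonneg _)

/-- the Sobolev norms are monotone in the exponent -/
theorem bup_mono {s r : ℝ} (h : s ≤ r) (f : V → V) : hs s f ≤ hs r f := by
  unfold hs
  refine ENNReal.tsum_le_tsum fun k => ENNReal.ofReal_le_ofReal ?_
  refine mul_le_mul_of_nonneg_right ?_ (bup_fq f k)
  refine Real.rpow_le_rpow_of_exponent_le ?_ h
  have : 0 ≤ ∑ j, (k j : ℝ) ^ 2 := Finset.sum_nonneg fun j _ => sq_nonneg _
  linarith

/-- the coefficients of the rescaled field -/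
theorem bup_ip (hI : S_int) (hb : Basis phi cc pp gg) {p : ℕ} (hp : 1 ≤ p) {v : V → V}
    (hV : ∀ i, SP (fun x => ((p : ℝ) • v ((p : ℝ)⁻¹ • x)) i)) (m : ℕ) :
    ip (fun x => (p : ℝ) • v ((p : ℝ)⁻¹ • x)) (phi m) =
      p * ∑ i, ∫ x in cube, v x i * phi m ((p : ℝ) • x) i := by
  have hp0 : (p : ℝ) ≠ 0 := by
    have : (1 : ℝ) ≤ p := by exact_mod_cast hp
    positivity
  unfold ip
  rw [Finset.mul_sum]
  refine Finset.sum_congr rfl fun i _ => ?_
  have h1 := hI.1 (fun x => ((p : ℝ) • v ((p : ℝ)⁻¹ • x)) i * phi m x i) ((hV i).mul (hb.sp m i)) p hp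
  rw [← h1, ← integral_const_mul]
  refine integral_congr_ae (Eventually.of_forall fun x => ?_)
  have hx : (p : ℝ)⁻¹ • (p : ℝ) • x = x := by
    rw [smul_smul, inv_mul_cancel₀ hp0, one_smul]
  show ((p : ℝ) • v ((p : ℝ)⁻¹ • (p : ℝ) • x)) i * phi m ((p : ℝ) • x) i =
    (p : ℝ) * (v x i * phi m ((p : ℝ) • x) i)
  rw [hx, Pi.smul_apply, smul_eq_mul, mul_assoc]

/-- a bound of the Sobolev norm bounds the coefficients -/
theorem bup_coef (h5 : S_hsb) {p : ℕ} (hp : 1 ≤ p) {s : ℝ} (hs0 : 0 ≤ s) : ∃ C : ℝ, 0 ≤ C ∧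
    ∀ (f : V → V) (B : ℝ), 0 ≤ B → (∀ i, SP (fun x => f x i)) → hs s f ≤ ENNReal.ofReal B →
      ∀ m : ℕ, (RR m : ℝ) ^ (2 * s) * |∑ i, ∫ x in cube, f x i * phi m ((p : ℝ) • x) i| ≤
        Real.sqrt (C * B) := by
  obtain ⟨C, hC, h⟩ := h5 p s hp hs0
  refine ⟨C, hC, fun f B hB hf hfB m => ?_⟩
  obtain ⟨b, hbd⟩ : ∃ b : ℕ → ℝ, ∀ m, b m = ∑ i, ∫ x in cube, f x i * phi m ((p : ℝ) • x) i :=
    ⟨_, fun _ => rfl⟩
  rw [← hbd]
  have h1 := h f hf (m + 1)
  simp only [← hbd] at h1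
  have h2 : ENNReal.ofReal (∑ m ∈ Finset.range (m + 1), (RR m : ℝ) ^ (4 * s) * b m ^ 2) ≤
      ENNReal.ofReal (C * B) := by
    rw [ENNReal.ofReal_mul hC]
    exact h1.trans (mul_le_mul_right hfB _)
  rw [ENNReal.ofReal_le_ofReal_iff (mul_nonneg hC hB)] at h2
  have h0 : ∀ m : ℕ, 0 ≤ (RR m : ℝ) ^ (4 * s) * b m ^ 2 := fun m =>
    mul_nonneg (Real.rpow_nonneg (Nat.cast_nonneg _) _) (sq_nonneg _)
  have h3 : (RR m : ℝ) ^ (4 * s) * b m ^ 2 ≤ C * B :=
    (Finset.single_le_sum (f := fun m => (RR m : ℝ) ^ (4 * s) * b m ^ 2) (fun m _ => h0 m)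
      (Finset.mem_range.2 (Nat.lt_succ_self m))).trans h2
  apply Real.le_sqrt_of_sq_le
  have h4 : ((RR m : ℝ) ^ (2 * s) * |b m|) ^ 2 = (RR m : ℝ) ^ (4 * s) * b m ^ 2 := by
    rw [mul_pow, sq_abs, ← Real.rpow_natCast ((RR m : ℝ) ^ (2 * s)) 2, ← Real.rpow_mul (Nat.cast_nonneg _)]
    congr 2
    push_cast
    ring
  rw [h4]
  exact h3

theorem s_bup (h1 : S_cri) (h2 : S_str) (h3 : S_scl) (h4 : S_scl2) (h5 : S_hsb) (hI : S_int)
    (hg : S_gg) (hb : Basis phi cc pp gg) : S_bup := by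
  intro p ν T u hp hν hT hu hmax r hr B
  by_contra hcon
  push Not at hcon
  have hp1 : (1 : ℝ) ≤ p := by exact_mod_cast hp
  have hp0 : (p : ℝ) ≠ 0 := by positivity
  have hU := h4 p ν T u hp hu
  set U : ℝ → V → V := fun t x => (p : ℝ) • u t ((p : ℝ)⁻¹ • x) with hUd
  have hν' : 0 ≤ ν * (p : ℝ) ^ 2 := by positivity
  have husp : ∀ t ∈ Ico 0 T, ∀ i, SP (fun x => u t x i) := fun t ht i => uniP_sp hu ht i
  have hUsp : ∀ t ∈ Ico 0 T, ∀ i, SP (fun x => U t x i) := fun t ht i => uni_sp hU ht i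
  have hip : ∀ t ∈ Ico 0 T, ∀ m, ip (U t) (phi m) =
      p * ∑ i, ∫ x in cube, u t x i * phi m ((p : ℝ) • x) i := fun t ht m =>
    bup_ip hI hb hp (hUsp t ht) m
  obtain ⟨B', hB'0, hB'⟩ : ∃ B' : ℝ, 0 ≤ B' ∧ ∀ t ∈ Ico 0 T, hs r (u t) ≤ ENNReal.ofReal B' :=
    ⟨max B 0, le_max_right _ _, fun t ht => (hcon t ht).trans
      (ENNReal.ofReal_le_ofReal (le_max_left _ _))⟩
  -- the strain is dominated by the dissipation
  obtain ⟨Λ, hΛ, hdom⟩ : ∃ Λ : ℝ, 0 ≤ Λ ∧ ∀ t ∈ Ico 0 T, ∀ m,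
      ∑ n ∈ Finset.range m, Gm n * |ip (U t) (phi n)| ≤ ν * (p : ℝ) ^ 2 * gg m + Λ := by
    rcases hr with hr | ⟨hν0, hr⟩
    · obtain ⟨C, hC, hco⟩ := bup_coef h5 hp (s := r) (by linarith)
      obtain ⟨Λ, hΛ, hst⟩ := h2.2 r (p * Real.sqrt (C * B')) hr
        (mul_nonneg (by linarith) (Real.sqrt_nonneg _))
      refine ⟨Λ, hΛ, fun t ht m => ?_⟩
      have h6 := hst (fun n => ip (U t) (phi n)) (fun n => by
        have h7 := hco (u t) B' hB'0 (husp t ht) (hB' t ht) n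
        have h8 := mul_le_mul_of_nonneg_left h7 (by linarith : (0 : ℝ) ≤ p)
        show (RR n : ℝ) ^ (2 * r) * |ip (U t) (phi n)| ≤ _
        rw [hip t ht n, abs_mul, abs_of_nonneg (by linarith : (0 : ℝ) ≤ p)]
        calc (RR n : ℝ) ^ (2 * r) * ((p : ℝ) * |∑ i, ∫ x in cube, u t x i * phi n ((p : ℝ) • x) i|)
            = (p : ℝ) * ((RR n : ℝ) ^ (2 * r) *
                |∑ i, ∫ x in cube, u t x i * phi n ((p : ℝ) • x) i|) := by ring
          _ ≤ _ := h8) m
      have h9 : 0 ≤ ν * (p : ℝ) ^ 2 * gg m := by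
        refine mul_nonneg hν' (le_trans ?_ (hg m).1)
        positivity
      linarith
    · obtain ⟨C, hC, hco⟩ := bup_coef h5 hp (s := 1 / 2) (by norm_num)
      obtain ⟨Λ, hΛ, hst⟩ := h2.1 (ν * (p : ℝ) ^ 2) (p * Real.sqrt (C * B')) (by positivity)
        (mul_nonneg (by linarith) (Real.sqrt_nonneg _))
      refine ⟨Λ, hΛ, fun t ht m => ?_⟩
      have h6 := hst (fun n => ip (U t) (phi n)) (fun n => by
        have h7 := hco (u t) B' hB'0 (husp t ht) ((bup_mono hr (u t)).trans (hB' t ht)) n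
        have h8 := mul_le_mul_of_nonneg_left h7 (by linarith : (0 : ℝ) ≤ p)
        have e1 : (RR n : ℝ) ^ (2 * (1 / 2 : ℝ)) = RR n := by
          rw [mul_one_div_cancel two_ne_zero, Real.rpow_one]
        rw [e1] at h8
        show (RR n : ℝ) * |ip (U t) (phi n)| ≤ _
        rw [hip t ht n, abs_mul, abs_of_nonneg (by linarith : (0 : ℝ) ≤ p)]
        calc (RR n : ℝ) * ((p : ℝ) * |∑ i, ∫ x in cube, u t x i * phi n ((p : ℝ) • x) i|)
            = (p : ℝ) * ((RR n : ℝ) *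
                |∑ i, ∫ x in cube, u t x i * phi n ((p : ℝ) • x) i|) := by ring
          _ ≤ _ := h8) m
      have h9 : ν * (p : ℝ) ^ 2 * (RR m : ℝ) ^ 4 ≤ ν * (p : ℝ) ^ 2 * gg m :=
        mul_le_mul_of_nonneg_left (hg m).1 hν'
      linarith
  obtain ⟨T', U', hTT', hU', hUU'⟩ := h1 (ν * (p : ℝ) ^ 2) T Λ U hν' hT hΛ hU hdom
  have hv := h3 p ν T' U' hp hU'
  have h0 : (fun x => (p : ℝ)⁻¹ • U' 0 ((p : ℝ) • x)) = u 0 := by
    funext x
    rw [hUU' 0 ⟨le_rfl, hT⟩]
    show (p : ℝ)⁻¹ • (p : ℝ) • u 0 ((p : ℝ)⁻¹ • (p : ℝ) • x) = u 0 x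
    rw [smul_smul, inv_mul_cancel₀ hp0, one_smul, smul_smul, inv_mul_cancel₀ hp0, one_smul]
  have h10 := hmax T' _ hv h0
  exact absurd hTT' (not_lt.2 h10)

end Pool.Agent.H226.GB

end

/-! ## Bup3 -/

section

/-!
Blow-up of the norm of `L³` at the maximal time (assembly).
-/

set_option autoImplicit false

open MeasureTheory Set Filter Topology
open scoped ContDiff ENNReal
open H459R3.NS

namespace Pool.Agent.H226.GB

section

attribute [local instance] instMeasureSpaceUnitAddCircle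

/-- integrals of rescaled continuous periodic functions -/
theorem bup3_int {g : V → ℝ} (hper : Per g) (hcont : Continuous g) {p : ℕ} (hp : 1 ≤ p) :
    ∫ x in cube, g ((p : ℝ) • x) = ∫ x in cube, g x := by
  have hc := IntP_lift_continuous hper hcont
  have hmp := IntP_mp_smul p hp
  have h1 : ∫ x in cube, g ((p : ℝ) • x) = ∫ t, IntP_lift g (p • t) := by
    rw [integral_torus fun t => IntP_lift g (p • t)]
    congr 1
    funext x
    rw [← IntP_cov_smul, IntP_lift_cov hper]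
  rw [h1, IntP_torus hper]
  conv_rhs => rw [← hmp.map_eq]
  exact (integral_map hmp.measurable.aemeasurable hc.aestronglyMeasurable).symm

end

/-- continuous functions on the cube belong to all Lebesgue spaces -/
theorem bup3_memLp {f : V → ℝ} (hf : Continuous f) (q : ℝ≥0∞) :
    MemLp f q (volume.restrict cube) := by
  have hfin := cube_finite
  obtain ⟨M, hM⟩ := (isCompact_Icc : IsCompact (Icc (0 : V) 1)).exists_bound_of_continuousOn
    hf.continuousOn
  refine MemLp.of_bound hf.aestronglyMeasurable M ?_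
  exact ae_restrict_of_forall_mem measurableSet_Icc hM

/-- Hoelder's inequality with the exponents `3` and `3 / 2` -/
theorem bup3_hol {f g : V → ℝ} (hf : Continuous f) (hg : Continuous g) :
    |∫ x in cube, f x * g x| ≤ (∫ x in cube, |f x| ^ (3 : ℝ)) ^ (1 / 3 : ℝ) *
      (∫ x in cube, |g x| ^ (3 / 2 : ℝ)) ^ (1 / (3 / 2) : ℝ) := by
  have hpq : (3 : ℝ).HolderConjugate (3 / 2) := by
    rw [Real.holderConjugate_iff]
    norm_num
  have h := integral_mul_le_Lp_mul_Lq_of_nonneg (μ := volume.restrict cube) hpq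
    (f := fun x => |f x|) (g := fun x => |g x|)
    (Eventually.of_forall fun x => abs_nonneg _) (Eventually.of_forall fun x => abs_nonneg _)
    (bup3_memLp hf.abs _) (bup3_memLp hg.abs _)
  refine le_trans ?_ h
  calc |∫ x in cube, f x * g x| ≤ ∫ x in cube, |f x * g x| := abs_integral_le_integral_abs
    _ = ∫ x in cube, |f x| * |g x| := by simp_rw [abs_mul]

/-- the components and the norm -/
theorem bup3_comp (v : V) (i : Fin 3) : |v i| ^ (3 : ℝ) ≤ (∑ j, v j ^ 2) ^ (3 / 2 : ℝ) := by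
  have h1 : |v i| ^ (3 : ℝ) = (v i ^ 2) ^ (3 / 2 : ℝ) := by
    rw [← sq_abs, ← Real.rpow_natCast (|v i|) 2, ← Real.rpow_mul (abs_nonneg _)]
    norm_num
  rw [h1]
  refine Real.rpow_le_rpow (sq_nonneg _) ?_ (by norm_num)
  exact Finset.single_le_sum (f := fun j => v j ^ 2) (fun j _ => sq_nonneg _) (Finset.mem_univ i)

/-- a bound of the norm of `L³` bounds the coefficients -/
theorem bup3_coef (h0 : S_l3p) (hb : Basis phi cc pp gg) {p : ℕ} (hp : 1 ≤ p) :
    ∃ C : ℝ, 0 ≤ C ∧ ∀ (f : V → V) (B : ℝ), 0 ≤ B → (∀ i, SP (fun x => f x i)) →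
      ∫ x in cube, (∑ i, f x i ^ 2) ^ (3 / 2 : ℝ) ≤ B →
      ∀ m : ℕ, (RR m : ℝ) * |∑ i, ∫ x in cube, f x i * phi m ((p : ℝ) • x) i| ≤
        C * B ^ (1 / 3 : ℝ) := by
  obtain ⟨C, hC, h⟩ := h0
  refine ⟨3 * C ^ (2 / 3 : ℝ), by positivity, fun f B hB hf hfB m => ?_⟩
  have hR : (0 : ℝ) < RR m := by
    unfold RR
    positivity
  have key : ∀ i, |∫ x in cube, f x i * phi m ((p : ℝ) • x) i| ≤
      B ^ (1 / 3 : ℝ) * (C ^ (2 / 3 : ℝ) * (RR m : ℝ)⁻¹) := by
    intro i
    have hφ : SP (fun x => phi m x i) := hb.sp m i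
    have hφc : Continuous (fun x => phi m x i) := hφ.cont
    have hfc : Continuous (fun x => f x i) := (hf i).cont
    have hscal : Continuous (fun x : V => phi m ((p : ℝ) • x) i) :=
      hφc.comp (continuous_const_smul (p : ℝ))
    refine (bup3_hol hfc hscal).trans ?_
    have hsum : Continuous (fun x => (∑ j, f x j ^ 2) ^ (3 / 2 : ℝ)) := by
      refine Continuous.rpow_const ?_ (fun x => Or.inr (by norm_num))
      exact continuous_finsetSum _ fun j _ => (hf j).cont.pow 2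
    have hpow : Continuous (fun x => |f x i| ^ (3 : ℝ)) :=
      hfc.abs.rpow_const (fun x => Or.inr (by norm_num))
    have a1 : ∫ x in cube, |f x i| ^ (3 : ℝ) ≤ B := by
      refine le_trans (integral_mono (integrableOn_cube hpow) (integrableOn_cube hsum) ?_) hfB
      intro x
      exact bup3_comp (f x) i
    have a0 : 0 ≤ ∫ x in cube, |f x i| ^ (3 : ℝ) :=
      integral_nonneg fun x => Real.rpow_nonneg (abs_nonneg _) _
    have e1 : ∫ x in cube, |phi m ((p : ℝ) • x) i| ^ (3 / 2 : ℝ) =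
        ∫ x in cube, |phi m x i| ^ (3 / 2 : ℝ) := by
      refine bup3_int (g := fun x => |phi m x i| ^ (3 / 2 : ℝ)) ?_ ?_ hp
      · intro j x
        have h2 := hφ.per j x
        show |phi m (x + Pi.single j 1) i| ^ (3 / 2 : ℝ) = |phi m x i| ^ (3 / 2 : ℝ)
        rw [h2]
      · exact hφc.abs.rpow_const (fun x => Or.inr (by norm_num))
    have b0 : 0 ≤ ∫ x in cube, |phi m x i| ^ (3 / 2 : ℝ) :=
      integral_nonneg fun x => Real.rpow_nonneg (abs_nonneg _) _
    rw [e1]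
    have e2 : (C * (RR m : ℝ) ^ (-(3 / 2) : ℝ)) ^ (1 / (3 / 2) : ℝ) =
        C ^ (2 / 3 : ℝ) * (RR m : ℝ)⁻¹ := by
      rw [Real.mul_rpow hC (Real.rpow_nonneg hR.le _), ← Real.rpow_mul hR.le]
      have e3 : (-(3 / 2) : ℝ) * (1 / (3 / 2)) = -1 := by norm_num
      have e4 : (1 / (3 / 2) : ℝ) = 2 / 3 := by norm_num
      rw [e3, e4, Real.rpow_neg_one]
    refine mul_le_mul (Real.rpow_le_rpow a0 a1 (by norm_num)) ?_ (Real.rpow_nonneg b0 _)
      (Real.rpow_nonneg hB _)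
    rw [← e2]
    exact Real.rpow_le_rpow b0 (h m i) (by norm_num)
  have h3 : |∑ i, ∫ x in cube, f x i * phi m ((p : ℝ) • x) i| ≤
      3 * (B ^ (1 / 3 : ℝ) * (C ^ (2 / 3 : ℝ) * (RR m : ℝ)⁻¹)) := by
    refine (Finset.abs_sum_le_sum_abs _ _).trans ?_
    refine (Finset.sum_le_sum fun i _ => key i).trans ?_
    rw [Finset.sum_const, Finset.card_univ, Fintype.card_fin, nsmul_eq_mul]
    norm_num
  calc (RR m : ℝ) * |∑ i, ∫ x in cube, f x i * phi m ((p : ℝ) • x) i| ≤
      (RR m : ℝ) * (3 * (B ^ (1 / 3 : ℝ) * (C ^ (2 / 3 : ℝ) * (RR m : ℝ)⁻¹))) :=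
        mul_le_mul_of_nonneg_left h3 hR.le
    _ = 3 * C ^ (2 / 3 : ℝ) * B ^ (1 / 3 : ℝ) := by
        field_simp

theorem s_bup3 (h0 : S_l3p) (h1 : S_cri) (h2 : S_str) (h3 : S_scl) (h4 : S_scl2) (hI : S_int)
    (hg : S_gg) (hb : Basis phi cc pp gg) : S_bup3 := by
  intro p ν T u hp hν0 hT hu hmax B
  by_contra hcon
  push Not at hcon
  have hν : 0 ≤ ν := hν0.le
  have hp1 : (1 : ℝ) ≤ p := by exact_mod_cast hp
  have hp0 : (p : ℝ) ≠ 0 := by positivity
  have hU := h4 p ν T u hp hu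
  set U : ℝ → V → V := fun t x => (p : ℝ) • u t ((p : ℝ)⁻¹ • x) with hUd
  have hν' : 0 ≤ ν * (p : ℝ) ^ 2 := by positivity
  have husp : ∀ t ∈ Ico 0 T, ∀ i, SP (fun x => u t x i) := fun t ht i => uniP_sp hu ht i
  have hUsp : ∀ t ∈ Ico 0 T, ∀ i, SP (fun x => U t x i) := fun t ht i => uni_sp hU ht i
  have hip : ∀ t ∈ Ico 0 T, ∀ m, ip (U t) (phi m) =
      p * ∑ i, ∫ x in cube, u t x i * phi m ((p : ℝ) • x) i := fun t ht m =>
    bup_ip hI hb hp (hUsp t ht) m
  obtain ⟨B', hB'0, hB'⟩ : ∃ B' : ℝ, 0 ≤ B' ∧ ∀ t ∈ Ico 0 T,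
      ∫ x in cube, (∑ i, u t x i ^ 2) ^ (3 / 2 : ℝ) ≤ B' :=
    ⟨max B 0, le_max_right _ _, fun t ht => (hcon t ht).trans (le_max_left _ _)⟩
  -- the strain is dominated by the dissipation
  obtain ⟨Λ, hΛ, hdom⟩ : ∃ Λ : ℝ, 0 ≤ Λ ∧ ∀ t ∈ Ico 0 T, ∀ m,
      ∑ n ∈ Finset.range m, Gm n * |ip (U t) (phi n)| ≤ ν * (p : ℝ) ^ 2 * gg m + Λ := by
    obtain ⟨C, hC, hco⟩ := bup3_coef h0 hb hp
    obtain ⟨Λ, hΛ, hst⟩ := h2.1 (ν * (p : ℝ) ^ 2) (p * (C * B' ^ (1 / 3 : ℝ))) (by positivity)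
      (mul_nonneg (by linarith) (mul_nonneg hC (Real.rpow_nonneg hB'0 _)))
    refine ⟨Λ, hΛ, fun t ht m => ?_⟩
    have h6 := hst (fun n => ip (U t) (phi n)) (fun n => by
      have h7 := hco (u t) B' hB'0 (husp t ht) (hB' t ht) n
      have h8 := mul_le_mul_of_nonneg_left h7 (by linarith : (0 : ℝ) ≤ p)
      show (RR n : ℝ) * |ip (U t) (phi n)| ≤ _
      rw [hip t ht n, abs_mul, abs_of_nonneg (by linarith : (0 : ℝ) ≤ p)]
      calc (RR n : ℝ) * ((p : ℝ) * |∑ i, ∫ x in cube, u t x i * phi n ((p : ℝ) • x) i|)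
          = (p : ℝ) * ((RR n : ℝ) *
              |∑ i, ∫ x in cube, u t x i * phi n ((p : ℝ) • x) i|) := by ring
        _ ≤ _ := h8) m
    have h9 : ν * (p : ℝ) ^ 2 * (RR m : ℝ) ^ 4 ≤ ν * (p : ℝ) ^ 2 * gg m :=
      mul_le_mul_of_nonneg_left (hg m).1 hν'
    linarith
  obtain ⟨T', U', hTT', hU', hUU'⟩ := h1 (ν * (p : ℝ) ^ 2) T Λ U hν' hT hΛ hU hdom
  have hv := h3 p ν T' U' hp hU'
  have h0' : (fun x => (p : ℝ)⁻¹ • U' 0 ((p : ℝ) • x)) = u 0 := by
    funext x
    rw [hUU' 0 ⟨le_rfl, hT⟩]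
    show (p : ℝ)⁻¹ • (p : ℝ) • u 0 ((p : ℝ)⁻¹ • (p : ℝ) • x) = u 0 x
    rw [smul_smul, inv_mul_cancel₀ hp0, one_smul, smul_smul, inv_mul_cancel₀ hp0, one_smul]
  have h10 := hmax T' _ hv h0'
  exact absurd hTT' (not_lt.2 h10)

end Pool.Agent.H226.GB

end

/-! ## Bkm -/

section

/-!
The criterion of Beale, Kato and Majda (assembly; helper142 for helper226).
-/

set_option autoImplicit false

open MeasureTheory Set Filter Topology
open scoped ContDiff ENNReal
open H459R3.NS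

namespace Pool.Agent.H226.GB

theorem bkm_pd {q : V → ℝ} (hq : ContDiff ℝ ∞ q) {p : ℝ} (hp : p ≠ 0) (j : Fin 3) (x : V) :
    pd j (fun y => p * q (p⁻¹ • y)) x = pd j q (p⁻¹ • x) := by
  unfold pd
  have hd : DifferentiableAt ℝ q (p⁻¹ • x) := (hq.differentiable (by simp)) _
  have h1 : HasFDerivAt (fun y : V => p⁻¹ • y) (p⁻¹ • ContinuousLinearMap.id ℝ V) x :=
    (p⁻¹ • ContinuousLinearMap.id ℝ V : V →L[ℝ] V).hasFDerivAt
  have h3 : HasFDerivAt (fun y => p * q (p⁻¹ • y))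
      (p • (fderiv ℝ q (p⁻¹ • x)).comp (p⁻¹ • ContinuousLinearMap.id ℝ V)) x :=
    (hd.hasFDerivAt.comp x h1).const_mul p
  rw [h3.fderiv, ContinuousLinearMap.smul_apply, ContinuousLinearMap.comp_apply,
    ContinuousLinearMap.smul_apply, ContinuousLinearMap.id_apply, map_smul, smul_smul,
    mul_inv_cancel₀ hp, one_smul]

/-- the vorticity of the rescaled field -/
theorem bkm_vo1 {v : V → V} (hv : ∀ i, SP (fun x => v x i)) {p : ℝ} (hp : p ≠ 0) (x : V) :
    vo1 (fun x => p • v (p⁻¹ • x)) x = vo1 v (p⁻¹ • x) := by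
  unfold vo1
  have h1 := bkm_pd (hv 0).smooth hp 2 x
  have h2 := bkm_pd (hv 2).smooth hp 0 x
  exact congrArg₂ (fun a b : ℝ => a - b) h1 h2

/-- the fields of the span have finitely many coefficients -/
theorem bkm_fin (hb : Basis phi cc pp gg) {p : ℕ} (hp : 1 ≤ p) {w : V → V}
    (hw : w ∈ Submodule.span ℝ (Sc p)) :
    (∀ i, SP (fun x => w ((p : ℝ)⁻¹ • x) i)) ∧
      ∃ M : ℕ, ∀ m, M ≤ m → ip (fun x => w ((p : ℝ)⁻¹ • x)) (phi m) = 0 := by
  have hp0 : (p : ℝ) ≠ 0 := by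
    have : (1 : ℝ) ≤ p := by exact_mod_cast hp
    positivity
  induction hw using Submodule.span_induction with
  | mem w h =>
    obtain ⟨n, h⟩ := h
    have e : (fun x => w ((p : ℝ)⁻¹ • x)) = phi n := by
      funext x
      rw [h, smul_smul, mul_inv_cancel₀ hp0, one_smul]
    have e2 : ∀ x, w ((p : ℝ)⁻¹ • x) = phi n x := fun x => congrFun e x
    refine ⟨fun i => ?_, n + 1, fun m hm => ?_⟩
    · simp only [e2]
      exact hb.sp n i
    · rw [e, hb.on, if_neg (by omega)]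
  | zero =>
    refine ⟨fun i => ⟨contDiff_const, fun j x => rfl⟩, 0, fun m _ => ?_⟩
    unfold ip
    simp
  | add w1 w2 _ _ ih1 ih2 =>
    obtain ⟨a1, M1, b1⟩ := ih1
    obtain ⟨a2, M2, b2⟩ := ih2
    refine ⟨fun i => SP.add (a1 i) (a2 i), max M1 M2, fun m hm => ?_⟩
    have c1 := b1 m ((le_max_left _ _).trans hm)
    have c2 := b2 m ((le_max_right _ _).trans hm)
    unfold ip at c1 c2 ⊢
    have e1 : ∀ i, ∫ x in cube, (w1 + w2) ((p : ℝ)⁻¹ • x) i * phi m x i =
        (∫ x in cube, w1 ((p : ℝ)⁻¹ • x) i * phi m x i) +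
          ∫ x in cube, w2 ((p : ℝ)⁻¹ • x) i * phi m x i := by
      intro i
      have e2 : ∀ x, (w1 + w2) ((p : ℝ)⁻¹ • x) i * phi m x i =
          w1 ((p : ℝ)⁻¹ • x) i * phi m x i + w2 ((p : ℝ)⁻¹ • x) i * phi m x i := by
        intro x
        rw [Pi.add_apply, Pi.add_apply, add_mul]
      simp_rw [e2]
      exact integral_add ((a1 i).mul (hb.sp m i)).int ((a2 i).mul (hb.sp m i)).int
    rw [Finset.sum_congr rfl fun i _ => e1 i, Finset.sum_add_distrib, c1, c2, add_zero]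
  | smul c w1 _ ih1 =>
    obtain ⟨a1, M1, b1⟩ := ih1
    refine ⟨fun i => uni_smul c (a1 i), M1, fun m hm => ?_⟩
    have c1 := b1 m hm
    unfold ip at c1 ⊢
    have e1 : ∀ i, ∫ x in cube, (c • w1) ((p : ℝ)⁻¹ • x) i * phi m x i =
        c * ∫ x in cube, w1 ((p : ℝ)⁻¹ • x) i * phi m x i := by
      intro i
      have e2 : ∀ x, (c • w1) ((p : ℝ)⁻¹ • x) i * phi m x i =
          c * (w1 ((p : ℝ)⁻¹ • x) i * phi m x i) := by
        intro x
        rw [Pi.smul_apply, Pi.smul_apply, smul_eq_mul]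
        ring
      simp_rw [e2]
      exact integral_const_mul _ _
    rw [Finset.sum_congr rfl fun i _ => e1 i, ← Finset.mul_sum, c1, mul_zero]

/-- a numerical sum -/
theorem bkm_sum (m : ℕ) : ∑ n ∈ Finset.range m, ((n : ℝ) + 2) ^ 9 ≤ ((m : ℝ) + 1) ^ 10 := by
  calc ∑ n ∈ Finset.range m, ((n : ℝ) + 2) ^ 9 ≤ ∑ n ∈ Finset.range m, ((m : ℝ) + 1) ^ 9 := by
        refine Finset.sum_le_sum fun n hn => ?_
        have h : (n : ℝ) + 1 ≤ m := by exact_mod_cast Finset.mem_range.1 hn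
        apply pow_le_pow_left₀ (by positivity)
        linarith
    _ = m * ((m : ℝ) + 1) ^ 9 := by rw [Finset.sum_const, Finset.card_range, nsmul_eq_mul]
    _ ≤ ((m : ℝ) + 1) * ((m : ℝ) + 1) ^ 9 :=
        mul_le_mul_of_nonneg_right (by linarith) (by positivity)
    _ = _ := by ring

/-- the strain at one time -/
theorem bkm_strain {C : ℝ} (hC : 0 ≤ C)
    (h0 : ∀ (f : V → V) (B : ℝ), (∀ i, SP (fun x => f x i)) →
      (∀ x, |vo1 f x| ≤ B) → ∀ m : ℕ, (RR m : ℝ) ^ 5 * |ip f (phi m)| ≤ C * ((m : ℝ) + 2) ^ 9 * B)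
    {f : V → V} (hf : ∀ i, SP (fun x => f x i)) {w : ℝ≥0∞} (hw : ∀ x, ENNReal.ofReal |vo1 f x| ≤ w)
    (m : ℕ) : ENNReal.ofReal (∑ n ∈ Finset.range m, Gm n * |ip f (phi n)|) ≤
      ENNReal.ofReal (2 ^ 10 * (C + 1) * ((m : ℝ) + 1) ^ 10) * w := by
  rcases eq_or_ne w ⊤ with hw1 | hw1
  · rw [hw1, ENNReal.mul_top]
    · exact le_top
    · exact (ENNReal.ofReal_pos.2 (by positivity)).ne'
  · have hB : ∀ x, |vo1 f x| ≤ w.toReal := fun x =>
      (ENNReal.ofReal_le_iff_le_toReal hw1).1 (hw x)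
    have hB0 : 0 ≤ w.toReal := ENNReal.toReal_nonneg
    have h1 := h0 f w.toReal hf hB
    have h2 : ∑ n ∈ Finset.range m, Gm n * |ip f (phi n)| ≤
        2 ^ 10 * (C + 1) * ((m : ℝ) + 1) ^ 10 * w.toReal := by
      calc ∑ n ∈ Finset.range m, Gm n * |ip f (phi n)|
          ≤ ∑ n ∈ Finset.range m, 2 ^ 10 * (C + 1) * w.toReal * ((n : ℝ) + 2) ^ 9 := by
            refine Finset.sum_le_sum fun n _ => ?_
            have h3 := h1 n
            have h4 : C * ((n : ℝ) + 2) ^ 9 * w.toReal ≤ (C + 1) * ((n : ℝ) + 2) ^ 9 * w.toReal := by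
              apply mul_le_mul_of_nonneg_right _ hB0
              apply mul_le_mul_of_nonneg_right _ (by positivity)
              linarith
            calc Gm n * |ip f (phi n)| = 2 ^ 10 * ((RR n : ℝ) ^ 5 * |ip f (phi n)|) := by
                  unfold Gm
                  ring
              _ ≤ 2 ^ 10 * ((C + 1) * ((n : ℝ) + 2) ^ 9 * w.toReal) :=
                  mul_le_mul_of_nonneg_left (h3.trans h4) (by norm_num)
              _ = _ := by ring
        _ = 2 ^ 10 * (C + 1) * w.toReal * ∑ n ∈ Finset.range m, ((n : ℝ) + 2) ^ 9 := by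
            rw [Finset.mul_sum]
        _ ≤ 2 ^ 10 * (C + 1) * w.toReal * ((m : ℝ) + 1) ^ 10 :=
            mul_le_mul_of_nonneg_left (bkm_sum m) (by positivity)
        _ = _ := by ring
    calc ENNReal.ofReal (∑ n ∈ Finset.range m, Gm n * |ip f (phi n)|)
        ≤ ENNReal.ofReal (2 ^ 10 * (C + 1) * ((m : ℝ) + 1) ^ 10 * w.toReal) :=
          ENNReal.ofReal_le_ofReal h2
      _ = ENNReal.ofReal (2 ^ 10 * (C + 1) * ((m : ℝ) + 1) ^ 10) * ENNReal.ofReal w.toReal :=
          ENNReal.ofReal_mul (by positivity)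
      _ = _ := by rw [ENNReal.ofReal_toReal hw1]

/-- the time integral of a nonnegative function, from a bound of its lower integral -/
theorem bkm_int {T t K : ℝ} (ht : t ∈ Ico 0 T) (hK : 0 ≤ K) {F : ℝ → ℝ} {w : ℝ → ℝ≥0∞}
    (hF0 : ∀ s ∈ Ioo 0 T, 0 ≤ F s) (hF : ∀ s ∈ Ioo 0 T, ENNReal.ofReal (F s) ≤ ENNReal.ofReal K * w s)
    (hJ : ∫⁻ s in Ioo 0 T, w s ≠ ⊤) :
    ∫ s in (0 : ℝ)..t, F s ≤ K * (∫⁻ s in Ioo 0 T, w s).toReal := by
  rw [intervalIntegral.integral_of_le ht.1]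
  refine (le_abs_self _).trans ?_
  refine (norm_integral_le_lintegral_norm (μ := volume.restrict (Ioc 0 t)) F).trans ?_
  rw [← ENNReal.toReal_ofReal hK, ← ENNReal.toReal_mul]
  apply ENNReal.toReal_mono (ENNReal.mul_ne_top ENNReal.ofReal_ne_top hJ)
  rw [← lintegral_const_mul' _ _ ENNReal.ofReal_ne_top]
  have hsub : Ioc 0 t ⊆ Ioo 0 T := fun s hs => ⟨hs.1, hs.2.trans_lt ht.2⟩
  refine (lintegral_mono_set hsub).trans ?_
  refine setLIntegral_mono' measurableSet_Ioo fun s hs => ?_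
  rw [Real.norm_of_nonneg (hF0 s hs)]
  exact hF s hs

theorem s_bkm (h0 : S_vor) (h1 : S_cri2) (h3 : S_scl) (h4 : S_scl2) (_hI : S_int)
    (hb : Basis phi cc pp gg) : S_bkm := by
  intro p ν T u hp hν hT hu hspan hmax
  by_contra hJ
  have hp1 : (1 : ℝ) ≤ p := by exact_mod_cast hp
  have hp0 : (p : ℝ) ≠ 0 := by positivity
  obtain ⟨C, hC, h0⟩ := h0
  have hU := h4 p ν T u hp hu
  set U : ℝ → V → V := fun t x => (p : ℝ) • u t ((p : ℝ)⁻¹ • x) with hUd
  have hν' : 0 ≤ ν * (p : ℝ) ^ 2 := by positivity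
  have husp : ∀ t ∈ Ico 0 T, ∀ i, SP (fun x => u t x i) := fun t ht i => uniP_sp hu ht i
  have hUsp : ∀ t ∈ Ico 0 T, ∀ i, SP (fun x => U t x i) := fun t ht i => uni_sp hU ht i
  -- finitely many coefficients at the initial time
  obtain ⟨a1, M, hM⟩ := bkm_fin hb hp hspan
  have hU0 : ∀ m, M ≤ m → ip (U 0) (phi m) = 0 := by
    intro m hm
    have h5 := hM m hm
    unfold ip at h5 ⊢
    have e1 : ∀ i, ∫ x in cube, U 0 x i * phi m x i =
        (p : ℝ) * ∫ x in cube, u 0 ((p : ℝ)⁻¹ • x) i * phi m x i := by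
      intro i
      rw [← integral_const_mul]
      refine integral_congr_ae (Eventually.of_forall fun x => ?_)
      show ((p : ℝ) • u 0 ((p : ℝ)⁻¹ • x)) i * phi m x i =
        (p : ℝ) * (u 0 ((p : ℝ)⁻¹ • x) i * phi m x i)
      rw [Pi.smul_apply, smul_eq_mul, mul_assoc]
    rw [Finset.sum_congr rfl fun i _ => e1 i, ← Finset.mul_sum, h5, mul_zero]
  -- the strain
  have hGm : ∀ n, 0 ≤ Gm n := fun n => by
    unfold Gm
    positivity
  have hst : ∀ t ∈ Ico 0 T, ∀ m : ℕ,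
      ∫ s in (0 : ℝ)..t, ∑ n ∈ Finset.range m, Gm n * |ip (U s) (phi n)| ≤
      (2 ^ 10 * (C + 1) * (∫⁻ t in Ioo 0 T, ⨆ x, ENNReal.ofReal |vo1 (u t) x|).toReal) *
        ((m : ℝ) + 1) ^ 10 := by
    intro t ht m
    have h5 := bkm_int (K := 2 ^ 10 * (C + 1) * ((m : ℝ) + 1) ^ 10) ht (by positivity)
      (F := fun s => ∑ n ∈ Finset.range m, Gm n * |ip (U s) (phi n)|)
      (w := fun t => ⨆ x, ENNReal.ofReal |vo1 (u t) x|)
      (fun s _ => Finset.sum_nonneg fun n _ => mul_nonneg (hGm n) (abs_nonneg _))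
      (fun s hs => by
        have hs' : s ∈ Ico 0 T := ⟨hs.1.le, hs.2⟩
        refine bkm_strain hC h0 (hUsp s hs') (fun x => ?_) m
        have e : vo1 (U s) x = vo1 (u s) ((p : ℝ)⁻¹ • x) := bkm_vo1 (husp s hs') hp0 x
        rw [e]
        exact le_iSup (fun x => ENNReal.ofReal |vo1 (u s) x|) ((p : ℝ)⁻¹ • x)) hJ
    refine h5.trans (le_of_eq ?_)
    ring
  obtain ⟨T', U', hTT', hU', hUU'⟩ := h1 (ν * (p : ℝ) ^ 2) T
    (2 ^ 10 * (C + 1) * (∫⁻ t in Ioo 0 T, ⨆ x, ENNReal.ofReal |vo1 (u t) x|).toReal) M U hν' hT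
    (mul_nonneg (by positivity) ENNReal.toReal_nonneg) hU hU0 hst
  have hv := h3 p ν T' U' hp hU'
  have h0 : (fun x => (p : ℝ)⁻¹ • U' 0 ((p : ℝ) • x)) = u 0 := by
    funext x
    rw [hUU' 0 ⟨le_rfl, hT⟩]
    show (p : ℝ)⁻¹ • (p : ℝ) • u 0 ((p : ℝ)⁻¹ • (p : ℝ) • x) = u 0 x
    rw [smul_smul, inv_mul_cancel₀ hp0, one_smul, smul_smul, inv_mul_cancel₀ hp0, one_smul]
  have h10 := hmax T' _ hv h0
  exact absurd hTT' (not_lt.2 h10)

end Pool.Agent.H226.GB

end
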