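import Pool.Agent.H226.GM.S
import Pool.Agent.H226.GM.Norm
import Pool.Agent.H226.GM.Coef
import Pool.Agent.H226.GM.Pump
import Pool.Agent.H226.GM.OneDim

/-! ## Hsb -/

section

/-!
Bessel's inequality in Sobolev spaces.
-/

open MeasureTheory Set Filter Topology
open scoped ContDiff ENNReal
open H459R3.NS

namespace Pool.Agent.H226.GB

/-! ### Frequencies -/

/-- the frequencies of the products of trigonometric functions -/
def hsb_k (p : ℕ) (e d : ℤ) (t : ℕ × ℕ × ℕ) : Fin 3 → ℤ :=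
  ![(p : ℤ) * t.1, e * (p * t.2.1), d * (p * t.2.2)]

theorem hsb_inj {p : ℕ} (hp : 1 ≤ p) {e d : ℤ} (he : e ≠ 0) (hd : d ≠ 0) {t u : ℕ × ℕ × ℕ}
    (h : hsb_k p e d t = hsb_k p e d u) : t = u := by
  have hp' : (p : ℤ) ≠ 0 := by omega
  have h0 : (p : ℤ) * t.1 = (p : ℤ) * u.1 := congrFun h 0
  have h1 : e * ((p : ℤ) * t.2.1) = e * (p * u.2.1) := congrFun h 1
  have h2 : d * ((p : ℤ) * t.2.2) = d * (p * u.2.2) := congrFun h 2
  have g0 := mul_left_cancel₀ hp' h0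
  have g1 := mul_left_cancel₀ hp' (mul_left_cancel₀ he h1)
  have g2 := mul_left_cancel₀ hp' (mul_left_cancel₀ hd h2)
  obtain ⟨a, b, c⟩ := t
  obtain ⟨a', b', c'⟩ := u
  simp only [Nat.cast_inj] at g0 g1 g2
  rw [g0, g1, g2]

/-- the terms of the Sobolev norm -/
noncomputable def hsb_w (s : ℝ) (f : V → V) (k : Fin 3 → ℤ) : ℝ :=
  (1 + ∑ j, (k j : ℝ) ^ 2) ^ s * fq f k

theorem hsb_fq (f : V → V) (k : Fin 3 → ℤ) : 0 ≤ fq f k :=
  Finset.sum_nonneg fun _ _ => add_nonneg (sq_nonneg _) (sq_nonneg _)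

theorem hsb_w0 (s : ℝ) (f : V → V) (k : Fin 3 → ℤ) : 0 ≤ hsb_w s f k := by
  refine mul_nonneg (Real.rpow_nonneg ?_ _) (hsb_fq f k)
  positivity

/-- the sum over the signs -/
noncomputable def hsb_q (p : ℕ) (s : ℝ) (f : V → V) (t : ℕ × ℕ × ℕ) : ℝ :=
  hsb_w s f (hsb_k p 1 1 t) + hsb_w s f (hsb_k p 1 (-1) t) + hsb_w s f (hsb_k p (-1) 1 t)
    + hsb_w s f (hsb_k p (-1) (-1) t)

theorem hsb_q0 (p : ℕ) (s : ℝ) (f : V → V) (t : ℕ × ℕ × ℕ) : 0 ≤ hsb_q p s f t := by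
  unfold hsb_q
  have h1 := hsb_w0 s f (hsb_k p 1 1 t)
  have h2 := hsb_w0 s f (hsb_k p 1 (-1) t)
  have h3 := hsb_w0 s f (hsb_k p (-1) 1 t)
  have h4 := hsb_w0 s f (hsb_k p (-1) (-1) t)
  linarith

theorem hsb_sum1 {p : ℕ} (hp : 1 ≤ p) {e d : ℤ} (he : e ≠ 0) (hd : d ≠ 0) (s : ℝ) (f : V → V)
    (T : ℕ → Finset (ℕ × ℕ × ℕ)) (hT : ∀ m n t, t ∈ T m → t ∈ T n → m = n) (M : ℕ) :
    ENNReal.ofReal (∑ m ∈ Finset.range M, ∑ t ∈ T m, hsb_w s f (hsb_k p e d t)) ≤ hs s f := by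
  classical
  rw [Finset.sum_sigma', ENNReal.ofReal_sum_of_nonneg (fun _ _ => hsb_w0 _ _ _)]
  have hinj : Set.InjOn (fun x : (_ : ℕ) × (ℕ × ℕ × ℕ) => hsb_k p e d x.2)
      ((Finset.range M).sigma T) := by
    rintro ⟨m, t⟩ hx ⟨n, u⟩ hy hxy
    have h1 : t ∈ T m := (Finset.mem_sigma.1 hx).2
    have h2 : u ∈ T n := (Finset.mem_sigma.1 hy).2
    have h3 : t = u := hsb_inj hp he hd hxy
    subst h3
    have h4 := hT m n t h1 h2
    subst h4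
    rfl
  rw [← Finset.sum_image (f := fun k => ENNReal.ofReal (hsb_w s f k)) hinj]
  exact ENNReal.sum_le_tsum _

theorem hsb_sum {p : ℕ} (hp : 1 ≤ p) (s : ℝ) (f : V → V)
    (T : ℕ → Finset (ℕ × ℕ × ℕ)) (hT : ∀ m n t, t ∈ T m → t ∈ T n → m = n) (M : ℕ) :
    ENNReal.ofReal (∑ m ∈ Finset.range M, ∑ t ∈ T m, hsb_q p s f t) ≤ 4 * hs s f := by
  have e1 : ∑ m ∈ Finset.range M, ∑ t ∈ T m, hsb_q p s f t
      = (∑ m ∈ Finset.range M, ∑ t ∈ T m, hsb_w s f (hsb_k p 1 1 t))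
      + (∑ m ∈ Finset.range M, ∑ t ∈ T m, hsb_w s f (hsb_k p 1 (-1) t))
      + (∑ m ∈ Finset.range M, ∑ t ∈ T m, hsb_w s f (hsb_k p (-1) 1 t))
      + (∑ m ∈ Finset.range M, ∑ t ∈ T m, hsb_w s f (hsb_k p (-1) (-1) t)) := by
    simp only [← Finset.sum_add_distrib]
    rfl
  have h0 : ∀ e d : ℤ, 0 ≤ ∑ m ∈ Finset.range M, ∑ t ∈ T m, hsb_w s f (hsb_k p e d t) :=
    fun e d => Finset.sum_nonneg fun _ _ => Finset.sum_nonneg fun _ _ => hsb_w0 _ _ _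
  rw [e1, ENNReal.ofReal_add (by have := h0 1 1; have := h0 1 (-1); have := h0 (-1) 1; linarith)
    (h0 _ _), ENNReal.ofReal_add (by have := h0 1 1; have := h0 1 (-1); linarith) (h0 _ _),
    ENNReal.ofReal_add (h0 _ _) (h0 _ _)]
  have a1 := hsb_sum1 hp (e := 1) (d := 1) (by norm_num) (by norm_num) s f T hT M
  have a2 := hsb_sum1 hp (e := 1) (d := -1) (by norm_num) (by norm_num) s f T hT M
  have a3 := hsb_sum1 hp (e := -1) (d := 1) (by norm_num) (by norm_num) s f T hT M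
  have a4 := hsb_sum1 hp (e := -1) (d := -1) (by norm_num) (by norm_num) s f T hT M
  calc _ ≤ hs s f + hs s f + hs s f + hs s f := add_le_add (add_le_add (add_le_add a1 a2) a3) a4
    _ = 4 * hs s f := by ring

/-! ### Integrals -/

/-- the sine coefficient -/
noncomputable def hsb_S (f : V → ℝ) (k : Fin 3 → ℤ) : ℝ :=
  ∫ x in cube, f x * Real.sin (2 * Real.pi * ∑ j, (k j : ℝ) * x j)

theorem hsb_cont {f : V → ℝ} (hf : SP f) (k : Fin 3 → ℤ) :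
    IntegrableOn (fun x => f x * Real.sin (2 * Real.pi * ∑ j, (k j : ℝ) * x j)) cube := by
  refine integrableOn_cube (hf.cont.mul ?_)
  fun_prop

theorem hsb_int {f : V → ℝ} (hf : SP f) (k1 k2 k3 k4 : Fin 3 → ℤ) (c1 c2 c3 c4 : ℝ) :
    ∫ x in cube, (c1 * (f x * Real.sin (2 * Real.pi * ∑ j, (k1 j : ℝ) * x j))
      + c2 * (f x * Real.sin (2 * Real.pi * ∑ j, (k2 j : ℝ) * x j))
      + c3 * (f x * Real.sin (2 * Real.pi * ∑ j, (k3 j : ℝ) * x j))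
      + c4 * (f x * Real.sin (2 * Real.pi * ∑ j, (k4 j : ℝ) * x j)))
    = c1 * hsb_S f k1 + c2 * hsb_S f k2 + c3 * hsb_S f k3 + c4 * hsb_S f k4 := by
  have i1 := (hsb_cont hf k1).const_mul c1
  have i2 := (hsb_cont hf k2).const_mul c2
  have i3 := (hsb_cont hf k3).const_mul c3
  have i4 := (hsb_cont hf k4).const_mul c4
  have i12 := i1.add i2
  have i123 := i12.add i3
  have h1 := integral_add i123 i4
  have h2 := integral_add i12 i3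
  have h3 := integral_add i1 i2
  simp only [Pi.add_apply] at h1 h2 h3
  rw [h1, h2, h3, integral_const_mul, integral_const_mul, integral_const_mul, integral_const_mul]
  rfl

theorem hsb_arg (p : ℕ) (e d : ℤ) (t : ℕ × ℕ × ℕ) (x : V) :
    2 * Real.pi * ∑ j, (hsb_k p e d t j : ℝ) * x j
      = 2 * Real.pi * t.1 * (p * x 0) + e * (2 * Real.pi * t.2.1 * (p * x 1))
        + d * (2 * Real.pi * t.2.2 * (p * x 2)) := by
  rw [Fin.sum_univ_three]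
  have h0 : hsb_k p e d t 0 = (p : ℤ) * t.1 := rfl
  have h1 : hsb_k p e d t 1 = e * (p * t.2.1) := rfl
  have h2 : hsb_k p e d t 2 = d * (p * t.2.2) := rfl
  rw [h0, h1, h2]
  push_cast
  ring

theorem hsb_P {f : V → ℝ} (hf : SP f) (p : ℕ) (t : ℕ × ℕ × ℕ) :
    ∫ x in cube, f x * (sn t.1 (p * x 0) * cs t.2.1 (p * x 1) * cs t.2.2 (p * x 2))
      = 1 / 4 * hsb_S f (hsb_k p 1 1 t) + 1 / 4 * hsb_S f (hsb_k p 1 (-1) t)
        + 1 / 4 * hsb_S f (hsb_k p (-1) 1 t) + 1 / 4 * hsb_S f (hsb_k p (-1) (-1) t) := by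
  rw [← hsb_int hf]
  refine integral_congr_ae (Filter.Eventually.of_forall fun x => ?_)
  simp only [hsb_arg]
  unfold sn cs
  generalize 2 * Real.pi * (t.1 : ℝ) * (p * x 0) = u
  generalize 2 * Real.pi * (t.2.1 : ℝ) * (p * x 1) = v
  generalize 2 * Real.pi * (t.2.2 : ℝ) * (p * x 2) = w
  have e1 : u + ((1 : ℤ) : ℝ) * v + ((1 : ℤ) : ℝ) * w = u + v + w := by push_cast; ring
  have e2 : u + ((1 : ℤ) : ℝ) * v + ((-1 : ℤ) : ℝ) * w = u + v - w := by push_cast; ring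
  have e3 : u + ((-1 : ℤ) : ℝ) * v + ((1 : ℤ) : ℝ) * w = u - v + w := by push_cast; ring
  have e4 : u + ((-1 : ℤ) : ℝ) * v + ((-1 : ℤ) : ℝ) * w = u - v - w := by push_cast; ring
  rw [e1, e2, e3, e4]
  simp only [Real.sin_add, Real.sin_sub, Real.cos_add, Real.cos_sub]
  ring

theorem hsb_Q {f : V → ℝ} (hf : SP f) (p : ℕ) (t : ℕ × ℕ × ℕ) :
    ∫ x in cube, f x * (cs t.1 (p * x 0) * cs t.2.1 (p * x 1) * sn t.2.2 (p * x 2))
      = 1 / 4 * hsb_S f (hsb_k p 1 1 t) + (-(1 / 4)) * hsb_S f (hsb_k p 1 (-1) t)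
        + 1 / 4 * hsb_S f (hsb_k p (-1) 1 t) + (-(1 / 4)) * hsb_S f (hsb_k p (-1) (-1) t) := by
  rw [← hsb_int hf]
  refine integral_congr_ae (Filter.Eventually.of_forall fun x => ?_)
  simp only [hsb_arg]
  unfold sn cs
  generalize 2 * Real.pi * (t.1 : ℝ) * (p * x 0) = u
  generalize 2 * Real.pi * (t.2.1 : ℝ) * (p * x 1) = v
  generalize 2 * Real.pi * (t.2.2 : ℝ) * (p * x 2) = w
  have e1 : u + ((1 : ℤ) : ℝ) * v + ((1 : ℤ) : ℝ) * w = u + v + w := by push_cast; ring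
  have e2 : u + ((1 : ℤ) : ℝ) * v + ((-1 : ℤ) : ℝ) * w = u + v - w := by push_cast; ring
  have e3 : u + ((-1 : ℤ) : ℝ) * v + ((1 : ℤ) : ℝ) * w = u - v + w := by push_cast; ring
  have e4 : u + ((-1 : ℤ) : ℝ) * v + ((-1 : ℤ) : ℝ) * w = u - v - w := by push_cast; ring
  rw [e1, e2, e3, e4]
  simp only [Real.sin_add, Real.sin_sub, Real.cos_add, Real.cos_sub]
  ring

theorem hsb_Sfq (f : V → V) (k : Fin 3 → ℤ) :
    hsb_S (fun x => f x 0) k ^ 2 + hsb_S (fun x => f x 2) k ^ 2 ≤ fq f k := by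
  unfold fq
  rw [Fin.sum_univ_three]
  unfold hsb_S
  have h0 := sq_nonneg (∫ x in cube, f x 0 * Real.cos (2 * Real.pi * ∑ j, (k j : ℝ) * x j))
  have h1 := sq_nonneg (∫ x in cube, f x 1 * Real.cos (2 * Real.pi * ∑ j, (k j : ℝ) * x j))
  have h2 := sq_nonneg (∫ x in cube, f x 1 * Real.sin (2 * Real.pi * ∑ j, (k j : ℝ) * x j))
  have h3 := sq_nonneg (∫ x in cube, f x 2 * Real.cos (2 * Real.pi * ∑ j, (k j : ℝ) * x j))
  linarith

theorem hsb_four (a b c d : ℝ) :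
    (1 / 4 * a + 1 / 4 * b + 1 / 4 * c + 1 / 4 * d) ^ 2 ≤ 1 / 4 * (a ^ 2 + b ^ 2 + c ^ 2 + d ^ 2) := by
  have h : 1 / 4 * (a ^ 2 + b ^ 2 + c ^ 2 + d ^ 2) =
      (1 / 4 * a + 1 / 4 * b + 1 / 4 * c + 1 / 4 * d) ^ 2 + 1 / 16 * ((a - b) ^ 2 + (a - c) ^ 2
        + (a - d) ^ 2 + (b - c) ^ 2 + (b - d) ^ 2 + (c - d) ^ 2) := by ring
  rw [h]
  exact le_add_of_nonneg_right (mul_nonneg (by norm_num) (add_nonneg (add_nonneg (add_nonneg
    (add_nonneg (add_nonneg (sq_nonneg _) (sq_nonneg _)) (sq_nonneg _)) (sq_nonneg _))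
    (sq_nonneg _)) (sq_nonneg _)))

theorem hsb_four' (a b c d : ℝ) :
    (1 / 4 * a + (-(1 / 4)) * b + 1 / 4 * c + (-(1 / 4)) * d) ^ 2
      ≤ 1 / 4 * (a ^ 2 + b ^ 2 + c ^ 2 + d ^ 2) := by
  have h := hsb_four a (-b) c (-d)
  rw [neg_sq, neg_sq, mul_neg, mul_neg] at h
  rw [neg_mul, neg_mul]
  exact h

theorem hsb_eight (a b c d e f g h : ℝ) :
    a + b + c + d + (e + f + g + h) = a + e + (b + f) + (c + g) + (d + h) := by ring

/-- the sum of the squares of the two coefficients -/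
theorem hsb_PQ {f : V → V} (hf : ∀ i, SP (fun x => f x i)) (p : ℕ) (t : ℕ × ℕ × ℕ) :
    (∫ x in cube, f x 0 * (sn t.1 (p * x 0) * cs t.2.1 (p * x 1) * cs t.2.2 (p * x 2))) ^ 2
      + (∫ x in cube, f x 2 * (cs t.1 (p * x 0) * cs t.2.1 (p * x 1) * sn t.2.2 (p * x 2))) ^ 2
    ≤ 1 / 4 * (fq f (hsb_k p 1 1 t) + fq f (hsb_k p 1 (-1) t) + fq f (hsb_k p (-1) 1 t)
        + fq f (hsb_k p (-1) (-1) t)) := by
  rw [hsb_P (hf 0) p t, hsb_Q (hf 2) p t]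
  have h1 := hsb_Sfq f (hsb_k p 1 1 t)
  have h2 := hsb_Sfq f (hsb_k p 1 (-1) t)
  have h3 := hsb_Sfq f (hsb_k p (-1) 1 t)
  have h4 := hsb_Sfq f (hsb_k p (-1) (-1) t)
  have g1 := hsb_four (hsb_S (fun x => f x 0) (hsb_k p 1 1 t))
    (hsb_S (fun x => f x 0) (hsb_k p 1 (-1) t)) (hsb_S (fun x => f x 0) (hsb_k p (-1) 1 t))
    (hsb_S (fun x => f x 0) (hsb_k p (-1) (-1) t))
  have g2 := hsb_four' (hsb_S (fun x => f x 2) (hsb_k p 1 1 t))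
    (hsb_S (fun x => f x 2) (hsb_k p 1 (-1) t)) (hsb_S (fun x => f x 2) (hsb_k p (-1) 1 t))
    (hsb_S (fun x => f x 2) (hsb_k p (-1) (-1) t))
  refine (add_le_add g1 g2).trans ?_
  rw [← mul_add]
  refine mul_le_mul_of_nonneg_left ?_ (by norm_num)
  exact le_trans (le_of_eq (hsb_eight _ _ _ _ _ _ _ _))
    (add_le_add (add_le_add (add_le_add h1 h2) h3) h4)

/-! ### The Cauchy-Schwarz inequality -/

/-- the sum over the signs, without weights -/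
noncomputable def hsb_F (p : ℕ) (f : V → V) (t : ℕ × ℕ × ℕ) : ℝ :=
  fq f (hsb_k p 1 1 t) + fq f (hsb_k p 1 (-1) t) + fq f (hsb_k p (-1) 1 t)
    + fq f (hsb_k p (-1) (-1) t)

theorem hsb_F0 (p : ℕ) (f : V → V) (t : ℕ × ℕ × ℕ) : 0 ≤ hsb_F p f t := by
  unfold hsb_F
  have h1 := hsb_fq f (hsb_k p 1 1 t)
  have h2 := hsb_fq f (hsb_k p 1 (-1) t)
  have h3 := hsb_fq f (hsb_k p (-1) 1 t)
  have h4 := hsb_fq f (hsb_k p (-1) (-1) t)
  linarith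

/-- the first component -/
noncomputable def hsb_X (T : Finset (ℕ × ℕ × ℕ)) (μ : ℕ × ℕ × ℕ → ℝ) (p : ℕ) (x : V) : ℝ :=
  ∑ t ∈ T, μ t * (sn t.1 (p * x 0) * cs t.2.1 (p * x 1) * cs t.2.2 (p * x 2))

/-- the third component -/
noncomputable def hsb_Y (T : Finset (ℕ × ℕ × ℕ)) (ν : ℕ × ℕ × ℕ → ℝ) (p : ℕ) (x : V) : ℝ :=
  ∑ t ∈ T, ν t * (cs t.1 (p * x 0) * cs t.2.1 (p * x 1) * sn t.2.2 (p * x 2))

/-- the scalar product -/
noncomputable def hsb_J (f : V → V) (T : Finset (ℕ × ℕ × ℕ)) (μ ν : ℕ × ℕ × ℕ → ℝ) (p : ℕ) : ℝ :=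
  (∫ x in cube, f x 0 * hsb_X T μ p x) + ∫ x in cube, f x 2 * hsb_Y T ν p x

theorem hsb_Xint {f : V → ℝ} (hf : SP f) (T : Finset (ℕ × ℕ × ℕ)) (μ : ℕ × ℕ × ℕ → ℝ) (p : ℕ) :
    IntegrableOn (fun x => f x * hsb_X T μ p x) cube := by
  refine integrableOn_cube (hf.cont.mul ?_)
  unfold hsb_X sn cs
  fun_prop

theorem hsb_Yint {f : V → ℝ} (hf : SP f) (T : Finset (ℕ × ℕ × ℕ)) (μ : ℕ × ℕ × ℕ → ℝ) (p : ℕ) :
    IntegrableOn (fun x => f x * hsb_Y T μ p x) cube := by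
  refine integrableOn_cube (hf.cont.mul ?_)
  unfold hsb_Y sn cs
  fun_prop

theorem hsb_Xeq {f : V → ℝ} (hf : SP f) (T : Finset (ℕ × ℕ × ℕ)) (μ : ℕ × ℕ × ℕ → ℝ) (p : ℕ) :
    ∫ x in cube, f x * hsb_X T μ p x = ∑ t ∈ T, μ t *
      ∫ x in cube, f x * (sn t.1 (p * x 0) * cs t.2.1 (p * x 1) * cs t.2.2 (p * x 2)) := by
  have hi : ∀ t ∈ T, IntegrableOn (fun x => μ t *
      (f x * (sn t.1 (p * x 0) * cs t.2.1 (p * x 1) * cs t.2.2 (p * x 2)))) cube := by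
    intro t _
    refine Integrable.const_mul (integrableOn_cube (hf.cont.mul ?_)) _
    unfold sn cs
    fun_prop
  have h := integral_finsetSum T hi
  simp only [integral_const_mul] at h
  rw [← h]
  refine integral_congr_ae (Filter.Eventually.of_forall fun x => ?_)
  simp only [hsb_X, Finset.mul_sum]
  exact Finset.sum_congr rfl fun t _ => by ring

theorem hsb_Yeq {f : V → ℝ} (hf : SP f) (T : Finset (ℕ × ℕ × ℕ)) (μ : ℕ × ℕ × ℕ → ℝ) (p : ℕ) :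
    ∫ x in cube, f x * hsb_Y T μ p x = ∑ t ∈ T, μ t *
      ∫ x in cube, f x * (cs t.1 (p * x 0) * cs t.2.1 (p * x 1) * sn t.2.2 (p * x 2)) := by
  have hi : ∀ t ∈ T, IntegrableOn (fun x => μ t *
      (f x * (cs t.1 (p * x 0) * cs t.2.1 (p * x 1) * sn t.2.2 (p * x 2)))) cube := by
    intro t _
    refine Integrable.const_mul (integrableOn_cube (hf.cont.mul ?_)) _
    unfold sn cs
    fun_prop
  have h := integral_finsetSum T hi
  simp only [integral_const_mul] at h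
  rw [← h]
  refine integral_congr_ae (Filter.Eventually.of_forall fun x => ?_)
  simp only [hsb_Y, Finset.mul_sum]
  exact Finset.sum_congr rfl fun t _ => by ring

theorem hsb_cs {f : V → V} (hf : ∀ i, SP (fun x => f x i)) (p : ℕ) (T : Finset (ℕ × ℕ × ℕ))
    (μ ν : ℕ × ℕ × ℕ → ℝ) :
    hsb_J f T μ ν p ^ 2 ≤ 1 / 2 * (∑ t ∈ T, (μ t ^ 2 + ν t ^ 2)) * ∑ t ∈ T, hsb_F p f t := by
  obtain ⟨P, hP⟩ : ∃ P : ℕ × ℕ × ℕ → ℝ, P = fun t => ∫ x in cube, f x 0 *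
    (sn t.1 (p * x 0) * cs t.2.1 (p * x 1) * cs t.2.2 (p * x 2)) := ⟨_, rfl⟩
  obtain ⟨Q, hQ⟩ : ∃ Q : ℕ × ℕ × ℕ → ℝ, Q = fun t => ∫ x in cube, f x 2 *
    (cs t.1 (p * x 0) * cs t.2.1 (p * x 1) * sn t.2.2 (p * x 2)) := ⟨_, rfl⟩
  have e : hsb_J f T μ ν p = (∑ t ∈ T, μ t * P t) + ∑ t ∈ T, ν t * Q t := by
    unfold hsb_J
    rw [hsb_Xeq (hf 0), hsb_Yeq (hf 2), hP, hQ]
  have h1 := Finset.sum_mul_sq_le_sq_mul_sq T μ P
  have h2 := Finset.sum_mul_sq_le_sq_mul_sq T ν Q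
  have h3 : (∑ t ∈ T, P t ^ 2) + ∑ t ∈ T, Q t ^ 2 ≤ 1 / 4 * ∑ t ∈ T, hsb_F p f t := by
    rw [← Finset.sum_add_distrib, Finset.mul_sum]
    refine Finset.sum_le_sum fun t _ => ?_
    rw [hP, hQ]
    exact hsb_PQ hf p t
  have m0 : 0 ≤ ∑ t ∈ T, μ t ^ 2 := Finset.sum_nonneg fun _ _ => sq_nonneg _
  have n0 : 0 ≤ ∑ t ∈ T, ν t ^ 2 := Finset.sum_nonneg fun _ _ => sq_nonneg _
  have p0 : 0 ≤ ∑ t ∈ T, P t ^ 2 := Finset.sum_nonneg fun _ _ => sq_nonneg _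
  have q0 : 0 ≤ ∑ t ∈ T, Q t ^ 2 := Finset.sum_nonneg fun _ _ => sq_nonneg _
  rw [e, Finset.sum_add_distrib]
  generalize ∑ t ∈ T, μ t * P t = A at *
  generalize ∑ t ∈ T, ν t * Q t = B at *
  generalize ∑ t ∈ T, μ t ^ 2 = a at *
  generalize ∑ t ∈ T, ν t ^ 2 = b at *
  generalize ∑ t ∈ T, P t ^ 2 = c at *
  generalize ∑ t ∈ T, Q t ^ 2 = d at *
  generalize ∑ t ∈ T, hsb_F p f t = X at *
  have k1 : 2 * (A ^ 2 + B ^ 2) = (A + B) ^ 2 + (A - B) ^ 2 := by ring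
  have k2 : (a + b) * (c + d) = a * c + b * d + (a * d + b * c) := by ring
  have k3 : 1 / 2 * (a + b) * X = 2 * ((a + b) * (1 / 4 * X)) := by ring
  rw [k3]
  calc (A + B) ^ 2 ≤ 2 * (A ^ 2 + B ^ 2) := by
        rw [k1]
        exact le_add_of_nonneg_right (sq_nonneg _)
    _ ≤ 2 * (a * c + b * d) := mul_le_mul_of_nonneg_left (add_le_add h1 h2) zero_le_two
    _ ≤ 2 * ((a + b) * (c + d)) := by
        refine mul_le_mul_of_nonneg_left ?_ zero_le_two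
        rw [k2]
        exact le_add_of_nonneg_right (add_nonneg (mul_nonneg m0 q0) (mul_nonneg n0 p0))
    _ ≤ 2 * ((a + b) * (1 / 4 * X)) :=
        mul_le_mul_of_nonneg_left (mul_le_mul_of_nonneg_left h3 (add_nonneg m0 n0)) zero_le_two

/-! ### The fields -/

theorem hsb_tri (A B C : Finset ℕ) (f g h : ℕ → ℝ) :
    (∑ a ∈ A, f a) * (∑ b ∈ B, g b) * (∑ c ∈ C, h c)
      = ∑ t ∈ A ×ˢ (B ×ˢ C), f t.1 * g t.2.1 * h t.2.2 := by
  rw [Finset.sum_product, mul_assoc, Finset.sum_mul]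
  refine Finset.sum_congr rfl fun a _ => ?_
  rw [Finset.sum_product, Finset.sum_mul_sum, Finset.mul_sum]
  refine Finset.sum_congr rfl fun b _ => ?_
  rw [Finset.mul_sum]
  exact Finset.sum_congr rfl fun c _ => by ring

/-- the frequencies of the main part -/
def hsb_T (m : ℕ) : Finset (ℕ × ℕ × ℕ) :=
  Finset.Ico (NN m) (2 * NN m) ×ˢ (Finset.Ico (NN m) (2 * NN m) ×ˢ
    Finset.Ico (16 * NN m) (17 * NN m))

/-- the frequency of the pump -/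
def hsb_t (m : ℕ) : ℕ × ℕ × ℕ :=
  (4 * NN (m - 1) - 3, 4 * NN (m - 1) - 2, 2 * (17 * NN (m - 1) - 1))

theorem hsb_psi2 (P : S_prod) (O : S_one) (m p : ℕ) (x : V) :
    pd 2 (psi m) ((p : ℝ) • x) = hsb_X (hsb_T m) (fun _ => 1) p x := by
  unfold psi
  rw [P.pd2 (O.p1_F _) (O.p1_G _) (O.p1_H _)]
  unfold prd
  rw [O.dH]
  unfold fF fG hsb_X hsb_T
  rw [hsb_tri]
  exact Finset.sum_congr rfl fun t _ => by rw [one_mul]; rfl

theorem hsb_psi0 (P : S_prod) (O : S_one) (m p : ℕ) (x : V) :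
    -pd 0 (psi m) ((p : ℝ) • x) = hsb_Y (hsb_T m) (fun t => -((t.1 : ℝ) / t.2.2)) p x := by
  unfold psi
  rw [P.pd0 (O.p1_F _) (O.p1_G _) (O.p1_H _)]
  unfold prd
  rw [O.dF]
  unfold fG fH hsb_Y hsb_T
  rw [hsb_tri, ← Finset.sum_neg_distrib]
  refine Finset.sum_congr rfl fun t _ => ?_
  have h0 : ((p : ℝ) • x) 0 = p * x 0 := rfl
  have h1 : ((p : ℝ) • x) 1 = p * x 1 := rfl
  have h2 : ((p : ℝ) • x) 2 = p * x 2 := rfl
  rw [h0, h1, h2]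
  have h : Real.pi * Real.pi⁻¹ = 1 := mul_inv_cancel₀ Real.pi_ne_zero
  simp only [div_eq_mul_inv, mul_inv]
  linear_combination (-(t.1 : ℝ) * (t.2.2 : ℝ)⁻¹ * cs t.1 (p * x 0) * cs t.2.1 (p * x 1)
    * sn t.2.2 (p * x 2)) * h

theorem hsb_chi2 (P : S_prod) (O : S_one) (m p : ℕ) (x : V) :
    pd 2 (chi m) ((p : ℝ) • x)
      = hsb_X {hsb_t m} (fun t => 2 * Real.pi * t.2.2) p x := by
  unfold chi
  rw [P.pd2 (O.p1_sn _) (O.p1_cs _) (O.p1_sn _)]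
  unfold prd
  rw [nm_d_sn]
  unfold hsb_X
  rw [Finset.sum_singleton]
  have h0 : ((p : ℝ) • x) 0 = p * x 0 := rfl
  have h1 : ((p : ℝ) • x) 1 = p * x 1 := rfl
  have h2 : ((p : ℝ) • x) 2 = p * x 2 := rfl
  rw [h0, h1, h2]
  unfold hsb_t
  ring

theorem hsb_chi0 (P : S_prod) (O : S_one) (m p : ℕ) (x : V) :
    -pd 0 (chi m) ((p : ℝ) • x)
      = hsb_Y {hsb_t m} (fun t => -(2 * Real.pi * t.1)) p x := by
  unfold chi
  rw [P.pd0 (O.p1_sn _) (O.p1_cs _) (O.p1_sn _)]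
  unfold prd
  rw [nm_d_sn]
  unfold hsb_Y
  rw [Finset.sum_singleton]
  have h0 : ((p : ℝ) • x) 0 = p * x 0 := rfl
  have h1 : ((p : ℝ) • x) 1 = p * x 1 := rfl
  have h2 : ((p : ℝ) • x) 2 = p * x 2 := rfl
  rw [h0, h1, h2]
  unfold hsb_t
  ring

theorem hsb_phi0 (P : S_prod) (O : S_one) (m p : ℕ) (x : V) :
    phi m ((p : ℝ) • x) 0 = -(nm m)⁻¹ * (hsb_X (hsb_T m) (fun _ => 1) p x
      + ee' m * hsb_X {hsb_t m} (fun t => 2 * Real.pi * t.2.2) p x) := by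
  have h1 : SP (psi m) := P.sp (O.p1_F _) (O.p1_G _) (O.p1_H _)
  have h2 : SP (chi m) := P.sp (O.p1_sn _) (O.p1_cs _) (O.p1_sn _)
  have e : pd 2 (th0 m) = fun x => pd 2 (psi m) x + ee' m * pd 2 (chi m) x :=
    nm_pd_add h1 h2 (ee' m) 2
  rw [Bas_phi0, e]
  simp only
  rw [hsb_psi2 P O, hsb_chi2 P O]

theorem hsb_phi2 (P : S_prod) (O : S_one) (m p : ℕ) (x : V) :
    phi m ((p : ℝ) • x) 2 = -(nm m)⁻¹ * (hsb_Y (hsb_T m) (fun t => -((t.1 : ℝ) / t.2.2)) p x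
      + ee' m * hsb_Y {hsb_t m} (fun t => -(2 * Real.pi * t.1)) p x) := by
  have h1 : SP (psi m) := P.sp (O.p1_F _) (O.p1_G _) (O.p1_H _)
  have h2 : SP (chi m) := P.sp (O.p1_sn _) (O.p1_cs _) (O.p1_sn _)
  have e : pd 0 (th0 m) = fun x => pd 0 (psi m) x + ee' m * pd 0 (chi m) x :=
    nm_pd_add h1 h2 (ee' m) 0
  rw [Bas_phi2, e]
  simp only
  rw [← hsb_psi0 P O, ← hsb_chi0 P O]
  ring

/-- the scalar products with the fields -/
theorem hsb_ip (P : S_prod) (O : S_one) {f : V → V} (hf : ∀ i, SP (fun x => f x i)) (m p : ℕ) :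
    ∑ i, ∫ x in cube, f x i * phi m ((p : ℝ) • x) i
      = -(nm m)⁻¹ * (hsb_J f (hsb_T m) (fun _ => 1) (fun t => -((t.1 : ℝ) / t.2.2)) p
        + ee' m * hsb_J f {hsb_t m} (fun t => 2 * Real.pi * t.2.2) (fun t => -(2 * Real.pi * t.1))
          p) := by
  rw [Fin.sum_univ_three]
  have e1 : ∫ x in cube, f x 1 * phi m ((p : ℝ) • x) 1 = 0 := by
    simp only [Bas_phi1, mul_zero, integral_zero]
  have e0 : ∫ x in cube, f x 0 * phi m ((p : ℝ) • x) 0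
      = -(nm m)⁻¹ * ((∫ x in cube, f x 0 * hsb_X (hsb_T m) (fun _ => 1) p x)
        + ee' m * ∫ x in cube, f x 0 * hsb_X {hsb_t m} (fun t => 2 * Real.pi * t.2.2) p x) := by
    have i1 := hsb_Xint (hf 0) (hsb_T m) (fun _ => 1) p
    have i2 := (hsb_Xint (hf 0) {hsb_t m} (fun t => 2 * Real.pi * t.2.2) p).const_mul (ee' m)
    have h := integral_add i1 i2
    rw [integral_const_mul] at h
    rw [← h, ← integral_const_mul]
    refine integral_congr_ae (Filter.Eventually.of_forall fun x => ?_)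
    simp only [hsb_phi0 P O]
    ring
  have e2 : ∫ x in cube, f x 2 * phi m ((p : ℝ) • x) 2
      = -(nm m)⁻¹ * ((∫ x in cube, f x 2 * hsb_Y (hsb_T m) (fun t => -((t.1 : ℝ) / t.2.2)) p x)
        + ee' m * ∫ x in cube, f x 2 * hsb_Y {hsb_t m} (fun t => -(2 * Real.pi * t.1)) p x) := by
    have i1 := hsb_Yint (hf 2) (hsb_T m) (fun t => -((t.1 : ℝ) / t.2.2)) p
    have i2 := (hsb_Yint (hf 2) {hsb_t m} (fun t => -(2 * Real.pi * t.1)) p).const_mul (ee' m)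
    have h := integral_add i1 i2
    rw [integral_const_mul] at h
    rw [← h, ← integral_const_mul]
    refine integral_congr_ae (Filter.Eventually.of_forall fun x => ?_)
    simp only [hsb_phi2 P O]
    ring
  rw [e0, e1, e2]
  unfold hsb_J
  ring

/-! ### Bounds -/

theorem hsb_mem {m : ℕ} {t : ℕ × ℕ × ℕ} (h : t ∈ hsb_T m) :
    NN m ≤ t.1 ∧ t.1 < 2 * NN m ∧ 16 * NN m ≤ t.2.2 := by
  unfold hsb_T at h
  rw [Finset.mem_product, Finset.mem_product, Finset.mem_Ico, Finset.mem_Ico, Finset.mem_Ico] at h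
  exact ⟨h.1.1, h.1.2, h.2.2.1⟩

attribute [local irreducible] hsb_T NN RR

theorem hsb_disj (m n : ℕ) (t : ℕ × ℕ × ℕ) (h : t ∈ hsb_T m) (g : t ∈ hsb_T n) : m = n := by
  have h1 := hsb_mem h
  have g1 := hsb_mem g
  rcases lt_trichotomy m n with h2 | h2 | h2
  · have a1 := Bas_NN m
    have a2 : NN (m + 1) ≤ NN n := Bas_NNle h2
    have a3 := Bas_NNpos m
    omega
  · exact h2
  · have a1 := Bas_NN n
    have a2 : NN (n + 1) ≤ NN m := Bas_NNle h2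
    have a3 := Bas_NNpos n
    omega

/-- the frequencies of the pumps -/
def hsb_T' (m : ℕ) : Finset (ℕ × ℕ × ℕ) := if m = 0 then ∅ else {hsb_t m}

theorem hsb_disj' (m n : ℕ) (t : ℕ × ℕ × ℕ) (h : t ∈ hsb_T' m) (g : t ∈ hsb_T' n) : m = n := by
  unfold hsb_T' at h g
  by_cases hm : m = 0
  · rw [if_pos hm] at h
    exact absurd h (Finset.notMem_empty _)
  by_cases hn : n = 0
  · rw [if_pos hn] at g
    exact absurd g (Finset.notMem_empty _)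
  rw [if_neg hm, Finset.mem_singleton] at h
  rw [if_neg hn, Finset.mem_singleton] at g
  have e : (hsb_t m).1 = (hsb_t n).1 := by rw [← h, ← g]
  have e2 : 4 * NN (m - 1) - 3 = 4 * NN (n - 1) - 3 := e
  have a1 := Bas_NNpos (m - 1)
  have a2 := Bas_NNpos (n - 1)
  rcases lt_trichotomy (m - 1) (n - 1) with h2 | h2 | h2
  · have := Bas_NNlt h2
    omega
  · omega
  · have := Bas_NNlt h2
    omega

theorem hsb_le1 (s : ℝ) (hs' : 0 ≤ s) (f : V → V) (k : Fin 3 → ℤ) : fq f k ≤ hsb_w s f k := by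
  unfold hsb_w
  have h : 1 ≤ (1 + ∑ j, (k j : ℝ) ^ 2) ^ s := by
    refine Real.one_le_rpow ?_ hs'
    have : 0 ≤ ∑ j, (k j : ℝ) ^ 2 := Finset.sum_nonneg fun _ _ => sq_nonneg _
    linarith
  have := mul_le_mul_of_nonneg_right h (hsb_fq f k)
  linarith

theorem hsb_Fq (s : ℝ) (hs' : 0 ≤ s) (p : ℕ) (f : V → V) (t : ℕ × ℕ × ℕ) :
    hsb_F p f t ≤ hsb_q p s f t := by
  unfold hsb_F hsb_q
  have h1 := hsb_le1 s hs' f (hsb_k p 1 1 t)
  have h2 := hsb_le1 s hs' f (hsb_k p 1 (-1) t)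
  have h3 := hsb_le1 s hs' f (hsb_k p (-1) 1 t)
  have h4 := hsb_le1 s hs' f (hsb_k p (-1) (-1) t)
  linarith

theorem hsb_R (m : ℕ) (s : ℝ) : (RR m : ℝ) ^ (4 * s) = ((NN m : ℝ) ^ 2) ^ s := by
  have h : (NN m : ℝ) ^ 2 = (RR m : ℝ) ^ (4 : ℝ) := by
    have : (NN m : ℝ) = (RR m : ℝ) ^ 2 := by unfold NN; push_cast; rfl
    have h4 : (RR m : ℝ) ^ (4 : ℝ) = (RR m : ℝ) ^ (4 : ℕ) := by
      exact_mod_cast Real.rpow_natCast (RR m : ℝ) 4
    rw [h4, this]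
    ring
  rw [h, ← Real.rpow_mul (Nat.cast_nonneg _)]

theorem hsb_big {p : ℕ} (hp : 1 ≤ p) (s : ℝ) (hs' : 0 ≤ s) (f : V → V) {m : ℕ}
    {t : ℕ × ℕ × ℕ} (ht : t ∈ hsb_T m) (e d : ℤ) :
    (RR m : ℝ) ^ (4 * s) * fq f (hsb_k p e d t) ≤ hsb_w s f (hsb_k p e d t) := by
  unfold hsb_w
  rw [hsb_R]
  refine mul_le_mul_of_nonneg_right ?_ (hsb_fq f _)
  refine Real.rpow_le_rpow (sq_nonneg _) ?_ hs'
  have h1 : (NN m : ℝ) ≤ t.1 := by exact_mod_cast (hsb_mem ht).1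
  have h2 : (1 : ℝ) ≤ p := by exact_mod_cast hp
  have h3 : ((hsb_k p e d t 0 : ℤ) : ℝ) = p * t.1 := by
    have : hsb_k p e d t 0 = (p : ℤ) * t.1 := rfl
    rw [this]
    push_cast
    ring
  rw [Fin.sum_univ_three, h3]
  have h4 : (0 : ℝ) ≤ NN m := Nat.cast_nonneg _
  have h5 : (NN m : ℝ) ≤ p * t.1 := by nlinarith
  have h6 : (NN m : ℝ) ^ 2 ≤ (p * t.1 : ℝ) ^ 2 := pow_le_pow_left₀ h4 h5 2
  have h7 := sq_nonneg ((hsb_k p e d t 1 : ℤ) : ℝ)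
  have h8 := sq_nonneg ((hsb_k p e d t 2 : ℤ) : ℝ)
  linarith

theorem hsb_bigF {p : ℕ} (hp : 1 ≤ p) (s : ℝ) (hs' : 0 ≤ s) (f : V → V) {m : ℕ}
    {t : ℕ × ℕ × ℕ} (ht : t ∈ hsb_T m) :
    (RR m : ℝ) ^ (4 * s) * hsb_F p f t ≤ hsb_q p s f t := by
  unfold hsb_F hsb_q
  have h1 := hsb_big hp s hs' f ht 1 1
  have h2 := hsb_big hp s hs' f ht 1 (-1)
  have h3 := hsb_big hp s hs' f ht (-1) 1
  have h4 := hsb_big hp s hs' f ht (-1) (-1)
  linarith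

theorem hsb_inv (hn : S_nm) (m : ℕ) : (nm m)⁻¹ ^ 2 * (NN m : ℝ) ^ 3 ≤ 8 := by
  obtain ⟨⟨h1, _⟩, h3⟩ := hn m
  have h4 : 0 < nm m ^ 2 := by positivity
  rw [inv_pow, inv_mul_eq_div, div_le_iff₀ h4]
  linarith

theorem hsb_main (hn : S_nm) {p : ℕ} (hp : 1 ≤ p) (s : ℝ) (hs' : 0 ≤ s) {f : V → V}
    (hf : ∀ i, SP (fun x => f x i)) (m : ℕ) :
    (RR m : ℝ) ^ (4 * s) * ((nm m)⁻¹ ^ 2
        * hsb_J f (hsb_T m) (fun _ => 1) (fun t => -((t.1 : ℝ) / t.2.2)) p ^ 2)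
      ≤ 8 * ∑ t ∈ hsb_T m, hsb_q p s f t := by
  have h1 := hsb_cs hf p (hsb_T m) (fun _ => 1) (fun t => -((t.1 : ℝ) / t.2.2))
  have h2 : ∑ t ∈ hsb_T m, ((1 : ℝ) ^ 2 + (-((t.1 : ℝ) / t.2.2)) ^ 2) ≤ 2 * (NN m : ℝ) ^ 3 := by
    calc ∑ t ∈ hsb_T m, ((1 : ℝ) ^ 2 + (-((t.1 : ℝ) / t.2.2)) ^ 2)
        ≤ ∑ _t ∈ hsb_T m, (2 : ℝ) := by
          refine Finset.sum_le_sum fun t ht => ?_
          obtain ⟨g1, g2, g3⟩ := hsb_mem ht
          have g4 := Bas_NNpos m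
          have g5 : (0 : ℝ) < t.2.2 := by exact_mod_cast (by omega : 0 < t.2.2)
          have g6 : (t.1 : ℝ) ≤ t.2.2 := by exact_mod_cast (by omega : t.1 ≤ t.2.2)
          have g7 : (t.1 : ℝ) / t.2.2 ≤ 1 := (div_le_one g5).2 g6
          have g8 : 0 ≤ (t.1 : ℝ) / t.2.2 := div_nonneg (Nat.cast_nonneg _) g5.le
          have g9 : ((t.1 : ℝ) / t.2.2) ^ 2 ≤ 1 := pow_le_one₀ g8 g7
          rw [neg_sq, one_pow]
          linarith only [g9]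
      _ = 2 * (NN m : ℝ) ^ 3 := by
          rw [Finset.sum_const, nsmul_eq_mul]
          unfold hsb_T
          rw [Finset.card_product, Finset.card_product, Nat.card_Ico, Nat.card_Ico]
          have e1 : 2 * NN m - NN m = NN m := by omega
          have e2 : 17 * NN m - 16 * NN m = NN m := by omega
          rw [e1, e2]
          push_cast
          ring
  have h3 := hsb_inv hn m
  have h4 : 0 ≤ ∑ t ∈ hsb_T m, hsb_F p f t := Finset.sum_nonneg fun _ _ => hsb_F0 _ _ _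
  have h5 : (RR m : ℝ) ^ (4 * s) * ∑ t ∈ hsb_T m, hsb_F p f t ≤ ∑ t ∈ hsb_T m, hsb_q p s f t := by
    rw [Finset.mul_sum]
    exact Finset.sum_le_sum fun t ht => hsb_bigF hp s hs' f ht
  have h6 : 0 ≤ (RR m : ℝ) ^ (4 * s) := Real.rpow_nonneg (Nat.cast_nonneg _) _
  have h7 : 0 ≤ (nm m)⁻¹ ^ 2 := sq_nonneg _
  generalize ∑ t ∈ hsb_T m, ((1 : ℝ) ^ 2 + (-((t.1 : ℝ) / t.2.2)) ^ 2) = a at *
  generalize ∑ t ∈ hsb_T m, hsb_F p f t = F at *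
  generalize ∑ t ∈ hsb_T m, hsb_q p s f t = Q at *
  generalize hsb_J f (hsb_T m) (fun _ => 1) (fun t => -((t.1 : ℝ) / t.2.2)) p = J at *
  generalize (RR m : ℝ) ^ (4 * s) = R at *
  generalize (nm m)⁻¹ ^ 2 = n at *
  have h8 : J ^ 2 ≤ (NN m : ℝ) ^ 3 * F := by
    refine h1.trans ?_
    have := mul_le_mul_of_nonneg_right h2 h4
    linarith
  have h9 : n * J ^ 2 ≤ 8 * F := by
    have a1 := mul_le_mul_of_nonneg_left h8 h7
    have a2 := mul_le_mul_of_nonneg_right h3 h4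
    linarith
  have h10 := mul_le_mul_of_nonneg_left h9 h6
  linarith

theorem hsb_pump (hn : S_nm) (s : ℝ) (hs' : 0 ≤ s) : ∃ K : ℝ, 0 ≤ K ∧ ∀ (p : ℕ) (f : V → V),
    (∀ i, SP (fun x => f x i)) → ∀ m : ℕ,
    (RR m : ℝ) ^ (4 * s) * ((nm m)⁻¹ ^ 2 * (ee' m ^ 2 * hsb_J f {hsb_t m}
      (fun t => 2 * Real.pi * t.2.2) (fun t => -(2 * Real.pi * t.1)) p ^ 2))
      ≤ K * ∑ t ∈ hsb_T' m, hsb_q p s f t := by
  obtain ⟨n, hn4⟩ := exists_nat_ge (4 * s)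
  obtain ⟨K, hK⟩ := Fin_exp_bd n
  have hK0 : 0 ≤ K := le_trans (by positivity) (hK 0)
  refine ⟨1000000 * K, by positivity, fun p f hf m => ?_⟩
  by_cases hm : m = 0
  · subst hm
    have e : ee' 0 = 0 := by unfold ee'; rw [if_pos rfl]
    rw [e]
    unfold hsb_T'
    rw [if_pos rfl]
    simp
  obtain ⟨k, rfl⟩ : ∃ k, m = k + 1 := ⟨m - 1, by omega⟩
  unfold hsb_T'
  rw [if_neg hm, Finset.sum_singleton]
  have h1 := hsb_cs hf p {hsb_t (k + 1)} (fun t => 2 * Real.pi * t.2.2)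
    (fun t => -(2 * Real.pi * t.1))
  rw [Finset.sum_singleton, Finset.sum_singleton] at h1
  have h2 := hsb_Fq s hs' p f (hsb_t (k + 1))
  have h3 := hsb_inv hn (k + 1)
  have h4 := hsb_F0 p f (hsb_t (k + 1))
  have hee := nm_ee (k + 1)
  have he : ee' (k + 1) = Real.exp (-bb k) := by
    unfold ee'
    rw [if_neg (Nat.succ_ne_zero k)]
    rfl
  have h5 : (RR (k + 1) : ℝ) ^ (4 * s) * ee' (k + 1) ^ 2 ≤ K := by
    have g1 : (1 : ℝ) ≤ RR (k + 1) := by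
      have : 1 ≤ RR (k + 1) := by
        unfold RR
        exact Nat.one_le_two_pow
      exact_mod_cast this
    have g2 : (RR (k + 1) : ℝ) ^ (4 * s) ≤ (RR (k + 1) : ℝ) ^ n := by
      rw [← Real.rpow_natCast]
      exact Real.rpow_le_rpow_of_exponent_le g1 hn4
    have g3 : ee' (k + 1) ^ 2 ≤ ee' (k + 1) := by
      rw [sq]
      exact mul_le_of_le_one_left hee.1 hee.2
    have g4 : 0 ≤ (RR (k + 1) : ℝ) ^ n := pow_nonneg (Nat.cast_nonneg _) _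
    calc (RR (k + 1) : ℝ) ^ (4 * s) * ee' (k + 1) ^ 2
        ≤ (RR (k + 1) : ℝ) ^ n * ee' (k + 1) := mul_le_mul g2 g3 (sq_nonneg _) g4
      _ = Real.exp (-bb k) * (RR (k + 1) : ℝ) ^ n := by rw [he]; ring
      _ ≤ K := hK k
  have hN' : 1 ≤ NN k := Bas_NNpos k
  have hNN : 4 * NN k ≤ NN (k + 1) := Bas_NN k
  have a1 : ((hsb_t (k + 1)).1 : ℝ) ≤ NN (k + 1) := by
    have : (hsb_t (k + 1)).1 = 4 * NN k - 3 := rfl
    rw [this]
    exact_mod_cast (by omega : 4 * NN k - 3 ≤ NN (k + 1))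
  have a2 : ((hsb_t (k + 1)).2.2 : ℝ) ≤ 9 * NN (k + 1) := by
    have : (hsb_t (k + 1)).2.2 = 2 * (17 * NN k - 1) := rfl
    rw [this]
    exact_mod_cast (by omega : 2 * (17 * NN k - 1) ≤ 9 * NN (k + 1))
  have a3 : (0 : ℝ) ≤ (hsb_t (k + 1)).1 := Nat.cast_nonneg _
  have a4 : (0 : ℝ) ≤ (hsb_t (k + 1)).2.2 := Nat.cast_nonneg _
  have a5 : (1 : ℝ) ≤ NN (k + 1) := by exact_mod_cast (by omega : 1 ≤ NN (k + 1))
  have p3 := Real.pi_gt_three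
  have p4 := Real.pi_lt_four
  have h6 : (2 * Real.pi * (hsb_t (k + 1)).2.2) ^ 2 + (-(2 * Real.pi * (hsb_t (k + 1)).1)) ^ 2
      ≤ 5248 * (NN (k + 1) : ℝ) ^ 3 := by
    have b0 : 0 ≤ 2 * Real.pi := mul_nonneg zero_le_two Real.pi_pos.le
    have b00 : 2 * Real.pi ≤ 8 := by linarith only [p4]
    have b1 : 2 * Real.pi * (hsb_t (k + 1)).2.2 ≤ 72 * NN (k + 1) := by
      have h := mul_le_mul b00 a2 a4 (by norm_num : (0 : ℝ) ≤ 8)
      rw [← mul_assoc, show (8 : ℝ) * 9 = 72 by norm_num] at h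
      exact h
    have b2 : 2 * Real.pi * (hsb_t (k + 1)).1 ≤ 8 * NN (k + 1) :=
      mul_le_mul b00 a1 a3 (by norm_num)
    have b3 : 0 ≤ 2 * Real.pi * (hsb_t (k + 1)).2.2 := mul_nonneg b0 a4
    have b4 : 0 ≤ 2 * Real.pi * (hsb_t (k + 1)).1 := mul_nonneg b0 a3
    have b5 := pow_le_pow_left₀ b3 b1 2
    have b6 := pow_le_pow_left₀ b4 b2 2
    have b7 : (NN (k + 1) : ℝ) ^ 2 ≤ (NN (k + 1) : ℝ) ^ 3 := pow_le_pow_right₀ a5 (by norm_num)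
    rw [neg_sq]
    refine (add_le_add b5 b6).trans ?_
    have b8 : (72 * (NN (k + 1) : ℝ)) ^ 2 + (8 * (NN (k + 1) : ℝ)) ^ 2
        = 5248 * (NN (k + 1) : ℝ) ^ 2 := by ring
    rw [b8]
    exact mul_le_mul_of_nonneg_left b7 (by norm_num)
  have h7 : 0 ≤ (nm (k + 1))⁻¹ ^ 2 := sq_nonneg _
  have h8 : 0 ≤ (RR (k + 1) : ℝ) ^ (4 * s) * ee' (k + 1) ^ 2 :=
    mul_nonneg (Real.rpow_nonneg (Nat.cast_nonneg _) _) (sq_nonneg _)
  have h9 : (nm (k + 1))⁻¹ ^ 2 * hsb_J f {hsb_t (k + 1)} (fun t => 2 * Real.pi * t.2.2)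
      (fun t => -(2 * Real.pi * t.1)) p ^ 2 ≤ 1000000 * hsb_q p s f (hsb_t (k + 1)) := by
    have c1 := mul_le_mul_of_nonneg_left h1 h7
    have c2 := mul_le_mul_of_nonneg_left h6 h7
    have c3 : (nm (k + 1))⁻¹ ^ 2 * ((2 * Real.pi * (hsb_t (k + 1)).2.2) ^ 2
      + (-(2 * Real.pi * (hsb_t (k + 1)).1)) ^ 2) ≤ 41984 := by linarith
    have c4 := mul_le_mul_of_nonneg_right c3 h4
    have c5 := hsb_q0 p s f (hsb_t (k + 1))
    linarith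
  have h10 : 0 ≤ 1000000 * hsb_q p s f (hsb_t (k + 1)) := by
    have := hsb_q0 p s f (hsb_t (k + 1))
    linarith
  have h11 := mul_le_mul_of_nonneg_left h9 h8
  have h12 := mul_le_mul_of_nonneg_right h5 h10
  calc _ = (RR (k + 1) : ℝ) ^ (4 * s) * ee' (k + 1) ^ 2 * ((nm (k + 1))⁻¹ ^ 2 *
        hsb_J f {hsb_t (k + 1)} (fun t => 2 * Real.pi * t.2.2)
          (fun t => -(2 * Real.pi * t.1)) p ^ 2) := by ring
    _ ≤ _ := by linarith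

/-- Bessel's inequality in Sobolev spaces, from the calculus of the product functions -/
theorem hsb_all (P : S_prod) (O : S_one) (hn : S_nm) : S_hsb := by
  intro p s hp hs'
  obtain ⟨K, hK0, hK⟩ := hsb_pump hn s hs'
  refine ⟨64 + 8 * K, add_nonneg (by norm_num) (mul_nonneg (by norm_num) hK0),
    fun f hf M => ?_⟩
  have hX0 : 0 ≤ ∑ m ∈ Finset.range M, ∑ t ∈ hsb_T m, hsb_q p s f t :=
    Finset.sum_nonneg fun _ _ => Finset.sum_nonneg fun _ _ => hsb_q0 _ _ _ _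
  have hY0 : 0 ≤ ∑ m ∈ Finset.range M, ∑ t ∈ hsb_T' m, hsb_q p s f t :=
    Finset.sum_nonneg fun _ _ => Finset.sum_nonneg fun _ _ => hsb_q0 _ _ _ _
  have h1 : ∑ m ∈ Finset.range M, (RR m : ℝ) ^ (4 * s)
        * (∑ i, ∫ x in cube, f x i * phi m ((p : ℝ) • x) i) ^ 2
      ≤ 16 * (∑ m ∈ Finset.range M, ∑ t ∈ hsb_T m, hsb_q p s f t)
        + 2 * K * ∑ m ∈ Finset.range M, ∑ t ∈ hsb_T' m, hsb_q p s f t := by
    rw [Finset.mul_sum, Finset.mul_sum, ← Finset.sum_add_distrib]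
    refine Finset.sum_le_sum fun m _ => ?_
    rw [hsb_ip P O hf]
    have g1 := hsb_main hn hp s hs' hf m
    have g2 := hK p f hf m
    have g3 : 0 ≤ (RR m : ℝ) ^ (4 * s) := Real.rpow_nonneg (Nat.cast_nonneg _) _
    generalize hsb_J f (hsb_T m) (fun _ => 1) (fun t => -((t.1 : ℝ) / t.2.2)) p = A at *
    generalize hsb_J f {hsb_t m} (fun t => 2 * Real.pi * t.2.2)
      (fun t => -(2 * Real.pi * t.1)) p = B at *
    have g4 : (-(nm m)⁻¹ * (A + ee' m * B)) ^ 2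
        ≤ 2 * ((nm m)⁻¹ ^ 2 * A ^ 2) + 2 * ((nm m)⁻¹ ^ 2 * (ee' m ^ 2 * B ^ 2)) := by
      have : 0 ≤ (nm m)⁻¹ ^ 2 * (A - ee' m * B) ^ 2 := mul_nonneg (sq_nonneg _) (sq_nonneg _)
      have e0 : 2 * ((nm m)⁻¹ ^ 2 * A ^ 2) + 2 * ((nm m)⁻¹ ^ 2 * (ee' m ^ 2 * B ^ 2))
          = (-(nm m)⁻¹ * (A + ee' m * B)) ^ 2 + (nm m)⁻¹ ^ 2 * (A - ee' m * B) ^ 2 := by ring
      rw [e0]
      exact le_add_of_nonneg_right this
    have g5 := mul_le_mul_of_nonneg_left g4 g3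
    linarith
  refine (ENNReal.ofReal_le_ofReal h1).trans ?_
  have h2K : 0 ≤ 2 * K := mul_nonneg zero_le_two hK0
  rw [ENNReal.ofReal_add (mul_nonneg (by norm_num) hX0) (mul_nonneg h2K hY0),
    ENNReal.ofReal_mul (by norm_num), ENNReal.ofReal_mul h2K]
  have a1 := hsb_sum hp s f hsb_T hsb_disj M
  have a2 := hsb_sum hp s f hsb_T' hsb_disj' M
  have e16 : ENNReal.ofReal (16 : ℝ) * 4 = ENNReal.ofReal 64 := by
    rw [← ENNReal.ofReal_ofNat 4, ← ENNReal.ofReal_mul (by norm_num)]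
    norm_num
  have e2 : ENNReal.ofReal (2 * K) * 4 = ENNReal.ofReal (8 * K) := by
    rw [← ENNReal.ofReal_ofNat 4, ← ENNReal.ofReal_mul h2K]
    congr 1
    ring
  calc _ ≤ ENNReal.ofReal 16 * (4 * hs s f) + ENNReal.ofReal (2 * K) * (4 * hs s f) :=
        add_le_add (mul_le_mul_right a1 _) (mul_le_mul_right a2 _)
    _ = (ENNReal.ofReal 64 + ENNReal.ofReal (8 * K)) * hs s f := by
        rw [← mul_assoc, ← mul_assoc, e16, e2, add_mul]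
    _ = ENNReal.ofReal (64 + 8 * K) * hs s f := by
        rw [ENNReal.ofReal_add (by norm_num) (mul_nonneg (by norm_num) hK0)]

/-- Bessel's inequality in Sobolev spaces -/
theorem s_hsb (_hI : S_int) (_hb : Basis phi cc pp gg) (hn : S_nm) : S_hsb :=
  hsb_all s_prod s_one hn

end Pool.Agent.H226.GB

end
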