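import Pool.Agent.H226.GM.S
import Pool.Agent.H226.GM.OneDim

/-! ## Ker -/

section

/-!
Dirichlet-type kernels in `L^(3/2)` (helper233 for helper226).
-/

set_option autoImplicit false

open MeasureTheory Set Filter Topology
open scoped ContDiff ENNReal
open H459R3.NS

namespace Pool.Agent.H226.GB

/-- the closed form of sums of sines -/
theorem ker_sum_sn (A : ℕ) (s : ℝ) (n : ℕ) (hn : A ≤ n) :
    2 * Real.sin (Real.pi * s) * ∑ j ∈ Finset.Ico A n, sn j s =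
      Real.cos ((2 * (A : ℝ) - 1) * (Real.pi * s)) -
        Real.cos ((2 * (n : ℝ) - 1) * (Real.pi * s)) := by
  induction n, hn using Nat.le_induction with
  | base => simp
  | succ n hn ih =>
    rw [Finset.sum_Ico_succ_top hn, mul_add, ih]
    have h1 : 2 * Real.sin (Real.pi * s) * sn n s = Real.cos ((2 * (n : ℝ) - 1) * (Real.pi * s)) -
        Real.cos ((2 * ((n + 1 : ℕ) : ℝ) - 1) * (Real.pi * s)) := by
      unfold sn
      have e1 : (2 * (n : ℝ) - 1) * (Real.pi * s) = 2 * Real.pi * n * s - Real.pi * s := by ring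
      have e2 : (2 * ((n + 1 : ℕ) : ℝ) - 1) * (Real.pi * s) =
          2 * Real.pi * n * s + Real.pi * s := by
        push_cast
        ring
      rw [e1, e2, Real.cos_sub, Real.cos_add]
      ring
    rw [h1]
    ring

/-- the closed form of sums of cosines -/
theorem ker_sum_cs (A : ℕ) (s : ℝ) (n : ℕ) (hn : A ≤ n) :
    2 * Real.sin (Real.pi * s) * ∑ j ∈ Finset.Ico A n, cs j s =
      Real.sin ((2 * (n : ℝ) - 1) * (Real.pi * s)) -
        Real.sin ((2 * (A : ℝ) - 1) * (Real.pi * s)) := by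
  induction n, hn using Nat.le_induction with
  | base => simp
  | succ n hn ih =>
    rw [Finset.sum_Ico_succ_top hn, mul_add, ih]
    have h1 : 2 * Real.sin (Real.pi * s) * cs n s =
        Real.sin ((2 * ((n + 1 : ℕ) : ℝ) - 1) * (Real.pi * s)) -
          Real.sin ((2 * (n : ℝ) - 1) * (Real.pi * s)) := by
      unfold cs
      have e1 : (2 * (n : ℝ) - 1) * (Real.pi * s) = 2 * Real.pi * n * s - Real.pi * s := by ring
      have e2 : (2 * ((n + 1 : ℕ) : ℝ) - 1) * (Real.pi * s) =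
          2 * Real.pi * n * s + Real.pi * s := by
        push_cast
        ring
      rw [e1, e2, Real.sin_sub, Real.sin_add]
      ring
    rw [h1]
    ring

/-- Jordan's inequality -/
theorem ker_jordan {s : ℝ} (h0 : 0 ≤ s) (h1 : s ≤ 1 / 2) : 2 * s ≤ Real.sin (Real.pi * s) := by
  have hpi := Real.pi_pos
  have h2 := Real.mul_le_sin (x := Real.pi * s) (by positivity) (by nlinarith)
  have h3 : 2 / Real.pi * (Real.pi * s) = 2 * s := by
    field_simp
  rw [h3] at h2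
  exact h2

theorem ker_jordan' {s : ℝ} (h0 : 1 / 2 ≤ s) (h1 : s ≤ 1) :
    2 * (1 - s) ≤ Real.sin (Real.pi * s) := by
  have h2 := ker_jordan (s := 1 - s) (by linarith) (by linarith)
  have h3 : Real.pi * (1 - s) = Real.pi - Real.pi * s := by ring
  rw [h3, Real.sin_pi_sub] at h2
  exact h2

/-- bounded sequences with bounded sums -/
def ker_B (τ : ℝ) (c : ℕ → ℝ) : Prop :=
  (∀ j, |c j| ≤ 1) ∧ ∀ A n, A ≤ n → τ * |∑ j ∈ Finset.Ico A n, c j| ≤ 1

theorem ker_B_sn {τ s : ℝ} (h0 : 0 ≤ τ) (h1 : τ ≤ Real.sin (Real.pi * s)) :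
    ker_B τ (fun j => sn j s) := by
  refine ⟨fun j => Real.abs_sin_le_one _, fun A n hn => ?_⟩
  have h2 := ker_sum_sn A s n hn
  have h3 := Real.abs_cos_le_one ((2 * (A : ℝ) - 1) * (Real.pi * s))
  have h4 := Real.abs_cos_le_one ((2 * (n : ℝ) - 1) * (Real.pi * s))
  have h5 : |2 * Real.sin (Real.pi * s) * ∑ j ∈ Finset.Ico A n, sn j s| ≤ 2 := by
    rw [h2]
    refine (abs_sub _ _).trans ?_
    linarith
  have h6 : 0 ≤ Real.sin (Real.pi * s) := h0.trans h1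
  rw [abs_mul, abs_mul, abs_of_nonneg h6, abs_of_pos (by norm_num : (0 : ℝ) < 2)] at h5
  have h7 := mul_le_mul_of_nonneg_right h1 (abs_nonneg (∑ j ∈ Finset.Ico A n, sn j s))
  linarith

theorem ker_B_cs {τ s : ℝ} (h0 : 0 ≤ τ) (h1 : τ ≤ Real.sin (Real.pi * s)) :
    ker_B τ (fun j => cs j s) := by
  refine ⟨fun j => Real.abs_cos_le_one _, fun A n hn => ?_⟩
  have h2 := ker_sum_cs A s n hn
  have h3 := Real.abs_sin_le_one ((2 * (A : ℝ) - 1) * (Real.pi * s))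
  have h4 := Real.abs_sin_le_one ((2 * (n : ℝ) - 1) * (Real.pi * s))
  have h5 : |2 * Real.sin (Real.pi * s) * ∑ j ∈ Finset.Ico A n, cs j s| ≤ 2 := by
    rw [h2]
    refine (abs_sub _ _).trans ?_
    linarith
  have h6 : 0 ≤ Real.sin (Real.pi * s) := h0.trans h1
  rw [abs_mul, abs_mul, abs_of_nonneg h6, abs_of_pos (by norm_num : (0 : ℝ) < 2)] at h5
  have h7 := mul_le_mul_of_nonneg_right h1 (abs_nonneg (∑ j ∈ Finset.Ico A n, cs j s))
  linarith

/-- summation by parts -/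
theorem ker_abel (a c : ℕ → ℝ) (A n : ℕ) (hn : A ≤ n) : ∑ j ∈ Finset.Ico A n, a j * c j =
    a n * ∑ j ∈ Finset.Ico A n, c j -
      ∑ j ∈ Finset.Ico A n, (a (j + 1) - a j) * ∑ i ∈ Finset.Ico A (j + 1), c i := by
  induction n, hn using Nat.le_induction with
  | base => simp
  | succ n hn ih =>
    rw [Finset.sum_Ico_succ_top hn, ih, Finset.sum_Ico_succ_top hn (fun j =>
      (a (j + 1) - a j) * ∑ i ∈ Finset.Ico A (j + 1), c i), Finset.sum_Ico_succ_top hn]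
    ring

theorem ker_abel_bd (a c : ℕ → ℝ) (A n : ℕ) (hn : A ≤ n) (P : ℝ)
    (hP : ∀ m, A ≤ m → m ≤ n → |∑ j ∈ Finset.Ico A m, c j| ≤ P) (δ : ℕ → ℝ)
    (hδ : ∀ j ∈ Finset.Ico A n, |a (j + 1) - a j| ≤ δ j) :
    |∑ j ∈ Finset.Ico A n, a j * c j| ≤ (|a n| + ∑ j ∈ Finset.Ico A n, δ j) * P := by
  have hP0 : 0 ≤ P := (abs_nonneg _).trans (hP n hn le_rfl)
  rw [ker_abel a c A n hn, add_mul]
  refine (abs_sub _ _).trans (add_le_add ?_ ?_)
  · rw [abs_mul]
    exact mul_le_mul_of_nonneg_left (hP n hn le_rfl) (abs_nonneg _)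
  · refine (Finset.abs_sum_le_sum_abs _ _).trans ?_
    rw [Finset.sum_mul]
    refine Finset.sum_le_sum fun j hj => ?_
    rw [abs_mul]
    have hj2 := Finset.mem_Ico.1 hj
    exact mul_le_mul (hδ j hj) (hP (j + 1) (by omega) (by omega)) (abs_nonneg _)
      ((abs_nonneg _).trans (hδ j hj))

theorem ker_tele (a : ℕ → ℝ) (A n : ℕ) (hn : A ≤ n) :
    ∑ j ∈ Finset.Ico A n, (a (j + 1) - a j) = a n - a A := by
  induction n, hn using Nat.le_induction with
  | base => simp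
  | succ n hn ih =>
    rw [Finset.sum_Ico_succ_top hn, ih]
    ring

theorem ker_abel_mono (a c : ℕ → ℝ) (A n : ℕ) (hn : A ≤ n) (P : ℝ)
    (hP : ∀ m, A ≤ m → m ≤ n → |∑ j ∈ Finset.Ico A m, c j| ≤ P) (ha : ∀ j, 0 ≤ a j)
    (hm : ∀ j, a j ≤ a (j + 1)) :
    |∑ j ∈ Finset.Ico A n, a j * c j| ≤ 2 * a n * P := by
  have hP0 : 0 ≤ P := (abs_nonneg _).trans (hP n hn le_rfl)
  refine (ker_abel_bd a c A n hn P hP (fun j => a (j + 1) - a j) (fun j _ => ?_)).trans ?_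
  · rw [abs_of_nonneg (by linarith [hm j])]
  · rw [ker_tele a A n hn, abs_of_nonneg (ha n)]
    refine mul_le_mul_of_nonneg_right ?_ hP0
    linarith [ha A]

theorem ker_abel_anti (a c : ℕ → ℝ) (A n : ℕ) (hn : A ≤ n) (P : ℝ)
    (hP : ∀ m, A ≤ m → m ≤ n → |∑ j ∈ Finset.Ico A m, c j| ≤ P) (ha : ∀ j, 0 ≤ a j)
    (hm : ∀ j, A ≤ j → a (j + 1) ≤ a j) :
    |∑ j ∈ Finset.Ico A n, a j * c j| ≤ a A * P := by
  have hP0 : 0 ≤ P := (abs_nonneg _).trans (hP n hn le_rfl)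
  refine (ker_abel_bd a c A n hn P hP (fun j => -(a (j + 1) - a j)) (fun j hj => ?_)).trans ?_
  · rw [abs_of_nonpos (by linarith [hm j (Finset.mem_Ico.1 hj).1])]
  · rw [Finset.sum_neg_distrib, ker_tele a A n hn, abs_of_nonneg (ha n)]
    refine mul_le_mul_of_nonneg_right ?_ hP0
    linarith

/-- the trivial bound -/
theorem ker_triv {c : ℕ → ℝ} (hc : ∀ j, |c j| ≤ 1) {A n m : ℕ} (hm : m ≤ n) (hA : A ≤ m) :
    |∑ j ∈ Finset.Ico A m, c j| ≤ ((n - A : ℕ) : ℝ) := by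
  refine (Finset.abs_sum_le_sum_abs _ _).trans ?_
  calc ∑ j ∈ Finset.Ico A m, |c j| ≤ ∑ j ∈ Finset.Ico A m, (1 : ℝ) :=
        Finset.sum_le_sum fun j _ => hc j
    _ = ((m - A : ℕ) : ℝ) := by
        rw [Finset.sum_const, Nat.card_Ico, nsmul_eq_mul, mul_one]
    _ ≤ _ := by
        have : m - A ≤ n - A := by omega
        exact_mod_cast this

/-- both bounds for sums with weights `1` -/
theorem ker_one {τ : ℝ} {c : ℕ → ℝ} (h : ker_B τ c) {A n : ℕ} (hn : A ≤ n) :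
    |∑ j ∈ Finset.Ico A n, c j| ≤ ((n - A : ℕ) : ℝ) ∧ τ * |∑ j ∈ Finset.Ico A n, c j| ≤ 1 :=
  ⟨ker_triv h.1 le_rfl hn, h.2 A n hn⟩

/-- both bounds for sums with increasing weights -/
theorem ker_inc {τ : ℝ} (hτ : 0 ≤ τ) {c : ℕ → ℝ} (h : ker_B τ c) {A n : ℕ} (hn : A ≤ n)
    (a : ℕ → ℝ) (ha : ∀ j, 0 ≤ a j) (hm : ∀ j, a j ≤ a (j + 1)) :
    |∑ j ∈ Finset.Ico A n, a j * c j| ≤ 2 * a n * ((n - A : ℕ) : ℝ) ∧
      τ * |∑ j ∈ Finset.Ico A n, a j * c j| ≤ 2 * a n := by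
  constructor
  · exact ker_abel_mono a c A n hn _ (fun m h1 h2 => ker_triv h.1 h2 h1) ha hm
  · have h1 := ker_abel_mono a (fun j => τ * c j) A n hn 1 (fun m h1 h2 => by
      rw [← Finset.mul_sum, abs_mul, abs_of_nonneg hτ]
      exact h.2 A m h1) ha hm
    have h2 : ∑ j ∈ Finset.Ico A n, a j * (τ * c j) = τ * ∑ j ∈ Finset.Ico A n, a j * c j := by
      rw [Finset.mul_sum]
      exact Finset.sum_congr rfl fun j _ => by ring
    rw [h2, abs_mul, abs_of_nonneg hτ, mul_one] at h1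
    exact h1

/-- both bounds for sums with decreasing weights -/
theorem ker_dec {τ : ℝ} (hτ : 0 ≤ τ) {c : ℕ → ℝ} (h : ker_B τ c) {A n : ℕ} (hn : A ≤ n)
    (a : ℕ → ℝ) (ha : ∀ j, 0 ≤ a j) (hm : ∀ j, A ≤ j → a (j + 1) ≤ a j) :
    |∑ j ∈ Finset.Ico A n, a j * c j| ≤ a A * ((n - A : ℕ) : ℝ) ∧
      τ * |∑ j ∈ Finset.Ico A n, a j * c j| ≤ a A := by
  constructor
  · exact ker_abel_anti a c A n hn _ (fun m h1 h2 => ker_triv h.1 h2 h1) ha hm
  · have h1 := ker_abel_anti a (fun j => τ * c j) A n hn 1 (fun m h1 h2 => by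
      rw [← Finset.mul_sum, abs_mul, abs_of_nonneg hτ]
      exact h.2 A m h1) ha hm
    have h2 : ∑ j ∈ Finset.Ico A n, a j * (τ * c j) = τ * ∑ j ∈ Finset.Ico A n, a j * c j := by
      rw [Finset.mul_sum]
      exact Finset.sum_congr rfl fun j _ => by ring
    rw [h2, abs_mul, abs_of_nonneg hτ, mul_one] at h1
    exact h1

/-! ### The integral -/

/-- the majorant -/
noncomputable def ker_g (L s : ℝ) : ℝ := L ^ (3 / 2 : ℝ) * (1 + L * s) ^ (-(3 / 2) : ℝ)

theorem ker_g_cont {L : ℝ} (hL : 0 < L) : ContinuousOn (ker_g L) (Icc 0 1) := by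
  unfold ker_g
  refine continuousOn_const.mul ?_
  refine ContinuousOn.rpow_const (by fun_prop) fun s hs => Or.inl ?_
  have : 0 ≤ L * s := mul_nonneg hL.le hs.1
  linarith

theorem ker_g_nonneg {L s : ℝ} (hL : 0 < L) (hs : 0 ≤ s) : 0 ≤ ker_g L s := by
  have : 0 ≤ L * s := mul_nonneg hL.le hs
  unfold ker_g
  have h2 : 0 ≤ 1 + L * s := by linarith
  positivity

theorem ker_g_int {L : ℝ} (hL : 0 < L) : ∫ s in (0 : ℝ)..1, ker_g L s ≤ 2 * L ^ (1 / 2 : ℝ) := by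
  have hder : ∀ s ∈ Set.uIcc (0 : ℝ) 1,
      HasDerivAt (fun s => -2 * L ^ (1 / 2 : ℝ) * (1 + L * s) ^ (-(1 / 2) : ℝ)) (ker_g L s) s := by
    intro s hs
    rw [Set.uIcc_of_le zero_le_one] at hs
    have h1 : 0 < 1 + L * s := by
      have : 0 ≤ L * s := mul_nonneg hL.le hs.1
      linarith
    have h2 : HasDerivAt (fun s : ℝ => 1 + L * s) L s := by
      simpa using ((hasDerivAt_id s).const_mul L).const_add 1
    have h3 := (h2.rpow_const (p := (-(1 / 2) : ℝ)) (Or.inl h1.ne')).const_mul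
      (-2 * L ^ (1 / 2 : ℝ))
    refine h3.congr_deriv ?_
    unfold ker_g
    have h4 : L ^ (3 / 2 : ℝ) = L ^ (1 / 2 : ℝ) * L := by
      rw [← Real.rpow_add_one hL.ne']
      norm_num
    have h5 : (-(1 / 2) - 1 : ℝ) = -(3 / 2) := by norm_num
    rw [h4, h5]
    ring
  rw [intervalIntegral.integral_eq_sub_of_hasDerivAt hder
    (by
      refine ContinuousOn.intervalIntegrable ?_
      rw [Set.uIcc_of_le zero_le_one]
      exact ker_g_cont hL)]
  have h1 : 0 ≤ L ^ (1 / 2 : ℝ) * (1 + L * 1) ^ (-(1 / 2) : ℝ) := by positivity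
  have h2 : (1 + L * 0 : ℝ) ^ (-(1 / 2) : ℝ) = 1 := by
    rw [mul_zero, add_zero, Real.one_rpow]
  rw [h2]
  linarith

theorem ker_pt {x a : ℝ} {N : ℕ} (hN : 1 ≤ N) {t : ℝ} (ht : 0 ≤ t) (ha : 0 ≤ a)
    (h1 : |x| ≤ a * N) (h2 : 2 * t * |x| ≤ a) :
    |x| ^ (3 / 2 : ℝ) ≤ a ^ (3 / 2 : ℝ) * ker_g (2 * N) t := by
  have hNR : (1 : ℝ) ≤ N := by exact_mod_cast hN
  have hD : 0 < 1 + 2 * (N : ℝ) * t := by positivity
  have h3 : |x| ≤ a * (2 * N * (1 + 2 * (N : ℝ) * t)⁻¹) := by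
    have h4 : |x| * (1 + 2 * (N : ℝ) * t) ≤ a * (2 * N) := by
      have h5 : (N : ℝ) * (2 * t * |x|) ≤ N * a := mul_le_mul_of_nonneg_left h2 (by linarith)
      nlinarith
    rw [← mul_assoc, ← div_eq_mul_inv, le_div_iff₀ hD]
    exact h4
  have h5 := Real.rpow_le_rpow (abs_nonneg x) h3 (by norm_num : (0 : ℝ) ≤ 3 / 2)
  rw [Real.mul_rpow ha (by positivity), Real.mul_rpow (by positivity) (by positivity),
    Real.inv_rpow hD.le, ← Real.rpow_neg hD.le] at h5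
  exact h5

theorem ker_int (f : ℝ → ℝ) (hf : Continuous f) (N : ℕ) (hN : 1 ≤ N) (a : ℝ) (ha : 0 ≤ a)
    (h : ∀ s ∈ Icc (0 : ℝ) 1, ∀ τ, 0 ≤ τ → τ ≤ Real.sin (Real.pi * s) →
      |f s| ≤ a * N ∧ τ * |f s| ≤ a) :
    i1 (fun s => |f s| ^ (3 / 2 : ℝ)) ≤ 8 * a ^ (3 / 2 : ℝ) * (N : ℝ) ^ (1 / 2 : ℝ) := by
  have hNR : (1 : ℝ) ≤ N := by exact_mod_cast hN
  have hL : (0 : ℝ) < 2 * N := by linarith
  have hA : 0 ≤ a ^ (3 / 2 : ℝ) := by positivity
  have hc1 : ContinuousOn (ker_g (2 * N)) (Icc (0 : ℝ) 1) := ker_g_cont hL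
  have hc2 : ContinuousOn (fun s => ker_g (2 * N) (1 - s)) (Icc (0 : ℝ) 1) :=
    hc1.comp (by fun_prop) fun s hs => ⟨by linarith [hs.2], by linarith [hs.1]⟩
  have hi1 : IntervalIntegrable (ker_g (2 * N)) volume 0 1 := by
    refine ContinuousOn.intervalIntegrable ?_
    rw [Set.uIcc_of_le zero_le_one]
    exact hc1
  have hi2 : IntervalIntegrable (fun s => ker_g (2 * N) (1 - s)) volume 0 1 := by
    refine ContinuousOn.intervalIntegrable ?_
    rw [Set.uIcc_of_le zero_le_one]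
    exact hc2
  have hpt : ∀ s ∈ Icc (0 : ℝ) 1, |f s| ^ (3 / 2 : ℝ) ≤
      a ^ (3 / 2 : ℝ) * (ker_g (2 * N) s + ker_g (2 * N) (1 - s)) := by
    intro s hs
    have g1 := ker_g_nonneg hL hs.1
    have g2 := ker_g_nonneg (s := 1 - s) hL (by linarith [hs.2])
    rw [mul_add]
    have k1 := mul_nonneg hA g1
    have k2 := mul_nonneg hA g2
    rcases le_total s (1 / 2) with h1 | h1
    · obtain ⟨e1, e2⟩ := h s hs (2 * s) (by linarith [hs.1]) (ker_jordan hs.1 h1)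
      have := ker_pt hN hs.1 ha e1 e2
      linarith
    · obtain ⟨e1, e2⟩ := h s hs (2 * (1 - s)) (by linarith [hs.2]) (ker_jordan' h1 hs.2)
      have := ker_pt hN (by linarith [hs.2] : 0 ≤ 1 - s) ha e1 e2
      linarith
  unfold i1
  have hfi : IntervalIntegrable (fun s => |f s| ^ (3 / 2 : ℝ)) volume 0 1 :=
    (hf.abs.rpow_const fun s => Or.inr (by norm_num)).intervalIntegrable _ _
  have hm := intervalIntegral.integral_mono_on zero_le_one hfi ((hi1.add hi2).const_mul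
    (a ^ (3 / 2 : ℝ))) hpt
  refine hm.trans ?_
  rw [intervalIntegral.integral_const_mul, intervalIntegral.integral_add hi1 hi2]
  have e1 : ∫ s in (0 : ℝ)..1, ker_g (2 * N) (1 - s) = ∫ s in (0 : ℝ)..1, ker_g (2 * N) s := by
    rw [intervalIntegral.integral_comp_sub_left (fun s => ker_g (2 * N) s)]
    norm_num
  rw [e1]
  have e2 := ker_g_int hL
  have e3 : (2 * (N : ℝ)) ^ (1 / 2 : ℝ) ≤ 2 * (N : ℝ) ^ (1 / 2 : ℝ) := by
    rw [Real.mul_rpow (by norm_num) (by linarith)]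
    refine mul_le_mul_of_nonneg_right ?_ (by positivity)
    calc (2 : ℝ) ^ (1 / 2 : ℝ) ≤ 2 ^ (1 : ℝ) :=
          Real.rpow_le_rpow_of_exponent_le (by norm_num) (by norm_num)
      _ = 2 := Real.rpow_one 2
  calc a ^ (3 / 2 : ℝ) * ((∫ s in (0 : ℝ)..1, ker_g (2 * N) s) +
        ∫ s in (0 : ℝ)..1, ker_g (2 * N) s)
      ≤ a ^ (3 / 2 : ℝ) * (8 * (N : ℝ) ^ (1 / 2 : ℝ)) :=
        mul_le_mul_of_nonneg_left (by linarith) hA
    _ = 8 * a ^ (3 / 2 : ℝ) * (N : ℝ) ^ (1 / 2 : ℝ) := by ring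

/-! ### The derivatives -/

theorem ker_sn_cont (j : ℕ) : Continuous (sn j) := by
  unfold sn
  fun_prop

theorem ker_cs_cont (j : ℕ) : Continuous (cs j) := by
  unfold cs
  fun_prop

theorem ker_sn_der (j : ℕ) (s : ℝ) : HasDerivAt (sn j) (2 * Real.pi * j * cs j s) s := by
  have h1 : HasDerivAt (fun s : ℝ => 2 * Real.pi * j * s) (2 * Real.pi * j) s := by
    simpa using (hasDerivAt_id s).const_mul (2 * Real.pi * (j : ℝ))
  have h2 := h1.sin
  unfold sn cs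
  exact h2.congr_deriv (mul_comm _ _)

theorem ker_dF (N : ℕ) : deriv (fF N) =
    fun s => ∑ j ∈ Finset.Ico N (2 * N), 2 * Real.pi * j * cs j s := by
  funext s
  have h1 : HasDerivAt (fun s => ∑ j ∈ Finset.Ico N (2 * N), sn j s)
      (∑ j ∈ Finset.Ico N (2 * N), 2 * Real.pi * j * cs j s) s :=
    HasDerivAt.fun_sum fun j _ => ker_sn_der j s
  exact h1.deriv

theorem ker_dH (N : ℕ) (hN : 1 ≤ N) : deriv (fH N) =
    fun s => ∑ j ∈ Finset.Ico (16 * N) (17 * N), cs j s := by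
  funext s
  have h1 : HasDerivAt (fun s => ∑ j ∈ Finset.Ico (16 * N) (17 * N), sn j s / (2 * Real.pi * j))
      (∑ j ∈ Finset.Ico (16 * N) (17 * N), cs j s) s := by
    refine HasDerivAt.fun_sum fun j hj => ?_
    have h2 := (ker_sn_der j s).div_const (2 * Real.pi * j)
    have hj1 : 0 < j := by
      have := (Finset.mem_Ico.1 hj).1
      omega
    have h3 : (2 * Real.pi * (j : ℝ)) ≠ 0 := by
      have : (0 : ℝ) < j := by exact_mod_cast hj1
      have := Real.pi_pos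
      positivity
    rw [mul_div_cancel_left₀ _ h3] at h2
    exact h2
  exact h1.deriv

/-- **Ker.** -/
theorem s_ker : S_ker := by
  have hpi := Real.pi_pos
  have hpi3 := Real.pi_gt_three
  have hC1 : (1 : ℝ) ≤ (8 * Real.pi) ^ (3 / 2 : ℝ) :=
    Real.one_le_rpow (by linarith) (by norm_num)
  refine ⟨8 * (8 * Real.pi) ^ (3 / 2 : ℝ), by positivity, fun N hN => ?_⟩
  have hNR : (1 : ℝ) ≤ N := by exact_mod_cast hN
  have hN0 : (0 : ℝ) < N := by linarith
  have hroot : 0 ≤ (N : ℝ) ^ (1 / 2 : ℝ) := by positivity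
  have hone : 8 * (1 : ℝ) ^ (3 / 2 : ℝ) * (N : ℝ) ^ (1 / 2 : ℝ) ≤
      8 * (8 * Real.pi) ^ (3 / 2 : ℝ) * (N : ℝ) ^ (1 / 2 : ℝ) := by
    rw [Real.one_rpow]
    refine mul_le_mul_of_nonneg_right ?_ hroot
    linarith
  have hc1 : (2 * N - N : ℕ) = N := by omega
  have hc2 : (17 * N - 16 * N : ℕ) = N := by omega
  refine ⟨?_, ?_, ?_, ?_, ?_⟩
  · refine (ker_int (fF N) (continuous_finsetSum _ fun j _ => ker_sn_cont j) N hN 1 zero_le_one
      fun s _ τ h0 h1 => ?_).trans hone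
    have h2 := ker_one (ker_B_sn h0 h1) (by omega : N ≤ 2 * N)
    rw [hc1] at h2
    rw [one_mul]
    exact h2
  · refine (ker_int (fG N) (continuous_finsetSum _ fun j _ => ker_cs_cont j) N hN 1 zero_le_one
      fun s _ τ h0 h1 => ?_).trans hone
    have h2 := ker_one (ker_B_cs h0 h1) (by omega : N ≤ 2 * N)
    rw [hc1] at h2
    rw [one_mul]
    exact h2
  · rw [ker_dH N hN]
    refine (ker_int _ (continuous_finsetSum _ fun j _ => ker_cs_cont j) N hN 1 zero_le_one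
      fun s _ τ h0 h1 => ?_).trans hone
    have h2 := ker_one (ker_B_cs h0 h1) (by omega : 16 * N ≤ 17 * N)
    rw [hc2] at h2
    rw [one_mul]
    exact h2
  · rw [ker_dF N]
    refine (ker_int _ (continuous_finsetSum _ fun j _ =>
      continuous_const.mul (ker_cs_cont j)) N hN (8 * Real.pi * N) (by positivity)
      fun s _ τ h0 h1 => ?_).trans (le_of_eq ?_)
    · have h2 := ker_inc h0 (ker_B_cs h0 h1) (by omega : N ≤ 2 * N)
        (fun j => 2 * Real.pi * (j : ℝ)) (fun j => by positivity) (fun j => by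
          push_cast
          nlinarith)
      rw [hc1] at h2
      have h3 : 2 * (2 * Real.pi * ((2 * N : ℕ) : ℝ)) = 8 * Real.pi * N := by
        push_cast
        ring
      rw [h3] at h2
      exact h2
    · rw [Real.mul_rpow (by positivity) hN0.le, mul_assoc, mul_assoc, mul_assoc,
        ← Real.rpow_add hN0]
      norm_num
  · refine (ker_int (fH N) (continuous_finsetSum _ fun j _ =>
      (ker_sn_cont j).div_const _) N hN (1 / (32 * Real.pi * N)) (by positivity)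
      fun s _ τ h0 h1 => ?_).trans ?_
    · have h2 := ker_dec h0 (ker_B_sn h0 h1) (by omega : 16 * N ≤ 17 * N)
        (fun j => 1 / (2 * Real.pi * (j : ℝ))) (fun j => by positivity) (fun j hj => by
          have hj1 : (0 : ℝ) < j := by
            have : 0 < j := by omega
            exact_mod_cast this
          refine one_div_le_one_div_of_le (by positivity) ?_
          push_cast
          nlinarith)
      rw [hc2] at h2
      have h3 : 1 / (2 * Real.pi * ((16 * N : ℕ) : ℝ)) = 1 / (32 * Real.pi * N) := by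
        congr 1
        push_cast
        ring
      have h4 : fH N s = ∑ j ∈ Finset.Ico (16 * N) (17 * N), 1 / (2 * Real.pi * (j : ℝ)) * sn j s := by
        unfold fH
        exact Finset.sum_congr rfl fun j _ => by ring
      rw [h3] at h2
      rw [h4]
      exact h2
    · have h1 : (1 / (32 * Real.pi * N)) ^ (3 / 2 : ℝ) ≤ (N : ℝ) ^ (-(3 / 2) : ℝ) := by
        rw [Real.rpow_neg hN0.le, ← Real.inv_rpow hN0.le]
        refine Real.rpow_le_rpow (by positivity) ?_ (by norm_num)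
        rw [one_div]
        refine inv_anti₀ hN0 ?_
        nlinarith
      have h2 : (N : ℝ) ^ (-(3 / 2) : ℝ) * (N : ℝ) ^ (1 / 2 : ℝ) = (N : ℝ) ^ (-1 : ℝ) := by
        rw [← Real.rpow_add hN0]
        norm_num
      have h3 : 0 ≤ (N : ℝ) ^ (-1 : ℝ) := by positivity
      calc 8 * (1 / (32 * Real.pi * N)) ^ (3 / 2 : ℝ) * (N : ℝ) ^ (1 / 2 : ℝ)
          ≤ 8 * (N : ℝ) ^ (-(3 / 2) : ℝ) * (N : ℝ) ^ (1 / 2 : ℝ) :=
            mul_le_mul_of_nonneg_right (by linarith) hroot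
        _ = 8 * (N : ℝ) ^ (-1 : ℝ) := by rw [mul_assoc, h2]
        _ ≤ 8 * (8 * Real.pi) ^ (3 / 2 : ℝ) * (N : ℝ) ^ (-1 : ℝ) :=
            mul_le_mul_of_nonneg_right (by linarith) h3

end Pool.Agent.H226.GB

end

/-! ## L3p -/

section

/-!
The fields in `L^(3/2)`.
-/

set_option autoImplicit false

open MeasureTheory Set Filter Topology
open scoped ContDiff ENNReal
open H459R3.NS

namespace Pool.Agent.H226.GB

theorem l3p_half (a b : ℝ) :
    |a + b| ^ (3 / 2 : ℝ) ≤ 4 * (|a| ^ (3 / 2 : ℝ) + |b| ^ (3 / 2 : ℝ)) := by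
  have h2 : (2 : ℝ) ^ (3 / 2 : ℝ) ≤ 4 := by
    have h := Real.rpow_le_rpow_of_exponent_le (x := 2) (by norm_num)
      (show (3 / 2 : ℝ) ≤ ((2 : ℕ) : ℝ) by norm_num)
    rw [Real.rpow_natCast] at h
    linarith
  have ha := Real.rpow_nonneg (abs_nonneg a) (3 / 2 : ℝ)
  have hb := Real.rpow_nonneg (abs_nonneg b) (3 / 2 : ℝ)
  have hm : ∀ c : ℝ, 0 ≤ c → |a + b| ≤ 2 * c → |a + b| ^ (3 / 2 : ℝ) ≤ 4 * c ^ (3 / 2 : ℝ) := by
    intro c hc h
    calc |a + b| ^ (3 / 2 : ℝ) ≤ (2 * c) ^ (3 / 2 : ℝ) :=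
          Real.rpow_le_rpow (abs_nonneg _) h (by norm_num)
      _ = 2 ^ (3 / 2 : ℝ) * c ^ (3 / 2 : ℝ) := Real.mul_rpow (by norm_num) hc
      _ ≤ 4 * c ^ (3 / 2 : ℝ) := mul_le_mul_of_nonneg_right h2 (Real.rpow_nonneg hc _)
  have hab := abs_add_le a b
  rcases le_total |a| |b| with h | h
  · have := hm |b| (abs_nonneg b) (by linarith)
    linarith
  · have := hm |a| (abs_nonneg a) (by linarith)
    linarith

theorem l3p_prd (F G H : ℝ → ℝ) (x : V) : |prd F G H x| ^ (3 / 2 : ℝ) =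
    prd (fun s => |F s| ^ (3 / 2 : ℝ)) (fun s => |G s| ^ (3 / 2 : ℝ))
      (fun s => |H s| ^ (3 / 2 : ℝ)) x := by
  unfold prd
  rw [abs_mul, abs_mul, Real.mul_rpow (mul_nonneg (abs_nonneg _) (abs_nonneg _)) (abs_nonneg _),
    Real.mul_rpow (abs_nonneg _) (abs_nonneg _)]

theorem l3p_int (F G H : ℝ → ℝ) : ∫ x in cube, |prd F G H x| ^ (3 / 2 : ℝ) =
    i1 (fun s => |F s| ^ (3 / 2 : ℝ)) * i1 (fun s => |G s| ^ (3 / 2 : ℝ)) *
      i1 (fun s => |H s| ^ (3 / 2 : ℝ)) := by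
  rw [← Prod_.int]
  exact integral_congr_ae (Eventually.of_forall fun x => l3p_prd F G H x)

theorem l3p_pow {N n : ℝ} (hN0 : 0 < N) (hn : 0 < n) (hn2 : N ^ 3 / 8 ≤ n ^ 2) :
    n⁻¹ ^ (3 / 2 : ℝ) ≤ 8 * N ^ (-(9 / 4) : ℝ) := by
  have e1 : n⁻¹ ^ (3 / 2 : ℝ) = (n ^ 2) ^ (-(3 / 4) : ℝ) := by
    rw [← Real.rpow_natCast n 2, ← Real.rpow_mul hn.le, ← Real.rpow_neg_one n,
      ← Real.rpow_mul hn.le]
    norm_num
  have e2 : (n ^ 2) ^ (-(3 / 4) : ℝ) ≤ (N ^ 3 / 8) ^ (-(3 / 4) : ℝ) :=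
    Real.rpow_le_rpow_of_nonpos (by positivity) hn2 (by norm_num)
  have e3 : (N ^ 3 / 8) ^ (-(3 / 4) : ℝ) = 8 ^ (3 / 4 : ℝ) * N ^ (-(9 / 4) : ℝ) := by
    rw [Real.div_rpow (by positivity) (by norm_num), ← Real.rpow_natCast N 3,
      ← Real.rpow_mul hN0.le, Real.rpow_neg (by norm_num : (0:ℝ) ≤ 8), div_inv_eq_mul, mul_comm]
    norm_num
  have e4 : (8 : ℝ) ^ (3 / 4 : ℝ) ≤ 8 := by
    have := Real.rpow_le_rpow_of_exponent_le (x := 8) (by norm_num)
      (show (3 / 4 : ℝ) ≤ 1 by norm_num)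
    rwa [Real.rpow_one] at this
  rw [e1]
  refine e2.trans ?_
  rw [e3]
  exact mul_le_mul_of_nonneg_right e4 (Real.rpow_nonneg hN0.le _)

theorem l3p_main {N n C K : ℝ} {A D f : V → ℝ} (hN0 : 0 < N) (hn : 0 < n)
    (hn2 : N ^ 3 / 8 ≤ n ^ 2) (hK : 0 ≤ K) (hA : Continuous A)
    (hD : ∀ x, |D x| ≤ K * N) (hfA : ∀ x, |f x| = n⁻¹ * |A x + D x|)
    (hC : ∫ x in cube, |A x| ^ (3 / 2 : ℝ) ≤ C * N ^ (3 / 2 : ℝ)) :
    ∫ x in cube, |f x| ^ (3 / 2 : ℝ) ≤ 32 * (C + K ^ (3 / 2 : ℝ)) * N ^ (-(3 / 4) : ℝ) := by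
  have h1 := l3p_pow hN0 hn hn2
  have hp : 0 ≤ N ^ (-(9 / 4) : ℝ) := Real.rpow_nonneg hN0.le _
  have h2 : ∀ x, |f x| ^ (3 / 2 : ℝ) ≤ 8 * N ^ (-(9 / 4) : ℝ) *
      (4 * (|A x| ^ (3 / 2 : ℝ) + (K * N) ^ (3 / 2 : ℝ))) := by
    intro x
    rw [hfA x, Real.mul_rpow (inv_nonneg.2 hn.le) (abs_nonneg _)]
    have h3 := l3p_half (A x) (D x)
    have h4 : |D x| ^ (3 / 2 : ℝ) ≤ (K * N) ^ (3 / 2 : ℝ) :=
      Real.rpow_le_rpow (abs_nonneg _) (hD x) (by norm_num)
    exact mul_le_mul h1 (h3.trans (by linarith)) (Real.rpow_nonneg (abs_nonneg _) _)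
      (by linarith)
  have hcA : Continuous (fun x => |A x| ^ (3 / 2 : ℝ)) :=
    hA.abs.rpow_const (fun x => Or.inr (by norm_num))
  have h5 : ∫ x in cube, |f x| ^ (3 / 2 : ℝ) ≤ ∫ x in cube, 8 * N ^ (-(9 / 4) : ℝ) *
      (4 * (|A x| ^ (3 / 2 : ℝ) + (K * N) ^ (3 / 2 : ℝ))) :=
    integral_mono_of_nonneg (Eventually.of_forall fun x => Real.rpow_nonneg (abs_nonneg _) _)
      (integrableOn_cube (continuous_const.mul (continuous_const.mul
        (hcA.add continuous_const)))) (Eventually.of_forall h2)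
  refine h5.trans ?_
  rw [integral_const_mul, integral_const_mul,
    integral_add (integrableOn_cube hcA) (integrableOn_cube continuous_const), setIntegral_const,
    measureReal_def, volume_cube, ENNReal.toReal_one, one_smul, Real.mul_rpow hK hN0.le]
  have e5 : N ^ (-(3 / 4) : ℝ) = N ^ (-(9 / 4) : ℝ) * N ^ (3 / 2 : ℝ) := by
    rw [← Real.rpow_add hN0]
    norm_num
  rw [e5]
  have h6 := mul_le_mul_of_nonneg_left hC hp
  nlinarith [h6]

theorem l3p_dsn (k : ℕ) (s : ℝ) : |deriv (sn k) s| ≤ 2 * Real.pi * k := by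
  have h : HasDerivAt (sn k) (Real.cos (2 * Real.pi * k * s) * (2 * Real.pi * k * 1)) s :=
    ((hasDerivAt_id s).const_mul (2 * Real.pi * k)).sin
  rw [h.deriv, abs_mul, mul_one, abs_of_nonneg (show (0 : ℝ) ≤ 2 * Real.pi * k by positivity)]
  have h1 := Real.abs_cos_le_one (2 * Real.pi * k * s)
  exact mul_le_of_le_one_left (by positivity) h1

theorem l3p_sn (k : ℕ) (s : ℝ) : |sn k s| ≤ 1 := Real.abs_sin_le_one _

theorem l3p_cs (k : ℕ) (s : ℝ) : |cs k s| ≤ 1 := Real.abs_cos_le_one _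

theorem l3p_ee (m : ℕ) : |ee' m| ≤ 1 := by
  unfold ee'
  split
  · norm_num
  · rw [abs_of_pos (Real.exp_pos _), Real.exp_le_one_iff]
    unfold bb
    have : 0 ≤ ((RR (m - 1) : ℝ) / RR (m - 1 - 1)) ^ 5 / 2 ^ 13 := by positivity
    linarith

theorem l3p_RR (m : ℕ) : 0 < RR m := by
  unfold RR
  positivity

theorem l3p_NN (m : ℕ) : NN (m - 1) ≤ NN m := by
  unfold NN RR
  refine Nat.pow_le_pow_left (Nat.pow_le_pow_right (by norm_num) (Nat.pow_le_pow_left ?_ 3)) 2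
  omega

theorem l3p_smul {q : V → ℝ} (hq : SP q) (c : ℝ) : SP (fun x => c * q x) where
  smooth := contDiff_const.mul hq.smooth
  per := fun i x => by
    show c * q _ = c * q _
    rw [hq.per i x]

theorem l3p_pd_th {f g : V → ℝ} (hf : SP f) (hg : SP g) (c : ℝ) (j : Fin 3) (x : V) :
    pd j (fun y => f y + c * g y) x = pd j f x + c * pd j g x := by
  unfold pd
  have h : HasFDerivAt (fun y => f y + c * g y) _ x :=
    (hf.diff x).hasFDerivAt.add ((hg.diff x).hasFDerivAt.const_mul c)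
  rw [h.fderiv]
  rfl

theorem l3p_3 {a b c X Y Z : ℝ} (ha : |a| ≤ X) (hb : |b| ≤ Y) (hc : |c| ≤ Z) :
    |a * b * c| ≤ X * Y * Z := by
  rw [abs_mul, abs_mul]
  have hX := (abs_nonneg a).trans ha
  have hY := (abs_nonneg b).trans hb
  exact mul_le_mul (mul_le_mul ha hb (abs_nonneg _) hX) hc (abs_nonneg _) (mul_nonneg hX hY)

/-- bounds of the one-dimensional kernels imply the bound of the fields -/
theorem s_l3p (h : S_ker) (P : S_prod) (O : S_one) (hn : S_nm) : S_l3p := by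
  obtain ⟨C, hC, hk⟩ := h
  refine ⟨32 * (C ^ 3 + (2 * Real.pi * 34) ^ (3 / 2 : ℝ)), by positivity, fun m i => ?_⟩
  have hR0 := l3p_RR m
  have hNN : 1 ≤ NN m := Nat.one_le_pow 2 _ hR0
  obtain ⟨k1, k2, k3, k4, k5⟩ := hk (NN m) hNN
  obtain ⟨⟨hn1, -⟩, hn0⟩ := hn m
  have hR1 : (0 : ℝ) < RR m := by exact_mod_cast hR0
  have hN0 : (0 : ℝ) < NN m := by exact_mod_cast hNN
  have hR : (RR m : ℝ) ^ (-(3 / 2) : ℝ) = (NN m : ℝ) ^ (-(3 / 4) : ℝ) := by
    unfold NN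
    push_cast
    rw [← Real.rpow_natCast, ← Real.rpow_mul hR1.le]
    norm_num
  rw [hR]
  have hsp1 : SP (psi m) := P.sp (O.p1_F _) (O.p1_G _) (O.p1_H _)
  have hsp2 : SP (chi m) := P.sp (O.p1_sn _) (O.p1_cs _) (O.p1_sn _)
  have hth : ∀ (j : Fin 3) (x : V), pd j (th0 m) x = pd j (psi m) x + ee' m * pd j (chi m) x :=
    fun j x => l3p_pd_th hsp1 hsp2 (ee' m) j x
  have hee := l3p_ee m
  have hNm := l3p_NN m
  have c1 : ((4 * NN (m - 1) - 3 : ℕ) : ℝ) ≤ 34 * NN m := by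
    exact_mod_cast (show 4 * NN (m - 1) - 3 ≤ 34 * NN m by omega)
  have c2 : ((2 * (17 * NN (m - 1) - 1) : ℕ) : ℝ) ≤ 34 * NN m := by
    exact_mod_cast (show 2 * (17 * NN (m - 1) - 1) ≤ 34 * NN m by omega)
  have i1n : ∀ F : ℝ → ℝ, 0 ≤ i1 (fun s => |F s| ^ (3 / 2 : ℝ)) := fun F =>
    intervalIntegral.integral_nonneg (by norm_num) (fun s _ => Real.rpow_nonneg (abs_nonneg _) _)
  have hpi := Real.pi_pos
  have key : ∀ a : ℝ, a ≤ 34 * NN m → 2 * Real.pi * a ≤ 2 * Real.pi * 34 * NN m := by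
    intro a ha
    have := mul_le_mul_of_nonneg_left ha (show (0 : ℝ) ≤ 2 * Real.pi by positivity)
    linarith
  fin_cases i
  · -- component 0
    refine l3p_main (A := prd (fF (NN m)) (fG (NN m)) (deriv (fH (NN m))))
      (D := fun x => ee' m * pd 2 (chi m) x) (n := nm m) hN0 hn0 hn1 (by positivity)
      (P.sp (O.p1_F _) (O.p1_G _) (P.der (O.p1_H _))).cont ?_ ?_ ?_
    · intro x
      have e : pd 2 (chi m) x = sn (4 * NN (m - 1) - 3) (x 0) * cs (4 * NN (m - 1) - 2) (x 1) *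
          deriv (sn (2 * (17 * NN (m - 1) - 1))) (x 2) := by
        unfold chi
        rw [P.pd2 (O.p1_sn _) (O.p1_cs _) (O.p1_sn _)]
        rfl
      rw [e, abs_mul]
      have h3 := l3p_3 (l3p_sn (4 * NN (m - 1) - 3) (x 0)) (l3p_cs (4 * NN (m - 1) - 2) (x 1))
        (l3p_dsn (2 * (17 * NN (m - 1) - 1)) (x 2))
      have h4 := key _ c2
      calc |ee' m| * _ ≤ 1 * (1 * 1 * (2 * Real.pi * ((2 * (17 * NN (m - 1) - 1) : ℕ) : ℝ))) :=
            mul_le_mul hee h3 (abs_nonneg _) zero_le_one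
        _ ≤ _ := by linarith
    · intro x
      have e : phi m x 0 = (-(nm m)⁻¹) * pd 2 (th0 m) x := rfl
      have e2 : pd 2 (psi m) x = prd (fF (NN m)) (fG (NN m)) (deriv (fH (NN m))) x := by
        unfold psi
        rw [P.pd2 (O.p1_F _) (O.p1_G _) (O.p1_H _)]
      show |phi m x 0| = _
      rw [e, abs_mul, abs_neg, abs_of_pos (inv_pos.2 hn0), hth, e2]
    · rw [l3p_int]
      have hpow : (NN m : ℝ) ^ (3 / 2 : ℝ) = (NN m : ℝ) ^ (1 / 2 : ℝ) * (NN m : ℝ) ^ (1 / 2 : ℝ)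
          * (NN m : ℝ) ^ (1 / 2 : ℝ) := by
        rw [← Real.rpow_add hN0, ← Real.rpow_add hN0]
        norm_num
      have hq : 0 ≤ (NN m : ℝ) ^ (1 / 2 : ℝ) := Real.rpow_nonneg hN0.le _
      calc _ ≤ (C * (NN m : ℝ) ^ (1 / 2 : ℝ)) * (C * (NN m : ℝ) ^ (1 / 2 : ℝ)) *
            (C * (NN m : ℝ) ^ (1 / 2 : ℝ)) :=
            mul_le_mul (mul_le_mul k1 k2 (i1n _) (by positivity)) k3 (i1n _) (by positivity)
        _ = _ := by rw [hpow]; ring
  · -- component 1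
    have e : ∀ x : V, |phi m x 1| ^ (3 / 2 : ℝ) = 0 := by
      intro x
      have e1 : phi m x 1 = (-(nm m)⁻¹) * 0 := rfl
      rw [e1, mul_zero, abs_zero, Real.zero_rpow (by norm_num)]
    show ∫ x in cube, |phi m x 1| ^ (3 / 2 : ℝ) ≤ _
    simp only [e, integral_zero]
    positivity
  · -- component 2
    refine l3p_main (A := prd (deriv (fF (NN m))) (fG (NN m)) (fH (NN m)))
      (D := fun x => ee' m * pd 0 (chi m) x) (n := nm m) hN0 hn0 hn1 (by positivity)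
      (P.sp (P.der (O.p1_F _)) (O.p1_G _) (O.p1_H _)).cont ?_ ?_ ?_
    · intro x
      have e : pd 0 (chi m) x = deriv (sn (4 * NN (m - 1) - 3)) (x 0) *
          cs (4 * NN (m - 1) - 2) (x 1) * sn (2 * (17 * NN (m - 1) - 1)) (x 2) := by
        unfold chi
        rw [P.pd0 (O.p1_sn _) (O.p1_cs _) (O.p1_sn _)]
        rfl
      rw [e, abs_mul]
      have h3 := l3p_3 (l3p_dsn (4 * NN (m - 1) - 3) (x 0)) (l3p_cs (4 * NN (m - 1) - 2) (x 1))
        (l3p_sn (2 * (17 * NN (m - 1) - 1)) (x 2))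
      have h4 := key _ c1
      calc |ee' m| * _ ≤ 1 * ((2 * Real.pi * ((4 * NN (m - 1) - 3 : ℕ) : ℝ)) * 1 * 1) :=
            mul_le_mul hee h3 (abs_nonneg _) zero_le_one
        _ ≤ _ := by linarith
    · intro x
      have e : phi m x 2 = (-(nm m)⁻¹) * (-pd 0 (th0 m) x) := rfl
      have e2 : pd 0 (psi m) x = prd (deriv (fF (NN m))) (fG (NN m)) (fH (NN m)) x := by
        unfold psi
        rw [P.pd0 (O.p1_F _) (O.p1_G _) (O.p1_H _)]
      show |phi m x 2| = _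
      rw [e, abs_mul, abs_neg, abs_neg, abs_of_pos (inv_pos.2 hn0), hth, e2]
    · rw [l3p_int]
      have hpow : (NN m : ℝ) ^ (3 / 2 : ℝ) = (NN m : ℝ) ^ (2 : ℝ) * (NN m : ℝ) ^ (1 / 2 : ℝ)
          * (NN m : ℝ) ^ (-1 : ℝ) := by
        rw [← Real.rpow_add hN0, ← Real.rpow_add hN0]
        norm_num
      calc _ ≤ (C * (NN m : ℝ) ^ (2 : ℝ)) * (C * (NN m : ℝ) ^ (1 / 2 : ℝ)) *
            (C * (NN m : ℝ) ^ (-1 : ℝ)) :=
            mul_le_mul (mul_le_mul k4 k2 (i1n _) (by positivity)) k5 (i1n _) (by positivity)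
        _ = _ := by rw [hpow]; ring

end Pool.Agent.H226.GB

end

/-! ## Ker1 -/

section

/-!
Dirichlet-type kernels in `L^1` (helper977 for helper226).
-/

set_option autoImplicit false

open MeasureTheory Set Filter Topology
open scoped ContDiff ENNReal
open H459R3.NS

namespace Pool.Agent.H226.GB

/-- the majorant -/
noncomputable def ker1_g (L s : ℝ) : ℝ := L * (1 + L * s)⁻¹

theorem ker1_g_cont {L : ℝ} (hL : 0 < L) : ContinuousOn (ker1_g L) (Icc 0 1) := by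
  unfold ker1_g
  refine continuousOn_const.mul ?_
  refine ContinuousOn.inv₀ (by fun_prop) fun s hs => ?_
  have : 0 ≤ L * s := mul_nonneg hL.le hs.1
  linarith

theorem ker1_g_nonneg {L s : ℝ} (hL : 0 < L) (hs : 0 ≤ s) : 0 ≤ ker1_g L s := by
  have : 0 ≤ L * s := mul_nonneg hL.le hs
  unfold ker1_g
  have h2 : 0 ≤ 1 + L * s := by linarith
  positivity

theorem ker1_g_int {L : ℝ} (hL : 0 < L) :
    ∫ s in (0 : ℝ)..1, ker1_g L s = Real.log (1 + L) := by
  have hder : ∀ s ∈ Set.uIcc (0 : ℝ) 1,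
      HasDerivAt (fun s => Real.log (1 + L * s)) (ker1_g L s) s := by
    intro s hs
    rw [Set.uIcc_of_le zero_le_one] at hs
    have h1 : 0 < 1 + L * s := by
      have : 0 ≤ L * s := mul_nonneg hL.le hs.1
      linarith
    have h2 : HasDerivAt (fun s : ℝ => 1 + L * s) L s := by
      simpa using ((hasDerivAt_id s).const_mul L).const_add 1
    exact h2.log h1.ne'
  rw [intervalIntegral.integral_eq_sub_of_hasDerivAt hder
    (by
      refine ContinuousOn.intervalIntegrable ?_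
      rw [Set.uIcc_of_le zero_le_one]
      exact ker1_g_cont hL)]
  simp

theorem ker1_log {N : ℕ} (hN : 1 ≤ N) : Real.log (1 + 2 * N) ≤ 2 * (1 + Real.log N) := by
  have hNR : (1 : ℝ) ≤ N := by exact_mod_cast hN
  have h0 : 0 ≤ Real.log N := Real.log_nonneg hNR
  have h1 : Real.log (1 + 2 * N) ≤ Real.log (3 * N) :=
    Real.log_le_log (by linarith) (by linarith)
  have h2 : Real.log (3 * N) = Real.log 3 + Real.log N :=
    Real.log_mul (by norm_num) (by linarith)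
  have h3 : Real.log 3 ≤ 3 - 1 := Real.log_le_sub_one_of_pos (by norm_num)
  linarith

theorem ker1_pt {x a : ℝ} {N : ℕ} (hN : 1 ≤ N) {t : ℝ} (ht : 0 ≤ t)
    (h1 : |x| ≤ a * N) (h2 : 2 * t * |x| ≤ a) : |x| ≤ a * ker1_g (2 * N) t := by
  have hNR : (1 : ℝ) ≤ N := by exact_mod_cast hN
  have hD : 0 < 1 + 2 * (N : ℝ) * t := by positivity
  unfold ker1_g
  have h4 : |x| * (1 + 2 * (N : ℝ) * t) ≤ a * (2 * N) := by
    have h5 : (N : ℝ) * (2 * t * |x|) ≤ N * a := mul_le_mul_of_nonneg_left h2 (by linarith)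
    nlinarith
  rw [← mul_assoc, ← div_eq_mul_inv, le_div_iff₀ hD]
  exact h4

theorem ker1_int (f : ℝ → ℝ) (hf : Continuous f) (N : ℕ) (hN : 1 ≤ N) (a : ℝ) (ha : 0 ≤ a)
    (h : ∀ s ∈ Icc (0 : ℝ) 1, ∀ τ, 0 ≤ τ → τ ≤ Real.sin (Real.pi * s) →
      |f s| ≤ a * N ∧ τ * |f s| ≤ a) :
    i1 (fun s => |f s|) ≤ a * (4 * (1 + Real.log N)) := by
  have hNR : (1 : ℝ) ≤ N := by exact_mod_cast hN
  have hL : (0 : ℝ) < 2 * N := by linarith
  have hc1 : ContinuousOn (ker1_g (2 * N)) (Icc (0 : ℝ) 1) := ker1_g_cont hL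
  have hc2 : ContinuousOn (fun s => ker1_g (2 * N) (1 - s)) (Icc (0 : ℝ) 1) :=
    hc1.comp (by fun_prop) fun s hs => ⟨by linarith [hs.2], by linarith [hs.1]⟩
  have hi1 : IntervalIntegrable (ker1_g (2 * N)) volume 0 1 := by
    refine ContinuousOn.intervalIntegrable ?_
    rw [Set.uIcc_of_le zero_le_one]
    exact hc1
  have hi2 : IntervalIntegrable (fun s => ker1_g (2 * N) (1 - s)) volume 0 1 := by
    refine ContinuousOn.intervalIntegrable ?_
    rw [Set.uIcc_of_le zero_le_one]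
    exact hc2
  have hpt : ∀ s ∈ Icc (0 : ℝ) 1, |f s| ≤ a * (ker1_g (2 * N) s + ker1_g (2 * N) (1 - s)) := by
    intro s hs
    have g1 := ker1_g_nonneg hL hs.1
    have g2 := ker1_g_nonneg (s := 1 - s) hL (by linarith [hs.2])
    rw [mul_add]
    have k1 := mul_nonneg ha g1
    have k2 := mul_nonneg ha g2
    rcases le_total s (1 / 2) with h1 | h1
    · obtain ⟨e1, e2⟩ := h s hs (2 * s) (by linarith [hs.1]) (ker_jordan hs.1 h1)
      have := ker1_pt hN hs.1 e1 e2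
      linarith
    · obtain ⟨e1, e2⟩ := h s hs (2 * (1 - s)) (by linarith [hs.2]) (ker_jordan' h1 hs.2)
      have := ker1_pt hN (by linarith [hs.2] : 0 ≤ 1 - s) e1 e2
      linarith
  unfold i1
  have hfi : IntervalIntegrable (fun s => |f s|) volume 0 1 := hf.abs.intervalIntegrable _ _
  have hm := intervalIntegral.integral_mono_on zero_le_one hfi ((hi1.add hi2).const_mul a) hpt
  refine hm.trans ?_
  rw [intervalIntegral.integral_const_mul, intervalIntegral.integral_add hi1 hi2]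
  have e1 : ∫ s in (0 : ℝ)..1, ker1_g (2 * N) (1 - s) = ∫ s in (0 : ℝ)..1, ker1_g (2 * N) s := by
    rw [intervalIntegral.integral_comp_sub_left (fun s => ker1_g (2 * N) s)]
    norm_num
  rw [e1, ker1_g_int hL]
  exact mul_le_mul_of_nonneg_left (by linarith [ker1_log hN]) ha

/-- **Ker1.** -/
theorem s_ker1 : S_ker1 := by
  have hpi := Real.pi_pos
  have hpi3 := Real.pi_gt_three
  refine ⟨4, by norm_num, fun N hN => ?_⟩
  have hNR : (1 : ℝ) ≤ N := by exact_mod_cast hN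
  have hN0 : (0 : ℝ) < N := by linarith
  have hlog : 0 ≤ 4 * (1 + Real.log N) := by
    have := Real.log_nonneg hNR
    linarith
  have hc1 : (2 * N - N : ℕ) = N := by omega
  have hc2 : (17 * N - 16 * N : ℕ) = N := by omega
  refine ⟨?_, ?_, ?_⟩
  · refine (ker1_int (fF N) (continuous_finsetSum _ fun j _ => ker_sn_cont j) N hN 1 zero_le_one
      fun s _ τ h0 h1 => ?_).trans (le_of_eq (one_mul _))
    have h2 := ker_one (ker_B_sn h0 h1) (by omega : N ≤ 2 * N)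
    rw [hc1] at h2
    rw [one_mul]
    exact h2
  · refine (ker1_int (fG N) (continuous_finsetSum _ fun j _ => ker_cs_cont j) N hN 1 zero_le_one
      fun s _ τ h0 h1 => ?_).trans (le_of_eq (one_mul _))
    have h2 := ker_one (ker_B_cs h0 h1) (by omega : N ≤ 2 * N)
    rw [hc1] at h2
    rw [one_mul]
    exact h2
  · refine (ker1_int (fH N) (continuous_finsetSum _ fun j _ =>
      (ker_sn_cont j).div_const _) N hN (1 / (32 * Real.pi * N)) (by positivity)
      fun s _ τ h0 h1 => ?_).trans ?_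
    · have h2 := ker_dec h0 (ker_B_sn h0 h1) (by omega : 16 * N ≤ 17 * N)
        (fun j => 1 / (2 * Real.pi * (j : ℝ))) (fun j => by positivity) (fun j hj => by
          have hj1 : (0 : ℝ) < j := by
            have : 0 < j := by omega
            exact_mod_cast this
          refine one_div_le_one_div_of_le (by positivity) ?_
          push_cast
          nlinarith)
      rw [hc2] at h2
      have h3 : 1 / (2 * Real.pi * ((16 * N : ℕ) : ℝ)) = 1 / (32 * Real.pi * N) := by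
        congr 1
        push_cast
        ring
      have h4 : fH N s = ∑ j ∈ Finset.Ico (16 * N) (17 * N), 1 / (2 * Real.pi * (j : ℝ)) * sn j s := by
        unfold fH
        exact Finset.sum_congr rfl fun j _ => by ring
      rw [h3] at h2
      rw [h4]
      exact h2
    · have h1 : 1 / (32 * Real.pi * N) ≤ 1 / (N : ℝ) :=
        one_div_le_one_div_of_le hN0 (by nlinarith)
      calc 1 / (32 * Real.pi * N) * (4 * (1 + Real.log N)) ≤ 1 / (N : ℝ) * (4 * (1 + Real.log N)) :=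
            mul_le_mul_of_nonneg_right h1 hlog
        _ = 4 * (1 + Real.log N) / N := by ring

end Pool.Agent.H226.GB

end

/-! ## Pex -/

section

/-!
The pumps are very small.
-/

open MeasureTheory Set Filter Topology
open scoped ContDiff ENNReal
open H459R3.NS

namespace Pool.Agent.H226.GB

lemma pex_exp (A : ℝ) : ∃ B : ℝ, ∀ m : ℕ, A * (m : ℝ) ^ 10 - 2 ^ m ≤ B := by
  have h1 := tendsto_pow_const_div_const_pow_of_one_lt 10 (r := (2 : ℝ)) (by norm_num)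
  have h2 : Tendsto (fun m : ℕ => A * ((m : ℝ) ^ 10 / 2 ^ m)) atTop (𝓝 (A * 0)) := h1.const_mul A
  rw [mul_zero] at h2
  have h3 := h2.eventually (gt_mem_nhds (zero_lt_one))
  obtain ⟨n0, hn0⟩ := eventually_atTop.mp h3
  refine ⟨|A| * (n0 : ℝ) ^ 10, fun m => ?_⟩
  have hp : (0 : ℝ) < 2 ^ m := by positivity
  rcases le_total n0 m with h | h
  · have h4 := hn0 m h
    have h5 : A * ((m : ℝ) ^ 10 / 2 ^ m) = (A * (m : ℝ) ^ 10) / 2 ^ m := by ring
    rw [h5, div_lt_one hp] at h4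
    have h6 : 0 ≤ |A| * (n0 : ℝ) ^ 10 := by positivity
    linarith
  · have h4 : (m : ℝ) ^ 10 ≤ (n0 : ℝ) ^ 10 := pow_le_pow_left₀ (by positivity) (by exact_mod_cast h) 10
    have h5 : A * (m : ℝ) ^ 10 ≤ |A| * (n0 : ℝ) ^ 10 :=
      mul_le_mul (le_abs_self A) h4 (by positivity) (abs_nonneg A)
    linarith

lemma pex_bb (k : ℕ) : (2 : ℝ) ^ (k + 3) ≤ bb (k + 1) := by
  have h1 : (RR (k + 1) : ℝ) = (2 : ℝ) ^ (3 * k ^ 2 + 15 * k + 19) * (RR k : ℝ) := by
    unfold RR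
    push_cast
    rw [← pow_add]
    congr 1
    ring
  have h2 : (0 : ℝ) < RR k := by
    unfold RR
    positivity
  have h3 : (RR (k + 1) : ℝ) / (RR k : ℝ) = (2 : ℝ) ^ (3 * k ^ 2 + 15 * k + 19) := by
    rw [h1, mul_div_assoc, div_self h2.ne', mul_one]
  have h4 : bb (k + 1) = (2 : ℝ) ^ (15 * k ^ 2 + 75 * k + 82) := by
    unfold bb
    have h5 : k + 1 - 1 = k := rfl
    rw [h5, h3, ← pow_mul, div_eq_iff (by positivity), ← pow_add]
    congr 1
    ring
  rw [h4]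
  refine pow_le_pow_right₀ (by norm_num) ?_
  nlinarith

lemma pex_two (N : ℕ) : (2 : ℝ) ^ N ≤ Real.exp N := by
  have h1 : (2 : ℝ) ≤ Real.exp 1 := by
    have := Real.add_one_le_exp (1 : ℝ)
    linarith
  have h2 : (2 : ℝ) ^ N ≤ (Real.exp 1) ^ N := pow_le_pow_left₀ (by norm_num) h1 N
  rw [← Real.exp_nat_mul, mul_one] at h2
  exact h2

lemma pex_main (Λ : ℝ) : ∃ K : ℝ, 0 ≤ K ∧ ∀ k : ℕ,
    Real.exp (-bb (k + 1)) * (RR (k + 2) : ℝ) ^ 12 * Real.exp (Λ * (((k : ℝ) + 3) ^ 10)) ≤ K := by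
  obtain ⟨B, hB⟩ := pex_exp (|Λ| + 96)
  refine ⟨Real.exp B, (Real.exp_pos B).le, fun k => ?_⟩
  have h1 : (RR (k + 2) : ℝ) ^ 12 ≤ Real.exp (12 * ((k : ℝ) + 4) ^ 3) := by
    have h2 : (RR (k + 2) : ℝ) ^ 12 = (2 : ℝ) ^ (12 * (k + 4) ^ 3) := by
      unfold RR
      push_cast
      rw [← pow_mul]
      congr 1
      ring
    rw [h2]
    refine (pex_two _).trans (le_of_eq ?_)
    push_cast
    ring
  have h3 := pex_bb k
  have h4 := hB (k + 3)
  have h5 : 12 * ((k : ℝ) + 4) ^ 3 ≤ 96 * ((k : ℝ) + 3) ^ 10 := by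
    have hk : (0 : ℝ) ≤ k := Nat.cast_nonneg k
    have h6 : ((k : ℝ) + 4) ^ 3 ≤ (2 * ((k : ℝ) + 3)) ^ 3 :=
      pow_le_pow_left₀ (by linarith) (by linarith) 3
    have h7 : ((k : ℝ) + 3) ^ 3 ≤ ((k : ℝ) + 3) ^ 10 :=
      pow_le_pow_right₀ (by linarith) (by norm_num)
    nlinarith
  have h6 : Λ * (((k : ℝ) + 3) ^ 10) ≤ |Λ| * (((k : ℝ) + 3) ^ 10) :=
    mul_le_mul_of_nonneg_right (le_abs_self Λ) (by positivity)
  calc Real.exp (-bb (k + 1)) * (RR (k + 2) : ℝ) ^ 12 * Real.exp (Λ * (((k : ℝ) + 3) ^ 10))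
      ≤ Real.exp (-bb (k + 1)) * Real.exp (12 * ((k : ℝ) + 4) ^ 3) * Real.exp (Λ * (((k : ℝ) + 3) ^ 10)) :=
        mul_le_mul_of_nonneg_right (mul_le_mul_of_nonneg_left h1 (Real.exp_pos _).le) (Real.exp_pos _).le
    _ = Real.exp (-bb (k + 1) + 12 * ((k : ℝ) + 4) ^ 3 + Λ * (((k : ℝ) + 3) ^ 10)) := by
        rw [Real.exp_add, Real.exp_add]
    _ ≤ Real.exp B := by
        refine Real.exp_le_exp.mpr ?_
        push_cast at h4
        linarith

theorem s_ees : S_ees := by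
  obtain ⟨K, hK0, hK⟩ := pex_main 0
  refine ⟨K + (RR 1 : ℝ) ^ 2, by positivity, fun m => ?_⟩
  have h0 : 0 ≤ ee' m := by
    unfold ee'
    split_ifs
    · exact le_refl _
    · exact (Real.exp_pos _).le
  refine ⟨h0, ?_⟩
  rcases m with _ | m
  · have h1 : ee' 0 = 0 := by
      unfold ee'
      rw [if_pos rfl]
    rw [h1, zero_mul]
    positivity
  · have h1 : ee' (m + 1) = Real.exp (-bb m) := by
      unfold ee'
      rw [if_neg (Nat.succ_ne_zero m)]
      rfl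
    rw [h1]
    rcases m with _ | k
    · have h2 : Real.exp (-bb 0) ≤ 1 := by
        rw [Real.exp_le_one_iff]
        have : 0 ≤ bb 0 := by
          unfold bb
          positivity
        linarith
      have h3 : Real.exp (-bb 0) * (RR (0 + 1) : ℝ) ^ 2 ≤ 1 * (RR (0 + 1) : ℝ) ^ 2 :=
        mul_le_mul_of_nonneg_right h2 (by positivity)
      have h4 : (RR (0 + 1) : ℝ) ^ 2 = (RR 1 : ℝ) ^ 2 := rfl
      linarith
    · have h2 := hK k
      rw [zero_mul, Real.exp_zero, mul_one] at h2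
      have h3 : (1 : ℝ) ≤ (RR (k + 1 + 1) : ℝ) := by
        unfold RR
        exact_mod_cast Nat.one_le_two_pow
      have h4 : (RR (k + 1 + 1) : ℝ) ^ 2 ≤ (RR (k + 1 + 1) : ℝ) ^ 12 :=
        pow_le_pow_right₀ h3 (by norm_num)
      have h5 : Real.exp (-bb (k + 1)) * (RR (k + 1 + 1) : ℝ) ^ 2 ≤
          Real.exp (-bb (k + 1)) * (RR (k + 1 + 1) : ℝ) ^ 12 :=
        mul_le_mul_of_nonneg_left h4 (Real.exp_pos _).le
      have h6 : Real.exp (-bb (k + 1)) * (RR (k + 1 + 1) : ℝ) ^ 12 ≤ K := h2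
      have h7 : 0 ≤ (RR 1 : ℝ) ^ 2 := by positivity
      linarith

theorem s_pex (h : S_pp) : S_pex := by
  intro Λ
  obtain ⟨K, hK0, hK⟩ := pex_main Λ
  refine ⟨max K (pp 0 * (RR (0 + 1) : ℝ) ^ 12 * Real.exp (Λ * (((0 : ℕ) : ℝ) + 2) ^ 10)), fun n => ?_⟩
  rcases n with _ | k
  · exact le_max_right _ _
  · refine le_trans ?_ (le_max_left _ _)
    have h1 := (h (k + 1) (by omega)).2
    have h2 := hK k
    have h3 : ((k + 1 : ℕ) : ℝ) + 2 = (k : ℝ) + 3 := by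
      push_cast
      ring
    rw [h3]
    refine le_trans ?_ h2
    refine mul_le_mul_of_nonneg_right ?_ (Real.exp_pos _).le
    exact mul_le_mul_of_nonneg_right h1 (by positivity)

end Pool.Agent.H226.GB

end

/-! ## L1 -/

section

/-!
The stream functions in `L^1`.
-/

set_option autoImplicit false

open MeasureTheory Set Filter Topology
open scoped ContDiff ENNReal
open H459R3.NS

namespace Pool.Agent.H226.GB

theorem l1_int (F G H : ℝ → ℝ) : ∫ x in cube, |prd F G H x| =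
    i1 (fun s => |F s|) * i1 (fun s => |G s|) * i1 (fun s => |H s|) := by
  rw [← Prod_.int]
  refine integral_congr_ae (Eventually.of_forall fun x => ?_)
  show |F (x 0) * G (x 1) * H (x 2)| = |F (x 0)| * |G (x 1)| * |H (x 2)|
  rw [abs_mul, abs_mul]

theorem l1_sn (k : ℕ) (s : ℝ) : |sn k s| ≤ 1 := Real.abs_sin_le_one _

theorem l1_cs (k : ℕ) (s : ℝ) : |cs k s| ≤ 1 := Real.abs_cos_le_one _

theorem l1_chi (m : ℕ) (x : V) : |chi m x| ≤ 1 := by
  show |sn _ (x 0) * cs _ (x 1) * sn _ (x 2)| ≤ 1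
  rw [abs_mul, abs_mul]
  have h1 := l1_sn (4 * NN (m - 1) - 3) (x 0)
  have h2 := l1_cs (4 * NN (m - 1) - 2) (x 1)
  have h3 := l1_sn (2 * (17 * NN (m - 1) - 1)) (x 2)
  calc _ ≤ (1 : ℝ) * 1 * 1 := mul_le_mul (mul_le_mul h1 h2 (abs_nonneg _) zero_le_one) h3
        (abs_nonneg _) (by norm_num)
    _ = 1 := by norm_num

theorem l1_log (m : ℕ) : 1 + Real.log (NN m : ℝ) ≤ 3 * ((m : ℝ) + 2) ^ 3 := by
  have h1 : Real.log (NN m : ℝ) = 2 * (((m : ℝ) + 2) ^ 3 * Real.log 2) := by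
    unfold NN RR
    push_cast
    rw [Real.log_pow, Real.log_pow]
    push_cast
    ring
  have h2 : Real.log 2 ≤ 1 := by
    have := Real.log_two_lt_d9
    linarith
  have h3 : (1 : ℝ) ≤ ((m : ℝ) + 2) ^ 3 := one_le_pow₀ (by have := Nat.cast_nonneg (α := ℝ) m; linarith)
  rw [h1]
  nlinarith

/-- bound of the stream functions in `L¹` -/
theorem s_l1 (h : S_ker1) (he : S_ees) (P : S_prod) (O : S_one) : S_l1 := by
  obtain ⟨C, hC, hk⟩ := h
  obtain ⟨D, hD, he⟩ := he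
  refine ⟨27 * C ^ 3 + D, by positivity, fun m => ?_⟩
  have hRR : 0 < RR m := by
    unfold RR
    positivity
  have hR1 : (0 : ℝ) < RR m := by exact_mod_cast hRR
  have hNN : 1 ≤ NN m := Nat.one_le_pow 2 _ hRR
  have hN : (NN m : ℝ) = (RR m : ℝ) ^ 2 := by
    unfold NN
    push_cast
    ring
  obtain ⟨k1, k2, k3⟩ := hk (NN m) hNN
  obtain ⟨e0, e1⟩ := he m
  have hsp1 : SP (psi m) := P.sp (O.p1_F _) (O.p1_G _) (O.p1_H _)
  have hlog := l1_log m
  have hlog0 : 0 ≤ Real.log (NN m : ℝ) := Real.log_natCast_nonneg _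
  have i1n : ∀ F : ℝ → ℝ, 0 ≤ i1 (fun s => |F s|) := fun F =>
    intervalIntegral.integral_nonneg (by norm_num) (fun s _ => abs_nonneg _)
  -- the main part
  have hpsi : (RR m : ℝ) ^ 2 * ∫ x in cube, |psi m x| ≤ 27 * C ^ 3 * ((m : ℝ) + 2) ^ 9 := by
    have e : ∫ x in cube, |psi m x| = _ := l1_int (fF (NN m)) (fG (NN m)) (fH (NN m))
    rw [e]
    set L := 1 + Real.log (NN m : ℝ) with hL
    have hL0 : 0 ≤ L := by linarith
    have hm : i1 (fun s => |fF (NN m) s|) * i1 (fun s => |fG (NN m) s|) *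
        i1 (fun s => |fH (NN m) s|) ≤ (C * L) * (C * L) * (C * L / (NN m : ℝ)) :=
      mul_le_mul (mul_le_mul k1 k2 (i1n _) (by positivity)) k3 (i1n _) (by positivity)
    calc (RR m : ℝ) ^ 2 * _ ≤ (RR m : ℝ) ^ 2 * ((C * L) * (C * L) * (C * L / (NN m : ℝ))) :=
          mul_le_mul_of_nonneg_left hm (by positivity)
      _ = C ^ 3 * L ^ 3 := by
          rw [hN]
          field_simp
      _ ≤ C ^ 3 * (3 * ((m : ℝ) + 2) ^ 3) ^ 3 :=
          mul_le_mul_of_nonneg_left (pow_le_pow_left₀ hL0 hlog 3) (by positivity)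
      _ = 27 * C ^ 3 * ((m : ℝ) + 2) ^ 9 := by ring
  have hI : ∫ x in cube, |th0 m x| ≤ ∫ x in cube, (|psi m x| + ee' m) := by
    refine integral_mono_of_nonneg (Eventually.of_forall fun x => abs_nonneg _)
      (integrableOn_cube (hsp1.cont.abs.add continuous_const)) (Eventually.of_forall fun x => ?_)
    show |psi m x + ee' m * chi m x| ≤ |psi m x| + ee' m
    refine (abs_add_le _ _).trans ?_
    rw [abs_mul, abs_of_nonneg e0]
    have := mul_le_mul_of_nonneg_left (l1_chi m x) e0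
    linarith
  have hI2 : ∫ x in cube, (|psi m x| + ee' m) = (∫ x in cube, |psi m x|) + ee' m := by
    rw [integral_add (integrableOn_cube hsp1.cont.abs) (integrableOn_cube continuous_const),
      setIntegral_const, measureReal_def, volume_cube, ENNReal.toReal_one, one_smul]
  have h9 : (1 : ℝ) ≤ ((m : ℝ) + 2) ^ 9 :=
    one_le_pow₀ (by have := Nat.cast_nonneg (α := ℝ) m; linarith)
  calc (RR m : ℝ) ^ 2 * ∫ x in cube, |th0 m x|
      ≤ (RR m : ℝ) ^ 2 * ((∫ x in cube, |psi m x|) + ee' m) := by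
        rw [← hI2]
        exact mul_le_mul_of_nonneg_left hI (by positivity)
    _ = (RR m : ℝ) ^ 2 * (∫ x in cube, |psi m x|) + ee' m * (RR m : ℝ) ^ 2 := by ring
    _ ≤ 27 * C ^ 3 * ((m : ℝ) + 2) ^ 9 + D * ((m : ℝ) + 2) ^ 9 := by
        refine add_le_add hpsi (e1.trans ?_)
        nlinarith
    _ = (27 * C ^ 3 + D) * ((m : ℝ) + 2) ^ 9 := by ring

end Pool.Agent.H226.GB

end

/-! ## Vor -/

section

/-!
A bound of the vorticity bounds the coefficients.
-/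

set_option autoImplicit false

open MeasureTheory Set Filter Topology
open scoped ContDiff ENNReal
open H459R3.NS

namespace Pool.Agent.H226.GB

theorem vor_smul {f : V → ℝ} (c : ℝ) (hf : SP f) : SP (fun x => c * f x) where
  smooth := contDiff_const.mul hf.smooth
  per := fun i x => by simp only [hf.per i x]

theorem vor_th (P : S_prod) (O : S_one) (m : ℕ) : SP (th0 m) := by
  have h1 : SP (psi m) := P.sp (O.p1_F _) (O.p1_G _) (O.p1_H _)
  have h2 : SP (chi m) := P.sp (O.p1_sn _) (O.p1_cs _) (O.p1_sn _)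
  exact h1.add (vor_smul (ee' m) h2)

theorem vor_ip (f : V → V) (hf : ∀ i, SP (fun x => f x i)) (m : ℕ) (hT : SP (th0 m)) :
    ip f (phi m) = (nm m)⁻¹ * ∫ x in cube, th0 m x * vo1 f x := by
  have hS0 : ∀ x, phi m x 0 = -(nm m)⁻¹ * pd 2 (th0 m) x := fun x => rfl
  have hS1 : ∀ x, phi m x 1 = -(nm m)⁻¹ * 0 := fun x => rfl
  have hS2 : ∀ x, phi m x 2 = -(nm m)⁻¹ * (-pd 0 (th0 m) x) := fun x => rfl
  have e0 : ∫ x in cube, f x 0 * phi m x 0 =
      (nm m)⁻¹ * ∫ x in cube, pd 2 (fun y => f y 0) x * th0 m x := by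
    have h := ibp (hf 0) hT 2
    rw [h]
    have e : ∀ x, f x 0 * phi m x 0 = -(nm m)⁻¹ * (f x 0 * pd 2 (th0 m) x) := by
      intro x; rw [hS0]; ring
    simp_rw [e]
    rw [integral_const_mul]
    ring
  have e1 : ∫ x in cube, f x 1 * phi m x 1 = 0 := by
    have e : ∀ x, f x 1 * phi m x 1 = 0 := by
      intro x; rw [hS1]; ring
    simp_rw [e]
    simp
  have e2 : ∫ x in cube, f x 2 * phi m x 2 =
      -((nm m)⁻¹ * ∫ x in cube, pd 0 (fun y => f y 2) x * th0 m x) := by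
    have h := ibp (hf 2) hT 0
    rw [h]
    have e : ∀ x, f x 2 * phi m x 2 = (nm m)⁻¹ * (f x 2 * pd 0 (th0 m) x) := by
      intro x; rw [hS2]; ring
    simp_rw [e]
    rw [integral_const_mul]
    ring
  unfold ip
  rw [Fin.sum_univ_three, e0, e1, e2]
  have e3 : ∀ x, th0 m x * vo1 f x =
      pd 2 (fun y => f y 0) x * th0 m x - pd 0 (fun y => f y 2) x * th0 m x := by
    intro x; unfold vo1; ring
  simp_rw [e3]
  rw [integral_sub (((hf 0).pd 2).mul hT).int (((hf 2).pd 0).mul hT).int]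
  ring

theorem vor_nm (hn : S_nm) (m : ℕ) : (nm m)⁻¹ * (RR m : ℝ) ^ 3 ≤ 3 := by
  obtain ⟨⟨h1, -⟩, h2⟩ := hn m
  have hR : (0 : ℝ) ≤ RR m := Nat.cast_nonneg _
  have h3 : ((RR m : ℝ) ^ 3) ^ 2 ≤ (3 * nm m) ^ 2 := by
    have e : (NN m : ℝ) ^ 3 = ((RR m : ℝ) ^ 3) ^ 2 := by
      unfold NN; push_cast; ring
    rw [e] at h1
    nlinarith
  have h4 : (RR m : ℝ) ^ 3 ≤ 3 * nm m := by
    exact (abs_le_of_sq_le_sq' h3 (by positivity)).2
  rw [inv_mul_le_iff₀ h2]
  linarith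

theorem s_vor (h : S_l1) (hn : S_nm) (P : S_prod) (O : S_one) : S_vor := by
  obtain ⟨C, hC0, hC⟩ := h
  refine ⟨3 * C, by positivity, ?_⟩
  intro f B hf hB m
  have hT := vor_th P O m
  have hB0 : 0 ≤ B := (abs_nonneg _).trans (hB 0)
  have hnm : 0 < nm m := (hn m).2
  rw [vor_ip f hf m hT, abs_mul, abs_of_pos (inv_pos.2 hnm)]
  have h1 : |∫ x in cube, th0 m x * vo1 f x| ≤ B * ∫ x in cube, |th0 m x| := by
    rw [← integral_const_mul]
    refine (abs_integral_le_integral_abs).trans ?_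
    have hv : SP (fun x => th0 m x * vo1 f x) := by
      have e : (fun x => th0 m x * vo1 f x) = fun x =>
          pd 2 (fun y => f y 0) x * th0 m x + (-1) * (pd 0 (fun y => f y 2) x * th0 m x) := by
        funext x; unfold vo1; ring
      rw [e]
      exact (((hf 0).pd 2).mul hT).add (vor_smul (-1) (((hf 2).pd 0).mul hT))
    refine integral_mono_of_nonneg (Eventually.of_forall fun x => abs_nonneg _)
      (integrableOn_cube (hT.cont.abs.const_smul B)) (Eventually.of_forall fun x => ?_)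
    simp only
    rw [abs_mul, mul_comm]
    exact mul_le_mul_of_nonneg_right (hB x) (abs_nonneg _)
  have hI0 : 0 ≤ ∫ x in cube, |th0 m x| := integral_nonneg fun x => abs_nonneg _
  have hR : (0 : ℝ) ≤ RR m := Nat.cast_nonneg _
  have h2 := vor_nm hn m
  calc (RR m : ℝ) ^ 5 * ((nm m)⁻¹ * |∫ x in cube, th0 m x * vo1 f x|)
      ≤ (RR m : ℝ) ^ 5 * ((nm m)⁻¹ * (B * ∫ x in cube, |th0 m x|)) := by
        refine mul_le_mul_of_nonneg_left (mul_le_mul_of_nonneg_left h1 (inv_pos.2 hnm).le)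
          (by positivity)
    _ = ((nm m)⁻¹ * (RR m : ℝ) ^ 3) * (B * ((RR m : ℝ) ^ 2 * ∫ x in cube, |th0 m x|)) := by ring
    _ ≤ 3 * (B * ((RR m : ℝ) ^ 2 * ∫ x in cube, |th0 m x|)) :=
        mul_le_mul_of_nonneg_right h2 (by positivity)
    _ ≤ 3 * (B * (C * ((m : ℝ) + 2) ^ 9)) := by
        refine mul_le_mul_of_nonneg_left (mul_le_mul_of_nonneg_left (hC m) hB0) (by norm_num)
    _ = 3 * C * ((m : ℝ) + 2) ^ 9 * B := by ring

end Pool.Agent.H226.GB

end
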