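import Pool.Agent.H226.GM.S
import Pool.Agent.H226.GM.Coef

/-! ## Spc -/

section

/-!
The frequencies of the constraints.
-/

open MeasureTheory Set Filter Topology
open scoped ContDiff
open H459R3.NS

namespace Pool.Agent.H226.GB

/-! ### Scalar trigonometric polynomials -/

/-- the cosine of frequency `k` -/
noncomputable def spc_c (k : K3) (x : V) : ℝ := Real.cos (2 * Real.pi * ph k x)

/-- the sine of frequency `k` -/
noncomputable def spc_s (k : K3) (x : V) : ℝ := Real.sin (2 * Real.pi * ph k x)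

/-- scalar trigonometric polynomials with frequencies in `A` -/
def spc_T (A : Set K3) : Submodule ℝ (V → ℝ) :=
  Submodule.span ℝ {f | ∃ k ∈ A, f = spc_c k ∨ f = spc_s k}

theorem spc_mono {A B : Set K3} (h : A ⊆ B) : spc_T A ≤ spc_T B :=
  Submodule.span_mono fun _ ⟨k, hk, hf⟩ => ⟨k, h hk, hf⟩

theorem spc_cT {A : Set K3} {k : K3} (h : k ∈ A) : spc_c k ∈ spc_T A :=
  Submodule.subset_span ⟨k, h, Or.inl rfl⟩

theorem spc_sT {A : Set K3} {k : K3} (h : k ∈ A) : spc_s k ∈ spc_T A :=
  Submodule.subset_span ⟨k, h, Or.inr rfl⟩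

theorem spc_cSP (k : K3) : SP (spc_c k) where
  smooth := Real.contDiff_cos.comp (contDiff_const.mul (ph_contDiff k))
  per := by
    intro i x
    have e : 2 * Real.pi * ph k (x + Pi.single i 1) =
        2 * Real.pi * ph k x + (k i : ℝ) * (2 * Real.pi) := by
      rw [ph_add, ph_single]
      ring
    show Real.cos (2 * Real.pi * ph k (x + Pi.single i 1)) = Real.cos (2 * Real.pi * ph k x)
    rw [e, Real.cos_add_int_mul_two_pi]

theorem spc_sSP (k : K3) : SP (spc_s k) where
  smooth := Real.contDiff_sin.comp (contDiff_const.mul (ph_contDiff k))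
  per := by
    intro i x
    have e : 2 * Real.pi * ph k (x + Pi.single i 1) =
        2 * Real.pi * ph k x + (k i : ℝ) * (2 * Real.pi) := by
      rw [ph_add, ph_single]
      ring
    show Real.sin (2 * Real.pi * ph k (x + Pi.single i 1)) = Real.sin (2 * Real.pi * ph k x)
    rw [e, Real.sin_add_int_mul_two_pi]

theorem spc_SP {A : Set K3} {f : V → ℝ} (hf : f ∈ spc_T A) : SP f := by
  refine Submodule.span_induction (p := fun f _ => SP f) ?_ ?_ ?_ ?_ hf
  · rintro f ⟨k, _, rfl | rfl⟩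
    · exact spc_cSP k
    · exact spc_sSP k
  · exact Pump_const 0
  · intro f g _ _ hf hg
    exact hf.add hg
  · intro c f _ hf
    exact Pump_smul hf c

theorem spc_pdc (k : K3) (j : Fin 3) :
    pd j (spc_c k) = fun x => -(2 * Real.pi * k j) * spc_s k x := by
  funext x
  have h : HasFDerivAt (fun x => Real.cos (2 * Real.pi * ph k x))
      (-Real.sin (2 * Real.pi * ph k x) • ((2 * Real.pi) •
        (∑ i, (k i : ℝ) • (ContinuousLinearMap.proj i : V →L[ℝ] ℝ)))) x :=
    ((hasFDerivAt_ph k x).const_mul (2 * Real.pi)).cos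
  have e : pd j (spc_c k) x = (-Real.sin (2 * Real.pi * ph k x) • ((2 * Real.pi) •
        (∑ i, (k i : ℝ) • (ContinuousLinearMap.proj i : V →L[ℝ] ℝ)))) (Pi.single j 1) := by
    unfold pd
    exact congrArg (fun L : V →L[ℝ] ℝ => L (Pi.single j 1)) h.fderiv
  rw [e]
  simp [spc_s, Pi.single_apply]
  ring

theorem spc_pds (k : K3) (j : Fin 3) :
    pd j (spc_s k) = fun x => (2 * Real.pi * k j) * spc_c k x := by
  funext x
  have h : HasFDerivAt (fun x => Real.sin (2 * Real.pi * ph k x))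
      (Real.cos (2 * Real.pi * ph k x) • ((2 * Real.pi) •
        (∑ i, (k i : ℝ) • (ContinuousLinearMap.proj i : V →L[ℝ] ℝ)))) x :=
    ((hasFDerivAt_ph k x).const_mul (2 * Real.pi)).sin
  have e : pd j (spc_s k) x = (Real.cos (2 * Real.pi * ph k x) • ((2 * Real.pi) •
        (∑ i, (k i : ℝ) • (ContinuousLinearMap.proj i : V →L[ℝ] ℝ)))) (Pi.single j 1) := by
    unfold pd
    exact congrArg (fun L : V →L[ℝ] ℝ => L (Pi.single j 1)) h.fderiv
  rw [e]
  simp [spc_c, Pi.single_apply]
  ring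

theorem spc_pd {A : Set K3} {f : V → ℝ} (hf : f ∈ spc_T A) (j : Fin 3) : pd j f ∈ spc_T A := by
  refine Submodule.span_induction (p := fun f _ => pd j f ∈ spc_T A) ?_ ?_ ?_ ?_ hf
  · rintro f ⟨k, hk, rfl | rfl⟩
    · rw [spc_pdc]
      exact (spc_T A).smul_mem (-(2 * Real.pi * k j)) (spc_sT hk)
    · rw [spc_pds]
      exact (spc_T A).smul_mem (2 * Real.pi * k j) (spc_cT hk)
  · have e : pd j (0 : V → ℝ) = 0 := by
      funext x
      unfold pd
      simp
    rw [e]
    exact (spc_T A).zero_mem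
  · intro f g hf hg h1 h2
    have e : pd j (f + g) = pd j f + pd j g :=
      funext fun x => Pump_pd_add (spc_SP hf) (spc_SP hg) j x
    rw [e]
    exact (spc_T A).add_mem h1 h2
  · intro c f hf h1
    have e : pd j (c • f) = c • pd j f :=
      funext fun x => Pump_pd_smul (spc_SP hf) c j x
    rw [e]
    exact (spc_T A).smul_mem c h1

theorem spc_cc (k l : K3) : (fun x => spc_c k x * spc_c l x)
    = (1 / 2 : ℝ) • spc_c (k + l) + (1 / 2 : ℝ) • spc_c (k + -l) := by
  funext x
  simp only [Pi.add_apply, Pi.smul_apply, smul_eq_mul, spc_c, ph_add_left, ph_neg, mul_add,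
    mul_neg, Real.cos_add, Real.sin_neg, Real.cos_neg]
  ring

theorem spc_ss (k l : K3) : (fun x => spc_s k x * spc_s l x)
    = (1 / 2 : ℝ) • spc_c (k + -l) + (-(1 / 2) : ℝ) • spc_c (k + l) := by
  funext x
  simp only [Pi.add_apply, Pi.smul_apply, smul_eq_mul, spc_c, spc_s, ph_add_left, ph_neg, mul_add,
    mul_neg, Real.cos_add, Real.sin_neg, Real.cos_neg]
  ring

theorem spc_sc (k l : K3) : (fun x => spc_s k x * spc_c l x)
    = (1 / 2 : ℝ) • spc_s (k + l) + (1 / 2 : ℝ) • spc_s (k + -l) := by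
  funext x
  simp only [Pi.add_apply, Pi.smul_apply, smul_eq_mul, spc_c, spc_s, ph_add_left, ph_neg, mul_add,
    mul_neg, Real.sin_add, Real.sin_neg, Real.cos_neg]
  ring

theorem spc_cs (k l : K3) : (fun x => spc_c k x * spc_s l x)
    = (1 / 2 : ℝ) • spc_s (k + l) + (-(1 / 2) : ℝ) • spc_s (k + -l) := by
  funext x
  simp only [Pi.add_apply, Pi.smul_apply, smul_eq_mul, spc_c, spc_s, ph_add_left, ph_neg, mul_add,
    mul_neg, Real.sin_add, Real.sin_neg, Real.cos_neg]
  ring

theorem spc_mul {A B C : Set K3} (h : ∀ a ∈ A, ∀ b ∈ B, a + b ∈ C ∧ a + -b ∈ C) {f g : V → ℝ}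
    (hf : f ∈ spc_T A) (hg : g ∈ spc_T B) : (fun x => f x * g x) ∈ spc_T C := by
  have key : ∀ k ∈ A, ∀ l ∈ B, (fun x => spc_c k x * spc_c l x) ∈ spc_T C ∧
      (fun x => spc_c k x * spc_s l x) ∈ spc_T C ∧ (fun x => spc_s k x * spc_c l x) ∈ spc_T C ∧
      (fun x => spc_s k x * spc_s l x) ∈ spc_T C := by
    intro k hk l hl
    obtain ⟨h1, h2⟩ := h k hk l hl
    rw [spc_cc, spc_cs, spc_sc, spc_ss]
    exact ⟨(spc_T C).add_mem ((spc_T C).smul_mem _ (spc_cT h1)) ((spc_T C).smul_mem _ (spc_cT h2)),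
      (spc_T C).add_mem ((spc_T C).smul_mem _ (spc_sT h1)) ((spc_T C).smul_mem _ (spc_sT h2)),
      (spc_T C).add_mem ((spc_T C).smul_mem _ (spc_sT h1)) ((spc_T C).smul_mem _ (spc_sT h2)),
      (spc_T C).add_mem ((spc_T C).smul_mem _ (spc_cT h2)) ((spc_T C).smul_mem _ (spc_cT h1))⟩
  refine Submodule.span_induction (p := fun f _ => (fun x => f x * g x) ∈ spc_T C)
    ?_ ?_ ?_ ?_ hf
  · rintro f ⟨k, hk, hfk⟩
    refine Submodule.span_induction (p := fun g _ => (fun x => f x * g x) ∈ spc_T C)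
      ?_ ?_ ?_ ?_ hg
    · rintro g ⟨l, hl, hgl⟩
      obtain ⟨k1, k2, k3, k4⟩ := key k hk l hl
      rcases hfk with rfl | rfl <;> rcases hgl with rfl | rfl
      · exact k1
      · exact k2
      · exact k3
      · exact k4
    · have e : (fun x => f x * (0 : V → ℝ) x) = 0 := by
        funext x
        simp
      rw [e]
      exact (spc_T C).zero_mem
    · intro g g' _ _ h1 h2
      have e : (fun x => f x * (g + g') x) = (fun x => f x * g x) + fun x => f x * g' x := by
        funext x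
        simp only [Pi.add_apply]
        ring
      rw [e]
      exact (spc_T C).add_mem h1 h2
    · intro c g _ h1
      have e : (fun x => f x * (c • g) x) = c • fun x => f x * g x := by
        funext x
        simp only [Pi.smul_apply, smul_eq_mul]
        ring
      rw [e]
      exact (spc_T C).smul_mem c h1
  · have e : (fun x => (0 : V → ℝ) x * g x) = 0 := by
      funext x
      simp
    rw [e]
    exact (spc_T C).zero_mem
  · intro f f' _ _ h1 h2
    have e : (fun x => (f + f') x * g x) = (fun x => f x * g x) + fun x => f' x * g x := by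
      funext x
      simp only [Pi.add_apply]
      ring
    rw [e]
    exact (spc_T C).add_mem h1 h2
  · intro c f _ h1
    have e : (fun x => (c • f) x * g x) = c • fun x => f x * g x := by
      funext x
      simp only [Pi.smul_apply, smul_eq_mul]
      ring
    rw [e]
    exact (spc_T C).smul_mem c h1

theorem spc_intc {k : K3} (hk : k 2 ≠ 0) : ∫ x in cube, spc_c k x = 0 := by
  have h := integral_pd ((spc_sSP k).smooth.of_le (by norm_cast)) (spc_sSP k).per 2
  rw [spc_pds, integral_const_mul] at h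
  have hne : 2 * Real.pi * (k 2 : ℝ) ≠ 0 :=
    mul_ne_zero (mul_ne_zero two_ne_zero Real.pi_ne_zero) (Int.cast_ne_zero.2 hk)
  exact (mul_eq_zero.1 h).resolve_left hne

theorem spc_ints {k : K3} (hk : k 2 ≠ 0) : ∫ x in cube, spc_s k x = 0 := by
  have h := integral_pd ((spc_cSP k).smooth.of_le (by norm_cast)) (spc_cSP k).per 2
  rw [spc_pdc, integral_const_mul] at h
  have hne : -(2 * Real.pi * (k 2 : ℝ)) ≠ 0 :=
    neg_ne_zero.2 (mul_ne_zero (mul_ne_zero two_ne_zero Real.pi_ne_zero) (Int.cast_ne_zero.2 hk))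
  exact (mul_eq_zero.1 h).resolve_left hne

theorem spc_int {A : Set K3} (h : ∀ k ∈ A, k 2 ≠ 0) {f : V → ℝ} (hf : f ∈ spc_T A) :
    ∫ x in cube, f x = 0 := by
  refine Submodule.span_induction (p := fun f _ => ∫ x in cube, f x = 0) ?_ ?_ ?_ ?_ hf
  · rintro f ⟨k, hk, rfl | rfl⟩
    · exact spc_intc (h k hk)
    · exact spc_ints (h k hk)
  · simp
  · intro f g hf hg h1 h2
    have e : ∫ x in cube, (f + g) x = (∫ x in cube, f x) + ∫ x in cube, g x :=
      integral_add (spc_SP hf).int (spc_SP hg).int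
    rw [e, h1, h2, add_zero]
  · intro c f _ h1
    have e : ∫ x in cube, (c • f) x = c * ∫ x in cube, f x := integral_const_mul c f
    rw [e, h1, mul_zero]

/-! ### Product functions -/

theorem spc_one {A : Set ℕ} {F : ℝ → ℝ} (hF : Trig A F) (j : Fin 3) :
    (fun x : V => F (x j)) ∈ spc_T {k | ∃ n ∈ A, k = Pi.single j (n : ℤ)} := by
  have hph : ∀ (n : ℕ) (x : V), ph (Pi.single j (n : ℤ)) x = n * x j := by
    intro n x
    unfold ph
    rw [Finset.sum_eq_single j]
    · simp
    · intro i _ hi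
      simp [Pi.single_eq_of_ne hi]
    · intro h
      exact absurd (Finset.mem_univ j) h
  refine Submodule.span_induction
    (p := fun F _ => (fun x : V => F (x j)) ∈ spc_T {k | ∃ n ∈ A, k = Pi.single j (n : ℤ)})
    ?_ ?_ ?_ ?_ hF
  · rintro F (⟨n, hn, rfl⟩ | ⟨n, hn, rfl⟩)
    · have e : (fun x : V => sn n (x j)) = spc_s (Pi.single j (n : ℤ)) := by
        funext x
        unfold sn spc_s
        rw [hph]
        congr 1
        ring
      rw [e]
      exact spc_sT ⟨n, hn, rfl⟩
    · have e : (fun x : V => cs n (x j)) = spc_c (Pi.single j (n : ℤ)) := by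
        funext x
        unfold cs spc_c
        rw [hph]
        congr 1
        ring
      rw [e]
      exact spc_cT ⟨n, hn, rfl⟩
  · exact Submodule.zero_mem _
  · intro f g _ _ h1 h2
    exact Submodule.add_mem _ h1 h2
  · intro c f _ h1
    exact Submodule.smul_mem _ c h1

theorem spc_prd {A B C : Set ℕ} {F G H : ℝ → ℝ} (hF : Trig A F) (hG : Trig B G)
    (hH : Trig C H) : prd F G H ∈ spc_T {k | ∃ n ∈ C, |k 2| = (n : ℤ)} := by
  have h0 : (fun x : V => F (x 0)) ∈ spc_T {k | k 2 = 0} := by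
    refine spc_mono ?_ (spc_one hF 0)
    rintro k ⟨n, _, rfl⟩
    simp
  have h1 : (fun x : V => G (x 1)) ∈ spc_T {k | k 2 = 0} := by
    refine spc_mono ?_ (spc_one hG 1)
    rintro k ⟨n, _, rfl⟩
    simp
  have h2 : (fun x : V => H (x 2)) ∈ spc_T {k | ∃ n ∈ C, k 2 = (n : ℤ)} := by
    refine spc_mono ?_ (spc_one hH 2)
    rintro k ⟨n, hn, rfl⟩
    exact ⟨n, hn, by simp⟩
  have h3 : (fun x : V => F (x 0) * G (x 1)) ∈ spc_T {k | k 2 = 0} := by
    refine spc_mul ?_ h0 h1
    intro a ha b hb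
    have ha' : a 2 = 0 := ha
    have hb' : b 2 = 0 := hb
    exact ⟨by simp [ha', hb'], by simp [ha', hb']⟩
  refine spc_mul (f := fun x : V => F (x 0) * G (x 1)) ?_ h3 h2
  rintro a ha b ⟨n, hn, hb⟩
  have ha' : a 2 = 0 := ha
  refine ⟨⟨n, hn, ?_⟩, ⟨n, hn, ?_⟩⟩
  · simp [ha', hb]
  · simp [ha', hb]

theorem spc_tF (G : S_trig) (N : ℕ) : Trig univ (fF N) := by
  have e : fF N = ∑ j ∈ Finset.Ico N (2 * N), sn j := by
    funext s
    simp [fF]
  rw [e]
  exact Submodule.sum_mem _ fun j _ => G.sn (mem_univ j)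

theorem spc_tG (G : S_trig) (N : ℕ) : Trig univ (fG N) := by
  have e : fG N = ∑ j ∈ Finset.Ico N (2 * N), cs j := by
    funext s
    simp [fG]
  rw [e]
  exact Submodule.sum_mem _ fun j _ => G.cs (mem_univ j)

/-- the frequencies with `lo ≤ |k₂| ≤ hi` -/
def spc_Z (lo hi : ℤ) : Set K3 := {k | lo ≤ |k 2| ∧ |k 2| ≤ hi}

theorem spc_Zmono {a b c d : ℤ} (h1 : c ≤ a) (h2 : b ≤ d) : spc_Z a b ⊆ spc_Z c d :=
  fun _ hk => ⟨h1.trans hk.1, hk.2.trans h2⟩

theorem spc_Zmul {a b c d : ℤ} {f g : V → ℝ} (hf : f ∈ spc_T (spc_Z a b))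
    (hg : g ∈ spc_T (spc_Z c d)) : (fun x => f x * g x) ∈ spc_T (spc_Z (c - b) (b + d)) := by
  refine spc_mul ?_ hf hg
  rintro k ⟨h1, h2⟩ l ⟨h3, h4⟩
  have e1 : (k + l) 2 = k 2 + l 2 := rfl
  have e2 : (k + -l) 2 = k 2 - l 2 := by
    simp [sub_eq_add_neg]
  refine ⟨⟨?_, ?_⟩, ⟨?_, ?_⟩⟩
  · rw [e1]
    have h5 := abs_sub_abs_le_abs_sub (l 2) (-(k 2))
    rw [abs_neg, sub_neg_eq_add, add_comm (l 2)] at h5
    omega
  · rw [e1]
    have h5 := abs_add_le (k 2) (l 2)
    omega
  · rw [e2]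
    have h5 := abs_sub_abs_le_abs_sub (l 2) (k 2)
    rw [abs_sub_comm] at h5
    omega
  · rw [e2]
    have h5 := abs_sub (k 2) (l 2)
    omega

theorem spc_psi (G : S_trig) (m : ℕ) :
    psi m ∈ spc_T (spc_Z (16 * NN m) (17 * NN m - 1)) := by
  refine spc_mono ?_ (spc_prd (spc_tF G (NN m)) (spc_tG G (NN m)) (G.H (NN m)))
  rintro k ⟨n, ⟨h1, h2⟩, h3⟩
  have h4 := Pump_NN_pos m
  refine ⟨?_, ?_⟩
  · rw [h3]
    exact_mod_cast h1
  · rw [h3]
    omega

theorem spc_chi (G : S_trig) (m : ℕ) :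
    chi m ∈ spc_T (spc_Z (34 * NN (m - 1) - 2) (34 * NN (m - 1) - 2)) := by
  have h := spc_prd (G.sn (mem_univ (4 * NN (m - 1) - 3))) (G.cs (mem_univ (4 * NN (m - 1) - 2)))
    (G.sn (mem_singleton (2 * (17 * NN (m - 1) - 1))))
  refine spc_mono ?_ h
  rintro k ⟨n, hn, h3⟩
  have hn' : n = 2 * (17 * NN (m - 1) - 1) := hn
  have h4 := Pump_NN_pos (m - 1)
  refine ⟨?_, ?_⟩
  · rw [h3]
    omega
  · rw [h3]
    omega

theorem spc_gp {A : Set K3} {Θ : V → ℝ} (h : Θ ∈ spc_T A) (i : Fin 3) :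
    (fun x => gp Θ x i) ∈ spc_T A := by
  fin_cases i
  · exact spc_pd h 2
  · exact Submodule.zero_mem _
  · exact Submodule.neg_mem _ (spc_pd h 0)

/-- lower bound of the frequencies of `φ m` -/
def spc_lo (m : ℕ) : ℤ := if m = 0 then 16 * NN 0 else 34 * NN (m - 1) - 2

theorem spc_NN (m : ℕ) : (NN m : ℤ) = 4 ^ ((m + 2) ^ 3) := by
  unfold NN RR
  push_cast
  rw [← pow_mul, mul_comm, pow_mul]
  norm_num

theorem spc_NN_pos (m : ℕ) : (2 : ℤ) ≤ NN m := by exact_mod_cast Pump_NN_pos m

theorem spc_NN_le (m : ℕ) : 4 * (NN m : ℤ) ≤ NN (m + 1) := by exact_mod_cast Pump_NN_le m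

theorem spc_NN_mono {m n : ℕ} (h : m ≤ n) : (NN m : ℤ) ≤ NN n := by
  have hm : Monotone (fun m => (NN m : ℤ)) := monotone_nat_of_le_succ fun k => by
    have h1 := spc_NN_le k
    have h2 := spc_NN_pos k
    omega
  exact hm h

theorem spc_lo_ge (m : ℕ) : (4 : ℤ) ^ ((m + 1) ^ 3) ≤ spc_lo m := by
  unfold spc_lo
  split_ifs with h
  · subst h
    have := spc_NN_pos 0
    norm_num
    omega
  · obtain ⟨k, rfl⟩ : ∃ k, m = k + 1 := ⟨m - 1, by omega⟩
    have h1 := spc_NN_pos k
    have h2 := spc_NN k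
    rw [Nat.add_sub_cancel]
    have h3 : (k + 1 + 1) ^ 3 = (k + 2) ^ 3 := rfl
    rw [h3, ← h2]
    omega

theorem spc_lo_le (m : ℕ) : spc_lo m ≤ 16 * NN m := by
  unfold spc_lo
  split_ifs with h
  · subst h
    exact le_rfl
  · obtain ⟨k, rfl⟩ : ∃ k, m = k + 1 := ⟨m - 1, by omega⟩
    have h1 := spc_NN_pos k
    have h2 := spc_NN_le k
    rw [Nat.add_sub_cancel]
    omega

theorem spc_phi (P : S_prod) (O : S_one) (G : S_trig) (m : ℕ) (i : Fin 3) :
    (fun x => phi m x i) ∈ spc_T (spc_Z (spc_lo m) (17 * NN m - 1)) := by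
  have h1 : (fun x => gp (psi m) x i) ∈ spc_T (spc_Z (spc_lo m) (17 * NN m - 1)) :=
    spc_mono (spc_Zmono (spc_lo_le m) le_rfl) (spc_gp (spc_psi G m) i)
  have h2 : (fun x => ee' m * gp (chi m) x i) ∈ spc_T (spc_Z (spc_lo m) (17 * NN m - 1)) := by
    rcases Nat.eq_zero_or_pos m with rfl | hm
    · have e : (fun x => ee' 0 * gp (chi 0) x i) = 0 := by
        funext x
        simp [ee']
      rw [e]
      exact Submodule.zero_mem _
    · obtain ⟨k, rfl⟩ : ∃ k, m = k + 1 := ⟨m - 1, by omega⟩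
      have h3 := spc_NN_le k
      have h4 := spc_NN_pos k
      have h5 := spc_gp (spc_chi G (k + 1)) i
      rw [Nat.add_sub_cancel] at h5
      have e : spc_lo (k + 1) = 34 * NN k - 2 := by
        unfold spc_lo
        rw [if_neg (Nat.succ_ne_zero k), Nat.add_sub_cancel]
      have h6 := (spc_T (spc_Z (34 * NN k - 2) (34 * NN k - 2))).smul_mem (ee' (k + 1)) h5
      rw [e]
      refine spc_mono (spc_Zmono le_rfl ?_) h6
      omega
  have e : (fun x => phi m x i) = (-(nm m)⁻¹) • ((fun x => gp (psi m) x i) +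
      fun x => ee' m * gp (chi m) x i) := by
    funext x
    show ((-(nm m)⁻¹) • gp (th0 m) x) i = _
    rw [Pump_gp_th0 P O]
    simp
  rw [e]
  exact Submodule.smul_mem _ _ (Submodule.add_mem _ h1 h2)

/-! ### Vector fields -/

theorem spc_comp {A : Set K3} {w : V → V} (h : ∀ i, (fun x => w x i) ∈ spc_T A) : w ∈ TP A := by
  have key : ∀ (i : Fin 3) (f : V → ℝ), f ∈ spc_T A →
      (fun x => f x • (Pi.single i (1 : ℝ) : V)) ∈ TP A := by
    intro i f hf
    refine Submodule.span_induction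
      (p := fun f _ => (fun x => f x • (Pi.single i (1 : ℝ) : V)) ∈ TP A) ?_ ?_ ?_ ?_ hf
    · rintro f ⟨k, hk, rfl | rfl⟩
      · exact Submodule.subset_span ⟨k, hk, Pi.single i 1, Or.inl fun x => rfl⟩
      · exact Submodule.subset_span ⟨k, hk, Pi.single i 1, Or.inr fun x => rfl⟩
    · have e : (fun x => (0 : V → ℝ) x • (Pi.single i (1 : ℝ) : V)) = 0 := by
        funext x
        simp
      rw [e]
      exact Submodule.zero_mem _
    · intro f g _ _ h1 h2
      have e : (fun x => (f + g) x • (Pi.single i (1 : ℝ) : V)) =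
          (fun x => f x • (Pi.single i (1 : ℝ) : V)) + fun x => g x • (Pi.single i (1 : ℝ) : V) := by
        funext x
        simp only [Pi.add_apply, add_smul]
      rw [e]
      exact Submodule.add_mem _ h1 h2
    · intro c f _ h1
      have e : (fun x => (c • f) x • (Pi.single i (1 : ℝ) : V)) =
          c • fun x => f x • (Pi.single i (1 : ℝ) : V) := by
        funext x
        simp only [Pi.smul_apply, smul_eq_mul, mul_smul]
      rw [e]
      exact Submodule.smul_mem _ c h1
  have e : w = ∑ i, fun x => w x i • (Pi.single i (1 : ℝ) : V) := by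
    funext x
    rw [Finset.sum_apply]
    funext j
    rw [Finset.sum_apply]
    simp [Pi.single_apply]
  rw [e]
  exact Submodule.sum_mem _ fun i _ => key i _ (h i)

/-- all components in `spc_T A` -/
def spc_W (A : Set K3) (w : V → V) : Prop := ∀ i, (fun x => w x i) ∈ spc_T A

theorem spc_W_S {A : Set K3} {w : V → V} (h : spc_W A w) : Pump_S w := fun i => spc_SP (h i)

theorem spc_W_mono {A B : Set K3} (h : A ⊆ B) {w : V → V} (hw : spc_W A w) : spc_W B w :=
  fun i => spc_mono h (hw i)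

theorem spc_ip0 {a b c d : ℤ} {u w : V → V} (hu : spc_W (spc_Z a b) u) (hw : spc_W (spc_Z c d) w)
    (h : b < c) : ip u w = 0 := by
  unfold ip
  refine Finset.sum_eq_zero fun i _ => spc_int ?_ (spc_Zmul (hu i) (hw i))
  rintro k ⟨h1, _⟩ h0
  rw [h0, abs_zero] at h1
  omega

theorem spc_cv {a b c d : ℤ} {u v : V → V} (hu : spc_W (spc_Z a b) u) (hv : spc_W (spc_Z c d) v) :
    spc_W (spc_Z (c - b) (b + d)) (cv u v) := by
  intro i
  have e : (fun x => cv u v x i) = ∑ j, fun x => u x j * pd j (fun y => v y i) x := by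
    funext x
    rw [Finset.sum_apply]
    rfl
  rw [e]
  exact Submodule.sum_mem _ fun j _ => spc_Zmul (hu j) (spc_pd (hv i) j)

theorem spc_cv' {a b c d : ℤ} {u v : V → V} (hu : spc_W (spc_Z a b) u)
    (hv : spc_W (spc_Z c d) v) : spc_W (spc_Z (a - d) (b + d)) (cv u v) := by
  intro i
  have e : (fun x => cv u v x i) = ∑ j, fun x => pd j (fun y => v y i) x * u x j := by
    funext x
    rw [Finset.sum_apply]
    exact Finset.sum_congr rfl fun j _ => mul_comm _ _
  rw [e]
  refine Submodule.sum_mem _ fun j _ => ?_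
  have := spc_Zmul (spc_pd (hv i) j) (hu j)
  rwa [add_comm d b] at this

theorem spc_lp {A : Set K3} {u : V → V} (hu : spc_W A u) : spc_W A (lp u) := by
  intro i
  have e : (fun x => lp u x i) = ∑ j, pd j (pd j (fun y => u y i)) := by
    funext x
    rw [Finset.sum_apply]
    rfl
  rw [e]
  exact Submodule.sum_mem _ fun j _ => spc_pd (spc_pd (hu i) j) j

theorem spc_add {A : Set K3} {u v : V → V} (hu : spc_W A u) (hv : spc_W A v) :
    spc_W A (fun x l => u x l + v x l) := fun i => Submodule.add_mem _ (hu i) (hv i)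

theorem spc_ip_cv {u v w : V → V} (hu : Pump_S u) (hv : Pump_S v) (hw : Pump_S w) :
    ip (cv u v) w = tri u w v := by
  unfold ip tri cv
  rw [Finset.sum_comm]
  refine Finset.sum_congr rfl fun i _ => ?_
  rw [← integral_finsetSum _ fun j _ =>
    (((hu j).mul (hw i)).mul ((hv i).pd j)).int]
  refine integral_congr_ae (Filter.Eventually.of_forall fun x => ?_)
  simp only [Finset.sum_mul]
  exact Finset.sum_congr rfl fun j _ => by ring

theorem spc_ip_add {u v w : V → V} (hu : Pump_S u) (hv : Pump_S v) (hw : Pump_S w) :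
    ip (fun x l => u x l + v x l) w = ip u w + ip v w := by
  unfold ip
  rw [← Finset.sum_add_distrib]
  refine Finset.sum_congr rfl fun i _ => ?_
  rw [← integral_add ((hu i).mul (hw i)).int ((hv i).mul (hw i)).int]
  refine integral_congr_ae (Filter.Eventually.of_forall fun x => ?_)
  show (u x i + v x i) * w x i = u x i * w x i + v x i * w x i
  ring

theorem spc_ip_lp {u v : V → V} (hu : Pump_S u) (hv : Pump_S v) :
    ip (lp u) v = -gip u v := by
  unfold ip gip lp
  rw [← Finset.sum_neg_distrib]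
  exact Finset.sum_congr rfl fun i _ => int_lap_mul (hu i) (hv i)

/-! ### The constraints -/

theorem spc_res {A : Set K3} {n : ℕ} {f : V → V} (hf : spc_W A f)
    (h : ∀ m, m < n + 2 → ip f (phi m) = 0 ∨ spc_W A (phi m)) : spc_W A (res n f) := by
  intro i
  have e : (fun x => res n f x i) = (fun x => f x i) -
      ∑ m ∈ Finset.range (n + 2), fun x => ip f (phi m) * phi m x i := by
    funext x
    rw [Pi.sub_apply, Finset.sum_apply]
    rfl
  rw [e]
  refine Submodule.sub_mem _ (hf i) (Submodule.sum_mem _ fun m hm => ?_)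
  rcases h m (Finset.mem_range.1 hm) with h0 | h0
  · rw [h0]
    have e2 : (fun x => 0 * phi m x i) = 0 := by
      funext x
      simp
    rw [e2]
    exact Submodule.zero_mem _
  · exact Submodule.smul_mem _ _ (h0 i)

theorem spc_ip_res {n : ℕ} {f w : V → V} (hf : Pump_S f) (hw : Pump_S w)
    (hp : ∀ m, Pump_S (phi m)) : ip w (res n f) = ip w f -
      ∑ m ∈ Finset.range (n + 2), ip f (phi m) * ip w (phi m) := by
  have h1 : ∀ i, ∫ x in cube, w x i * res n f x i = (∫ x in cube, w x i * f x i) -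
      ∑ m ∈ Finset.range (n + 2), ip f (phi m) * ∫ x in cube, w x i * phi m x i := by
    intro i
    have e : ∀ x, w x i * res n f x i = w x i * f x i -
        ∑ m ∈ Finset.range (n + 2), ip f (phi m) * (w x i * phi m x i) := by
      intro x
      unfold res
      rw [mul_sub, Finset.mul_sum]
      congr 1
      exact Finset.sum_congr rfl fun m _ => by ring
    simp only [e]
    have h2 : ∀ m ∈ Finset.range (n + 2),
        IntegrableOn (fun x => ip f (phi m) * (w x i * phi m x i)) cube :=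
      fun m _ => ((hw i).mul (hp m i)).int.const_mul _
    rw [integral_sub ((hw i).mul (hf i)).int (integrable_finsetSum _ h2),
      integral_finsetSum _ h2]
    congr 1
    exact Finset.sum_congr rfl fun m _ => integral_const_mul _ _
  unfold ip
  simp only [h1]
  rw [Finset.sum_sub_distrib, Finset.sum_comm]
  unfold ip
  congr 1
  exact Finset.sum_congr rfl fun m _ => by rw [Finset.mul_sum]

theorem spc_qqS {i j : ℕ} (hp : ∀ m, Pump_S (phi m)) : Pump_S (cv (phi i) (phi j)) := by
  intro l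
  exact SP.sum fun k _ => (hp i k).mul ((hp j l).pd k)

theorem spc_ip_qq (hp : ∀ m, Pump_S (phi m)) (i n m : ℕ) :
    ip (qq i n) (phi m) = tri (phi i) (phi m) (phi n) + tri (phi n) (phi m) (phi i) := by
  have h := spc_ip_add (spc_qqS hp (i := i) (j := n)) (spc_qqS hp (i := n) (j := i)) (hp m)
  rw [spc_ip_cv (hp i) (hp n) (hp m), spc_ip_cv (hp n) (hp i) (hp m)] at h
  exact h

theorem spc_nonneg (f : ℝ → ℝ) : 0 ≤ i1 (fun s => f s * f s) := by
  unfold i1
  exact intervalIntegral.integral_nonneg (by norm_num) fun s _ => mul_self_nonneg _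

theorem spc_pos (P : S_prod) (O : S_one) (m : ℕ) : 0 < ip (gp (psi m)) (gp (psi m)) := by
  have hN : 1 ≤ NN m := le_trans (by norm_num) (Pump_NN_pos m)
  have hN' : (0 : ℝ) < NN m := by exact_mod_cast hN
  unfold psi
  rw [P.ip_gp (O.p1_F _) (O.p1_G _) (O.p1_H _) (O.p1_F _) (O.p1_G _) (O.p1_H _)]
  have e1 : i1 (fun s => fF (NN m) s * fF (NN m) s) = NN m / 2 := by
    rw [← O.nF _ hN]
    congr 1
    funext s
    ring
  have e2 : i1 (fun s => fG (NN m) s * fG (NN m) s) = NN m / 2 := by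
    rw [← O.nG _ hN]
    congr 1
    funext s
    ring
  have e3 : i1 (fun s => deriv (fH (NN m)) s * deriv (fH (NN m)) s) = NN m / 2 := by
    rw [← O.ndH _ hN]
    congr 1
    funext s
    ring
  rw [e1, e2, e3]
  have h1 := spc_nonneg (deriv (fF (NN m)))
  have h2 := spc_nonneg (fH (NN m))
  have h0 := half_pos hN'
  have h3 : 0 < (NN m : ℝ) / 2 * (NN m / 2) * (NN m / 2) := mul_pos (mul_pos h0 h0) h0
  have h4 : 0 ≤ i1 (fun s => deriv (fF (NN m)) s * deriv (fF (NN m)) s) * (NN m / 2 : ℝ) *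
      i1 (fun s => fH (NN m) s * fH (NN m) s) :=
    mul_nonneg (mul_nonneg h1 h0.le) h2
  linarith

theorem spc_pp_pos (P : S_prod) (O : S_one) (G : S_trig) (hn : S_nm) (n : ℕ) : 0 < pp n := by
  rw [Fin_pp P O G n]
  have h1 : (2 : ℝ) ≤ NN n := by exact_mod_cast Pump_NN_pos n
  have h2 := (hn n).2
  have h3 := (hn (n + 1)).2
  have h4 : 0 < 4 * (NN n : ℝ) - 3 := by linarith
  have h5 : 0 < 17 * (NN n : ℝ) - 1 := by linarith
  have h6 : (0 : ℝ) < 2 * Real.pi := mul_pos two_pos Real.pi_pos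
  exact mul_pos (Real.exp_pos _) (mul_pos (div_pos (mul_pos (pow_pos h6 2) h4)
    (mul_pos (by norm_num) h5)) (mul_pos (pow_pos (inv_pos.2 h2) 2) (inv_pos.2 h3)))

theorem spc_gpdiv {Θ : V → ℝ} (h : SP Θ) (x : V) : ∑ i, pd i (fun y => gp Θ y i) x = 0 := by
  have e0 : (fun y => gp Θ y 0) = pd 2 Θ := rfl
  have e1 : (fun y => gp Θ y 1) = fun _ => 0 := rfl
  have e2 : (fun y => gp Θ y 2) = fun y => (-1) * pd 0 Θ y := by
    funext y
    simp [gp]
  rw [Fin.sum_univ_three, e0, e1, e2, Pump_pd_smul (h.pd 0), pd_comm h 0 2]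
  have e3 : pd 1 (fun _ : V => (0 : ℝ)) x = 0 := by
    unfold pd
    simp
  rw [e3]
  ring

/-- the frequencies of the constraints -/
theorem s_spec (P : S_prod) (O : S_one) (G : S_trig) (hn : S_nm) (hb : Basis phi cc pp gg) :
    S_spec := by
  have hp : ∀ m, Pump_S (phi m) := fun m => hb.sp m
  have hW : ∀ m, spc_W (spc_Z (spc_lo m) (17 * NN m - 1)) (phi m) := fun m => spc_phi P O G m
  have hU : ∀ m, spc_W univ (phi m) := fun m => spc_W_mono (subset_univ _) (hW m)
  have hlow : ∀ m n, n ≤ m + 1 → spc_W {k : K3 | (4 : ℤ) ^ (n ^ 3) ≤ |k 2|} (phi m) := by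
    intro m n h
    refine spc_W_mono ?_ (hW m)
    rintro k ⟨h1, _⟩
    have h2 : (4 : ℤ) ^ (n ^ 3) ≤ 4 ^ ((m + 1) ^ 3) :=
      pow_le_pow_right₀ (by norm_num) (Nat.pow_le_pow_left h 3)
    exact (h2.trans (spc_lo_ge m)).trans h1
  have hqU : ∀ i j, spc_W univ (qq i j) := by
    intro i j
    exact spc_add (spc_W_mono (subset_univ _) (spc_cv (hW i) (hW j)))
      (spc_W_mono (subset_univ _) (spc_cv (hW j) (hW i)))
  have hlp : ∀ m n, ip (lp (phi n)) (phi m) = -if n = m then gg n else 0 := by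
    intro m n
    rw [spc_ip_lp (hp n) (hp m), hb.gon]
  refine ⟨fun n i => ?_, fun n i hin => ?_, fun n => ?_⟩
  · unfold cst
    split_ifs with h1 h2
    · exact spc_comp (spc_res (hqU i n) fun m _ => Or.inr (hU m))
    · exact spc_comp (spc_res (spc_lp (hU n)) fun m _ => Or.inr (hU m))
    · exact Submodule.zero_mem _
  · unfold cst
    split_ifs with h1 h2
    · have hlt : i < n := lt_of_le_of_ne h1 hin
      obtain ⟨k, rfl⟩ : ∃ k, n = k + 1 := ⟨n - 1, by omega⟩
      have hNi : (NN i : ℤ) ≤ NN k := spc_NN_mono (by omega)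
      have hlo : spc_lo (k + 1) = 34 * NN k - 2 := by
        unfold spc_lo
        rw [if_neg (Nat.succ_ne_zero k), Nat.add_sub_cancel]
      have hk2 := spc_NN_pos k
      have hk4 : (4 : ℤ) ^ ((k + 1) ^ 3) ≤ NN k := by
        rw [spc_NN]
        exact pow_le_pow_right₀ (by norm_num) (Nat.pow_le_pow_left (by omega) 3)
      refine spc_comp (spc_res (spc_add ?_ ?_) fun m hm => ?_)
      · refine spc_W_mono ?_ (spc_cv (hW i) (hW (k + 1)))
        rintro q ⟨h3, _⟩
        rw [hlo] at h3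
        show (4 : ℤ) ^ ((k + 1) ^ 3) ≤ |q 2|
        omega
      · refine spc_W_mono ?_ (spc_cv' (hW (k + 1)) (hW i))
        rintro q ⟨h3, _⟩
        rw [hlo] at h3
        show (4 : ℤ) ^ ((k + 1) ^ 3) ≤ |q 2|
        omega
      · by_cases hm1 : m = k + 1
        · exact Or.inr (hlow m (k + 1) (by omega))
        · by_cases hm2 : m = k
          · exact Or.inr (hlow m (k + 1) (by omega))
          · left
            rw [spc_ip_qq hp, hb.tri_eq, hb.tri_eq]
            rw [if_neg (by omega), if_neg (by omega), if_neg (by omega), if_neg (by omega),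
              if_neg (by omega), if_neg (by omega), if_neg (by omega), if_neg (by omega)]
            ring
    · refine spc_comp (spc_res (spc_lp (hlow n n (by omega))) fun m _ => ?_)
      by_cases hm : n = m
      · subst hm
        exact Or.inr (hlow n n (by omega))
      · left
        rw [hlp, if_neg hm, neg_zero]
    · exact Submodule.zero_mem _
  · have hψ := Pump_psi_P P O (n + 1)
    have hw : spc_W (spc_Z (16 * NN (n + 1)) (17 * NN (n + 1) - 1)) (gp (psi (n + 1))) :=
      spc_gp (spc_psi G (n + 1))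
    have hwS := Pump_gp_S hψ
    have hN := spc_NN_le n
    have hN2 := spc_NN_pos n
    refine ⟨gp (psi (n + 1)), spc_comp (spc_W_mono ?_ hw), hwS, spc_gpdiv hψ, ?_⟩
    · rintro k ⟨h1, _⟩
      have h2 : (4 : ℤ) ^ (n ^ 3) ≤ NN (n + 1) := by
        rw [spc_NN]
        exact pow_le_pow_right₀ (by norm_num) (Nat.pow_le_pow_left (by omega) 3)
      show (4 : ℤ) ^ (n ^ 3) ≤ |k 2|
      omega
    · have hsymm : ∀ {u : V → V} {a b : ℤ}, spc_W (spc_Z a b) u → b < 16 * NN (n + 1) →
          ip (gp (psi (n + 1))) u = 0 := by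
        intro u a b hu hab
        have h1 := spc_ip0 hu hw hab
        rw [← h1]
        unfold ip
        refine Finset.sum_congr rfl fun i _ => ?_
        refine integral_congr_ae (Filter.Eventually.of_forall fun x => ?_)
        exact mul_comm _ _
      have hc : cst n n = res n (qq n n) := by
        unfold cst
        rw [if_pos le_rfl]
      have hqS : Pump_S (qq n n) := spc_W_S (hqU n n)
      rw [hc, spc_ip_res hqS hwS hp]
      have h1 : ip (gp (psi (n + 1))) (qq n n) = 0 := by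
        refine hsymm (spc_add (spc_cv (hW n) (hW n)) (spc_cv (hW n) (hW n))) ?_
        omega
      have h2 : ∀ m ∈ Finset.range (n + 2), m ≠ n + 1 →
          ip (qq n n) (phi m) * ip (gp (psi (n + 1))) (phi m) = 0 := by
        intro m hm hne
        have hmn : m ≤ n := by
          have := Finset.mem_range.1 hm
          omega
        have hNm : (NN m : ℤ) ≤ NN n := spc_NN_mono hmn
        rw [hsymm (hW m) (by omega), mul_zero]
      have h3 : ip (qq n n) (phi (n + 1)) = -2 * pp n := by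
        rw [spc_ip_qq hp, hb.tri_eq, if_neg (by omega), if_neg (by omega), if_neg (by omega),
          if_pos ⟨rfl, rfl⟩]
        ring
      have hwc : Pump_S (gp (chi (n + 1))) := Pump_gp_S (Pump_chi_P P O (n + 1))
      have h4 : ip (gp (psi (n + 1))) (gp (chi (n + 1))) = 0 := by
        have h5 : spc_W (spc_Z (34 * NN n - 2) (34 * NN n - 2)) (gp (chi (n + 1))) :=
          spc_gp (spc_chi G (n + 1))
        exact hsymm h5 (by omega)
      have h6 : ip (gp (psi (n + 1))) (phi (n + 1)) =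
          -(nm (n + 1))⁻¹ * ip (gp (psi (n + 1))) (gp (psi (n + 1))) := by
        have e : phi (n + 1) = fun x => (-(nm (n + 1))⁻¹) • gp (th0 (n + 1)) x := rfl
        have h7 : ∀ i, ∫ x in cube, gp (psi (n + 1)) x i * phi (n + 1) x i =
            -(nm (n + 1))⁻¹ * ((∫ x in cube, gp (psi (n + 1)) x i * gp (psi (n + 1)) x i) +
              ee' (n + 1) * ∫ x in cube, gp (psi (n + 1)) x i * gp (chi (n + 1)) x i) := by
          intro i
          rw [← integral_const_mul (ee' (n + 1)), ← integral_add ((hwS i).mul (hwS i)).int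
            (((hwS i).mul (hwc i)).int.const_mul _), ← integral_const_mul]
          refine integral_congr_ae (Filter.Eventually.of_forall fun x => ?_)
          rw [e, Pump_gp_th0 P O]
          simp only [Pi.smul_apply, Pi.add_apply, smul_eq_mul]
          ring
        have h8 : ip (gp (psi (n + 1))) (phi (n + 1)) =
            -(nm (n + 1))⁻¹ * (ip (gp (psi (n + 1))) (gp (psi (n + 1))) +
              ee' (n + 1) * ip (gp (psi (n + 1))) (gp (chi (n + 1)))) := by
          unfold ip
          simp only [h7]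
          rw [← Finset.mul_sum, Finset.sum_add_distrib, ← Finset.mul_sum]
        rw [h8, h4, mul_zero, add_zero]
      rw [h1, Finset.sum_eq_single_of_mem (n + 1) (Finset.mem_range.2 (by omega)) h2, h3, h6]
      have h9 := spc_pos P O (n + 1)
      have h10 := spc_pp_pos P O G hn n
      have h11 := inv_pos.2 (hn (n + 1)).2
      have h12 : 0 < pp n * ((nm (n + 1))⁻¹ * ip (gp (psi (n + 1))) (gp (psi (n + 1)))) :=
        mul_pos h10 (mul_pos h11 h9)
      intro h13
      have h14 : pp n * ((nm (n + 1))⁻¹ * ip (gp (psi (n + 1))) (gp (psi (n + 1)))) = 0 := by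
        linear_combination (-1 / 2) * h13
      exact h12.ne' h14

end Pool.Agent.H226.GB

end
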