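import Pool.Agent.H226.GM.S
import Pool.Agent.H226.GM.Blow
import Pool.Agent.H226.GM.Uniq
import Pool.Agent.H226.GM.Proj
import Pool.Agent.H226.GM.Shift
import Pool.Agent.H226.GM.Hs
import Pool.Agent.H226.GM.Hsb
import Pool.Agent.H226.GM.Adm
import Pool.Agent.H226.GM.Cons
import Pool.Agent.H226.GM.Spc
import Pool.Agent.H226.GM.LocA
import Pool.Agent.H226.GM.AprB
import Pool.Agent.H226.GM.L3

/-! ## Cri -/

section

/-!
Continuation of the solutions in the small space (task GB64 Cri, by helper878).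
-/

set_option autoImplicit false

open MeasureTheory Set Filter Topology
open scoped ContDiff ENNReal
open H459R3.NS

namespace Pool.Agent.H226.GB

theorem cri_sp {φ : ℕ → V → V} {ν T : ℝ} {u : ℝ → V → V} (hu : IsGal φ ν T u) {t : ℝ}
    (ht : t ∈ Ico 0 T) (i : Fin 3) : SP (fun x => u t x i) where
  smooth := by
    have h1 : ContDiff ℝ ∞ (fun x : V => ((t, x) : ℝ × V)) := contDiff_const.prodMk contDiff_id
    have h2 : ContDiff ℝ ∞ (fun x : V => u t x) := by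
      rw [← contDiffOn_univ]
      exact hu.smooth.comp h1.contDiffOn (fun x _ => ⟨ht, mem_univ _⟩)
    exact contDiff_pi.1 h2 i
  per := fun j x => congrFun (hu.per t ht j x) i

theorem cri_rap (h5 : S_hsb) (h6 : S_hfin) {f : V → V} (hf : ∀ i, SP (fun x => f x i))
    (s : ℕ) : ∃ K : ℝ, ∀ m, (RR m : ℝ) ^ s * |ip f (phi m)| ≤ K := by
  obtain ⟨K, hK⟩ := prs_rap h5 h6 1 le_rfl f hf s
  refine ⟨K, fun m => ?_⟩
  have h := hK m
  simp only [Nat.cast_one, one_smul] at h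
  exact h

theorem cri_bes (h5 : S_hsb) (h6 : S_hfin) {f : V → V} (hf : ∀ i, SP (fun x => f x i)) :
    ∃ A : ℝ, 0 ≤ A ∧ ∀ M : ℕ,
      ∑ m ∈ Finset.range M, (RR m : ℝ) ^ 12 * ip f (phi m) ^ 2 ≤ A := by
  obtain ⟨C, a2, b2⟩ := h5 1 3 le_rfl (by norm_num)
  have hfin : ENNReal.ofReal C * hs 3 f ≠ ⊤ :=
    ENNReal.mul_ne_top ENNReal.ofReal_ne_top (h6.1 f _ hf).ne
  refine ⟨(ENNReal.ofReal C * hs 3 f).toReal, ENNReal.toReal_nonneg, fun M => ?_⟩
  have h := b2 f hf M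
  rw [ENNReal.ofReal_le_iff_le_toReal hfin] at h
  refine le_trans (le_of_eq ?_) h
  refine Finset.sum_congr rfl fun m _ => ?_
  have e : (RR m : ℝ) ^ (4 * (3 : ℝ)) = (RR m : ℝ) ^ 12 := by
    rw [show (4 * (3 : ℝ)) = ((12 : ℕ) : ℝ) by norm_num, Real.rpow_natCast]
  rw [e]
  simp only [Nat.cast_one, one_smul]
  rfl

theorem cri_RR {m j : ℕ} (h : m ≤ j) : (RR m : ℝ) ≤ RR j := by
  have h1 : RR m ≤ RR j := by
    unfold RR
    exact Nat.pow_le_pow_right (by norm_num) (Nat.pow_le_pow_left (by omega) 3)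
  exact_mod_cast h1

theorem cri_RR1 (m : ℕ) : (1 : ℝ) ≤ RR m := by
  have h1 : 1 ≤ RR m := by
    unfold RR
    exact Nat.one_le_two_pow
  exact_mod_cast h1

theorem cri_tail {b : ℕ → ℝ} {A S0 : ℝ}
    (hA : ∀ M : ℕ, ∑ m ∈ Finset.range M, (RR m : ℝ) ^ 12 * b m ^ 2 ≤ A)
    (hS : HasSum (fun m => b m ^ 2) S0) (m : ℕ) :
    (RR m : ℝ) ^ 12 * (S0 - ∑ j ∈ Finset.range m, b j ^ 2) ≤ A := by
  have h1 : Tendsto (fun M : ℕ => (RR m : ℝ) ^ 12 *
      (∑ j ∈ Finset.range M, b j ^ 2 - ∑ j ∈ Finset.range m, b j ^ 2)) atTop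
      (𝓝 ((RR m : ℝ) ^ 12 * (S0 - ∑ j ∈ Finset.range m, b j ^ 2))) :=
    (hS.tendsto_sum_nat.sub_const _).const_mul _
  refine le_of_tendsto h1 ?_
  filter_upwards [eventually_ge_atTop m] with M hM
  rw [← Finset.sum_range_add_sum_Ico _ hM, add_sub_cancel_left, Finset.mul_sum]
  have h2 : ∑ j ∈ Finset.Ico m M, (RR m : ℝ) ^ 12 * b j ^ 2
      ≤ ∑ j ∈ Finset.Ico m M, (RR j : ℝ) ^ 12 * b j ^ 2 := by
    refine Finset.sum_le_sum fun j hj => ?_
    refine mul_le_mul_of_nonneg_right ?_ (sq_nonneg _)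
    exact pow_le_pow_left₀ (Nat.cast_nonneg _) (cri_RR (Finset.mem_Ico.1 hj).1) 12
  refine h2.trans (le_trans ?_ (hA M))
  rw [← Finset.sum_range_add_sum_Ico _ hM]
  have h3 : 0 ≤ ∑ j ∈ Finset.range m, (RR j : ℝ) ^ 12 * b j ^ 2 :=
    Finset.sum_nonneg fun j _ => by positivity
  linarith

theorem cri_S0 {b : ℕ → ℝ} {A S0 : ℝ}
    (hA : ∀ M : ℕ, ∑ m ∈ Finset.range M, (RR m : ℝ) ^ 12 * b m ^ 2 ≤ A)
    (hS : HasSum (fun m => b m ^ 2) S0) : S0 ≤ A := by
  have h1 := cri_tail hA hS 0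
  have h2 : 0 ≤ S0 := hS.nonneg fun m => sq_nonneg _
  have h3 : (1 : ℝ) ≤ (RR 0 : ℝ) ^ 12 := one_le_pow₀ (cri_RR1 0)
  rw [Finset.sum_range_zero, sub_zero] at h1
  nlinarith

theorem cri_comb (b : ℕ → ℝ) (L : ℕ) :
    (fun (x : V) (i : Fin 3) => ∑ m ∈ Finset.range L, b m * phi m x i)
      ∈ Submodule.span ℝ (Sc 1) := by
  have e : (fun (x : V) (i : Fin 3) => ∑ m ∈ Finset.range L, b m * phi m x i)
      = ∑ m ∈ Finset.range L, b m • (fun x => phi m x) := by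
    funext x i
    simp only [Finset.sum_apply, Pi.smul_apply, smul_eq_mul]
  rw [e]
  refine Submodule.sum_mem _ fun m _ => Submodule.smul_mem _ _ (Submodule.subset_span ?_)
  exact ⟨m, fun x => by rw [Nat.cast_one, one_smul]⟩

theorem cri_span {ν T : ℝ} {u : ℝ → V → V} (hu : IsGal phi ν T u) {t : ℝ}
    (ht : t ∈ Ico 0 T) : InSpan (Sc 1) (u t) := by
  intro ε hε
  obtain ⟨L, a, h⟩ := hu.mem t ht ε hε
  exact ⟨_, cri_comb a L, h⟩

/-- a smooth field of the closed span is the sum of its series -/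
theorem cri_sum (h5 : S_hsb) (h6 : S_hfin) {f : V → V} (hf : ∀ i, SP (fun x => f x i))
    (hfs : InSpan (Sc 1) f) (x : V) (i : Fin 3) :
    HasSum (fun m => ip f (phi m) * phi m x i) (f x i) := by
  have hphi : ∀ m i, SP (fun x => phi m x i) := f_bas.sp
  set b : ℕ → ℝ := fun m => ip f (phi m) with hbdef
  have hrap : ∀ s : ℕ, ∃ K : ℝ, ∀ m, (RR m : ℝ) ^ s * |b m| ≤ K :=
    fun s => cri_rap h5 h6 hf s
  obtain ⟨G, hG, -, hsum, hlim⟩ := s_stat s_int f_bas f_nm 1 b le_rfl hrap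
  simp only [Nat.cast_one, one_smul] at hsum hlim
  set S : ℕ → V → V := fun L x i => ∑ m ∈ Finset.range L, b m * phi m x i with hSdef
  have hS : ∀ L i, SP (fun x => S L x i) := by
    intro L i
    exact SP.sum fun m _ => uni_smul (b m) (hphi m i)
  have hGs : InSpan (Sc 1) G := by
    intro ε hε
    obtain ⟨L₀, hL⟩ := hlim ε hε
    exact ⟨S L₀, cri_comb b L₀, hL L₀ le_rfl⟩
  have horth : ∀ m, ∑ i, ∫ x in cube, (f x i - G x i) * phi m (((1 : ℕ) : ℝ) • x) i = 0 := by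
    intro m
    simp only [Nat.cast_one, one_smul]
    have e1 : ∀ i, ∫ x in cube, (f x i - G x i) * phi m x i =
        (∫ x in cube, f x i * phi m x i) - ∫ x in cube, G x i * phi m x i := by
      intro i
      rw [← integral_sub ((hf i).mul (hphi m i)).int ((hG i).mul (hphi m i)).int]
      refine integral_congr_ae (ae_of_all _ fun x => ?_)
      show (f x i - G x i) * phi m x i = _
      ring
    rw [Finset.sum_congr rfl fun i _ => e1 i, Finset.sum_sub_distrib]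
    have e2 : ∑ i, ∫ x in cube, f x i * phi m x i = b m := rfl
    have e3 : Tendsto (fun L => ∑ i, ∫ x in cube, S L x i * phi m x i) atTop
        (𝓝 (∑ i, ∫ x in cube, G x i * phi m x i)) :=
      tendsto_finsetSum _ fun i _ => ProjP_conv hG hS hlim (hphi m i) i
    have e4 : ∀ L, m < L → ∑ i, ∫ x in cube, S L x i * phi m x i = b m := by
      intro L hmL
      have f1 : ∀ i, ∫ x in cube, S L x i * phi m x i =
          ∑ n ∈ Finset.range L, b n * ∫ x in cube, phi n x i * phi m x i := by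
        intro i
        have f2 : ∀ x, S L x i * phi m x i =
            ∑ n ∈ Finset.range L, b n * (phi n x i * phi m x i) := by
          intro x
          simp only [hSdef]
          rw [Finset.sum_mul]
          refine Finset.sum_congr rfl fun n _ => ?_
          ring
        simp_rw [f2]
        rw [integral_finsetSum _ fun n _ => ((hphi n i).mul (hphi m i)).int.const_mul _]
        refine Finset.sum_congr rfl fun n _ => ?_
        rw [integral_const_mul]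
      rw [Finset.sum_congr rfl fun i _ => f1 i, Finset.sum_comm]
      have f4 : ∀ n, ∑ i, b n * ∫ x in cube, phi n x i * phi m x i =
          if n = m then b n else 0 := by
        intro n
        rw [← Finset.mul_sum]
        have h := f_bas.on n m
        unfold ip at h
        rw [h]
        split_ifs <;> simp
      rw [Finset.sum_congr rfl fun n _ => f4 n, Finset.sum_ite_eq',
        if_pos (Finset.mem_range.2 hmL)]
    have e5 : ∑ i, ∫ x in cube, G x i * phi m x i = b m := by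
      refine tendsto_nhds_unique e3 (tendsto_const_nhds.congr' ?_)
      filter_upwards [eventually_gt_atTop m] with L hmL
      exact (e4 L hmL).symm
    rw [e2, e5, sub_self]
  have hGf : G = f := locs_unique f_bas 1 hf hG hfs hGs horth
  have h := hsum x i
  rw [hGf] at h
  exact h

theorem cri_cc (n : ℕ) : ∃ C, ∀ l, |cc n l| ≤ C := by
  refine ⟨2 ^ 10 * (RR n : ℝ) ^ 5 + ∑ l ∈ Finset.range (n + 1), |cc n l|, fun l => ?_⟩
  have h1 : 0 ≤ ∑ l ∈ Finset.range (n + 1), |cc n l| := Finset.sum_nonneg fun _ _ => abs_nonneg _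
  have h2 : (0 : ℝ) ≤ 2 ^ 10 * (RR n : ℝ) ^ 5 :=
    mul_nonneg (by norm_num) (pow_nonneg (Nat.cast_nonneg _) 5)
  by_cases hl : n < l
  · have := f_ccu n l hl
    linarith
  · have := Finset.single_le_sum (f := fun l => |cc n l|) (fun l _ => abs_nonneg _)
      (Finset.mem_range.2 (show l < n + 1 by omega))
    linarith

/-- **Task GB64.** -/
theorem s_cri (h1 : S_loc1u) (h2 : S_apr) (h3 : S_glu) (_ : S_prS) (h5 : S_hsb) (h6 : S_hfin)
    (h7 : S_red) : S_cri := by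
  intro ν T Λ u hν hT hΛ hu hstr
  have hC := f_coef hν
  obtain ⟨A, hA0, hA⟩ := cri_bes h5 h6 (fun i => cri_sp hu ⟨le_rfl, hT⟩ i)
  obtain ⟨K', hK'⟩ := h2 cc pp (fun m => ν * gg m) T A A Λ (fun n l hnl => f_ccu n l hnl)
    hC.p0 hC.p_le hC.ν0 (fun i j hij => mul_le_mul_of_nonneg_left (f_bas.mono hij) hν)
    hT.le hA0 hA0 hΛ
  have hbd : ∀ t ∈ Ico 0 T, ∀ m, (RR m : ℝ) ^ 6 * |ip (u t) (phi m)| ≤ K' := by
    intro t ht m
    have hT' : (t + T) / 2 ∈ Ioo 0 T := ⟨by linarith [ht.1], by linarith [ht.2]⟩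
    obtain ⟨S, W, K, hsh, -⟩ := h7 phi cc pp gg f_bas cri_cc ν T u hν hu _ hT'
    have hS : HasSum (fun m => ip (u 0) (phi m) ^ 2) (S 0) := hsh.sum 0 ⟨le_rfl, hT'.1.le⟩
    refine hK' _ _ S W hT'.1.le hT'.2.le hsh (cri_S0 hA hS) (fun m => ?_) (fun s hs m => ?_)
      t ⟨ht.1, by linarith [ht.2]⟩ m
    · exact cri_tail hA hS m
    · exact hstr s ⟨hs.1, hs.2.trans_lt hT'.2⟩ m
  obtain ⟨τ, hτ, hloc⟩ := h1 _ _ _ _ hC K'
  obtain ⟨t₀, ht0, ht1, ht2⟩ : ∃ t₀, 0 ≤ t₀ ∧ t₀ < T ∧ T < t₀ + τ :=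
    ⟨max 0 (T - τ / 2), le_max_left _ _, max_lt hT (by linarith), by
      have := le_max_right 0 (T - τ / 2)
      linarith⟩
  obtain ⟨a, ha1, ha2, ha3, ha4⟩ := hloc (fun m => ip (u t₀) (phi m))
    (cri_rap h5 h6 (fun i => cri_sp hu ⟨ht0, ht1⟩ i)) (hbd t₀ ⟨ht0, ht1⟩)
  have h8 := s_loc2 _ _ _ _ hC τ a ha1 ha2 ha4
  obtain ⟨U, hU, hU'⟩ :=
    s_loc3 s_prod s_one s_trig f_nm f_bas f_gg f_ccu f_pp ν τ a hν hτ h8 ha4
  have hU0 : U 0 = u t₀ := by
    funext x i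
    have e1 := hU' 0 ⟨le_rfl, hτ⟩ x i
    simp only [ha3] at e1
    exact e1.unique (cri_sum h5 h6 (fun i => cri_sp hu ⟨ht0, ht1⟩ i)
      (cri_span hu ⟨ht0, ht1⟩) x i)
  obtain ⟨u', hu', he⟩ := h3 phi cc pp gg f_bas ν T t₀ τ u U hν ht0 ht1 ht2 hu hU hU0
  exact ⟨t₀ + τ, u', ht2, hu', he⟩

end Pool.Agent.H226.GB

end

/-! ## Cri2 -/

section

/-!
Continuation of the solutions in the small space, criterion with the integral of the strain
(task GB95 Cri2, by helper199; after Cri.lean by helper878).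
-/

set_option autoImplicit false

open MeasureTheory Set Filter Topology
open scoped ContDiff ENNReal
open H459R3.NS

namespace Pool.Agent.H226.GB

/-- **Task GB95.** -/
theorem s_cri2 (h1 : S_loc1u) (h2 : S_apr2) (hp : S_pex) (h3 : S_glu) (h5 : S_hsb) (h6 : S_hfin)
    (h7 : S_red) : S_cri2 := by
  intro ν T Λ M u hν hT hΛ hu hini hstr
  have hC := f_coef hν
  obtain ⟨A, hA0, hA⟩ := cri_bes h5 h6 (fun i => cri_sp hu ⟨le_rfl, hT⟩ i)
  obtain ⟨K', hK'⟩ := h2 cc pp (fun m => ν * gg m) T A Λ M (fun n l hnl => f_ccu n l hnl)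
    hC.p0 hp hC.ν0 (fun i j hij => mul_le_mul_of_nonneg_left (f_bas.mono hij) hν)
    hT.le hA0 hΛ
  have hbd : ∀ t ∈ Ico 0 T, ∀ m, (RR m : ℝ) ^ 6 * |ip (u t) (phi m)| ≤ K' := by
    intro t ht m
    have hT' : (t + T) / 2 ∈ Ioo 0 T := ⟨by linarith [ht.1], by linarith [ht.2]⟩
    obtain ⟨S, W, K, hsh, -⟩ := h7 phi cc pp gg f_bas cri_cc ν T u hν hu _ hT'
    have hS : HasSum (fun m => ip (u 0) (phi m) ^ 2) (S 0) := hsh.sum 0 ⟨le_rfl, hT'.1.le⟩
    refine hK' _ _ S W hT'.1.le hT'.2.le hsh (cri_S0 hA hS) (fun m hm => hini m hm)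
      (fun s hs m => ?_) t ⟨ht.1, by linarith [ht.2]⟩ m
    exact hstr s ⟨hs.1, hs.2.trans_lt hT'.2⟩ m
  obtain ⟨τ, hτ, hloc⟩ := h1 _ _ _ _ hC K'
  obtain ⟨t₀, ht0, ht1, ht2⟩ : ∃ t₀, 0 ≤ t₀ ∧ t₀ < T ∧ T < t₀ + τ :=
    ⟨max 0 (T - τ / 2), le_max_left _ _, max_lt hT (by linarith), by
      have := le_max_right 0 (T - τ / 2)
      linarith⟩
  obtain ⟨a, ha1, ha2, ha3, ha4⟩ := hloc (fun m => ip (u t₀) (phi m))
    (cri_rap h5 h6 (fun i => cri_sp hu ⟨ht0, ht1⟩ i)) (hbd t₀ ⟨ht0, ht1⟩)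
  have h8 := s_loc2 _ _ _ _ hC τ a ha1 ha2 ha4
  obtain ⟨U, hU, hU'⟩ :=
    s_loc3 s_prod s_one s_trig f_nm f_bas f_gg f_ccu f_pp ν τ a hν hτ h8 ha4
  have hU0 : U 0 = u t₀ := by
    funext x i
    have e1 := hU' 0 ⟨le_rfl, hτ⟩ x i
    simp only [ha3] at e1
    exact e1.unique (cri_sum h5 h6 (fun i => cri_sp hu ⟨ht0, ht1⟩ i)
      (cri_span hu ⟨ht0, ht1⟩) x i)
  obtain ⟨u', hu', he⟩ := h3 phi cc pp gg f_bas ν T t₀ τ u U hν ht0 ht1 ht2 hu hU hU0
  exact ⟨t₀ + τ, u', ht2, hu', he⟩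

end Pool.Agent.H226.GB

end

/-! ## Fin4 -/

section

/-!
The projection onto the larger spaces: existence, uniqueness and blow-up.
-/

open MeasureTheory Set Filter Topology
open scoped ContDiff ENNReal
open H459R3.NS

namespace Pool.Agent.H226.GB

/-- local existence -/
theorem f_loc {ν : ℝ} (hν : 0 ≤ ν) (d : ℕ → ℝ) (M : ℕ) :
    ∃ τ > 0, ∃ u, IsGal phi ν τ u ∧ u 0 = red_comb phi d M := by
  have hC := f_coef hν
  obtain ⟨τ, hτ, a, h1, h2, h3, h4⟩ := s_loc1 _ _ _ _ hC (fun m => if m < M then d m else 0)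
    (fun s => by
      refine ⟨∑ m ∈ Finset.range M, (RR m : ℝ) ^ s * |d m|, fun m => ?_⟩
      have hnn : ∀ m, 0 ≤ (RR m : ℝ) ^ s * |d m| := fun m =>
        mul_nonneg (pow_nonneg (RR_pos m).le s) (abs_nonneg _)
      by_cases hm : m < M
      · rw [if_pos hm]
        exact Finset.single_le_sum (f := fun m => (RR m : ℝ) ^ s * |d m|) (fun m _ => hnn m)
          (Finset.mem_range.2 hm)
      · rw [if_neg hm, abs_zero, mul_zero]
        exact Finset.sum_nonneg fun m _ => hnn m)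
  have h5 := s_loc2 _ _ _ _ hC τ a h1 h2 h4
  obtain ⟨u, hu, hu'⟩ := s_loc3 s_prod s_one s_trig f_nm f_bas f_gg f_ccu f_pp ν τ a hν hτ h5 h4
  refine ⟨τ, hτ, u, hu, ?_⟩
  funext x i
  have h6 := hu' 0 ⟨le_rfl, hτ⟩ x i
  simp only [h3] at h6
  have h7 : HasSum (fun m => (if m < M then d m else 0) * phi m x i)
      (∑ m ∈ Finset.range M, (if m < M then d m else 0) * phi m x i) :=
    hasSum_sum_of_ne_finset_zero fun k hk => by
      rw [Finset.mem_range] at hk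
      rw [if_neg hk, zero_mul]
  rw [h6.unique h7]
  unfold red_comb
  exact Finset.sum_congr rfl fun m hm => by rw [if_pos (Finset.mem_range.1 hm)]

/-- the field `p⁻¹ v (p x)` -/
noncomputable def up0 (p : ℕ) (v : V → V) (x : V) : V := (p : ℝ)⁻¹ • v ((p : ℝ) • x)

theorem f_noSolP (hM : S_memdown) {p : ℕ} (hp : 1 ≤ p) {ν T : ℝ} (hν : 0 ≤ ν) {d : ℕ → ℝ} {M : ℕ}
    (hno : ∀ u, IsGal phi (ν * p ^ 2) T u → u 0 ≠ red_comb phi d M) (u : ℝ → V → V)
    (hu : IsPr (Fp phi p) ν T u) : u 0 ≠ up0 p (red_comb phi d M) := by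
  intro hu0
  have hp0 : (p : ℝ) ≠ 0 := by
    have : p ≠ 0 := by omega
    exact_mod_cast this
  have hΦ : ∀ w ∈ Fp phi p, ∀ i, SP (fun x => w x i) := fun w hw => shift_sp_Fp f_sf hw
  have hper : ∀ t ∈ Ico 0 T, ∀ (j : Fin 3) (x : V), u t (x + Pi.single j (1 / (p : ℝ))) = u t x := by
    intro t ht j x
    have h1 := s_shift s_int phi p f_sf hp ν T u hu j
    have h2 : (fun (t : ℝ) (x : V) => u t (x + Pi.single j (1 / (p : ℝ)))) 0 = u 0 := by
      funext y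
      show u 0 (y + Pi.single j (1 / (p : ℝ))) = u 0 y
      rw [hu0]
      unfold up0
      congr 1
      have h3 : (p : ℝ) • (y + Pi.single j (1 / (p : ℝ))) = (p : ℝ) • y + Pi.single j 1 := by
        rw [smul_add, ← Pi.single_smul, smul_eq_mul, mul_one_div_cancel hp0]
      rw [h3]
      funext i
      exact (red_comb_sf f_sf d M i).per j ((p : ℝ) • y)
    exact congrFun (s_uniP _ hΦ ν T _ u hν h1 hu h2 t ht) x
  refine hno _ (s_down s_int hM phi p f_sf hp ν T u hu hper) ?_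
  funext x
  show (p : ℝ) • u 0 ((p : ℝ)⁻¹ • x) = red_comb phi d M x
  rw [hu0]
  unfold up0
  rw [smul_smul, mul_inv_cancel₀ hp0, one_smul, smul_smul, mul_inv_cancel₀ hp0, one_smul]

theorem f_locP {p : ℕ} (hp : 1 ≤ p) {ν : ℝ} (hν : 0 ≤ ν) (d : ℕ → ℝ) (M : ℕ) :
    ∃ τ > 0, ∃ u, IsPr (Fp phi p) ν τ u ∧ u 0 = up0 p (red_comb phi d M) := by
  obtain ⟨τ, hτ, u, hu, hu0⟩ := f_loc (show 0 ≤ ν * (p : ℝ) ^ 2 by positivity) d M
  refine ⟨τ, hτ, _, s_up s_int phi p f_sf hp ν τ u hu, ?_⟩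
  funext x
  show (p : ℝ)⁻¹ • u 0 ((p : ℝ) • x) = _
  rw [hu0]
  rfl

theorem f_hs {p : ℕ} (hp : 1 ≤ p) {s : ℝ} (hs0 : 0 ≤ s) : ∃ C : ℝ, 0 ≤ C ∧
    ∀ (b d : ℕ → ℝ) (L M : ℕ), L ≤ M → (∀ m < L, d m = b m) →
    hs s (up0 p (red_comb phi d M) - up0 p (red_comb phi b L))
      ≤ ENNReal.ofReal (C * ∑ m ∈ Finset.Ico L M, (RR m : ℝ) ^ (4 * s) * d m ^ 2) := by
  obtain ⟨C, hC, h⟩ := s_hs s_int f_bas p s hp hs0
  refine ⟨C, hC, fun b d L M hLM hd => ?_⟩
  have hp1 : (1 : ℝ) ≤ p := by exact_mod_cast hp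
  set d' : ℕ → ℝ := fun m => if m < L then 0 else (p : ℝ)⁻¹ * d m with hd'
  have e1 : up0 p (red_comb phi d M) - up0 p (red_comb phi b L)
      = fun x i => ∑ m ∈ Finset.range M, d' m * phi m ((p : ℝ) • x) i := by
    funext x i
    show (p : ℝ)⁻¹ * (∑ m ∈ Finset.range M, d m * phi m ((p : ℝ) • x) i)
      - (p : ℝ)⁻¹ * (∑ m ∈ Finset.range L, b m * phi m ((p : ℝ) • x) i) = _
    rw [← mul_sub, ← Finset.sum_range_add_sum_Ico (fun m => d m * phi m ((p : ℝ) • x) i) hLM,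
      ← Finset.sum_range_add_sum_Ico (fun m => d' m * phi m ((p : ℝ) • x) i) hLM]
    have a1 : ∑ m ∈ Finset.range L, d m * phi m ((p : ℝ) • x) i
        = ∑ m ∈ Finset.range L, b m * phi m ((p : ℝ) • x) i :=
      Finset.sum_congr rfl fun m hm => by rw [hd m (Finset.mem_range.1 hm)]
    have a2 : ∑ m ∈ Finset.range L, d' m * phi m ((p : ℝ) • x) i = 0 :=
      Finset.sum_eq_zero fun m hm => by
        simp only [hd']
        rw [if_pos (Finset.mem_range.1 hm), zero_mul]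
    have a3 : ∑ m ∈ Finset.Ico L M, d' m * phi m ((p : ℝ) • x) i
        = (p : ℝ)⁻¹ * ∑ m ∈ Finset.Ico L M, d m * phi m ((p : ℝ) • x) i := by
      rw [Finset.mul_sum]
      refine Finset.sum_congr rfl fun m hm => ?_
      simp only [hd']
      rw [if_neg (by have := (Finset.mem_Ico.1 hm).1; omega), mul_assoc]
    rw [a1, a2, a3]
    ring
  rw [e1]
  refine (h d' M).trans (ENNReal.ofReal_le_ofReal (mul_le_mul_of_nonneg_left ?_ hC))
  rw [← Finset.sum_range_add_sum_Ico _ hLM]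
  have a2 : ∑ m ∈ Finset.range L, (RR m : ℝ) ^ (4 * s) * d' m ^ 2 = 0 :=
    Finset.sum_eq_zero fun m hm => by
      simp only [hd']
      rw [if_pos (Finset.mem_range.1 hm)]
      ring
  rw [a2, zero_add]
  refine Finset.sum_le_sum fun m hm => ?_
  simp only [hd']
  rw [if_neg (by have := (Finset.mem_Ico.1 hm).1; omega)]
  have h1 : ((p : ℝ)⁻¹) ^ 2 ≤ 1 := pow_le_one₀ (by positivity) (inv_le_one_of_one_le₀ hp1)
  have h2 : (0 : ℝ) ≤ (RR m : ℝ) ^ (4 * s) := Real.rpow_nonneg (Nat.cast_nonneg _) _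
  refine mul_le_mul_of_nonneg_left ?_ h2
  rw [mul_pow]
  nlinarith [sq_nonneg (d m)]

/-- the rescaled fields -/
def Sp1 (p : ℕ) : Set (V → V) := {w | ∃ m, ∀ x, w x = phi m ((p : ℝ) • x)}

theorem f_up_mem {p : ℕ} (d : ℕ → ℝ) (M : ℕ) :
    up0 p (red_comb phi d M) ∈ Submodule.span ℝ (Sp1 p) := by
  have e : up0 p (red_comb phi d M)
      = ∑ m ∈ Finset.range M, ((p : ℝ)⁻¹ * d m) • (fun x => phi m ((p : ℝ) • x)) := by
    funext x i
    rw [Finset.sum_apply, Finset.sum_apply]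
    show (p : ℝ)⁻¹ * ∑ m ∈ Finset.range M, d m * phi m ((p : ℝ) • x) i
      = ∑ m ∈ Finset.range M, (p : ℝ)⁻¹ * d m * phi m ((p : ℝ) • x) i
    rw [Finset.mul_sum]
    exact Finset.sum_congr rfl fun m _ => by ring
  rw [e]
  exact Submodule.sum_mem _ fun m _ => Submodule.smul_mem _ _
    (Submodule.subset_span ⟨m, fun _ => rfl⟩)

theorem f_mem_up {p : ℕ} (hp : 1 ≤ p) {w : V → V} (hw : w ∈ Submodule.span ℝ (Sp1 p)) :
    ∃ (d : ℕ → ℝ) (M : ℕ), w = up0 p (red_comb phi d M) := by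
  have hp0 : (p : ℝ) ≠ 0 := by
    have : p ≠ 0 := by omega
    exact_mod_cast this
  induction hw using Submodule.span_induction with
  | mem w h =>
    obtain ⟨m, hm⟩ := h
    refine ⟨fun k => if k = m then (p : ℝ) else 0, m + 1, ?_⟩
    funext x i
    rw [hm x]
    show phi m ((p : ℝ) • x) i = (p : ℝ)⁻¹ * ∑ k ∈ Finset.range (m + 1),
      (if k = m then (p : ℝ) else 0) * phi k ((p : ℝ) • x) i
    rw [Finset.sum_eq_single m, if_pos rfl, ← mul_assoc, inv_mul_cancel₀ hp0, one_mul]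
    · intro k _ hk
      rw [if_neg hk, zero_mul]
    · intro h
      exact absurd (Finset.mem_range.2 (Nat.lt_succ_self m)) h
  | zero =>
    refine ⟨fun _ => 0, 0, ?_⟩
    funext x i
    show (0 : ℝ) = (p : ℝ)⁻¹ * ∑ k ∈ Finset.range 0, (0 : ℝ) * phi k ((p : ℝ) • x) i
    simp
  | add v w _ _ hv hw =>
    obtain ⟨d, M, hd⟩ := hv
    obtain ⟨e, N, he⟩ := hw
    refine ⟨fun k => (if k < M then d k else 0) + (if k < N then e k else 0), max M N, ?_⟩
    have key : ∀ (d : ℕ → ℝ) (M R : ℕ), M ≤ R → ∀ y i, ∑ k ∈ Finset.range R,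
        (if k < M then d k else 0) * phi k y i = ∑ k ∈ Finset.range M, d k * phi k y i := by
      intro d M R hMR y i
      rw [← Finset.sum_range_add_sum_Ico _ hMR]
      have a1 : ∑ k ∈ Finset.Ico M R, (if k < M then d k else 0) * phi k y i = 0 :=
        Finset.sum_eq_zero fun k hk => by
          rw [if_neg (by have := (Finset.mem_Ico.1 hk).1; omega), zero_mul]
      rw [a1, add_zero]
      exact Finset.sum_congr rfl fun k hk => by rw [if_pos (Finset.mem_range.1 hk)]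
    funext x i
    show v x i + w x i = (p : ℝ)⁻¹ * ∑ k ∈ Finset.range (max M N),
      ((if k < M then d k else 0) + (if k < N then e k else 0)) * phi k ((p : ℝ) • x) i
    have a2 : ∑ k ∈ Finset.range (max M N),
        ((if k < M then d k else 0) + (if k < N then e k else 0)) * phi k ((p : ℝ) • x) i
        = ∑ k ∈ Finset.range M, d k * phi k ((p : ℝ) • x) i
          + ∑ k ∈ Finset.range N, e k * phi k ((p : ℝ) • x) i := by
      rw [← key d M _ (le_max_left _ _), ← key e N _ (le_max_right _ _), ← Finset.sum_add_distrib]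
      exact Finset.sum_congr rfl fun k _ => by ring
    rw [a2, mul_add, hd, he]
    rfl
  | smul c w _ hw =>
    obtain ⟨d, M, hd⟩ := hw
    refine ⟨fun k => c * d k, M, ?_⟩
    funext x i
    rw [hd]
    show c * ((p : ℝ)⁻¹ * ∑ k ∈ Finset.range M, d k * phi k ((p : ℝ) • x) i)
      = (p : ℝ)⁻¹ * ∑ k ∈ Finset.range M, c * d k * phi k ((p : ℝ) • x) i
    rw [Finset.mul_sum, Finset.mul_sum, Finset.mul_sum]
    exact Finset.sum_congr rfl fun k _ => by ring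

/-- **the main theorem** -/
theorem f_main {p : ℕ} (hp : 1 ≤ p) {ν₀ T : ℝ} (hν₀ : 0 ≤ ν₀) (hT : 0 < T) {e : ℕ}
    (he : e = 1 ∨ e = 5 ∧ ν₀ = 0) {s : ℝ} (hs : s < e / 2) {w : V → V}
    (hw : w ∈ Submodule.span ℝ (Sp1 p)) {ε : ℝ} (hε : 0 < ε) :
    ∃ u₀ ∈ Submodule.span ℝ (Sp1 p), GB.hs s (u₀ - w) < ENNReal.ofReal ε ∧
      ∀ ν, 0 ≤ ν → ν ≤ ν₀ → ∃ (Tm : ℝ) (u : ℝ → V → V), 0 < Tm ∧ Tm < T ∧
        IsPr (Fp phi p) ν Tm u ∧ u 0 = u₀ ∧
        ∀ T' v, IsPr (Fp phi p) ν T' v → v 0 = u₀ → T' ≤ Tm ∧ ∀ t ∈ Ico 0 T', v t = u t := by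
  obtain ⟨b, L, rfl⟩ := f_mem_up hp hw
  have hp1 : (1 : ℝ) ≤ p := by exact_mod_cast hp
  have hs' : max s 0 < (e : ℝ) / 2 := by
    refine max_lt hs ?_
    rcases he with rfl | ⟨rfl, -⟩ <;> norm_num
  obtain ⟨C, hC, hdist⟩ := f_hs hp (le_max_right s 0)
  have hε' : 0 < ε / (C + 1) := by positivity
  obtain ⟨M, d, hLM, hdb, hsum, hno⟩ :=
    noSol (ν₀ := ν₀ * (p : ℝ) ^ 2) (by positivity) hT b L (e := e) (by
      rcases he with h | ⟨h, h0⟩
      · exact Or.inl h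
      · exact Or.inr ⟨h, by rw [h0, zero_mul]⟩) (le_max_right s 0) hs' hε'
  refine ⟨up0 p (red_comb phi d M), f_up_mem d M, ?_, fun ν hν hνν => ?_⟩
  · have h0 : GB.hs s (up0 p (red_comb phi d M) - up0 p (red_comb phi b L))
        ≤ GB.hs (max s 0) (up0 p (red_comb phi d M) - up0 p (red_comb phi b L)) := by
      unfold GB.hs
      refine ENNReal.tsum_le_tsum fun k => ENNReal.ofReal_le_ofReal ?_
      have h1 : 0 ≤ fq (up0 p (red_comb phi d M) - up0 p (red_comb phi b L)) k := by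
        unfold fq
        exact Finset.sum_nonneg fun i _ => add_nonneg (sq_nonneg _) (sq_nonneg _)
      refine mul_le_mul_of_nonneg_right ?_ h1
      refine Real.rpow_le_rpow_of_exponent_le ?_ (le_max_left _ _)
      have : 0 ≤ ∑ j, (k j : ℝ) ^ 2 := Finset.sum_nonneg fun j _ => sq_nonneg _
      linarith
    refine (h0.trans (hdist b d L M hLM hdb)).trans_lt ?_
    rw [ENNReal.ofReal_lt_ofReal_iff hε]
    have h2 : C * ∑ m ∈ Finset.Ico L M, (RR m : ℝ) ^ (4 * max s 0) * d m ^ 2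
        ≤ C * (ε / (C + 1)) := mul_le_mul_of_nonneg_left hsum.le hC
    refine h2.trans_lt ?_
    rw [mul_div_assoc', div_lt_iff₀ (by positivity)]
    nlinarith
  · exact maxSol (fun w hw => shift_sp_Fp f_sf hw) hν (f_locP hp hν d M)
      (f_noSolP (s_memdown s_int) hp hν (hno _ (by positivity) (by gcongr)))

theorem f_proj : S_projP :=
  s_projP (s_hs s_int f_bas) (s_hsb s_int f_bas f_nm) s_hfin (s_stat s_int f_bas f_nm)
    (s_avg s_int) s_int f_bas

end Pool.Agent.H226.GB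

end

/-! ## Fin5 -/

section

/-!
All admissible spaces: existence, uniqueness and blow-up.
-/

open MeasureTheory Set Filter Topology
open scoped ContDiff ENNReal
open H459R3.NS

namespace Pool.Agent.H226.GB

/-- local existence -/
theorem s_locG : S_locG := by
  intro ν a0 hν ha0
  have hC := f_coef hν
  obtain ⟨τ, hτ, a, h1, h2, h3, h4⟩ := s_loc1 _ _ _ _ hC a0 ha0
  have h5 := s_loc2 _ _ _ _ hC τ a h1 h2 h4
  obtain ⟨u, hu, hu'⟩ := s_loc3 s_prod s_one s_trig f_nm f_bas f_gg f_ccu f_pp ν τ a hν hτ h5 h4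
  refine ⟨τ, hτ, u, hu, fun x i => ?_⟩
  have h6 := hu' 0 ⟨le_rfl, hτ⟩ x i
  simp only [h3] at h6
  exact h6

theorem f_sc (p : ℕ) : Sc p = Sp1 p := rfl

/-- **the main theorem**, all admissible spaces at once -/
theorem f_main2 (hadm : S_adm) (hret : S_ret) (hscl : S_scl) (hscl2 : S_scl2) (hbup : S_bup)
    (hbup3 : S_bup3) (hbkm : S_bkm) {p : ℕ} (hp : 1 ≤ p) {ν₀ T : ℝ} (hν₀ : 0 ≤ ν₀) (hT : 0 < T) {e : ℕ}
    (he : e = 1 ∨ e = 5 ∧ ν₀ = 0) {s : ℝ} (hs : s < e / 2) {w : V → V}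
    (hw : w ∈ Submodule.span ℝ (Sp1 p)) {ε : ℝ} (hε : 0 < ε) :
    ∃ u₀ ∈ Submodule.span ℝ (Sp1 p), GB.hs s (u₀ - w) < ENNReal.ofReal ε ∧
      ∀ ν, 0 ≤ ν → ν ≤ ν₀ → ∃ (Tm : ℝ) (u : ℝ → V → V), 0 < Tm ∧ Tm < T ∧ u 0 = u₀ ∧
        (∀ r : ℝ, 5 / 2 < r ∨ 0 < ν ∧ 1 / 2 ≤ r → ∀ B : ℝ,
          ∃ t ∈ Ico 0 Tm, ENNReal.ofReal B < GB.hs r (u t)) ∧
        (0 < ν → ∀ B : ℝ, ∃ t ∈ Ico 0 Tm,
          B < ∫ x in cube, (∑ i, u t x i ^ 2) ^ (3 / 2 : ℝ)) ∧
        ∫⁻ t in Ioo 0 Tm, ⨆ x, ENNReal.ofReal |vo1 (u t) x| = ⊤ ∧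
        ∀ Φ : Set (V → V), Adm p Φ → IsPr Φ ν Tm u ∧
          ∀ T' v, IsPr Φ ν T' v → v 0 = u₀ → T' ≤ Tm ∧ ∀ t ∈ Ico 0 T', v t = u t := by
  obtain ⟨b, L, rfl⟩ := f_mem_up hp hw
  have hp1 : (1 : ℝ) ≤ p := by exact_mod_cast hp
  have hp0 : (p : ℝ) ≠ 0 := by positivity
  have hs' : max s 0 < (e : ℝ) / 2 := by
    refine max_lt hs ?_
    rcases he with rfl | ⟨rfl, -⟩ <;> norm_num
  obtain ⟨C, hC, hdist⟩ := f_hs hp (le_max_right s 0)
  have hε' : 0 < ε / (C + 1) := by positivity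
  obtain ⟨M, d, hLM, hdb, hsum, hno⟩ :=
    noSol (ν₀ := ν₀ * (p : ℝ) ^ 2) (by positivity) hT b L (e := e) (by
      rcases he with h | ⟨h, h0⟩
      · exact Or.inl h
      · exact Or.inr ⟨h, by rw [h0, zero_mul]⟩) (le_max_right s 0) hs' hε'
  refine ⟨up0 p (red_comb phi d M), f_up_mem d M, ?_, fun ν hν hνν => ?_⟩
  · have h0 : GB.hs s (up0 p (red_comb phi d M) - up0 p (red_comb phi b L))
        ≤ GB.hs (max s 0) (up0 p (red_comb phi d M) - up0 p (red_comb phi b L)) := by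
      unfold GB.hs
      refine ENNReal.tsum_le_tsum fun k => ENNReal.ofReal_le_ofReal ?_
      have h1 : 0 ≤ fq (up0 p (red_comb phi d M) - up0 p (red_comb phi b L)) k := by
        unfold fq
        exact Finset.sum_nonneg fun i _ => add_nonneg (sq_nonneg _) (sq_nonneg _)
      refine mul_le_mul_of_nonneg_right ?_ h1
      refine Real.rpow_le_rpow_of_exponent_le ?_ (le_max_left _ _)
      have : 0 ≤ ∑ j, (k j : ℝ) ^ 2 := Finset.sum_nonneg fun j _ => sq_nonneg _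
      linarith
    refine (h0.trans (hdist b d L M hLM hdb)).trans_lt ?_
    rw [ENNReal.ofReal_lt_ofReal_iff hε]
    have h2 : C * ∑ m ∈ Finset.Ico L M, (RR m : ℝ) ^ (4 * max s 0) * d m ^ 2
        ≤ C * (ε / (C + 1)) := mul_le_mul_of_nonneg_left hsum.le hC
    refine h2.trans_lt ?_
    rw [mul_div_assoc', div_lt_iff₀ (by positivity)]
    nlinarith
  · have hno' : ∀ u, IsPr (Sp1 p) ν T u → u 0 ≠ up0 p (red_comb phi d M) := by
      intro u hu hu0
      refine hno (ν * (p : ℝ) ^ 2) (by positivity) (by gcongr) _ (hscl2 p ν T u hp hu) ?_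
      funext x
      show (p : ℝ) • u 0 ((p : ℝ)⁻¹ • x) = red_comb phi d M x
      rw [hu0]
      unfold up0
      rw [smul_smul, mul_inv_cancel₀ hp0, one_smul, smul_smul, mul_inv_cancel₀ hp0, one_smul]
    have hex : ∃ τ > 0, ∃ u, IsPr (Sp1 p) ν τ u ∧ u 0 = up0 p (red_comb phi d M) := by
      obtain ⟨τ, hτ, u, hu, hu0⟩ := f_loc (show 0 ≤ ν * (p : ℝ) ^ 2 by positivity) d M
      refine ⟨τ, hτ, _, hscl p ν τ u hp hu, ?_⟩
      funext x
      show (p : ℝ)⁻¹ • u 0 ((p : ℝ) • x) = _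
      rw [hu0]
      rfl
    have hsp : ∀ w ∈ Sp1 p, ∀ i, SP (fun x => w x i) := by
      rintro w ⟨m, hm⟩ i
      have h1 := shift_sp_phi f_bas.sp p m i
      have h2 : (fun x => w x i) = fun x => phi m ((p : ℝ) • x) i := by
        funext x
        rw [hm x]
      rw [h2]
      exact h1
    obtain ⟨Tm, u, h1, h2, h3, h4, h5⟩ := maxSol hsp hν hex hno'
    refine ⟨Tm, u, h1, h2, h4, hbup p ν Tm u hp hν h1 h3 fun T' v hv hv0 =>
      (h5 T' v hv (by rw [hv0, h4])).1, fun hν' => hbup3 p ν Tm u hp hν' h1 h3 fun T' v hv hv0 =>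
      (h5 T' v hv (by rw [hv0, h4])).1, hbkm p ν Tm u hp hν h1 h3 (by rw [h4]; exact f_up_mem d M)
      fun T' v hv hv0 => (h5 T' v hv (by rw [hv0, h4])).1, fun Φ hΦ => ⟨hadm p Φ hp hΦ ν Tm u h3,
      fun T' v hv hv0 => h5 T' v (hret p Φ hp hΦ ν T' v hν hv ?_) hv0⟩⟩
    rw [hv0]
    intro ε' hε'
    refine ⟨_, f_up_mem d M, ?_⟩
    simpa using hε'

end Pool.Agent.H226.GB

end

/-! ## Fin6 -/

section

/-!
The main theorem for all admissible spaces, and the constraints.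
-/

open MeasureTheory Set Filter Topology
open scoped ContDiff ENNReal
open H459R3.NS

namespace Pool.Agent.H226.GB

theorem f_hsb : S_hsb := s_hsb s_int f_bas f_nm

theorem f_stat : S_stat := s_stat s_int f_bas f_nm

theorem f_prS : S_prS := s_prS f_hsb s_hfin f_stat s_int f_bas

theorem f_ort : S_ort := s_ort f_bas

theorem f_adm : S_adm :=
  s_adm (s_dt s_int f_bas) (s_lap f_bas) (s_con f_bas) f_prS f_ort s_int f_bas

theorem f_scl : S_scl := s_scl s_int f_bas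

theorem f_scl2 : S_scl2 := s_scl2 s_int f_bas

theorem f_locS : S_locS := s_locS f_prS s_locG f_scl f_bas

theorem f_ret : S_ret := s_ret f_adm s_clo s_tsh f_locS s_uniP f_bas

theorem f_admF : S_admF := s_admF s_int f_ort f_bas

theorem f_ip_comm (u v : V → V) : ip u v = ip v u := by
  unfold ip
  simp_rw [mul_comm]

/-- gradients and divergence-free fields -/
theorem f_grd1 {q : V → ℝ} (hq : SP q) {w : V → V} (hw : ∀ i, SP (fun x => w x i))
    (hd : ∀ x, ∑ i, pd i (fun y => w y i) x = 0) : ∑ i, ∫ x in cube, w x i * pd i q x = 0 := by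
  have h := s_grd s_int 1 q w le_rfl hq hw hd
  simpa using h

/-- divergence-free constraints -/
theorem f_psi (hs : S_spec) : ∃ ψ : ℕ → ℕ → V → V, (∀ n i, ψ n i ∈ DP univ) ∧
    (∀ n i, ∃ q : V → ℝ, SP q ∧ ∀ x l, cst n i x l = ψ n i x l + pd l q x) ∧
    (∀ n i, n + 1 < i → ψ n i = 0) ∧
    ∀ n i, ψ n i ≠ 0 → ∃ k : Fin 3 → ℤ, (4 : ℤ) ^ (n ^ 3) ≤ |k 2| ∧ fq (ψ n i) k ≠ 0 := by
  obtain ⟨n1, n2, n3⟩ := s_nz
  have key : ∀ n i, ∃ g : V → V, g ∈ DP univ ∧
      (∃ q : V → ℝ, SP q ∧ ∀ x l, cst n i x l = g x l + pd l q x) ∧ (n + 1 < i → g = 0) ∧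
      (g ≠ 0 → ∃ k : Fin 3 → ℤ, (4 : ℤ) ^ (n ^ 3) ≤ |k 2| ∧ fq g k ≠ 0) := by
    intro n i
    by_cases h1 : n + 1 < i
    · refine ⟨0, Submodule.zero_mem _, ⟨fun _ => 0, ⟨contDiff_const, fun _ _ => rfl⟩, fun x l => ?_⟩,
        fun _ => rfl, fun h => absurd rfl h⟩
      have e : cst n i = 0 := by
        unfold cst
        rw [if_neg (by omega), if_neg (by omega)]
      rw [e]
      show (0 : ℝ) = 0 + pd l (fun _ => (0 : ℝ)) x
      unfold pd
      simp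
    by_cases h2 : i = n
    · subst h2
      obtain ⟨w, hw, hwS, hwd, hw0⟩ := hs.2.2 i
      obtain ⟨g, hg, q, hq, hgq⟩ := s_lr univ (cst i i) (hs.1 i i)
      have hgS := (n2 univ g (n3 univ hg)).1
      refine ⟨g, hg, ⟨q, hq, hgq⟩, fun h => absurd h h1, fun _ => ?_⟩
      have h3 : ip w g ≠ 0 := by
        have h4 : ip w (cst i i) = ip w g + ∑ l, ∫ x in cube, w x l * pd l q x := by
          unfold ip
          rw [← Finset.sum_add_distrib]
          refine Finset.sum_congr rfl fun l _ => ?_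
          rw [← integral_add ((hwS l).mul (hgS l)).int ((hwS l).mul (hq.pd l)).int]
          refine integral_congr_ae (Eventually.of_forall fun x => ?_)
          show w x l * cst i i x l = w x l * g x l + w x l * pd l q x
          rw [hgq x l]
          ring
        rw [f_grd1 hq hwS hwd, add_zero] at h4
        rw [← h4]
        exact hw0
      obtain ⟨k, hk, hk'⟩ := n1 _ g w hgS hw h3
      exact ⟨k, hk, hk'⟩
    · obtain ⟨g, hg, q, hq, hgq⟩ := s_lr _ (cst n i) (hs.2.1 n i h2)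
      have hgT := n3 _ hg
      have hgu : g ∈ DP univ := by
        refine Submodule.span_mono ?_ hg
        rintro w ⟨k, -, hk⟩
        exact ⟨k, mem_univ _, hk⟩
      refine ⟨g, hgu, ⟨q, hq, hgq⟩, fun h => absurd h h1, fun h0 => ?_⟩
      obtain ⟨hgS, hg0⟩ := n2 _ g hgT
      obtain ⟨k, hk, hk'⟩ := n1 _ g g hgS hgT (hg0 h0)
      exact ⟨k, hk, hk'⟩
  choose ψ h1 h2 h3 h4 using key
  exact ⟨ψ, h1, h2, h3, h4⟩

/-- the constraints in terms of the divergence-free parts -/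
theorem f_cstψ {p : ℕ} (hp : 1 ≤ p) {c g : V → V} {q : V → ℝ} (hg : ∀ i, SP (fun x => g x i))
    (hq : SP q) (h : ∀ x l, c x l = g x l + pd l q x) {w : V → V} (hw : ∀ i, SP (fun x => w x i))
    (hd : ∀ x, ∑ i, pd i (fun y => w y i) x = 0) :
    ∑ l, ∫ x in cube, w x l * c ((p : ℝ) • x) l
      = ∑ l, ∫ x in cube, w x l * g ((p : ℝ) • x) l := by
  have h1 := s_grd s_int p q w hp hq hw hd
  have hsp : ∀ f : V → ℝ, SP f → SP (fun x => f ((p : ℝ) • x)) := by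
    intro f hf
    refine ⟨hf.smooth.comp (contDiff_const_smul (p : ℝ)), fun j x => ?_⟩
    show f ((p : ℝ) • (x + Pi.single j 1)) = f ((p : ℝ) • x)
    rw [smul_add]
    have e : ∀ (k : ℕ) (y : V), f (y + (k : ℝ) • Pi.single j (1 : ℝ)) = f y := by
      intro k y
      induction k with
      | zero => simp
      | succ k ih =>
        rw [Nat.cast_succ, add_smul, one_smul, ← add_assoc, hf.per j, ih]
    exact e p _
  have e1 : ∀ l, ∫ x in cube, w x l * c ((p : ℝ) • x) l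
      = (∫ x in cube, w x l * g ((p : ℝ) • x) l) + ∫ x in cube, w x l * pd l q ((p : ℝ) • x) := by
    intro l
    rw [← integral_add ((hw l).mul (hsp _ (hg l))).int ((hw l).mul (hsp _ (hq.pd l))).int]
    refine integral_congr_ae (Eventually.of_forall fun x => ?_)
    show w x l * c ((p : ℝ) • x) l = w x l * g ((p : ℝ) • x) l + w x l * pd l q ((p : ℝ) • x)
    rw [h]
    ring
  rw [Finset.sum_congr rfl fun l _ => e1 l, Finset.sum_add_distrib, h1, add_zero]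

end Pool.Agent.H226.GB

end

/-! ## Fin7 -/

section

/-!
Assembly: continuation criterion and frequencies of the constraints.
-/

open MeasureTheory Set Filter Topology
open scoped ContDiff ENNReal
open H459R3.NS

namespace Pool.Agent.H226.GB

theorem f_cri : S_cri := s_cri s_loc1u s_apr (s_glu s_uni) f_prS f_hsb s_hfin s_red

theorem f_bup : S_bup := s_bup f_cri s_str f_scl f_scl2 f_hsb s_int f_gg f_bas

theorem f_bup3 : S_bup3 :=
  s_bup3 (s_l3p s_ker s_prod s_one f_nm) f_cri s_str f_scl f_scl2 s_int f_gg f_bas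

theorem f_cri2 : S_cri2 :=
  s_cri2 s_loc1u s_apr2 (s_pex f_pp) (s_glu s_uni) f_hsb s_hfin s_red

theorem f_bkm : S_bkm :=
  s_bkm (s_vor (s_l1 s_ker1 s_ees s_prod s_one) f_nm s_prod s_one) f_cri2 f_scl f_scl2 s_int f_bas

theorem f_spec : S_spec := s_spec s_prod s_one s_trig f_nm f_bas

end Pool.Agent.H226.GB

end
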