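import Pool.Agent.H226.GM.Spc12
import Pool.Agent.H226.GM.Blow

/-! ## Nos2 -/

section

/-!
Data for which the cascade is complete before the maximal time.
-/

open MeasureTheory Set Filter Topology
open scoped ContDiff
open H459R3.NS

namespace Pool.Agent.H226.GB

/-- a bound of the coefficients from the bound of the Dirichlet integral -/
theorem nos2_bd {Q : ℝ} {m : ℕ} {y : ℝ} (h1 : gg m * y ^ 2 ≤ Q) : (RR m : ℝ) * |y| ≤ Q + 1 := by
  have h2 := (f_gg m).1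
  have h3 := one_le_RR m
  obtain ⟨x, hx⟩ : ∃ x, x = |y| := ⟨_, rfl⟩
  have hx0 : 0 ≤ x := by rw [hx]; exact abs_nonneg _
  have h4 : y ^ 2 = x ^ 2 := by rw [hx, sq_abs]
  rw [h4] at h1
  rw [← hx]
  obtain ⟨r, hr⟩ : ∃ r, r = (RR m : ℝ) := ⟨_, rfl⟩
  rw [← hr] at h2 h3 ⊢
  have h5 : r ^ 2 ≤ r ^ 4 := pow_le_pow_right₀ h3 (by norm_num)
  have h6 : r ^ 2 * x ^ 2 ≤ Q :=
    le_trans (mul_le_mul_of_nonneg_right (h5.trans h2) (sq_nonneg x)) h1
  have h7 : (r * x) ^ 2 ≤ Q := by rw [mul_pow]; exact h6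
  have h8 : 0 ≤ r * x := mul_nonneg (zero_le_one.trans h3) hx0
  generalize r * x = w at h7 h8 ⊢
  have h9 : 0 ≤ w ^ 2 - 2 * w + 1 := (sq_nonneg (w - 1)).trans_eq (by ring)
  linarith only [h7, h8, h9]

theorem nos2_ccb : ∀ n, ∃ C, ∀ l, |cc n l| ≤ C := by
  intro n
  refine ⟨2 ^ 10 * (RR n : ℝ) ^ 5 + ∑ l ∈ Finset.range (n + 1), |cc n l|, fun l => ?_⟩
  have h1 : 0 ≤ ∑ l ∈ Finset.range (n + 1), |cc n l| := Finset.sum_nonneg fun _ _ => abs_nonneg _
  have h2 : (0 : ℝ) ≤ 2 ^ 10 * (RR n : ℝ) ^ 5 :=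
    mul_nonneg (by norm_num) (pow_nonneg (RR_pos n).le 5)
  by_cases hl : n < l
  · have := f_ccu n l hl
    linarith
  · have := Finset.single_le_sum (f := fun l => |cc n l|) (fun l _ => abs_nonneg _)
      (Finset.mem_range.2 (show l < n + 1 by omega))
    linarith

theorem s_nos2 (hb2 : S_bl2) (hcan : S_can) (hcri : S_cri2) : S_nos2 := by
  intro ν₀ T b L e s ε hν₀ hT he hs0 hs hε
  obtain ⟨q, hq, δ, hδ, hexp⟩ := f_expo hs
  -- the size of the data
  set B : ℝ := 1 + ∑ m ∈ Finset.range L, |b m| with hB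
  have hsn : 0 ≤ ∑ m ∈ Finset.range L, |b m| := Finset.sum_nonneg fun m _ => abs_nonneg _
  have hB1 : 1 ≤ B := by linarith
  have hbB : ∑ m ∈ Finset.range L, b m ^ 2 + 1 ≤ B ^ 2 := by
    have h1 : ∑ m ∈ Finset.range L, b m ^ 2 ≤ (∑ m ∈ Finset.range L, |b m|) ^ 2 := by
      rw [sq (∑ m ∈ Finset.range L, |b m|), Finset.sum_mul]
      refine Finset.sum_le_sum fun m hm => ?_
      rw [← sq_abs, sq]
      exact mul_le_mul_of_nonneg_left (Finset.single_le_sum (f := fun m => |b m|)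
        (fun m _ => abs_nonneg _) hm) (abs_nonneg _)
    have h2 : B ^ 2 = 1 + 2 * (∑ m ∈ Finset.range L, |b m|)
        + (∑ m ∈ Finset.range L, |b m|) ^ 2 := by rw [hB]; ring
    rw [h2]
    linarith only [h1, hsn]
  have hT2 : 0 < T / 2 := by linarith
  have hK : 0 ≤ ν₀ * 2 ^ 14 := mul_nonneg hν₀ (pow_nonneg zero_le_two 14)
  obtain ⟨m1, hLm1, hm1, hblow⟩ := blow2 s_plan s_grow s_low s_num hK hT2
    (show 0 ≤ B by linarith) (L := L + 1) (q := q) (by omega) hq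
  obtain ⟨m2, hLm2, hm2, hblow2⟩ := hb2 (ν₀ * 2 ^ 14) T B (L + 1) q hK hT
    (show 0 ≤ B by linarith) (by omega) hq
  -- the level
  obtain ⟨N, hN⟩ : ∃ N : ℕ, 2 * (2 : ℝ) ^ (-(δ * N)) < ε := by
    have h1 : Tendsto (fun N : ℕ => 2 * (2 : ℝ) ^ (-(δ * N))) atTop (𝓝 (2 * 0)) := by
      refine Tendsto.const_mul 2 ?_
      have h2 : Tendsto (fun N : ℕ => -(δ * (N : ℝ))) atTop atBot :=
        tendsto_neg_atTop_atBot.comp (tendsto_natCast_atTop_atTop.const_mul_atTop hδ)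
      exact (tendsto_rpow_atBot_of_base_gt_one 2 (by norm_num)).comp h2
    rw [mul_zero] at h1
    exact (h1.eventually_lt_const hε).exists
  set m0 := max (max m1 m2) (max N L) with hm0
  have hm01 : m1 ≤ m0 := (le_max_left _ _).trans (le_max_left _ _)
  have hm02 : m2 ≤ m0 := (le_max_right _ _).trans (le_max_left _ _)
  have hm0N : N ≤ m0 := (le_max_left _ _).trans (le_max_right _ _)
  have hm0L : L ≤ m0 := (le_max_right _ _).trans (le_max_right _ _)
  obtain ⟨x, hx⟩ : ∃ x, x = (m0 + 2) ^ 3 := ⟨_, rfl⟩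
  have hxN : N ≤ x := by
    rw [hx]
    have : m0 + 2 ≤ (m0 + 2) ^ 3 := Nat.le_self_pow (by norm_num) _
    omega
  obtain ⟨A, hA⟩ : ∃ A : ℝ, A = 2 ^ (e * x - x / q) := ⟨_, rfl⟩
  have hA1 : 1 ≤ A := by rw [hA]; exact one_le_pow₀ (by norm_num)
  have hA0 : 0 < A := by linarith
  have ha0 := al_pos m0
  have ha1 := al_le m0
  have hr0 := rr_pos m0
  have hr1 := rr_le m0
  have hd0 : dat b L A m0 m0 = al m0 / A := by
    unfold dat
    rw [if_neg (by omega), if_pos rfl]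
  have hd1 : dat b L A m0 (m0 + 1) = rr m0 / A := by
    unfold dat
    rw [if_neg (by omega), if_neg (by omega), if_pos rfl]
  have hdz : ∀ m, L ≤ m → m ≠ m0 → m ≠ m0 + 1 → dat b L A m0 m = 0 := by
    intro m h1 h2 h3
    unfold dat
    rw [if_neg (by omega), if_neg h2, if_neg h3]
  have hsumw : ∀ w : ℕ → ℝ, ∑ m ∈ Finset.Ico L (m0 + 2), w m * dat b L A m0 m ^ 2
      = w m0 * (al m0 / A) ^ 2 + w (m0 + 1) * (rr m0 / A) ^ 2 := by
    intro w
    have h1 : ∀ m ∈ Finset.Ico L m0, w m * dat b L A m0 m ^ 2 = 0 := by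
      intro m hm
      have h2 := Finset.mem_Ico.1 hm
      rw [hdz m (by omega) (by omega) (by omega)]
      ring
    rw [Finset.sum_Ico_succ_top (by omega), Finset.sum_Ico_succ_top (by omega),
      Finset.sum_eq_zero h1, hd0, hd1]
    ring
  have h2p : (0 : ℝ) < 2 := by norm_num
  have hRx : (RR m0 : ℝ) = (2 : ℝ) ^ (x : ℝ) := by
    rw [ParP_RR, hx, Real.rpow_natCast]
  have hAx : A = (2 : ℝ) ^ ((e * x - x / q : ℕ) : ℝ) := by rw [hA, Real.rpow_natCast]
  have hmain : (RR m0 : ℝ) ^ (4 * s) / A ^ 2 ≤ (2 : ℝ) ^ (-(δ * N)) := by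
    have e1 : (RR m0 : ℝ) ^ (4 * s) / A ^ 2
        = (2 : ℝ) ^ (4 * s * x - 2 * ((e * x - x / q : ℕ) : ℝ)) := by
      rw [hRx, hAx, ← Real.rpow_mul h2p.le, ← Real.rpow_natCast, ← Real.rpow_mul h2p.le,
        ← Real.rpow_sub h2p]
      congr 1
      push_cast
      ring
    rw [e1]
    refine Real.rpow_le_rpow_of_exponent_le (by norm_num) ((hexp x).trans ?_)
    have : (N : ℝ) ≤ x := Nat.cast_le.2 hxN
    exact neg_le_neg (mul_le_mul_of_nonneg_left this hδ.le)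
  have he5 : (e : ℝ) ≤ 5 := by
    rcases he with rfl | ⟨rfl, -⟩ <;> norm_num
  have hR1 : (1 : ℝ) ≤ RR m0 := one_le_RR m0
  have hsecond : (RR (m0 + 1) : ℝ) ^ (4 * s) * rr m0 ^ 2 ≤ 1 := by
    have h1 := one_le_RR (m0 + 1)
    have h2 : (RR (m0 + 1) : ℝ) ^ (4 * s) ≤ (RR (m0 + 1) : ℝ) ^ (10 : ℝ) :=
      Real.rpow_le_rpow_of_exponent_le h1 (by linarith)
    have h3 : (RR (m0 + 1) : ℝ) ^ (10 : ℝ) = (RR (m0 + 1) : ℝ) ^ 10 := by
      rw [← Real.rpow_natCast]; norm_num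
    have h4 : rr m0 ≤ 1 / (RR (m0 + 1) : ℝ) ^ 5 := by
      unfold rr Gm
      have h5 : (0 : ℝ) < (RR (m0 + 1) : ℝ) ^ 5 := pow_pos (RR_pos _) 5
      refine one_div_le_one_div_of_le h5 ?_
      linarith only [h5]
    calc (RR (m0 + 1) : ℝ) ^ (4 * s) * rr m0 ^ 2
        ≤ (RR (m0 + 1) : ℝ) ^ 10 * (1 / (RR (m0 + 1) : ℝ) ^ 5) ^ 2 :=
          mul_le_mul (h2.trans_eq h3) (pow_le_pow_left₀ hr0.le h4 2) (sq_nonneg _)
            (pow_nonneg (RR_pos _).le 10)
      _ = 1 := by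
          have h5 : (RR (m0 + 1) : ℝ) ^ 5 ≠ 0 := (pow_pos (RR_pos _) 5).ne'
          rw [div_pow, one_pow, ← pow_mul]
          field_simp
  have ha : ∀ u : ℝ → V → V, u 0 = red_comb phi (dat b L A m0) (m0 + 2) → ∀ m,
      ip (u 0) (phi m) = if m < m0 + 2 then dat b L A m0 m else 0 := fun u hu0 m => by
    rw [hu0]; exact f_ip_comb _ _ m
  have hS0 : ∀ u : ℝ → V → V, u 0 = red_comb phi (dat b L A m0) (m0 + 2) →
      HasSum (fun m => ip (u 0) (phi m) ^ 2)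
        (∑ m ∈ Finset.range (m0 + 2), dat b L A m0 m ^ 2) := by
    intro u hu0
    simp only [ha u hu0]
    have h2 : (fun m => (if m < m0 + 2 then dat b L A m0 m else 0) ^ 2)
        = fun m => if m < m0 + 2 then dat b L A m0 m ^ 2 else 0 := by
      funext m
      split_ifs
      · rfl
      · norm_num
    rw [h2]
    have h3 : HasSum (fun m => if m < m0 + 2 then dat b L A m0 m ^ 2 else 0)
        (∑ m ∈ Finset.range (m0 + 2), if m < m0 + 2 then dat b L A m0 m ^ 2 else 0) :=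
      hasSum_sum_of_ne_finset_zero fun k hk => by
        rw [Finset.mem_range] at hk; exact if_neg hk
    have h4 : (∑ m ∈ Finset.range (m0 + 2), if m < m0 + 2 then dat b L A m0 m ^ 2 else 0)
        = ∑ m ∈ Finset.range (m0 + 2), dat b L A m0 m ^ 2 :=
      Finset.sum_congr rfl fun m hm => if_pos (Finset.mem_range.1 hm)
    rw [h4] at h3
    exact h3
  have hS2 : ∑ m ∈ Finset.range (m0 + 2), dat b L A m0 m ^ 2 ≤ B ^ 2 := by
    have h0 := hsumw fun _ => 1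
    simp only [one_mul] at h0
    rw [← Finset.sum_range_add_sum_Ico _ (show L ≤ m0 + 2 by omega), h0]
    have h1 : ∑ m ∈ Finset.range L, dat b L A m0 m ^ 2 = ∑ m ∈ Finset.range L, b m ^ 2 :=
      Finset.sum_congr rfl fun m hm => by
        unfold dat
        rw [if_pos (Finset.mem_range.1 hm)]
    rw [h1]
    have h2 : (al m0 / A) ^ 2 ≤ 1 / 4 := by
      have e1 : al m0 ≤ 1 / 2 := by
        unfold al
        calc (1 / 2 ^ 29 : ℝ) ^ m0 ≤ (1 / 2 ^ 29) ^ 1 :=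
              pow_le_pow_of_le_one (by norm_num) (by norm_num) (by omega)
          _ ≤ 1 / 2 := by norm_num
      have e2 : al m0 / A ≤ 1 / 2 := (div_le_self ha0.le hA1).trans e1
      have e3 : 0 ≤ al m0 / A := div_nonneg ha0.le hA0.le
      exact (pow_le_pow_left₀ e3 e2 2).trans_eq (by norm_num)
    have h3 : (rr m0 / A) ^ 2 ≤ 1 / 4 := by
      have e2 : rr m0 / A ≤ 1 / 2 := (div_le_self hr0.le hA1).trans hr1
      have e3 : 0 ≤ rr m0 / A := div_nonneg hr0.le hA0.le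
      exact (pow_le_pow_left₀ e3 e2 2).trans_eq (by norm_num)
    linarith only [h2, h3, hbB]
  have hx5 : A ≤ 2 ^ (5 * (m0 + 2) ^ 3 - (m0 + 2) ^ 3 / q) := by
    rw [hA, ← hx]
    refine pow_le_pow_right₀ (by norm_num) (Nat.sub_le_sub_right ?_ _)
    have : e ≤ 5 := by rcases he with rfl | ⟨rfl, -⟩ <;> norm_num
    exact Nat.mul_le_mul_right x this
  have hKA : ν₀ * 2 ^ 14 * A ≤ ν₀ * 2 ^ 14 * 2 ^ ((m0 + 2) ^ 3 - (m0 + 2) ^ 3 / q) := by
    rcases he with rfl | ⟨-, h0⟩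
    · rw [hA, one_mul, ← hx]
    · rw [h0]; simp
  refine ⟨m0 + 2, m0, dat b L A m0, 1 / A, by positivity, by omega, fun m hm => ?_, ?_,
    fun ν hν hνν u hu hu0 => ?_, fun ν hν hνν Tm u hTm hu hu0 hmax => ?_⟩
  · unfold dat
    rw [if_pos hm]
  · rw [hsumw fun m => (RR m : ℝ) ^ (4 * s)]
    have h1 : (RR m0 : ℝ) ^ (4 * s) * (al m0 / A) ^ 2 ≤ (2 : ℝ) ^ (-(δ * N)) := by
      refine le_trans ?_ hmain
      rw [div_pow, mul_div_assoc']
      refine div_le_div_of_nonneg_right ?_ (sq_nonneg A)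
      have : al m0 ^ 2 ≤ 1 := pow_le_one₀ ha0.le ha1
      have h2 : 0 ≤ (RR m0 : ℝ) ^ (4 * s) := Real.rpow_nonneg (RR_pos m0).le _
      exact mul_le_of_le_one_right h2 this
    have h2 : (RR (m0 + 1) : ℝ) ^ (4 * s) * (rr m0 / A) ^ 2 ≤ (2 : ℝ) ^ (-(δ * N)) := by
      refine le_trans ?_ hmain
      rw [div_pow, mul_div_assoc']
      refine div_le_div_of_nonneg_right (hsecond.trans ?_) (sq_nonneg A)
      exact Real.one_le_rpow hR1 (by linarith)
    linarith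
  · have hu0' : u 0 = red_comb phi (dat b L A m0) (m0 + 2) := hu0
    obtain ⟨S, W, Q, hsh, hQ⟩ :=
      s_red phi cc pp gg f_bas nos2_ccb ν T u hν hu (T / 2) ⟨hT2, by linarith⟩
    have hau := ha u hu0'
    have hSu : S 0 ≤ B ^ 2 := by
      have h1 := hsh.sum 0 ⟨le_rfl, hT2.le⟩
      rw [h1.unique (hS0 u hu0')]
      exact hS2
    refine hblow m0 hm01 A hA1 hx5 hKA cc pp (fun m => ν * gg m) _ S W (f_ch hν hνν)
      (fun n l hnl => f_ccu n l hnl)
      (fun n => (Fin_pp_bd s_prod s_one s_trig f_nm n).1)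
      (fun n => (Fin_pp_bd s_prod s_one s_trig f_nm n).2)
      (fun n => mul_nonneg hν (Fin_gg0 f_gg n))
      (fun i j hij => mul_le_mul_of_nonneg_left (f_bas.mono hij) hν) hsh hSu
      (fun m hm hm' => ?_) ?_ ?_ (fun m hm => ?_) ⟨Q + 1, fun t ht m => ?_⟩
    · show ip (u 0) (phi m) = 0
      rw [hau, if_pos (by omega), hdz m (by omega) (by omega) (by omega)]
    · show ip (u 0) (phi m0) = al m0 / A
      rw [hau, if_pos (by omega), hd0]
    · show ip (u 0) (phi (m0 + 1)) = rr m0 / A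
      rw [hau, if_pos (by omega), hd1]
    · show ip (u 0) (phi m) = 0
      rw [hau, if_neg (by omega)]
    · show (RR m : ℝ) * |ip (u t) (phi m)| ≤ Q + 1
      exact nos2_bd (hQ t ht m)
  · have hu0' : u 0 = red_comb phi (dat b L A m0) (m0 + 2) := hu0
    have hau := ha u hu0'
    have hTm2 : Tm / 2 ∈ Ioo 0 Tm := ⟨by linarith, by linarith⟩
    have hshc : ∀ T1 ∈ Ioo 0 Tm, Shell cc pp (fun m => ν * gg m) T1
        (fun m t => ip (u t) (phi m)) (Sca fun m t => ip (u t) (phi m))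
        (Wca cc fun m t => ip (u t) (phi m)) := by
      intro T1 hT1
      obtain ⟨S, W, Q, hsh, hQ⟩ := s_red phi cc pp gg f_bas nos2_ccb ν Tm u hν hu T1 hT1
      exact hcan cc pp (fun m => ν * gg m) T1 _ S W hsh
    have hSu : Sca (fun m t => ip (u t) (phi m)) 0 ≤ B ^ 2 := by
      have h1 : Sca (fun m t => ip (u t) (phi m)) 0 =
          ∑ m ∈ Finset.range (m0 + 2), dat b L A m0 m ^ 2 := (hS0 u hu0').tsum_eq
      rw [h1]
      exact hS2
    have hbd : ∀ T1 ∈ Ioo 0 Tm, ∃ B, ∀ t ∈ Icc 0 T1, ∀ m,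
        (RR m : ℝ) * |(fun (m : ℕ) (t : ℝ) => ip (u t) (phi m)) m t| ≤ B := by
      intro T1 hT1
      obtain ⟨S, W, Q, hsh, hQ⟩ := s_red phi cc pp gg f_bas nos2_ccb ν Tm u hν hu T1 hT1
      exact ⟨Q + 1, fun t ht m => nos2_bd (hQ t ht m)⟩
    have hun : ∀ Λ : ℝ, ∃ T1 ∈ Ico 0 Tm, ∃ l : ℕ, Λ < ∫ s in (0 : ℝ)..T1,
        ∑ n ∈ Finset.range l, Gm n * |(fun (m : ℕ) (t : ℝ) => ip (u t) (phi m)) n s| := by
      intro Λ
      by_contra hcon
      push Not at hcon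
      obtain ⟨T', u', hT', hu', hext⟩ := hcri ν Tm (max Λ 0) (m0 + 2) u hν hTm
        (le_max_right _ _) hu (fun m hm => by rw [hau, if_neg (by omega)]) (by
          intro t ht m
          refine (hcon t ht m).trans ((le_max_left Λ 0).trans ?_)
          refine le_mul_of_one_le_right (le_max_right _ _) (one_le_pow₀ ?_)
          have : (0 : ℝ) ≤ m := Nat.cast_nonneg m
          linarith)
      have h1 := hmax T' u' hu' (hext 0 ⟨le_rfl, hTm⟩)
      linarith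
    intro m hm
    obtain ⟨t, ht, htm⟩ := hblow2 m0 hm02 A hA1 hx5 hKA cc pp (fun m => ν * gg m)
      (fun m t => ip (u t) (phi m)) _ _ Tm (f_ch hν hνν)
      (fun n l hnl => f_ccu n l hnl)
      (fun n => (Fin_pp_bd s_prod s_one s_trig f_nm n).1)
      (fun n => (Fin_pp_bd s_prod s_one s_trig f_nm n).2)
      (fun n => mul_nonneg hν (Fin_gg0 f_gg n))
      (fun i j hij => mul_le_mul_of_nonneg_left (f_bas.mono hij) hν) hTm hshc hbd hSu
      (fun m hm hm' => by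
        show ip (u 0) (phi m) = 0
        rw [hau, if_pos (by omega), hdz m (by omega) (by omega) (by omega)])
      (by
        show ip (u 0) (phi m0) = al m0 / A
        rw [hau, if_pos (by omega), hd0])
      (by
        show ip (u 0) (phi (m0 + 1)) = rr m0 / A
        rw [hau, if_pos (by omega), hd1])
      (fun m hm => by
        show ip (u 0) (phi m) = 0
        rw [hau, if_neg (by omega)]) hun m hm
    refine ⟨t, ht, ?_⟩
    have h1 : 1 / A * al m = al m / A := by ring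
    rw [h1]
    exact htm.trans (le_abs_self _)

end Pool.Agent.H226.GB

end
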