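import Pool.Agent.H226.GM.Spc12
import Pool.Agent.H226.GM.OdeB

/-! ## Nxt -/

section

/-!
One stage of the cascade, for a solution which exists up to the time `Te` only.
-/

open MeasureTheory Set Filter Topology

namespace Pool.Agent.H226.GB

attribute [local irreducible] RR NN

section

variable {l1 : ℕ} {c : ℕ → ℕ → ℝ} {p ν : ℕ → ℝ} {T Te K : ℝ} {a : ℕ → ℝ → ℝ} {S : ℝ → ℝ} {W : ℕ → ℝ → ℝ}
  {m : ℕ} {t0 : ℝ}

private lemma aux_frac' {A B : ℝ} (hB : B ≠ 0) : A / B / 2 ^ 13 * (B / 2) = A / 2 ^ 14 := by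
  field_simp

/-- the facts at the beginning of the stage -/
lemma St.start2 (hs : St a S T m t0) (h : Sys l1 c Gm p ν Te a S W) (hte : t0 ≤ Te) (hc : CH c p ν K)
    (hT : 0 < T) (hT1 : T ≤ 1) (hm : 2 ≤ m) (hlm : l1 + 1 ≤ m) (hp : Par K T m)
    (ha0 : 0 ≤ a (m + 1) 0) (hz0 : tl a S (m + 2) 0 ≤ 0) :
    Ph Gm a (m + 1) t0 ≤ Bm m + 1 ∧ (∀ t ∈ Icc 0 t0, tl a S (m + 2) t < rr (m + 1) ^ 2) ∧
    rr m / 2 ≤ a (m + 1) t0 ∧ a (m + 1) t0 ^ 2 ≤ al m ^ 2 / 2 ^ 31 ∧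
    tl a S (m + 2) t0 ≤ rr (m + 1) * a (m + 1) t0 := by
  have h1 := hs.tT' hp hT
  have hD := Dm_pos m
  have ht0T : t0 < T := by linarith only [h1.1, h1.2, hD]
  have hr := rr_pos m
  have hφ : Ph Gm a (m + 1) t0 ≤ Bm m + 1 := by
    rw [Ph_succ]
    have h2 : II a (m + 1) t0 - II a (m + 1) 0 ≤ rr m * (t0 - 0) := by
      refine II_sub_le (h.cont _) hs.nn fun u hu => ?_
      have h3 := hs.le u hu
      have h4 := h.sq_le_tl (t := u) ⟨hu.1, hu.2.trans hte⟩ (m + 1)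
      exact abs_le_of_sq_le_sq (h4.trans h3) hr.le
    rw [II_zero, sub_zero, sub_zero] at h2
    have h5 : II a (m + 1) t0 ≤ rr m := by
      exact h2.trans (mul_le_of_le_one_right hr.le (by linarith only [ht0T, hT1]))
    have h6 := Gm_rr m
    have h7 := mul_le_mul_of_nonneg_left h5 (Gm_pos (m + 1)).le
    have h8 := hs.ph
    linarith only [h6, h7, h8]
  have hφ1 : Ph Gm a (m + 1) t0 ≤ bb (m + 1) - 1 := by linarith only [hp.f5, hφ]
  have hst := star h hc (by omega) (by omega) ha0 hz0 ⟨hs.nn, hte⟩ hφ1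
  have hmono := Ph_mono (fun n => (Gm_pos n).le) h.cont (m + 1)
  refine ⟨hφ, fun t ht => ?_, ?_, ?_, ?_⟩
  · obtain ⟨g1, g2⟩ := hst t ht
    have g3 : Ph Gm a (m + 1) t ≤ Bm m + 1 := (hmono ht.2).trans hφ
    have g4 : Real.exp (Ph Gm a (m + 1) t - bb (m + 1)) ≤ Real.exp (Bm m + 1 - bb (m + 1)) :=
      Real.exp_le_exp.2 (by linarith only [g3])
    have g5 := (le_abs_self _).trans (h.ab_le (t := t) ⟨ht.1, ht.2.trans hte⟩ (l := m + 1) (by omega))
    have g6 : Real.exp (Ph Gm a (m + 1) t - bb (m + 1)) * a (m + 1) t < rr (m + 1) := by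
      have g := mul_le_mul g4 g5 g1 (Real.exp_pos (Bm m + 1 - bb (m + 1))).le
      linarith only [g, hp.f5']
    refine g2.trans_lt ?_
    have g7 : 0 ≤ Real.exp (Ph Gm a (m + 1) t - bb (m + 1)) * a (m + 1) t :=
      mul_nonneg (Real.exp_pos _).le g1
    exact pow_lt_pow_left₀ g6 g7 two_ne_zero
  · obtain ⟨g1, g2⟩ := hst t0 ⟨hs.nn, le_rfl⟩
    have g3 : Real.exp (Ph Gm a (m + 1) t0 - bb (m + 1)) ≤ 1 / 2 := by
      refine (Real.exp_le_exp.2 (show _ ≤ (-1 : ℝ) by linarith only [hφ1])).trans ?_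
      rw [Real.exp_neg, ← one_div]
      have := Real.add_one_le_exp (1 : ℝ)
      exact one_div_le_one_div_of_le two_pos (by linarith only [this])
    have g4 : (Real.exp (Ph Gm a (m + 1) t0 - bb (m + 1)) * a (m + 1) t0) ^ 2
        ≤ (1 / 2 * a (m + 1) t0) ^ 2 :=
      pow_le_pow_left₀ (mul_nonneg (Real.exp_pos _).le g1) (mul_le_mul_of_nonneg_right g3 g1) 2
    have g5 := hs.eq
    rw [tl_succ] at g5
    have g6 : rr m ^ 2 ≤ 5 / 4 * a (m + 1) t0 ^ 2 := by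
      have : tl a S (m + 1 + 1) t0 = tl a S (m + 2) t0 := rfl
      linarith only [this, g2, g4, g5]
    refine abs_le_of_sq_le_sq' ?_ g1 |>.2
    linarith only [g6, sq_nonneg (a (m + 1) t0)]
  · have g5 := hs.eq
    have g6 := h.sq_le_tl (t := t0) ⟨hs.nn, hte⟩ (m + 1)
    exact (g6.trans g5.le).trans hp.f3
  · obtain ⟨g1, g2⟩ := hst t0 ⟨hs.nn, le_rfl⟩
    have g3 : Real.exp (Ph Gm a (m + 1) t0 - bb (m + 1)) ≤ rr (m + 1) / 2 := by
      have : Real.exp (Ph Gm a (m + 1) t0 - bb (m + 1)) ≤ Real.exp (Bm m + 1 - bb (m + 1)) :=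
        Real.exp_le_exp.2 (by linarith only [hφ])
      linarith only [hp.f5', this]
    have g5 := (le_abs_self _).trans (h.ab_le (t := t0) ⟨hs.nn, hte⟩ (l := m + 1) (by omega))
    have g6 := Real.exp_pos (Ph Gm a (m + 1) t0 - bb (m + 1))
    have g7 := rr_pos (m + 1)
    have g8 := rr_le (m + 1)
    refine g2.trans ?_
    have e : (Real.exp (Ph Gm a (m + 1) t0 - bb (m + 1)) * a (m + 1) t0) ^ 2
        ≤ (rr (m + 1) / 2 * a (m + 1) t0) ^ 2 :=
      pow_le_pow_left₀ (mul_nonneg g6.le g1) (mul_le_mul_of_nonneg_right g3 g1) 2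
    refine e.trans ?_
    have g9 : rr (m + 1) * a (m + 1) t0 ≤ 1 := by
      have g := mul_le_mul g8 g5 g1 (by norm_num : (0 : ℝ) ≤ 1 / 2)
      linarith only [g]
    have g10 : 0 ≤ rr (m + 1) * a (m + 1) t0 := mul_nonneg g7.le g1
    have g11 := mul_le_of_le_one_right g10 g9
    linarith only [g10, g11]

/-- the planar hypotheses hold as long as the higher levels are small -/
lemma St.plan2 (hs : St a S T m t0) (h : Sys l1 c Gm p ν Te a S W) (hte : t0 ≤ Te) (hc : CH c p ν K) (hK : 0 ≤ K)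
    (hT : 0 < T) (hT1 : T ≤ 1) (hm : 2 ≤ m) (hlm : l1 + 1 ≤ m) (hp : Par K T m)
    (ha0 : 0 ≤ a (m + 1) 0) (hz0 : tl a S (m + 2) 0 ≤ 0) {s : ℝ} (hts : t0 ≤ s)
    (hsD : s ≤ t0 + Dm m) (hse : s ≤ Te) (hx : ∀ t ∈ Icc t0 s, 0 ≤ a m t)
    (hy : ∀ t ∈ Icc t0 s, 0 ≤ a (m + 1) t ∧ tl a S (m + 2) t ≤ rr (m + 1) * a (m + 1) t) :
    PlanHyp (a m) (a (m + 1)) (rhs c p ν a W m) (rhs c p ν a W (m + 1)) (II a (m + 1))
      (c m (m + 1)) (lam K m) (4 * (Real.exp (-bb (m - 1)) + Real.exp (-bb m))) (al m) (Dm m)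
      (a m t0) t0 s := by
  obtain ⟨f1, f2, f3, f4, f5⟩ := hs.start2 h hte hc hT hT1 hm hlm hp ha0 hz0
  have h1 := hs.tT' hp hT
  have hmem : ∀ t ∈ Ioo t0 s, t ∈ Ioo 0 Te := fun t ht =>
    ⟨lt_of_le_of_lt hs.nn ht.1, lt_of_lt_of_le ht.2 hse⟩
  have hrm := rr_pos m
  have hlo := hc.c_lo m
  have hR := RR_pos m
  refine ⟨hts, by linarith only [hsD], lt_of_lt_of_le (div_pos (pow_pos hR 5) two_pos) hlo, ?_,
    hp.f1, al_pos m,
    mul_nonneg (by norm_num) (add_pos (Real.exp_pos _) (Real.exp_pos _)).le,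
    hp.f2, hs.X, ?_, rfl, by linarith only [hrm, f3], f4, (h.cont _).continuousOn,
    (h.cont _).continuousOn,
    (II_cont (h.cont _)).continuousOn, fun t ht => h.der t (hmem t ht) m,
    fun t ht => h.der t (hmem t ht) (m + 1), fun t ht => ?_, hx, fun t ht => (hy t ht).1,
    fun t ht => ?_, fun t ht => ?_, fun t ht => ?_⟩
  · unfold lam
    have g1 := SG_nonneg m
    have g2 : 0 ≤ K * (RR (m + 1) : ℝ) ^ 4 := mul_nonneg hK (pow_nonneg (RR_pos (m + 1)).le 4)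
    have g3 : 0 ≤ Gm (m + 1) * rr (m + 1) := mul_nonneg (Gm_pos _).le (rr_pos _).le
    have g4 := Real.exp_pos (-bb m)
    have g5 := Real.exp_pos (-bb (m + 1))
    linarith only [g1, g2, g3, g4, g5]
  · exact (le_abs_self _).trans (h.ab_le ⟨hs.nn, hte⟩ (l := m) (by omega))
  · have g := II_der (h.cont (m + 1)) t
    rwa [abs_of_nonneg (hy t ⟨ht.1.le, ht.2.le⟩).1] at g
  · have hI : t ∈ Icc t0 s := ⟨ht.1.le, ht.2.le⟩
    exact est_x h hc hK hm hlm ⟨(hmem t ht).1.le, (hmem t ht).2.le⟩ (hx t hI) (hy t hI).1 (hy t hI).2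
  · have hI : t ∈ Icc t0 s := ⟨ht.1.le, ht.2.le⟩
    exact (est_y1 h hc hm hlm ⟨(hmem t ht).1.le, (hmem t ht).2.le⟩ (hy t hI).1 (hy t hI).2).1
  · have hI : t ∈ Icc t0 s := ⟨ht.1.le, ht.2.le⟩
    exact (est_y1 h hc hm hlm ⟨(hmem t ht).1.le, (hmem t ht).2.le⟩ (hy t hI).1 (hy t hI).2).2

/-- the exponent controls the angle: if it has grown by half of `bb (m+1)` then `y` is large -/
lemma St.angle2 (hs : St a S T m t0) (h : Sys l1 c Gm p ν Te a S W) (hte : t0 ≤ Te) (hc : CH c p ν K)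
    (hT : 0 < T) (hT1 : T ≤ 1) (hm : 2 ≤ m) (hlm : l1 + 1 ≤ m) (hp : Par K T m)
    (ha0 : 0 ≤ a (m + 1) 0) (hz0 : tl a S (m + 2) 0 ≤ 0) {s : ℝ} (hts : t0 ≤ s)
    (hsD : s ≤ t0 + Dm m) (hse : s ≤ Te)
    (hφ : bb (m + 1) - Real.log (2 / rr (m + 1)) - 1 ≤ Ph Gm a (m + 1) s) :
    1 / 2 ^ 26 ≤ c m (m + 1) * (II a (m + 1) s - II a (m + 1) t0) := by
  obtain ⟨f1, f2, f3, f4, f5⟩ := hs.start2 h hte hc hT hT1 hm hlm hp ha0 hz0
  have h1 := hs.tT' hp hT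
  have h2 := ph_le h (l := m) (by omega) hs.nn hts hse
  rw [Ph_succ] at f1 hφ
  have h3 : 4 * (s - t0) * SG (m + 1) ≤ 4 * Dm m * SG (m + 1) := by
    refine mul_le_mul_of_nonneg_right ?_ (SG_nonneg (m + 1))
    linarith only [hsD]
  have h4 := hp.f8
  set J := II a (m + 1) s - II a (m + 1) t0 with hJ
  have h5 : bb (m + 1) / 2 ≤ 2 * (Gm (m + 1) * J) := by
    rw [hJ]
    linarith only [f1, hφ, h2, h3, h4]
  have h6 : 0 < J := by
    have hb : 0 < bb (m + 1) := by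
      unfold bb
      exact div_pos (pow_pos (div_pos (RR_pos (m + 1)) (RR_pos (m + 1 - 1))) 5) (by norm_num)
    by_contra h7
    push Not at h7
    have := mul_nonpos_of_nonneg_of_nonpos (Gm_pos (m + 1)).le h7
    linarith only [this, h5, hb]
  have h7 := hc.c_lo m
  have h8 : bb (m + 1) = ((RR (m + 1) : ℝ) / RR m) ^ 5 / 2 ^ 13 := by unfold bb; simp
  have hR := RR_pos m
  have hR1 := RR_pos (m + 1)
  have h9 : bb (m + 1) * ((RR m : ℝ) ^ 5 / 2) = (RR (m + 1) : ℝ) ^ 5 / 2 ^ 14 := by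
    rw [h8, div_pow]; exact aux_frac' (pow_ne_zero 5 hR.ne')
  have h10 : (RR (m + 1) : ℝ) ^ 5 / 2 ^ 14 ≤ 4 * (Gm (m + 1) * J) * c m (m + 1) := by
    rw [← h9]
    have : bb (m + 1) ≤ 4 * (Gm (m + 1) * J) := by linarith only [h5]
    have h11 : 0 ≤ 4 * (Gm (m + 1) * J) :=
      mul_nonneg (by norm_num) (mul_nonneg (Gm_pos (m + 1)).le h6.le)
    exact mul_le_mul this h7 (div_nonneg (pow_nonneg hR.le 5) two_pos.le) h11
  unfold Gm at h10
  have h12 : (0 : ℝ) < (RR (m + 1) : ℝ) ^ 5 := pow_pos hR1 5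
  have h13 : (RR (m + 1) : ℝ) ^ 5 * (1 / 2 ^ 14)
      ≤ (RR (m + 1) : ℝ) ^ 5 * (2 ^ 12 * (c m (m + 1) * J)) := by
    refine le_trans (le_of_eq (by ring)) (h10.trans (le_of_eq (by ring)))
  have h14 := le_of_mul_le_mul_left h13 h12
  linarith only [h14]

/-- as long as `x ≥ 0` and the levels `≥ m + 2` are below the threshold, they are small compared
to `y` -/
lemma St.good2 (hplan : S_plan) (hs : St a S T m t0) (h : Sys l1 c Gm p ν Te a S W) (hte : t0 ≤ Te) (hc : CH c p ν K)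
    (hK : 0 ≤ K) (hT : 0 < T) (hT1 : T ≤ 1) (hm : 2 ≤ m) (hlm : l1 + 1 ≤ m) (hp : Par K T m)
    (ha0 : 0 ≤ a (m + 1) 0) (hz0 : tl a S (m + 2) 0 ≤ 0) {s : ℝ}
    (hsD : s ≤ t0 + Dm m) (hse : s ≤ Te) (hx : ∀ t ∈ Icc t0 s, 0 ≤ a m t)
    (hZ : ∀ t ∈ Icc t0 s, tl a S (m + 2) t ≤ rr (m + 1) ^ 2) :
    ∀ t ∈ Icc t0 s, 0 ≤ a (m + 1) t ∧ tl a S (m + 2) t ≤ rr (m + 1) * a (m + 1) t := by
  obtain ⟨f1, f2, f3, f4, f5⟩ := hs.start2 h hte hc hT hT1 hm hlm hp ha0 hz0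
  have h1 := hs.tT' hp hT
  have hr := rr_pos (m + 1)
  have hr0 := rr_pos m
  have hφc := Ph_cont h.cont (m + 1)
  have hyc := h.cont (m + 1)
  have hZc := h.tl_cont (m + 2)
  by_contra hcon
  push Not at hcon
  obtain ⟨tb, htb, hbad⟩ := hcon
  set N : Set ℝ := {t | t ∈ Icc t0 s ∧
    ¬(0 ≤ a (m + 1) t ∧ tl a S (m + 2) t ≤ rr (m + 1) * a (m + 1) t)} with hN
  have hNne : N.Nonempty := ⟨tb, htb, fun h2 => absurd h2.2 (not_le.2 (hbad h2.1))⟩
  have hNbd : BddBelow N := ⟨t0, fun t ht => ht.1.1⟩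
  set s0 := sInf N with hs0
  have hs0le : s0 ≤ s := (csInf_le hNbd hNne.some_mem).trans hNne.some_mem.1.2
  have hs0ge : t0 ≤ s0 := le_csInf hNne fun t ht => ht.1.1
  have hbefore : ∀ t ∈ Ico t0 s0, 0 ≤ a (m + 1) t ∧
      tl a S (m + 2) t ≤ rr (m + 1) * a (m + 1) t := by
    intro t ht
    by_contra h2
    exact absurd (csInf_le hNbd (show t ∈ N from ⟨⟨ht.1, ht.2.le.trans hs0le⟩, h2⟩))
      (not_le.2 ht.2)
  have hat : 0 ≤ a (m + 1) s0 ∧ tl a S (m + 2) s0 ≤ rr (m + 1) * a (m + 1) s0 := by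
    rcases eq_or_lt_of_le hs0ge with he | hl
    · rw [← he]; exact ⟨by linarith only [f3, hr0], f5⟩
    · have hcl : s0 ∈ closure (Ico t0 s0) := by
        rw [closure_Ico hl.ne]; exact ⟨hl.le, le_rfl⟩
      have hclosed : IsClosed {t : ℝ | 0 ≤ a (m + 1) t ∧
          tl a S (m + 2) t ≤ rr (m + 1) * a (m + 1) t} :=
        (isClosed_le continuous_const hyc).inter (isClosed_le hZc (continuous_const.mul hyc))
      exact hclosed.closure_subset_iff.2 (fun t ht => hbefore t ht) hcl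
  have hupto : ∀ t ∈ Icc t0 s0, 0 ≤ a (m + 1) t ∧
      tl a S (m + 2) t ≤ rr (m + 1) * a (m + 1) t := by
    intro t ht
    rcases eq_or_lt_of_le ht.2 with he | hl
    · rw [he]; exact hat
    · exact hbefore t ⟨ht.1, hl⟩
  -- a right neighbourhood of `s0` without points of `N`
  have key : ∃ ε > 0, ∀ t ∈ Icc s0 (s0 + ε), t ≤ s → 0 ≤ a (m + 1) t ∧
      tl a S (m + 2) t ≤ rr (m + 1) * a (m + 1) t := by
    rcases lt_or_ge (Ph Gm a (m + 1) s0) (bb (m + 1) - 1) with hlt | hge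
    · have hev : ∀ᶠ t in 𝓝 s0, Ph Gm a (m + 1) t < bb (m + 1) - 1 :=
        hφc.continuousAt.eventually_lt_const hlt
      obtain ⟨ε, hε, hball⟩ := Metric.eventually_nhds_iff.1 hev
      refine ⟨ε / 2, half_pos hε, fun t ht hts => ?_⟩
      have ht2 : t ≤ s0 + ε / 2 := ht.2
      have ht3 : t ≤ Te := hts.trans hse
      have h2 : Ph Gm a (m + 1) t ≤ bb (m + 1) - 1 := (hball (by
        rw [Real.dist_eq, abs_of_nonneg (sub_nonneg.2 ht.1)]
        linarith only [ht2, hε])).le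
      have ht0 : 0 ≤ t := hs.nn.trans (hs0ge.trans ht.1)
      obtain ⟨g1, g2⟩ := star h hc (by omega) (by omega) ha0 hz0 ⟨ht0, ht3⟩ h2 t ⟨ht0, le_rfl⟩
      refine ⟨g1, ?_⟩
      have g3 : Real.exp (Ph Gm a (m + 1) t - bb (m + 1)) ≤ 1 := by
        rw [Real.exp_le_one_iff]; linarith only [h2]
      have g4 : tl a S (m + 2) t ≤ a (m + 1) t ^ 2 := by
        refine g2.trans ?_
        rw [mul_pow]
        have g5 : Real.exp (Ph Gm a (m + 1) t - bb (m + 1)) ^ 2 ≤ 1 :=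
          pow_le_one₀ (Real.exp_pos _).le g3
        exact mul_le_of_le_one_left (sq_nonneg _) g5
      have g6 := hZ t ⟨hs0ge.trans ht.1, hts⟩
      have g7 := h.tl_nonneg (t := t) ⟨ht0, ht3⟩ (m + 2)
      refine abs_le_of_sq_le_sq' ?_ (by positivity) |>.2
      calc tl a S (m + 2) t ^ 2 = tl a S (m + 2) t * tl a S (m + 2) t := sq _
        _ ≤ rr (m + 1) ^ 2 * a (m + 1) t ^ 2 := by gcongr
        _ = _ := by ring
    · -- `y` is large
      have hpl := hs.plan2 h hte hc hK hT hT1 hm hlm hp ha0 hz0 hs0ge (hs0le.trans hsD)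
        (hs0le.trans hse) (fun t ht => hx t ⟨ht.1, ht.2.trans hs0le⟩) hupto
      obtain ⟨_, _, e3, _, _⟩ := hplan _ _ _ _ _ _ _ _ _ _ _ _ _ hpl
      have hlog : 0 ≤ Real.log (2 / rr (m + 1)) := Real.log_nonneg (by
        rw [le_div_iff₀ hr]
        have := rr_le (m + 1)
        linarith only [this])
      have h2 := e3 (hs.angle2 h hte hc hT hT1 hm hlm hp ha0 hz0 hs0ge (hs0le.trans hsD)
        (hs0le.trans hse) (by linarith only [hge, hlog]))
      have h3 : rr (m + 1) < a (m + 1) s0 := by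
        have h4 := hp.f4
        rw [al_succ] at h4
        have h5 := hs.X
        have : al m / 2 ^ 29 ≤ a m t0 / 2 ^ 29 := div_le_div_of_nonneg_right h5 (by norm_num)
        exact (h4.trans_le this).trans_le h2
      have hev : ∀ᶠ t in 𝓝 s0, rr (m + 1) < a (m + 1) t :=
        hyc.continuousAt.eventually_const_lt h3
      obtain ⟨ε, hε, hball⟩ := Metric.eventually_nhds_iff.1 hev
      refine ⟨ε / 2, half_pos hε, fun t ht hts => ?_⟩
      have h5 : rr (m + 1) < a (m + 1) t := hball (by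
        rw [Real.dist_eq, abs_of_nonneg (sub_nonneg.2 ht.1)]
        linarith only [ht.2, hε])
      refine ⟨(hr.trans h5).le, (hZ t ⟨hs0ge.trans ht.1, hts⟩).trans ?_⟩
      rw [sq]
      exact mul_le_mul_of_nonneg_left h5.le hr.le
  obtain ⟨ε, hε, hkey⟩ := key
  obtain ⟨t, htN, hlt⟩ := exists_lt_of_csInf_lt hNne (show sInf N < s0 + ε from lt_add_of_pos_right _ hε)
  have hge : s0 ≤ t := csInf_le hNbd htN
  exact htN.2 (hkey t ⟨hge, hlt.le⟩ htN.1.2)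

/-- the exponent at the end of the stage -/
lemma St.phnext2 (hplan : S_plan) (hs : St a S T m t0) (h : Sys l1 c Gm p ν Te a S W) (hte : t0 ≤ Te) (hc : CH c p ν K)
    (hK : 0 ≤ K) (hT : 0 < T) (hT1 : T ≤ 1) (hm : 2 ≤ m) (hlm : l1 + 1 ≤ m) (hp : Par K T m)
    (ha0 : 0 ≤ a (m + 1) 0) (hz0 : tl a S (m + 2) 0 ≤ 0) {s : ℝ} (hts : t0 ≤ s)
    (hsD : s ≤ t0 + Dm m) (hse : s ≤ Te) (hx : ∀ t ∈ Icc t0 s, 0 ≤ a m t)
    (hZ : ∀ t ∈ Icc t0 s, tl a S (m + 2) t ≤ rr (m + 1) ^ 2) :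
    Ph Gm a (m + 1) s ≤ Bm (m + 1) := by
  obtain ⟨f1, f2, f3, f4, f5⟩ := hs.start2 h hte hc hT hT1 hm hlm hp ha0 hz0
  have h1 := hs.tT' hp hT
  have hy := hs.good2 hplan h hte hc hK hT hT1 hm hlm hp ha0 hz0 hsD hse hx hZ
  have hpl := hs.plan2 h hte hc hK hT hT1 hm hlm hp ha0 hz0 hts hsD hse hx hy
  obtain ⟨_, e2, _, _, _⟩ := hplan _ _ _ _ _ _ _ _ _ _ _ _ _ hpl
  have h2 := ph_le h (l := m) (by omega) hs.nn hts hse
  rw [Ph_succ] at f1 ⊢
  have h3 : 4 * (s - t0) * SG (m + 1) ≤ 4 * Dm m * SG (m + 1) := by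
    exact mul_le_mul_of_nonneg_right (by linarith only [hsD]) (SG_nonneg (m + 1))
  set J := II a (m + 1) s - II a (m + 1) t0 with hJ
  have hR := RR_pos m
  have hR1 := RR_pos (m + 1)
  have hlo := hc.c_lo m
  have hJ0 : 0 ≤ J := by
    exact sub_nonneg.2 (II_mono (h.cont (m + 1)) hts)
  have h4 : 2 * (Gm (m + 1) * J) ≤ 9216 * om (m + 1) := by
    have h5 : (RR m : ℝ) ^ 5 / 2 * J ≤ 9 / 4 := (mul_le_mul_of_nonneg_right hlo hJ0).trans e2
    have h6 : J ≤ 9 / 2 / (RR m : ℝ) ^ 5 := by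
      rw [le_div_iff₀ (pow_pos hR 5)]
      linarith only [h5]
    have h7 : om (m + 1) = (RR (m + 1) : ℝ) ^ 5 / (RR m : ℝ) ^ 5 := by
      unfold om; rw [div_pow]; simp
    calc 2 * (Gm (m + 1) * J) ≤ 2 * (Gm (m + 1) * (9 / 2 / (RR m : ℝ) ^ 5)) := by
          have := Gm_pos (m + 1)
          gcongr
      _ = 9216 * om (m + 1) := by
          rw [h7]; unfold Gm; ring
  have h8 := hp.f6
  have h9 : II a (m + 1) s = II a (m + 1) t0 + J := by rw [hJ]; ring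
  rw [h9]
  linarith only [f1, h2, h3, h4, h8]

/-- the component `x` stays positive as long as the higher levels are below the threshold -/
lemma St.pos2 (hplan : S_plan) (hgrow : S_grow) (hs : St a S T m t0) (h : Sys l1 c Gm p ν Te a S W) (hte : t0 ≤ Te)
    (hc : CH c p ν K)
    (hK : 0 ≤ K) (hT : 0 < T) (hT1 : T ≤ 1) (hm : 2 ≤ m) (hlm : l1 + 1 ≤ m) (hp : Par K T m)
    (ha0 : 0 ≤ a (m + 1) 0) (ha1 : 0 ≤ a (m + 2) 0) (hz0 : tl a S (m + 2) 0 ≤ 0) {s : ℝ}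
    (hts : t0 ≤ s) (hsD : s ≤ t0 + Dm m) (hse : s ≤ Te) (hx : ∀ t ∈ Icc t0 s, 0 ≤ a m t)
    (hZ : ∀ t ∈ Icc t0 s, tl a S (m + 2) t ≤ rr (m + 1) ^ 2) : 0 < a m s := by
  obtain ⟨f1, f2, f3, f4, f5⟩ := hs.start2 h hte hc hT hT1 hm hlm hp ha0 hz0
  have h1 := hs.tT' hp hT
  have hy := hs.good2 hplan h hte hc hK hT hT1 hm hlm hp ha0 hz0 hsD hse hx hZ
  have hpl := hs.plan2 h hte hc hK hT hT1 hm hlm hp ha0 hz0 hts hsD hse hx hy
  obtain ⟨e1, e2, e3, e4, e5⟩ := hplan _ _ _ _ _ _ _ _ _ _ _ _ _ hpl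
  have hph := hs.phnext2 hplan h hte hc hK hT hT1 hm hlm hp ha0 hz0 hts hsD hse hx hZ
  have hsT : s < T := by linarith only [hsD, h1.1, h1.2]
  have hal := al_pos m
  have hX : 0 < a m t0 := lt_of_lt_of_le hal hs.X
  by_contra hcon
  have hxs : a m s = 0 := le_antisymm (not_lt.1 hcon) (hx s ⟨hts, le_rfl⟩)
  -- the time `s1`
  obtain ⟨s1, hs1, hs1x⟩ : ∃ s1 ∈ Icc t0 s, a m s1 = a m t0 / 2 := by
    have := intermediate_value_Icc' hts (h.cont m).continuousOn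
    exact this ⟨by rw [hxs]; exact (half_pos hX).le, (half_lt_self hX).le⟩
  -- the comparison for the level `m + 2`
  have hzb : ∀ u ∈ Icc 0 s, |a (m + 2) u| ≤ rr (m + 1) := by
    intro u hu
    have g1 := h.sq_le_tl (t := u) ⟨hu.1, hu.2.trans hse⟩ (m + 2)
    have g2 : tl a S (m + 2) u ≤ rr (m + 1) ^ 2 := by
      rcases le_total u t0 with hle | hge
      · exact (f2 u ⟨hu.1, hle⟩).le
      · exact hZ u ⟨hge, hu.2⟩
    exact abs_le_of_sq_le_sq (g1.trans g2) (rr_pos _).le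
  have hs0 : 0 ≤ s := hs.nn.trans hts
  have hph2 : Ph Gm a (m + 2) s ≤ Bm (m + 1) + 1 := by
    rw [Ph_succ]
    have g1 := II_sub_le (h.cont (m + 2)) hs0 hzb
    rw [II_zero, sub_zero, sub_zero] at g1
    have g2 : II a (m + 2) s ≤ rr (m + 1) := by
      exact g1.trans (mul_le_of_le_one_right (rr_pos (m + 1)).le (hsT.le.trans hT1))
    have g3 := Gm_rr (m + 1)
    have g4 := Gm_pos (m + 2)
    have g5 : Gm (m + 1 + 1) = Gm (m + 2) := rfl
    have g6 : Gm (m + 2) * II a (m + 2) s ≤ Gm (m + 2) * rr (m + 1) :=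
      mul_le_mul_of_nonneg_left g2 g4.le
    rw [g5] at g3 ⊢
    have g7 : II a (m + 1 + 1) s = II a (m + 2) s := rfl
    rw [g7]
    linarith only [g3, g6, hph]
  have hst := star h hc (l := m + 2) (by omega) (by omega) ha1
    ((tl_succ_le (a := a) (S := S) (m + 2)).trans hz0) ⟨hs0, hse⟩ (by linarith only [hp.f7, hph2])
  have hmono := Ph_mono (fun n => (Gm_pos n).le) h.cont (m + 2)
  have hz : ∀ t ∈ Icc 0 s, 0 ≤ a (m + 2) t ∧ tl a S (m + 3) t
      ≤ (Real.exp (Bm (m + 1) + 1 - bb (m + 2)) * a (m + 2) t) ^ 2 := by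
    intro t ht
    obtain ⟨g1, g2⟩ := hst t ht
    refine ⟨g1, g2.trans ?_⟩
    have g3 : Real.exp (Ph Gm a (m + 2) t - bb (m + 2))
        ≤ Real.exp (Bm (m + 1) + 1 - bb (m + 2)) :=
      Real.exp_le_exp.2 (by linarith only [hmono ht.2, hph2])
    have g4 := Real.exp_pos (Ph Gm a (m + 2) t - bb (m + 2))
    gcongr
  -- growth
  have hmem : ∀ t ∈ Ioo t0 s, t ∈ Ioo 0 Te := fun t ht =>
    ⟨lt_of_le_of_lt hs.nn ht.1, ht.2.trans_le hse⟩
  have hlam1 := hpl.lam1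
  have hlam0 : 0 ≤ lam K m := zero_le_one.trans hlam1
  have hxy : ∀ t ∈ Icc t0 s, a m t + a (m + 1) t ≤ 29 / 20 * a m t0 := by
    intro t ht
    exact (abs_le_of_sq_le_sq' (St.aux_xy (e1 t ht).2) (mul_nonneg (by norm_num) hX.le)).2
  have hcl := hc.c_lo m
  have hR := RR_pos m
  have hR1 := RR_pos (m + 1)
  have hR2 := RR_pos (m + 2)
  have hc0 : 0 < c m (m + 1) := hpl.c0
  have hcu : c m (m + 1) ≤ Gm m := (le_abs_self _).trans (h.cG m (m + 1) (Nat.lt_succ_self m))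
  have hc1 := hc.c_lo (m + 1)
  have hcc0 : 0 ≤ c (m + 1) (m + 2) := (div_nonneg (pow_nonneg hR1.le 5) zero_le_two).trans hc1
  have hE0 : 0 ≤ 2 * SG (m + 1) + K * (RR (m + 2) : ℝ) ^ 4 + 2 := by
    have := SG_nonneg (m + 1)
    positivity
  have hg := hgrow (a m) (a (m + 1)) (a (m + 2)) (rhs c p ν a W m) (rhs c p ν a W (m + 2))
    (II a (m + 1)) (c m (m + 1)) (c (m + 1) (m + 2))
    (2 * SG (m + 1) + K * (RR (m + 2) : ℝ) ^ 4 + 2) (p (m + 1)) (2 * lam K m * a m t0) (Dm m)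
    t0 s1 s hs1.1 hs1.2 (by linarith only [hsD]) hc0 hcc0 hE0 (h.p0 _)
    (mul_nonneg (mul_nonneg zero_le_two hlam0) hX.le) (h.cont _).continuousOn (h.cont _).continuousOn
    (II_cont (h.cont _)).continuousOn (fun t ht => h.der t (hmem t ht) m)
    (fun t ht => h.der t (hmem t ht) (m + 2)) hpl.dI (fun t ht => (hy t ht).1)
    (fun t ht => (hz t ⟨hs.nn.trans ht.1, ht.2⟩).1) (fun t ht => by
      have hI : t ∈ Icc t0 s := ⟨ht.1.le, ht.2.le⟩
      have g1 := (abs_le.1 (hpl.hx t ht)).1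
      have g2 := hxy t hI
      have g3 := hpl.Pα
      have g4 : lam K m * (a m t + a (m + 1) t) ≤ lam K m * (29 / 20 * a m t0) :=
        mul_le_mul_of_nonneg_left g2 hlam0
      have g5 : al m * lam K m ≤ a m t0 * lam K m := mul_le_mul_of_nonneg_right hs.X hlam0
      have g6 : 0 ≤ lam K m * a m t0 := mul_nonneg hlam0 hX.le
      linarith only [g1, g3, g4, g5, g6]) (fun t ht => by
      have hI : t ∈ Icc t0 s := ⟨ht.1.le, ht.2.le⟩
      obtain ⟨g1, g2⟩ := hz t ⟨hs.nn.trans hI.1, hI.2⟩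
      exact est_z h hc hm hlm ⟨(hmem t ht).1.le, (hmem t ht).2.le⟩ g1 g2 hp.f7b hp.f7c)
  -- lower bound of the left side
  have hzs : a (m + 2) s ≤ rr (m + 1) := (le_abs_self _).trans (hzb s ⟨hs0, le_rfl⟩)
  have hf1 := hp.f1
  have hDm := Dm_pos m
  have k1 : 49 / 100 * al m ≤ a m t0 - a m s1 - 2 * lam K m * a m t0 * Dm m := by
    rw [hs1x]
    exact St.aux_k1 hX hf1 hs.X
  have k2 : 49 / 100 ≤ c m (m + 1) * (II a (m + 1) s - II a (m + 1) s1) := by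
    have g1 := e5 s1 hs1 s ⟨hts, le_rfl⟩ hs1.2
    rw [hs1x, hxs] at g1
    exact St.aux_k2 hX g1
  have k3 : 49 / 100 / 2 ^ 11 * om (m + 1)
      ≤ c (m + 1) (m + 2) * (II a (m + 1) s - II a (m + 1) s1) := by
    have g1 : 49 / 100 / Gm m ≤ II a (m + 1) s - II a (m + 1) s1 := by
      have gG := Gm_pos m
      rw [div_le_iff₀ gG]
      have g2 : 0 ≤ II a (m + 1) s - II a (m + 1) s1 := by
        have := II_mono (h.cont (m + 1)) hs1.2
        exact sub_nonneg.2 this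
      rw [mul_comm]
      exact k2.trans (mul_le_mul_of_nonneg_right hcu g2)
    have h7 : om (m + 1) = (RR (m + 1) : ℝ) ^ 5 / (RR m : ℝ) ^ 5 := by
      unfold om; rw [div_pow]; simp
    calc 49 / 100 / 2 ^ 11 * om (m + 1) = (RR (m + 1) : ℝ) ^ 5 / 2 * (49 / 100 / Gm m) := by
          rw [h7]; unfold Gm; field_simp
      _ ≤ c (m + 1) (m + 2) * (49 / 100 / Gm m) := by
          have gG := Gm_pos m
          exact mul_le_mul_of_nonneg_right hc1 (div_nonneg (by norm_num) gG.le)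
      _ ≤ _ := mul_le_mul_of_nonneg_left g1 hcc0
  have k4 : 1 / (2 * (RR (m + 2) : ℝ) ^ 9) * (49 / 100 * al m / Gm m)
      * Real.exp (49 / 100 / 2 ^ 11 * om (m + 1) - bb (m + 1)
      - (2 * SG (m + 1) + K * (RR (m + 2) : ℝ) ^ 4 + 2) * Dm m)
      ≤ p (m + 1) / c m (m + 1) * (a m t0 - a m s1 - 2 * lam K m * a m t0 * Dm m)
        * Real.exp (c (m + 1) (m + 2) * (II a (m + 1) s - II a (m + 1) s1)
          - (2 * SG (m + 1) + K * (RR (m + 2) : ℝ) ^ 4 + 2) * Dm m) := by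
    have g1 := hc.p_lo (m + 1) (by omega)
    have g2 : 1 / (2 * (RR (m + 2) : ℝ) ^ 9) * (49 / 100 * al m / Gm m)
      * Real.exp (49 / 100 / 2 ^ 11 * om (m + 1) - bb (m + 1)
      - (2 * SG (m + 1) + K * (RR (m + 2) : ℝ) ^ 4 + 2) * Dm m)
      = Real.exp (-bb (m + 1)) / (2 * (RR (m + 2) : ℝ) ^ 9) / Gm m * (49 / 100 * al m)
        * Real.exp (49 / 100 / 2 ^ 11 * om (m + 1)
          - (2 * SG (m + 1) + K * (RR (m + 2) : ℝ) ^ 4 + 2) * Dm m) := by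
      have : 49 / 100 / 2 ^ 11 * om (m + 1) - bb (m + 1)
          - (2 * SG (m + 1) + K * (RR (m + 2) : ℝ) ^ 4 + 2) * Dm m
          = -bb (m + 1) + (49 / 100 / 2 ^ 11 * om (m + 1)
          - (2 * SG (m + 1) + K * (RR (m + 2) : ℝ) ^ 4 + 2) * Dm m) := by ring
      rw [this, Real.exp_add]
      ring
    rw [g2]
    have g3 : Real.exp (-bb (m + 1)) / (2 * (RR (m + 2) : ℝ) ^ 9) / Gm m
        ≤ p (m + 1) / c m (m + 1) :=
      div_le_div₀ (h.p0 _) g1 hc0 hcu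
    have g4 : Real.exp (49 / 100 / 2 ^ 11 * om (m + 1)
          - (2 * SG (m + 1) + K * (RR (m + 2) : ℝ) ^ 4 + 2) * Dm m)
        ≤ Real.exp (c (m + 1) (m + 2) * (II a (m + 1) s - II a (m + 1) s1)
          - (2 * SG (m + 1) + K * (RR (m + 2) : ℝ) ^ 4 + 2) * Dm m) :=
      Real.exp_le_exp.2 (sub_le_sub_right k3 _)
    have g5 : 0 ≤ p (m + 1) / c m (m + 1) := div_nonneg (h.p0 _) hc0.le
    have g6 : 0 ≤ 49 / 100 * al m := mul_nonneg (by norm_num) hal.le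
    exact mul_le_mul (mul_le_mul g3 k1 g6 g5) g4 (Real.exp_pos _).le
      (mul_nonneg g5 (g6.trans k1))
  have k5 := hp.f10
  linarith only [hg, hzs, k4, k5]

/-- **one stage of the cascade** -/
theorem St.next2 (hplan : S_plan) (hgrow : S_grow) (hs : St a S T m t0)
    (h : Sys l1 c Gm p ν Te a S W) (hte : t0 ≤ Te) (hc : CH c p ν K)
    (hK : 0 ≤ K) (hT : 0 < T) (hT1 : T ≤ 1) (hm : 2 ≤ m) (hlm : l1 + 1 ≤ m) (hp : Par K T m)
    (ha0 : 0 ≤ a (m + 1) 0) (ha1 : 0 ≤ a (m + 2) 0) (hz0 : tl a S (m + 2) 0 ≤ 0) :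
    (∃ t1, t1 ≤ Te ∧ St a S T (m + 1) t1) ∨
    (Te < t0 + Dm m ∧ (∀ t ∈ Icc 0 Te, tl a S (m + 2) t ≤ rr (m + 1) ^ 2) ∧
      Ph Gm a (m + 1) Te ≤ Bm (m + 1)) := by
  obtain ⟨f1, f2, f3, f4, f5⟩ := hs.start2 h hte hc hT hT1 hm hlm hp ha0 hz0
  have h1 := hs.tT' hp hT
  have hD := Dm_pos m
  have hal := al_pos m
  have hX : 0 < a m t0 := lt_of_lt_of_le hal hs.X
  have hR := RR_pos m
  set Tz : ℝ := min (t0 + Dm m) Te with hTz
  have hTz1 : Tz ≤ t0 + Dm m := min_le_left _ _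
  have hTz2 : Tz ≤ Te := min_le_right _ _
  have hTz0 : t0 ≤ Tz := le_min (le_add_of_nonneg_right hD.le) hte
  set Bad : Set ℝ := {t | t ∈ Icc t0 Tz ∧
    (rr (m + 1) ^ 2 ≤ tl a S (m + 2) t ∨ a m t ≤ 0)} with hBad
  rcases Set.eq_empty_or_nonempty Bad with hcon | hne
  · right
    have g0 : ∀ t ∈ Icc t0 Tz, tl a S (m + 2) t < rr (m + 1) ^ 2 ∧ 0 < a m t := by
      intro t ht
      by_contra h2
      have : t ∈ Bad := by
        refine ⟨ht, ?_⟩
        by_contra h3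
        push Not at h3
        exact h2 h3
      rw [hcon] at this
      exact this
    have hx : ∀ t ∈ Icc t0 Tz, 0 ≤ a m t := fun t ht => (g0 t ht).2.le
    have hZ : ∀ t ∈ Icc t0 Tz, tl a S (m + 2) t ≤ rr (m + 1) ^ 2 :=
      fun t ht => (g0 t ht).1.le
    rcases lt_or_ge Te (t0 + Dm m) with hlt | hge
    · have hTze : Tz = Te := min_eq_right hlt.le
      refine ⟨hlt, fun t ht => ?_, ?_⟩
      · rcases le_total t t0 with hle | hge
        · exact (f2 t ⟨ht.1, hle⟩).le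
        · exact hZ t ⟨hge, by rw [hTze]; exact ht.2⟩
      · have := hs.phnext2 hplan h hte hc hK hT hT1 hm hlm hp ha0 hz0 hTz0 hTz1 hTz2 hx hZ
        rwa [hTze] at this
    exfalso
    have hTzD : Tz = t0 + Dm m := min_eq_left hge
    rw [hTzD] at hx hZ hTz2
    have hy := hs.good2 hplan h hte hc hK hT hT1 hm hlm hp ha0 hz0 le_rfl hTz2 hx hZ
    have hpl := hs.plan2 h hte hc hK hT hT1 hm hlm hp ha0 hz0 (le_add_of_nonneg_right hD.le) le_rfl
      hTz2 hx hy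
    obtain ⟨_, _, _, e4, _⟩ := hplan _ _ _ _ _ _ _ _ _ _ _ _ _ hpl
    have hcl := hc.c_lo m
    have g1 : Real.log (rr m / 2) ≤ Real.log (a (m + 1) t0) :=
      Real.log_le_log (half_pos (rr_pos m)) f3
    have g2 : Real.log (rr m / 2) = -Real.log (1 / rr m) - Real.log 2 := by
      rw [Real.log_div (rr_pos m).ne' (by norm_num), Real.log_div one_ne_zero (rr_pos m).ne',
        Real.log_one]
      ring
    have g3 : Real.log 2 < 1 := by
      have := Real.log_two_lt_d9; linarith only [this]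
    have g4 : 2 * (Real.log (1 / rr m) + 3) ≤ c m (m + 1) * a m t0 * Dm m := by
      have e : Dm m * ((RR m : ℝ) ^ 5 * al m) = 4 * (Real.log (1 / rr m) + 3) := by
        unfold Dm; field_simp
      have : (RR m : ℝ) ^ 5 / 2 * al m ≤ c m (m + 1) * a m t0 :=
        mul_le_mul hcl hs.X hal.le ((by positivity : (0:ℝ) ≤ _).trans hcl)
      calc 2 * (Real.log (1 / rr m) + 3) = (RR m : ℝ) ^ 5 / 2 * al m * Dm m := by
            linarith only [e]
        _ ≤ _ := mul_le_mul_of_nonneg_right this hD.le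
    have g5 := log_rr m
    have e6 : 9 / 10 * c m (m + 1) * a m t0 * (t0 + Dm m - t0)
        = 9 / 10 * (c m (m + 1) * a m t0 * Dm m) := by ring
    rw [e6] at e4
    linarith only [e4, g1, g2, g3, g4, g5]
  left
  have hclosed : IsClosed Bad := by
    have e : Bad = Icc t0 Tz ∩ ({t | rr (m + 1) ^ 2 ≤ tl a S (m + 2) t}
        ∪ {t | a m t ≤ 0}) := rfl
    rw [e]
    exact isClosed_Icc.inter ((isClosed_le continuous_const (h.tl_cont _)).union
      (isClosed_le (h.cont m) continuous_const))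
  have hbdd : BddBelow Bad := ⟨t0, fun t ht => ht.1.1⟩
  set t1 := sInf Bad with ht1
  have ht1B : t1 ∈ Bad := hclosed.csInf_mem hne hbdd
  have hbef : ∀ t ∈ Ico t0 t1, tl a S (m + 2) t < rr (m + 1) ^ 2 ∧ 0 < a m t := by
    intro t ht
    by_contra h2
    have : t ∈ Bad := by
      refine ⟨⟨ht.1, ht.2.le.trans ht1B.1.2⟩, ?_⟩
      by_contra h3
      push Not at h3
      exact h2 h3
    exact absurd (csInf_le hbdd this) (not_le.2 ht.2)
  have ht01 : t0 < t1 := by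
    refine lt_of_le_of_ne ht1B.1.1 fun he => ?_
    rcases ht1B.2 with h2 | h2
    · rw [← he] at h2
      exact absurd (f2 t0 ⟨hs.nn, le_rfl⟩) (not_lt.2 h2)
    · rw [← he] at h2
      exact absurd hX (not_lt.2 h2)
  have hcl1 : t1 ∈ closure (Ico t0 t1) := by
    rw [closure_Ico ht01.ne]; exact ⟨ht01.le, le_rfl⟩
  have hx1 : 0 ≤ a m t1 := by
    have hc1 : IsClosed {t : ℝ | 0 ≤ a m t} := isClosed_le continuous_const (h.cont m)
    exact hc1.closure_subset_iff.2 (fun t ht => (hbef t ht).2.le) hcl1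
  have hZ1 : tl a S (m + 2) t1 ≤ rr (m + 1) ^ 2 := by
    have hc1 : IsClosed {t : ℝ | tl a S (m + 2) t ≤ rr (m + 1) ^ 2} :=
      isClosed_le (h.tl_cont _) continuous_const
    exact hc1.closure_subset_iff.2 (fun t ht => (hbef t ht).1.le) hcl1
  have hx : ∀ t ∈ Icc t0 t1, 0 ≤ a m t := by
    intro t ht
    rcases eq_or_lt_of_le ht.2 with he | hl
    · rw [he]; exact hx1
    · exact (hbef t ⟨ht.1, hl⟩).2.le
  have hZ : ∀ t ∈ Icc t0 t1, tl a S (m + 2) t ≤ rr (m + 1) ^ 2 := by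
    intro t ht
    rcases eq_or_lt_of_le ht.2 with he | hl
    · rw [he]; exact hZ1
    · exact (hbef t ⟨ht.1, hl⟩).1.le
  have ht1e : t1 ≤ Te := ht1B.1.2.trans hTz2
  have ht1D : t1 ≤ t0 + Dm m := ht1B.1.2.trans hTz1
  have hpos := hs.pos2 hplan hgrow h hte hc hK hT hT1 hm hlm hp ha0 ha1 hz0 ht01.le ht1D ht1e hx hZ
  have hZeq : tl a S (m + 2) t1 = rr (m + 1) ^ 2 := by
    rcases ht1B.2 with h2 | h2
    · exact le_antisymm hZ1 h2
    · exact absurd hpos (not_lt.2 h2)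
  have hy := hs.good2 hplan h hte hc hK hT hT1 hm hlm hp ha0 hz0 ht1D ht1e hx hZ
  have hpl := hs.plan2 h hte hc hK hT hT1 hm hlm hp ha0 hz0 ht01.le ht1D ht1e hx hy
  obtain ⟨_, _, e3, _, _⟩ := hplan _ _ _ _ _ _ _ _ _ _ _ _ _ hpl
  have hr := rr_pos (m + 1)
  have hlog : 0 ≤ Real.log (2 / rr (m + 1)) := Real.log_nonneg (by
    rw [le_div_iff₀ hr]
    have := rr_le (m + 1)
    linarith only [this])
  have ht1T : t1 < T := by linarith only [ht1D, h1.1, h1.2]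
  have ht10 : 0 ≤ t1 := hs.nn.trans ht01.le
  have hφ : bb (m + 1) - Real.log (2 / rr (m + 1)) - 1 ≤ Ph Gm a (m + 1) t1 := by
    rcases le_or_gt (bb (m + 1) - 1) (Ph Gm a (m + 1) t1) with hge | hlt
    · linarith only [hge, hlog]
    · obtain ⟨g1, g2⟩ := star h hc (by omega) (by omega) ha0 hz0 ⟨ht10, ht1e⟩ hlt.le t1 ⟨ht10, le_rfl⟩
      have g3 : rr (m + 1) ^ 2 ≤ (Real.exp (Ph Gm a (m + 1) t1 - bb (m + 1)) * a (m + 1) t1) ^ 2 := by
        rw [← hZeq]; exact g2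
      have g4 : rr (m + 1) ≤ Real.exp (Ph Gm a (m + 1) t1 - bb (m + 1)) * a (m + 1) t1 :=
        abs_le_of_sq_le_sq' g3 (mul_nonneg (Real.exp_pos _).le g1) |>.2
      have g5 := (le_abs_self _).trans (h.ab_le (t := t1) ⟨ht10, ht1e⟩ (l := m + 1) (by omega))
      have g6 : rr (m + 1) / 2 ≤ Real.exp (Ph Gm a (m + 1) t1 - bb (m + 1)) := by
        exact St.aux_g6 (Real.exp_pos _) g4 g5
      have g7 : Real.log (rr (m + 1) / 2) ≤ Ph Gm a (m + 1) t1 - bb (m + 1) := by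
        rw [Real.log_le_iff_le_exp (half_pos hr)]
        exact g6
      have g8 : Real.log (2 / rr (m + 1)) = -Real.log (rr (m + 1) / 2) := by
        rw [← Real.log_inv, inv_div]
      linarith only [g7, g8]
  have hyl := e3 (hs.angle2 h hte hc hT hT1 hm hlm hp ha0 hz0 ht01.le ht1D ht1e hφ)
  refine ⟨t1, ht1e, ht10, ht1D.trans h1.1, ?_, hZeq, fun t ht => ?_,
    hs.phnext2 hplan h hte hc hK hT hT1 hm hlm hp ha0 hz0 ht01.le ht1D ht1e hx hZ⟩
  · rw [al_succ]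
    have := hs.X
    have h5 : al m / 2 ^ 29 ≤ a m t0 / 2 ^ 29 := div_le_div_of_nonneg_right this (by norm_num)
    exact h5.trans hyl
  · rcases le_total t t0 with hle | hge
    · exact (f2 t ⟨ht.1, hle⟩).le
    · exact hZ t ⟨hge, ht.2⟩

end

theorem s_nxt (hplan : S_plan) (hgrow : S_grow) : S_nxt := by
  intro l1 c p ν T T1 K a S W m t0 hs ht0 _ h hc hK hT hT1 hm hlm hp ha0 ha1 hz0
  exact hs.next2 hplan hgrow h ht0 hc hK hT hT1 hm hlm hp ha0 ha1 hz0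

end Pool.Agent.H226.GB

end
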