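import Pool.Agent.H226.GM.Spc12
import Pool.Agent.H226.GM.Cons

/-! ## Unb -/

section

/-!
All norms are unbounded if the cascade is complete (helper42).
-/

set_option autoImplicit false

open MeasureTheory Set Filter Topology
open scoped ContDiff ENNReal
open H459R3.NS

namespace Pool.Agent.H226.GB

/-- the powers of the frequencies dominate the thresholds -/
theorem unb_grow {r : ℝ} (hr : 0 < r) (K : ℝ) (m0 : ℕ) :
    ∃ m, m0 ≤ m ∧ K < (RR m : ℝ) ^ (2 * r) * al m := by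
  obtain ⟨n, hn⟩ := pow_unbounded_of_one_lt K (one_lt_two : (1 : ℝ) < 2)
  obtain ⟨n1, hn1⟩ := exists_nat_ge (15 / r)
  obtain ⟨m, hm⟩ : ∃ m, m = max m0 (max n n1) := ⟨_, rfl⟩
  have h0 : m0 ≤ m := hm ▸ le_max_left _ _
  have h1 : n ≤ m := hm ▸ (le_max_left _ _).trans (le_max_right _ _)
  have h2 : n1 ≤ m := hm ▸ (le_max_right _ _).trans (le_max_right _ _)
  refine ⟨m, h0, ?_⟩
  have hmr : 15 / r ≤ (m : ℝ) := hn1.trans (by exact_mod_cast h2)
  have h15 : 15 ≤ r * (m : ℝ) := by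
    rw [div_le_iff₀ hr] at hmr
    linarith
  have hm0 : (0 : ℝ) ≤ m := Nat.cast_nonneg m
  have e1 : (RR m : ℝ) ^ (2 * r) = (2 : ℝ) ^ (((m : ℝ) + 2) ^ 3 * (2 * r)) := by
    unfold RR
    rw [Nat.cast_pow, Nat.cast_ofNat, ← Real.rpow_natCast, ← Real.rpow_mul (by norm_num)]
    push_cast
    rfl
  have e2 : al m = (2 : ℝ) ^ (-(29 * (m : ℝ))) := by
    unfold al
    rw [Real.rpow_neg (by norm_num), Real.rpow_mul (by norm_num), Real.rpow_natCast, one_div,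
      inv_pow]
    congr 2
    norm_num
  rw [e1, e2, ← Real.rpow_add (by norm_num)]
  calc K < 2 ^ n := hn
    _ ≤ 2 ^ m := pow_le_pow_right₀ (by norm_num) h1
    _ = (2 : ℝ) ^ (m : ℝ) := (Real.rpow_natCast _ _).symm
    _ ≤ _ := by
      refine Real.rpow_le_rpow_of_exponent_le (by norm_num) ?_
      have h3 : (m : ℝ) ^ 2 ≤ ((m : ℝ) + 2) ^ 3 := by nlinarith [sq_nonneg (m : ℝ), pow_nonneg hm0 3]
      have h4 : (m : ℝ) ^ 2 * (2 * r) ≤ ((m : ℝ) + 2) ^ 3 * (2 * r) :=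
        mul_le_mul_of_nonneg_right h3 (by linarith)
      have h5 : 30 * (m : ℝ) ≤ (m : ℝ) ^ 2 * (2 * r) := by nlinarith
      linarith

theorem s_unb (h5 : S_hsb) (h0 : S_l3p) (h4 : S_scl2) (hI : S_int) (hb : Basis phi cc pp gg) :
    S_unb := by
  intro p m0 ν T δ u hp hT hδ hu hcas
  have hp1 : (1 : ℝ) ≤ p := by exact_mod_cast hp
  have hp0 : (0 : ℝ) ≤ p := by linarith
  have hU := h4 p ν T u hp hu
  have husp : ∀ t ∈ Ico 0 T, ∀ i, SP (fun x => u t x i) := fun t ht i => uniP_sp hu ht i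
  have hUsp : ∀ t ∈ Ico 0 T, ∀ i, SP (fun x => ((p : ℝ) • u t ((p : ℝ)⁻¹ • x)) i) :=
    fun t ht i => uni_sp hU ht i
  have hip : ∀ t ∈ Ico 0 T, ∀ m, ip (fun x => (p : ℝ) • u t ((p : ℝ)⁻¹ • x)) (phi m) =
      p * ∑ i, ∫ x in cube, u t x i * phi m ((p : ℝ) • x) i := fun t ht m =>
    bup_ip hI hb hp (hUsp t ht) m
  -- bounded coefficients are impossible
  have key : ∀ (r K : ℝ), 0 < r → (∀ t ∈ Ico 0 T, ∀ m : ℕ, (RR m : ℝ) ^ (2 * r) *
      |∑ i, ∫ x in cube, u t x i * phi m ((p : ℝ) • x) i| ≤ K) → False := by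
    intro r K hr hK
    obtain ⟨m, hm, hlt⟩ := unb_grow hr (p * K / δ) m0
    obtain ⟨t, ht, hge⟩ := hcas m hm
    rw [hip t ht m, abs_mul, abs_of_nonneg hp0] at hge
    have h1 := hK t ht m
    have hR : (0 : ℝ) ≤ (RR m : ℝ) ^ (2 * r) := Real.rpow_nonneg (Nat.cast_nonneg _) _
    have h2 := mul_le_mul_of_nonneg_left hge hR
    have h3 := mul_le_mul_of_nonneg_left h1 hp0
    rw [div_lt_iff₀ hδ] at hlt
    have h6 : (RR m : ℝ) ^ (2 * r) * ((p : ℝ) * |∑ i, ∫ x in cube, u t x i *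
        phi m ((p : ℝ) • x) i|) = (p : ℝ) * ((RR m : ℝ) ^ (2 * r) *
          |∑ i, ∫ x in cube, u t x i * phi m ((p : ℝ) • x) i|) := by ring
    have h7 : (RR m : ℝ) ^ (2 * r) * (δ * al m) = (RR m : ℝ) ^ (2 * r) * al m * δ := by ring
    linarith
  refine ⟨fun r hr B => ?_, fun B => ?_⟩
  · by_contra hcon
    push Not at hcon
    obtain ⟨C, hC, hco⟩ := bup_coef h5 hp (s := r) hr.le
    exact key r (Real.sqrt (C * max B 0)) hr fun t ht m =>
      hco (u t) (max B 0) (le_max_right _ _) (husp t ht)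
        ((hcon t ht).trans (ENNReal.ofReal_le_ofReal (le_max_left _ _))) m
  · by_contra hcon
    push Not at hcon
    obtain ⟨C, hC, hco⟩ := bup3_coef h0 hb hp
    refine key (1 / 2) (C * (max B 0) ^ (1 / 3 : ℝ)) (by norm_num) fun t ht m => ?_
    rw [mul_one_div_cancel two_ne_zero, Real.rpow_one]
    exact hco (u t) (max B 0) (le_max_right _ _) (husp t ht)
      ((hcon t ht).trans (le_max_left _ _)) m

end Pool.Agent.H226.GB

end
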