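import Pool.Agent.H226.GM.S

/-! ## Ode2 -/

section

/-!
Comparison of a level with the sum of the higher levels.
-/

open MeasureTheory Set Filter Topology

namespace Pool.Agent.H226.GB

lemma hasDerivAt_maxsq (x : ℝ) : HasDerivAt (fun y : ℝ => (max y 0) ^ 2) (2 * max x 0) x := by
  rcases lt_trichotomy x 0 with h | h | h
  · have h1 : (fun y : ℝ => (max y 0) ^ 2) =ᶠ[𝓝 x] fun _ => 0 := by
      filter_upwards [Iio_mem_nhds h] with y hy
      rw [max_eq_right (le_of_lt hy)]; simp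
    rw [max_eq_right h.le, mul_zero]
    exact (hasDerivAt_const x (0 : ℝ)).congr_of_eventuallyEq h1
  · subst h
    rw [hasDerivAt_iff_isLittleO_nhds_zero]
    simp only [zero_add, max_self, mul_zero, smul_zero, sub_zero, ne_eq, OfNat.ofNat_ne_zero,
      not_false_eq_true, zero_pow]
    refine Asymptotics.IsBigO.trans_isLittleO (g := fun h : ℝ => h ^ 2) ?_ ?_
    · refine Asymptotics.IsBigO.of_bound 1 (Filter.Eventually.of_forall fun y => ?_)
      rw [one_mul, Real.norm_eq_abs, Real.norm_eq_abs, abs_of_nonneg (sq_nonneg _),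
        abs_of_nonneg (sq_nonneg _)]
      rcases le_total y 0 with h | h
      · rw [max_eq_right h, zero_pow two_ne_zero]; exact sq_nonneg y
      · rw [max_eq_left h]
    · exact Asymptotics.isLittleO_pow_id one_lt_two
  · have h1 : (fun y : ℝ => (max y 0) ^ 2) =ᶠ[𝓝 x] fun y => y ^ 2 := by
      filter_upwards [Ioi_mem_nhds h] with y hy
      rw [max_eq_left (le_of_lt hy)]
    rw [max_eq_left h.le]
    have h2 := (hasDerivAt_pow 2 x).congr_of_eventuallyEq h1
    simpa using h2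

lemma hasDerivAt_minsq (x : ℝ) : HasDerivAt (fun y : ℝ => (min y 0) ^ 2) (2 * min x 0) x := by
  have h1 : (fun y : ℝ => (min y 0) ^ 2) = fun y => (max (-y) 0) ^ 2 := by
    funext y
    have : min y 0 = -max (-y) 0 := by
      rw [← neg_zero (G := ℝ)]
      rw [max_neg_neg, neg_neg, neg_zero]
    rw [this]; ring
  have h2 : min x 0 = -max (-x) 0 := by
    rw [← neg_zero (G := ℝ)]
    rw [max_neg_neg, neg_neg, neg_zero]
  rw [h1, h2]
  have h3 := (hasDerivAt_maxsq (-x)).comp x (hasDerivAt_neg x)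
  refine h3.congr_deriv ?_
  ring

/-- Gronwall's inequality for a nonnegative function which vanishes at the start -/
lemma gron_zero {V V' : ℝ → ℝ} {C τ : ℝ} (hc : ContinuousOn V (Icc 0 τ))
    (hd : ∀ u ∈ Ioo 0 τ, HasDerivAt V (V' u) u) (h : ∀ u ∈ Ioo 0 τ, V' u ≤ C * V u)
    (h0 : V 0 ≤ 0) {t : ℝ} (ht : t ∈ Icc 0 τ) : V t ≤ 0 := by
  have h1 := mono_of (f := fun s => -(V s * Real.exp (-C * s)))
    (f' := fun s => -(V' s * Real.exp (-C * s) + V s * (Real.exp (-C * s) * (-C))))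
    (s := 0) (t := τ) (hc.mul (by fun_prop)).neg (fun u hu => by
      refine ((hd u hu).mul ?_).neg
      have h2 : HasDerivAt (fun s => -C * s) (-C) u := by
        simpa using (hasDerivAt_id u).const_mul (-C)
      exact h2.exp) (fun u hu => by
      have h3 := h u hu
      have h4 := Real.exp_pos (-C * u)
      have h5 := mul_le_mul_of_nonneg_right h3 h4.le
      linarith) le_rfl ht.1 ht.2
  have h5 : -(V 0 * Real.exp (-C * 0)) ≤ -(V t * Real.exp (-C * t)) := h1
  rw [mul_zero, Real.exp_zero, mul_one] at h5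
  have h6 := Real.exp_pos (-C * t)
  by_contra h7
  push Not at h7
  have := mul_pos h7 h6
  linarith

/-- the algebra of the comparison -/
lemma ratio_alg {K y Z G σ p ν ν' w y' Z' : ℝ} (hK : 0 < K) (hK2 : K ≤ 1 / 2) (hy : 0 ≤ y)
    (hZ : K ^ 2 * y ^ 2 < Z) (hG : 0 ≤ G) (hp : 0 ≤ p) (hpK : p ≤ G * K / 4)
    (hν : 0 ≤ ν) (hνν : ν ≤ ν') (hw : 0 ≤ w) (hw2 : w ^ 2 ≤ Z)
    (hy' : -(σ * y) - ν * y - G * Z - p * y * w ≤ y')
    (hZ' : Z' ≤ 2 * (σ + G * y) * Z + 2 * (p * y ^ 2) * w - 2 * ν' * Z) :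
    (2 * σ + 25 / 8 * (G * y)) * (K ^ 2 * y ^ 2 - Z)
      ≤ 2 * K * (K * (2 * (σ + G * y))) * y ^ 2 + 2 * K ^ 2 * y * y' - Z' := by
  have hZ0 : 0 ≤ Z := (sq_nonneg w).trans hw2
  have h1 : K * y * w ≤ Z := by
    refine abs_le_of_sq_le_sq' ?_ hZ0 |>.2
    have : (K * y * w) ^ 2 = (K ^ 2 * y ^ 2) * w ^ 2 := by ring
    rw [this]
    calc (K ^ 2 * y ^ 2) * w ^ 2 ≤ Z * Z := by gcongr
      _ = Z ^ 2 := by ring
  have h2 : p * y * w ≤ G * Z / 4 := by
    calc p * y * w ≤ G * K / 4 * y * w := by gcongr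
      _ = G / 4 * (K * y * w) := by ring
      _ ≤ G / 4 * Z := by gcongr
      _ = _ := by ring
  have h3 : -(σ * y) - ν * y - 5 / 4 * (G * Z) ≤ y' := by linarith
  have h4 : 2 * K ^ 2 * y * (-(σ * y) - ν * y - 5 / 4 * (G * Z)) ≤ 2 * K ^ 2 * y * y' := by
    gcongr
  have h5 : K ^ 2 ≤ 1 / 4 := by
    have h51 : K ^ 2 ≤ (1 / 2) ^ 2 := pow_le_pow_left₀ hK.le hK2 2
    linarith
  have h6 : 2 * K ^ 2 * y * (5 / 4 * (G * Z)) ≤ 5 / 8 * (G * y * Z) := by
    have h61 : 0 ≤ G * y * Z := mul_nonneg (mul_nonneg hG hy) hZ0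
    have h62 : K ^ 2 * (G * y * Z) ≤ 1 / 4 * (G * y * Z) := mul_le_mul_of_nonneg_right h5 h61
    linarith
  have h7 : Z' ≤ 2 * (σ + G * y) * Z + 1 / 2 * (G * y * Z) - 2 * ν' * Z := by
    have : 2 * (p * y ^ 2) * w = 2 * y * (p * y * w) := by ring
    have h8 : 2 * y * (p * y * w) ≤ 2 * y * (G * Z / 4) :=
      mul_le_mul_of_nonneg_left h2 (by linarith)
    linarith
  have h9 : 0 ≤ K ^ 2 * G * y ^ 3 := by positivity
  have h10 : ν * (K ^ 2 * y ^ 2) ≤ ν' * Z := by
    have : 0 ≤ ν' := hν.trans hνν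
    exact mul_le_mul hνν hZ.le (by positivity) this
  linarith

/-- the algebra for negative `y` -/
lemma neg_alg {y y' Z D Sg G p νl ν1 Gs w S1 Wl q : ℝ} (hneg : y < 0) (hy2 : -y ≤ 2)
    (hZ0 : 0 ≤ Z) (hZ2 : Z ≤ 2) (hSg0 : 0 ≤ Sg) (hG : 0 ≤ G) (hp : 0 ≤ p)
    (hS : 2 * Sg + 4 * G ≤ 4 * Gs) (h1 : |S1| ≤ Sg) (hW : |Wl| ≤ G * Z) (hq : 0 ≤ q)
    (hw : |w| ≤ 2) (hν : 0 ≤ νl) (hν1 : 0 ≤ ν1)
    (ey : y' = (S1 - νl) * y - Wl + q - p * y * w)
    (hD : D ≤ 2 * (Sg + G * -y) * Z + 2 * (p * y ^ 2) * |w| - 2 * ν1 * Z) :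
    2 * y * y' + 2 * Z * D ≤ 20 * (Gs + p + 1) * (y ^ 2 + Z ^ 2) := by
  have e0 : 0 ≤ p * y ^ 2 := by positivity
  have k1 : 2 * y * y' ≤ (2 * Sg + G + 4 * p) * y ^ 2 + G * Z ^ 2 := by
    have a1 : S1 * y ^ 2 ≤ Sg * y ^ 2 := by
      have := (abs_le.1 h1).2
      gcongr
    have a2 : -(y * Wl) ≤ G * Z * (-y) := by
      have h5 : Wl * (-y) ≤ G * Z * (-y) :=
        mul_le_mul_of_nonneg_right (abs_le.1 hW).2 (by linarith)
      linarith
    have a3 : y * q ≤ 0 := mul_nonpos_of_nonpos_of_nonneg hneg.le hq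
    have a4 : -(p * y ^ 2 * w) ≤ 2 * (p * y ^ 2) := by
      have h5 : p * y ^ 2 * (-w) ≤ p * y ^ 2 * 2 :=
        mul_le_mul_of_nonneg_left (by linarith [(abs_le.1 hw).1]) e0
      linarith
    have a5 : 0 ≤ νl * y ^ 2 := mul_nonneg hν (sq_nonneg _)
    have a6 : 2 * (G * Z * (-y)) ≤ G * y ^ 2 + G * Z ^ 2 := by
      have h51 := sq_nonneg (Z + y)
      have h5 : G * (2 * (Z * (-y))) ≤ G * (y ^ 2 + Z ^ 2) :=
        mul_le_mul_of_nonneg_left (by linarith) hG
      linarith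
    have a7 : 2 * y * y' = 2 * (S1 * y ^ 2) - 2 * (νl * y ^ 2) + 2 * (-(y * Wl)) + 2 * (y * q)
        + 2 * (-(p * y ^ 2 * w)) := by
      rw [ey]; ring
    rw [a7]
    linarith
  have k2 : 2 * Z * D ≤ (4 * Sg + 8 * G) * Z ^ 2 + 16 * (p * y ^ 2) := by
    have b1 : D ≤ 2 * (Sg + 2 * G) * Z + 4 * (p * y ^ 2) := by
      have c1 : G * -y ≤ G * 2 := mul_le_mul_of_nonneg_left hy2 hG
      have c2 : (Sg + G * -y) * Z ≤ (Sg + 2 * G) * Z :=
        mul_le_mul_of_nonneg_right (by linarith) hZ0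
      have c3 : (p * y ^ 2) * |w| ≤ (p * y ^ 2) * 2 := mul_le_mul_of_nonneg_left hw e0
      have c4 : 0 ≤ ν1 * Z := mul_nonneg hν1 hZ0
      linarith
    have b2 : Z * D ≤ Z * (2 * (Sg + 2 * G) * Z + 4 * (p * y ^ 2)) :=
      mul_le_mul_of_nonneg_left b1 hZ0
    have b4 : Z * (p * y ^ 2) ≤ 2 * (p * y ^ 2) := mul_le_mul_of_nonneg_right hZ2 e0
    linarith
  have k3 : 0 ≤ y ^ 2 := sq_nonneg _
  have k4 : 0 ≤ Z ^ 2 := sq_nonneg _
  have k5 : (2 * Sg + G + 20 * p) * y ^ 2 ≤ 20 * (Gs + p + 1) * y ^ 2 :=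
    mul_le_mul_of_nonneg_right (by linarith) k3
  have k6 : (4 * Sg + 9 * G) * Z ^ 2 ≤ 20 * (Gs + p + 1) * Z ^ 2 :=
    mul_le_mul_of_nonneg_right (by linarith) k4
  linarith

/-- the time integral of `|a n|` -/
noncomputable def II (a : ℕ → ℝ → ℝ) (n : ℕ) (t : ℝ) : ℝ := ∫ s in (0 : ℝ)..t, |a n s|

/-- the exponent of the comparison -/
noncomputable def Ph (G : ℕ → ℝ) (a : ℕ → ℝ → ℝ) (l : ℕ) (t : ℝ) : ℝ :=
  2 * ∑ n ∈ Finset.range (l + 1), G n * II a n t

section

variable {c : ℕ → ℕ → ℝ} {G p ν : ℕ → ℝ} {T : ℝ} {a : ℕ → ℝ → ℝ} {S : ℝ → ℝ} {W : ℕ → ℝ → ℝ}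

lemma II_der {n : ℕ} (hc : Continuous (a n)) (t : ℝ) : HasDerivAt (II a n) |a n t| t :=
  intervalIntegral.integral_hasDerivAt_right (hc.abs.intervalIntegrable _ _)
    hc.abs.aestronglyMeasurable.stronglyMeasurableAtFilter hc.abs.continuousAt

lemma II_zero (n : ℕ) : II a n 0 = 0 := by simp [II]

lemma II_mono {n : ℕ} (hc : Continuous (a n)) : Monotone (II a n) :=
  monotone_of_hasDerivAt_nonneg (fun t => II_der hc t) fun _ => abs_nonneg _

lemma II_nonneg {n : ℕ} (hc : Continuous (a n)) {t : ℝ} (ht : 0 ≤ t) : 0 ≤ II a n t := by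
  have := II_mono hc ht
  rwa [II_zero] at this

lemma Ph_der (hc : ∀ m, Continuous (a m)) (l : ℕ) (t : ℝ) :
    HasDerivAt (Ph G a l) (2 * ∑ n ∈ Finset.range (l + 1), G n * |a n t|) t := by
  unfold Ph
  refine HasDerivAt.const_mul _ ?_
  exact HasDerivAt.fun_sum fun n _ => (II_der (hc n) t).const_mul _

lemma Ph_zero (l : ℕ) : Ph G a l 0 = 0 := by simp [Ph, II_zero]

lemma Ph_mono (hG : ∀ n, 0 ≤ G n) (hc : ∀ m, Continuous (a m)) (l : ℕ) : Monotone (Ph G a l) :=
  monotone_of_hasDerivAt_nonneg (fun t => Ph_der hc l t) fun t => by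
    have : 0 ≤ ∑ n ∈ Finset.range (l + 1), G n * |a n t| :=
      Finset.sum_nonneg fun n _ => mul_nonneg (hG n) (abs_nonneg _)
    simpa using this

lemma Ph_succ (l : ℕ) (t : ℝ) : Ph G a (l + 1) t = Ph G a l t + 2 * (G (l + 1) * II a (l + 1) t) := by
  unfold Ph
  rw [Finset.sum_range_succ _ (l + 1)]
  ring

/-- lower and upper bounds for the derivative of one component -/
lemma Sys0.der_bd (h : Sys0 c G p ν T a S W) (t : ℝ) (l : ℕ) :
    |(∑ n ∈ Finset.range l, c n l * a n t)| ≤ ∑ n ∈ Finset.range l, G n * |a n t| := by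
  refine (Finset.abs_sum_le_sum_abs _ _).trans (Finset.sum_le_sum fun n hn => ?_)
  rw [abs_mul]
  have := h.cG n l (Finset.mem_range.1 hn)
  gcongr

lemma Sys0.W_bd (h : Sys0 c G p ν T a S W) {t : ℝ} (ht : t ∈ Icc 0 T) (l : ℕ) :
    |W l t| ≤ G l * tl a S (l + 1) t := by
  have h1 := h.abs_rw_le ht (Nat.lt_succ_self l)
  have e : rw' c a W l (l + 1) t = W l t := by simp [rw']
  rwa [e] at h1

/-- **Comparison**: as long as the exponent `Ph` is below `b - 1`, the higher levels are small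
compared to the level `l`, which is nonnegative. -/
theorem Sys.ratio {l1 : ℕ} (h : Sys l1 c G p ν T a S W) {l : ℕ} (hl : l1 ≤ l) {b τ : ℝ} (hτ : τ ∈ Icc 0 T)
    (hp : p l ≤ G l * Real.exp (-b) / 4) (ha0 : 0 ≤ a l 0) (hz0 : tl a S (l + 1) 0 ≤ 0)
    (hΦ : Ph G a l τ ≤ b - 1) : ∀ t ∈ Icc 0 τ, 0 ≤ a l t ∧
      tl a S (l + 1) t ≤ (Real.exp (Ph G a l t - b) * a l t) ^ 2 := by
  set Gs := ∑ n ∈ Finset.range (l + 1), G n with hGs
  set K : ℝ → ℝ := fun t => Real.exp (Ph G a l t - b) with hKdef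
  set Q : ℝ → ℝ := fun t => K t ^ 2 * (max (a l t) 0) ^ 2 - tl a S (l + 1) t with hQdef
  set V : ℝ → ℝ := fun t => (min (a l t) 0) ^ 2 + (min (Q t) 0) ^ 2 with hVdef
  have hKc : Continuous K := by
    have : Continuous (Ph G a l) :=
      continuous_iff_continuousAt.2 fun t => (Ph_der h.cont l t).continuousAt
    exact Real.continuous_exp.comp (this.sub continuous_const)
  have htc : Continuous (tl a S (l + 1)) := by
    unfold tl
    exact h.contS.sub (continuous_finsetSum _ fun j _ => (h.cont j).pow 2)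
  have hQc : Continuous Q := by
    have := h.cont l
    fun_prop
  have hVc : Continuous V := by
    have := h.cont l
    fun_prop
  have hG0 := h.G0
  have hτT : ∀ t ∈ Icc 0 τ, t ∈ Icc 0 T := fun t ht => ⟨ht.1, ht.2.trans hτ.2⟩
  -- the main inequality
  have main : ∀ t ∈ Icc 0 τ, V t ≤ 0 := by
    intro t ht
    have key : ∀ u ∈ Ioo 0 τ, ∃ V', HasDerivAt V V' u ∧ V' ≤ 20 * (Gs + p l + 1) * V u := by
      intro u hu
      have huT : u ∈ Ioo 0 T := ⟨hu.1, hu.2.trans_le hτ.2⟩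
      have huT' : u ∈ Icc 0 T := ⟨huT.1.le, huT.2.le⟩
      obtain ⟨D, hD, hD'⟩ := h.tl_der_le huT (l + 1)
      have hda := h.der u huT l
      set y := a l u with hy
      set y' := (∑ n ∈ Finset.range l, c n l * a n u - ν l) * a l u - W l u + pm p a l u
        - p l * a l u * a (l + 1) u with hy'
      set Z := tl a S (l + 1) u with hZ
      set Sg := ∑ n ∈ Finset.range l, G n * |a n u| with hSg
      have hZ0 : 0 ≤ Z := h.tl_nonneg huT' _
      have hZ2 : Z ≤ 2 := h.tl_le huT' (by omega)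
      have hy2 : |y| ≤ 2 := h.ab_le huT' hl
      have hw2 : a (l + 1) u ^ 2 ≤ Z := h.sq_le_tl huT' _
      have hwa : |a (l + 1) u| ≤ 2 := h.ab_le huT' (by omega)
      have hSg0 : 0 ≤ Sg := Finset.sum_nonneg fun n _ => mul_nonneg (hG0 n) (abs_nonneg _)
      have hGl : 0 ≤ G l := hG0 l
      have hSg2 : 2 * Sg + 4 * G l ≤ 4 * Gs := by
        rw [hGs, Finset.sum_range_succ]
        have : Sg ≤ 2 * ∑ n ∈ Finset.range l, G n := h.str_le huT' hl
        linarith
      have hpl := h.p0 l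
      have hca := h.der_bd u l
      have hW := h.W_bd huT' l
      have hpm := pm_nonneg (a := a) h.p0 l u
      have hpm1 : pm p a (l + 1) u = p l * y ^ 2 := by
        unfold pm
        rw [if_neg (Nat.succ_ne_zero l)]
        simp [hy]
      have hsum : ∑ n ∈ Finset.range (l + 1), G n * |a n u| = Sg + G l * |y| := by
        rw [Finset.sum_range_succ]
      rw [hsum, hpm1] at hD'
      have hKd : HasDerivAt K (K u * (2 * (Sg + G l * |y|))) u := by
        have h1 := ((Ph_der (G := G) h.cont l u).sub_const b).exp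
        rw [hsum] at h1
        exact h1
      have hK0 : 0 < K u := Real.exp_pos _
      have hK2 : K u ≤ 1 / 2 := by
        have h1 : Ph G a l u ≤ Ph G a l τ := Ph_mono hG0 h.cont l hu.2.le
        have h2 : K u ≤ Real.exp (-1) := Real.exp_le_exp.2 (by linarith)
        have h3 : Real.exp (-1) ≤ 1 / 2 := by
          rw [Real.exp_neg, ← one_div]
          have := Real.add_one_le_exp (1 : ℝ)
          gcongr
          linarith
        linarith
      have hKb : Real.exp (-b) ≤ K u := by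
        refine Real.exp_le_exp.2 ?_
        have : 0 ≤ Ph G a l u := by
          have := Ph_mono hG0 h.cont l hu.1.le
          rwa [Ph_zero] at this
        linarith
      have hym := (hasDerivAt_minsq y).comp u hda
      have hyp := (hasDerivAt_maxsq y).comp u hda
      have hQd : HasDerivAt Q (2 * K u * (K u * (2 * (Sg + G l * |y|))) * (max y 0) ^ 2
          + K u ^ 2 * (2 * max y 0 * y') - D) u := by
        have h1 := ((hKd.pow 2).mul hyp).sub hD
        refine h1.congr_deriv ?_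
        simp only [Function.comp, Pi.pow_apply, ← hy]
        push_cast
        ring
      have hVd : HasDerivAt V (2 * min y 0 * y' + 2 * min (Q u) 0 *
          (2 * K u * (K u * (2 * (Sg + G l * |y|))) * (max y 0) ^ 2
          + K u ^ 2 * (2 * max y 0 * y') - D)) u := by
        have h1 := (hasDerivAt_minsq (Q u)).comp u hQd
        exact hym.add h1
      refine ⟨_, hVd, ?_⟩
      have hVu : V u = (min y 0) ^ 2 + (min (Q u) 0) ^ 2 := rfl
      have hQu : Q u = K u ^ 2 * (max y 0) ^ 2 - Z := rfl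
      rcases lt_or_ge y 0 with hneg | hpos
      · -- negative case
        have e1 : max y 0 = 0 := max_eq_right hneg.le
        have e2 : min y 0 = y := min_eq_left hneg.le
        rw [e1] at hQu
        have hQu' : Q u = -Z := by rw [hQu]; ring
        have e3 : min (Q u) 0 = -Z := by rw [hQu']; exact min_eq_left (by linarith)
        rw [hVu, e1, e2, e3]
        have hyabs : |y| = -y := abs_of_neg hneg
        rw [hyabs] at hD' hy2
        have hal := neg_alg (y := y) (y' := y') (Z := Z) (D := D) (Sg := Sg) (G := G l)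
          (p := p l) (νl := ν l) (ν1 := ν (l + 1)) (Gs := Gs) (w := a (l + 1) u)
          (S1 := ∑ n ∈ Finset.range l, c n l * a n u) (Wl := W l u) (q := pm p a l u)
          hneg hy2 hZ0 hZ2 hSg0 hGl hpl hSg2 hca hW hpm hwa (h.ν0 l) (h.ν0 _) hy' hD'
        have e5 : 2 * y * y' + 2 * -Z * (2 * K u * (K u * (2 * (Sg + G l * |y|))) * 0 ^ 2
            + K u ^ 2 * (2 * 0 * y') - D) = 2 * y * y' + 2 * Z * D := by ring
        have e6 : y ^ 2 + (-Z) ^ 2 = y ^ 2 + Z ^ 2 := by ring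
        rw [e5, e6]
        exact hal
      · have e2 : min y 0 = 0 := min_eq_right hpos
        have e1 : max y 0 = y := max_eq_left hpos
        rw [hVu, e2, e1]
        rcases le_or_gt 0 (Q u) with hq | hq
        · rw [min_eq_right hq]
          simp
        · rw [min_eq_left hq.le]
          rw [e1] at hQu
          have hyabs : |y| = y := abs_of_nonneg hpos
          rw [hyabs] at hD' ⊢
          have hal := ratio_alg (K := K u) (y := y) (Z := Z) (G := G l) (σ := Sg) (p := p l)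
            (ν := ν l) (ν' := ν (l + 1)) (w := |a (l + 1) u|) (y' := y') (Z' := D) hK0 hK2 hpos
            (by linarith) hGl hpl (by
              have : G l * Real.exp (-b) / 4 ≤ G l * K u / 4 := by gcongr
              linarith) (h.ν0 l) (h.νm (Nat.le_succ l)) (abs_nonneg _) (by rwa [sq_abs]) (by
              have a1 := (abs_le.1 hca).1
              have a2 := (abs_le.1 hW).2
              have a3 : p l * y * a (l + 1) u ≤ p l * y * |a (l + 1) u| :=
                mul_le_mul_of_nonneg_left (le_abs_self _) (mul_nonneg hpl hpos)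
              have a4 : -(Sg * y) ≤ (∑ n ∈ Finset.range l, c n l * a n u) * y := by
                rw [← neg_mul]
                exact mul_le_mul_of_nonneg_right a1 hpos
              have e5 : y' = (∑ n ∈ Finset.range l, c n l * a n u) * y - ν l * y - W l u
                  + pm p a l u - p l * y * a (l + 1) u := by rw [hy']; ring
              rw [e5]
              linarith) hD'
          rw [← hQu] at hal
          have e6 : 2 * K u * (K u * (2 * (Sg + G l * y))) * y ^ 2 + K u ^ 2 * (2 * y * y') - D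
              = 2 * K u * (K u * (2 * (Sg + G l * y))) * y ^ 2 + 2 * K u ^ 2 * y * y' - D := by
            ring
          rw [e6]
          set R := 2 * K u * (K u * (2 * (Sg + G l * y))) * y ^ 2 + 2 * K u ^ 2 * y * y' - D
            with hR
          have k1 : 2 * Q u * R ≤ 2 * Q u * ((2 * Sg + 25 / 8 * (G l * y)) * Q u) :=
            mul_le_mul_of_nonpos_left hal (by linarith)
          have k2 : 2 * Sg + 25 / 8 * (G l * y) ≤ 10 * (Gs + p l + 1) := by
            have : G l * y ≤ G l * 2 := by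
              rw [hyabs] at hy2
              gcongr
            have hGs0 : 0 ≤ Gs := Finset.sum_nonneg fun n _ => hG0 n
            linarith
          have k3 : (2 * Sg + 25 / 8 * (G l * y)) * (Q u) ^ 2
              ≤ 10 * (Gs + p l + 1) * (Q u) ^ 2 := mul_le_mul_of_nonneg_right k2 (sq_nonneg _)
          calc 2 * 0 * y' + 2 * Q u * R = 2 * Q u * R := by ring
            _ ≤ 2 * Q u * ((2 * Sg + 25 / 8 * (G l * y)) * Q u) := k1
            _ = 2 * ((2 * Sg + 25 / 8 * (G l * y)) * (Q u) ^ 2) := by ring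
            _ ≤ 2 * (10 * (Gs + p l + 1) * (Q u) ^ 2) := mul_le_mul_of_nonneg_left k3 (by norm_num)
            _ = 20 * (Gs + p l + 1) * (0 ^ 2 + Q u ^ 2) := by ring
    choose! V' hV' using key
    refine gron_zero (V := V) (V' := V') (C := 20 * (Gs + p l + 1)) (τ := τ)
      hVc.continuousOn (fun u hu => (hV' u hu).1) (fun u hu => (hV' u hu).2) ?_ ht
    have hz0' : tl a S (l + 1) 0 = 0 :=
      le_antisymm hz0 (h.tl_nonneg ⟨le_rfl, hτ.1.trans hτ.2⟩ _)
    have e1 : Q 0 = K 0 ^ 2 * (max (a l 0) 0) ^ 2 := by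
      show K 0 ^ 2 * (max (a l 0) 0) ^ 2 - tl a S (l + 1) 0 = _
      rw [hz0', sub_zero]
    have e2 : 0 ≤ Q 0 := by rw [e1]; positivity
    show (min (a l 0) 0) ^ 2 + (min (Q 0) 0) ^ 2 ≤ 0
    rw [min_eq_right ha0, min_eq_right e2]
    simp
  intro t ht
  have h1 := main t ht
  have h2 : (min (a l t) 0) ^ 2 + (min (Q t) 0) ^ 2 ≤ 0 := h1
  have q1 := sq_nonneg (min (a l t) 0)
  have q2 := sq_nonneg (min (Q t) 0)
  have h3 : (min (a l t) 0) ^ 2 = 0 := le_antisymm (by linarith) q1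
  have h4 : (min (Q t) 0) ^ 2 = 0 := le_antisymm (by linarith) q2
  have h5 : min (a l t) 0 = 0 := by simpa using h3
  have h6 : min (Q t) 0 = 0 := by simpa using h4
  have h7 : 0 ≤ a l t := by rw [← h5]; exact min_le_left _ _
  have h8 : 0 ≤ Q t := by rw [← h6]; exact min_le_left _ _
  refine ⟨h7, ?_⟩
  have h9 : Q t = K t ^ 2 * (max (a l t) 0) ^ 2 - tl a S (l + 1) t := rfl
  rw [h9, max_eq_left h7] at h8
  rw [mul_pow]
  linarith

end

end Pool.Agent.H226.GB

end
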