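import Pool.Agent.H226.GM.S
import Pool.Agent.H226.GM.OdeB

/-! ## Spec12 -/

section

/-!
Interface, twelfth part: the cascade is complete before the maximal time.
-/

open MeasureTheory Set Filter Topology
open scoped ContDiff ENNReal
open H459R3.NS

namespace Pool.Agent.H226.GB

/-- one stage of the cascade, for a solution which exists up to the time `T1` only -/
def S_nxt : Prop := ∀ (l1 : ℕ) (c : ℕ → ℕ → ℝ) (p ν : ℕ → ℝ) (T T1 K : ℝ) (a : ℕ → ℝ → ℝ)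
  (S : ℝ → ℝ) (W : ℕ → ℝ → ℝ) (m : ℕ) (t0 : ℝ), St a S T m t0 → t0 ≤ T1 → T1 ≤ T →
  Sys l1 c Gm p ν T1 a S W → CH c p ν K → 0 ≤ K → 0 < T → T ≤ 1 → 2 ≤ m → l1 + 1 ≤ m →
  Par K T m → 0 ≤ a (m + 1) 0 → 0 ≤ a (m + 2) 0 → tl a S (m + 2) 0 ≤ 0 →
  (∃ t1, t1 ≤ T1 ∧ St a S T (m + 1) t1) ∨
    (T1 < t0 + Dm m ∧ (∀ t ∈ Icc 0 T1, tl a S (m + 2) t ≤ rr (m + 1) ^ 2) ∧
      Ph Gm a (m + 1) T1 ≤ Bm (m + 1))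

/-- if the threshold of the next stage is not reached, all exponents are bounded -/
def S_tls : Prop := ∀ (l1 : ℕ) (c : ℕ → ℕ → ℝ) (p ν : ℕ → ℝ) (T T1 K : ℝ) (a : ℕ → ℝ → ℝ)
  (S : ℝ → ℝ) (W : ℕ → ℝ → ℝ) (m : ℕ), Sys l1 c Gm p ν T1 a S W → CH c p ν K → 0 ≤ T1 →
  T1 ≤ 1 → 2 ≤ m → l1 + 1 ≤ m → (∀ l, m ≤ l → Par K T l) → (∀ l, m + 1 ≤ l → 0 ≤ a l 0) →
  (∀ l, m + 2 ≤ l → tl a S l 0 ≤ 0) → (∀ t ∈ Icc 0 T1, tl a S (m + 2) t ≤ rr (m + 1) ^ 2) →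
  Ph Gm a (m + 1) T1 ≤ Bm (m + 1) → ∀ l, Ph Gm a l T1 ≤ Bm (m + 1) + 2

/-- the cascade is complete before the maximal time `Ts` -/
def S_cas : Prop := ∀ (K T Ts : ℝ) (m0 : ℕ) (c : ℕ → ℕ → ℝ) (p ν : ℕ → ℝ) (a : ℕ → ℝ → ℝ)
  (S : ℝ → ℝ) (W : ℕ → ℝ → ℝ), 0 ≤ K → 0 < T → T ≤ 1 → 2 ≤ m0 → (∀ m, m0 ≤ m → Par K T m) →
  CH c p ν K → (∀ n l, n < l → |c n l| ≤ Gm n) → (∀ n, 0 ≤ p n) → (∀ n, 0 ≤ ν n) → Monotone ν →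
  0 < Ts → Ts ≤ T → (∀ T1 ∈ Ioo 0 Ts, Shell c p ν T1 a S W) →
  (∀ t ∈ Ico 0 Ts, tl a S (m0 - 1) t ≤ 2) →
  (∀ t ∈ Ico 0 Ts, ∑ n ∈ Finset.range (m0 - 1), Gm n * |a n t| ≤ 2 * SG (m0 - 1)) →
  al m0 ≤ a m0 0 → a (m0 + 1) 0 = rr m0 → (∀ m, m0 + 2 ≤ m → a m 0 = 0) →
  (∀ Λ : ℝ, ∃ T1 ∈ Ico 0 Ts, ∃ l : ℕ,
    Λ < ∫ s in (0 : ℝ)..T1, ∑ n ∈ Finset.range l, Gm n * |a n s|) →
  ∀ m, m0 ≤ m → ∃ t ∈ Ico 0 Ts, al m ≤ a m t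

/-- the sums of a solution -/
noncomputable def Sca (a : ℕ → ℝ → ℝ) (t : ℝ) : ℝ := ∑' m, a m t ^ 2

/-- the sums of a solution -/
noncomputable def Wca (c : ℕ → ℕ → ℝ) (a : ℕ → ℝ → ℝ) (m : ℕ) (t : ℝ) : ℝ :=
  ∑' l, if m < l then c m l * a l t ^ 2 else 0

/-- the sums may be replaced by the canonical ones -/
def S_can : Prop := ∀ (c : ℕ → ℕ → ℝ) (p ν : ℕ → ℝ) (T : ℝ) (a : ℕ → ℝ → ℝ) (S : ℝ → ℝ)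
  (W : ℕ → ℝ → ℝ), Shell c p ν T a S W → Shell c p ν T a (Sca a) (Wca c a)

/-- the cascade is complete before the maximal time `Ts`: the modes below `L` are arbitrary, the
modes between `L` and `m₀` vanish, the mode `m₀` is `al m₀ / A` and the next one is `rr m₀ / A`. -/
def S_bl2 : Prop := ∀ (K T B : ℝ) (L q : ℕ), 0 ≤ K → 0 < T → 0 ≤ B → 1 ≤ L → 1 ≤ q →
  ∃ m1 : ℕ, L + 1 ≤ m1 ∧ 3 ≤ m1 ∧ ∀ m0, m1 ≤ m0 → ∀ A : ℝ, 1 ≤ A →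
    A ≤ 2 ^ (5 * (m0 + 2) ^ 3 - (m0 + 2) ^ 3 / q) →
    K * A ≤ K * 2 ^ ((m0 + 2) ^ 3 - (m0 + 2) ^ 3 / q) →
    ∀ (c : ℕ → ℕ → ℝ) (p ν : ℕ → ℝ) (a : ℕ → ℝ → ℝ) (S : ℝ → ℝ) (W : ℕ → ℝ → ℝ) (Ts : ℝ),
    CH c p ν K → (∀ n l, n < l → |c n l| ≤ Gm n) → (∀ n, 0 ≤ p n) →
    (∀ n, p n ≤ Real.exp (-bb n)) → (∀ n, 0 ≤ ν n) → Monotone ν → 0 < Ts →
    (∀ T1 ∈ Ioo 0 Ts, Shell c p ν T1 a S W) →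
    (∀ T1 ∈ Ioo 0 Ts, ∃ B, ∀ t ∈ Icc 0 T1, ∀ m, (RR m : ℝ) * |a m t| ≤ B) →
    S 0 ≤ B ^ 2 → (∀ m, L ≤ m → m < m0 → a m 0 = 0) →
    a m0 0 = al m0 / A → a (m0 + 1) 0 = rr m0 / A → (∀ m, m0 + 2 ≤ m → a m 0 = 0) →
    (∀ Λ : ℝ, ∃ T1 ∈ Ico 0 Ts, ∃ l : ℕ,
      Λ < ∫ s in (0 : ℝ)..T1, ∑ n ∈ Finset.range l, Gm n * |a n s|) →
    ∀ m, m0 ≤ m → ∃ t ∈ Ico 0 Ts, al m / A ≤ a m t

/-- near every finite combination of the fields, in the norm of `H^s`, there are data without a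
smooth solution on `[0, T)`, for which the cascade is complete before the maximal time -/
def S_nos2 : Prop := ∀ (ν₀ T : ℝ) (b : ℕ → ℝ) (L e : ℕ) (s ε : ℝ), 0 ≤ ν₀ → 0 < T →
  (e = 1 ∨ e = 5 ∧ ν₀ = 0) → 0 ≤ s → s < e / 2 → 0 < ε →
  ∃ (M m0 : ℕ) (d : ℕ → ℝ) (δ : ℝ), 0 < δ ∧ L ≤ M ∧ (∀ m < L, d m = b m) ∧
    ∑ m ∈ Finset.Ico L M, (RR m : ℝ) ^ (4 * s) * d m ^ 2 < ε ∧
    (∀ ν, 0 ≤ ν → ν ≤ ν₀ → ∀ u, IsGal phi ν T u →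
      u 0 ≠ fun x i => ∑ m ∈ Finset.range M, d m * phi m x i) ∧
    ∀ ν, 0 ≤ ν → ν ≤ ν₀ → ∀ (Tm : ℝ) (u : ℝ → V → V), 0 < Tm → IsGal phi ν Tm u →
      (u 0 = fun x i => ∑ m ∈ Finset.range M, d m * phi m x i) →
      (∀ T' u', IsGal phi ν T' u' → u' 0 = u 0 → T' ≤ Tm) →
      ∀ m, m0 ≤ m → ∃ t ∈ Ico 0 Tm, δ * al m ≤ |ip (u t) (phi m)|

/-- the norms are unbounded if the cascade is complete -/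
def S_unb : Prop := ∀ (p m0 : ℕ) (ν T δ : ℝ) (u : ℝ → V → V), 1 ≤ p → 0 < T → 0 < δ →
  IsPr (Sc p) ν T u →
  (∀ m, m0 ≤ m → ∃ t ∈ Ico 0 T, δ * al m ≤
    |ip (fun x => (p : ℝ) • u t ((p : ℝ)⁻¹ • x)) (phi m)|) →
  (∀ r : ℝ, 0 < r → ∀ B : ℝ, ∃ t ∈ Ico 0 T, ENNReal.ofReal B < hs r (u t)) ∧
  ∀ B : ℝ, ∃ t ∈ Ico 0 T, B < ∫ x in cube, (∑ i, u t x i ^ 2) ^ (3 / 2 : ℝ)

end Pool.Agent.H226.GB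

end
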